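import Pool.Agent.MR.ADefs

set_option autoImplicit false

open Finset MeasureTheory

namespace Pool.Agent.MR

section amvtaux

open Complex

/-- Fourier transform of a Gaussian. -/
lemma amvt_integral_exp_gauss (T : ℝ) (hT : 0 < T) (u : ℝ) :
    ∫ t : ℝ, cexp (-(t * u : ℝ) * I) * ((Real.exp (-(t / T) ^ 2) : ℝ) : ℂ)
      = ((√Real.pi * T * Real.exp (-(T * u / 2) ^ 2) : ℝ) : ℂ) := by
  have hb : 0 < ((1 / T ^ 2 : ℝ) : ℂ).re := by
    rw [ofReal_re]; positivity
  have h := fourierIntegral_gaussian hb (-(u : ℂ))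
  have h1 : ∀ t : ℝ, cexp (-(t * u : ℝ) * I) * ((Real.exp (-(t / T) ^ 2) : ℝ) : ℂ)
      = cexp (I * (-(u : ℂ)) * t) * cexp (-((1 / T ^ 2 : ℝ) : ℂ) * (t : ℂ) ^ 2) := by
    intro t
    rw [ofReal_exp]
    congr 1
    · congr 1
      push_cast
      ring
    · congr 1
      push_cast
      ring
  simp_rw [h1]
  rw [h]
  have h2 : ((Real.pi : ℂ) / ((1 / T ^ 2 : ℝ) : ℂ)) ^ (1 / 2 : ℂ) = ((√Real.pi * T : ℝ) : ℂ) := by
    have : ((Real.pi : ℂ) / ((1 / T ^ 2 : ℝ) : ℂ)) = ((Real.pi * T ^ 2 : ℝ) : ℂ) := by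
      push_cast
      field_simp
    rw [this]
    have h3 : (1 / 2 : ℂ) = ((1 / 2 : ℝ) : ℂ) := by push_cast; ring
    rw [h3, ← ofReal_cpow (by positivity)]
    congr 1
    rw [← Real.sqrt_eq_rpow, Real.sqrt_mul (by positivity), Real.sqrt_sq hT.le]
  rw [h2]
  have h4 : -(-(u : ℂ)) ^ 2 / (4 * ((1 / T ^ 2 : ℝ) : ℂ)) = ((-(T * u / 2) ^ 2 : ℝ) : ℂ) := by
    push_cast
    field_simp
    ring
  rw [h4, ← ofReal_exp]
  push_cast
  ring

lemma amvt_integrable_exp_gauss (T : ℝ) (hT : 0 < T) (u : ℝ) :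
    Integrable fun t : ℝ => cexp (-(t * u : ℝ) * I) * ((Real.exp (-(t / T) ^ 2) : ℝ) : ℂ) := by
  have hb : 0 < ((1 / T ^ 2 : ℝ) : ℂ).re := by
    rw [ofReal_re]; positivity
  have h := integrable_cexp_quadratic hb (-(u : ℂ) * I) 0
  refine h.congr (Filter.Eventually.of_forall fun t => ?_)
  simp only
  rw [ofReal_exp, ← Complex.exp_add]
  congr 1
  push_cast
  ring

/-- Integral of the square of an exponential polynomial against a Gaussian. -/
lemma amvt_quad {ι : Type*} (S : Finset ι) (l : ι → ℝ) (a : ι → ℂ) (T : ℝ) (hT : 0 < T) :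
    (Integrable fun t : ℝ => ‖∑ i ∈ S, a i * cexp (-(t * l i : ℝ) * I)‖ ^ 2
        * Real.exp (-(t / T) ^ 2)) ∧
    ((∫ t : ℝ, ‖∑ i ∈ S, a i * cexp (-(t * l i : ℝ) * I)‖ ^ 2
      * Real.exp (-(t / T) ^ 2) : ℝ) : ℂ)
      = ∑ i ∈ S, ∑ j ∈ S, (a i * (starRingEnd ℂ) (a j)) *
        ((√Real.pi * T * Real.exp (-(T * (l i - l j) / 2) ^ 2) : ℝ) : ℂ) := by
  have hexp : ∀ t : ℝ, ((‖∑ i ∈ S, a i * cexp (-(t * l i : ℝ) * I)‖ ^ 2
        * Real.exp (-(t / T) ^ 2) : ℝ) : ℂ)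
      = ∑ i ∈ S, ∑ j ∈ S, (a i * (starRingEnd ℂ) (a j)) *
          (cexp (-(t * (l i - l j) : ℝ) * I) * ((Real.exp (-(t / T) ^ 2) : ℝ) : ℂ)) := by
    intro t
    rw [ofReal_mul, ofReal_pow, ← Complex.mul_conj', map_sum, Finset.sum_mul_sum, Finset.sum_mul]
    refine Finset.sum_congr rfl fun i _ => ?_
    rw [Finset.sum_mul]
    refine Finset.sum_congr rfl fun j _ => ?_
    rw [map_mul, ← Complex.exp_conj]
    have : (starRingEnd ℂ) (-((t * l j : ℝ) : ℂ) * I) = ((t * l j : ℝ) : ℂ) * I := by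
      rw [map_mul, map_neg, conj_I, conj_ofReal]
      ring
    rw [this]
    have h2 : cexp (-((t * (l i - l j) : ℝ) : ℂ) * I)
        = cexp (-((t * l i : ℝ) : ℂ) * I) * cexp (((t * l j : ℝ) : ℂ) * I) := by
      rw [← Complex.exp_add]
      congr 1
      push_cast
      ring
    rw [h2]
    ring
  have hint : ∀ i ∈ S, ∀ j ∈ S, Integrable fun t : ℝ => (a i * (starRingEnd ℂ) (a j)) *
          (cexp (-(t * (l i - l j) : ℝ) * I) * ((Real.exp (-(t / T) ^ 2) : ℝ) : ℂ)) :=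
    fun i _ j _ => (amvt_integrable_exp_gauss T hT _).const_mul _
  have hintS : Integrable fun t : ℝ => ∑ i ∈ S, ∑ j ∈ S, (a i * (starRingEnd ℂ) (a j)) *
          (cexp (-(t * (l i - l j) : ℝ) * I) * ((Real.exp (-(t / T) ^ 2) : ℝ) : ℂ)) :=
    integrable_finsetSum _ fun i hi => integrable_finsetSum _ fun j hj => hint i hi j hj
  have hI : Integrable fun t : ℝ => ‖∑ i ∈ S, a i * cexp (-(t * l i : ℝ) * I)‖ ^ 2
        * Real.exp (-(t / T) ^ 2) := by
    have h := hintS.re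
    refine h.congr (Filter.Eventually.of_forall fun t => ?_)
    simp only
    rw [← hexp t]
    exact ofReal_re _
  refine ⟨hI, ?_⟩
  rw [← integral_complex_ofReal]
  simp_rw [hexp]
  rw [integral_finsetSum _ fun i hi => integrable_finsetSum _ fun j hj => hint i hi j hj]
  refine Finset.sum_congr rfl fun i hi => ?_
  rw [integral_finsetSum _ fun j hj => hint i hi j hj]
  refine Finset.sum_congr rfl fun j hj => ?_
  rw [integral_const_mul, amvt_integral_exp_gauss T hT]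

/-- Mean value theorem with a Gaussian weight, general frequencies. -/
lemma amvt_mean_value {ι : Type*} (S : Finset ι) (l : ι → ℝ) (a : ι → ℂ) (T B : ℝ)
    (hT : 0 < T) (hB : ∀ i ∈ S, ∑ j ∈ S, Real.exp (-(T * (l i - l j) / 2) ^ 2) ≤ B) :
    ∫ t : ℝ, ‖∑ i ∈ S, a i * cexp (-(t * l i : ℝ) * I)‖ ^ 2 * Real.exp (-(t / T) ^ 2)
      ≤ √Real.pi * T * B * ∑ i ∈ S, ‖a i‖ ^ 2 := by
  obtain ⟨hI, hval⟩ := amvt_quad S l a T hT
  set g : ι → ι → ℝ := fun i j => Real.exp (-(T * (l i - l j) / 2) ^ 2) with hg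
  have hnn : 0 ≤ ∫ t : ℝ, ‖∑ i ∈ S, a i * cexp (-(t * l i : ℝ) * I)‖ ^ 2
      * Real.exp (-(t / T) ^ 2) :=
    integral_nonneg fun t => by positivity
  have hsymm : ∀ i j, g i j = g j i := by
    intro i j
    simp only [hg]
    congr 1
    ring
  have hgn : ∀ i j, 0 ≤ g i j := fun i j => (Real.exp_pos _).le
  have hpiT : 0 ≤ √Real.pi * T := by positivity
  calc ∫ t : ℝ, ‖∑ i ∈ S, a i * cexp (-(t * l i : ℝ) * I)‖ ^ 2 * Real.exp (-(t / T) ^ 2)
      = ‖((∫ t : ℝ, ‖∑ i ∈ S, a i * cexp (-(t * l i : ℝ) * I)‖ ^ 2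
          * Real.exp (-(t / T) ^ 2) : ℝ) : ℂ)‖ := by
        rw [norm_real, Real.norm_of_nonneg hnn]
    _ ≤ ∑ i ∈ S, ∑ j ∈ S, ‖a i‖ * ‖a j‖ * (√Real.pi * T * g i j) := by
        rw [hval]
        refine (norm_sum_le _ _).trans (Finset.sum_le_sum fun i _ => ?_)
        refine (norm_sum_le _ _).trans (Finset.sum_le_sum fun j _ => ?_)
        rw [norm_mul, norm_mul, RCLike.norm_conj, norm_real,
          Real.norm_of_nonneg (mul_nonneg hpiT (hgn i j))]
    _ ≤ ∑ i ∈ S, ∑ j ∈ S, (‖a i‖ ^ 2 + ‖a j‖ ^ 2) / 2 * (√Real.pi * T * g i j) := by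
        refine Finset.sum_le_sum fun i _ => Finset.sum_le_sum fun j _ => ?_
        refine mul_le_mul_of_nonneg_right ?_ (mul_nonneg hpiT (hgn i j))
        nlinarith [sq_nonneg (‖a i‖ - ‖a j‖)]
    _ = ∑ i ∈ S, ∑ j ∈ S, ‖a i‖ ^ 2 * (√Real.pi * T * g i j) := by
        have h1 : ∑ i ∈ S, ∑ j ∈ S, (‖a i‖ ^ 2 + ‖a j‖ ^ 2) / 2 * (√Real.pi * T * g i j)
            = (∑ i ∈ S, ∑ j ∈ S, ‖a i‖ ^ 2 * (√Real.pi * T * g i j)) / 2
              + (∑ i ∈ S, ∑ j ∈ S, ‖a j‖ ^ 2 * (√Real.pi * T * g i j)) / 2 := by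
          rw [Finset.sum_div, Finset.sum_div, ← Finset.sum_add_distrib]
          refine Finset.sum_congr rfl fun i _ => ?_
          rw [Finset.sum_div, Finset.sum_div, ← Finset.sum_add_distrib]
          refine Finset.sum_congr rfl fun j _ => ?_
          ring
        have h2 : ∑ i ∈ S, ∑ j ∈ S, ‖a j‖ ^ 2 * (√Real.pi * T * g i j)
            = ∑ i ∈ S, ∑ j ∈ S, ‖a i‖ ^ 2 * (√Real.pi * T * g i j) := by
          rw [Finset.sum_comm]
          refine Finset.sum_congr rfl fun i _ => Finset.sum_congr rfl fun j _ => ?_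
          rw [hsymm]
        rw [h1, h2]
        ring
    _ ≤ √Real.pi * T * B * ∑ i ∈ S, ‖a i‖ ^ 2 := by
        rw [Finset.mul_sum]
        refine Finset.sum_le_sum fun i hi => ?_
        have h3 : ∑ j ∈ S, ‖a i‖ ^ 2 * (√Real.pi * T * g i j)
            = ‖a i‖ ^ 2 * (√Real.pi * T) * ∑ j ∈ S, g i j := by
          rw [Finset.mul_sum]
          refine Finset.sum_congr rfl fun j _ => ?_
          ring
        rw [h3]
        calc ‖a i‖ ^ 2 * (√Real.pi * T) * ∑ j ∈ S, g i j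
            ≤ ‖a i‖ ^ 2 * (√Real.pi * T) * B :=
              mul_le_mul_of_nonneg_left (hB i hi) (by positivity)
          _ = √Real.pi * T * B * ‖a i‖ ^ 2 := by ring

/-- A sum of values of a Gaussian. -/
lemma amvt_sum_gauss_le (c : ℝ) (hc : 0 < c) (n : ℕ) :
    ∑ k ∈ range n, Real.exp (-(c * ((k + 1 : ℕ) : ℝ)) ^ 2) ≤ √Real.pi / (2 * c) := by
  have hanti : AntitoneOn (fun x : ℝ => Real.exp (-(c ^ 2) * x ^ 2)) (Set.Icc (0 : ℝ) (0 + n)) := by
    intro x hx y hy hxy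
    simp only
    rw [Real.exp_le_exp]
    have : x ^ 2 ≤ y ^ 2 := pow_le_pow_left₀ hx.1 hxy 2
    nlinarith [sq_nonneg c]
  have h := hanti.sum_le_integral
  have h1 : ∑ k ∈ range n, Real.exp (-(c * ((k + 1 : ℕ) : ℝ)) ^ 2)
      = ∑ i ∈ range n, (fun x : ℝ => Real.exp (-(c ^ 2) * x ^ 2)) (0 + ((i + 1 : ℕ) : ℝ)) := by
    refine Finset.sum_congr rfl fun k _ => ?_
    simp only
    congr 1
    ring
  rw [h1]
  refine h.trans ?_
  have hint : IntegrableOn (fun x : ℝ => Real.exp (-(c ^ 2) * x ^ 2)) (Set.Ioi 0) :=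
    (integrable_exp_neg_mul_sq (by positivity)).integrableOn
  have h2 : ∫ x in (0 : ℝ)..(0 + n), Real.exp (-(c ^ 2) * x ^ 2)
      ≤ ∫ x in Set.Ioi (0 : ℝ), Real.exp (-(c ^ 2) * x ^ 2) := by
    rw [intervalIntegral.integral_of_le (by positivity)]
    refine setIntegral_mono_set hint ?_ ?_
    · exact Filter.Eventually.of_forall fun x => (Real.exp_pos _).le
    · exact (Set.Ioc_subset_Ioi_self).eventuallyLE
  refine h2.trans ?_
  rw [integral_gaussian_Ioi, Real.sqrt_div (by positivity), Real.sqrt_sq hc.le]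
  apply le_of_eq
  field_simp

/-- The spacing of logarithms of integers up to `N`. -/
lemma amvt_log_spacing (N m n : ℕ) (hm : 1 ≤ m) (hn : 1 ≤ n) (hmN : m ≤ N) (hnm : n ≤ m) :
    ((m - n : ℕ) : ℝ) / N ≤ Real.log m - Real.log n := by
  have hm0 : (0 : ℝ) < m := by exact_mod_cast hm
  have hn0 : (0 : ℝ) < n := by exact_mod_cast hn
  have hN0 : (0 : ℝ) < N := lt_of_lt_of_le hm0 (by exact_mod_cast hmN)
  rw [← Real.log_div hm0.ne' hn0.ne']
  have h1 := Real.one_sub_inv_le_log_of_pos (div_pos hm0 hn0)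
  refine le_trans ?_ h1
  rw [inv_div, Nat.cast_sub hnm]
  have : 1 - (n : ℝ) / m = ((m : ℝ) - n) / m := by field_simp
  rw [this]
  have h0 : (0 : ℝ) ≤ (m : ℝ) - n := sub_nonneg.2 (by exact_mod_cast hnm)
  exact div_le_div_of_nonneg_left h0 hm0 (by exact_mod_cast hmN)

lemma amvt_sum_gauss_log (N : ℕ) (S : Finset ℕ) (hS : ∀ n ∈ S, 1 ≤ n ∧ n ≤ N) (T : ℝ) (hT : 0 < T)
    (m : ℕ) (hm : m ∈ S) :
    ∑ n ∈ S, Real.exp (-(T * (Real.log m - Real.log n) / 2) ^ 2)
      ≤ 1 + 2 * (√Real.pi * N / T) := by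
  obtain ⟨hm1, hmN⟩ := hS m hm
  have hN0 : (0 : ℝ) < N := by exact_mod_cast (lt_of_lt_of_le hm1 hmN)
  set c : ℝ := T / (2 * N) with hc
  have hc0 : 0 < c := by positivity
  set g : ℕ → ℝ := fun k => Real.exp (-(c * (k : ℝ)) ^ 2) with hg
  have hsum : ∑ k ∈ range N, g (k + 1) ≤ √Real.pi * N / T := by
    refine (amvt_sum_gauss_le c hc0 N).trans (le_of_eq ?_)
    rw [hc]
    field_simp
  have key : ∀ n ∈ S, Real.exp (-(T * (Real.log m - Real.log n) / 2) ^ 2)
      ≤ g (m - n) * (if n ≤ m then 1 else 0) + g (n - m) * (if m < n then 1 else 0) := by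
    intro n hn
    obtain ⟨hn1, hnN⟩ := hS n hn
    rcases le_or_gt n m with h | h
    · rw [if_pos h, if_neg (not_lt.2 h)]
      simp only [mul_one, mul_zero, add_zero, hg]
      rw [Real.exp_le_exp, neg_le_neg_iff]
      refine pow_le_pow_left₀ (by positivity) ?_ 2
      have := amvt_log_spacing N m n hm1 hn1 hmN h
      calc c * ((m - n : ℕ) : ℝ) = T * (((m - n : ℕ) : ℝ) / N) / 2 := by
            rw [hc]; field_simp
        _ ≤ T * (Real.log m - Real.log n) / 2 := by gcongr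
    · rw [if_neg (not_le.2 h), if_pos h]
      simp only [mul_one, mul_zero, zero_add, hg]
      rw [Real.exp_le_exp, neg_le_neg_iff]
      have h5 : (T * (Real.log m - Real.log n) / 2) ^ 2
          = (T * (Real.log n - Real.log m) / 2) ^ 2 := by ring
      rw [h5]
      refine pow_le_pow_left₀ (by positivity) ?_ 2
      have := amvt_log_spacing N n m hn1 hm1 hnN h.le
      calc c * ((n - m : ℕ) : ℝ) = T * (((n - m : ℕ) : ℝ) / N) / 2 := by
            rw [hc]; field_simp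
        _ ≤ T * (Real.log n - Real.log m) / 2 := by gcongr
  refine (Finset.sum_le_sum key).trans ?_
  rw [Finset.sum_add_distrib]
  have hgn : ∀ k, 0 ≤ g k := fun k => (Real.exp_pos _).le
  have h1 : ∑ n ∈ S, g (m - n) * (if n ≤ m then (1 : ℝ) else 0) ≤ 1 + √Real.pi * N / T := by
    calc ∑ n ∈ S, g (m - n) * (if n ≤ m then (1 : ℝ) else 0)
        = ∑ n ∈ S.filter (fun n => n ≤ m), g (m - n) := by
          rw [Finset.sum_filter]
          refine Finset.sum_congr rfl fun n _ => ?_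
          split_ifs <;> simp
      _ = ∑ k ∈ (S.filter (fun n => n ≤ m)).image (fun n => m - n), g k := by
          rw [Finset.sum_image]
          intro x hx y hy hxy
          have hx' := (Finset.mem_filter.1 (Finset.mem_coe.1 hx)).2
          have hy' := (Finset.mem_filter.1 (Finset.mem_coe.1 hy)).2
          simp only at hxy
          omega
      _ ≤ ∑ k ∈ range (N + 1), g k := by
          refine Finset.sum_le_sum_of_subset_of_nonneg ?_ fun k _ _ => hgn k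
          intro k hk
          obtain ⟨n, hn, rfl⟩ := Finset.mem_image.1 hk
          rw [Finset.mem_range]
          omega
      _ = ∑ k ∈ range N, g (k + 1) + g 0 := Finset.sum_range_succ' g N
      _ ≤ √Real.pi * N / T + 1 := by
          have : g 0 = 1 := by simp [hg]
          rw [this]
          linarith
      _ = 1 + √Real.pi * N / T := by ring
  have h2 : ∑ n ∈ S, g (n - m) * (if m < n then (1 : ℝ) else 0) ≤ √Real.pi * N / T := by
    calc ∑ n ∈ S, g (n - m) * (if m < n then (1 : ℝ) else 0)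
        = ∑ n ∈ S.filter (fun n => m < n), g (n - m - 1 + 1) := by
          rw [Finset.sum_filter]
          refine Finset.sum_congr rfl fun n _ => ?_
          split_ifs with h
          · rw [mul_one]
            congr 1
            omega
          · simp
      _ = ∑ k ∈ (S.filter (fun n => m < n)).image (fun n => n - m - 1), g (k + 1) := by
          rw [Finset.sum_image]
          intro x hx y hy hxy
          have hx' := (Finset.mem_filter.1 (Finset.mem_coe.1 hx)).2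
          have hy' := (Finset.mem_filter.1 (Finset.mem_coe.1 hy)).2
          simp only at hxy
          omega
      _ ≤ ∑ k ∈ range N, g (k + 1) := by
          refine Finset.sum_le_sum_of_subset_of_nonneg ?_ fun k _ _ => hgn _
          intro k hk
          obtain ⟨n, hn, rfl⟩ := Finset.mem_image.1 hk
          have := (Finset.mem_filter.1 hn).2
          have h6 := (hS n (Finset.mem_filter.1 hn).1).2
          rw [Finset.mem_range]
          omega
      _ ≤ √Real.pi * N / T := hsum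
  linarith


end amvtaux

theorem continuous_ni (n : ℕ) : Continuous (ni n) := by
  unfold ni
  fun_prop

theorem norm_ni (n : ℕ) (t : ℝ) : ‖ni n t‖ = 1 := by
  unfold ni
  rw [show (-((t * Real.log n : ℝ) : ℂ) * Complex.I) = ((-(t * Real.log n) : ℝ) : ℂ) * Complex.I by
    push_cast; ring]
  exact Complex.norm_exp_ofReal_mul_I _

theorem continuous_dp (s : Finset ℕ) (c : ℕ → ℂ) : Continuous (dp s c) := by
  unfold dp
  exact continuous_finsetSum _ fun n _ => continuous_const.mul (continuous_ni n)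

theorem norm_dp_le (s : Finset ℕ) (c : ℕ → ℂ) (t : ℝ) : ‖dp s c t‖ ≤ ∑ n ∈ s, ‖c n‖ := by
  unfold dp
  refine (norm_sum_le _ _).trans (Finset.sum_le_sum fun n _ => ?_)
  rw [norm_mul, norm_ni, mul_one]

theorem integrable_gw_one (T : ℝ) (hT : 0 < T) : Integrable (gw T) := by
  have h := integrable_exp_neg_mul_sq (b := 1 / T ^ 2) (by positivity)
  refine h.congr (Filter.Eventually.of_forall fun t => ?_)
  simp only [gw]
  congr 1
  ring

theorem continuous_gw (T : ℝ) : Continuous (gw T) := by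
  unfold gw
  fun_prop

/-- Continuous functions with bounded norm are square integrable for the Gaussian weight. -/
theorem integrable_gw (g : ℝ → ℂ) (hg : Continuous g) (K : ℝ) (hK : ∀ t, ‖g t‖ ≤ K) (T : ℝ)
    (hT : 0 < T) : Integrable (fun t => ‖g t‖ ^ 2 * gw T t) := by
  refine ((integrable_gw_one T hT).const_mul (K ^ 2)).mono' ?_ ?_
  · exact ((hg.norm.pow 2).mul (continuous_gw T)).aestronglyMeasurable
  · refine Filter.Eventually.of_forall fun t => ?_
    have h1 : 0 ≤ gw T t := (Real.exp_pos _).le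
    rw [Real.norm_of_nonneg (by positivity)]
    exact mul_le_mul_of_nonneg_right (pow_le_pow_left₀ (norm_nonneg _) (hK t) 2) h1

theorem integrable_dp (s : Finset ℕ) (c : ℕ → ℂ) (T : ℝ) (hT : 0 < T) :
    Integrable (fun t => ‖dp s c t‖ ^ 2 * gw T t) :=
  integrable_gw (dp s c) (continuous_dp s c) _ (norm_dp_le s c) T hT

/-- Mean value theorem. -/
theorem mvt (T : ℝ) (hT : 0 < T) (Y : ℕ) (c : ℕ → ℂ) :
    ∫ t, ‖dp (Icc 1 Y) c t‖ ^ 2 * gw T t ≤ 10 * (T + Y) * ∑ n ∈ Icc 1 Y, ‖c n‖ ^ 2 := by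
  have hS : ∀ n ∈ Icc 1 Y, 1 ≤ n ∧ n ≤ Y := fun n hn => Finset.mem_Icc.1 hn
  have h := amvt_mean_value (Icc 1 Y) (fun n : ℕ => Real.log n) c T
    (1 + 2 * (√Real.pi * Y / T)) hT (fun m hm => amvt_sum_gauss_log Y _ hS T hT m hm)
  refine le_trans h ?_
  refine mul_le_mul_of_nonneg_right ?_ (Finset.sum_nonneg fun n _ => by positivity)
  have h1 : √Real.pi * T * (1 + 2 * (√Real.pi * Y / T)) = √Real.pi * T + 2 * Real.pi * Y := by
    have h2 : √Real.pi * √Real.pi = Real.pi := Real.mul_self_sqrt Real.pi_pos.le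
    have : √Real.pi * T * (1 + 2 * (√Real.pi * Y / T))
        = √Real.pi * T + 2 * (√Real.pi * √Real.pi) * Y := by
      field_simp
    rw [this, h2]
  rw [h1]
  have h3 : √Real.pi ≤ 2 := by
    rw [show (2 : ℝ) = √4 by rw [show (4 : ℝ) = 2 ^ 2 by norm_num]; simp]
    exact Real.sqrt_le_sqrt Real.pi_le_four
  have h4 : Real.pi ≤ 3.15 := by
    have := Real.pi_lt_d2
    linarith
  have hY : (0 : ℝ) ≤ Y := Nat.cast_nonneg Y
  nlinarith

lemma amvt_bump (θ : ℝ) (hθ : 0 < θ) (x y u : ℝ) :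
    Real.exp (-(u - x) ^ 2 / (2 * θ ^ 2)) * Real.exp (-(u - y) ^ 2 / (2 * θ ^ 2))
      = Real.exp (-((1 / θ) * (x - y) / 2) ^ 2) * Real.exp (-(1 / θ ^ 2) * (u - (x + y) / 2) ^ 2) := by
  rw [← Real.exp_add, ← Real.exp_add]
  congr 1
  field_simp
  ring

lemma amvt_integrable_bump (θ : ℝ) (hθ : 0 < θ) (x y : ℝ) :
    Integrable fun u : ℝ =>
      Real.exp (-(u - x) ^ 2 / (2 * θ ^ 2)) * Real.exp (-(u - y) ^ 2 / (2 * θ ^ 2)) := by
  have h := ((integrable_exp_neg_mul_sq (b := 1 / θ ^ 2) (by positivity)).comp_sub_right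
    ((x + y) / 2)).const_mul (Real.exp (-((1 / θ) * (x - y) / 2) ^ 2))
  refine h.congr (Filter.Eventually.of_forall fun u => ?_)
  simp only
  rw [amvt_bump θ hθ]

lemma amvt_integral_bump (θ : ℝ) (hθ : 0 < θ) (x y : ℝ) :
    ∫ u : ℝ, Real.exp (-(u - x) ^ 2 / (2 * θ ^ 2)) * Real.exp (-(u - y) ^ 2 / (2 * θ ^ 2))
      = √Real.pi * θ * Real.exp (-((1 / θ) * (x - y) / 2) ^ 2) := by
  simp_rw [amvt_bump θ hθ]
  rw [integral_const_mul, integral_sub_right_eq_self (fun u => Real.exp (-(1 / θ ^ 2) * u ^ 2)),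
    integral_gaussian]
  have : Real.pi / (1 / θ ^ 2) = Real.pi * θ ^ 2 := by field_simp
  rw [this, Real.sqrt_mul Real.pi_pos.le, Real.sqrt_sq hθ.le]
  ring

lemma amvt_expand (s : Finset ℕ) (c : ℕ → ℂ) (g : ℕ → ℝ) :
    ((‖∑ n ∈ s, c n * (g n : ℂ)‖ ^ 2 : ℝ) : ℂ)
      = ∑ m ∈ s, ∑ n ∈ s, (c m * (starRingEnd ℂ) (c n)) * ((g m * g n : ℝ) : ℂ) := by
  rw [Complex.ofReal_pow, ← Complex.mul_conj', map_sum, Finset.sum_mul_sum]
  refine Finset.sum_congr rfl fun i _ => Finset.sum_congr rfl fun j _ => ?_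
  rw [map_mul, Complex.conj_ofReal]
  push_cast
  ring

lemma amvt_integrable_terms (s : Finset ℕ) (c : ℕ → ℂ) (θ : ℝ) (hθ : 0 < θ) (m n : ℕ) :
    Integrable fun u : ℝ => (c m * (starRingEnd ℂ) (c n)) *
      ((Real.exp (-(u - Real.log m) ^ 2 / (2 * θ ^ 2))
        * Real.exp (-(u - Real.log n) ^ 2 / (2 * θ ^ 2)) : ℝ) : ℂ) :=
  (amvt_integrable_bump θ hθ _ _).ofReal.const_mul _

/-- Integrability of the left-hand side of `gauss_parseval`. -/
theorem integrable_gauss (s : Finset ℕ) (c : ℕ → ℂ) (θ : ℝ) (hθ : 0 < θ) :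
    Integrable (fun u : ℝ =>
      ‖∑ n ∈ s, c n * (Real.exp (-(u - Real.log n) ^ 2 / (2 * θ ^ 2)) : ℂ)‖ ^ 2) := by
  have h : Integrable fun u : ℝ => ∑ m ∈ s, ∑ n ∈ s, (c m * (starRingEnd ℂ) (c n)) *
      ((Real.exp (-(u - Real.log m) ^ 2 / (2 * θ ^ 2))
        * Real.exp (-(u - Real.log n) ^ 2 / (2 * θ ^ 2)) : ℝ) : ℂ) :=
    integrable_finsetSum _ fun m _ => integrable_finsetSum _ fun n _ =>
      amvt_integrable_terms s c θ hθ m n
  refine h.re.congr (Filter.Eventually.of_forall fun u => ?_)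
  simp only
  rw [← amvt_expand s c (fun n => Real.exp (-(u - Real.log n) ^ 2 / (2 * θ ^ 2)))]
  exact Complex.ofReal_re _

/-- Gaussian-smoothed short sums in terms of the Dirichlet polynomial. -/
theorem gauss_parseval (s : Finset ℕ) (hs : ∀ n ∈ s, 0 < n) (c : ℕ → ℂ) (θ : ℝ) (hθ : 0 < θ) :
    ∫ u : ℝ, ‖∑ n ∈ s, c n * (Real.exp (-(u - Real.log n) ^ 2 / (2 * θ ^ 2)) : ℂ)‖ ^ 2
      = θ ^ 2 * ∫ t, ‖dp s c t‖ ^ 2 * gw (1 / θ) t := by
  have hR := (amvt_quad s (fun n : ℕ => Real.log n) c (1 / θ) (by positivity)).2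
  apply Complex.ofReal_injective
  have hR' : ((∫ t, ‖dp s c t‖ ^ 2 * gw (1 / θ) t : ℝ) : ℂ)
      = ∑ i ∈ s, ∑ j ∈ s, (c i * (starRingEnd ℂ) (c j)) *
        ((√Real.pi * (1 / θ) * Real.exp (-((1 / θ) * (Real.log i - Real.log j) / 2) ^ 2) : ℝ) : ℂ) :=
    hR
  rw [Complex.ofReal_mul, hR', Finset.mul_sum, ← integral_complex_ofReal]
  have hexp : ∀ u : ℝ,
      ((‖∑ n ∈ s, c n * (Real.exp (-(u - Real.log n) ^ 2 / (2 * θ ^ 2)) : ℂ)‖ ^ 2 : ℝ) : ℂ)
      = ∑ m ∈ s, ∑ n ∈ s, (c m * (starRingEnd ℂ) (c n)) *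
      ((Real.exp (-(u - Real.log m) ^ 2 / (2 * θ ^ 2))
        * Real.exp (-(u - Real.log n) ^ 2 / (2 * θ ^ 2)) : ℝ) : ℂ) := fun u =>
    amvt_expand s c (fun n => Real.exp (-(u - Real.log n) ^ 2 / (2 * θ ^ 2)))
  simp_rw [hexp]
  rw [integral_finsetSum _ fun m _ => integrable_finsetSum _ fun n _ =>
      amvt_integrable_terms s c θ hθ m n]
  refine Finset.sum_congr rfl fun m _ => ?_
  rw [integral_finsetSum _ fun n _ => amvt_integrable_terms s c θ hθ m n, Finset.mul_sum]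
  refine Finset.sum_congr rfl fun n _ => ?_
  rw [integral_const_mul, integral_complex_ofReal, amvt_integral_bump θ hθ]
  have h5 : √Real.pi * θ * Real.exp (-((1 / θ) * (Real.log m - Real.log n) / 2) ^ 2)
      = θ ^ 2 * (√Real.pi * (1 / θ) * Real.exp (-((1 / θ) * (Real.log m - Real.log n) / 2) ^ 2)) := by
    field_simp
  rw [h5]
  push_cast
  ring

end Pool.Agent.MR
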