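import Pool.Agent.MR.BDefs

set_option autoImplicit false

open Finset

namespace Pool.Agent.MR

theorem tau_mul_le (a b : ℕ) :
    (a * b).divisors.card ≤ a.divisors.card * b.divisors.card := by
  rw [Nat.divisors_mul]
  exact Finset.card_mul_le

theorem tau_cancel {n k x m' : ℕ} (h1 : n < x) (h2 : (x * m') ≤ n ^ (k + 1)) : m' ≤ n ^ k := by
  by_contra hcon
  push Not at hcon
  have h3 : n * n ^ k < x * m' := by
    apply Nat.mul_lt_mul_of_le_of_lt h1.le hcon
    omega
  rw [pow_succ] at h2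
  have : n * n ^ k = n ^ k * n := mul_comm _ _
  omega

theorem landreau_aux (n T : ℕ) (hn : 1 ≤ n)
    (hT : ∀ d, d ∣ n → d ^ 4 ≤ n → d.divisors.card ≤ T) :
    ∀ k m : ℕ, m ∣ n → m ^ 8 ≤ n ^ k → m.divisors.card ≤ (2 * T) ^ k := by
  have hT1 : 1 ≤ T := by
    have := hT 1 (one_dvd _) (by simpa using hn)
    simpa using this
  intro k
  induction k with
  | zero =>
    intro m hm h
    have hm1 : 1 ≤ m := Nat.pos_of_dvd_of_pos hm hn
    have : m ≤ 1 := by
      by_contra hcon
      push Not at hcon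
      have h2 : 1 < m ^ 8 := Nat.one_lt_pow (by norm_num) hcon
      simp at h
      omega
    have hm' : m = 1 := by omega
    subst hm'
    simp
  | succ k ih =>
    intro m hm h
    have hm1 : 1 ≤ m := Nat.pos_of_dvd_of_pos hm hn
    by_cases h4 : m ^ 4 ≤ n
    · have h5 := hT m hm h4
      have h6 : 2 * T ≤ (2 * T) ^ (k + 1) := Nat.le_self_pow (by omega) _
      omega
    · push Not at h4
      by_cases hp : ∃ p : ℕ, p.Prime ∧ p ∣ m ∧ n < p ^ 8
      · obtain ⟨p, hpp, ⟨m', rfl⟩, hlt⟩ := hp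
        have hm' : m' ∣ n := (Dvd.intro_left p rfl).trans hm
        have h7 : m' ^ 8 ≤ n ^ k := by
          apply tau_cancel hlt
          rw [← mul_pow]; exact h
        have h8 := ih m' hm' h7
        have h9 := tau_mul_le p m'
        have h10 : p.divisors.card = 2 := by
          rw [hpp.divisors, Finset.card_pair hpp.one_lt.ne]
        rw [h10] at h9
        calc (p * m').divisors.card ≤ 2 * m'.divisors.card := h9
          _ ≤ (2 * T) * (2 * T) ^ k := by
            apply Nat.mul_le_mul (by omega) h8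
          _ = (2 * T) ^ (k + 1) := by rw [pow_succ, mul_comm]
      · push Not at hp
        obtain ⟨d, hd, hdmax⟩ := Finset.exists_max_image (m.divisors.filter (fun d => d ^ 4 ≤ n))
          (fun d => d) ⟨1, by simp [hn]; omega⟩
        rw [Finset.mem_filter, Nat.mem_divisors] at hd
        obtain ⟨⟨⟨m', rfl⟩, hd0⟩, hd4⟩ := hd
        have hm'0 : m' ≠ 0 := by rintro rfl; simp at hd0
        have hdpos : 0 < d := by
          rcases Nat.eq_zero_or_pos d with h0 | h0
          · subst h0; simp at hd0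
          · exact h0
        have hm'1 : m' ≠ 1 := by
          rintro rfl
          rw [mul_one] at h4
          omega
        obtain ⟨p, hpp, ⟨m'', hm''⟩⟩ := Nat.exists_prime_and_dvd hm'1
        have hdp : n < (d * p) ^ 4 := by
          by_contra hcon
          push Not at hcon
          have hmem : d * p ∈ (d * m').divisors.filter (fun d => d ^ 4 ≤ n) := by
            rw [Finset.mem_filter, Nat.mem_divisors]
            refine ⟨⟨⟨m'', ?_⟩, hd0⟩, hcon⟩
            rw [hm'', mul_assoc]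
          have h11 := hdmax _ hmem
          have h12 : d * 1 < d * p := Nat.mul_lt_mul_of_pos_left hpp.one_lt hdpos
          omega
        have hp8 : p ^ 8 ≤ n := by
          apply hp p hpp
          exact ⟨d * m'', by rw [hm'']; ring⟩
        have hd8 : n < d ^ 8 := by
          by_contra hcon
          push Not at hcon
          have h13 : n ^ 2 < ((d * p) ^ 4) ^ 2 := Nat.pow_lt_pow_left hdp (by norm_num)
          have h14 : ((d * p) ^ 4) ^ 2 = d ^ 8 * p ^ 8 := by ring
          have h15 : d ^ 8 * p ^ 8 ≤ n * n := Nat.mul_le_mul hcon hp8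
          rw [h14, pow_two] at h13
          omega
        have h7 : m' ^ 8 ≤ n ^ k := by
          apply tau_cancel hd8
          rw [← mul_pow]; exact h
        have hm'n : m' ∣ n := (Dvd.intro_left d rfl).trans hm
        have hdn : d ∣ n := (Dvd.intro m' rfl).trans hm
        have h8 := ih m' hm'n h7
        have h9 := tau_mul_le d m'
        have h10 := hT d hdn hd4
        calc (d * m').divisors.card ≤ d.divisors.card * m'.divisors.card := h9
          _ ≤ (2 * T) * (2 * T) ^ k := Nat.mul_le_mul (by omega) h8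
          _ = (2 * T) ^ (k + 1) := by rw [pow_succ, mul_comm]

/-- Divisor bound of Landreau type: `τ(n) ≤ K τ(d)^K` for some divisor `d ≤ n^{1/4}`. -/
theorem landreau : ∃ K : ℕ, ∀ n : ℕ, 1 ≤ n → ∃ d : ℕ, d ∣ n ∧ d ^ 4 ≤ n ∧
    n.divisors.card ≤ K * d.divisors.card ^ K := by
  refine ⟨256, fun n hn => ?_⟩
  obtain ⟨d, hd, hdmax⟩ := Finset.exists_max_image (n.divisors.filter (fun d => d ^ 4 ≤ n))
    (fun d => d.divisors.card) ⟨1, by simp [hn]; omega⟩
  rw [Finset.mem_filter, Nat.mem_divisors] at hd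
  refine ⟨d, hd.1.1, hd.2, ?_⟩
  have h := landreau_aux n d.divisors.card hn (fun e he he4 => hdmax e (by
    rw [Finset.mem_filter, Nat.mem_divisors]; exact ⟨⟨he, by omega⟩, he4⟩)) 8 n dvd_rfl le_rfl
  have hd1 : 1 ≤ d.divisors.card := by
    apply Finset.card_pos.2
    exact ⟨1, by rw [Nat.mem_divisors]; refine ⟨one_dvd _, ?_⟩; rintro rfl; have := hd.1.1; simp at this; omega⟩
  calc n.divisors.card ≤ (2 * d.divisors.card) ^ 8 := h
    _ = 256 * d.divisors.card ^ 8 := by rw [mul_pow]; norm_num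
    _ ≤ 256 * d.divisors.card ^ 256 :=
      Nat.mul_le_mul_left _ (Nat.pow_le_pow_right hd1 (by norm_num))

theorem sum_tau_succ (k N : ℕ) :
    ∑ n ∈ Icc 1 N, (n.divisors.card : ℝ) ^ (k + 1) / n ≤
      (∑ n ∈ Icc 1 N, (n.divisors.card : ℝ) ^ k / n) ^ 2 := by
  classical
  set g : ℕ × ℕ → ℝ := fun x => (x.1.divisors.card : ℝ) ^ k / x.1 *
    ((x.2.divisors.card : ℝ) ^ k / x.2) with hg
  have hg0 : ∀ x, 0 ≤ g x := fun x => by simp only [hg]; positivity
  have hpt : ∀ n ∈ Icc 1 N, (n.divisors.card : ℝ) ^ (k + 1) / n ≤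
      ∑ x ∈ Icc 1 N ×ˢ Icc 1 N, if x.1 * x.2 = n then g x else 0 := by
    intro n hn
    rw [Finset.mem_Icc] at hn
    rw [← Finset.sum_filter]
    have hsub : n.divisorsAntidiagonal ⊆
        (Icc 1 N ×ˢ Icc 1 N).filter (fun x => x.1 * x.2 = n) := by
      intro x hx
      rw [Nat.mem_divisorsAntidiagonal] at hx
      rw [Finset.mem_filter, Finset.mem_product, Finset.mem_Icc, Finset.mem_Icc]
      have h1 : x.1 ≠ 0 := by rintro h; rw [h] at hx; simp at hx; omega
      have h2 : x.2 ≠ 0 := by rintro h; rw [h] at hx; simp at hx; omega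
      have h3 : x.1 ∣ n := Dvd.intro _ hx.1
      have h4 : x.2 ∣ n := Dvd.intro_left _ hx.1
      have h5 := Nat.le_of_dvd (by omega) h3
      have h6 := Nat.le_of_dvd (by omega) h4
      refine ⟨⟨⟨by omega, by omega⟩, by omega, by omega⟩, hx.1⟩
    calc (n.divisors.card : ℝ) ^ (k + 1) / n
        = ∑ x ∈ n.divisorsAntidiagonal, (n.divisors.card : ℝ) ^ k / n := by
          have hcard : n.divisorsAntidiagonal.card = n.divisors.card := by
            rw [← Nat.map_div_right_divisors, Finset.card_map]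
          rw [Finset.sum_const, hcard]
          rw [nsmul_eq_mul, pow_succ]; ring
      _ ≤ ∑ x ∈ n.divisorsAntidiagonal, g x := by
          apply Finset.sum_le_sum
          intro x hx
          rw [Nat.mem_divisorsAntidiagonal] at hx
          have h1 : (n.divisors.card : ℝ) ≤ x.1.divisors.card * x.2.divisors.card := by
            rw [← hx.1]; exact_mod_cast tau_mul_le x.1 x.2
          have h2 : (n : ℝ) = x.1 * x.2 := by rw [← hx.1]; push_cast; ring
          have hgx : g x = ((x.1.divisors.card : ℝ) * x.2.divisors.card) ^ k / n := by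
            simp only [hg]; rw [h2, mul_pow, div_mul_div_comm]
          rw [hgx]
          apply div_le_div_of_nonneg_right _ (Nat.cast_nonneg n)
          exact pow_le_pow_left₀ (Nat.cast_nonneg _) h1 k
      _ ≤ ∑ x ∈ (Icc 1 N ×ˢ Icc 1 N).filter (fun x => x.1 * x.2 = n), g x :=
          Finset.sum_le_sum_of_subset_of_nonneg hsub (fun x _ _ => hg0 x)
  calc ∑ n ∈ Icc 1 N, (n.divisors.card : ℝ) ^ (k + 1) / n
      ≤ ∑ n ∈ Icc 1 N, ∑ x ∈ Icc 1 N ×ˢ Icc 1 N, (if x.1 * x.2 = n then g x else 0) :=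
        Finset.sum_le_sum hpt
    _ = ∑ x ∈ Icc 1 N ×ˢ Icc 1 N, ∑ n ∈ Icc 1 N, (if x.1 * x.2 = n then g x else 0) :=
        Finset.sum_comm
    _ ≤ ∑ x ∈ Icc 1 N ×ˢ Icc 1 N, g x := by
        apply Finset.sum_le_sum
        intro x _
        rw [Finset.sum_ite_eq]
        split_ifs
        · exact le_rfl
        · exact hg0 x
    _ = (∑ n ∈ Icc 1 N, (n.divisors.card : ℝ) ^ k / n) ^ 2 := by
        rw [pow_two, Finset.sum_mul_sum, Finset.sum_product]

/-- Moments of the divisor function. -/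
theorem sum_tau_pow (k : ℕ) : ∃ A : ℕ, ∃ K : ℝ, ∀ N : ℕ, 2 ≤ N →
    ∑ n ∈ Icc 1 N, (n.divisors.card : ℝ) ^ k / n ≤ K * Real.log N ^ A := by
  refine ⟨2 ^ k, 3 ^ (2 ^ k), fun N hN => ?_⟩
  rw [← mul_pow]
  have hN2 : (2 : ℝ) ≤ N := by exact_mod_cast hN
  have hlog : Real.log 2 ≤ Real.log N := Real.log_le_log (by norm_num) hN2
  have hl2 := Real.log_two_gt_d9
  induction k with
  | zero =>
    have h1 : ∑ n ∈ Icc 1 N, (n.divisors.card : ℝ) ^ 0 / n ≤ 1 + Real.log N := by
      have := harmonic_le_one_add_log N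
      rw [harmonic_eq_sum_Icc] at this
      push_cast at this
      simpa using this
    simp only [pow_zero, pow_one] at h1 ⊢
    linarith
  | succ k ih =>
    refine (sum_tau_succ k N).trans ?_
    rw [pow_succ 2 k, pow_mul]
    apply pow_le_pow_left₀ _ ih
    apply Finset.sum_nonneg; intros; positivity

theorem count_mult (a b d : ℕ) (hab : a ≤ b) (hd : 0 < d) :
    (((Ioc a b).filter (fun m => d ∣ m)).card : ℝ) ≤ ((b : ℝ) - a) / d + 1 := by
  have h := Nat.Ioc_filter_modEq_card a b hd 0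
  have h2 : (Ioc a b).filter (fun m => d ∣ m) = (Ioc a b).filter (fun m => m ≡ 0 [MOD d]) := by
    apply Finset.filter_congr
    intro m _
    rw [Nat.modEq_zero_iff_dvd]
  rw [h2]
  have h3 : ((((Ioc a b).filter (fun m => m ≡ 0 [MOD d])).card : ℤ) : ℝ) =
    ((max (⌊((b : ℚ) - (0 : ℕ)) / d⌋ - ⌊((a : ℚ) - (0 : ℕ)) / d⌋) 0 : ℤ) : ℝ) := by rw [h]
  rw [Int.cast_natCast] at h3
  rw [h3]
  have hd' : (0 : ℝ) < d := by exact_mod_cast hd
  have hab' : (a : ℝ) ≤ b := by exact_mod_cast hab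
  rw [Int.cast_max]
  apply max_le
  · push_cast
    have h4 : ((⌊((b : ℚ) - 0) / d⌋ : ℤ) : ℝ) ≤ (b : ℝ) / d := by
      have := Int.floor_le (((b : ℚ) - 0) / d)
      have h5 : (((⌊((b : ℚ) - 0) / d⌋ : ℤ) : ℚ) : ℝ) ≤ (((((b : ℚ) - 0) / d) : ℚ) : ℝ) := by
        exact_mod_cast this
      push_cast at h5
      simpa using h5
    have h6 : (a : ℝ) / d - 1 ≤ ((⌊((a : ℚ) - 0) / d⌋ : ℤ) : ℝ) := by
      have := (Int.sub_one_lt_floor (((a : ℚ) - 0) / d)).le
      have h5 : ((((((a : ℚ) - 0) / d) - 1 : ℚ)) : ℝ) ≤ (((⌊((a : ℚ) - 0) / d⌋ : ℤ) : ℚ) : ℝ) := by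
        exact_mod_cast this
      push_cast at h5
      simpa using h5
    have h7 : ((b : ℝ) - a) / d = b / d - a / d := sub_div _ _ _
    simp only [sub_zero] at h4 h6 ⊢
    linarith
  · have : 0 ≤ ((b : ℝ) - a) / d := div_nonneg (by linarith) hd'.le
    push_cast
    linarith

/-- (B4a) `∑ τ(m)^2` over `(x, x + √x]`. -/
theorem sum_tau_sq_short : ∃ A : ℕ, ∃ K X0 : ℝ, 0 < K ∧ ∀ x : ℝ, X0 ≤ x →
    ∑ m ∈ Ioc ⌊x⌋₊ ⌊x + √x⌋₊, (m.divisors.card : ℝ) ^ 2 ≤ K * √x * Real.log x ^ A := by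
  obtain ⟨K0, hK0⟩ := landreau
  obtain ⟨A, K, hK⟩ := sum_tau_pow (2 * K0)
  refine ⟨A, (K0 : ℝ) ^ 2 * 3 * (|K| + 1) + 1, 16, by positivity, fun x hx => ?_⟩
  have hx0 : (0 : ℝ) < x := by linarith
  have hsx : 4 ≤ √x := by
    apply Real.le_sqrt_of_sq_le; linarith
  have hsq : √x * √x = x := Real.mul_self_sqrt hx0.le
  have hsx1 : √x ≤ x := by nlinarith
  set a := ⌊x⌋₊
  set b := ⌊x + √x⌋₊
  have hab : a ≤ b := Nat.floor_le_floor (by linarith)
  have hb : (b : ℝ) ≤ x + √x := Nat.floor_le (by linarith)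
  have ha : x - 1 < a := by have := Nat.lt_floor_add_one x; linarith
  set D : ℕ := ⌊√x⌋₊ with hD
  have hD4 : (4 : ℕ) ≤ D := Nat.le_floor (by exact_mod_cast hsx)
  have hDx : (D : ℝ) ≤ √x := Nat.floor_le (by linarith)
  -- divisors d with d^4 ≤ m are at most D
  have hdD : ∀ m ∈ Ioc a b, ∀ d : ℕ, d ^ 4 ≤ m → d ≤ D := by
    intro m hm d hd
    rw [Finset.mem_Ioc] at hm
    apply Nat.le_floor
    have h1 : (d : ℝ) ^ 4 ≤ 2 * x := by
      have h2 : ((d ^ 4 : ℕ) : ℝ) ≤ m := by exact_mod_cast hd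
      have h3 : (m : ℝ) ≤ b := by exact_mod_cast hm.2
      push_cast at h2
      linarith
    by_contra hcon
    push Not at hcon
    have h5 : x < (d : ℝ) ^ 2 := by
      have := mul_self_lt_mul_self (Real.sqrt_nonneg x) hcon
      rw [hsq] at this; rw [pow_two]; exact this
    nlinarith
  have hpt : ∀ m ∈ Ioc a b, (m.divisors.card : ℝ) ^ 2 ≤
      ∑ d ∈ Icc 1 D, if d ∣ m then (K0 : ℝ) ^ 2 * (d.divisors.card : ℝ) ^ (2 * K0) else 0 := by
    intro m hm
    have hm' := hm
    rw [Finset.mem_Ioc] at hm'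
    obtain ⟨d, hdm, hd4, hd⟩ := hK0 m (by omega)
    have hdpos : 0 < d := Nat.pos_of_dvd_of_pos hdm (by omega)
    have hdmem : d ∈ Icc 1 D := by
      rw [Finset.mem_Icc]; exact ⟨hdpos, hdD m hm d hd4⟩
    have h1 : (m.divisors.card : ℝ) ≤ K0 * (d.divisors.card : ℝ) ^ K0 := by exact_mod_cast hd
    calc (m.divisors.card : ℝ) ^ 2 ≤ (K0 * (d.divisors.card : ℝ) ^ K0) ^ 2 :=
          pow_le_pow_left₀ (Nat.cast_nonneg _) h1 2
      _ = (if d ∣ m then (K0 : ℝ) ^ 2 * (d.divisors.card : ℝ) ^ (2 * K0) else 0) := by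
          rw [if_pos hdm, mul_pow, ← pow_mul, mul_comm K0 2]
      _ ≤ _ := by
          apply Finset.single_le_sum (f := fun d => if d ∣ m then
            (K0 : ℝ) ^ 2 * (d.divisors.card : ℝ) ^ (2 * K0) else 0) _ hdmem
          intro e _
          split_ifs
          · positivity
          · exact le_rfl
  have hKD := hK D (by omega)
  have hlogD : Real.log D ≤ Real.log x := by
    apply Real.log_le_log
    · have : 0 < D := by omega
      exact_mod_cast this
    · linarith
  have hlogD0 : 0 ≤ Real.log D := Real.log_natCast_nonneg D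
  have hlogx1 : 0 ≤ Real.log x := Real.log_nonneg (by linarith)
  have hpow : Real.log D ^ A ≤ Real.log x ^ A := pow_le_pow_left₀ hlogD0 hlogD A
  calc ∑ m ∈ Ioc a b, (m.divisors.card : ℝ) ^ 2
      ≤ ∑ m ∈ Ioc a b, ∑ d ∈ Icc 1 D,
        (if d ∣ m then (K0 : ℝ) ^ 2 * (d.divisors.card : ℝ) ^ (2 * K0) else 0) :=
        Finset.sum_le_sum hpt
    _ = ∑ d ∈ Icc 1 D, ∑ m ∈ Ioc a b,
        (if d ∣ m then (K0 : ℝ) ^ 2 * (d.divisors.card : ℝ) ^ (2 * K0) else 0) :=
        Finset.sum_comm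
    _ = ∑ d ∈ Icc 1 D, (((Ioc a b).filter (fun m => d ∣ m)).card : ℝ) *
        ((K0 : ℝ) ^ 2 * (d.divisors.card : ℝ) ^ (2 * K0)) := by
        apply Finset.sum_congr rfl
        intro d _
        rw [← Finset.sum_filter, Finset.sum_const, nsmul_eq_mul]
    _ ≤ ∑ d ∈ Icc 1 D, (3 * √x / d) *
        ((K0 : ℝ) ^ 2 * (d.divisors.card : ℝ) ^ (2 * K0)) := by
        apply Finset.sum_le_sum
        intro d hd
        rw [Finset.mem_Icc] at hd
        have hd0 : (0 : ℝ) < d := by exact_mod_cast hd.1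
        have hdD' : (d : ℝ) ≤ √x := le_trans (by exact_mod_cast hd.2) hDx
        apply mul_le_mul_of_nonneg_right _ (by positivity)
        refine (count_mult a b d hab hd.1).trans ?_
        rw [div_add_one hd0.ne', div_le_div_iff_of_pos_right hd0]
        linarith
    _ = (K0 : ℝ) ^ 2 * 3 * √x * ∑ d ∈ Icc 1 D, (d.divisors.card : ℝ) ^ (2 * K0) / d := by
        rw [Finset.mul_sum]
        apply Finset.sum_congr rfl
        intro d _
        ring
    _ ≤ (K0 : ℝ) ^ 2 * 3 * √x * (K * Real.log D ^ A) := by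
        apply mul_le_mul_of_nonneg_left hKD (by positivity)
    _ ≤ (K0 : ℝ) ^ 2 * 3 * √x * ((|K| + 1) * Real.log x ^ A) := by
        apply mul_le_mul_of_nonneg_left _ (by positivity)
        apply mul_le_mul _ hpow (by positivity) (by positivity)
        have := le_abs_self K; linarith
    _ ≤ ((K0 : ℝ) ^ 2 * 3 * (|K| + 1) + 1) * √x * Real.log x ^ A := by
        have : 0 ≤ √x * Real.log x ^ A := by positivity
        nlinarith

end Pool.Agent.MR
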