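import Pool.Agent.MR.ACoef
import Pool.Agent.MR.AMvt

set_option autoImplicit false

open Finset MeasureTheory

namespace Pool.Agent.MR

theorem Loc.gw_pos (T t : ℝ) : 0 < gw T t := Real.exp_pos _

theorem Loc.blk_mem (M : ℝ) (hM : 0 ≤ M) (m : ℕ) (hm : m ∈ blk M) : 1 ≤ m ∧ (m : ℝ) ≤ 3 * M := by
  rw [blk, mem_Ioc] at hm
  refine ⟨by omega, ?_⟩
  exact (Nat.cast_le.mpr hm.2).trans (Nat.floor_le (by linarith))

/-- mean square of a block polynomial -/
theorem Loc.blk_mvt (f : ℕ → ℂ) (hf : CM f) (M T : ℝ) (hM : 1 ≤ M) (hT : 1 ≤ T) (hTM : T ≤ M) :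
    ∫ t, ‖dp (blk M) f t‖ ^ 2 * gw T t ≤ 120 * M ^ 2 := by
  classical
  set c : ℕ → ℂ := fun n => if n ∈ blk M then f n else 0 with hc
  have hsub : blk M ⊆ Icc 1 ⌊3 * M⌋₊ := by
    intro m hm
    rw [blk, mem_Ioc] at hm
    rw [mem_Icc]
    omega
  have h1 : ∀ t, dp (blk M) f t = dp (Icc 1 ⌊3 * M⌋₊) c t := by
    intro t
    unfold dp
    rw [← Finset.sum_subset hsub (f := fun n => c n * ni n t)]
    · refine Finset.sum_congr rfl (fun n hn => ?_)
      simp only [hc]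
      rw [if_pos hn]
    · intro n _ hn
      simp only [hc]
      rw [if_neg hn, zero_mul]
  have h2 : ∑ n ∈ Icc 1 ⌊3 * M⌋₊, ‖c n‖ ^ 2 ≤ 3 * M := by
    rw [← Finset.sum_subset hsub (f := fun n => ‖c n‖ ^ 2)]
    · have h3 : ∑ n ∈ blk M, ‖c n‖ ^ 2 ≤ ∑ n ∈ blk M, (1 : ℝ) := by
        refine Finset.sum_le_sum (fun n hn => ?_)
        simp only [hc]
        rw [if_pos hn]
        exact pow_le_one₀ (norm_nonneg _) (hf.norm_le n)
      refine h3.trans ?_
      rw [Finset.sum_const, nsmul_eq_mul, mul_one, blk, Nat.card_Ioc]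
      have h4 : ⌊M⌋₊ ≤ ⌊3 * M⌋₊ := Nat.floor_le_floor (by linarith)
      rw [Nat.cast_sub h4]
      have h5 := Nat.floor_le (show 0 ≤ 3 * M by linarith)
      have h6 := Nat.lt_floor_add_one M
      linarith
    · intro n _ hn
      simp only [hc]
      rw [if_neg hn]
      simp
  have h3 := mvt T (by linarith) ⌊3 * M⌋₊ c
  simp_rw [h1]
  refine h3.trans ?_
  have h5 := Nat.floor_le (show 0 ≤ 3 * M by linarith)
  have h6 : 10 * (T + (⌊3 * M⌋₊ : ℝ)) ≤ 40 * M := by linarith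
  have h7 : 0 ≤ ∑ n ∈ Icc 1 ⌊3 * M⌋₊, ‖c n‖ ^ 2 := Finset.sum_nonneg (fun n _ => by positivity)
  calc 10 * (T + (⌊3 * M⌋₊ : ℝ)) * ∑ n ∈ Icc 1 ⌊3 * M⌋₊, ‖c n‖ ^ 2
      ≤ 40 * M * (3 * M) := mul_le_mul h6 h2 h7 (by linarith)
    _ = 120 * M ^ 2 := by ring

theorem Loc.sum_norm_nonneg (s : Finset ℕ) (c : ℕ → ℂ) : 0 ≤ ∑ n ∈ s, ‖c n‖ :=
  Finset.sum_nonneg (fun n _ => norm_nonneg _)

/-- Comparison of integrals with the Gaussian weight. -/
theorem Loc.compare (g G : ℝ → ℂ) (hg : Continuous g) (hG : Continuous G) (K K' : ℝ)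
    (hK : ∀ t, ‖g t‖ ≤ K) (hK' : ∀ t, ‖G t‖ ≤ K') (T : ℝ) (hT : 0 < T) (U : Set ℝ)
    (hU : MeasurableSet U) (C : ℝ) (hC : 0 ≤ C) (h : ∀ t ∈ U, ‖g t‖ ^ 2 ≤ C * ‖G t‖ ^ 2) :
    ∫ t in U, ‖g t‖ ^ 2 * gw T t ≤ C * ∫ t, ‖G t‖ ^ 2 * gw T t := by
  have hi1 := integrable_gw g hg K hK T hT
  have hi2 := integrable_gw G hG K' hK' T hT
  have h1 : ∫ t in U, ‖g t‖ ^ 2 * gw T t ≤ ∫ t in U, C * (‖G t‖ ^ 2 * gw T t) := by
    apply setIntegral_mono_on hi1.integrableOn (hi2.const_mul C).integrableOn hU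
    intro t ht
    rw [← mul_assoc]
    exact mul_le_mul_of_nonneg_right (h t ht) (Loc.gw_pos T t).le
  refine h1.trans ?_
  rw [integral_const_mul]
  apply mul_le_mul_of_nonneg_left _ hC
  apply setIntegral_le_integral hi2
  filter_upwards with t
  exact mul_nonneg (by positivity) (Loc.gw_pos T t).le

/-- Level one local bound. -/
theorem loc_one (f : ℕ → ℂ) (hf : CM f) (S : Finset ℕ) (H v : ℕ) (hH : 1 ≤ H) (N T α : ℝ)
    (hT : 1 ≤ T) (hTN : T * Real.exp (v / H) ≤ N) (U : Set ℝ) (hU : MeasurableSet U)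
    (hb : ∀ t ∈ U, ‖dp S f t‖ ≤ Real.exp ((1 - α) * (v / H))) :
    ∫ t in U, ‖dp S f t * dp (blk (N / Real.exp (v / H))) f t‖ ^ 2 * gw T t
      ≤ 200 * N ^ 2 * Real.exp (-2 * α * (v / H)) := by
  set x : ℝ := (v : ℝ) / H with hx
  set M : ℝ := N / Real.exp x with hM
  have hE : 0 < Real.exp x := Real.exp_pos _
  have hTM : T ≤ M := by
    rw [hM, le_div_iff₀ hE]
    exact hTN
  have h1 := Loc.compare (fun t => dp S f t * dp (blk M) f t) (dp (blk M) f)
    ((continuous_dp S f).mul (continuous_dp _ f)) (continuous_dp _ f)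
    ((∑ n ∈ S, ‖f n‖) * ∑ n ∈ blk M, ‖f n‖) (∑ n ∈ blk M, ‖f n‖)
    (fun t => by
      rw [norm_mul]
      exact mul_le_mul (norm_dp_le _ _ _) (norm_dp_le _ _ _) (norm_nonneg _)
        (Loc.sum_norm_nonneg _ _))
    (fun t => norm_dp_le _ _ _) T (by linarith) U hU (Real.exp (2 * ((1 - α) * x)))
    (Real.exp_pos _).le (fun t ht => by
      rw [norm_mul, mul_pow]
      apply mul_le_mul_of_nonneg_right _ (by positivity)
      calc ‖dp S f t‖ ^ 2 ≤ (Real.exp ((1 - α) * x)) ^ 2 :=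
            pow_le_pow_left₀ (norm_nonneg _) (hb t ht) 2
        _ = Real.exp (2 * ((1 - α) * x)) := by
            rw [← Real.exp_nat_mul]
            norm_num)
  refine h1.trans ?_
  have h2 := Loc.blk_mvt f hf M T (by linarith) hT hTM
  have h3 : M ^ 2 = N ^ 2 * Real.exp (-(2 * x)) := by
    rw [hM, div_pow, ← Real.exp_nat_mul, Real.exp_neg]
    push_cast
    rfl
  calc Real.exp (2 * ((1 - α) * x)) * ∫ t, ‖dp (blk M) f t‖ ^ 2 * gw T t
      ≤ Real.exp (2 * ((1 - α) * x)) * (120 * M ^ 2) :=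
        mul_le_mul_of_nonneg_left h2 (Real.exp_pos _).le
    _ = 120 * N ^ 2 * (Real.exp (2 * ((1 - α) * x)) * Real.exp (-(2 * x))) := by
        rw [h3]; ring
    _ = 120 * N ^ 2 * Real.exp (-2 * α * x) := by
        rw [← Real.exp_add]
        congr 2
        ring
    _ ≤ _ := by
        have := Real.exp_pos (-2 * α * x)
        have h4 : 0 ≤ N ^ 2 := by positivity
        nlinarith [mul_nonneg h4 this.le]

/-- Mean square of `P^l B`. -/
theorem Loc.pow_mvt (f : ℕ → ℂ) (hf : CM f) (S : Finset ℕ) (hS : ∀ p ∈ S, p.Prime) (z : ℝ)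
    (hz0 : 0 ≤ z) (hz : ∀ p ∈ S, (p : ℝ) ≤ z) (hs : rs S ≤ 1) (B : Finset ℕ) (b : ℝ)
    (hb0 : 0 ≤ b) (hB : ∀ m ∈ B, 1 ≤ m ∧ (m : ℝ) ≤ b) (l : ℕ) (T : ℝ) (hT : 0 < T)
    (hTY : T ≤ z ^ l * b) :
    ∫ t, ‖(dp S f t) ^ l * dp B f t‖ ^ 2 * gw T t ≤ 20 * (z ^ l * b) ^ 2 * ((l : ℝ) + 1) ^ l := by
  obtain ⟨c, hc1, hc2⟩ := pow_coeff f hf S hS z hz0 hz hs B b hb0 hB l
  simp_rw [hc1]
  refine (mvt T hT _ c).trans ?_
  have hY0 : 0 ≤ z ^ l * b := by positivity
  have h1 := Nat.floor_le hY0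
  have h2 : 10 * (T + (⌊z ^ l * b⌋₊ : ℝ)) ≤ 20 * (z ^ l * b) := by linarith
  calc 10 * (T + (⌊z ^ l * b⌋₊ : ℝ)) * ∑ n ∈ Icc 1 ⌊z ^ l * b⌋₊, ‖c n‖ ^ 2
      ≤ 20 * (z ^ l * b) * ((z ^ l * b) * ((l : ℝ) + 1) ^ l) :=
        mul_le_mul h2 hc2 (Finset.sum_nonneg (fun n _ => by positivity)) (by positivity)
    _ = _ := by ring

/-- Level `j` local bound. -/
theorem loc_two (f : ℕ → ℂ) (hf : CM f) (S S' : Finset ℕ) (hS' : ∀ p ∈ S', p.Prime)
    (H H' v u l : ℕ) (hH : 1 ≤ H) (hH' : 1 ≤ H') (hrs : rs S' ≤ 1)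
    (hz : ∀ p ∈ S', (p : ℝ) ≤ Real.exp ((u + 1) / H')) (hl : (v : ℝ) / H ≤ l * (u / H'))
    (N T α α' : ℝ) (hT : 1 ≤ T) (hTN : T ≤ N) (U : Set ℝ) (hU : MeasurableSet U)
    (hb : ∀ t ∈ U, ‖dp S f t‖ ≤ Real.exp ((1 - α) * (v / H)))
    (hb' : ∀ t ∈ U, Real.exp ((1 - α') * (u / H')) ≤ ‖dp S' f t‖) :
    ∫ t in U, ‖dp S f t * dp (blk (N / Real.exp (v / H))) f t‖ ^ 2 * gw T t
      ≤ 400 * N ^ 2 * ((l : ℝ) + 1) ^ l *
        Real.exp (-2 * α * (v / H) + 2 * α' * (l * (u / H')) + 2 * l / H') := by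
  have hH0 : (0 : ℝ) < H' := by exact_mod_cast hH'
  set x : ℝ := (v : ℝ) / H with hx
  set y : ℝ := (u : ℝ) / H' with hy
  set M : ℝ := N / Real.exp x with hM
  have hE : 0 < Real.exp x := Real.exp_pos _
  have hM0 : 0 < M := div_pos (by linarith) hE
  set z : ℝ := Real.exp ((u + 1) / H') with hzdef
  have hyz : ((u : ℝ) + 1) / H' = y + 1 / H' := by rw [hy]; ring
  have hzl : z ^ l = Real.exp (l * (y + 1 / H')) := by
    rw [hzdef, hyz, ← Real.exp_nat_mul]
  have hzl0 : 0 < z ^ l := by rw [hzl]; exact Real.exp_pos _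
  have hzlE : Real.exp x ≤ z ^ l := by
    rw [hzl]
    apply Real.exp_le_exp.mpr
    have : (0 : ℝ) ≤ l * (1 / H') := by positivity
    linarith
  have hTY : T ≤ z ^ l * (3 * M) := by
    have h1 : Real.exp x * M = N := by
      rw [hM]; field_simp
    have h2 : Real.exp x * M ≤ z ^ l * M := mul_le_mul_of_nonneg_right hzlE hM0.le
    have h3 : 0 ≤ z ^ l * M := by positivity
    linarith
  have hz0 : 0 ≤ z := (Real.exp_pos _).le
  have h2 := Loc.pow_mvt f hf S' hS' z hz0 hz hrs (blk M) (3 * M) (by positivity)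
    (fun m hm => Loc.blk_mem M hM0.le m hm) l T (by linarith) hTY
  set D : ℝ := Real.exp (2 * ((1 - α) * x) - 2 * l * ((1 - α') * y)) with hD
  have h1 := Loc.compare (fun t => dp S f t * dp (blk M) f t)
    (fun t => (dp S' f t) ^ l * dp (blk M) f t)
    ((continuous_dp S f).mul (continuous_dp _ f))
    (((continuous_dp S' f).pow l).mul (continuous_dp _ f))
    ((∑ n ∈ S, ‖f n‖) * ∑ n ∈ blk M, ‖f n‖) ((∑ n ∈ S', ‖f n‖) ^ l * ∑ n ∈ blk M, ‖f n‖)
    (fun t => by
      rw [norm_mul]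
      exact mul_le_mul (norm_dp_le _ _ _) (norm_dp_le _ _ _) (norm_nonneg _)
        (Loc.sum_norm_nonneg _ _))
    (fun t => by
      rw [norm_mul, norm_pow]
      exact mul_le_mul (pow_le_pow_left₀ (norm_nonneg _) (norm_dp_le _ _ _) l)
        (norm_dp_le _ _ _) (norm_nonneg _) (pow_nonneg (Loc.sum_norm_nonneg _ _) l))
    T (by linarith) U hU D
    (Real.exp_pos _).le (fun t ht => by
      rw [norm_mul, mul_pow, norm_mul, mul_pow, ← mul_assoc]
      apply mul_le_mul_of_nonneg_right _ (by positivity)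
      have g1 : ‖dp S f t‖ ^ 2 ≤ Real.exp (2 * ((1 - α) * x)) := by
        calc ‖dp S f t‖ ^ 2 ≤ (Real.exp ((1 - α) * x)) ^ 2 :=
              pow_le_pow_left₀ (norm_nonneg _) (hb t ht) 2
          _ = Real.exp (2 * ((1 - α) * x)) := by
              rw [← Real.exp_nat_mul]
              norm_num
      have g2 : Real.exp (2 * l * ((1 - α') * y)) ≤ ‖(dp S' f t) ^ l‖ ^ 2 := by
        rw [norm_pow, ← pow_mul, mul_comm l 2]
        calc Real.exp (2 * l * ((1 - α') * y)) = (Real.exp ((1 - α') * y)) ^ (2 * l) := by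
              rw [← Real.exp_nat_mul]
              push_cast
              rfl
          _ ≤ _ := pow_le_pow_left₀ (Real.exp_pos _).le (hb' t ht) _
      calc ‖dp S f t‖ ^ 2 ≤ Real.exp (2 * ((1 - α) * x)) := g1
        _ = D * Real.exp (2 * l * ((1 - α') * y)) := by
            rw [hD, ← Real.exp_add]
            congr 1
            ring
        _ ≤ D * ‖(dp S' f t) ^ l‖ ^ 2 := mul_le_mul_of_nonneg_left g2 (Real.exp_pos _).le)
  refine h1.trans ?_
  have h3 : M ^ 2 = N ^ 2 * Real.exp (-(2 * x)) := by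
    rw [hM, div_pow, ← Real.exp_nat_mul, Real.exp_neg]
    push_cast
    rfl
  have h4 : (z ^ l) ^ 2 = Real.exp (2 * (l * (y + 1 / H'))) := by
    rw [hzl, ← Real.exp_nat_mul]
    push_cast
    rfl
  have hl0 : (0 : ℝ) ≤ ((l : ℝ) + 1) ^ l := by positivity
  calc D * ∫ t, ‖(dp S' f t) ^ l * dp (blk M) f t‖ ^ 2 * gw T t
      ≤ D * (20 * (z ^ l * (3 * M)) ^ 2 * ((l : ℝ) + 1) ^ l) :=
        mul_le_mul_of_nonneg_left h2 (Real.exp_pos _).le
    _ = 180 * N ^ 2 * ((l : ℝ) + 1) ^ l * (D * (Real.exp (2 * (l * (y + 1 / H'))) *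
          Real.exp (-(2 * x)))) := by
        have : (z ^ l * (3 * M)) ^ 2 = 9 * ((z ^ l) ^ 2 * M ^ 2) := by ring
        rw [this, h3, h4]
        ring
    _ = 180 * N ^ 2 * ((l : ℝ) + 1) ^ l *
          Real.exp (-2 * α * x + 2 * α' * (l * y) + 2 * l / H') := by
        rw [hD, ← Real.exp_add, ← Real.exp_add]
        congr 2
        ring
    _ ≤ _ := by
        have := Real.exp_pos (-2 * α * x + 2 * α' * (l * y) + 2 * l / H')
        have h5 : 0 ≤ N ^ 2 * ((l : ℝ) + 1) ^ l := by positivity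
        nlinarith [mul_nonneg h5 this.le]

/-- Measure of the set of large values. -/
theorem meas_large (f : ℕ → ℂ) (hf : CM f) (S : Finset ℕ) (hS : ∀ p ∈ S, p.Prime) (H v l : ℕ)
    (hH : 1 ≤ H) (hrs : rs S ≤ 1) (hz : ∀ p ∈ S, (p : ℝ) ≤ Real.exp ((v + 1) / H))
    (T α : ℝ) (hT : 1 ≤ T) (hl : T ≤ Real.exp (l * (v / H))) :
    (volume {t : ℝ | |t| ≤ T ∧ Real.exp ((1 - α) * (v / H)) < ‖dp S f t‖}).toReal
      ≤ 100 * ((l : ℝ) + 1) ^ l * Real.exp (2 * α * (l * (v / H)) + 2 * l / H) := by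
  have hH0 : (0 : ℝ) < H := by exact_mod_cast hH
  set x : ℝ := (v : ℝ) / H with hx
  have hRHS : 0 ≤ 100 * ((l : ℝ) + 1) ^ l * Real.exp (2 * α * (l * x) + 2 * l / H) := by positivity
  set A : Set ℝ := {t : ℝ | |t| ≤ T ∧ Real.exp ((1 - α) * x) < ‖dp S f t‖} with hA
  have h11 : f 1 = f 1 * f 1 := by
    have := hf.mul 1 1 one_pos one_pos
    simpa using this
  by_cases hf1 : f 1 = 0
  · have hzero : ∀ t, dp S f t = 0 := by
      intro t
      unfold dp
      apply Finset.sum_eq_zero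
      intro p hp
      have h1 := hf.mul p 1 (hS p hp).pos one_pos
      rw [mul_one, hf1, mul_zero] at h1
      rw [h1, zero_mul]
    have hAe : A = ∅ := by
      rw [Set.eq_empty_iff_forall_notMem]
      rintro t ⟨-, h2⟩
      rw [hzero t, norm_zero] at h2
      exact absurd h2 (not_lt.mpr (Real.exp_pos _).le)
    rw [hAe]
    simpa using hRHS
  · have hf1' : f 1 = 1 := by
      have : f 1 * (f 1 - 1) = 0 := by
        rw [mul_sub, mul_one, ← h11, sub_self]
      rcases mul_eq_zero.mp this with h | h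
      · exact absurd h hf1
      · exact sub_eq_zero.mp h
    have hdp1 : ∀ t, dp {1} f t = 1 := by
      intro t
      unfold dp ni
      rw [Finset.sum_singleton, hf1']
      simp
    set z : ℝ := Real.exp ((v + 1) / H) with hzdef
    have hyz : ((v : ℝ) + 1) / H = x + 1 / H := by rw [hx]; ring
    have hzl : z ^ l = Real.exp (l * (x + 1 / H)) := by
      rw [hzdef, hyz, ← Real.exp_nat_mul]
    have hTY : T ≤ z ^ l * 1 := by
      rw [mul_one, hzl]
      refine hl.trans (Real.exp_le_exp.mpr ?_)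
      have : (0 : ℝ) ≤ l * (1 / H) := by positivity
      linarith
    have h2 := Loc.pow_mvt f hf S hS z (Real.exp_pos _).le hz hrs {1} 1 (by norm_num)
      (fun m hm => by rw [mem_singleton] at hm; subst hm; simp) l T (by linarith) hTY
    simp_rw [hdp1, mul_one] at h2
    have hcont : Continuous (fun t => dp S f t) := continuous_dp S f
    have hmeas : MeasurableSet A := by
      rw [hA]
      apply MeasurableSet.inter
      · exact (isClosed_le continuous_abs continuous_const).measurableSet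
      · exact (isOpen_lt continuous_const hcont.norm).measurableSet
    have hAsub : A ⊆ Set.Icc (-T) T := fun t ht => abs_le.mp ht.1
    have hfin : volume A ≠ ⊤ := by
      apply ne_top_of_le_ne_top _ (measure_mono hAsub)
      rw [Real.volume_Icc]
      exact ENNReal.ofReal_ne_top
    set C : ℝ := Real.exp 1 * Real.exp (-(2 * l * ((1 - α) * x))) with hC
    have hC0 : 0 < C := by positivity
    have hint : Integrable (fun t => ‖(dp S f t) ^ l‖ ^ 2 * gw T t) :=
      integrable_gw (fun t => (dp S f t) ^ l) (hcont.pow l) ((∑ n ∈ S, ‖f n‖) ^ l)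
        (fun t => by
          rw [norm_pow]
          exact pow_le_pow_left₀ (norm_nonneg _) (norm_dp_le _ _ _) l) T (by linarith)
    have h3 : (volume A).toReal ≤ ∫ t in A, C * (‖(dp S f t) ^ l‖ ^ 2 * gw T t) := by
      have e1 : (volume A).toReal = ∫ t in A, (1 : ℝ) := by
        rw [setIntegral_const]
        simp [Measure.real]
      rw [e1]
      apply setIntegral_mono_on (integrableOn_const hfin)
        (hint.const_mul C).integrableOn hmeas
      intro t ht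
      obtain ⟨ht1, ht2⟩ := ht
      have g1 : Real.exp (2 * l * ((1 - α) * x)) ≤ ‖(dp S f t) ^ l‖ ^ 2 := by
        rw [norm_pow, ← pow_mul, mul_comm l 2]
        calc Real.exp (2 * l * ((1 - α) * x)) = (Real.exp ((1 - α) * x)) ^ (2 * l) := by
              rw [← Real.exp_nat_mul]
              push_cast
              rfl
          _ ≤ _ := pow_le_pow_left₀ (Real.exp_pos _).le ht2.le _
      have g2 : Real.exp (-1) ≤ gw T t := by
        unfold gw
        apply Real.exp_le_exp.mpr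
        have h5 : (t / T) ^ 2 ≤ 1 := by
          rw [div_pow, div_le_one (by positivity)]
          rw [← sq_abs t]
          exact pow_le_pow_left₀ (abs_nonneg _) ht1 2
        linarith
      calc (1 : ℝ) = C * (Real.exp (2 * l * ((1 - α) * x)) * Real.exp (-1)) := by
            rw [hC, ← Real.exp_add, ← Real.exp_add, ← Real.exp_add]
            rw [show (1 : ℝ) + -(2 * l * ((1 - α) * x)) + (2 * l * ((1 - α) * x) + -1) = 0 by ring,
              Real.exp_zero]
        _ ≤ C * (‖(dp S f t) ^ l‖ ^ 2 * gw T t) := by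
            apply mul_le_mul_of_nonneg_left _ hC0.le
            exact mul_le_mul g1 g2 (Real.exp_pos _).le (by positivity)
    have h4 : ∫ t in A, C * (‖(dp S f t) ^ l‖ ^ 2 * gw T t) ≤
        C * ∫ t, ‖(dp S f t) ^ l‖ ^ 2 * gw T t := by
      rw [integral_const_mul]
      apply mul_le_mul_of_nonneg_left _ hC0.le
      apply setIntegral_le_integral hint
      filter_upwards with t
      exact mul_nonneg (by positivity) (Loc.gw_pos T t).le
    have hl0 : (0 : ℝ) ≤ ((l : ℝ) + 1) ^ l := by positivity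
    have he : Real.exp 1 ≤ 3 := by linarith [Real.exp_one_lt_d9]
    calc (volume A).toReal ≤ C * ∫ t, ‖(dp S f t) ^ l‖ ^ 2 * gw T t := h3.trans h4
      _ ≤ C * (20 * (z ^ l) ^ 2 * ((l : ℝ) + 1) ^ l) := mul_le_mul_of_nonneg_left h2 hC0.le
      _ = 20 * Real.exp 1 * ((l : ℝ) + 1) ^ l *
            (Real.exp (-(2 * l * ((1 - α) * x))) * Real.exp (2 * (l * (x + 1 / H)))) := by
          have : (z ^ l) ^ 2 = Real.exp (2 * (l * (x + 1 / H))) := by
            rw [hzl, ← Real.exp_nat_mul]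
            push_cast
            rfl
          rw [this, hC]
          ring
      _ = 20 * Real.exp 1 * ((l : ℝ) + 1) ^ l * Real.exp (2 * α * (l * x) + 2 * l / H) := by
          rw [← Real.exp_add]
          congr 2
          ring
      _ ≤ 100 * ((l : ℝ) + 1) ^ l * Real.exp (2 * α * (l * x) + 2 * l / H) := by
          have h5 := Real.exp_pos (2 * α * (l * x) + 2 * l / H)
          have h6 : 20 * Real.exp 1 ≤ 100 := by linarith
          gcongr

end Pool.Agent.MR
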