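import Pool.Agent.MR.ADefs
import Pool.Agent.H6.HR.Sieve

set_option autoImplicit false

open Finset

namespace Pool.Agent.MR

theorem tk_om_eq (P : Finset ℕ) (n : ℕ) : (om P n : ℝ) = ∑ p ∈ P, if p ∣ n then (1 : ℝ) else 0 := by
  unfold om
  rw [Finset.sum_boole]

theorem tk_card_le {P : Finset ℕ} (hP : ∀ p ∈ P, p.Prime) {Z : ℕ} (hZ : ∀ p ∈ P, p ≤ Z) :
    P.card ≤ Z := by
  have h1 : P ⊆ Icc 1 Z := by
    intro p hp
    rw [mem_Icc]
    exact ⟨(hP p hp).one_lt.le, hZ p hp⟩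
  have h2 := card_le_card h1
  rwa [Nat.card_Icc, Nat.add_sub_cancel] at h2

theorem tk_rs_le {P : Finset ℕ} (hP : ∀ p ∈ P, p.Prime) : 2 * rs P ≤ P.card := by
  unfold rs
  have h1 : ∑ p ∈ P, (1 : ℝ) / p ≤ ∑ p ∈ P, (1 : ℝ) / 2 := by
    apply sum_le_sum
    intro p hp
    have h2 : (2 : ℝ) ≤ p := by exact_mod_cast (hP p hp).two_le
    apply one_div_le_one_div_of_le (by norm_num) h2
  rw [sum_const, nsmul_eq_mul] at h1
  linarith

/-- Turan-Kubilius on an interval. -/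
theorem tk (P : Finset ℕ) (hP : ∀ p ∈ P, p.Prime) (Z : ℕ) (hZ : ∀ p ∈ P, p ≤ Z) (a b : ℕ)
    (hab : a ≤ b) :
    ∑ n ∈ Ioc a b, ((om P n : ℝ) - rs P) ^ 2 ≤ ((b : ℝ) - a) * rs P + 4 * (Z : ℝ) ^ 2 := by
  classical
  obtain ⟨B, rfl⟩ : ∃ B, b = a + B := ⟨b - a, by omega⟩
  have hcard : (P.card : ℝ) ≤ Z := by exact_mod_cast tk_card_le hP hZ
  have hrs := tk_rs_le hP
  have hrs0 : 0 ≤ rs P := sum_nonneg (fun p _ => by positivity)
  have hB0 : (0 : ℝ) ≤ B := Nat.cast_nonneg B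
  have hcnt : ∀ D : ℕ, 0 < D → |(∑ n ∈ Ioc a (a + B), if D ∣ n then (1 : ℝ) else 0) - (B : ℝ) / D| ≤ 1 := by
    intro D hD
    have h := H6.HR.card_dvd_Ioc a B D hD
    rw [Finset.sum_boole]
    exact h
  have h1 : ∑ n ∈ Ioc a (a + B), (om P n : ℝ) ≥ B * rs P - P.card := by
    simp_rw [tk_om_eq]
    rw [sum_comm]
    have : ∑ p ∈ P, ((B : ℝ) / p - 1) ≤ ∑ p ∈ P, ∑ n ∈ Ioc a (a + B), (if p ∣ n then (1 : ℝ) else 0) := by
      apply sum_le_sum
      intro p hp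
      have := (abs_le.1 (hcnt p (hP p hp).pos)).1
      linarith
    refine le_trans (le_of_eq ?_) this
    rw [sum_sub_distrib, sum_const, nsmul_eq_mul, mul_one]
    unfold rs
    rw [mul_sum]
    congr 1
    apply sum_congr rfl
    intro p _
    ring
  have h2 : ∑ n ∈ Ioc a (a + B), (om P n : ℝ) ^ 2 ≤ B * rs P ^ 2 + B * rs P + (P.card : ℝ) ^ 2 := by
    have e1 : ∀ n, (om P n : ℝ) ^ 2 = ∑ p ∈ P, ∑ q ∈ P, if p ∣ n ∧ q ∣ n then (1 : ℝ) else 0 := by
      intro n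
      rw [tk_om_eq, sq, sum_mul_sum]
      apply sum_congr rfl
      intro p _
      apply sum_congr rfl
      intro q _
      by_cases h3 : p ∣ n <;> by_cases h4 : q ∣ n <;> simp [h3, h4]
    simp_rw [e1]
    rw [sum_comm]
    have e2 : ∀ p ∈ P, ∑ n ∈ Ioc a (a + B), ∑ q ∈ P, (if p ∣ n ∧ q ∣ n then (1 : ℝ) else 0) ≤
        B * (1 / p) * rs P + B / p + P.card := by
      intro p hp
      rw [sum_comm]
      have e3 : ∀ q ∈ P, ∑ n ∈ Ioc a (a + B), (if p ∣ n ∧ q ∣ n then (1 : ℝ) else 0) ≤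
          B * (1 / p) * (1 / q) + (if q = p then (B : ℝ) / p else 0) + 1 := by
        intro q hq
        have hp0 : (0 : ℝ) < p := by exact_mod_cast (hP p hp).pos
        have hq0 : (0 : ℝ) < q := by exact_mod_cast (hP q hq).pos
        by_cases hpq : q = p
        · subst hpq
          rw [if_pos rfl]
          have h5 := (abs_le.1 (hcnt q (hP q hq).pos)).2
          simp only [and_self]
          have : 0 ≤ (B : ℝ) * (1 / q) * (1 / q) := by positivity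
          linarith
        · rw [if_neg hpq, add_zero]
          have hcop : Nat.Coprime p q := (Nat.coprime_primes (hP p hp) (hP q hq)).2 (Ne.symm hpq)
          have h6 : ∀ n : ℕ, (p ∣ n ∧ q ∣ n) ↔ p * q ∣ n := by
            intro n
            constructor
            · rintro ⟨h7, h8⟩
              exact hcop.mul_dvd_of_dvd_of_dvd h7 h8
            · intro h
              exact ⟨(dvd_mul_right _ _).trans h, (dvd_mul_left _ _).trans h⟩
          simp_rw [h6]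
          have h5 := (abs_le.1 (hcnt (p * q) (Nat.mul_pos (hP p hp).pos (hP q hq).pos))).2
          have h9 : (B : ℝ) / ((p * q : ℕ) : ℝ) = B * (1 / p) * (1 / q) := by
            push_cast
            field_simp
          rw [h9] at h5
          linarith
      refine (sum_le_sum e3).trans ?_
      rw [sum_add_distrib, sum_add_distrib, ← mul_sum, sum_ite_eq', if_pos hp, sum_const,
        nsmul_eq_mul, mul_one]
      exact le_rfl
    refine (sum_le_sum e2).trans ?_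
    rw [sum_add_distrib, sum_add_distrib, sum_const, nsmul_eq_mul, ← sum_mul, ← mul_sum]
    have e4 : ∑ p ∈ P, (B : ℝ) / p = B * rs P := by
      unfold rs
      rw [mul_sum]
      apply sum_congr rfl
      intro p _
      ring
    rw [e4]
    have e5 : (B : ℝ) * (∑ p ∈ P, 1 / (p : ℝ)) * rs P = B * rs P ^ 2 := by
      unfold rs; ring
    rw [e5]
    apply le_of_eq
    ring
  have h3 : ∑ n ∈ Ioc a (a + B), ((om P n : ℝ) - rs P) ^ 2 =
      ∑ n ∈ Ioc a (a + B), (om P n : ℝ) ^ 2 - 2 * rs P * ∑ n ∈ Ioc a (a + B), (om P n : ℝ) +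
        B * rs P ^ 2 := by
    have : ∀ n, ((om P n : ℝ) - rs P) ^ 2 = (om P n : ℝ) ^ 2 - 2 * rs P * (om P n : ℝ) + rs P ^ 2 := by
      intro n; ring
    simp_rw [this]
    rw [sum_add_distrib, sum_sub_distrib, ← mul_sum, sum_const, Nat.card_Ioc, nsmul_eq_mul]
    congr 2
    push_cast
    rw [Nat.add_sub_cancel_left]
  rw [h3]
  have hc0 : (0 : ℝ) ≤ P.card := Nat.cast_nonneg _
  have h4 : (P.card : ℝ) ^ 2 ≤ (Z : ℝ) ^ 2 := by gcongr
  have h5 : 2 * rs P * (B * rs P - P.card) ≤ 2 * rs P * ∑ n ∈ Ioc a (a + B), (om P n : ℝ) :=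
    mul_le_mul_of_nonneg_left h1 (by positivity)
  have h6 : 2 * rs P * P.card ≤ (P.card : ℝ) ^ 2 := by nlinarith
  push_cast
  have h7 : 0 ≤ (B : ℝ) * rs P := by positivity
  nlinarith

theorem tk_sq (P : Finset ℕ) (hP : ∀ p ∈ P, p.Prime) (Z : ℕ) (hZ : ∀ p ∈ P, p ≤ Z) (a b : ℕ)
    (hab : a ≤ b) :
    ∑ n ∈ Ioc a b, ((om P n : ℝ)) ^ 2
      ≤ 2 * ((b : ℝ) - a) * (rs P ^ 2 + rs P) + 8 * (Z : ℝ) ^ 2 := by
  have h := tk P hP Z hZ a b hab
  have h1 : ∀ n ∈ Ioc a b, (om P n : ℝ) ^ 2 ≤ 2 * ((om P n : ℝ) - rs P) ^ 2 + 2 * rs P ^ 2 := by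
    intro n _
    nlinarith [sq_nonneg ((om P n : ℝ) - 2 * rs P)]
  refine (sum_le_sum h1).trans ?_
  rw [sum_add_distrib, ← mul_sum, sum_const, Nat.card_Ioc, nsmul_eq_mul]
  have h2 : ((b - a : ℕ) : ℝ) = b - a := by
    rw [Nat.cast_sub hab]
  rw [h2]
  nlinarith

end Pool.Agent.MR
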