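import Mathlib

set_option autoImplicit false

/-!
# Part (A), definitions (Matomaki-Radziwill at fixed `h`)
Notes: /team-store/notes_MP_739ba1_nt_helper9.md
-/

open Finset

namespace Pool.Agent.MR

/-- `n^{-it}`. -/
noncomputable def ni (n : ℕ) (t : ℝ) : ℂ :=
  Complex.exp (-((t * Real.log n : ℝ) : ℂ) * Complex.I)

/-- Dirichlet polynomial `∑_{n ∈ s} c(n) n^{-it}`. -/
noncomputable def dp (s : Finset ℕ) (c : ℕ → ℂ) (t : ℝ) : ℂ := ∑ n ∈ s, c n * ni n t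

/-- The integers in `(N, 3N]`. -/
noncomputable def blk (N : ℝ) : Finset ℕ := Ioc ⌊N⌋₊ ⌊3 * N⌋₊

/-- Gaussian weight. -/
noncomputable def gw (T t : ℝ) : ℝ := Real.exp (-(t / T) ^ 2)

/-- Completely multiplicative function bounded by `1`. -/
structure CM (f : ℕ → ℂ) : Prop where
  mul : ∀ m n : ℕ, 0 < m → 0 < n → f (m * n) = f m * f n
  norm_le : ∀ n, ‖f n‖ ≤ 1

/-- Pointwise hypothesis. -/
def PW (f : ℕ → ℂ) : Prop := ∀ η : ℝ, 0 < η → ∃ M0 : ℝ, ∀ M : ℝ, M0 ≤ M → ∀ t : ℝ, |t| ≤ M ^ 2 →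
  ‖dp (blk M) f t‖ ≤ η * M

/-- Number of elements of `P` dividing `n`. -/
def om (P : Finset ℕ) (n : ℕ) : ℕ := (P.filter (· ∣ n)).card

/-- Sum of reciprocals. -/
noncomputable def rs (P : Finset ℕ) : ℝ := ∑ p ∈ P, (1 : ℝ) / p

/-- The block `v`: elements `p` of `P` with `e^{v/H} ≤ p < e^{(v+1)/H}`. -/
noncomputable def pb (H : ℕ) (P : Finset ℕ) (v : ℕ) : Finset ℕ :=
  P.filter (fun p : ℕ => ⌊(H : ℝ) * Real.log (p : ℝ)⌋₊ = v)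

/-- The set of block indices. -/
noncomputable def vs (H : ℕ) (P : Finset ℕ) : Finset ℕ :=
  P.image (fun p : ℕ => ⌊(H : ℝ) * Real.log (p : ℝ)⌋₊)

/-- `log P_j`. -/
noncomputable def lp (A : ℝ) (j : ℕ) : ℝ := Real.exp (A * 3 ^ j)

/-- The primes of level `j`: `P_j < p ≤ Q_j`, `log P_j = lp A j`, `log Q_j = (lp A j)^2`. -/
noncomputable def pset (A : ℝ) (j : ℕ) : Finset ℕ :=
  (Ioc ⌊Real.exp (lp A j)⌋₊ ⌊Real.exp ((lp A j) ^ 2)⌋₊).filter Nat.Prime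

/-- `H_j`. -/
noncomputable def HH (A : ℝ) (j : ℕ) : ℕ := ⌈A⌉₊ * 2 ^ j

/-- `α_j`. -/
noncomputable def al (ε : ℝ) (j : ℕ) : ℝ := ε * (1 - (1 / 2) ^ j)

/-- All the prime polynomials of level `j` are small at `t`. -/
def Good (f : ℕ → ℂ) (A ε : ℝ) (j : ℕ) (t : ℝ) : Prop :=
  ∀ v ∈ vs (HH A j) (pset A j),
    ‖dp (pb (HH A j) (pset A j) v) f t‖ ≤ Real.exp ((1 - al ε j) * (v / HH A j))

/-- Liouville function. -/
def lam (n : ℕ) : ℤ := (-1) ^ (ArithmeticFunction.cardFactors n)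

/-- Gaussian kernel on the logarithmic scale. -/
noncomputable def ge (ε x : ℝ) : ℝ := Real.exp (-(x / ε) ^ 2) / (ε * √Real.pi)

/-- Gaussian-smoothed logarithmic sum `∑ f(n) n^{-1-it} g_ε(log n - log Y)`. -/
noncomputable def SS (ε : ℝ) (f : ℕ → ℂ) (Y t : ℝ) : ℂ :=
  ∑' n : ℕ, f n * (1 / (n : ℂ)) * ni n t * (ge ε (Real.log n - Real.log Y) : ℂ)

/-- Bound for the Dirichlet series of `f` near the line `Re s = 1`. -/
def FB (f : ℕ → ℂ) : Prop := ∀ η : ℝ, 0 < η → ∃ a0 : ℝ, 0 < a0 ∧ ∀ α : ℝ, 0 < α → α ≤ a0 →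
  ∀ u : ℝ, |u| ≤ Real.exp (3 / α) → ‖LSeries f (1 + α + u * Complex.I)‖ ≤ η / α

end Pool.Agent.MR
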