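import Pool.Agent.MR.ADefs
import Pool.Agent.H33.Exp.W1

set_option autoImplicit false

/-!
Power saving for `∑ exp(it log(n+ρ))`: repeated Weyl differencing and Kusmin-Landau for primitives
of the functions `gS L`.
-/

open Finset

namespace Pool.Agent.MR

open Complex Real Filter Pool.Agent.H33

theorem mr_base_bound {m c : ℕ} {A X K N : ℝ} {L : List (List ℝ)} {G : ℝ → ℝ} (hL : Cls m c A L)
    (hc : 1 ≤ c) (hX : 1 ≤ X) (hA : 0 ≤ A) (hAX : A ≤ K * X) (hN : 0 < N)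
    (hG : ∀ x : ℝ, 0 < x → HasDerivAt G (N * gS L x) x) (a b : ℕ)
    (ha : X ≤ a) (hb : (b : ℝ) ≤ K * X) (hup : N * (c * (X⁻¹) ^ m) ≤ 1 / 2) :
    ‖∑ n ∈ Ico a b, ee (G n)‖ ≤ 1 / (N * (c * ((2 * K * X)⁻¹) ^ m)) := by
  rcases Nat.lt_or_ge a b with hab | hab
  swap
  · rw [Ico_eq_empty (by omega)]
    simp only [sum_empty, norm_zero]
    have hK : 0 ≤ K * X := by linarith
    have : 0 ≤ 2 * K * X := by nlinarith
    positivity
  have hab' : (a : ℝ) ≤ b := by exact_mod_cast hab.le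
  have hKX : X ≤ K * X := by linarith
  have hc' : (1 : ℝ) ≤ (c : ℝ) := by exact_mod_cast hc
  have hpos : ∀ n : ℕ, (0 : ℝ) < ((a + n : ℕ) : ℝ) := by
    intro n
    push_cast
    have : (0 : ℝ) ≤ n := Nat.cast_nonneg n
    linarith
  -- mean value theorem
  have hmvt : ∀ n : ℕ, N * gS L ((a + (n + 1) : ℕ) : ℝ)
        ≤ G ((a + (n + 1) : ℕ) : ℝ) - G ((a + n : ℕ) : ℝ) ∧
      G ((a + (n + 1) : ℕ) : ℝ) - G ((a + n : ℕ) : ℝ) ≤ N * gS L ((a + n : ℕ) : ℝ) := by
    intro n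
    have hp := hpos n
    have e1 : ((a + (n + 1) : ℕ) : ℝ) = ((a + n : ℕ) : ℝ) + 1 := by push_cast; ring
    rw [e1]
    set x : ℝ := ((a + n : ℕ) : ℝ) with hx
    obtain ⟨ξ, hξ, hξ2⟩ := exists_hasDerivAt_eq_slope G (fun y => N * gS L y)
      (show x < x + 1 by linarith)
      (fun y hy => (hG y (lt_of_lt_of_le hp hy.1)).continuousAt.continuousWithinAt)
      (fun y hy => hG y (lt_trans hp hy.1))
    have e2 : G (x + 1) - G x = N * gS L ξ := by
      rw [hξ2]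
      simp
    rw [e2]
    constructor
    · apply mul_le_mul_of_nonneg_left _ hN.le
      have := gS_antitone hL (x := ξ) (h := x + 1 - ξ) (lt_trans hp hξ.1) hA
        (by linarith [hξ.2])
      rwa [show ξ + (x + 1 - ξ) = x + 1 by ring] at this
    · apply mul_le_mul_of_nonneg_left _ hN.le
      have := gS_antitone hL (x := x) (h := ξ - x) hp hA (by linarith [hξ.1])
      rwa [show x + (ξ - x) = ξ by ring] at this
  rw [Finset.sum_Ico_eq_sum_range]
  apply kusmin_landau (fun n => G ((a + n : ℕ) : ℝ)) (b - a)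
  · have : 0 < 2 * K * X := by nlinarith
    positivity
  · intro n hn
    refine le_trans ?_ (hmvt n).1
    apply mul_le_mul_of_nonneg_left _ hN.le
    refine le_trans ?_ (gS_bounds hL (hpos (n + 1))).1
    apply mul_le_mul_of_nonneg_left _ (by positivity)
    have hle : ((a + (n + 1) : ℕ) : ℝ) ≤ b := by
      have : a + (n + 1) ≤ b := by omega
      exact_mod_cast this
    apply pow_le_pow_left₀
    · have : 0 < 2 * K * X := by nlinarith
      positivity
    · apply inv_anti₀ (by linarith [hpos (n + 1)])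
      nlinarith
  · intro n hn
    refine (hmvt n).2.trans (le_trans ?_ hup)
    apply mul_le_mul_of_nonneg_left _ hN.le
    have hge : X ≤ ((a + n : ℕ) : ℝ) := by
      push_cast
      have : (0 : ℝ) ≤ n := Nat.cast_nonneg n
      linarith
    refine (gS_bounds hL (by linarith)).2.trans ?_
    apply mul_le_mul_of_nonneg_left _ (by positivity)
    apply pow_le_pow_left₀ (by positivity)
    exact inv_anti₀ (by linarith) hge
  · intro n hn
    exact (hmvt (n + 1)).2.trans (hmvt n).1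

theorem mr_weyl_step (G : ℝ → ℝ) (a b H : ℕ) (hH : 1 ≤ H) :
    (H : ℝ) * ‖∑ n ∈ Ico a b, ee (G n)‖ ^ 2 ≤ (((b - a : ℕ) : ℝ) + H) *
      (((b - a : ℕ) : ℝ) + 2 * ∑ h ∈ Ico 1 H, ‖∑ n ∈ Ico a (b - h), ee (G n - G (n + h))‖) := by
  have h := vdc_ee (fun n => G ((a + n : ℕ) : ℝ)) (b - a) H hH
  rw [Finset.sum_Ico_eq_sum_range]
  refine h.trans (le_of_eq ?_)
  congr 3
  apply sum_congr rfl
  intro k _
  rw [Finset.sum_Ico_eq_sum_range]
  have e1 : b - k - a = b - a - k := by omega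
  rw [e1, ← norm_sum_ee_neg]
  congr 1
  apply sum_congr rfl
  intro n _
  congr 1
  have e2 : ((a + (n + k) : ℕ) : ℝ) = ((a + n : ℕ) : ℝ) + k := by push_cast; ring
  rw [e2]
  ring

/-- Power saving for exponential sums of primitives. -/
def MRW (i : ℕ) : Prop := ∀ m c K : ℕ, 1 ≤ m → 1 ≤ c → 1 ≤ K → ∃ η : ℝ, 0 < η ∧
  ∀ᶠ X : ℝ in atTop, ∀ (L : List (List ℝ)) (A : ℝ), 0 ≤ A → A ≤ K * X → Cls m c A L →
    ∀ (N : ℝ) (G : ℝ → ℝ), X ^ ((m : ℝ) - 31 / 32) ≤ N → N ≤ X ^ ((m : ℝ) - 1 / 8 + 3 / 4 * i) →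
      (∀ x : ℝ, 0 < x → HasDerivAt G (N * gS L x) x) →
      ∀ a b : ℕ, X ≤ a → (b : ℝ) ≤ K * X → ‖∑ n ∈ Ico a b, ee (G n)‖ ≤ X ^ (1 - η)

theorem mr_W_zero : MRW 0 := by
  intro m c K hm hc hK
  refine ⟨1 / 64, by norm_num, ?_⟩
  have e1 := ev_rpow (2 * (c : ℝ)) (show (-(1 / 8) : ℝ) < 0 by norm_num)
  have e2 := ev_rpow ((2 * (K : ℝ)) ^ m) (show (31 / 32 : ℝ) < 1 - 1 / 64 by norm_num)
  filter_upwards [e1, e2, eventually_ge_atTop 1] with X h1 h2 hX
  intro L A hA hAX hL N G hN1 hN2 hG a b ha hb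
  have hX0 : (0 : ℝ) < X := by linarith
  have hN : 0 < N := lt_of_lt_of_le (by positivity) hN1
  have hc' : (1 : ℝ) ≤ (c : ℝ) := by exact_mod_cast hc
  have hK' : (1 : ℝ) ≤ (K : ℝ) := by exact_mod_cast hK
  have hup : N * (c * (X⁻¹) ^ m) ≤ 1 / 2 := by
    have e : (X⁻¹) ^ m = X ^ (-(m : ℝ)) := by
      rw [Real.rpow_neg hX0.le, inv_pow, Real.rpow_natCast]
    rw [e]
    have h3 : N * X ^ (-(m : ℝ)) ≤ X ^ (-(1 / 8) : ℝ) := by
      have : X ^ (-(1 / 8) : ℝ) = X ^ ((m : ℝ) - 1 / 8 + 3 / 4 * (0 : ℕ)) * X ^ (-(m : ℝ)) := by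
        rw [← Real.rpow_add hX0]
        congr 1
        push_cast
        ring
      rw [this]
      apply mul_le_mul_of_nonneg_right hN2 (by positivity)
    have h4 : (2 * (c : ℝ)) * X ^ (-(1 / 8) : ℝ) ≤ 1 := by
      simpa using h1
    calc N * ((c : ℝ) * X ^ (-(m : ℝ)))
        = (c : ℝ) * (N * X ^ (-(m : ℝ))) := by ring
      _ ≤ (c : ℝ) * X ^ (-(1 / 8) : ℝ) := mul_le_mul_of_nonneg_left h3 (by positivity)
      _ ≤ 1 / 2 := by
        generalize X ^ (-(1 / 8) : ℝ) = u at h4 ⊢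
        linarith
  refine (mr_base_bound hL hc hX hA hAX hN hG a b ha hb hup).trans ?_
  refine le_trans ?_ h2
  rw [div_le_iff₀ (by positivity), inv_pow, mul_pow (2 * (K : ℝ)) X m]
  have e3 : (X : ℝ) ^ (31 / 32 : ℝ) * X ^ ((m : ℝ) - 31 / 32) = X ^ m := by
    rw [← Real.rpow_add hX0, ← Real.rpow_natCast]
    congr 1
    ring
  have h5 : X ^ m ≤ X ^ (31 / 32 : ℝ) * N := by
    rw [← e3]
    apply mul_le_mul_of_nonneg_left hN1 (by positivity)
  have hc1 : 0 < (2 * (K : ℝ)) ^ m := by positivity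
  have hx1 : 0 < X ^ m := by positivity
  have h6 : (2 * (K : ℝ)) ^ m * X ^ (31 / 32 : ℝ) *
      (N * ((c : ℝ) * ((2 * (K : ℝ)) ^ m * X ^ m)⁻¹))
      = (X ^ (31 / 32 : ℝ) * N / X ^ m) * (c : ℝ) := by
    field_simp
  rw [h6]
  have h7 : 1 ≤ X ^ (31 / 32 : ℝ) * N / X ^ m := by
    rw [le_div_iff₀ hx1]
    linarith
  nlinarith

set_option maxHeartbeats 1000000 in
theorem mr_W_succ (i : ℕ) (ih : MRW i) : MRW (i + 1) := by
  intro m c K hm hc hK
  obtain ⟨η0, hη0, ev0⟩ := mr_W_zero m c K hm hc hK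
  have hcm : 1 ≤ c * m := Nat.one_le_iff_ne_zero.mpr (Nat.mul_ne_zero (by omega) (by omega))
  obtain ⟨η1, hη1, ev1⟩ := ih (m + 1) (c * m) (K + 1) (by omega) hcm (by omega)
  set η := min η0 (min (1 / 64) (η1 / 4)) with hη
  have hηpos : 0 < η := by
    rw [hη]
    refine lt_min hη0 (lt_min (by norm_num) (by linarith))
  have hηle0 : η ≤ η0 := min_le_left _ _
  have hηle1 : η ≤ 1 / 64 := (min_le_right _ _).trans (min_le_left _ _)
  have hηle2 : η ≤ η1 / 4 := (min_le_right _ _).trans (min_le_right _ _)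
  refine ⟨η, hηpos, ?_⟩
  have e1 := ev_rpow (2 * (((K : ℝ) + 1) * (6 * K))) (show (31 / 16 : ℝ) < 2 - 2 * η by linarith)
  have e2 := ev_rpow (2 * (2 * ((K : ℝ) + 1))) (show (2 - η1 : ℝ) < 2 - 2 * η by linarith)
  filter_upwards [ev0, ev1, e1, e2, eventually_ge_atTop 16] with X hw0 hw1 h1 h2 hX
  intro L A hA hAX hL N G hN1 hN2 hG a b ha hb
  have hX0 : (0 : ℝ) < X := by linarith
  have hX1 : (1 : ℝ) ≤ X := by linarith
  rcases le_or_gt N (X ^ ((m : ℝ) - 1 / 8 + 3 / 4 * (0 : ℕ))) with hcase | hcase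
  · refine (hw0 L A hA hAX hL N G hN1 hcase hG a b ha hb).trans ?_
    apply Real.rpow_le_rpow_of_exponent_le hX1
    linarith
  have hN : 0 < N := lt_of_lt_of_le (by positivity) hN1
  have ha1 : 1 ≤ a := by
    have : (1 : ℝ) ≤ a := by linarith
    exact_mod_cast this
  -- choice of H
  set H := ⌊X ^ (1 / 4 : ℝ)⌋₊ with hHdef
  have hXq : (2 : ℝ) ≤ X ^ (1 / 4 : ℝ) := by
    have : (2 : ℝ) = 16 ^ (1 / 4 : ℝ) := by
      rw [show (16 : ℝ) = 2 ^ (4 : ℝ) by norm_num, ← Real.rpow_mul (by norm_num)]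
      norm_num
    rw [this]
    exact Real.rpow_le_rpow (by norm_num) hX (by norm_num)
  have hHle : (H : ℝ) ≤ X ^ (1 / 4 : ℝ) := Nat.floor_le (by positivity)
  have hHge : X ^ (1 / 4 : ℝ) / 2 ≤ H := by
    have := Nat.lt_floor_add_one (X ^ (1 / 4 : ℝ))
    rw [← hHdef] at this
    linarith
  have hH1 : 1 ≤ H := by
    have : (1 : ℝ) ≤ H := by linarith
    exact_mod_cast this
  have hXqX : X ^ (1 / 4 : ℝ) ≤ X := by
    calc X ^ (1 / 4 : ℝ) ≤ X ^ (1 : ℝ) := Real.rpow_le_rpow_of_exponent_le hX1 (by norm_num)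
      _ = X := Real.rpow_one X
  have hstep := mr_weyl_step G a b H hH1
  set S := ‖∑ n ∈ Ico a b, ee (G n)‖ with hS
  have hba : ((b - a : ℕ) : ℝ) ≤ K * X := by
    have : ((b - a : ℕ) : ℝ) ≤ b := by exact_mod_cast Nat.sub_le b a
    linarith
  have hKpos : (1 : ℝ) ≤ K := by exact_mod_cast hK
  -- bound for each differenced sum
  have hSh : ∀ h ∈ Ico 1 H, ‖∑ n ∈ Ico a (b - h), ee (G n - G (n + h))‖
      ≤ X ^ (1 - η1) + (if (h : ℝ) < X ^ (3 / 16 : ℝ) then K * X else 0) := by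
    intro h hh
    rw [mem_Ico] at hh
    have hhpos : (0 : ℝ) ≤ h := Nat.cast_nonneg h
    split_ifs with hlt
    · refine (norm_sum_ee_le _ _).trans ?_
      rw [Nat.card_Ico]
      have : ((b - h - a : ℕ) : ℝ) ≤ b := by
        have : b - h - a ≤ b := by omega
        exact_mod_cast this
      have h3 : 0 ≤ X ^ (1 - η1) := by positivity
      linarith
    · rw [add_zero]
      push Not at hlt
      have hhH : (h : ℝ) ≤ X ^ (1 / 4 : ℝ) := by
        have : (h : ℝ) ≤ H := by exact_mod_cast hh.2.le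
        linarith
      refine hw1 (dL h L) (A + h) (by linarith) ?_ ?_ (N * h) (fun x => G x - G (x + h))
        ?_ ?_ ?_ a (b - h) ?_ ?_
      · push_cast
        nlinarith
      · exact dL_spec hL hhpos
      · have e3 : X ^ (((m + 1 : ℕ) : ℝ) - 31 / 32)
            ≤ X ^ ((m : ℝ) - 1 / 8 + 3 / 4 * (0 : ℕ)) * X ^ (3 / 16 : ℝ) := by
          rw [← Real.rpow_add hX0]
          apply Real.rpow_le_rpow_of_exponent_le hX1
          push_cast
          linarith
        refine e3.trans ?_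
        apply mul_le_mul hcase.le hlt (by positivity) hN.le
      · have : X ^ (((m + 1 : ℕ) : ℝ) - 1 / 8 + 3 / 4 * (i : ℕ))
            = X ^ ((m : ℝ) - 1 / 8 + 3 / 4 * ((i + 1 : ℕ) : ℝ)) * X ^ (1 / 4 : ℝ) := by
          rw [← Real.rpow_add hX0]
          congr 1
          push_cast
          ring
        rw [this]
        apply mul_le_mul hN2 hhH hhpos (by positivity)
      · intro x hx
        have hxh : 0 < x + h := by linarith
        have h5 := (hG x hx).sub ((hG (x + h) hxh).comp_add_const x (h : ℝ))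
        have h6 := gS_diff (h : ℝ) x hx hhpos L (fun l hl a ha => ((hL.2 l hl).2 a ha).1)
        have h7 : N * gS L x - N * gS L (x + h) = N * h * gS (dL h L) x := by
          rw [← mul_sub, h6]
          ring
        rw [← h7]
        exact h5
      · exact ha
      · have h4 : ((b - h : ℕ) : ℝ) ≤ b := by exact_mod_cast Nat.sub_le b h
        push_cast
        nlinarith
  have hsum : ∑ h ∈ Ico 1 H, ‖∑ n ∈ Ico a (b - h), ee (G n - G (n + h))‖
      ≤ H * X ^ (1 - η1) + X ^ (3 / 16 : ℝ) * (K * X) := by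
    refine (sum_le_sum hSh).trans ?_
    rw [sum_add_distrib, sum_const, Nat.card_Ico, nsmul_eq_mul]
    apply add_le_add
    · apply mul_le_mul_of_nonneg_right _ (by positivity)
      exact_mod_cast Nat.sub_le H 1
    · rw [← sum_filter, sum_const, nsmul_eq_mul]
      apply mul_le_mul_of_nonneg_right _ (by positivity)
      have hsub : (Ico 1 H).filter (fun h : ℕ => (h : ℝ) < X ^ (3 / 16 : ℝ))
          ⊆ Ico 1 (⌊X ^ (3 / 16 : ℝ)⌋₊ + 1) := by
        intro h hh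
        rw [mem_filter, mem_Ico] at hh
        rw [mem_Ico]
        refine ⟨hh.1.1, ?_⟩
        have : h ≤ ⌊X ^ (3 / 16 : ℝ)⌋₊ := Nat.le_floor hh.2.le
        omega
      have hc := card_le_card hsub
      rw [Nat.card_Ico, Nat.add_sub_cancel] at hc
      calc (((Ico 1 H).filter (fun h : ℕ => (h : ℝ) < X ^ (3 / 16 : ℝ))).card : ℝ)
          ≤ (⌊X ^ (3 / 16 : ℝ)⌋₊ : ℝ) := by exact_mod_cast hc
        _ ≤ _ := Nat.floor_le (by positivity)
  have hmain : (H : ℝ) * S ^ 2 ≤ ((K + 1) * X) *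
      (K * X + 2 * (H * X ^ (1 - η1) + X ^ (3 / 16 : ℝ) * (K * X))) := by
    refine hstep.trans ?_
    apply mul_le_mul
    · linarith
    · linarith
    · have : 0 ≤ ∑ h ∈ Ico 1 H, ‖∑ n ∈ Ico a (b - h), ee (G n - G (n + h))‖ :=
        sum_nonneg (fun _ _ => norm_nonneg _)
      exact add_nonneg (Nat.cast_nonneg _) (mul_nonneg zero_le_two this)
    · positivity
  -- divide by H
  have hHpos : (0 : ℝ) < H := by linarith
  have hS2 : S ^ 2 ≤ X ^ (2 - 2 * η) := by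
    have p1 : X ^ (1 / 4 : ℝ) * X ^ (31 / 16 : ℝ) = X * (X ^ (3 / 16 : ℝ) * X) := by
      have : X * (X ^ (3 / 16 : ℝ) * X) = X ^ (1 : ℝ) * (X ^ (3 / 16 : ℝ) * X ^ (1 : ℝ)) := by
        rw [Real.rpow_one]
      rw [this, ← Real.rpow_add hX0, ← Real.rpow_add hX0, ← Real.rpow_add hX0]
      congr 1
      norm_num
    have p2 : X * X ^ (1 - η1) = X ^ (2 - η1) := by
      have : X * X ^ (1 - η1) = X ^ (1 : ℝ) * X ^ (1 - η1) := by
        rw [Real.rpow_one]
      rw [this, ← Real.rpow_add hX0]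
      congr 1
      ring
    have p3 : (1 : ℝ) ≤ X ^ (3 / 16 : ℝ) := Real.one_le_rpow hX1 (by norm_num)
    have p4 : X * X ≤ X * (X ^ (3 / 16 : ℝ) * X) := by
      have : X ≤ X ^ (3 / 16 : ℝ) * X := by nlinarith
      exact mul_le_mul_of_nonneg_left this hX0.le
    -- (K+1)X*(KX + 2 H X^(1-η1) + 2K X^(3/16) X) ≤ H * (...)
    have q1 : ((K + 1) * X) * (K * X + 2 * (H * X ^ (1 - η1) + X ^ (3 / 16 : ℝ) * (K * X)))
        ≤ H * ((((K : ℝ) + 1) * (6 * K)) * X ^ (31 / 16 : ℝ) + (2 * ((K : ℝ) + 1)) * X ^ (2 - η1)) := by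
      have r1 : ((K + 1) * X) * (K * X + 2 * (H * X ^ (1 - η1) + X ^ (3 / 16 : ℝ) * (K * X)))
          = ((K : ℝ) + 1) * K * (X * X) + 2 * ((K : ℝ) + 1) * H * (X * X ^ (1 - η1))
            + 2 * ((K : ℝ) + 1) * K * (X * (X ^ (3 / 16 : ℝ) * X)) := by ring
      have r2 : ((K : ℝ) + 1) * K * (X * X) ≤ ((K : ℝ) + 1) * K * (X * (X ^ (3 / 16 : ℝ) * X)) :=
        mul_le_mul_of_nonneg_left p4 (by positivity)
      have r3 : X * (X ^ (3 / 16 : ℝ) * X) ≤ 2 * H * X ^ (31 / 16 : ℝ) := by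
        rw [← p1]
        apply mul_le_mul_of_nonneg_right _ (by positivity)
        linarith
      have r4 : 3 * (((K : ℝ) + 1) * K) * (X * (X ^ (3 / 16 : ℝ) * X))
          ≤ 3 * (((K : ℝ) + 1) * K) * (2 * H * X ^ (31 / 16 : ℝ)) :=
        mul_le_mul_of_nonneg_left r3 (by positivity)
      rw [r1, p2]
      generalize X * (X ^ (3 / 16 : ℝ) * X) = T at r2 r4 ⊢
      generalize X ^ (31 / 16 : ℝ) = Y at r4 ⊢
      generalize X ^ (2 - η1) = Z
      calc ((K : ℝ) + 1) * K * (X * X) + 2 * ((K : ℝ) + 1) * H * Z + 2 * ((K : ℝ) + 1) * K * T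
          ≤ ((K : ℝ) + 1) * K * T + 2 * ((K : ℝ) + 1) * H * Z + 2 * ((K : ℝ) + 1) * K * T := by
            linarith
        _ = 3 * (((K : ℝ) + 1) * K) * T + 2 * ((K : ℝ) + 1) * H * Z := by ring
        _ ≤ 3 * (((K : ℝ) + 1) * K) * (2 * H * Y) + 2 * ((K : ℝ) + 1) * H * Z := by linarith
        _ = _ := by ring
    have q2 : (H : ℝ) * S ^ 2 ≤ H * ((((K : ℝ) + 1) * (6 * K)) * X ^ (31 / 16 : ℝ)
        + (2 * ((K : ℝ) + 1)) * X ^ (2 - η1)) := hmain.trans q1
    have q3 := le_of_mul_le_mul_left q2 hHpos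
    linarith
  have hfin : S ^ 2 ≤ (X ^ (1 - η)) ^ 2 := by
    rw [← Real.rpow_natCast (X ^ (1 - η)) 2, ← Real.rpow_mul hX0.le]
    have : (1 - η) * ((2 : ℕ) : ℝ) = 2 - 2 * η := by push_cast; ring
    rw [this]
    exact hS2
  exact le_of_sq_le_sq hfin (by positivity)


theorem mr_W_all (i : ℕ) : MRW i := by
  induction i with
  | zero => exact mr_W_zero
  | succ i ih => exact mr_W_succ i ih

/-- Power saving for `∑ (n+ρ)^{it}` (van der Corput / Weyl differencing; adapt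
`Pool.Agent.H33.Exp.W` to primitives of the functions `gS L`). -/
theorem log_weyl (C : ℝ) : ∃ η X0 : ℝ, 0 < η ∧ η ≤ 1 ∧ 1 ≤ X0 ∧ ∀ X : ℝ, X0 ≤ X →
    ∀ ρ : ℝ, 0 ≤ ρ → ρ ≤ 1 → ∀ t : ℝ, X ^ (1 / 16 : ℝ) ≤ |t| → |t| ≤ X ^ C →
    ∀ a b : ℕ, X ≤ a → (b : ℝ) ≤ 4 * X →
      ‖∑ n ∈ Ico a b, Complex.exp ((t * Real.log (n + ρ) : ℝ) * Complex.I)‖ ≤ X ^ (1 - η) := by
  obtain ⟨i, hi⟩ := exists_nat_ge (C / (3 / 4))
  obtain ⟨η, hη, ev⟩ := mr_W_all i 1 1 4 le_rfl le_rfl (by norm_num)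
  have e1 := ev_rpow (2 * π) (show (1 / 32 : ℝ) < 1 / 16 by norm_num)
  have ev2 := ev.and e1
  rw [eventually_atTop] at ev2
  obtain ⟨X1, hX1⟩ := ev2
  refine ⟨min η 1, max X1 1, lt_min hη one_pos, min_le_right _ _, le_max_right _ _, ?_⟩
  intro X hX ρ hρ0 hρ1 t ht1 ht2 a b ha hb
  have hX1' : X1 ≤ X := (le_max_left _ _).trans hX
  have hX1'' : 1 ≤ X := (le_max_right _ _).trans hX
  have hX0 : 0 < X := by linarith
  obtain ⟨hW, hlow⟩ := hX1 X hX1'
  have hpi : 0 < 2 * π := by positivity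
  -- reduction to nonnegative `t`
  have key : ∀ s : ℝ, 0 ≤ s → X ^ (1 / 16 : ℝ) ≤ s → s ≤ X ^ C →
      ‖∑ n ∈ Ico a b, ee (s / (2 * π) * Real.log (n + ρ))‖ ≤ X ^ (1 - min η 1) := by
    intro s hs0 hs1 hs2
    have hcls : Cls 1 1 ρ [[ρ]] := by
      refine ⟨rfl, ?_⟩
      intro l hl
      rw [List.mem_singleton] at hl
      subst hl
      refine ⟨rfl, ?_⟩
      intro a ha
      rw [List.mem_singleton] at ha
      subst ha
      exact ⟨hρ0, le_rfl⟩
    have h := hW [[ρ]] ρ hρ0 (by push_cast; linarith) hcls (s / (2 * π))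
      (fun x => s / (2 * π) * Real.log (x + ρ)) ?_ ?_ ?_ a b ha (by push_cast; exact hb)
    · refine h.trans ?_
      apply Real.rpow_le_rpow_of_exponent_le hX1''
      linarith [min_le_left η 1]
    · rw [le_div_iff₀ hpi]
      have e2 : X ^ (((1 : ℕ) : ℝ) - 31 / 32) = X ^ (1 / 32 : ℝ) := by
        congr 1
        norm_num
      rw [e2]
      linarith
    · have e3 : s / (2 * π) ≤ s := by
        apply div_le_self hs0
        linarith [Real.pi_gt_three]
      refine (e3.trans hs2).trans ?_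
      apply Real.rpow_le_rpow_of_exponent_le hX1''
      have : C ≤ 3 / 4 * i := by
        have := (div_le_iff₀ (by norm_num : (0 : ℝ) < 3 / 4)).mp hi
        linarith
      push_cast
      linarith
    · intro x hx
      have hxρ : x + ρ ≠ 0 := by positivity
      have h1 : HasDerivAt (fun x : ℝ => Real.log (x + ρ)) ((x + ρ)⁻¹) x := by
        have := (hasDerivAt_id x).add_const ρ
        simpa using this.log hxρ
      have h2 := h1.const_mul (s / (2 * π))
      simpa [gS, pInv] using h2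
  have hexp : ∀ s y : ℝ, ee (s / (2 * π) * y) = Complex.exp ((s * y : ℝ) * Complex.I) := by
    intro s y
    unfold ee
    congr 1
    rw [mul_comm Complex.I]
    congr 2
    field_simp
  rcases le_total 0 t with ht | ht
  · rw [abs_of_nonneg ht] at ht1 ht2
    have := key t ht ht1 ht2
    simpa only [hexp] using this
  · rw [abs_of_nonpos ht] at ht1 ht2
    have h3 := key (-t) (by linarith) ht1 ht2
    rw [← norm_sum_ee_neg] at h3
    refine le_trans (le_of_eq ?_) h3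
    congr 1
    apply sum_congr rfl
    intro n _
    have : -(-t / (2 * π) * Real.log (n + ρ)) = t / (2 * π) * Real.log (n + ρ) := by ring
    rw [this, hexp]

end Pool.Agent.MR
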