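import Pool.Agent.MR.ADefs

set_option autoImplicit false

open Finset MeasureTheory

namespace Pool.Agent.MR

lemma acoef_ni_mul (m n : ℕ) (hm : 0 < m) (hn : 0 < n) (t : ℝ) :
    ni (m * n) t = ni m t * ni n t := by
  unfold ni
  rw [← Complex.exp_add]
  congr 1
  have h1 : (m : ℝ) ≠ 0 := by exact_mod_cast hm.ne'
  have h2 : (n : ℝ) ≠ 0 := by exact_mod_cast hn.ne'
  rw [Nat.cast_mul, Real.log_mul h1 h2]
  push_cast
  ring

lemma acoef_ni_one (t : ℝ) : ni 1 t = 1 := by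
  simp [ni]

lemma acoef_ni_prod {ι : Type*} (s : Finset ι) (p : ι → ℕ) (hp : ∀ i ∈ s, 0 < p i) (t : ℝ) :
    ni (∏ i ∈ s, p i) t = ∏ i ∈ s, ni (p i) t := by
  classical
  induction s using Finset.induction_on with
  | empty => simp [acoef_ni_one]
  | insert a s ha ih =>
    rw [Finset.prod_insert ha, Finset.prod_insert ha, acoef_ni_mul, ih]
    · intro i hi
      exact hp i (Finset.mem_insert_of_mem hi)
    · exact hp a (Finset.mem_insert_self a s)
    · exact Finset.prod_pos fun i hi => hp i (Finset.mem_insert_of_mem hi)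

/-- The tuples. -/
def acT (S : Finset ℕ) (l : ℕ) : Finset (Fin l → ℕ) := Fintype.piFinset (fun _ => S)

/-- Their products. -/
def acD {l : ℕ} (p : Fin l → ℕ) : ℕ := ∏ i, p i

lemma mem_acT {S : Finset ℕ} {l : ℕ} {p : Fin l → ℕ} : p ∈ acT S l ↔ ∀ i, p i ∈ S :=
  Fintype.mem_piFinset

/-- The coefficients. -/
noncomputable def acC (f : ℕ → ℂ) (S B : Finset ℕ) (l n : ℕ) : ℂ :=
  ∑ x ∈ (acT S l ×ˢ B).filter (fun x => acD x.1 * x.2 = n), (∏ i, f (x.1 i)) * f x.2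

lemma acoef_norm_le (f : ℕ → ℂ) (hf : CM f) (S : Finset ℕ) (hS : ∀ p ∈ S, p.Prime)
    (B : Finset ℕ) (l n : ℕ) :
    ‖acC f S B l n‖ ≤ (((acT S l).filter (fun p => acD p ∣ n)).card : ℝ) := by
  unfold acC
  refine (norm_sum_le _ _).trans ?_
  have h1 : ∀ x ∈ (acT S l ×ˢ B).filter (fun x => acD x.1 * x.2 = n),
      ‖(∏ i, f (x.1 i)) * f x.2‖ ≤ 1 := by
    intro x _
    rw [norm_mul, norm_prod]
    have h2 : ∏ i, ‖f (x.1 i)‖ ≤ 1 :=
      Finset.prod_le_one (fun i _ => norm_nonneg _) fun i _ => hf.norm_le _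
    exact mul_le_one₀ h2 (norm_nonneg _) (hf.norm_le _)
  refine (Finset.sum_le_sum h1).trans ?_
  rw [Finset.sum_const, nsmul_eq_mul, mul_one]
  norm_cast
  refine Finset.card_le_card_of_injOn (fun x => x.1) ?_ ?_
  · intro x hx
    rw [Finset.mem_coe, Finset.mem_filter, Finset.mem_product] at hx
    simp only [Finset.coe_filter, Set.mem_ofPred_eq]
    exact ⟨hx.1.1, ⟨x.2, hx.2.symm⟩⟩
  · intro x hx y hy hxy
    rw [Finset.mem_coe, Finset.mem_filter, Finset.mem_product] at hx hy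
    simp only at hxy
    have h3 : 0 < acD x.1 :=
      Finset.prod_pos fun i _ => (hS _ (mem_acT.1 hx.1.1 i)).pos
    have h4 : acD x.1 * x.2 = acD x.1 * y.2 := by
      rw [hx.2]
      conv_rhs => rw [hxy, hy.2]
    exact Prod.ext hxy (Nat.eq_of_mul_eq_mul_left h3 h4)

lemma acoef_dvd_card (S : Finset ℕ) (hS : ∀ p ∈ S, p.Prime) (l : ℕ) (p : Fin l → ℕ)
    (hp : p ∈ acT S l) : (S.filter (fun q => q ∣ acD p)).card ≤ l := by
  have h : S.filter (fun q => q ∣ acD p) ⊆ (Finset.univ : Finset (Fin l)).image p := by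
    intro q hq
    rw [Finset.mem_filter] at hq
    obtain ⟨i, hi, hqi⟩ := ((hS q hq.1).prime.dvd_finsetProd_iff _).1 hq.2
    rw [Finset.mem_image]
    refine ⟨i, Finset.mem_univ _, ?_⟩
    exact ((Nat.prime_dvd_prime_iff_eq (hS q hq.1) (hS _ (mem_acT.1 hp i))).1 hqi).symm
  calc (S.filter (fun q => q ∣ acD p)).card ≤ ((Finset.univ : Finset (Fin l)).image p).card :=
        Finset.card_le_card h
    _ ≤ (Finset.univ : Finset (Fin l)).card := Finset.card_image_le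
    _ = l := by simp

/-- Weight of a prime relative to `D`. -/
noncomputable def acw (D q : ℕ) : ℝ := if q ∣ D then 1 else 1 / (q : ℝ)

lemma acw_nonneg (D q : ℕ) : 0 ≤ acw D q := by
  unfold acw
  split_ifs <;> positivity

lemma acoef_sum_acw (S : Finset ℕ) (hS : ∀ p ∈ S, p.Prime) (hs : rs S ≤ 1) (l : ℕ)
    (p : Fin l → ℕ) (hp : p ∈ acT S l) : ∑ q ∈ S, acw (acD p) q ≤ (l : ℝ) + 1 := by
  have h1 : ∀ q ∈ S, acw (acD p) q ≤ (if q ∣ acD p then 1 else 0) + 1 / (q : ℝ) := by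
    intro q _
    unfold acw
    have : (0 : ℝ) ≤ 1 / (q : ℝ) := by positivity
    split_ifs <;> linarith
  refine (Finset.sum_le_sum h1).trans ?_
  rw [Finset.sum_add_distrib, ← Finset.sum_filter, Finset.sum_const, nsmul_eq_mul, mul_one]
  have h2 := acoef_dvd_card S hS l p hp
  have h3 : ((S.filter (fun q => q ∣ acD p)).card : ℝ) ≤ l := by exact_mod_cast h2
  unfold rs at hs
  linarith

lemma acoef_lcm (S : Finset ℕ) (hS : ∀ p ∈ S, p.Prime) (l : ℕ) (p p' : Fin l → ℕ)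
    (hp : p ∈ acT S l) (hp' : p' ∈ acT S l) :
    1 / ((Nat.lcm (acD p) (acD p') : ℕ) : ℝ) ≤ 1 / (acD p : ℝ) * ∏ i, acw (acD p) (p' i) := by
  classical
  set E : ℕ := ∏ i, (if p' i ∣ acD p then 1 else p' i) with hE
  have hD0 : 0 < acD p := Finset.prod_pos fun i _ => (hS _ (mem_acT.1 hp i)).pos
  have hD'0 : 0 < acD p' := Finset.prod_pos fun i _ => (hS _ (mem_acT.1 hp' i)).pos
  have hE0 : 0 < E := by
    refine Finset.prod_pos fun i _ => ?_
    split_ifs
    · exact one_pos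
    · exact (hS _ (mem_acT.1 hp' i)).pos
  have hcop : Nat.Coprime (acD p) E := by
    refine Nat.Coprime.prod_right fun i _ => ?_
    split_ifs with h
    · exact Nat.coprime_one_right _
    · exact ((Nat.Prime.coprime_iff_not_dvd (hS _ (mem_acT.1 hp' i))).2 h).symm
  have hED' : E ∣ acD p' := by
    refine Finset.prod_dvd_prod_of_dvd _ _ fun i _ => ?_
    split_ifs
    · exact one_dvd _
    · exact dvd_rfl
  have hdvd : acD p * E ∣ Nat.lcm (acD p) (acD p') :=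
    hcop.mul_dvd_of_dvd_of_dvd (Nat.dvd_lcm_left _ _) (hED'.trans (Nat.dvd_lcm_right _ _))
  have hlcm0 : 0 < Nat.lcm (acD p) (acD p') := Nat.lcm_pos hD0 hD'0
  have hle : acD p * E ≤ Nat.lcm (acD p) (acD p') := Nat.le_of_dvd hlcm0 hdvd
  have h1 : 1 / ((Nat.lcm (acD p) (acD p') : ℕ) : ℝ) ≤ 1 / ((acD p * E : ℕ) : ℝ) := by
    refine one_div_le_one_div_of_le ?_ (by exact_mod_cast hle)
    exact_mod_cast Nat.mul_pos hD0 hE0
  refine h1.trans (le_of_eq ?_)
  have h9 : ∏ i, acw (acD p) (p' i) = 1 / (E : ℝ) := by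
    rw [hE, Nat.cast_prod, one_div, ← Finset.prod_inv_distrib]
    refine Finset.prod_congr rfl fun i _ => ?_
    unfold acw
    split_ifs <;> simp
  rw [h9, Nat.cast_mul, one_div_mul_one_div]

lemma acoef_sum_sq (S : Finset ℕ) (hS : ∀ p ∈ S, p.Prime) (hs : rs S ≤ 1) (l Y : ℕ) :
    ∑ n ∈ Icc 1 Y, (((acT S l).filter (fun p => acD p ∣ n)).card : ℝ) ^ 2
      ≤ (Y : ℝ) * ((l : ℝ) + 1) ^ l := by
  classical
  have h1 : ∀ n : ℕ, (((acT S l).filter (fun p => acD p ∣ n)).card : ℝ) ^ 2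
      = ∑ p ∈ acT S l, ∑ p' ∈ acT S l, (if acD p ∣ n ∧ acD p' ∣ n then (1 : ℝ) else 0) := by
    intro n
    rw [Finset.card_filter, Nat.cast_sum, sq, Finset.sum_mul_sum]
    refine Finset.sum_congr rfl fun p _ => Finset.sum_congr rfl fun p' _ => ?_
    split_ifs <;> simp_all
  simp_rw [h1]
  rw [Finset.sum_comm]
  have h2 : ∀ p ∈ acT S l, ∑ n ∈ Icc 1 Y, ∑ p' ∈ acT S l,
      (if acD p ∣ n ∧ acD p' ∣ n then (1 : ℝ) else 0)
      ≤ (Y : ℝ) * (1 / (acD p : ℝ)) * ((l : ℝ) + 1) ^ l := by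
    intro p hp
    rw [Finset.sum_comm]
    have h3 : ∀ p' ∈ acT S l, ∑ n ∈ Icc 1 Y, (if acD p ∣ n ∧ acD p' ∣ n then (1 : ℝ) else 0)
        ≤ (Y : ℝ) * (1 / (acD p : ℝ)) * ∏ i, acw (acD p) (p' i) := by
      intro p' hp'
      have h4 : ∑ n ∈ Icc 1 Y, (if acD p ∣ n ∧ acD p' ∣ n then (1 : ℝ) else 0)
          = ((Y / Nat.lcm (acD p) (acD p') : ℕ) : ℝ) := by
        rw [← Nat.Ioc_filter_dvd_card_eq_div, Finset.card_filter, Nat.cast_sum]
        have h5 : Icc 1 Y = Ioc 0 Y := by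
          ext a
          simp only [Finset.mem_Icc, Finset.mem_Ioc]
          omega
        rw [h5]
        refine Finset.sum_congr rfl fun n _ => ?_
        simp only [Nat.lcm_dvd_iff]
        split_ifs <;> simp
      rw [h4]
      calc ((Y / Nat.lcm (acD p) (acD p') : ℕ) : ℝ)
          ≤ (Y : ℝ) / (Nat.lcm (acD p) (acD p') : ℕ) := Nat.cast_div_le
        _ = (Y : ℝ) * (1 / ((Nat.lcm (acD p) (acD p') : ℕ) : ℝ)) := by ring
        _ ≤ (Y : ℝ) * (1 / (acD p : ℝ) * ∏ i, acw (acD p) (p' i)) :=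
            mul_le_mul_of_nonneg_left (acoef_lcm S hS l p p' hp hp') (Nat.cast_nonneg _)
        _ = (Y : ℝ) * (1 / (acD p : ℝ)) * ∏ i, acw (acD p) (p' i) := by ring
    refine (Finset.sum_le_sum h3).trans ?_
    rw [← Finset.mul_sum]
    refine mul_le_mul_of_nonneg_left ?_ (by positivity)
    have h6 : ∑ p' ∈ acT S l, ∏ i, acw (acD p) (p' i) = (∑ q ∈ S, acw (acD p) q) ^ l := by
      have := Finset.prod_univ_sum (fun _ : Fin l => S) (fun _ q => acw (acD p) q)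
      rw [Finset.prod_const, Finset.card_univ, Fintype.card_fin] at this
      exact this.symm
    rw [h6]
    exact pow_le_pow_left₀ (Finset.sum_nonneg fun q _ => acw_nonneg _ _)
      (acoef_sum_acw S hS hs l p hp) l
  refine (Finset.sum_le_sum h2).trans ?_
  rw [← Finset.sum_mul, ← Finset.mul_sum]
  have h7 : ∑ p ∈ acT S l, 1 / (acD p : ℝ) = (rs S) ^ l := by
    have := Finset.prod_univ_sum (fun _ : Fin l => S) (fun _ q => (1 : ℝ) / (q : ℝ))
    rw [Finset.prod_const, Finset.card_univ, Fintype.card_fin] at this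
    unfold rs
    rw [this]
    refine Finset.sum_congr rfl fun p _ => ?_
    rw [acD, Nat.cast_prod, one_div, ← Finset.prod_inv_distrib]
    refine Finset.prod_congr rfl fun i _ => ?_
    rw [one_div]
  rw [h7]
  have h8 : (rs S) ^ l ≤ 1 := by
    refine pow_le_one₀ ?_ hs
    unfold rs
    exact Finset.sum_nonneg fun q _ => by positivity
  calc (Y : ℝ) * rs S ^ l * ((l : ℝ) + 1) ^ l ≤ (Y : ℝ) * 1 * ((l : ℝ) + 1) ^ l := by gcongr
    _ = (Y : ℝ) * ((l : ℝ) + 1) ^ l := by ring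

/-- Coefficients of `P^l B`. -/
theorem pow_coeff (f : ℕ → ℂ) (hf : CM f) (S : Finset ℕ) (hS : ∀ p ∈ S, p.Prime) (z : ℝ)
    (hz0 : 0 ≤ z) (hz : ∀ p ∈ S, (p : ℝ) ≤ z) (hs : rs S ≤ 1) (B : Finset ℕ) (b : ℝ)
    (hb0 : 0 ≤ b) (hB : ∀ m ∈ B, 1 ≤ m ∧ (m : ℝ) ≤ b) (l : ℕ) :
    ∃ c : ℕ → ℂ, (∀ t : ℝ, (dp S f t) ^ l * dp B f t = dp (Icc 1 ⌊z ^ l * b⌋₊) c t) ∧
      ∑ n ∈ Icc 1 ⌊z ^ l * b⌋₊, ‖c n‖ ^ 2 ≤ (z ^ l * b) * ((l : ℝ) + 1) ^ l := by
  classical
  refine ⟨acC f S B l, ?_, ?_⟩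
  · intro t
    have h1 : (dp S f t) ^ l = ∑ p ∈ acT S l, (∏ i, f (p i)) * ni (acD p) t := by
      have h := Finset.prod_univ_sum (fun _ : Fin l => S) (fun _ q => f q * ni q t)
      rw [Finset.prod_const, Finset.card_univ, Fintype.card_fin] at h
      unfold dp
      rw [h]
      refine Finset.sum_congr rfl fun p hp => ?_
      rw [acD, acoef_ni_prod _ _ (fun i _ => (hS _ (mem_acT.1 hp i)).pos), Finset.prod_mul_distrib]
    have hmaps : ∀ x ∈ acT S l ×ˢ B, acD x.1 * x.2 ∈ Icc 1 ⌊z ^ l * b⌋₊ := by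
      intro x hx
      rw [Finset.mem_product] at hx
      have hD0 : 0 < acD x.1 := Finset.prod_pos fun i _ => (hS _ (mem_acT.1 hx.1 i)).pos
      have hD : (acD x.1 : ℝ) ≤ z ^ l := by
        rw [acD, Nat.cast_prod]
        calc ∏ i, ((x.1 i : ℕ) : ℝ) ≤ ∏ _i : Fin l, z :=
              Finset.prod_le_prod (fun i _ => Nat.cast_nonneg _) fun i _ =>
                hz _ (mem_acT.1 hx.1 i)
          _ = z ^ l := by simp
      rw [Finset.mem_Icc]
      refine ⟨Nat.mul_pos hD0 (hB _ hx.2).1, ?_⟩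
      rw [Nat.le_floor_iff (by positivity)]
      rw [Nat.cast_mul]
      exact mul_le_mul hD (hB _ hx.2).2 (Nat.cast_nonneg _) (by positivity)
    rw [h1]
    unfold dp
    rw [Finset.sum_mul_sum, ← Finset.sum_product', ← Finset.sum_fiberwise_of_maps_to hmaps]
    refine Finset.sum_congr rfl fun n _ => ?_
    unfold acC
    rw [Finset.sum_mul]
    refine Finset.sum_congr rfl fun x hx => ?_
    rw [Finset.mem_filter, Finset.mem_product] at hx
    have hD0 : 0 < acD x.1 := Finset.prod_pos fun i _ => (hS _ (mem_acT.1 hx.1.1 i)).pos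
    rw [← hx.2, acoef_ni_mul _ _ hD0 (hB _ hx.1.2).1]
    ring
  · calc ∑ n ∈ Icc 1 ⌊z ^ l * b⌋₊, ‖acC f S B l n‖ ^ 2
        ≤ ∑ n ∈ Icc 1 ⌊z ^ l * b⌋₊, (((acT S l).filter (fun p => acD p ∣ n)).card : ℝ) ^ 2 :=
          Finset.sum_le_sum fun n _ =>
            pow_le_pow_left₀ (norm_nonneg _) (acoef_norm_le f hf S hS B l n) 2
      _ ≤ ((⌊z ^ l * b⌋₊ : ℕ) : ℝ) * ((l : ℝ) + 1) ^ l := acoef_sum_sq S hS hs l _
      _ ≤ (z ^ l * b) * ((l : ℝ) + 1) ^ l :=
          mul_le_mul_of_nonneg_right (Nat.floor_le (by positivity)) (by positivity)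

/-- Elements of the block `v`. -/
theorem mem_pb (H : ℕ) (hH : 1 ≤ H) (P : Finset ℕ) (hP : ∀ p ∈ P, 1 ≤ p) (v p : ℕ)
    (h : p ∈ pb H P v) : p ∈ P ∧ Real.exp (v / H) ≤ p ∧ (p : ℝ) < Real.exp ((v + 1) / H) := by
  unfold pb at h
  rw [Finset.mem_filter] at h
  obtain ⟨hpP, hv⟩ := h
  have hp1 : (1 : ℝ) ≤ p := by exact_mod_cast hP p hpP
  have hp0 : (0 : ℝ) < p := by linarith
  have hH0 : (0 : ℝ) < H := by exact_mod_cast hH
  have hlog : 0 ≤ (H : ℝ) * Real.log p := mul_nonneg hH0.le (Real.log_nonneg hp1)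
  have h1 := Nat.floor_le hlog
  have h2 := Nat.lt_floor_add_one ((H : ℝ) * Real.log p)
  rw [hv] at h1 h2
  refine ⟨hpP, ?_, ?_⟩
  · rw [← Real.le_log_iff_exp_le hp0, div_le_iff₀ hH0]
    linarith
  · rw [← Real.log_lt_iff_lt_exp hp0, lt_div_iff₀ hH0]
    linarith

/-- `∑ 1/p` over a block is at most `1`. -/
theorem rs_pb_le (H : ℕ) (hH : 2 ≤ H) (P : Finset ℕ) (hP : ∀ p ∈ P, 3 ≤ p) (v : ℕ) :
    rs (pb H P v) ≤ 1 := by
  rcases (pb H P v).eq_empty_or_nonempty with he | hne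
  · rw [he]
    simp [rs]
  · set m := (pb H P v).min' hne with hm
    have hmem : m ∈ pb H P v := Finset.min'_mem _ _
    have hP1 : ∀ p ∈ P, 1 ≤ p := fun p hp => le_trans (by norm_num) (hP p hp)
    obtain ⟨hmP, hm1, _⟩ := mem_pb H (by omega) P hP1 v m hmem
    have hm3 : 3 ≤ m := hP m hmP
    have hm3' : (3 : ℝ) ≤ m := by exact_mod_cast hm3
    have hH0 : (0 : ℝ) < H := by
      have : (2 : ℝ) ≤ H := by exact_mod_cast hH
      linarith
    have hexp : Real.exp (1 / H) ≤ 1.65 := by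
      have h1 : Real.exp (1 / (H : ℝ)) ≤ Real.exp (1 / 2) := by
        rw [Real.exp_le_exp]
        have : (2 : ℝ) ≤ H := by exact_mod_cast hH
        exact one_div_le_one_div_of_le (by norm_num) this
      have h2 : Real.exp (1 / 2) ≤ 1.65 := by
        have h3 : Real.exp (1 / 2) ^ 2 = Real.exp 1 := by
          rw [← Real.exp_nat_mul]
          norm_num
        have h4 := Real.exp_one_lt_d9
        have h5 : Real.exp (1 / 2) ^ 2 ≤ 1.65 ^ 2 := by
          rw [h3]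
          norm_num at h4 ⊢
          linarith
        exact (pow_le_pow_iff_left₀ (Real.exp_pos _).le (by norm_num) (by norm_num)).1 h5
      linarith
    have hsub : pb H P v ⊆ Ico m ⌈1.65 * (m : ℝ)⌉₊ := by
      intro p hp
      obtain ⟨hpP, _, hp2⟩ := mem_pb H (by omega) P hP1 v p hp
      rw [Finset.mem_Ico]
      refine ⟨Finset.min'_le _ _ hp, ?_⟩
      rw [Nat.lt_ceil]
      calc (p : ℝ) < Real.exp ((v + 1) / H) := hp2
        _ = Real.exp (v / H) * Real.exp (1 / H) := by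
            rw [← Real.exp_add]
            congr 1
            ring
        _ ≤ m * 1.65 := mul_le_mul hm1 hexp (Real.exp_pos _).le (by positivity)
        _ = 1.65 * m := by ring
    unfold rs
    calc ∑ p ∈ pb H P v, (1 : ℝ) / p ≤ ∑ p ∈ pb H P v, (1 : ℝ) / m := by
          refine Finset.sum_le_sum fun p hp => ?_
          have : m ≤ p := Finset.min'_le _ _ hp
          exact one_div_le_one_div_of_le (by linarith) (by exact_mod_cast this)
      _ ≤ ∑ p ∈ Ico m ⌈1.65 * (m : ℝ)⌉₊, (1 : ℝ) / m :=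
          Finset.sum_le_sum_of_subset_of_nonneg hsub fun _ _ _ => by positivity
      _ = ((⌈1.65 * (m : ℝ)⌉₊ - m : ℕ) : ℝ) * (1 / m) := by
          rw [Finset.sum_const, Nat.card_Ico, nsmul_eq_mul]
      _ ≤ (0.65 * m + 1) * (1 / m) := by
          refine mul_le_mul_of_nonneg_right ?_ (by positivity)
          have h6 : m ≤ ⌈1.65 * (m : ℝ)⌉₊ := by
            have : (m : ℝ) ≤ ⌈1.65 * (m : ℝ)⌉₊ := by
              refine le_trans ?_ (Nat.le_ceil _)
              nlinarith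
            exact_mod_cast this
          rw [Nat.cast_sub h6]
          have h7 := Nat.ceil_lt_add_one (a := 1.65 * (m : ℝ)) (by positivity)
          linarith
      _ ≤ 1 := by
          rw [mul_one_div, div_le_one (by linarith)]
          linarith

end Pool.Agent.MR
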