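import Pool.Agent.MR.BLinks

set_option autoImplicit false

open Finset

namespace Pool.Agent.MR

private theorem kap_pos {c : ℝ} (hc0 : 0 < c) {W : ℕ} (hW : 0 < W) : 0 < kap c W := by
  unfold kap
  have : (0 : ℝ) < W := by exact_mod_cast hW
  positivity

private theorem DD_pos {c : ℝ} (hc0 : 0 < c) {W : ℕ} (hW : 0 < W) : 0 < DD c W := by
  unfold DD
  have := kap_pos hc0 hW
  exact Nat.ceil_pos.2 (by positivity)

private theorem sg_pos {c : ℝ} (hc0 : 0 < c) {W : ℕ} (hW : 0 < W) : 0 < sg c W := by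
  unfold sg
  have h1 : (0 : ℝ) < W := by exact_mod_cast hW
  have h2 : (0 : ℝ) < DD c W := by exact_mod_cast DD_pos hc0 hW
  positivity

private theorem sg_le_one {c : ℝ} (hc0 : 0 < c) (hc1 : c ≤ 1) {W : ℕ} (hW : 0 < W) :
    sg c W ≤ 1 := by
  unfold sg
  have h1 : (1 : ℝ) ≤ W := by exact_mod_cast hW
  have h2 : (1 : ℝ) ≤ DD c W := by exact_mod_cast DD_pos hc0 hW
  have h3 : (1 : ℝ) ≤ (W : ℝ) ^ 2 := one_le_pow₀ h1
  have h4 : (1 : ℝ) ≤ 200 * (W : ℝ) ^ 2 * DD c W := by nlinarith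
  rw [div_le_one (by linarith)]
  linarith

/-- Dirichlet's theorem. -/
private theorem path_dirichlet {c : ℝ} (hc0 : 0 < c) {W : ℕ} (hW : 0 < W) (y : ℝ) :
    ∃ d : ℕ, 1 ≤ d ∧ d ≤ DD c W ∧ ∃ j : ℤ, |(d : ℝ) * y - j| ≤ kap c W := by
  have hD := DD_pos hc0 hW
  have hk := kap_pos hc0 hW
  obtain ⟨j, k, hk0, hkn, h⟩ := Real.exists_int_int_abs_mul_sub_le y hD
  refine ⟨k.toNat, by omega, by omega, j, ?_⟩
  have e1 : ((k.toNat : ℕ) : ℝ) = (k : ℝ) := by
    have : ((k.toNat : ℕ) : ℤ) = k := Int.toNat_of_nonneg hk0.le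
    exact_mod_cast this
  rw [e1]
  refine h.trans ?_
  have h1 : 1 / kap c W ≤ DD c W := Nat.le_ceil _
  rw [div_le_iff₀ (by positivity)]
  rw [div_le_iff₀ hk] at h1
  nlinarith

private theorem exists_class (W a n : ℕ) (hW : 0 < W) (hn : W ≤ n) :
    ∃ b, b ≤ n ∧ n < b + W ∧ b ≡ a [MOD W] := by
  have ht : (n + (W - 1) * a) % W < W := Nat.mod_lt _ hW
  refine ⟨n - (n + (W - 1) * a) % W, Nat.sub_le _ _, by omega, ?_⟩
  set t := (n + (W - 1) * a) % W with htd
  have h1 : t ≡ n + (W - 1) * a [MOD W] := Nat.mod_modEq _ _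
  have h2 : (n - t) + t = n := by omega
  have h3 : (n - t) + (n + (W - 1) * a) ≡ n [MOD W] := by
    have := (Nat.ModEq.refl (n - t)).add h1
    rw [h2] at this
    exact this.symm
  have h4 : n + ((n - t) + (W - 1) * a) ≡ n + 0 [MOD W] := by
    have e : n + ((n - t) + (W - 1) * a) = (n - t) + (n + (W - 1) * a) := by ring
    rw [e, add_zero]
    exact h3
  have h5 : (n - t) + (W - 1) * a ≡ 0 [MOD W] := Nat.ModEq.add_left_cancel' n h4
  have h6 : (n - t) + (W - 1) * a + a ≡ 0 + a [MOD W] := h5.add_right a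
  have h7 : (n - t) + (W - 1) * a + a = (n - t) + W * a := by
    obtain ⟨V, rfl⟩ : ∃ V, W = V + 1 := ⟨W - 1, by omega⟩
    simp only [Nat.add_sub_cancel]
    ring
  rw [h7, zero_add] at h6
  have h8 : (n - t) + W * a ≡ (n - t) + 0 [MOD W] :=
    (Nat.ModEq.refl _).add ((Nat.modEq_zero_iff_dvd).2 (dvd_mul_right _ _))
  rw [add_zero] at h8
  exact h8.symm.trans h6

/-- (B5) Deterministic path lemma.  If every link starting in `[w0, w0 + H + K1]` holds and no
`w b` with `w` in that range lies in `E`, then `f` is constant on the class `1` modulo `W` in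
`[w0, w0 + H]`. -/
theorem path (c : ℝ) (hc0 : 0 < c) (hc1 : c ≤ 1) (W a : ℕ) (hW : 0 < W) (ha : a.Coprime W)
    (H : ℕ) :
    ∃ (K1 : ℕ) (X0 : ℝ), 1 ≤ X0 ∧ ∀ x : ℝ, X0 ≤ x → ∀ (G : Type) [CommGroup G] (f : ℕ → G),
      (∀ m n : ℕ, 0 < m → 0 < n → f (m * n) = f m * f n) → ∀ (E : Finset ℕ) (g0 : G),
      (∀ m : ℕ, x < m → (m : ℝ) ≤ x + c * √x → m ≡ a [MOD W] → m ∉ E → f m = g0) →
      ∀ w0 : ℕ, w0 ∈ wset x (sg c W) → w0 + H + K1 ∈ wset x (sg c W) →
      (∀ w ∈ Icc w0 (w0 + H + K1), w ≡ 1 [MOD W] → ∀ d : ℕ, 1 ≤ d → d ≤ DD c W →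
        ∀ j : ℤ, |(d : ℝ) * (x / w) - j| ≤ kap c W → f w = f (w + W ^ 2 * d)) →
      (∀ w ∈ Icc w0 (w0 + H + K1), ∀ b : ℕ, 0 < b → w * b ∉ E) →
      ∀ u ∈ Icc w0 (w0 + H), ∀ v ∈ Icc w0 (w0 + H), u ≡ 1 [MOD W] → v ≡ 1 [MOD W] → f u = f v := by
  have _ := ha
  have hs := sg_pos hc0 hW
  have hs1 := sg_le_one hc0 hc1 hW
  have hWr : (1 : ℝ) ≤ W := by exact_mod_cast hW
  refine ⟨⌈8 * (W : ℝ) / sg c W ^ 2 + 4 / sg c W⌉₊, (4 * (W : ℝ) / sg c W) ^ 2 + 1,
    by nlinarith [sq_nonneg (4 * (W : ℝ) / sg c W)], ?_⟩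
  set K1 := ⌈8 * (W : ℝ) / sg c W ^ 2 + 4 / sg c W⌉₊ with hK1
  intro x hx G _ f hf E g0 hE w0 hw0 hw1 hlink hEw
  set s := sg c W with hsd
  have hx0 : 0 < x := by nlinarith [sq_nonneg (4 * (W : ℝ) / s)]
  have hsq : 0 < √x := Real.sqrt_pos.2 hx0
  have hxx : √x * √x = x := Real.mul_self_sqrt hx0.le
  have hsx : 4 * (W : ℝ) / s ≤ √x := by
    apply Real.le_sqrt_of_sq_le
    linarith
  -- bounds for `w0 + H`
  have hA : √x / s ≤ (w0 + H : ℕ) := by
    have h1 := (Finset.mem_Icc.1 hw0).1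
    have h2 : √x / s ≤ w0 := Nat.ceil_le.1 h1
    push_cast
    have : (0 : ℝ) ≤ H := Nat.cast_nonneg H
    linarith
  have hB : ((w0 + H : ℕ) : ℝ) ≤ 2 * (√x / s) := by
    have h1 := (Finset.mem_Icc.1 hw1).2
    have h2 : w0 + H ≤ ⌊2 * (√x / s)⌋₊ := by omega
    exact (Nat.le_floor_iff (by positivity)).1 h2
  set A : ℝ := ((w0 + H : ℕ) : ℝ) with hAd
  have hA0 : 0 < A := lt_of_lt_of_le (by positivity) hA
  set y := x / A with hy
  have hy0 : 0 < y := by positivity
  have hyA : y * A = x := by rw [hy]; field_simp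
  -- `y ≥ 2 W`
  have hy2 : 2 * (W : ℝ) ≤ y := by
    rw [hy, le_div_iff₀ hA0]
    have h1 : 4 * (W : ℝ) ≤ √x * s := by
      rwa [div_le_iff₀ hs] at hsx
    calc 2 * (W : ℝ) * A ≤ 2 * (W : ℝ) * (2 * (√x / s)) := by gcongr
      _ = 4 * W * (√x / s) := by ring
      _ ≤ √x * s * (√x / s) := by gcongr
      _ = √x * √x := by field_simp
      _ = x := hxx
  -- choice of `b`
  obtain ⟨b, hbn, hbW, hba⟩ := exists_class W a ⌊y⌋₊ hW (by
    apply Nat.le_floor
    linarith)
  have hby : (b : ℝ) ≤ y := (Nat.le_floor_iff hy0.le).1 hbn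
  have hby' : y - W ≤ b := by
    have h1 : y < ⌊y⌋₊ + 1 := Nat.lt_floor_add_one y
    have h2 : ((⌊y⌋₊ + 1 : ℕ) : ℝ) ≤ ((b + W : ℕ) : ℝ) := by exact_mod_cast hbW
    push_cast at h2
    linarith
  have hbh : y / 2 ≤ b := by linarith
  have hb0r : (0 : ℝ) < b := lt_of_lt_of_le (by positivity) hbh
  have hb0 : 0 < b := by exact_mod_cast hb0r
  -- the interval `J_b`
  have hJ1 : A ≤ x / b := by
    rw [le_div_iff₀ hb0r]
    calc A * b ≤ A * y := by gcongr
      _ = x := by rw [mul_comm]; exact hyA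
  have hJ2 : (W : ℝ) ^ 2 * DD c W ≤ c * √x / b := by
    rw [le_div_iff₀ hb0r]
    have hDr : (0 : ℝ) < DD c W := by exact_mod_cast DD_pos hc0 hW
    have h1 : s * (200 * (W : ℝ) ^ 2 * DD c W) = c := by
      rw [hsd]
      unfold sg
      field_simp
    have h2 : √x * b ≤ s * x := by
      have h3 : √x ≤ A * s := by rwa [div_le_iff₀ hs] at hA
      calc √x * b ≤ A * s * y := by gcongr
        _ = s * (y * A) := by ring
        _ = s * x := by rw [hyA]
    have h4 : b ≤ s * √x := by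
      have : √x * b ≤ √x * (s * √x) := by
        calc √x * b ≤ s * x := h2
          _ = s * (√x * √x) := by rw [hxx]
          _ = √x * (s * √x) := by ring
      exact le_of_mul_le_mul_left this hsq
    calc (W : ℝ) ^ 2 * DD c W * b ≤ (W : ℝ) ^ 2 * DD c W * (s * √x) := by gcongr
      _ = (s * (200 * (W : ℝ) ^ 2 * DD c W)) * √x / 200 := by ring
      _ = c * √x / 200 := by rw [h1]
      _ ≤ c * √x := by
          have : 0 ≤ c * √x := by positivity
          linarith
  have hJ3 : (x + c * √x) / b ≤ (w0 + H + K1 : ℕ) := by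
    have h1 : (x + c * √x) / b = x / b + c * √x / b := by ring
    have h2 : x / b ≤ A + 8 * W / s ^ 2 := by
      rw [div_le_iff₀ hb0r]
      have h3 : x ≤ A * b + A * W := by
        calc x = A * y := by rw [mul_comm]; exact hyA.symm
          _ ≤ A * (b + W) := by
              apply mul_le_mul_of_nonneg_left _ hA0.le
              linarith
          _ = A * b + A * W := by ring
      have h4 : A * W ≤ 8 * W / s ^ 2 * b := by
        have h5 : A * (s ^ 2) ≤ 8 * b := by
          have h6 : A * A * s ^ 2 ≤ 4 * x := by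
            have h7 : A * s ≤ 2 * √x := by
              calc A * s ≤ 2 * (√x / s) * s := by gcongr
                _ = 2 * √x := by field_simp
            calc A * A * s ^ 2 = (A * s) * (A * s) := by ring
              _ ≤ (2 * √x) * (2 * √x) := by
                  apply mul_le_mul h7 h7 (by positivity) (by positivity)
              _ = 4 * (√x * √x) := by ring
              _ = 4 * x := by rw [hxx]
          have h8 : A * (A * s ^ 2) ≤ A * (8 * b) := by
            calc A * (A * s ^ 2) = A * A * s ^ 2 := by ring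
              _ ≤ 4 * x := h6
              _ = 4 * (y * A) := by rw [hyA]
              _ = A * (8 * (y / 2)) := by ring
              _ ≤ A * (8 * b) := by gcongr
          exact le_of_mul_le_mul_left h8 hA0
        have h9 : 8 * (W : ℝ) / s ^ 2 * b = W * (8 * b) / s ^ 2 := by ring
        rw [h9, le_div_iff₀ (by positivity)]
        calc A * (W : ℝ) * s ^ 2 = (W : ℝ) * (A * s ^ 2) := by ring
          _ ≤ (W : ℝ) * (8 * b) := by gcongr
      calc x ≤ A * b + A * W := h3
        _ ≤ A * b + 8 * W / s ^ 2 * b := by linarith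
        _ = (A + 8 * W / s ^ 2) * b := by ring
    have h3 : c * √x / b ≤ 4 / s := by
      rw [div_le_div_iff₀ hb0r hs]
      have h4 : √x * s ≤ 4 * b := by
        have h5 : A * s ≤ 2 * √x := by
          calc A * s ≤ 2 * (√x / s) * s := by gcongr
            _ = 2 * √x := by field_simp
        have h6 : √x * (√x * s) ≤ √x * (4 * b) := by
          calc √x * (√x * s) = (√x * √x) * s := by ring
            _ = x * s := by rw [hxx]
            _ = y * (A * s) := by rw [← hyA]; ring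
            _ ≤ y * (2 * √x) := by gcongr
            _ = √x * (4 * (y / 2)) := by ring
            _ ≤ √x * (4 * b) := by gcongr
        exact le_of_mul_le_mul_left h6 hsq
      calc c * √x * s = c * (√x * s) := by ring
        _ ≤ 1 * (4 * b) := by
            apply mul_le_mul hc1 h4 (by positivity) (by norm_num)
        _ = 4 * b := by ring
    have h4 : 8 * (W : ℝ) / s ^ 2 + 4 / s ≤ K1 := Nat.le_ceil _
    have h5 : ((w0 + H + K1 : ℕ) : ℝ) = A + K1 := by
      rw [hAd]
      push_cast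
      ring
    rw [h1, h5]
    linarith
  -- the value on the path
  have key : ∀ n : ℕ, ∀ w : ℕ, w0 ≤ w → w ≤ w0 + H + K1 → w0 + H + K1 - w ≤ n →
      w ≡ 1 [MOD W] → (w : ℝ) ≤ (x + c * √x) / b → f w = g0 / f b := by
    intro n
    induction n with
    | zero =>
      intro w h1 h2 h3 h4 h5
      -- here `w = w0 + H + K1`, and `w > x / b`, or we can step and get a contradiction
      by_cases hw : x / b < w
      · have hpos : 0 < w := by
          have : (0 : ℝ) < w := lt_of_le_of_lt (by positivity) hw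
          exact_mod_cast this
        have e1 : f (w * b) = g0 := by
          apply hE
          · push_cast
            rwa [div_lt_iff₀ hb0r] at hw
          · push_cast
            rwa [le_div_iff₀ hb0r] at h5
          · have := h4.mul hba
            rwa [one_mul] at this
          · exact hEw w (Finset.mem_Icc.2 ⟨h1, h2⟩) b hb0
        rw [hf w b hpos hb0] at e1
        rw [← e1, mul_div_cancel_right]
      · exfalso
        have h6 : w = w0 + H + K1 := by omega
        have h7 : (w : ℝ) ≤ x / b := not_lt.1 hw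
        have h8 : (x + c * √x) / b = x / b + c * √x / b := by ring
        have hDr : (0 : ℝ) < DD c W := by exact_mod_cast DD_pos hc0 hW
        have h9 : (0 : ℝ) < (W : ℝ) ^ 2 * DD c W := by positivity
        rw [← h6] at hJ3
        linarith
    | succ n ih =>
      intro w h1 h2 h3 h4 h5
      by_cases hw : x / b < w
      · have hpos : 0 < w := by
          have : (0 : ℝ) < w := lt_of_le_of_lt (by positivity) hw
          exact_mod_cast this
        have e1 : f (w * b) = g0 := by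
          apply hE
          · push_cast
            rwa [div_lt_iff₀ hb0r] at hw
          · push_cast
            rwa [le_div_iff₀ hb0r] at h5
          · have := h4.mul hba
            rwa [one_mul] at this
          · exact hEw w (Finset.mem_Icc.2 ⟨h1, h2⟩) b hb0
        rw [hf w b hpos hb0] at e1
        rw [← e1, mul_div_cancel_right]
      · have h7 : (w : ℝ) ≤ x / b := not_lt.1 hw
        obtain ⟨d, hd1, hd2, j, hj⟩ := path_dirichlet (c := c) hc0 hW (x / w)
        rw [hlink w (Finset.mem_Icc.2 ⟨h1, h2⟩) h4 d hd1 hd2 j hj]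
        have hWd : 0 < W ^ 2 * d := by positivity
        have h8 : ((w + W ^ 2 * d : ℕ) : ℝ) ≤ (x + c * √x) / b := by
          have h9 : (x + c * √x) / b = x / b + c * √x / b := by ring
          have h10 : (d : ℝ) ≤ DD c W := by exact_mod_cast hd2
          push_cast
          rw [h9]
          have h11 : (W : ℝ) ^ 2 * d ≤ (W : ℝ) ^ 2 * DD c W := by gcongr
          linarith
        have h9 : w + W ^ 2 * d ≤ w0 + H + K1 := by
          have := h8.trans hJ3
          exact_mod_cast this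
        apply ih (w + W ^ 2 * d) (by omega) h9 (by omega) _ h8
        have h10 : w + W ^ 2 * d ≡ 1 + 0 [MOD W] := by
          apply h4.add
          rw [Nat.modEq_zero_iff_dvd]
          exact dvd_mul_of_dvd_left (dvd_pow_self W (by norm_num)) d
        simpa using h10
  have hval : ∀ u ∈ Icc w0 (w0 + H), u ≡ 1 [MOD W] → f u = g0 / f b := by
    intro u hu hu1
    rw [Finset.mem_Icc] at hu
    apply key (w0 + H + K1 - u) u hu.1 (by omega) le_rfl hu1
    have h1 : (u : ℝ) ≤ A := by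
      rw [hAd]
      exact_mod_cast hu.2
    have h8 : (x + c * √x) / b = x / b + c * √x / b := by ring
    have h9 : 0 ≤ c * √x / b := by positivity
    linarith
  intro u hu v hv hu1 hv1
  rw [hval u hu hu1, hval v hv hv1]

/-- Theorem B. -/
theorem theoremB (c : ℝ) (hc0 : 0 < c) (hc1 : c ≤ 1) (W a : ℕ) (hW : 0 < W) (ha : a.Coprime W)
    (H : ℕ) (ε : ℝ) (hε : 0 < ε) :
    ∃ δ X0 : ℝ, 0 < δ ∧ 1 ≤ X0 ∧ ∀ x : ℝ, X0 ≤ x → ∀ (G : Type) [CommGroup G] (f : ℕ → G),
      (∀ m n : ℕ, 0 < m → 0 < n → f (m * n) = f m * f n) → ∀ (E : Finset ℕ) (g0 : G),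
      ∑ m ∈ E, (m.divisors.card : ℝ) ≤ δ * √x →
      (∀ m : ℕ, x < m → (m : ℝ) ≤ x + c * √x → m ≡ a [MOD W] → m ∉ E → f m = g0) →
      (Set.ncard {w : ℕ | w ∈ wset x (sg c W) ∧ ¬ ∀ u ∈ Icc w (w + H), ∀ v ∈ Icc w (w + H),
          u ≡ 1 [MOD W] → v ≡ 1 [MOD W] → f u = f v} : ℝ)
        ≤ ε * (√x / sg c W) := by
  classical
  obtain ⟨K1, X1, hX1, hpath⟩ := path c hc0 hc1 W a hW ha H
  have hs := sg_pos hc0 hW
  have hs1 := sg_le_one hc0 hc1 hW
  set L := H + K1 with hL
  have hL1 : (0 : ℝ) < (L : ℝ) + 1 := by positivity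
  obtain ⟨δ1, X2, hδ1, hX2, hlinks⟩ := links c hc0 hc1 W a hW (ε / (4 * ((L : ℝ) + 1)))
    (by positivity)
  refine ⟨min δ1 (ε / (4 * ((L : ℝ) + 1))), max (max X1 X2) ((4 * (L : ℝ) / ε) ^ 2), by positivity,
    le_max_of_le_left (le_max_of_le_left hX1), ?_⟩
  intro x hx G _ f hf E g0 hEs hE
  have hxX1 : X1 ≤ x := (le_max_left _ _).trans ((le_max_left _ _).trans hx)
  have hxX2 : X2 ≤ x := (le_max_right _ _).trans ((le_max_left _ _).trans hx)
  have hxL : (4 * (L : ℝ) / ε) ^ 2 ≤ x := (le_max_right _ _).trans hx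
  have hx0 : 0 < x := by linarith
  have hsq : 0 < √x := Real.sqrt_pos.2 hx0
  set s := sg c W with hsd
  have hE1 : ∑ m ∈ E, (m.divisors.card : ℝ) ≤ δ1 * √x :=
    hEs.trans (mul_le_mul_of_nonneg_right (min_le_left _ _) hsq.le)
  have hE2 : ∑ m ∈ E, (m.divisors.card : ℝ) ≤ ε / (4 * ((L : ℝ) + 1)) * √x :=
    hEs.trans (mul_le_mul_of_nonneg_right (min_le_right _ _) hsq.le)
  have hB1 := hlinks x hxX2 G f hf E g0 hE1 hE
  -- the bad sets
  set B1 : Finset ℕ := (wset x s).filter (fun w => w ≡ 1 [MOD W] ∧ ∃ d : ℕ, 1 ≤ d ∧ d ≤ DD c W ∧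
          ∃ j : ℤ, |(d : ℝ) * (x / w) - j| ≤ kap c W ∧ f w ≠ f (w + W ^ 2 * d)) with hB1d
  set B2 : Finset ℕ := E.biUnion Nat.divisors with hB2d
  have hc1' : (B1.card : ℝ) ≤ ε / (4 * ((L : ℝ) + 1)) * (√x / s) := by
    have h1 : {w : ℕ | w ∈ wset x s ∧ w ≡ 1 [MOD W] ∧ ∃ d : ℕ, 1 ≤ d ∧ d ≤ DD c W ∧
          ∃ j : ℤ, |(d : ℝ) * (x / w) - j| ≤ kap c W ∧ f w ≠ f (w + W ^ 2 * d)} =
        (B1 : Set ℕ) := by
      ext w
      simp only [Set.mem_setOf_eq, hB1d, Finset.coe_filter]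
    rw [h1, Set.ncard_coe_finset] at hB1
    exact hB1
  have hc2' : (B2.card : ℝ) ≤ ε / (4 * ((L : ℝ) + 1)) * (√x / s) := by
    have h1 : (B2.card : ℝ) ≤ ∑ m ∈ E, (m.divisors.card : ℝ) := by
      exact_mod_cast Finset.card_biUnion_le
    have h2 : √x ≤ √x / s := by
      rw [le_div_iff₀ hs]
      calc √x * s ≤ √x * 1 := by gcongr
        _ = √x := mul_one _
    calc (B2.card : ℝ) ≤ ε / (4 * ((L : ℝ) + 1)) * √x := h1.trans hE2
      _ ≤ ε / (4 * ((L : ℝ) + 1)) * (√x / s) := by gcongr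
  set M := ⌊2 * (√x / s)⌋₊ with hM
  set T : Finset ℕ := Finset.Ioc (M - L) M ∪
    (range (L + 1)).biUnion (fun i => (B1 ∪ B2).image (fun w => w - i)) with hT
  have hsub : {w : ℕ | w ∈ wset x s ∧ ¬ ∀ u ∈ Icc w (w + H), ∀ v ∈ Icc w (w + H),
          u ≡ 1 [MOD W] → v ≡ 1 [MOD W] → f u = f v} ⊆ (T : Set ℕ) := by
    rintro w ⟨hw, hbad⟩
    by_contra hwT
    apply hbad
    rw [hT, Finset.mem_coe, Finset.mem_union, not_or] at hwT
    obtain ⟨h1, h2⟩ := hwT
    have hwM : w ≤ M := (Finset.mem_Icc.1 hw).2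
    have hwL : w + L ≤ M := by
      by_contra hcon
      apply h1
      rw [Finset.mem_Ioc]
      have h3 := (Finset.mem_Icc.1 hw).1
      have h4 : 0 < ⌈√x / s⌉₊ := Nat.ceil_pos.2 (by positivity)
      omega
    have hgood : ∀ i ≤ L, w + i ∉ B1 ∪ B2 := by
      intro i hi hmem
      apply h2
      rw [Finset.mem_biUnion]
      exact ⟨i, Finset.mem_range.2 (by omega), Finset.mem_image.2 ⟨w + i, hmem, by omega⟩⟩
    have hin : ∀ w' ∈ Icc w (w + H + K1), w' ∈ wset x s := by
      intro w' hw'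
      rw [Finset.mem_Icc] at hw'
      have h3 := (Finset.mem_Icc.1 hw).1
      exact Finset.mem_Icc.2 ⟨by omega, by omega⟩
    have hgood' : ∀ w' ∈ Icc w (w + H + K1), w' ∉ B1 ∧ w' ∉ B2 := by
      intro w' hw'
      rw [Finset.mem_Icc] at hw'
      have h3 := hgood (w' - w) (by omega)
      have h4 : w + (w' - w) = w' := by omega
      rw [h4, Finset.mem_union, not_or] at h3
      exact h3
    apply hpath x hxX1 G f hf E g0 hE w hw
    · exact hin _ (Finset.mem_Icc.2 ⟨by omega, le_rfl⟩)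
    · intro w' hw' hw1 d hd1 hd2 j hj
      by_contra hne
      apply (hgood' w' hw').1
      rw [hB1d, Finset.mem_filter]
      exact ⟨hin w' hw', hw1, d, hd1, hd2, j, hj, hne⟩
    · intro w' hw' b hb hmem
      apply (hgood' w' hw').2
      rw [hB2d, Finset.mem_biUnion]
      refine ⟨w' * b, hmem, ?_⟩
      rw [Nat.mem_divisors]
      refine ⟨dvd_mul_right _ _, ?_⟩
      have h3 := (Finset.mem_Icc.1 (hin w' hw')).1
      have h4 : 0 < ⌈√x / s⌉₊ := Nat.ceil_pos.2 (by positivity)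
      have h5 : 0 < w' := by omega
      exact (Nat.mul_pos h5 hb).ne'
  have hcard : T.card ≤ L + (L + 1) * (B1.card + B2.card) := by
    rw [hT]
    refine (Finset.card_union_le _ _).trans ?_
    apply Nat.add_le_add
    · rw [Nat.card_Ioc]
      omega
    · refine Finset.card_biUnion_le.trans ?_
      calc ∑ i ∈ range (L + 1), ((B1 ∪ B2).image (fun w => w - i)).card
          ≤ ∑ _i ∈ range (L + 1), (B1.card + B2.card) := by
            apply Finset.sum_le_sum
            intro i _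
            exact Finset.card_image_le.trans (Finset.card_union_le _ _)
        _ = (L + 1) * (B1.card + B2.card) := by
            rw [Finset.sum_const, Finset.card_range, smul_eq_mul]
  have h1 : (Set.ncard {w : ℕ | w ∈ wset x s ∧ ¬ ∀ u ∈ Icc w (w + H), ∀ v ∈ Icc w (w + H),
          u ≡ 1 [MOD W] → v ≡ 1 [MOD W] → f u = f v} : ℝ) ≤ T.card := by
    have := Set.ncard_le_ncard hsub T.finite_toSet
    rw [Set.ncard_coe_finset] at this
    exact_mod_cast this
  have h2 : (T.card : ℝ) ≤ L + (L + 1) * (B1.card + B2.card) := by exact_mod_cast hcard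
  have h3 : ((L : ℝ) + 1) * (B1.card + B2.card) ≤ ε / 2 * (√x / s) := by
    calc ((L : ℝ) + 1) * (B1.card + B2.card)
        ≤ ((L : ℝ) + 1) * (ε / (4 * ((L : ℝ) + 1)) * (√x / s) +
          ε / (4 * ((L : ℝ) + 1)) * (√x / s)) := by gcongr
      _ = ε / 2 * (√x / s) := by field_simp; ring
  have h4 : (L : ℝ) ≤ ε / 4 * (√x / s) := by
    have h5 : 4 * (L : ℝ) / ε ≤ √x := Real.le_sqrt_of_sq_le hxL
    have h6 : √x ≤ √x / s := by
      rw [le_div_iff₀ hs]
      calc √x * s ≤ √x * 1 := by gcongr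
        _ = √x := mul_one _
    have h7 : 4 * (L : ℝ) ≤ ε * √x := by
      rw [div_le_iff₀ hε] at h5
      linarith
    have h8 : ε * √x ≤ ε * (√x / s) := by gcongr
    linarith
  have h5 : 0 ≤ ε * (√x / s) := by positivity
  linarith

end Pool.Agent.MR
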