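import Pool.Agent.MR.ZLocal
import Pool.Agent.MR.BPath
import Pool.Agent.MR.BTau

set_option autoImplicit false

open Finset

namespace Pool.Agent.MR

private theorem sg_pos' (c : ℝ) (hc : 0 < c) (W : ℕ) (hW : 0 < W) : 0 < sg c W := by
  have hk : 0 < kap c W := by
    unfold kap
    have : (0 : ℝ) < W := by exact_mod_cast hW
    positivity
  have hD : 0 < DD c W := by
    unfold DD
    exact Nat.ceil_pos.mpr (by positivity)
  unfold sg
  have h1 : (0 : ℝ) < W := by exact_mod_cast hW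
  have h2 : (0 : ℝ) < DD c W := by exact_mod_cast hD
  positivity

/-- A completely multiplicative unimodular function all of whose twists by characters modulo `W`
satisfy the pointwise hypothesis omits no value too often in `(x, x + c √x] ∩ (a mod W)`. -/
theorem values_gen : ∃ A : ℕ, ∀ (f : ℕ → ℂˣ),
    (∀ m n : ℕ, 0 < m → 0 < n → f (m * n) = f m * f n) → (∀ n, ‖((f n : ℂˣ) : ℂ)‖ = 1) →
    ∀ (c : ℝ), 0 < c → ∀ (W a : ℕ), 0 < W → a.Coprime W →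
    (∀ χ : DirichletCharacter ℂ W, PW (fun n => ((f n : ℂˣ) : ℂ) * χ n)) →
    ∃ X0 : ℝ, ∀ x : ℝ, X0 ≤ x → ∀ g0 : ℂˣ,
      √x / Real.log x ^ A ≤
        (((Ioc ⌊x⌋₊ ⌊x + c * √x⌋₊).filter (fun n => n ≡ a [MOD W] ∧ f n ≠ g0)).card : ℝ) := by
  classical
  obtain ⟨A, K, X1, hK, hτ⟩ := sum_tau_sq_short
  refine ⟨A + 1, fun f hfm hfn c hc W a hW ha hpw => ?_⟩
  have hcm : ∀ χ : DirichletCharacter ℂ W, CM (fun n => ((f n : ℂˣ) : ℂ) * χ n) := by
    intro χ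
    refine ⟨fun m n hm hn => ?_, fun n => ?_⟩
    · simp only [hfm m n hm hn, Units.val_mul]
      push_cast
      rw [map_mul]
      ring
    · rw [norm_mul, hfn, one_mul]
      exact χ.norm_le_one _
  set c' : ℝ := min c 1 with hc'
  have hc'0 : 0 < c' := lt_min hc one_pos
  have hc'1 : c' ≤ 1 := min_le_right _ _
  obtain ⟨H, N0, hnc⟩ := not_constz (fun n => ((f n : ℂˣ) : ℂ)) hfn W hW hcm hpw
  obtain ⟨δ, X2, hδ, hX2, hB⟩ := theoremB c' hc'0 hc'1 W a hW ha H (1 / 4) (by norm_num)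
  have hσ := sg_pos' c' hc'0 W hW
  set σ := sg c' W with hσdef
  -- thresholds
  have hlog : ∀ᶠ x : ℝ in Filter.atTop, K / δ ^ 2 ≤ Real.log x :=
    Real.tendsto_log_atTop.eventually_ge_atTop _
  have hlog1 : ∀ᶠ x : ℝ in Filter.atTop, 1 ≤ Real.log x :=
    Real.tendsto_log_atTop.eventually_ge_atTop _
  have hN : ∀ᶠ x : ℝ in Filter.atTop, max N0 8 ≤ √x / σ := by
    have h1 : Filter.Tendsto (fun x : ℝ => √x / σ) Filter.atTop Filter.atTop :=
      Real.tendsto_sqrt_atTop.atTop_div_const hσ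
    exact h1.eventually_ge_atTop _
  have hall := hlog.and (hlog1.and (hN.and ((Filter.eventually_ge_atTop X1).and
    ((Filter.eventually_ge_atTop X2).and (Filter.eventually_ge_atTop 1)))))
  obtain ⟨X0, hX0⟩ := Filter.eventually_atTop.mp hall
  refine ⟨X0, fun x hx g0 => ?_⟩
  obtain ⟨h1, h2, h3, h4, h5, h6⟩ := hX0 x hx
  by_contra hcon
  rw [not_le] at hcon
  set E : Finset ℕ := (Ioc ⌊x⌋₊ ⌊x + c' * √x⌋₊).filter (fun n => n ≡ a [MOD W] ∧ f n ≠ g0)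
    with hE
  have hsx : 0 < √x := Real.sqrt_pos.mpr (by linarith)
  have hEc : (E.card : ℝ) < √x / Real.log x ^ (A + 1) := by
    refine lt_of_le_of_lt ?_ hcon
    have : E ⊆ (Ioc ⌊x⌋₊ ⌊x + c * √x⌋₊).filter (fun n => n ≡ a [MOD W] ∧ f n ≠ g0) := by
      intro n hn
      rw [hE, mem_filter, mem_Ioc] at hn
      rw [mem_filter, mem_Ioc]
      refine ⟨⟨hn.1.1, hn.1.2.trans (Nat.floor_mono ?_)⟩, hn.2⟩
      have : c' ≤ c := min_le_left _ _
      nlinarith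
    exact_mod_cast card_le_card this
  have hEsub : E ⊆ Ioc ⌊x⌋₊ ⌊x + √x⌋₊ := by
    intro n hn
    rw [hE, mem_filter, mem_Ioc] at hn
    rw [mem_Ioc]
    refine ⟨hn.1.1, hn.1.2.trans (Nat.floor_mono ?_)⟩
    nlinarith
  have hEτ : ∑ m ∈ E, (m.divisors.card : ℝ) ≤ δ * √x := by
    have hcs : (∑ m ∈ E, (m.divisors.card : ℝ)) ^ 2
        ≤ E.card * ∑ m ∈ E, (m.divisors.card : ℝ) ^ 2 := by
      have := sq_sum_le_card_mul_sum_sq (s := E) (f := fun m => (m.divisors.card : ℝ))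
      exact_mod_cast this
    have h7 : ∑ m ∈ E, (m.divisors.card : ℝ) ^ 2 ≤ K * √x * Real.log x ^ A :=
      (sum_le_sum_of_subset_of_nonneg hEsub (fun _ _ _ => by positivity)).trans (hτ x h4)
    have hl : 0 < Real.log x := by linarith
    have h8 : (∑ m ∈ E, (m.divisors.card : ℝ)) ^ 2 ≤ (δ * √x) ^ 2 := by
      calc (∑ m ∈ E, (m.divisors.card : ℝ)) ^ 2
          ≤ E.card * ∑ m ∈ E, (m.divisors.card : ℝ) ^ 2 := hcs
        _ ≤ (√x / Real.log x ^ (A + 1)) * (K * √x * Real.log x ^ A) := by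
            apply mul_le_mul hEc.le h7
            · exact sum_nonneg (fun _ _ => by positivity)
            · positivity
        _ = √x ^ 2 * (K / Real.log x) := by
            rw [pow_succ]
            field_simp
        _ ≤ √x ^ 2 * δ ^ 2 := by
            gcongr
            rw [div_le_iff₀ hl]
            rw [div_le_iff₀ (by positivity)] at h1
            linarith
        _ = (δ * √x) ^ 2 := by ring
    exact (sq_le_sq₀ (sum_nonneg (fun _ _ => by positivity)) (by positivity)).mp h8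
  have hconst : ∀ m : ℕ, x < m → (m : ℝ) ≤ x + c' * √x → m ≡ a [MOD W] → m ∉ E → f m = g0 := by
    intro m hm1 hm2 hma hmE
    by_contra hne
    apply hmE
    rw [hE, mem_filter, mem_Ioc]
    refine ⟨⟨?_, ?_⟩, hma, hne⟩
    · exact (Nat.floor_lt (by linarith)).mpr hm1
    · exact Nat.le_floor hm2
  have hbad := hB x h5 ℂˣ f hfm E g0 hEτ hconst
  set N : ℝ := √x / σ with hNdef
  have hN8 : 8 ≤ N := (le_max_right _ _).trans h3
  have hgood := hnc N ((le_max_left _ _).trans h3)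
  -- counting
  have hws : ((wset x σ).card : ℝ) ≥ N - 1 := by
    unfold wset
    rw [Nat.card_Icc]
    have e1 : (⌈N⌉₊ : ℝ) < N + 1 := Nat.ceil_lt_add_one (by linarith)
    have e2 : 2 * N - 1 < (⌊2 * N⌋₊ : ℝ) := Nat.sub_one_lt_floor _
    have e3 : (⌊2 * N⌋₊ : ℝ) + 1 - ⌈N⌉₊ ≤ ((⌊2 * N⌋₊ + 1 - ⌈N⌉₊ : ℕ) : ℝ) := by
      have := Nat.le_sub_of_add_le (le_refl (⌊2 * N⌋₊ + 1 - ⌈N⌉₊ + 0))
      rcases Nat.le_total ⌈N⌉₊ (⌊2 * N⌋₊ + 1) with h | h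
      · push_cast [Nat.cast_sub h]; linarith
      · have h' : ((⌊2 * N⌋₊ : ℝ) + 1) ≤ ⌈N⌉₊ := by exact_mod_cast h
        have : (0 : ℝ) ≤ ((⌊2 * N⌋₊ + 1 - ⌈N⌉₊ : ℕ) : ℝ) := Nat.cast_nonneg _
        linarith
    linarith
  have hcover : ((wset x σ : Finset ℕ) : Set ℕ) ⊆
      {w : ℕ | w ∈ wset x σ ∧ ¬ ∀ u ∈ Icc w (w + H), ∀ v ∈ Icc w (w + H),
          u ≡ 1 [MOD W] → v ≡ 1 [MOD W] → f u = f v} ∪
      {w : ℕ | N ≤ w ∧ (w : ℝ) ≤ 2 * N ∧ ∀ u ∈ Icc w (w + H), ∀ v ∈ Icc w (w + H),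
          u ≡ 1 [MOD W] → v ≡ 1 [MOD W] → ((f u : ℂˣ) : ℂ) = ((f v : ℂˣ) : ℂ)} := by
    intro w hw
    have hw' : w ∈ wset x σ := hw
    by_cases hc : ∀ u ∈ Icc w (w + H), ∀ v ∈ Icc w (w + H),
          u ≡ 1 [MOD W] → v ≡ 1 [MOD W] → f u = f v
    · right
      have hm := hw'
      unfold wset at hm
      rw [mem_Icc] at hm
      refine ⟨?_, ?_, ?_⟩
      · exact (Nat.ceil_le.mp hm.1)
      · exact (Nat.le_floor_iff (by linarith)).mp hm.2
      · intro u hu v hv h1u h1v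
        rw [hc u hu v hv h1u h1v]
    · left
      exact ⟨hw', hc⟩
  have hfin2 : Set.Finite {w : ℕ | N ≤ w ∧ (w : ℝ) ≤ 2 * N ∧ ∀ u ∈ Icc w (w + H),
      ∀ v ∈ Icc w (w + H), u ≡ 1 [MOD W] → v ≡ 1 [MOD W] → ((f u : ℂˣ) : ℂ) = ((f v : ℂˣ) : ℂ)} := by
    apply Set.Finite.subset (Set.finite_Icc 0 ⌊2 * N⌋₊)
    intro w hw
    exact ⟨Nat.zero_le _, Nat.le_floor hw.2.1⟩
  have hfin1 : Set.Finite {w : ℕ | w ∈ wset x σ ∧ ¬ ∀ u ∈ Icc w (w + H), ∀ v ∈ Icc w (w + H),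
          u ≡ 1 [MOD W] → v ≡ 1 [MOD W] → f u = f v} := by
    apply Set.Finite.subset (wset x σ).finite_toSet
    intro w hw
    exact hw.1
  have hcard := Set.ncard_le_ncard hcover (hfin1.union hfin2)
  have hcard2 := hcard.trans (Set.ncard_union_le _ _)
  rw [Set.ncard_coe_finset] at hcard2
  have hcard3 : ((wset x σ).card : ℝ) ≤
      (Set.ncard {w : ℕ | w ∈ wset x σ ∧ ¬ ∀ u ∈ Icc w (w + H), ∀ v ∈ Icc w (w + H),
          u ≡ 1 [MOD W] → v ≡ 1 [MOD W] → f u = f v} : ℝ) +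
      (Set.ncard {w : ℕ | N ≤ w ∧ (w : ℝ) ≤ 2 * N ∧ ∀ u ∈ Icc w (w + H), ∀ v ∈ Icc w (w + H),
          u ≡ 1 [MOD W] → v ≡ 1 [MOD W] → ((f u : ℂˣ) : ℂ) = ((f v : ℂˣ) : ℂ)} : ℝ) := by
    exact_mod_cast hcard2
  linarith

/-- The main theorem: `Ω(n) mod k` in reduced residue classes in `(x, x + c √x]`. -/
theorem omega_mod : ∃ A : ℕ, ∀ (c : ℝ), 0 < c → ∀ (k : ℕ), 2 ≤ k → ∀ (W a : ℕ), 0 < W →
    a.Coprime W → ∃ X0 : ℝ, ∀ x : ℝ, X0 ≤ x → ∀ j : ℕ,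
      √x / Real.log x ^ A ≤
        (((Ioc ⌊x⌋₊ ⌊x + c * √x⌋₊).filter (fun n => n ≡ a [MOD W] ∧
          ¬ ArithmeticFunction.cardFactors n ≡ j [MOD k])).card : ℝ) := by
  classical
  obtain ⟨A, hA⟩ := values_gen
  refine ⟨A, fun c hc k hk W a hW ha => ?_⟩
  have hk0 : k ≠ 0 := by omega
  have : NeZero W := ⟨hW.ne'⟩
  have hprim : IsPrimitiveRoot (Complex.exp (2 * Real.pi * Complex.I / k)) k :=
    Complex.isPrimitiveRoot_exp k hk0
  set z : ℂ := Complex.exp (2 * Real.pi * Complex.I / k) with hz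
  have hz0 : z ≠ 0 := Complex.exp_ne_zero _
  set ζ : ℂˣ := Units.mk0 z hz0 with hζ
  have hζp : IsPrimitiveRoot ζ k := by
    rw [← IsPrimitiveRoot.coe_units_iff]
    exact hprim
  have hzn : ‖z‖ = 1 := hprim.norm'_eq_one hk0
  have hzk : z ^ k = 1 := hprim.pow_eq_one
  have hz1 : z ≠ 1 := hprim.ne_one (by omega)
  set f : ℕ → ℂˣ := fun n => ζ ^ (ArithmeticFunction.cardFactors n) with hf
  have hfm : ∀ m n : ℕ, 0 < m → 0 < n → f (m * n) = f m * f n := by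
    intro m n hm hn
    simp only [hf]
    rw [ArithmeticFunction.cardFactors_mul hm.ne' hn.ne', pow_add]
  have hfv : ∀ n, ((f n : ℂˣ) : ℂ) = z ^ (ArithmeticFunction.cardFactors n) := by
    intro n
    simp [hf, hζ]
  have hfn : ∀ n, ‖((f n : ℂˣ) : ℂ)‖ = 1 := by
    intro n
    rw [hfv, norm_pow, hzn, one_pow]
  have hpw : ∀ χ : DirichletCharacter ℂ W, PW (fun n => ((f n : ℂˣ) : ℂ) * χ n) := by
    intro χ
    have e : (fun n : ℕ => ((f n : ℂˣ) : ℂ) * χ n) = zch z χ := by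
      funext n
      rw [hfv]
      rfl
    rw [e]
    exact pw_of_fb _ (CM_zch z hzn.le χ) (FB_zch W χ k hk z hzk hz1)
  obtain ⟨X0, hX0⟩ := hA f hfm hfn c hc W a hW ha hpw
  refine ⟨X0, fun x hx j => ?_⟩
  refine (hX0 x hx (ζ ^ j)).trans ?_
  have : (Ioc ⌊x⌋₊ ⌊x + c * √x⌋₊).filter (fun n => n ≡ a [MOD W] ∧ f n ≠ ζ ^ j)
      ⊆ (Ioc ⌊x⌋₊ ⌊x + c * √x⌋₊).filter (fun n => n ≡ a [MOD W] ∧
          ¬ ArithmeticFunction.cardFactors n ≡ j [MOD k]) := by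
    intro n hn
    rw [mem_filter] at hn ⊢
    refine ⟨hn.1, hn.2.1, fun hcon => hn.2.2 ?_⟩
    simp only [hf]
    rw [pow_eq_pow_iff_modEq, ← hζp.eq_orderOf]
    exact hcon
  exact_mod_cast card_le_card this

end Pool.Agent.MR
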