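import Pool.Agent.MR.ADefs
import Pool.Agent.H6.Selberg
import Pool.Agent.H6.HR.Sieve

set_option autoImplicit false

open Finset MeasureTheory

namespace Pool.Agent.MR

/-- Selberg weights (see `Pool.Agent.H6.Selberg`). -/
theorem selberg_weights : ∃ K : ℝ, 0 < K ∧ ∀ D : ℕ, 2 ≤ D → ∃ l : ℕ → ℝ, l 1 = 1 ∧
    (∀ d, |l d| ≤ d) ∧
    |∑ d ∈ Icc 1 D, ∑ e ∈ Icc 1 D, l d * l e / (Nat.lcm d e)| ≤ K / Real.log D := by
  refine ⟨2, by norm_num, fun D hD => ?_⟩
  set s := H6.HR.intSieve 0 1 D with hs
  set w := H6.lam s D with hw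
  have hP0 : s.prodPrimes ≠ 0 := BoundingSieve.prodPrimes_ne_zero
  have hnu : ∀ d : ℕ, s.nu d = (d : ℝ)⁻¹ := fun d => rfl
  have hwz : ∀ d : ℕ, w d ≠ 0 → d ∣ s.prodPrimes ∧ d ≤ D := by
    intro d hd
    constructor
    · by_contra h
      apply hd
      rw [hw]
      unfold H6.lam
      rw [if_neg h]
    · by_contra h
      exact hd (H6.lam_eq_zero s D (not_le.1 h))
  refine ⟨w, H6.lam_one s D (by omega), ?_, ?_⟩
  · intro d
    by_cases hd : d ∣ s.prodPrimes
    · have h := H6.abs_lam_le s D (by omega) hd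
      rwa [hnu, inv_inv] at h
    · have : w d = 0 := by
        by_contra h
        exact hd (hwz d h).1
      rw [this, abs_zero]
      exact Nat.cast_nonneg d
  · have hfil : (Icc 1 D).filter (fun d => d ∣ s.prodPrimes) =
        s.prodPrimes.divisors.filter (fun d => d ≤ D) := by
      ext d
      simp only [mem_filter, mem_Icc, Nat.mem_divisors]
      constructor
      · rintro ⟨⟨h1, h2⟩, h3⟩
        exact ⟨⟨h3, hP0⟩, h2⟩
      · rintro ⟨⟨h3, _⟩, h2⟩
        exact ⟨⟨Nat.pos_of_dvd_of_pos h3 (Nat.pos_of_ne_zero hP0), h2⟩, h3⟩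
    have hconv : ∀ g : ℕ → ℝ, (∀ d, w d = 0 → g d = 0) →
        ∑ d ∈ Icc 1 D, g d = ∑ d ∈ s.prodPrimes.divisors, g d := by
      intro g hg
      rw [← sum_filter_of_ne (s := Icc 1 D) (p := fun d => d ∣ s.prodPrimes),
        ← sum_filter_of_ne (s := s.prodPrimes.divisors) (p := fun d => d ≤ D), hfil]
      · intro d _ hd
        by_contra h
        apply hd
        apply hg
        by_contra h2
        exact h (hwz d h2).2
      · intro d _ hd
        by_contra h
        apply hd
        apply hg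
        by_contra h2
        exact h (hwz d h2).1
    have hmain := BoundingSieve.mainSum_lambdaSquared_eq_sum_sum_mul (s := s) w
    rw [H6.mainSum_lam s D (by omega)] at hmain
    have hsum : ∑ d ∈ Icc 1 D, ∑ e ∈ Icc 1 D, w d * w e / (Nat.lcm d e) = (H6.SS s D)⁻¹ := by
      rw [hmain, hconv (fun d => ∑ e ∈ Icc 1 D, w d * w e / (Nat.lcm d e))]
      · apply sum_congr rfl
        intro d hd
        rw [hconv (fun e => w d * w e / (Nat.lcm d e))]
        · apply sum_congr rfl
          intro e he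
          have hd0 : (d : ℝ) ≠ 0 := by exact_mod_cast (Nat.pos_of_mem_divisors hd).ne'
          have he0 : (e : ℝ) ≠ 0 := by exact_mod_cast (Nat.pos_of_mem_divisors he).ne'
          rw [hnu, hnu, hnu, inv_inv]
          have hg : (Nat.gcd d e : ℝ) ≠ 0 := by
            exact_mod_cast (Nat.gcd_pos_of_pos_left e (Nat.pos_of_mem_divisors hd)).ne'
          have hgl : (Nat.gcd d e : ℝ) * (Nat.lcm d e) = d * e := by
            exact_mod_cast Nat.gcd_mul_lcm d e
          have hl : (Nat.lcm d e : ℝ) ≠ 0 := by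
            intro h
            rw [h, mul_zero] at hgl
            exact mul_ne_zero hd0 he0 hgl.symm
          rw [div_eq_iff hl]
          have : (d : ℝ)⁻¹ * w d * (e : ℝ)⁻¹ * w e * (Nat.gcd d e) * (Nat.lcm d e) =
              (d : ℝ)⁻¹ * w d * (e : ℝ)⁻¹ * w e * ((Nat.gcd d e) * (Nat.lcm d e)) := by ring
          rw [this, hgl]
          field_simp
        · intro e he
          rw [he]; simp
      · intro d hd
        apply sum_eq_zero
        intro e _
        rw [hd]; simp
    rw [hsum]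
    have hD1 : (1 : ℝ) < D := by exact_mod_cast (by omega : 1 < D)
    have hlog : 0 < Real.log D := Real.log_pos hD1
    have h1 := H6.HR.SS_ge 0 1 D
    have h2 := H6.HR.sum_sqfree_ge D
    have h3 : Real.log D / 2 ≤ H6.SS s D := by
      rw [hs]; linarith
    have h4 : 0 < H6.SS s D := by linarith
    rw [abs_of_pos (inv_pos.2 h4), inv_eq_one_div, div_le_div_iff₀ h4 hlog]
    linarith

end Pool.Agent.MR
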