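import Pool.Agent.MR.ZEuler

set_option autoImplicit false

open Finset

namespace Pool.Agent.MR

/-- logarithm of the Euler product -/
noncomputable def zcG {q : ℕ} (χ : DirichletCharacter ℂ q) (s : ℂ) : ℂ :=
  ∑' p : Nat.Primes, -Complex.log (1 - χ p * ((p : ℕ) : ℂ) ^ (-s))

theorem zc_norm_le {q : ℕ} (χ : DirichletCharacter ℂ q) (p : Nat.Primes) (s : ℂ) :
    ‖χ p * ((p : ℕ) : ℂ) ^ (-s)‖ ≤ ((p : ℕ) : ℝ) ^ (-s.re) := by
  rw [norm_mul, Complex.norm_natCast_cpow_of_pos p.2.pos]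
  have h := χ.norm_le_one (p : ℕ)
  have h2 : (0 : ℝ) ≤ ((p : ℕ) : ℝ) ^ (-s).re := by positivity
  calc _ ≤ 1 * ((p : ℕ) : ℝ) ^ (-s).re := by gcongr
    _ = _ := by rw [one_mul, Complex.neg_re]

theorem zc_rpow_mono (p : Nat.Primes) {a b : ℝ} (h : a ≤ b) :
    ((p : ℕ) : ℝ) ^ (-b) ≤ ((p : ℕ) : ℝ) ^ (-a) := by
  apply Real.rpow_le_rpow_of_exponent_le
  · have := p.2.one_lt
    exact_mod_cast this.le
  · linarith

theorem zc_rpow_half (p : Nat.Primes) {a : ℝ} (h : 1 ≤ a) : ((p : ℕ) : ℝ) ^ (-a) ≤ 1 / 2 := by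
  have h1 := zc_rpow_mono p h
  have h2 : ((p : ℕ) : ℝ) ^ (-(1 : ℝ)) ≤ 1 / 2 := by
    rw [Real.rpow_neg_one]
    have : (2 : ℝ) ≤ ((p : ℕ) : ℝ) := by exact_mod_cast p.2.two_le
    rw [inv_eq_one_div]
    gcongr
  linarith

theorem zc_log_le {q : ℕ} (χ : DirichletCharacter ℂ q) (p : Nat.Primes) {s : ℂ} (hs : 1 ≤ s.re) :
    ‖-Complex.log (1 - χ p * ((p : ℕ) : ℂ) ^ (-s))‖ ≤ 3 / 2 * ((p : ℕ) : ℝ) ^ (-s.re) := by
  rw [norm_neg, sub_eq_add_neg]
  have h1 := zc_norm_le χ p s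
  have h2 := zc_rpow_half p hs
  refine (Complex.norm_log_one_add_half_le_self (by rw [norm_neg]; linarith)).trans ?_
  rw [norm_neg]
  gcongr

theorem zc_differentiableAt {q : ℕ} (χ : DirichletCharacter ℂ q) {s : ℂ} (hs : 1 < s.re) :
    DifferentiableAt ℂ (zcG χ) s := by
  obtain ⟨δ, hδ1, hδ2⟩ := exists_between hs
  have hU : IsOpen {w : ℂ | δ < w.re} := isOpen_lt continuous_const Complex.continuous_re
  have h : DifferentiableOn ℂ (zcG χ) {w : ℂ | δ < w.re} := by
    apply Complex.differentiableOn_tsum_of_summable_norm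
      (u := fun p : Nat.Primes => 3 / 2 * ((p : ℕ) : ℝ) ^ (-δ))
    · exact (Nat.Primes.summable_rpow.mpr (by linarith)).mul_left _
    · intro p w hw
      have hw' : δ < w.re := hw
      apply DifferentiableAt.differentiableWithinAt
      apply DifferentiableAt.neg
      apply DifferentiableAt.clog
      · apply DifferentiableAt.const_sub
        apply DifferentiableAt.const_mul
        apply DifferentiableAt.const_cpow
        · exact differentiableAt_id.neg
        · left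
          exact_mod_cast p.2.ne_zero
      · rw [sub_eq_add_neg]
        apply Complex.mem_slitPlane_of_norm_lt_one
        rw [norm_neg]
        have h1 := zc_norm_le χ p w
        have h2 := zc_rpow_half p (show 1 ≤ w.re by linarith)
        linarith
    · exact hU
    · intro p w hw
      have hw' : δ < w.re := hw
      refine (zc_log_le χ p (by linarith)).trans ?_
      have := zc_rpow_mono p hw'.le
      gcongr
  exact h.differentiableAt (hU.mem_nhds hδ2)

theorem zc_exp {q : ℕ} [NeZero q] (χ : DirichletCharacter ℂ q) {s : ℂ} (hs : 1 < s.re) :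
    Complex.exp (zcG χ s) = DirichletCharacter.LFunction χ s := by
  rw [DirichletCharacter.LFunction_eq_LSeries χ hs,
    ← DirichletCharacter.LSeries_eulerProduct_exp_log χ hs]
  rfl

theorem zc_deriv {q : ℕ} [NeZero q] (χ : DirichletCharacter ℂ q) (hχ : χ ≠ 1) {s : ℂ}
    (hs : 1 < s.re) : HasDerivAt (zcG χ)
      (deriv (DirichletCharacter.LFunction χ) s / DirichletCharacter.LFunction χ s) s := by
  have h1 := (zc_differentiableAt χ hs).hasDerivAt
  have hne : DirichletCharacter.LFunction χ s ≠ 0 :=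
    DirichletCharacter.LFunction_ne_zero_of_one_le_re χ (Or.inl hχ) hs.le
  have hL : HasDerivAt (DirichletCharacter.LFunction χ)
      (deriv (DirichletCharacter.LFunction χ) s) s :=
    ((DirichletCharacter.differentiable_LFunction hχ) s).hasDerivAt
  have h2 : HasDerivAt (DirichletCharacter.LFunction χ)
      (Complex.exp (zcG χ s) * deriv (zcG χ) s) s := by
    apply h1.cexp.congr_of_eventuallyEq
    have : {w : ℂ | 1 < w.re} ∈ nhds s :=
      (isOpen_lt continuous_const Complex.continuous_re).mem_nhds hs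
    filter_upwards [this] with w hw
    exact (zc_exp χ hw).symm
  have h3 := hL.unique h2
  rw [zc_exp χ hs] at h3
  rw [h3, mul_div_cancel_left₀ _ hne]
  exact h1

/-- Bounded `u`, nonprincipal `χ`: `∑ χ(p) p^{-s}` is bounded. For fixed `u` the derivative in `α` of
the sum is `-∑ χ(p) log p p^{-s} = L'/L(s,χ) + O(1)`, which is bounded on the compact set
(`L(s,χ) ≠ 0` for `Re s ≥ 1`, `LFunction_ne_zero_of_one_le_re`, see `PFb.lean`); at `α = 1` the sum
is bounded by `∑ p^{-2}`. -/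
theorem char_prime_sum (q : ℕ) [NeZero q] (χ : DirichletCharacter ℂ q) (hχ : χ ≠ 1) :
    ∃ K : ℝ, 0 < K ∧ ∀ α : ℝ, 0 < α → α ≤ 1 → ∀ u : ℝ, |u| ≤ 1 →
      ‖∑' p : Nat.Primes, χ p * ((p : ℕ) : ℂ) ^ (-(1 + α + u * Complex.I))‖ ≤ K := by
  -- compactness
  have hcont : ContinuousOn (fun z : ℝ × ℝ =>
      deriv (DirichletCharacter.LFunction χ) (1 + z.1 + z.2 * Complex.I)
        / DirichletCharacter.LFunction χ (1 + z.1 + z.2 * Complex.I))
      (Set.Icc 0 1 ×ˢ Set.Icc (-1) 1) := by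
    have hLd := DirichletCharacter.differentiable_LFunction hχ
    have hc : Continuous (fun z : ℝ × ℝ => (1 + z.1 + z.2 * Complex.I : ℂ)) := by fun_prop
    have hc1 : Continuous (deriv (DirichletCharacter.LFunction χ)) :=
      (hLd.contDiff (n := 1)).continuous_deriv le_rfl
    apply ContinuousOn.div
    · exact (hc1.comp hc).continuousOn
    · exact (hLd.continuous.comp hc).continuousOn
    · rintro ⟨a, b⟩ ⟨h1, -⟩
      apply DirichletCharacter.LFunction_ne_zero_of_one_le_re χ (Or.inl hχ)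
      have : (0 : ℝ) ≤ a := h1.1
      simp
      exact this
  obtain ⟨C, hC⟩ := (isCompact_Icc.prod isCompact_Icc).exists_bound_of_continuousOn hcont
  have hC0 : 0 ≤ C := (norm_nonneg _).trans (hC (0, 0) ⟨⟨le_rfl, zero_le_one⟩, by norm_num, by norm_num⟩)
  have hS : Summable (fun p : Nat.Primes => ((p : ℕ) : ℝ) ^ (-(2 : ℝ))) :=
    Nat.Primes.summable_rpow.mpr (by norm_num)
  set B : ℝ := ∑' p : Nat.Primes, ((p : ℕ) : ℝ) ^ (-(2 : ℝ)) with hB
  have hB0 : 0 ≤ B := tsum_nonneg fun p => by positivity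
  refine ⟨C + 3 / 2 * B + B + 1, by positivity, fun α hα hα1 u hu => ?_⟩
  have hub := abs_le.1 hu
  -- the logarithm at `α`
  have hre : ∀ x : ℝ, (1 + (x : ℂ) + u * Complex.I).re = 1 + x := by
    intro x
    simp
  have hG1 : ‖zcG χ (1 + ((1 : ℝ) : ℂ) + u * Complex.I)‖ ≤ 3 / 2 * B := by
    unfold zcG
    refine tsum_of_norm_bounded (hS.hasSum.mul_left (3 / 2)) fun p => ?_
    refine (zc_log_le χ p (by rw [hre]; norm_num)).trans ?_
    rw [hre]
    norm_num
  have hder : ∀ x ∈ Set.Icc α 1, HasDerivWithinAt (fun x : ℝ => zcG χ (1 + (x : ℂ) + u * Complex.I))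
      (deriv (DirichletCharacter.LFunction χ) (1 + (x : ℂ) + u * Complex.I)
        / DirichletCharacter.LFunction χ (1 + (x : ℂ) + u * Complex.I)) (Set.Icc α 1) x := by
    intro x hx
    have hxp : 0 < x := hα.trans_le hx.1
    have h1 := zc_deriv χ hχ (s := 1 + (x : ℂ) + u * Complex.I) (by rw [hre]; linarith)
    have h2 : HasDerivAt (fun x : ℝ => (1 + (x : ℂ) + u * Complex.I)) 1 x := by
      have := (((hasDerivAt_id x).ofReal_comp).const_add 1).add_const (u * Complex.I)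
      simpa using this
    have h3 := h1.comp x h2
    rw [mul_one] at h3
    exact h3.hasDerivWithinAt
  have hmv := (convex_Icc α 1).norm_image_sub_le_of_norm_hasDerivWithin_le (C := C) hder
    (fun x hx => hC (x, u) ⟨⟨hα.le.trans hx.1, hx.2⟩, hub.1, hub.2⟩)
    (Set.right_mem_Icc.2 hα1) (Set.left_mem_Icc.2 hα1)
  have hG : ‖zcG χ (1 + (α : ℂ) + u * Complex.I)‖ ≤ C + 3 / 2 * B := by
    have h1 : C * ‖α - 1‖ ≤ C := by
      have : ‖α - 1‖ ≤ 1 := by
        rw [Real.norm_eq_abs, abs_le]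
        constructor <;> linarith
      nlinarith
    have h2 := norm_sub_norm_le (zcG χ (1 + (α : ℂ) + u * Complex.I))
      (zcG χ (1 + ((1 : ℝ) : ℂ) + u * Complex.I))
    linarith
  -- comparison of the sum with the logarithm
  set s : ℂ := 1 + (α : ℂ) + u * Complex.I with hs
  have hsre : s.re = 1 + α := hre α
  have hs1 : 1 < s.re := by rw [hsre]; linarith
  have hsum1 : Summable (fun p : Nat.Primes => χ p * ((p : ℕ) : ℂ) ^ (-s)) := by
    apply Summable.of_norm_bounded (g := fun p : Nat.Primes => ((p : ℕ) : ℝ) ^ (-s.re))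
    · exact Nat.Primes.summable_rpow.mpr (by linarith)
    · intro p
      exact zc_norm_le χ p s
  have hsum2 : Summable (fun p : Nat.Primes => -Complex.log (1 - χ p * ((p : ℕ) : ℂ) ^ (-s))) := by
    apply Summable.of_norm_bounded (g := fun p : Nat.Primes => 3 / 2 * ((p : ℕ) : ℝ) ^ (-s.re))
    · exact (Nat.Primes.summable_rpow.mpr (by linarith)).mul_left _
    · intro p
      exact zc_log_le χ p hs1.le
  have hdiff : ‖(∑' p : Nat.Primes, χ p * ((p : ℕ) : ℂ) ^ (-s)) - zcG χ s‖ ≤ B := by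
    unfold zcG
    rw [← hsum1.tsum_sub hsum2]
    refine tsum_of_norm_bounded hS.hasSum fun p => ?_
    set w : ℂ := χ p * ((p : ℕ) : ℂ) ^ (-s) with hw
    have h1 : ‖w‖ ≤ ((p : ℕ) : ℝ) ^ (-s.re) := zc_norm_le χ p s
    have h2 := zc_rpow_half p hs1.le
    have h3 : ‖w‖ ≤ 1 / 2 := by linarith
    have h4 := Complex.norm_log_one_add_sub_self_le (z := -w) (by rw [norm_neg]; linarith)
    have e : w - -Complex.log (1 - w) = Complex.log (1 + -w) - -w := by
      rw [← sub_eq_add_neg]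
      ring
    rw [e]
    refine h4.trans ?_
    rw [norm_neg]
    have h5 : (1 - ‖w‖)⁻¹ ≤ 2 := by
      rw [inv_le_comm₀ (by linarith) (by norm_num)]
      linarith
    have h6 : ‖w‖ ^ 2 ≤ ((p : ℕ) : ℝ) ^ (-(2 : ℝ)) := by
      have h7 : ‖w‖ ≤ ((p : ℕ) : ℝ) ^ (-(1 : ℝ)) := h1.trans (zc_rpow_mono p hs1.le)
      calc ‖w‖ ^ 2 ≤ (((p : ℕ) : ℝ) ^ (-(1 : ℝ))) ^ 2 := by gcongr
        _ = ((p : ℕ) : ℝ) ^ (-(2 : ℝ)) := by
            rw [← Real.rpow_natCast, ← Real.rpow_mul (by positivity)]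
            norm_num
    calc ‖w‖ ^ 2 * (1 - ‖w‖)⁻¹ / 2 ≤ ‖w‖ ^ 2 * 2 / 2 := by gcongr
      _ = ‖w‖ ^ 2 := by ring
      _ ≤ _ := h6
  have h8 := norm_sub_norm_le (∑' p : Nat.Primes, χ p * ((p : ℕ) : ℂ) ^ (-s)) (zcG χ s)
  linarith

end Pool.Agent.MR
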