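import Pool.Agent.MR.ZChar

set_option autoImplicit false

open Finset

namespace Pool.Agent.MR

/-- `log ζ(s) + log (s - 1)` -/
noncomputable def zzH (s : ℂ) : ℂ :=
  zcG (1 : DirichletCharacter ℂ 1) s + Complex.log (s - 1)

theorem zz_ne {s : ℂ} (hs : 1 ≤ s.re) : DirichletCharacter.LFunctionTrivChar₁ 1 s ≠ 0 := by
  rcases eq_or_ne s 1 with rfl | h1
  · exact DirichletCharacter.LFunctionTrivChar₁_apply_one_ne_zero 1
  · rw [DirichletCharacter.LFunctionTrivChar₁, Function.update_of_ne h1]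
    exact mul_ne_zero (sub_ne_zero_of_ne h1)
      (DirichletCharacter.LFunction_ne_zero_of_one_le_re (1 : DirichletCharacter ℂ 1) (.inr h1) hs)

theorem zz_exp {s : ℂ} (hs : 1 < s.re) :
    Complex.exp (zzH s) = DirichletCharacter.LFunctionTrivChar₁ 1 s := by
  have h1 : s ≠ 1 := by
    intro h
    rw [h] at hs
    simp at hs
  rw [zzH, Complex.exp_add, zc_exp _ hs, Complex.exp_log (sub_ne_zero_of_ne h1),
    DirichletCharacter.LFunctionTrivChar₁, Function.update_of_ne h1, mul_comm]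

theorem zz_deriv {s : ℂ} (hs : 1 < s.re) : HasDerivAt zzH
      (deriv (DirichletCharacter.LFunctionTrivChar₁ 1) s /
        DirichletCharacter.LFunctionTrivChar₁ 1 s) s := by
  have hslit : s - 1 ∈ Complex.slitPlane := by
    left
    simp
    exact hs
  have h1 : HasDerivAt zzH (deriv zzH s) s := by
    apply DifferentiableAt.hasDerivAt
    apply DifferentiableAt.add (zc_differentiableAt _ hs)
    exact (differentiableAt_id.sub_const 1).clog hslit
  have hL : HasDerivAt (DirichletCharacter.LFunctionTrivChar₁ 1)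
      (deriv (DirichletCharacter.LFunctionTrivChar₁ 1) s) s :=
    ((DirichletCharacter.differentiable_LFunctionTrivChar₁ 1) s).hasDerivAt
  have h2 : HasDerivAt (DirichletCharacter.LFunctionTrivChar₁ 1)
      (Complex.exp (zzH s) * deriv zzH s) s := by
    apply h1.cexp.congr_of_eventuallyEq
    have : {w : ℂ | 1 < w.re} ∈ nhds s :=
      (isOpen_lt continuous_const Complex.continuous_re).mem_nhds hs
    filter_upwards [this] with w hw
    exact (zz_exp hw).symm
  have h3 := hL.unique h2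
  rw [zz_exp hs] at h3
  rw [h3, mul_div_cancel_left₀ _ (zz_ne hs.le)]
  exact h1

/-- Bounded `u`, all primes: `∑ p^{-s} = log(1/(s-1)) + O(1)`. For fixed `u` the derivative in `α` of
the left side is `ζ'/ζ(s) + 1/(s-1) + O(1)`, bounded on the compact set. -/
theorem zeta_prime_sum :
    ∃ K : ℝ, 0 < K ∧ ∀ α : ℝ, 0 < α → α ≤ 1 → ∀ u : ℝ, |u| ≤ 1 →
      ‖(∑' p : Nat.Primes, ((p : ℕ) : ℂ) ^ (-(1 + α + u * Complex.I)))
        + Complex.log (α + u * Complex.I)‖ ≤ K := by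
  set χ : DirichletCharacter ℂ 1 := 1 with hχ
  have hχ1 : ∀ p : Nat.Primes, χ p = 1 := by
    intro p
    rw [hχ, MulChar.one_apply]
    exact isUnit_of_subsingleton _
  -- compactness
  have hcont : ContinuousOn (fun z : ℝ × ℝ =>
      deriv (DirichletCharacter.LFunctionTrivChar₁ 1) (1 + z.1 + z.2 * Complex.I)
        / DirichletCharacter.LFunctionTrivChar₁ 1 (1 + z.1 + z.2 * Complex.I))
      (Set.Icc 0 1 ×ˢ Set.Icc (-1) 1) := by
    have hLd := DirichletCharacter.differentiable_LFunctionTrivChar₁ 1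
    have hc : Continuous (fun z : ℝ × ℝ => (1 + z.1 + z.2 * Complex.I : ℂ)) := by fun_prop
    have hc1 : Continuous (deriv (DirichletCharacter.LFunctionTrivChar₁ 1)) :=
      (hLd.contDiff (n := 1)).continuous_deriv le_rfl
    apply ContinuousOn.div
    · exact (hc1.comp hc).continuousOn
    · exact (hLd.continuous.comp hc).continuousOn
    · rintro ⟨a, b⟩ ⟨h1, -⟩
      apply zz_ne
      have : (0 : ℝ) ≤ a := h1.1
      simp
      exact this
  obtain ⟨C, hC⟩ := (isCompact_Icc.prod isCompact_Icc).exists_bound_of_continuousOn hcont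
  have hC0 : 0 ≤ C := (norm_nonneg _).trans (hC (0, 0) ⟨⟨le_rfl, zero_le_one⟩, by norm_num, by norm_num⟩)
  have hcont2 : ContinuousOn (fun u : ℝ => Complex.log (1 + u * Complex.I)) (Set.Icc (-1) 1) := by
    apply ContinuousOn.clog
    · fun_prop
    · intro x _
      left
      simp
  obtain ⟨C2, hC2⟩ := isCompact_Icc.exists_bound_of_continuousOn hcont2
  have hC20 : 0 ≤ C2 := (norm_nonneg _).trans (hC2 0 ⟨by norm_num, by norm_num⟩)
  have hS : Summable (fun p : Nat.Primes => ((p : ℕ) : ℝ) ^ (-(2 : ℝ))) :=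
    Nat.Primes.summable_rpow.mpr (by norm_num)
  set B : ℝ := ∑' p : Nat.Primes, ((p : ℕ) : ℝ) ^ (-(2 : ℝ)) with hB
  have hB0 : 0 ≤ B := tsum_nonneg fun p => by positivity
  refine ⟨C + 3 / 2 * B + C2 + B + 1, by positivity, fun α hα hα1 u hu => ?_⟩
  have hub := abs_le.1 hu
  -- the logarithm at `α`
  have hre : ∀ x : ℝ, (1 + (x : ℂ) + u * Complex.I).re = 1 + x := by
    intro x
    simp
  have hG1 : ‖zzH (1 + ((1 : ℝ) : ℂ) + u * Complex.I)‖ ≤ 3 / 2 * B + C2 := by
    have h1 : ‖zcG χ (1 + ((1 : ℝ) : ℂ) + u * Complex.I)‖ ≤ 3 / 2 * B := by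
      unfold zcG
      refine tsum_of_norm_bounded (hS.hasSum.mul_left (3 / 2)) fun p => ?_
      refine (zc_log_le χ p (by rw [hre]; norm_num)).trans ?_
      rw [hre]
      norm_num
    have h2 : ‖Complex.log ((1 + ((1 : ℝ) : ℂ) + u * Complex.I) - 1)‖ ≤ C2 := by
      have e : (1 + ((1 : ℝ) : ℂ) + u * Complex.I) - 1 = 1 + u * Complex.I := by
        push_cast
        ring
      rw [e]
      exact hC2 u ⟨hub.1, hub.2⟩
    exact (norm_add_le _ _).trans (add_le_add h1 h2)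
  have hder : ∀ x ∈ Set.Icc α 1, HasDerivWithinAt (fun x : ℝ => zzH (1 + (x : ℂ) + u * Complex.I))
      (deriv (DirichletCharacter.LFunctionTrivChar₁ 1) (1 + (x : ℂ) + u * Complex.I)
        / DirichletCharacter.LFunctionTrivChar₁ 1 (1 + (x : ℂ) + u * Complex.I)) (Set.Icc α 1) x := by
    intro x hx
    have hxp : 0 < x := hα.trans_le hx.1
    have h1 := zz_deriv (s := 1 + (x : ℂ) + u * Complex.I) (by rw [hre]; linarith)
    have h2 : HasDerivAt (fun x : ℝ => (1 + (x : ℂ) + u * Complex.I)) 1 x := by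
      have := (((hasDerivAt_id x).ofReal_comp).const_add 1).add_const (u * Complex.I)
      simpa using this
    have h3 := h1.comp x h2
    rw [mul_one] at h3
    exact h3.hasDerivWithinAt
  have hmv := (convex_Icc α 1).norm_image_sub_le_of_norm_hasDerivWithin_le (C := C) hder
    (fun x hx => hC (x, u) ⟨⟨hα.le.trans hx.1, hx.2⟩, hub.1, hub.2⟩)
    (Set.right_mem_Icc.2 hα1) (Set.left_mem_Icc.2 hα1)
  have hG : ‖zzH (1 + (α : ℂ) + u * Complex.I)‖ ≤ C + 3 / 2 * B + C2 := by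
    have h1 : C * ‖α - 1‖ ≤ C := by
      have : ‖α - 1‖ ≤ 1 := by
        rw [Real.norm_eq_abs, abs_le]
        constructor <;> linarith
      nlinarith
    have h2 := norm_sub_norm_le (zzH (1 + (α : ℂ) + u * Complex.I))
      (zzH (1 + ((1 : ℝ) : ℂ) + u * Complex.I))
    linarith
  -- comparison of the sum with the logarithm
  set s : ℂ := 1 + (α : ℂ) + u * Complex.I with hs
  have hsre : s.re = 1 + α := hre α
  have hs1 : 1 < s.re := by rw [hsre]; linarith
  have hsum1 : Summable (fun p : Nat.Primes => χ p * ((p : ℕ) : ℂ) ^ (-s)) := by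
    apply Summable.of_norm_bounded (g := fun p : Nat.Primes => ((p : ℕ) : ℝ) ^ (-s.re))
    · exact Nat.Primes.summable_rpow.mpr (by linarith)
    · intro p
      exact zc_norm_le χ p s
  have hsum2 : Summable (fun p : Nat.Primes => -Complex.log (1 - χ p * ((p : ℕ) : ℂ) ^ (-s))) := by
    apply Summable.of_norm_bounded (g := fun p : Nat.Primes => 3 / 2 * ((p : ℕ) : ℝ) ^ (-s.re))
    · exact (Nat.Primes.summable_rpow.mpr (by linarith)).mul_left _
    · intro p
      exact zc_log_le χ p hs1.le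
  have hdiff : ‖(∑' p : Nat.Primes, χ p * ((p : ℕ) : ℂ) ^ (-s)) - zcG χ s‖ ≤ B := by
    unfold zcG
    rw [← hsum1.tsum_sub hsum2]
    refine tsum_of_norm_bounded hS.hasSum fun p => ?_
    set w : ℂ := χ p * ((p : ℕ) : ℂ) ^ (-s) with hw
    have h1 : ‖w‖ ≤ ((p : ℕ) : ℝ) ^ (-s.re) := zc_norm_le χ p s
    have h2 := zc_rpow_half p hs1.le
    have h3 : ‖w‖ ≤ 1 / 2 := by linarith
    have h4 := Complex.norm_log_one_add_sub_self_le (z := -w) (by rw [norm_neg]; linarith)
    have e : w - -Complex.log (1 - w) = Complex.log (1 + -w) - -w := by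
      rw [← sub_eq_add_neg]
      ring
    rw [e]
    refine h4.trans ?_
    rw [norm_neg]
    have h5 : (1 - ‖w‖)⁻¹ ≤ 2 := by
      rw [inv_le_comm₀ (by linarith) (by norm_num)]
      linarith
    have h6 : ‖w‖ ^ 2 ≤ ((p : ℕ) : ℝ) ^ (-(2 : ℝ)) := by
      have h7 : ‖w‖ ≤ ((p : ℕ) : ℝ) ^ (-(1 : ℝ)) := h1.trans (zc_rpow_mono p hs1.le)
      calc ‖w‖ ^ 2 ≤ (((p : ℕ) : ℝ) ^ (-(1 : ℝ))) ^ 2 := by gcongr
        _ = ((p : ℕ) : ℝ) ^ (-(2 : ℝ)) := by
            rw [← Real.rpow_natCast, ← Real.rpow_mul (by positivity)]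
            norm_num
    calc ‖w‖ ^ 2 * (1 - ‖w‖)⁻¹ / 2 ≤ ‖w‖ ^ 2 * 2 / 2 := by gcongr
      _ = ‖w‖ ^ 2 := by ring
      _ ≤ _ := h6
  have e1 : (∑' p : Nat.Primes, ((p : ℕ) : ℂ) ^ (-s)) = ∑' p : Nat.Primes, χ p * ((p : ℕ) : ℂ) ^ (-s) := by
    apply tsum_congr
    intro p
    rw [hχ1, one_mul]
  have e2 : (α : ℂ) + u * Complex.I = s - 1 := by
    rw [hs]
    ring
  rw [e1, e2]
  have e3 : (∑' p : Nat.Primes, χ p * ((p : ℕ) : ℂ) ^ (-s)) + Complex.log (s - 1)
      = ((∑' p : Nat.Primes, χ p * ((p : ℕ) : ℂ) ^ (-s)) - zcG χ s) + zzH s := by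
    unfold zzH
    ring
  rw [e3]
  have h8 := norm_add_le ((∑' p : Nat.Primes, χ p * ((p : ℕ) : ℂ) ^ (-s)) - zcG χ s) (zzH s)
  linarith

end Pool.Agent.MR
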