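import Pool.Agent.MR.ACore

set_option autoImplicit false

open Finset MeasureTheory

namespace Pool.Agent.MR

namespace Short

/-- Gaussian -/
noncomputable def gs (b s : ℝ) : ℝ := Real.exp (-b * s ^ 2)

/-- Gaussian distribution function -/
noncomputable def phi (b x : ℝ) : ℝ := (∫ s in Set.Iic x, gs b s) / √(Real.pi / b)

theorem gs_pos (b s : ℝ) : 0 < gs b s := Real.exp_pos _

theorem gs_int (b : ℝ) (hb : 0 < b) : Integrable (gs b) := integrable_exp_neg_mul_sq hb

theorem gs_cont (b : ℝ) : Continuous (gs b) := by unfold gs; fun_prop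

theorem Z_pos (b : ℝ) (hb : 0 < b) : 0 < √(Real.pi / b) :=
  Real.sqrt_pos.mpr (div_pos Real.pi_pos hb)

theorem gs_total (b : ℝ) : ∫ s, gs b s = √(Real.pi / b) := integral_gaussian b

theorem gs_shift (b x : ℝ) : ∫ s, gs b (s - x) = √(Real.pi / b) := by
  rw [integral_sub_right_eq_self (fun s => gs b s) x]
  exact gs_total b

theorem tail (b : ℝ) (hb : 0 < b) (x : ℝ) (S : Set ℝ) (hS : MeasurableSet S)
    (h : ∀ s ∈ S, 0 ≤ x * (s - x)) :
    ∫ s in S, gs b s ≤ gs b x * √(Real.pi / b) := by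
  have hi : Integrable (fun s => gs b x * gs b (s - x)) :=
    ((gs_int b hb).comp_sub_right x).const_mul _
  have h1 : ∫ s in S, gs b s ≤ ∫ s in S, gs b x * gs b (s - x) := by
    apply setIntegral_mono_on (gs_int b hb).integrableOn hi.integrableOn hS
    intro s hs
    unfold gs
    rw [← Real.exp_add]
    apply Real.exp_le_exp.mpr
    have := h s hs
    nlinarith [mul_nonneg hb.le this]
  refine h1.trans ?_
  have h2 : ∫ s in S, gs b x * gs b (s - x) ≤ ∫ s, gs b x * gs b (s - x) := by
    apply setIntegral_le_integral hi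
    filter_upwards with s
    exact mul_nonneg (gs_pos _ _).le (gs_pos _ _).le
  refine h2.trans ?_
  rw [integral_const_mul, gs_shift]

theorem phi_err (b : ℝ) (hb : 0 < b) (x : ℝ) :
    |(if 0 ≤ x then (1 : ℝ) else 0) - phi b x| ≤ gs b x := by
  have hZ := Z_pos b hb
  have hsplit : (∫ s in Set.Iic x, gs b s) + ∫ s in Set.Ioi x, gs b s = √(Real.pi / b) := by
    rw [← gs_total b, ← integral_add_compl measurableSet_Iic (gs_int b hb), Set.compl_Iic]
  have hI1 : 0 ≤ ∫ s in Set.Iic x, gs b s := integral_nonneg (fun s => (gs_pos b s).le)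
  have hI2 : 0 ≤ ∫ s in Set.Ioi x, gs b s := integral_nonneg (fun s => (gs_pos b s).le)
  split_ifs with hx
  · have h1 := tail b hb x (Set.Ioi x) measurableSet_Ioi
      (fun s hs => mul_nonneg hx (sub_nonneg.mpr (le_of_lt hs)))
    have h2 : 1 - phi b x = (∫ s in Set.Ioi x, gs b s) / √(Real.pi / b) := by
      unfold phi
      rw [eq_div_iff hZ.ne', sub_mul, one_mul, div_mul_cancel₀ _ hZ.ne']
      linarith
    rw [h2, abs_of_nonneg (div_nonneg hI2 hZ.le), div_le_iff₀ hZ]
    exact h1
  · have h1 := tail b hb x (Set.Iic x) measurableSet_Iic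
      (fun s hs => mul_nonneg_of_nonpos_of_nonpos (not_le.mp hx).le (sub_nonpos.mpr hs))
    rw [zero_sub, abs_neg]
    unfold phi
    rw [abs_of_nonneg (div_nonneg hI1 hZ.le), div_le_iff₀ hZ]
    exact h1

theorem phi_sub (b : ℝ) (hb : 0 < b) (A B c : ℝ) :
    phi b (B - c) - phi b (A - c) = (1 / √(Real.pi / b)) * ∫ u in A..B, gs b (u - c) := by
  unfold phi
  rw [← sub_div, intervalIntegral.integral_Iic_sub_Iic (gs_int b hb).integrableOn
    (gs_int b hb).integrableOn, intervalIntegral.integral_comp_sub_right (fun s => gs b s) c]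
  ring

/-- Cauchy-Schwarz on an interval -/
theorem cs (g : ℝ → ℝ) (hg : Continuous g) (A B : ℝ) (hAB : A ≤ B) :
    (∫ u in A..B, g u) ^ 2 ≤ (B - A) * ∫ u in A..B, (g u) ^ 2 := by
  rcases hAB.eq_or_lt with h | h
  · subst h
    simp
  · have hL : 0 < B - A := by linarith
    set I := ∫ u in A..B, g u with hI
    have h1 : 0 ≤ ∫ u in A..B, (g u - I / (B - A)) ^ 2 :=
      intervalIntegral.integral_nonneg hAB (fun u _ => sq_nonneg _)
    have h2 : ∫ u in A..B, (g u - I / (B - A)) ^ 2 =
        (∫ u in A..B, (g u) ^ 2) - 2 * (I / (B - A)) * I + (I / (B - A)) ^ 2 * (B - A) := by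
      have e : ∀ u, (g u - I / (B - A)) ^ 2 =
          ((g u) ^ 2 - 2 * (I / (B - A)) * g u) + (I / (B - A)) ^ 2 := fun u => by ring
      simp_rw [e]
      rw [intervalIntegral.integral_add, intervalIntegral.integral_sub,
        intervalIntegral.integral_const_mul, intervalIntegral.integral_const, smul_eq_mul]
      · ring
      · exact (hg.pow 2).intervalIntegrable _ _
      · exact (hg.const_mul _).intervalIntegrable _ _
      · exact ((hg.pow 2).sub (hg.const_mul _)).intervalIntegrable _ _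
      · exact continuous_const.intervalIntegrable _ _
    rw [h2] at h1
    have h3 : 2 * (I / (B - A)) * I - (I / (B - A)) ^ 2 * (B - A) = I ^ 2 / (B - A) := by
      field_simp
      ring
    have h4 : I ^ 2 / (B - A) ≤ ∫ u in A..B, (g u) ^ 2 := by linarith
    rw [div_le_iff₀ hL] at h4
    linarith

/-- geometric sum -/
theorem geo (k : ℕ) (x : ℝ) (hx : 0 < x) : ∑ i ∈ range k, Real.exp (-(i : ℝ) / x) ≤ 1 + x := by
  have hr : Real.exp (-1 / x) < 1 := by
    rw [Real.exp_lt_one_iff]
    exact div_neg_of_neg_of_pos (by norm_num) hx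
  have hr0 := Real.exp_pos (-1 / x)
  have h1 : ∀ i ∈ range k, Real.exp (-(i : ℝ) / x) = (Real.exp (-1 / x)) ^ i := by
    intro i _
    rw [← Real.exp_nat_mul]
    congr 1
    ring
  rw [Finset.sum_congr rfl h1, geom_sum_eq hr.ne]
  have h2 : ((Real.exp (-1 / x)) ^ k - 1) / (Real.exp (-1 / x) - 1) =
      (1 - (Real.exp (-1 / x)) ^ k) / (1 - Real.exp (-1 / x)) := by
    rw [← neg_div_neg_eq, neg_sub, neg_sub]
  rw [h2, div_le_iff₀ (by linarith)]
  have h3 : 0 ≤ (Real.exp (-1 / x)) ^ k := by positivity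
  have h4 : Real.exp (-1 / x) ≤ 1 / (1 + 1 / x) := by
    rw [show (-1 : ℝ) / x = -(1 / x) by ring, Real.exp_neg, ← one_div]
    apply one_div_le_one_div_of_le (by positivity)
    linarith [Real.add_one_le_exp (1 / x)]
  have h5 : 1 / (1 + 1 / x) = x / (1 + x) := by
    field_simp
    ring
  have h6 : x / (1 + x) ≤ 1 - 1 / (1 + x) := by
    have : x / (1 + x) + 1 / (1 + x) = 1 := by
      rw [← add_div, add_comm x 1, div_self (by linarith)]
    linarith
  have h7 : 1 / (1 + x) ≤ 1 - Real.exp (-1 / x) := by linarith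
  have h8 : 1 ≤ (1 + x) * (1 - Real.exp (-1 / x)) := by
    rw [div_le_iff₀ (by linarith)] at h7
    linarith
  linarith

/-- Sum of Gaussians over integers -/
theorem sum_gs (s : Finset ℕ) (H z : ℝ) (hH : 1 ≤ H) (hz : 0 ≤ z) :
    ∑ n ∈ s, Real.exp (-(z - n) ^ 2 / (18 * H ^ 2)) ≤ 14 * H := by
  have hH0 : 0 < H := by linarith
  -- linearisation
  have hlin : ∀ r x : ℝ, 0 ≤ r → r ≤ |x| → Real.exp (-x ^ 2 / (18 * H ^ 2)) ≤
      Real.exp (1 / 2) * Real.exp (-r / (3 * H)) := by
    intro r x hr hrx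
    rw [← Real.exp_add]
    apply Real.exp_le_exp.mpr
    have h1 : r ^ 2 ≤ x ^ 2 := by
      rw [← sq_abs x]
      exact pow_le_pow_left₀ hr hrx 2
    have h2 : -x ^ 2 / (18 * H ^ 2) ≤ -r ^ 2 / (18 * H ^ 2) := by
      apply div_le_div_of_nonneg_right _ (by positivity)
      linarith
    refine h2.trans ?_
    have h3 : 1 / 2 + -r / (3 * H) - -r ^ 2 / (18 * H ^ 2) = (r / (3 * H) - 1) ^ 2 / 2 := by
      field_simp
      ring
    have h4 : 0 ≤ (r / (3 * H) - 1) ^ 2 / 2 := by positivity
    linarith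
  have he : Real.exp (1 / 2 : ℝ) ≤ 1.75 := by
    have h1 : Real.exp (1 / 2 : ℝ) ^ 2 = Real.exp 1 := by
      rw [← Real.exp_nat_mul]
      norm_num
    have h2 := Real.exp_one_lt_d9
    have h3 := Real.exp_pos (1 / 2 : ℝ)
    by_contra hcon
    push Not at hcon
    nlinarith
  set F := ⌊z⌋₊ with hF
  have hF1 : (F : ℝ) ≤ z := Nat.floor_le hz
  have hF2 : z < F + 1 := Nat.lt_floor_add_one z
  set k := s.sup id + F + 2 with hk
  have hle : ∀ n ∈ s, n ≤ s.sup id := fun n hn => Finset.le_sup (f := id) hn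
  rw [← Finset.sum_filter_add_sum_filter_not s (fun n => n ≤ F)]
  have hlow : ∑ n ∈ s.filter (fun n => n ≤ F), Real.exp (-(z - n) ^ 2 / (18 * H ^ 2)) ≤
      Real.exp (1 / 2) * (1 + 3 * H) := by
    have h1 : ∀ n ∈ s.filter (fun n => n ≤ F), Real.exp (-(z - n) ^ 2 / (18 * H ^ 2)) ≤
        Real.exp (1 / 2) * Real.exp (-((F - n : ℕ) : ℝ) / (3 * H)) := by
      intro n hn
      have hnF := (mem_filter.mp hn).2
      have hnF' : (n : ℝ) ≤ F := by exact_mod_cast hnF
      apply hlin _ _ (Nat.cast_nonneg _)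
      rw [Nat.cast_sub hnF, abs_of_nonneg (by linarith)]
      linarith
    refine (Finset.sum_le_sum h1).trans ?_
    rw [← Finset.mul_sum]
    apply mul_le_mul_of_nonneg_left _ (Real.exp_pos _).le
    have hinj : Set.InjOn (fun n => F - n) (s.filter (fun n => n ≤ F) : Set ℕ) := by
      intro a ha b hb hab
      have h1 := (mem_filter.mp (Finset.mem_coe.mp ha)).2
      have h2 := (mem_filter.mp (Finset.mem_coe.mp hb)).2
      simp only at hab
      omega
    rw [← Finset.sum_image (f := fun i : ℕ => Real.exp (-(i : ℝ) / (3 * H))) hinj]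
    refine le_trans (Finset.sum_le_sum_of_subset_of_nonneg (t := range k) ?_ ?_)
      (geo k (3 * H) (by positivity))
    · intro i hi
      rw [mem_image] at hi
      obtain ⟨n, hn, rfl⟩ := hi
      rw [mem_range]
      omega
    · intro i _ _
      exact (Real.exp_pos _).le
  have hhigh : ∑ n ∈ s.filter (fun n => ¬ n ≤ F), Real.exp (-(z - n) ^ 2 / (18 * H ^ 2)) ≤
      Real.exp (1 / 2) * (1 + 3 * H) := by
    have h1 : ∀ n ∈ s.filter (fun n => ¬ n ≤ F), Real.exp (-(z - n) ^ 2 / (18 * H ^ 2)) ≤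
        Real.exp (1 / 2) * Real.exp (-((n - (F + 1) : ℕ) : ℝ) / (3 * H)) := by
      intro n hn
      have hnF := (mem_filter.mp hn).2
      have hnF2 : F + 1 ≤ n := by omega
      have hnF' : (F : ℝ) + 1 ≤ n := by exact_mod_cast hnF2
      apply hlin _ _ (Nat.cast_nonneg _)
      rw [Nat.cast_sub hnF2, abs_of_nonpos (by linarith)]
      push_cast
      linarith
    refine (Finset.sum_le_sum h1).trans ?_
    rw [← Finset.mul_sum]
    apply mul_le_mul_of_nonneg_left _ (Real.exp_pos _).le
    have hinj : Set.InjOn (fun n => n - (F + 1)) (s.filter (fun n => ¬ n ≤ F) : Set ℕ) := by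
      intro a ha b hb hab
      have h1 := (mem_filter.mp (Finset.mem_coe.mp ha)).2
      have h2 := (mem_filter.mp (Finset.mem_coe.mp hb)).2
      simp only at hab
      omega
    rw [← Finset.sum_image (f := fun i : ℕ => Real.exp (-(i : ℝ) / (3 * H))) hinj]
    refine le_trans (Finset.sum_le_sum_of_subset_of_nonneg (t := range k) ?_ ?_)
      (geo k (3 * H) (by positivity))
    · intro i hi
      rw [mem_image] at hi
      obtain ⟨n, hn, rfl⟩ := hi
      rw [mem_range]
      have := hle n (mem_filter.mp hn).1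
      omega
    · intro i _ _
      exact (Real.exp_pos _).le
  nlinarith

/-- lower bound for the logarithmic distance -/
theorem log_dist (N z : ℝ) (n : ℕ) (hN : 0 < N) (hz0 : 0 < z) (hz : z ≤ 3 * N) (hn0 : 0 < n)
    (hn : (n : ℝ) ≤ 3 * N) : (z - n) ^ 2 / (9 * N ^ 2) ≤ (Real.log z - Real.log n) ^ 2 := by
  have hn0' : (0 : ℝ) < n := by exact_mod_cast hn0
  have key : |z - n| / (3 * N) ≤ |Real.log z - Real.log n| := by
    rw [← Real.log_div hz0.ne' hn0'.ne']
    rcases le_total (n : ℝ) z with h | h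
    · rw [abs_of_nonneg (by linarith)]
      have h1 := Real.one_sub_inv_le_log_of_pos (div_pos hz0 hn0')
      have h2 : 1 - (z / n)⁻¹ = (z - n) / z := by
        field_simp
      rw [h2] at h1
      have h3 : (z - n) / (3 * N) ≤ (z - n) / z :=
        div_le_div_of_nonneg_left (by linarith) hz0 hz
      exact (h3.trans h1).trans (le_abs_self _)
    · rw [abs_of_nonpos (by linarith)]
      have h1 := Real.one_sub_inv_le_log_of_pos (div_pos hn0' hz0)
      have h2 : 1 - ((n : ℝ) / z)⁻¹ = (n - z) / n := by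
        field_simp
      rw [h2] at h1
      have h3 : (n - z) / (3 * N) ≤ (n - z) / n :=
        div_le_div_of_nonneg_left (by linarith) hn0' hn
      have h4 : Real.log ((n : ℝ) / z) = -Real.log (z / n) := by
        rw [← Real.log_inv, inv_div]
      rw [h4] at h1
      have h5 := (h3.trans h1).trans (neg_le_abs _)
      rwa [show (n : ℝ) - z = -(z - n) by ring] at h5
  have h1 := pow_le_pow_left₀ (by positivity) key 2
  rw [sq_abs, div_pow, sq_abs] at h1
  have h2 : (3 * N) ^ 2 = 9 * N ^ 2 := by ring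
  rwa [h2] at h1

/-- step function -/
noncomputable def st (z : ℝ) (n : ℕ) : ℝ := if (n : ℝ) ≤ z then 1 else 0

theorem st_err (b z : ℝ) (hb : 0 < b) (hz : 0 < z) (n : ℕ) (hn : 0 < n) :
    |st z n - phi b (Real.log z - Real.log n)| ≤ gs b (Real.log z - Real.log n) := by
  have hn' : (0 : ℝ) < n := by exact_mod_cast hn
  have h := phi_err b hb (Real.log z - Real.log n)
  have e : (if 0 ≤ Real.log z - Real.log n then (1 : ℝ) else 0) = st z n := by
    unfold st
    apply if_congr _ rfl rfl
    rw [sub_nonneg]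
    exact Real.log_le_log_iff hn' hz
  rwa [e] at h

/-- the smoothed sum -/
noncomputable def GG (f : ℕ → ℂ) (N b u : ℝ) : ℂ :=
  ∑ n ∈ blk N, f n * (gs b (u - Real.log n) : ℂ)

theorem GG_cont (f : ℕ → ℂ) (N b : ℝ) : Continuous (GG f N b) := by
  unfold GG
  refine continuous_finsetSum _ (fun n _ => ?_)
  exact continuous_const.mul (Complex.continuous_ofReal.comp
    ((gs_cont b).comp (continuous_id.sub continuous_const)))

/-- short sums as sums over the block -/
theorem short_eq (f : ℕ → ℂ) (N h y : ℝ) (hN : 1 ≤ N) (hh : 1 ≤ h) (hhN : h ≤ N) (hy1 : N ≤ y)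
    (hy2 : y ≤ 2 * N) : ∑ n ∈ Ioc ⌊y⌋₊ ⌊y + h⌋₊, f n =
      ∑ n ∈ blk N, f n * ((st (y + h) n - st y n : ℝ) : ℂ) := by
  have hsub : Ioc ⌊y⌋₊ ⌊y + h⌋₊ ⊆ blk N := by
    rw [blk]
    apply Finset.Ioc_subset_Ioc (Nat.floor_le_floor hy1) (Nat.floor_le_floor (by linarith))
  rw [← Finset.sum_subset hsub (f := fun n => f n * ((st (y + h) n - st y n : ℝ) : ℂ))]
  · refine Finset.sum_congr rfl (fun n hn => ?_)
    rw [mem_Ioc] at hn
    have h1 : (n : ℝ) ≤ y + h := (Nat.le_floor_iff (by linarith)).mp hn.2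
    have h2 : ¬ (n : ℝ) ≤ y := by
      rw [not_le]
      exact (Nat.floor_lt (by linarith)).mp hn.1
    unfold st
    rw [if_pos h1, if_neg h2]
    simp
  · intro n _ hn
    rw [mem_Ioc, not_and_or, not_lt, not_le] at hn
    unfold st
    rcases hn with h1 | h1
    · have h2 : (n : ℝ) ≤ y := (Nat.le_floor_iff (by linarith)).mp h1
      rw [if_pos h2, if_pos (by linarith)]
      simp
    · have h2 : y + h < (n : ℝ) := (Nat.floor_lt (by linarith)).mp h1
      rw [if_neg (by linarith), if_neg (by linarith)]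
      simp

/-- main term of the short sum -/
theorem main_eq (f : ℕ → ℂ) (N b A B : ℝ) (hb : 0 < b) :
    ∑ n ∈ blk N, f n * ((phi b (B - Real.log n) - phi b (A - Real.log n) : ℝ) : ℂ) =
      ((1 / √(Real.pi / b) : ℝ) : ℂ) * ∫ u in A..B, GG f N b u := by
  unfold GG
  rw [intervalIntegral.integral_finsetSum]
  · rw [Finset.mul_sum]
    refine Finset.sum_congr rfl (fun n _ => ?_)
    rw [phi_sub b hb, intervalIntegral.integral_const_mul, intervalIntegral.integral_ofReal]
    push_cast
    ring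
  · intro n _
    apply Continuous.intervalIntegrable
    exact continuous_const.mul (Complex.continuous_ofReal.comp
      ((gs_cont b).comp (continuous_id.sub continuous_const)))

/-- error term of the short sum -/
theorem err_bound (N h H z : ℝ) (b : ℝ) (hb : b = 1 / (2 * (H / N) ^ 2)) (hN : 1 ≤ N) (hH : 1 ≤ H)
    (hz1 : N ≤ z) (hz2 : z ≤ 3 * N) :
    ∑ n ∈ blk N, gs b (Real.log z - Real.log n) ≤ 14 * H := by
  refine le_trans (Finset.sum_le_sum (fun n hn => ?_)) (sum_gs (blk N) H z hH (by linarith))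
  obtain ⟨hn1, hn2⟩ := Loc.blk_mem N (by linarith) n hn
  have h1 := log_dist N z n (by linarith) (by linarith) hz2 hn1 hn2
  unfold gs
  apply Real.exp_le_exp.mpr
  have hb0 : 0 < b := by rw [hb]; positivity
  have h2 := mul_le_mul_of_nonneg_left h1 hb0.le
  have h3 : b * ((z - n) ^ 2 / (9 * N ^ 2)) = (z - n) ^ 2 / (18 * H ^ 2) := by
    rw [hb]
    field_simp
    ring
  rw [h3] at h2
  rw [neg_mul, neg_div]
  linarith

/-- pointwise bound of the short sum -/
theorem pointwise (f : ℕ → ℂ) (hf : CM f) (N h H y b : ℝ) (hb : b = 1 / (2 * (H / N) ^ 2))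
    (hN : 1 ≤ N) (hH : 1 ≤ H) (hh : 1 ≤ h) (hhN : h ≤ N) (hy1 : N ≤ y) (hy2 : y ≤ 2 * N) :
    ‖∑ n ∈ Ioc ⌊y⌋₊ ⌊y + h⌋₊, f n‖ ^ 2 ≤
      2 * ((1 / √(Real.pi / b)) ^ 2 * (h / N) *
        ∫ u in Real.log y..Real.log (y + h), ‖GG f N b u‖ ^ 2) + 2 * (28 * H) ^ 2 := by
  have hb0 : 0 < b := by rw [hb]; positivity
  have hy0 : 0 < y := by linarith
  set A := Real.log y with hA
  set B := Real.log (y + h) with hB
  have hAB : A ≤ B := Real.log_le_log hy0 (by linarith)
  have hBA : B - A ≤ h / N := by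
    rw [hA, hB, ← Real.log_div (by linarith) hy0.ne']
    have h1 := Real.log_le_sub_one_of_pos (show 0 < (y + h) / y by positivity)
    have h2 : (y + h) / y - 1 = h / y := by field_simp; ring
    have h3 : h / y ≤ h / N := div_le_div_of_nonneg_left (by linarith) (by linarith) hy1
    linarith
  set M : ℂ := ((1 / √(Real.pi / b) : ℝ) : ℂ) * ∫ u in A..B, GG f N b u with hM
  have hM2 : ‖M‖ ^ 2 ≤ (1 / √(Real.pi / b)) ^ 2 * (h / N) * ∫ u in A..B, ‖GG f N b u‖ ^ 2 := by
    have h1 : ‖∫ u in A..B, GG f N b u‖ ≤ ∫ u in A..B, ‖GG f N b u‖ :=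
      intervalIntegral.norm_integral_le_integral_norm hAB
    have h2 := cs (fun u => ‖GG f N b u‖) (GG_cont f N b).norm A B hAB
    have h3 : 0 ≤ ∫ u in A..B, ‖GG f N b u‖ ^ 2 :=
      intervalIntegral.integral_nonneg hAB (fun u _ => by positivity)
    rw [hM, norm_mul, mul_pow, Complex.norm_real, Real.norm_eq_abs, sq_abs, mul_assoc]
    apply mul_le_mul_of_nonneg_left _ (by positivity)
    calc ‖∫ u in A..B, GG f N b u‖ ^ 2 ≤ (∫ u in A..B, ‖GG f N b u‖) ^ 2 :=
          pow_le_pow_left₀ (norm_nonneg _) h1 2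
      _ ≤ (B - A) * ∫ u in A..B, ‖GG f N b u‖ ^ 2 := h2
      _ ≤ h / N * ∫ u in A..B, ‖GG f N b u‖ ^ 2 := mul_le_mul_of_nonneg_right hBA h3
  rw [short_eq f N h y hN hh hhN hy1 hy2]
  have hdiff : ∑ n ∈ blk N, f n * ((st (y + h) n - st y n : ℝ) : ℂ) = M +
      ∑ n ∈ blk N, f n * (((st (y + h) n - phi b (B - Real.log n)) -
        (st y n - phi b (A - Real.log n)) : ℝ) : ℂ) := by
    rw [hM, ← main_eq f N b A B hb0, ← Finset.sum_add_distrib]
    refine Finset.sum_congr rfl (fun n _ => ?_)
    push_cast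
    ring
  set E : ℂ := ∑ n ∈ blk N, f n * (((st (y + h) n - phi b (B - Real.log n)) -
        (st y n - phi b (A - Real.log n)) : ℝ) : ℂ) with hE
  have hE1 : ‖E‖ ≤ 28 * H := by
    have h1 : ‖E‖ ≤ ∑ n ∈ blk N, (gs b (B - Real.log n) + gs b (A - Real.log n)) := by
      rw [hE]
      refine (norm_sum_le _ _).trans (Finset.sum_le_sum (fun n hn => ?_))
      obtain ⟨hn1, hn2⟩ := Loc.blk_mem N (by linarith) n hn
      rw [norm_mul, Complex.norm_real, Real.norm_eq_abs]
      have e1 := st_err b (y + h) hb0 (by linarith) n hn1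
      have e2 := st_err b y hb0 hy0 n hn1
      have e3 := abs_sub (st (y + h) n - phi b (B - Real.log n)) (st y n - phi b (A - Real.log n))
      calc ‖f n‖ * |(st (y + h) n - phi b (B - Real.log n)) - (st y n - phi b (A - Real.log n))|
          ≤ 1 * |(st (y + h) n - phi b (B - Real.log n)) - (st y n - phi b (A - Real.log n))| :=
            mul_le_mul_of_nonneg_right (hf.norm_le n) (abs_nonneg _)
        _ ≤ _ := by
            rw [one_mul]
            exact e3.trans (add_le_add e1 e2)
    refine h1.trans ?_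
    rw [Finset.sum_add_distrib]
    have h2 := err_bound N h H (y + h) b hb hN hH (by linarith) (by linarith)
    have h3 := err_bound N h H y b hb hN hH hy1 (by linarith)
    linarith
  rw [hdiff]
  have h1 := norm_add_le M E
  have h2 : ‖M + E‖ ^ 2 ≤ 2 * ‖M‖ ^ 2 + 2 * ‖E‖ ^ 2 := by
    have h3 := norm_nonneg (M + E)
    nlinarith [sq_nonneg (‖M‖ - ‖E‖), norm_nonneg M, norm_nonneg E]
  have h3 : ‖E‖ ^ 2 ≤ (28 * H) ^ 2 := pow_le_pow_left₀ (norm_nonneg _) hE1 2
  linarith

/-- the Fubini step -/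
theorem fubini (g : ℝ → ℝ) (hg : Integrable g) (hg0 : ∀ u, 0 ≤ g u) (N h : ℝ) (hN : 0 < N)
    (hh : 0 < h) :
    IntegrableOn (fun y => ∫ u in Real.log y..Real.log (y + h), g u) (Set.Icc N (2 * N)) ∧
    ∫ y in Set.Icc N (2 * N), ∫ u in Real.log y..Real.log (y + h), g u ≤ h * ∫ u, g u := by
  set S : Set (ℝ × ℝ) := {p | Real.log p.1 < p.2 ∧ p.2 ≤ Real.log (p.1 + h)} with hS
  have hSm : MeasurableSet S := by
    apply MeasurableSet.inter
    · exact measurableSet_lt (Real.measurable_log.comp measurable_fst) measurable_snd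
    · exact measurableSet_le measurable_snd
        (Real.measurable_log.comp (measurable_fst.add measurable_const))
  set μ := (volume : Measure ℝ).restrict (Set.Icc N (2 * N)) with hμ
  have hK : Integrable (fun p : ℝ × ℝ => S.indicator (fun p => g p.2) p) (μ.prod volume) :=
    (hg.comp_snd μ).indicator hSm
  have hy : ∀ y ∈ Set.Icc N (2 * N), ∫ u in Real.log y..Real.log (y + h), g u =
      ∫ u, S.indicator (fun p => g p.2) (y, u) := by
    intro y hy
    have hy0 : 0 < y := lt_of_lt_of_le hN hy.1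
    rw [intervalIntegral.integral_of_le (Real.log_le_log hy0 (by linarith)),
      ← integral_indicator measurableSet_Ioc]
    congr 1
  constructor
  · have h1 := hK.integral_prod_left
    refine (integrableOn_congr_fun (fun y hyy => hy y hyy) measurableSet_Icc).mpr ?_
    exact h1
  · rw [setIntegral_congr_fun measurableSet_Icc hy]
    have hsw : ∫ y, ∫ u, S.indicator (fun p => g p.2) (y, u) ∂volume ∂μ =
        ∫ u, ∫ y, S.indicator (fun p => g p.2) (y, u) ∂μ ∂volume :=
      integral_integral_swap (f := fun y u => S.indicator (fun p => g p.2) (y, u)) hK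
    rw [hsw, ← integral_const_mul]
    apply integral_mono_of_nonneg
    · filter_upwards with u
      apply integral_nonneg
      intro y
      exact Set.indicator_nonneg (fun _ _ => hg0 _) _
    · exact hg.const_mul h
    · filter_upwards with u
      have hI : Integrable ((Set.Ico (Real.exp u - h) (Real.exp u)).indicator (fun _ => g u)) := by
        rw [integrable_indicator_iff measurableSet_Ico]
        exact integrableOn_const (by rw [Real.volume_Ico]; exact ENNReal.ofReal_ne_top)
      have h1 : ∫ y, S.indicator (fun p => g p.2) (y, u) ∂μ ≤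
          ∫ y, (Set.Ico (Real.exp u - h) (Real.exp u)).indicator (fun _ => g u) y ∂μ := by
        apply integral_mono_of_nonneg
        · filter_upwards with y
          exact Set.indicator_nonneg (fun _ _ => hg0 _) _
        · exact hI.restrict
        · rw [hμ]
          refine (ae_restrict_iff' measurableSet_Icc).mpr ?_
          filter_upwards with y hyy
          have hy0 : 0 < y := lt_of_lt_of_le hN hyy.1
          by_cases hmem : (y, u) ∈ S
          · have h3 : y ∈ Set.Ico (Real.exp u - h) (Real.exp u) := by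
              obtain ⟨h4, h5⟩ := hmem
              constructor
              · have h6 := Real.exp_le_exp.mpr h5
                rw [Real.exp_log (by simp only; linarith)] at h6
                simp only at h6
                linarith
              · have h6 := Real.exp_lt_exp.mpr h4
                rw [Real.exp_log hy0] at h6
                exact h6
            rw [Set.indicator_of_mem hmem, Set.indicator_of_mem h3]
          · rw [Set.indicator_of_notMem hmem]
            exact Set.indicator_nonneg (fun _ _ => hg0 u) _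
      refine h1.trans ?_
      have h2 : ∫ y, (Set.Ico (Real.exp u - h) (Real.exp u)).indicator (fun _ => g u) y ∂μ ≤
          ∫ y, (Set.Ico (Real.exp u - h) (Real.exp u)).indicator (fun _ => g u) y := by
        apply setIntegral_le_integral hI
        filter_upwards with y
        exact Set.indicator_nonneg (fun _ _ => hg0 u) _
      refine h2.trans (le_of_eq ?_)
      rw [integral_indicator measurableSet_Ico, setIntegral_const, Measure.real,
        Real.volume_Ico, smul_eq_mul]
      rw [show Real.exp u - (Real.exp u - h) = h by ring, ENNReal.toReal_ofReal hh.le]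

end Short

open Short

/-- Matomaki-Radziwill at fixed `h`: mean square of short sums. -/
theorem mr_short (f : ℕ → ℂ) (hf : CM f) (hpw : PW f) (η : ℝ) (hη : 0 < η) :
    ∃ h0 : ℝ, 1 ≤ h0 ∧ ∀ h : ℝ, h0 ≤ h → ∃ N0 : ℝ, 1 ≤ N0 ∧ ∀ N : ℝ, N0 ≤ N →
      ∫ y in Set.Icc N (2 * N), ‖∑ n ∈ Ioc ⌊y⌋₊ ⌊y + h⌋₊, f n‖ ^ 2 ≤ η * h ^ 2 * N := by
  obtain ⟨h1, hh1, hcore⟩ := mr_core f hf hpw (η / 2) (by linarith)
  set δ : ℝ := min 1 (η / 3200) with hδ
  have hδ0 : 0 < δ := by positivity
  have hδ1 : δ ≤ 1 := min_le_left _ _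
  have hδ2 : δ ≤ η / 3200 := min_le_right _ _
  refine ⟨h1 / δ, ?_, fun h hh => ?_⟩
  · rw [le_div_iff₀ hδ0]
    linarith
  have hH1 : h1 ≤ δ * h := by
    rw [div_le_iff₀ hδ0] at hh
    linarith
  have hhH : δ * h ≤ h := by
    have : 0 < h := by
      by_contra hcon
      push Not at hcon
      nlinarith
    nlinarith
  obtain ⟨N1, hN1, hN⟩ := hcore (δ * h) hH1
  refine ⟨max N1 h, le_trans hN1 (le_max_left _ _), fun N hNN => ?_⟩
  have hN1' : N1 ≤ N := le_trans (le_max_left _ _) hNN
  have hhN : h ≤ N := le_trans (le_max_right _ _) hNN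
  have hN' := hN N hN1'
  set H := δ * h with hHdef
  have hH : 1 ≤ H := hh1.trans hH1
  have hh0 : 1 ≤ h := hH.trans hhH
  have hN0 : 1 ≤ N := hN1.trans hN1'
  set b : ℝ := 1 / (2 * (H / N) ^ 2) with hb
  have hθ : 0 < H / N := by positivity
  have hb0 : 0 < b := by positivity
  set g : ℝ → ℝ := fun u => ‖GG f N b u‖ ^ 2 with hg
  have hGeq : ∀ u, GG f N b u = ∑ n ∈ blk N, f n *
      (Real.exp (-(u - Real.log n) ^ 2 / (2 * (H / N) ^ 2)) : ℂ) := by
    intro u
    unfold GG gs
    refine Finset.sum_congr rfl (fun n _ => ?_)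
    congr 3
    rw [hb]
    ring
  have hgint : Integrable g := by
    have := integrable_gauss (blk N) f (H / N) hθ
    simp only [hg]
    simp_rw [hGeq]
    exact this
  have hgtot : ∫ u, g u ≤ (H / N) ^ 2 * (η / 2 * N ^ 2) := by
    have h2 := gauss_parseval (blk N) (fun n hn => (Loc.blk_mem N (by linarith) n hn).1) f
      (H / N) hθ
    simp only [hg]
    simp_rw [hGeq]
    rw [h2, one_div_div]
    exact mul_le_mul_of_nonneg_left hN' (by positivity)
  obtain ⟨hfi, hfb⟩ := fubini g hgint (fun u => by simp only [hg]; positivity) N h (by linarith)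
    (by linarith)
  have hmono : ∫ y in Set.Icc N (2 * N), ‖∑ n ∈ Ioc ⌊y⌋₊ ⌊y + h⌋₊, f n‖ ^ 2 ≤
      ∫ y in Set.Icc N (2 * N), (2 * ((1 / √(Real.pi / b)) ^ 2 * (h / N) *
        ∫ u in Real.log y..Real.log (y + h), g u) + 2 * (28 * H) ^ 2) := by
    apply integral_mono_of_nonneg
    · filter_upwards with y
      positivity
    · exact ((hfi.const_mul ((1 / √(Real.pi / b)) ^ 2 * (h / N))).const_mul 2).add
        (integrableOn_const (by rw [Real.volume_Icc]; exact ENNReal.ofReal_ne_top))
    · refine (ae_restrict_iff' measurableSet_Icc).mpr ?_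
      filter_upwards with y hy
      exact Short.pointwise f hf N h H y b hb hN0 hH hh0 hhN hy.1 hy.2
  refine hmono.trans ?_
  rw [integral_add ((hfi.const_mul ((1 / √(Real.pi / b)) ^ 2 * (h / N))).const_mul 2)
    (integrableOn_const (by rw [Real.volume_Icc]; exact ENNReal.ofReal_ne_top)),
    integral_const_mul, integral_const_mul, setIntegral_const, Measure.real, Real.volume_Icc,
    smul_eq_mul, show 2 * N - N = N by ring, ENNReal.toReal_ofReal (by linarith)]
  have hZ : (1 / √(Real.pi / b)) ^ 2 = 1 / (2 * Real.pi * (H / N) ^ 2) := by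
    rw [div_pow, one_pow, Real.sq_sqrt (by positivity), hb]
    field_simp
  rw [hZ]
  have hpi : 3 ≤ Real.pi := Real.pi_gt_three.le
  have hmain : 1 / (2 * Real.pi * (H / N) ^ 2) * (h / N) *
      ∫ y in Set.Icc N (2 * N), ∫ u in Real.log y..Real.log (y + h), g u ≤
      η * h ^ 2 * N / 12 := by
    calc 1 / (2 * Real.pi * (H / N) ^ 2) * (h / N) *
        ∫ y in Set.Icc N (2 * N), ∫ u in Real.log y..Real.log (y + h), g u
        ≤ 1 / (2 * Real.pi * (H / N) ^ 2) * (h / N) * (h * ((H / N) ^ 2 * (η / 2 * N ^ 2))) := by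
          apply mul_le_mul_of_nonneg_left _ (by positivity)
          exact hfb.trans (mul_le_mul_of_nonneg_left hgtot (by linarith))
      _ = η * h ^ 2 * N / (4 * Real.pi) := by
          field_simp
          ring
      _ ≤ η * h ^ 2 * N / 12 := by
          apply div_le_div_of_nonneg_left (by positivity) (by norm_num)
          linarith
  have hδδ : δ ^ 2 ≤ η / 3200 := by nlinarith
  have herr : N * (2 * (28 * H) ^ 2) ≤ η * h ^ 2 * N / 2 := by
    have e : N * (2 * (28 * H) ^ 2) = 1568 * δ ^ 2 * (h ^ 2 * N) := by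
      rw [hHdef]; ring
    rw [e]
    have h3 : 0 ≤ h ^ 2 * N := by positivity
    nlinarith [mul_le_mul_of_nonneg_right hδδ h3]
  have h4 : 0 ≤ η * h ^ 2 * N := by positivity
  linarith

end Pool.Agent.MR
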