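import Pool.Agent.MR.ALevC

set_option autoImplicit false

open Finset MeasureTheory

namespace Pool.Agent.MR

/-- Exponents. -/
theorem Lev.expo (ε a y x w q g1 g2 : ℝ) (l : ℕ) (hε : 0 < ε) (hε4 : ε ≤ 1 / 4) (ha : 3 ≤ a)
    (hy : 3200 * a ≤ y) (hn : 72 * a ^ 2 ≤ ε * y) (hx : y ^ 3 - 1 ≤ x) (hw1 : y - 1 ≤ w)
    (hw2 : w ≤ y ^ 2) (hl : (l : ℝ) ≤ x / w + 1) (hq : 1 / a ≤ q)
    (hg : 2 * (g2 - g1) = ε * q) (hg1 : g1 ≤ ε) (hg0 : 0 ≤ g1) :
    7 * a * l + (-2 * g2 * x + 2 * g1 * (l * w) + 2 * l) ≤ -y ^ 2 := by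
  have ha0 : 0 < a := by linarith
  have hy0 : 9600 ≤ y := by linarith
  have hw0 : 0 < w := by linarith
  have hy2 : 0 < y ^ 2 := by positivity
  have hx0 : 0 ≤ x := by nlinarith [sq_nonneg y]
  have hlw : (l : ℝ) * w ≤ x + w := by
    have h1 := mul_le_mul_of_nonneg_right hl hw0.le
    have h2 : (x / w + 1) * w = x + w := by field_simp
    linarith
  have h1 : g1 * (l * w) ≤ g1 * (x + w) := mul_le_mul_of_nonneg_left hlw hg0
  have h2 : g1 * w ≤ ε * y ^ 2 := mul_le_mul hg1 hw2 hw0.le hε.le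
  -- (7a+2) l ≤ (7a+2)(x/w+1)
  have h3 : (7 * a + 2) * l ≤ 9 * a * (x / w + 1) := by
    apply mul_le_mul (by linarith) hl (Nat.cast_nonneg _) (by linarith)
  have h4 : x / w ≤ 2 * x / y := by
    rw [div_le_div_iff₀ hw0 (by linarith)]
    nlinarith
  have h5 : 9 * a * (2 * x / y) ≤ ε * x / (4 * a) := by
    rw [mul_div_assoc', div_le_div_iff₀ (by linarith) (by linarith)]
    nlinarith [mul_le_mul_of_nonneg_right hn hx0]
  have h6 : ε * x / a ≤ ε * q * x := by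
    have : ε * x * (1 / a) ≤ ε * x * q := mul_le_mul_of_nonneg_left hq (by positivity)
    calc ε * x / a = ε * x * (1 / a) := by ring
      _ ≤ ε * x * q := this
      _ = ε * q * x := by ring
  have h7 : 9 * a * (x / w) ≤ 9 * a * (2 * x / y) := mul_le_mul_of_nonneg_left h4 (by linarith)
  have h8 : ε * x / (4 * a) = (ε * x / a) / 4 := by field_simp
  -- x ≥ y^3/2
  have h9 : y ^ 3 / 2 ≤ x := by
    have : 2 ≤ y ^ 3 := by nlinarith [sq_nonneg y]
    linarith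
  have h10 : 36 * a * y ^ 2 ≤ ε * x / a := by
    rw [le_div_iff₀ ha0]
    have e1 : ε * (y ^ 3 / 2) ≤ ε * x := mul_le_mul_of_nonneg_left h9 hε.le
    have e2 : 72 * a ^ 2 * y ^ 2 ≤ ε * y * y ^ 2 := mul_le_mul_of_nonneg_right hn hy2.le
    nlinarith
  have h11 : ε * y ^ 2 ≤ y ^ 2 / 4 := by nlinarith
  have h12 : 9 * a ≤ y ^ 2 := by nlinarith
  have h13 : 3 * y ^ 2 ≤ a * y ^ 2 := mul_le_mul_of_nonneg_right ha hy2.le
  have e : -2 * g2 * x = -(ε * q * x) - 2 * g1 * x := by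
    have : 2 * g2 = ε * q + 2 * g1 := by linarith
    linear_combination (-x) * this
  rw [e]
  nlinarith

/-- Final numerical inequality. -/
theorem Lev.fin_ge (c c' S R y E N A q K₀ : ℝ) (hc0 : 0 ≤ c) (hc'0 : 0 ≤ c') (hy : 0 < y)
    (hA : 0 < A) (hK : 0 < K₀) (hN : 0 < N) (hE : 0 ≤ E) (hc : c ≤ 2 * y ^ 7)
    (hc' : c' ≤ 2 * y ^ 3) (hS : S ≤ c * (c' * (400 * N ^ 2 * E)))
    (hR : R ≤ 3 * (N / (A / q))) (hq : 0 < q) (hexp : 6400 * y ^ 17 * E ≤ 1 / (A / q)) :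
    2 * c * S + K₀ * N * R ≤ (3 * K₀ + 1) / A * q * N ^ 2 := by
  have h1 : c * (c' * (400 * N ^ 2 * E)) ≤ 2 * y ^ 7 * (2 * y ^ 3 * (400 * N ^ 2 * E)) := by
    apply mul_le_mul hc _ (by positivity) (by positivity)
    exact mul_le_mul_of_nonneg_right hc' (by positivity)
  calc 2 * c * S + K₀ * N * R
      ≤ 2 * (2 * y ^ 7) * (2 * y ^ 7 * (2 * y ^ 3 * (400 * N ^ 2 * E))) +
          K₀ * N * (3 * (N / (A / q))) := by
        apply add_le_add
        · refine (mul_le_mul_of_nonneg_left (hS.trans h1) (by positivity)).trans ?_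
          apply mul_le_mul_of_nonneg_right _ (by positivity)
          linarith
        · exact mul_le_mul_of_nonneg_left hR (by positivity)
    _ = (6400 * y ^ 17 * E) * N ^ 2 + 3 * K₀ * (N * (N / (A / q))) := by ring
    _ ≤ (1 / (A / q)) * N ^ 2 + 3 * K₀ * (N * (N / (A / q))) := by
        have := mul_le_mul_of_nonneg_right hexp (show 0 ≤ N ^ 2 by positivity)
        linarith
    _ = (3 * K₀ + 1) / A * q * N ^ 2 := by
        field_simp
        ring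

theorem Lev.exp_sq (y : ℝ) (hy : 9600 ≤ y) : 2 * y ^ 18 ≤ Real.exp (y ^ 2) := by
  have h1 : 20 * y ≤ y ^ 2 := by nlinarith
  have h2 : y ≤ Real.exp y := by linarith [Real.add_one_le_exp y]
  have h3 : (0 : ℝ) ≤ y ^ 18 := by positivity
  calc 2 * y ^ 18 ≤ y ^ 2 * y ^ 18 := mul_le_mul_of_nonneg_right (by nlinarith) h3
    _ = y ^ 20 := by ring
    _ ≤ (Real.exp y) ^ 20 := pow_le_pow_left₀ (by linarith) h2 20
    _ = Real.exp (20 * y) := by rw [← Real.exp_nat_mul]; norm_num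
    _ ≤ _ := Real.exp_le_exp.mpr h1

/-- Level `j ≥ 2`. -/
theorem level_ge : ∃ K : ℝ, 0 < K ∧ ∀ ε : ℝ, 0 < ε → ε ≤ 1 / 4 → ∃ A0 : ℝ, 1 ≤ A0 ∧
    ∀ A : ℝ, A0 ≤ A → ∀ j : ℕ, 1 ≤ j → ∀ (N T : ℝ), 1 ≤ T → T ≤ N →
      Real.exp (3 * (lp A (j + 1)) ^ 2) ≤ N → ∀ f : ℕ → ℂ, CM f →
      ∫ t in {t | Good f A ε (j + 1) t ∧ ¬ Good f A ε j t}, ‖dp (blk N) f t‖ ^ 2 * gw T t
        ≤ K / A * (1 / 2) ^ j * N ^ 2 := by
  obtain ⟨K₀, hK₀, hsplit⟩ := Lev.split
  obtain ⟨A1, hA1, hfacts⟩ := pset_facts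
  refine ⟨3 * K₀ + 1, by positivity, fun ε hε hε4 => ?_⟩
  obtain ⟨A2, hA2, hnum⟩ := Lev.num ε hε
  refine ⟨max A1 A2, le_trans hA1 (le_max_left _ _), fun A hA j hj N T hT hTN hN f hf => ?_⟩
  have hAA1 : A1 ≤ A := le_trans (le_max_left _ _) hA
  have hAA2 : A2 ≤ A := le_trans (le_max_right _ _) hA
  have hA3 : 3 ≤ A := hA2.trans hAA2
  obtain ⟨hf1, hf2, hf3, hf4⟩ := hfacts A hAA1 (j + 1) (by omega)
  obtain ⟨hg1, hg2, hg3, hg4⟩ := hfacts A hAA1 j hj
  obtain ⟨a, ha, hya, ha3, hn1, hn2, hn3, hn3', hn4, hn5, hn7, hn8⟩ :=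
    Lev.level_facts A2 hA2 ε hnum A hAA2 j
  obtain ⟨-, -, -, -, -, -, hm3, -, -, -, hm7, hm8⟩ :=
    Lev.level_facts A2 hA2 ε hnum A hAA2 (j + 1)
  obtain ⟨hP, hZ⟩ := Lev.pset_Z A (j + 1)
  obtain ⟨hP', hZ'⟩ := Lev.pset_Z A j
  have hY : lp A (j + 1) = (lp A j) ^ 3 := by
    unfold lp
    rw [← Real.exp_nat_mul]
    congr 1
    push_cast
    ring
  rw [hY] at hf3 hf4
  have hN0 : 0 < N := lt_of_lt_of_le (Real.exp_pos _) hN
  have h2j : (1 : ℝ) ≤ 2 ^ j := one_le_pow₀ (by norm_num)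
  have h3j : (2 : ℝ) ^ j ≤ 3 ^ j := pow_le_pow_left₀ (by norm_num) (by norm_num) j
  have hB : (1 : ℝ) ≤ A * 2 ^ j := by nlinarith
  have hrs : A * 2 ^ j ≤ rs (pset A (j + 1)) := by
    refine le_trans ?_ hf1
    rw [pow_succ]
    nlinarith
  have hHH : A * 2 ^ j ≤ (HH A (j + 1) : ℝ) := by
    refine le_trans ?_ hm7
    rw [pow_succ]
    nlinarith
  have hy1 : 9600 ≤ lp A j := by linarith
  have hBY : A * 2 ^ j ≤ (lp A (j + 1)) ^ 2 := by
    rw [hY, ← pow_mul]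
    have h1 : lp A j ≤ (lp A j) ^ (3 * 2) := le_self_pow₀ (by linarith) (by norm_num)
    linarith
  have herr := Lev.err A N (j + 1) (A * 2 ^ j) hB hrs hHH hBY hN
  have hGj := measurable_Good f A ε j
  have hGj1 := measurable_Good f A ε (j + 1)
  have hU : MeasurableSet {t | Good f A ε (j + 1) t ∧ ¬ Good f A ε j t} :=
    hGj1.inter hGj.compl
  have hmain := hsplit f hf (pset A (j + 1)) hP _ hZ (by linarith) (HH A (j + 1)) hm8 N T hT hTN
    {t | Good f A ε (j + 1) t ∧ ¬ Good f A ε j t} hU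
  refine hmain.trans ?_
  have hq : A * 2 ^ j = A / (1 / 2) ^ j := by
    rw [one_div, inv_pow, div_inv_eq_mul]
  have hcard : ((vs (HH A (j + 1)) (pset A (j + 1))).card : ℝ) ≤ 2 * (lp A j) ^ 7 := by
    refine hf3.trans ?_
    have h1 : (HH A (j + 1) : ℝ) * ((lp A j) ^ 3) ^ 2 ≤ lp A j * ((lp A j) ^ 3) ^ 2 :=
      mul_le_mul_of_nonneg_right (by linarith) (by positivity)
    have h2 : (1 : ℝ) ≤ (lp A j) ^ 7 := one_le_pow₀ (by linarith)
    have h3 : lp A j * ((lp A j) ^ 3) ^ 2 = (lp A j) ^ 7 := by ring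
    linarith
  have hcard' : ((vs (HH A j) (pset A j)).card : ℝ) ≤ 2 * (lp A j) ^ 3 := by
    refine hg3.trans ?_
    have h1 : (HH A j : ℝ) * (lp A j) ^ 2 ≤ lp A j * (lp A j) ^ 2 :=
      mul_le_mul_of_nonneg_right (by linarith) (by positivity)
    have h2 : (1 : ℝ) ≤ (lp A j) ^ 3 := one_le_pow₀ (by linarith)
    have h3 : lp A j * (lp A j) ^ 2 = (lp A j) ^ 3 := by ring
    linarith
  -- one pair `(v, u)`
  have hterm : ∀ v ∈ vs (HH A (j + 1)) (pset A (j + 1)), ∀ u ∈ vs (HH A j) (pset A j),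
      ∫ t in {t | Good f A ε (j + 1) t} ∩ {t | Real.exp ((1 - al ε j) * (u / HH A j)) ≤
          ‖dp (pb (HH A j) (pset A j) u) f t‖},
        ‖dp (pb (HH A (j + 1)) (pset A (j + 1)) v) f t *
          dp (blk (N / Real.exp (v / HH A (j + 1)))) f t‖ ^ 2 * gw T t ≤
      400 * N ^ 2 * Real.exp (-(lp A j) ^ 2) := by
    intro v hv u hu
    obtain ⟨hv1, hv2⟩ := hf4 v hv
    obtain ⟨hu1, hu2⟩ := hg4 u hu
    have hw0 : 0 < (u : ℝ) / HH A j := by linarith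
    have hx0 : 0 ≤ (v : ℝ) / HH A (j + 1) := by positivity
    set l : ℕ := ⌈((v : ℝ) / HH A (j + 1)) / ((u : ℝ) / HH A j)⌉₊ with hl
    have hl1 : ((v : ℝ) / HH A (j + 1)) / ((u : ℝ) / HH A j) ≤ (l : ℝ) := Nat.le_ceil _
    have hl2 : (l : ℝ) ≤ ((v : ℝ) / HH A (j + 1)) / ((u : ℝ) / HH A j) + 1 :=
      (Nat.ceil_lt_add_one (by positivity)).le
    have hl3 : (v : ℝ) / HH A (j + 1) ≤ l * ((u : ℝ) / HH A j) := by
      rwa [div_le_iff₀ hw0] at hl1
    have h3 : ∀ p ∈ pset A j, 1 ≤ p := fun p hp => by have := hg2 p hp; omega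
    have hH2 : 2 ≤ HH A j := by
      have h5 : (2 : ℝ) ≤ (HH A j : ℝ) := by nlinarith
      exact_mod_cast h5
    have h1 := loc_two f hf (pb (HH A (j + 1)) (pset A (j + 1)) v) (pb (HH A j) (pset A j) u)
      (fun p hp => hP' p (mem_pb _ hn8 _ h3 _ _ hp).1) (HH A (j + 1)) (HH A j) v u l hm8 hn8
      (rs_pb_le _ hH2 _ hg2 u) (fun p hp => (mem_pb _ hn8 _ h3 _ _ hp).2.2.le) hl3 N T
      (al ε (j + 1)) (al ε j) hT hTN
      ({t | Good f A ε (j + 1) t} ∩ {t | Real.exp ((1 - al ε j) * (u / HH A j)) ≤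
          ‖dp (pb (HH A j) (pset A j) u) f t‖})
      (hGj1.inter (isClosed_le continuous_const (continuous_dp _ f).norm).measurableSet)
      (fun t ht => ht.1 v hv) (fun t ht => ht.2)
    refine h1.trans ?_
    -- numerics
    have hq1 : 1 / a ≤ (1 / 2 : ℝ) ^ j := by
      rw [one_div_pow]
      exact one_div_le_one_div_of_le (by positivity) hn3'
    have hq0 : (0 : ℝ) < (1 / 2 : ℝ) ^ j := by positivity
    have hq2 : (1 / 2 : ℝ) ^ j ≤ 1 := pow_le_one₀ (by norm_num) (by norm_num)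
    have hexpo := Lev.expo ε a (lp A j) ((v : ℝ) / HH A (j + 1)) ((u : ℝ) / HH A j)
      ((1 / 2) ^ j) (al ε j) (al ε (j + 1)) l hε hε4 ha3 hn2 hn1 (by linarith) hu1 hu2 hl2 hq1
      (by unfold al; ring) (by unfold al; nlinarith) (by unfold al; nlinarith)
    have hlp : ((l : ℝ) + 1) ^ l ≤ Real.exp (7 * a * l) := by
      have h5 : (l : ℝ) + 1 ≤ Real.exp (7 * a) := by
        have e1 : ((v : ℝ) / HH A (j + 1)) / ((u : ℝ) / HH A j) ≤ (v : ℝ) / HH A (j + 1) :=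
          div_le_self hx0 (by linarith)
        have e2 : Real.exp (7 * a) = (lp A j) ^ 7 := by
          rw [hya, ← Real.exp_nat_mul]
          norm_num
        have e3 : ((lp A j) ^ 3) ^ 2 = (lp A j) ^ 6 := by ring
        have e4 : (2 : ℝ) + (lp A j) ^ 6 ≤ (lp A j) ^ 7 := by
          have e5 : (1 : ℝ) ≤ (lp A j) ^ 6 := one_le_pow₀ (by linarith)
          have e6 : (lp A j) ^ 7 = lp A j * (lp A j) ^ 6 := by ring
          nlinarith
        rw [e2]
        linarith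
      calc ((l : ℝ) + 1) ^ l ≤ (Real.exp (7 * a)) ^ l := pow_le_pow_left₀ (by positivity) h5 l
        _ = Real.exp (7 * a * l) := by rw [← Real.exp_nat_mul]; ring_nf
    have hdiv : 2 * (l : ℝ) / HH A j ≤ 2 * l := by
      apply div_le_self (by positivity)
      exact_mod_cast hn8
    calc 400 * N ^ 2 * ((l : ℝ) + 1) ^ l *
        Real.exp (-2 * al ε (j + 1) * (v / HH A (j + 1)) + 2 * al ε j * (l * (u / HH A j)) +
          2 * l / HH A j)
        ≤ 400 * N ^ 2 * Real.exp (7 * a * l) *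
          Real.exp (-2 * al ε (j + 1) * (v / HH A (j + 1)) + 2 * al ε j * (l * (u / HH A j)) +
          2 * l) := by
          gcongr
      _ = 400 * N ^ 2 * Real.exp (7 * a * l + (-2 * al ε (j + 1) * (v / HH A (j + 1)) +
          2 * al ε j * (l * (u / HH A j)) + 2 * l)) := by
          rw [mul_assoc, ← Real.exp_add]
      _ ≤ 400 * N ^ 2 * Real.exp (-(lp A j) ^ 2) := by
          apply mul_le_mul_of_nonneg_left _ (by positivity)
          exact Real.exp_le_exp.mpr hexpo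
  have hsum : (∑ v ∈ vs (HH A (j + 1)) (pset A (j + 1)),
      ∫ t in {t | Good f A ε (j + 1) t ∧ ¬ Good f A ε j t},
      ‖dp (pb (HH A (j + 1)) (pset A (j + 1)) v) f t *
        dp (blk (N / Real.exp (v / HH A (j + 1)))) f t‖ ^ 2 * gw T t) ≤
      ((vs (HH A (j + 1)) (pset A (j + 1))).card : ℝ) * (((vs (HH A j) (pset A j)).card : ℝ) *
        (400 * N ^ 2 * Real.exp (-(lp A j) ^ 2))) := by
    rw [← nsmul_eq_mul]
    apply Finset.sum_le_card_nsmul
    intro v hv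
    refine (Lev.union_bound (vs (HH A j) (pset A j)) _
      (fun u => {t | Good f A ε (j + 1) t} ∩ {t | Real.exp ((1 - al ε j) * (u / HH A j)) ≤
          ‖dp (pb (HH A j) (pset A j) u) f t‖}) hU
      (fun u _ => hGj1.inter (isClosed_le continuous_const (continuous_dp _ f).norm).measurableSet)
      ?_ _ (Lev.integrable_prod f _ _ T (by linarith))
      (fun t => mul_nonneg (by positivity) (Lev.gw_nonneg T t))).trans ?_
    · intro t ht
      obtain ⟨ht1, ht2⟩ := ht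
      unfold Good at ht2
      push Not at ht2
      obtain ⟨u, hu, hlt⟩ := ht2
      exact ⟨u, hu, ht1, hlt.le⟩
    · rw [← nsmul_eq_mul]
      apply Finset.sum_le_card_nsmul
      intro u hu
      exact hterm v hv u hu
  have hexp : 6400 * (lp A j) ^ 17 * Real.exp (-(lp A j) ^ 2) ≤ 1 / (A / (1 / 2) ^ j) := by
    rw [← hq, Real.exp_neg, ← div_eq_mul_inv, div_le_div_iff₀ (Real.exp_pos _) (by linarith)]
    have h2 : 3200 * (A * 2 ^ j) ≤ lp A j := by linarith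
    have h3 : 0 ≤ (lp A j) ^ 17 := by positivity
    calc 6400 * (lp A j) ^ 17 * (A * 2 ^ j) = 2 * ((lp A j) ^ 17 * (3200 * (A * 2 ^ j))) := by ring
      _ ≤ 2 * ((lp A j) ^ 17 * lp A j) := by
          have := mul_le_mul_of_nonneg_left h2 h3
          linarith
      _ = 2 * (lp A j) ^ 18 := by ring
      _ ≤ 1 * Real.exp ((lp A j) ^ 2) := by
          rw [one_mul]
          exact Lev.exp_sq _ hy1
  rw [hq] at herr
  exact Lev.fin_ge _ _ _ _ (lp A j) _ N A ((1 / 2) ^ j) K₀ (Nat.cast_nonneg _)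
    (Nat.cast_nonneg _) (by linarith) (by linarith) hK₀ hN0 (Real.exp_pos _).le hcard hcard'
    hsum herr (by positivity) hexp

end Pool.Agent.MR
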