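import Pool.Agent.MR.ALevC

set_option autoImplicit false

open Finset MeasureTheory

namespace Pool.Agent.MR

theorem Lev.fin_one (c S R y E N A K₀ : ℝ) (hc0 : 0 ≤ c) (hy : 0 < y) (hA : 0 < A) (hK : 0 < K₀)
    (hN : 0 < N) (hE : 0 ≤ E) (hc : c ≤ 2 * y ^ 3) (hS : S ≤ 2 * y ^ 3 * (200 * N ^ 2 * E))
    (hR : R ≤ 3 * (N / A)) (hexp : 1600 * y ^ 6 * E ≤ 1 / A) :
    2 * c * S + K₀ * N * R ≤ (3 * K₀ + 1) / A * N ^ 2 := by
  calc 2 * c * S + K₀ * N * R
      ≤ 2 * (2 * y ^ 3) * (2 * y ^ 3 * (200 * N ^ 2 * E)) + K₀ * N * (3 * (N / A)) := by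
        apply add_le_add
        · refine (mul_le_mul_of_nonneg_left hS (by positivity)).trans ?_
          apply mul_le_mul_of_nonneg_right _ (by positivity)
          linarith
        · exact mul_le_mul_of_nonneg_left hR (by positivity)
    _ = (1600 * y ^ 6 * E) * N ^ 2 + 3 * K₀ * N ^ 2 / A := by ring
    _ ≤ (1 / A) * N ^ 2 + 3 * K₀ * N ^ 2 / A := by
        have := mul_le_mul_of_nonneg_right hexp (show 0 ≤ N ^ 2 by positivity)
        linarith
    _ = (3 * K₀ + 1) / A * N ^ 2 := by ring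

/-- Level one. -/
theorem level_one : ∃ K : ℝ, 0 < K ∧ ∀ ε : ℝ, 0 < ε → ε ≤ 1 / 4 → ∃ A0 : ℝ, 1 ≤ A0 ∧
    ∀ A : ℝ, A0 ≤ A → ∀ (N T : ℝ), 1 ≤ T → T * Real.exp ((lp A 1) ^ 2) ≤ N →
      Real.exp (3 * (lp A 1) ^ 2) ≤ N → ∀ f : ℕ → ℂ, CM f →
      ∫ t in {t | Good f A ε 1 t}, ‖dp (blk N) f t‖ ^ 2 * gw T t ≤ K / A * N ^ 2 := by
  obtain ⟨K₀, hK₀, hsplit⟩ := Lev.split
  obtain ⟨A1, hA1, hfacts⟩ := pset_facts
  refine ⟨3 * K₀ + 1, by positivity, fun ε hε hε4 => ?_⟩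
  obtain ⟨A2, hA2, hnum⟩ := Lev.num ε hε
  refine ⟨max A1 A2, le_trans hA1 (le_max_left _ _), fun A hA N T hT hTN hN f hf => ?_⟩
  have hAA1 : A1 ≤ A := le_trans (le_max_left _ _) hA
  have hAA2 : A2 ≤ A := le_trans (le_max_right _ _) hA
  have hA3 : 3 ≤ A := hA2.trans hAA2
  obtain ⟨hf1, hf2, hf3, hf4⟩ := hfacts A hAA1 1 le_rfl
  obtain ⟨a, ha, hya, ha3, hn1, hn2, hn3, hn4, hn5, -, hn7, hn8⟩ :=
    Lev.level_facts A2 hA2 ε hnum A hAA2 1
  obtain ⟨hP, hZ⟩ := Lev.pset_Z A 1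
  set y := lp A 1 with hy
  set H := HH A 1 with hH
  have hy1 : 9600 ≤ y := by linarith
  have hN0 : 0 < N := lt_of_lt_of_le (Real.exp_pos _) hN
  have hTN' : T ≤ N := by
    refine le_trans ?_ hTN
    exact le_mul_of_one_le_right (by linarith) (Real.one_le_exp (by positivity))
  rw [pow_one] at hf1 hn3
  have hmain := hsplit f hf (pset A 1) hP _ hZ (by linarith) H hn8 N T hT hTN'
    {t | Good f A ε 1 t} (measurable_Good f A ε 1)
  refine hmain.trans ?_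
  have herr := Lev.err A N 1 A (by linarith) (by linarith) (by linarith) (by nlinarith) hN
  have hHR : (H : ℝ) ≤ y := by linarith
  have hcard : ((vs H (pset A 1)).card : ℝ) ≤ 2 * y ^ 3 := by
    refine hf3.trans ?_
    have h1 : (H : ℝ) * y ^ 2 ≤ y * y ^ 2 := mul_le_mul_of_nonneg_right hHR (by positivity)
    have h2 : (1 : ℝ) ≤ y ^ 3 := one_le_pow₀ (by linarith)
    nlinarith
  have hal : al ε 1 = ε / 2 := by unfold al; ring
  have hterm : ∀ v ∈ vs H (pset A 1), ∫ t in {t | Good f A ε 1 t},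
      ‖dp (pb H (pset A 1) v) f t * dp (blk (N / Real.exp (v / H))) f t‖ ^ 2 * gw T t ≤
      200 * N ^ 2 * Real.exp (-(ε * (y - 1))) := by
    intro v hv
    obtain ⟨hv1, hv2⟩ := hf4 v hv
    have h1 := loc_one f hf (pb H (pset A 1) v) H v hn8 N T (al ε 1) hT (by
      refine le_trans ?_ hTN
      exact mul_le_mul_of_nonneg_left (Real.exp_le_exp.mpr hv2) (by linarith))
      {t | Good f A ε 1 t} (measurable_Good f A ε 1) (fun t ht => ht v hv)
    refine h1.trans ?_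
    apply mul_le_mul_of_nonneg_left _ (by positivity)
    apply Real.exp_le_exp.mpr
    rw [hal]
    nlinarith
  have hsum : (∑ v ∈ vs H (pset A 1), ∫ t in {t | Good f A ε 1 t},
      ‖dp (pb H (pset A 1) v) f t * dp (blk (N / Real.exp (v / H))) f t‖ ^ 2 * gw T t) ≤
      2 * y ^ 3 * (200 * N ^ 2 * Real.exp (-(ε * (y - 1)))) := by
    refine (Finset.sum_le_sum hterm).trans ?_
    rw [Finset.sum_const, nsmul_eq_mul]
    exact mul_le_mul_of_nonneg_right hcard (by positivity)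
  have hexp : 1600 * y ^ 6 * Real.exp (-(ε * (y - 1))) ≤ 1 / A := by
    have h1 : y ^ 7 ≤ Real.exp (ε * (y - 1)) := by
      rw [hya, ← Real.exp_nat_mul]
      apply Real.exp_le_exp.mpr
      push_cast
      rw [← hya]
      nlinarith
    rw [Real.exp_neg, ← div_eq_mul_inv, div_le_div_iff₀ (Real.exp_pos _) (by linarith)]
    have h2 : 1600 * A ≤ y := by linarith
    have h3 : 0 ≤ y ^ 6 := by positivity
    calc 1600 * y ^ 6 * A = y ^ 6 * (1600 * A) := by ring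
      _ ≤ y ^ 6 * y := mul_le_mul_of_nonneg_left h2 h3
      _ = y ^ 7 := by ring
      _ ≤ 1 * Real.exp (ε * (y - 1)) := by rw [one_mul]; exact h1
  exact Lev.fin_one _ _ _ y _ N A K₀ (Nat.cast_nonneg _) (by linarith) (by linarith) hK₀
    hN0 (Real.exp_pos _).le hcard hsum herr hexp

end Pool.Agent.MR
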