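import Pool.Agent.MR.AMvt
import Pool.Agent.H6.HR.Mertens

set_option autoImplicit false

open Finset MeasureTheory

namespace Pool.Agent.MR

lemma alf_HH_pos {A : ℝ} (hA : 1 ≤ A) (j : ℕ) : 1 ≤ HH A j := by
  unfold HH
  have h1 : 1 ≤ ⌈A⌉₊ := Nat.one_le_ceil_iff.2 (by linarith)
  have h2 : 1 ≤ 2 ^ j := Nat.one_le_two_pow
  calc 1 = 1 * 1 := rfl
    _ ≤ ⌈A⌉₊ * 2 ^ j := Nat.mul_le_mul h1 h2

lemma alf_pow3 {A : ℝ} (hA : 1 ≤ A) {j : ℕ} (hj : 1 ≤ j) : 3 * A ≤ A * 3 ^ j := by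
  have h1 : (3 : ℝ) ≤ 3 ^ j := by
    calc (3 : ℝ) = 3 ^ 1 := by norm_num
      _ ≤ 3 ^ j := pow_le_pow_right₀ (by norm_num) hj
  nlinarith

lemma alf_lp_ge {A : ℝ} (hA : 1 ≤ A) {j : ℕ} (hj : 1 ≤ j) : 4 ≤ lp A j := by
  unfold lp
  have h1 := alf_pow3 hA hj
  have h2 := Real.add_one_le_exp (A * 3 ^ j)
  linarith

lemma alf_lp_ge_A {A : ℝ} (hA : 1 ≤ A) {j : ℕ} (hj : 1 ≤ j) : A * 3 ^ j ≤ lp A j := by
  unfold lp
  have h2 := Real.add_one_le_exp (A * 3 ^ j)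
  linarith

lemma alf_mem_pset {A : ℝ} {j p : ℕ} (hp : p ∈ pset A j) :
    p.Prime ∧ Real.exp (lp A j) < p ∧ (p : ℝ) ≤ Real.exp ((lp A j) ^ 2) := by
  unfold pset at hp
  rw [Finset.mem_filter, Finset.mem_Ioc] at hp
  refine ⟨hp.2, ?_, ?_⟩
  · exact (Nat.floor_lt (Real.exp_pos _).le).1 hp.1.1
  · exact (Nat.le_floor_iff (Real.exp_pos _).le).1 hp.1.2

lemma alf_vs {A : ℝ} (hA : 1 ≤ A) {j : ℕ} {v : ℕ} (hv : v ∈ vs (HH A j) (pset A j)) :
    lp A j - 1 ≤ (v : ℝ) / HH A j ∧ (v : ℝ) / HH A j ≤ (lp A j) ^ 2 ∧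
      (v : ℝ) ≤ HH A j * (lp A j) ^ 2 := by
  unfold vs at hv
  rw [Finset.mem_image] at hv
  obtain ⟨p, hp, rfl⟩ := hv
  obtain ⟨hpp, h1, h2⟩ := alf_mem_pset hp
  have hp1 : (1 : ℝ) < p := by exact_mod_cast hpp.one_lt
  have hp0 : (0 : ℝ) < p := by linarith
  have hH : (1 : ℝ) ≤ HH A j := by exact_mod_cast alf_HH_pos hA j
  have hH0 : (0 : ℝ) < HH A j := by linarith
  have hl1 : lp A j < Real.log p := (Real.lt_log_iff_exp_lt hp0).2 h1
  have hl2 : Real.log p ≤ (lp A j) ^ 2 := (Real.log_le_iff_le_exp hp0).2 h2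
  have hlog : 0 ≤ (HH A j : ℝ) * Real.log p := mul_nonneg hH0.le (Real.log_nonneg hp1.le)
  have h3 := Nat.floor_le hlog
  have h4 := Nat.lt_floor_add_one ((HH A j : ℝ) * Real.log p)
  have h5 : (HH A j : ℝ) * Real.log p ≤ HH A j * (lp A j) ^ 2 :=
    mul_le_mul_of_nonneg_left hl2 hH0.le
  refine ⟨?_, ?_, h3.trans h5⟩
  · rw [le_div_iff₀ hH0]
    nlinarith
  · rw [div_le_iff₀ hH0]
    linarith

/-- Facts on the level sets of primes (Mertens). -/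
theorem pset_facts : ∃ A0 : ℝ, 1 ≤ A0 ∧ ∀ A : ℝ, A0 ≤ A → ∀ j : ℕ, 1 ≤ j →
    A * 3 ^ j / 2 ≤ rs (pset A j) ∧ (∀ p ∈ pset A j, 3 ≤ p) ∧
    ((vs (HH A j) (pset A j)).card : ℝ) ≤ (HH A j) * (lp A j) ^ 2 + 1 ∧
    (∀ v ∈ vs (HH A j) (pset A j), lp A j - 1 ≤ (v : ℝ) / HH A j ∧ (v : ℝ) / HH A j ≤ (lp A j) ^ 2) := by
  obtain ⟨C, hC, hM⟩ := Pool.Agent.H6.HR.mertens_second_lower
  refine ⟨max 1 C, le_max_left _ _, ?_⟩
  intro A hA j hj
  have hA1 : 1 ≤ A := (le_max_left _ _).trans hA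
  have hAC : C ≤ A := (le_max_right _ _).trans hA
  have hlp := alf_lp_ge hA1 hj
  have hlp0 : 0 < lp A j := by linarith
  refine ⟨?_, ?_, ?_, ?_⟩
  · have hab : Real.exp (lp A j) ≤ Real.exp ((lp A j) ^ 2) := by
      rw [Real.exp_le_exp]
      nlinarith
    have h2 : 2 ≤ Real.exp (lp A j) := by
      have := Real.add_one_le_exp (lp A j)
      linarith
    have h := hM _ _ h2 hab
    rw [Real.log_exp, Real.log_exp] at h
    have h3 : (lp A j) ^ 2 / lp A j = lp A j := by field_simp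
    rw [h3] at h
    have h4 : Real.log (lp A j) = A * 3 ^ j := by rw [lp, Real.log_exp]
    rw [h4] at h
    have h5 : ∑ p ∈ (Pool.Agent.CoprimeSieve.pr (Real.exp ((lp A j) ^ 2))).filter
        (fun p : ℕ => Real.exp (lp A j) < (p : ℝ)), (1 : ℝ) / p = rs (pset A j) := by
      unfold rs
      refine Finset.sum_congr ?_ fun _ _ => rfl
      ext p
      rw [Finset.mem_filter, Pool.Agent.CoprimeSieve.mem_pr]
      unfold pset
      rw [Finset.mem_filter, Finset.mem_Ioc, Nat.floor_lt (Real.exp_pos _).le,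
        Nat.le_floor_iff (Real.exp_pos _).le]
      tauto
    rw [h5] at h
    have h6 : C / lp A j ≤ A * 3 ^ j / 2 := by
      have h7 := alf_pow3 hA1 hj
      rw [div_le_iff₀ hlp0]
      nlinarith
    linarith
  · intro p hp
    obtain ⟨_, h1, _⟩ := alf_mem_pset hp
    have h2 := Real.add_one_le_exp (lp A j)
    have h3 : (3 : ℝ) < p := by linarith
    have h4 : 3 < p := by exact_mod_cast h3
    omega
  · have hsub : vs (HH A j) (pset A j) ⊆ range (⌊(HH A j : ℝ) * (lp A j) ^ 2⌋₊ + 1) := by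
      intro v hv
      rw [Finset.mem_range, Nat.lt_add_one_iff, Nat.le_floor_iff (by positivity)]
      exact (alf_vs hA1 hv).2.2
    have h1 := Finset.card_le_card hsub
    rw [Finset.card_range] at h1
    have h2 : ((vs (HH A j) (pset A j)).card : ℝ) ≤ (⌊(HH A j : ℝ) * (lp A j) ^ 2⌋₊ : ℝ) + 1 := by
      exact_mod_cast h1
    have h3 := Nat.floor_le (a := (HH A j : ℝ) * (lp A j) ^ 2) (by positivity)
    linarith
  · intro v hv
    exact ⟨(alf_vs hA1 hv).1, (alf_vs hA1 hv).2.1⟩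

theorem measurable_Good (f : ℕ → ℂ) (A ε : ℝ) (j : ℕ) : MeasurableSet {t | Good f A ε j t} := by
  have h : {t | Good f A ε j t} = ⋂ v ∈ vs (HH A j) (pset A j),
      {t | ‖dp (pb (HH A j) (pset A j) v) f t‖ ≤ Real.exp ((1 - al ε j) * (v / HH A j))} := by
    ext t
    simp [Good]
  rw [h]
  refine Finset.measurableSet_biInter _ fun v _ => ?_
  exact (isClosed_le (continuous_dp _ _).norm continuous_const).measurableSet

end Pool.Agent.MR
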