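import Pool.Agent.MR.ATopB
import Pool.Agent.MR.ALevOne
import Pool.Agent.MR.ALevGe
import Pool.Agent.MR.AMeasBad

set_option autoImplicit false

open Finset MeasureTheory

namespace Pool.Agent.MR

private theorem setInt_cover (F : ℝ → ℝ) (hF : Integrable F) (h0 : ∀ t, 0 ≤ F t) (S T U : Set ℝ)
    (hT : MeasurableSet T) (hU : MeasurableSet U) (h : S ⊆ T ∪ U) :
    ∫ t in S, F t ≤ (∫ t in T, F t) + ∫ t in U, F t := by
  have h1 : ∫ t in S, F t ≤ ∫ t in T ∪ U, F t := by
    apply setIntegral_mono_set hF.integrableOn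
    · exact Filter.Eventually.of_forall (fun t => h0 t)
    · exact h.eventuallyLE
  have h2 : ∫ t in T ∪ U, F t = (∫ t in T, F t) + ∫ t in U \ T, F t := by
    rw [← Set.union_sdiff_self]
    exact setIntegral_union Set.disjoint_sdiff_right (hU.diff hT) hF.integrableOn hF.integrableOn
  have h3 : ∫ t in U \ T, F t ≤ ∫ t in U, F t := by
    apply setIntegral_mono_set hF.integrableOn
    · exact Filter.Eventually.of_forall (fun t => h0 t)
    · exact Set.sdiff_subset.eventuallyLE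
  linarith

private theorem lp_mono (A : ℝ) (hA : 0 ≤ A) {i j : ℕ} (hij : i ≤ j) : lp A i ≤ lp A j := by
  unfold lp
  apply Real.exp_le_exp.mpr
  apply mul_le_mul_of_nonneg_left _ hA
  exact pow_le_pow_right₀ (by norm_num) hij

private theorem lp_pos (A : ℝ) (j : ℕ) : 0 < lp A j := Real.exp_pos _

private theorem lp_tendsto (A : ℝ) (hA : 0 < A) (B : ℝ) : ∃ j : ℕ, B < (lp A (j + 1)) ^ 2 := by
  have h1 : Filter.Tendsto (fun j : ℕ => (3 : ℝ) ^ (j + 1)) Filter.atTop Filter.atTop :=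
    (tendsto_pow_atTop_atTop_of_one_lt (by norm_num)).comp (Filter.tendsto_add_atTop_nat 1)
  have h2 := (h1.const_mul_atTop hA).eventually_gt_atTop (max B 0)
  obtain ⟨j, hj⟩ := h2.exists
  refine ⟨j, ?_⟩
  have h3 : A * 3 ^ (j + 1) + 1 ≤ lp A (j + 1) := Real.add_one_le_exp _
  have h4 : B < lp A (j + 1) := by
    have := le_max_left B 0
    linarith
  have h5 : 1 ≤ lp A (j + 1) := by
    have := le_max_right B 0
    linarith
  nlinarith

private theorem tail_bound (f : ℕ → ℂ) (hf : CM f) (η : ℝ) (hη : 0 < η) : ∃ N0 : ℝ, 1 ≤ N0 ∧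
    ∀ N : ℝ, N0 ≤ N → ∀ T : ℝ, 0 < T → T ≤ N →
      ∫ t in {t : ℝ | N ^ (3 / 2 : ℝ) < |t|}, ‖dp (blk N) f t‖ ^ 2 * gw T t ≤ η * N ^ 2 := by
  have hlim : Filter.Tendsto (fun N : ℝ => N ^ 1 * Real.exp (-(1 / 2) * N)) Filter.atTop (nhds 0) := by
    have := Real.tendsto_pow_mul_exp_neg_atTop_nhds_zero 1
    have h2 := tendsto_rpow_mul_exp_neg_mul_atTop_nhds_zero 1 (1 / 2) (by norm_num)
    simpa using h2
  have hev : ∀ᶠ N : ℝ in Filter.atTop, N ^ 1 * Real.exp (-(1 / 2) * N) < η / 100 :=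
    hlim.eventually_lt_const (by positivity)
  obtain ⟨N1, hN1⟩ := Filter.eventually_atTop.mp hev
  refine ⟨max N1 1, le_max_right _ _, fun N hN T hT hTN => ?_⟩
  have hN1' := hN1 N ((le_max_left _ _).trans hN)
  have h1N : 1 ≤ N := (le_max_right _ _).trans hN
  have hN0 : 0 < N := by linarith
  have hdp : ∀ t, ‖dp (blk N) f t‖ ≤ 3 * N := by
    intro t
    refine (norm_dp_le _ _ _).trans ?_
    calc ∑ n ∈ blk N, ‖f n‖ ≤ ∑ n ∈ blk N, (1 : ℝ) := sum_le_sum (fun n _ => hf.norm_le n)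
      _ = (blk N).card := by simp
      _ ≤ 3 * N := by
          unfold blk
          rw [Nat.card_Ioc]
          calc ((⌊3 * N⌋₊ - ⌊N⌋₊ : ℕ) : ℝ) ≤ (⌊3 * N⌋₊ : ℝ) := by
                exact_mod_cast Nat.sub_le _ _
            _ ≤ 3 * N := Nat.floor_le (by linarith)
  -- comparison
  have hG : Integrable (fun t : ℝ => Real.exp (-(1 / (2 * N ^ 2)) * t ^ 2)) :=
    integrable_exp_neg_mul_sq (by positivity)
  have hmeas : MeasurableSet {t : ℝ | N ^ (3 / 2 : ℝ) < |t|} :=
    measurableSet_lt measurable_const continuous_abs.measurable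
  have hpt : ∀ t ∈ {t : ℝ | N ^ (3 / 2 : ℝ) < |t|}, ‖dp (blk N) f t‖ ^ 2 * gw T t ≤
      (3 * N) ^ 2 * Real.exp (-(1 / 2) * N) * Real.exp (-(1 / (2 * N ^ 2)) * t ^ 2) := by
    intro t ht
    have ht' : N ^ (3 / 2 : ℝ) < |t| := ht
    have ht2 : N ^ 3 ≤ t ^ 2 := by
      have e1 : (N ^ (3 / 2 : ℝ)) ^ 2 = N ^ 3 := by
        rw [← Real.rpow_natCast, ← Real.rpow_mul hN0.le]
        norm_num
      rw [← e1, ← sq_abs t]
      exact pow_le_pow_left₀ (by positivity) ht'.le 2
    have hgw : gw T t ≤ Real.exp (-(1 / 2) * N) * Real.exp (-(1 / (2 * N ^ 2)) * t ^ 2) := by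
      unfold gw
      rw [← Real.exp_add]
      apply Real.exp_le_exp.mpr
      have e2 : t ^ 2 / N ^ 2 ≤ (t / T) ^ 2 := by
        rw [div_pow]
        apply div_le_div_of_nonneg_left (by positivity) (by positivity)
        exact pow_le_pow_left₀ hT.le hTN 2
      have e3 : N ≤ t ^ 2 / N ^ 2 := by
        rw [le_div_iff₀ (by positivity)]
        nlinarith
      have e4 : (1 / (2 * N ^ 2)) * t ^ 2 = (1 / 2) * (t ^ 2 / N ^ 2) := by
        field_simp
      have e5 : -(1 / (2 * N ^ 2)) * t ^ 2 = -((1 / 2) * (t ^ 2 / N ^ 2)) := by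
        rw [neg_mul, e4]
      rw [e5]
      linarith
    calc ‖dp (blk N) f t‖ ^ 2 * gw T t
        ≤ (3 * N) ^ 2 * (Real.exp (-(1 / 2) * N) * Real.exp (-(1 / (2 * N ^ 2)) * t ^ 2)) := by
          apply mul_le_mul _ hgw
          · unfold gw; positivity
          · positivity
          · exact pow_le_pow_left₀ (norm_nonneg _) (hdp t) 2
      _ = _ := by ring
  calc ∫ t in {t : ℝ | N ^ (3 / 2 : ℝ) < |t|}, ‖dp (blk N) f t‖ ^ 2 * gw T t
      ≤ ∫ t in {t : ℝ | N ^ (3 / 2 : ℝ) < |t|},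
          (3 * N) ^ 2 * Real.exp (-(1 / 2) * N) * Real.exp (-(1 / (2 * N ^ 2)) * t ^ 2) := by
        apply setIntegral_mono_on _ _ hmeas hpt
        · exact (integrable_dp _ _ _ hT).integrableOn
        · exact (hG.const_mul _).integrableOn
    _ ≤ ∫ t, (3 * N) ^ 2 * Real.exp (-(1 / 2) * N) * Real.exp (-(1 / (2 * N ^ 2)) * t ^ 2) := by
        apply setIntegral_le_integral (hG.const_mul _)
        exact Filter.Eventually.of_forall (fun t => by positivity)
    _ = (3 * N) ^ 2 * Real.exp (-(1 / 2) * N) * √(Real.pi / (1 / (2 * N ^ 2))) := by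
        rw [integral_const_mul, integral_gaussian]
    _ ≤ (3 * N) ^ 2 * Real.exp (-(1 / 2) * N) * (3 * N) := by
        gcongr
        rw [show Real.pi / (1 / (2 * N ^ 2)) = Real.pi * (2 * N ^ 2) by field_simp]
        apply Real.sqrt_le_iff.mpr
        refine ⟨by positivity, ?_⟩
        have := Real.pi_lt_d2
        nlinarith [sq_nonneg N]
    _ = 27 * N ^ 2 * (N ^ 1 * Real.exp (-(1 / 2) * N)) := by ring
    _ ≤ 27 * N ^ 2 * (η / 100) := by gcongr
    _ ≤ η * N ^ 2 := by nlinarith [sq_nonneg N]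

/-- Matomaki-Radziwill at fixed `h`, key form (`T = N / h`). -/
theorem mr_core (f : ℕ → ℂ) (hf : CM f) (hpw : PW f) (η : ℝ) (hη : 0 < η) :
    ∃ h0 : ℝ, 1 ≤ h0 ∧ ∀ h : ℝ, h0 ≤ h → ∃ N0 : ℝ, 1 ≤ N0 ∧ ∀ N : ℝ, N0 ≤ N →
      ∫ t, ‖dp (blk N) f t‖ ^ 2 * gw (N / h) t ≤ η * N ^ 2 := by
  obtain ⟨ε0, N1, hε0, hN1, hTop⟩ := top_bound f hf hpw (η / 4) (by positivity)
  obtain ⟨Nt, hNt, hTail⟩ := tail_bound f hf (η / 4) (by positivity)
  set ε : ℝ := min (ε0 / 8) (1 / 4) with hεdef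
  have hε : 0 < ε := lt_min (by positivity) (by norm_num)
  have hε4 : ε ≤ 1 / 4 := min_le_right _ _
  have hε8 : 8 * ε ≤ ε0 := by
    have := min_le_left (ε0 / 8) (1 / 4 : ℝ)
    linarith
  obtain ⟨K1, hK1, hl1⟩ := level_one
  obtain ⟨A1, hA1, hl1⟩ := hl1 ε hε hε4
  obtain ⟨K2, hK2, hl2⟩ := level_ge
  obtain ⟨A2, hA2, hl2⟩ := hl2 ε hε hε4
  obtain ⟨A3, hA3, hl3⟩ := meas_bad
  set A : ℝ := max A1 (max A2 (max A3 (4 * (K1 + K2) / η))) with hAdef
  have hAA1 : A1 ≤ A := le_max_left _ _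
  have hAA2 : A2 ≤ A := (le_max_left _ _).trans (le_max_right _ _)
  have hAA3 : A3 ≤ A := (le_max_left _ _).trans ((le_max_right _ _).trans (le_max_right _ _))
  have hAA4 : 4 * (K1 + K2) / η ≤ A :=
    (le_max_right _ _).trans ((le_max_right _ _).trans (le_max_right _ _))
  have hA0 : 0 < A := by linarith
  have hKA : (K1 + K2) / A ≤ η / 4 := by
    rw [div_le_iff₀ hA0]
    rw [div_le_iff₀ hη] at hAA4
    linarith
  have hl1 := hl1 A hAA1
  have hl2 := hl2 A hAA2
  obtain ⟨Nm, hl3⟩ := hl3 A hAA3 ε hε hε4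
  refine ⟨Real.exp ((lp A 1) ^ 2), Real.one_le_exp (by positivity), fun h hh => ?_⟩
  have hh1 : 1 ≤ h := (Real.one_le_exp (by positivity)).trans hh
  have hev1 : ∀ᶠ N : ℝ in Filter.atTop, (lp A 1) ^ 2 ≤ √(Real.log N) :=
    (Real.tendsto_sqrt_atTop.comp Real.tendsto_log_atTop).eventually_ge_atTop _
  have hev2 : ∀ᶠ N : ℝ in Filter.atTop, 9 ≤ Real.log N :=
    Real.tendsto_log_atTop.eventually_ge_atTop _
  obtain ⟨Nx, hNx⟩ := Filter.eventually_atTop.mp (hev1.and hev2)
  refine ⟨max 1 (max N1 (max Nt (max Nm (max Nx h)))), le_max_left _ _, fun N hN => ?_⟩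
  have hb1 : 1 ≤ N := (le_max_left _ _).trans hN
  have hb2 : N1 ≤ N := ((le_max_left _ _).trans (le_max_right _ _)).trans hN
  have hb3 : Nt ≤ N :=
    ((le_max_left _ _).trans ((le_max_right _ _).trans (le_max_right _ _))).trans hN
  have hb4 : Nm ≤ N := ((le_max_left _ _).trans ((le_max_right _ _).trans
    ((le_max_right _ _).trans (le_max_right _ _)))).trans hN
  have hb5 : Nx ≤ N := ((le_max_left _ _).trans ((le_max_right _ _).trans
    ((le_max_right _ _).trans ((le_max_right _ _).trans (le_max_right _ _))))).trans hN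
  have hb6 : h ≤ N := ((le_max_right _ _).trans ((le_max_right _ _).trans
    ((le_max_right _ _).trans ((le_max_right _ _).trans (le_max_right _ _))))).trans hN
  obtain ⟨hs1, hs2⟩ := hNx N hb5
  have hN0 : 0 < N := by linarith
  have hlogN : Real.exp (Real.log N) = N := Real.exp_log hN0
  set T : ℝ := N / h with hTdef
  have hT1 : 1 ≤ T := by
    rw [hTdef, le_div_iff₀ (by linarith)]; linarith
  have hTN : T ≤ N := by
    rw [hTdef, div_le_iff₀ (by linarith)]; nlinarith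
  have hTe : T * Real.exp ((lp A 1) ^ 2) ≤ N := by
    rw [hTdef, div_mul_eq_mul_div, div_le_iff₀ (by linarith)]
    exact mul_le_mul_of_nonneg_left hh hN0.le
  set F : ℝ → ℝ := fun t => ‖dp (blk N) f t‖ ^ 2 * gw T t with hFdef
  have hFint : Integrable F := integrable_dp _ _ _ (by linarith)
  have hF0 : ∀ t, 0 ≤ F t := by
    intro t
    simp only [hFdef]
    unfold gw
    positivity
  -- the last level
  have hex : ∃ j : ℕ, √(Real.log N) < (lp A (j + 1)) ^ 2 := lp_tendsto A hA0 _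
  classical
  set J := Nat.find hex with hJdef
  have hJ1 : √(Real.log N) < (lp A (J + 1)) ^ 2 := Nat.find_spec hex
  have hJ0 : 1 ≤ J := by
    rcases Nat.eq_zero_or_pos J with h0 | h0
    · rw [h0] at hJ1
      simp only [zero_add] at hJ1
      linarith
    · exact h0
  have hJ2 : (lp A J) ^ 2 ≤ √(Real.log N) := by
    have := Nat.find_min hex (m := J - 1) (by omega)
    rw [not_lt] at this
    have e : J - 1 + 1 = J := by omega
    rwa [e] at this
  have hsq : 3 * √(Real.log N) ≤ Real.log N := by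
    have h3 : 3 ≤ √(Real.log N) := by
      rw [show (3 : ℝ) = √9 by rw [show (9 : ℝ) = 3 ^ 2 by norm_num]; simp]
      exact Real.sqrt_le_sqrt hs2
    have h4 : √(Real.log N) * √(Real.log N) = Real.log N :=
      Real.mul_self_sqrt (by linarith)
    nlinarith
  have hexp : ∀ j : ℕ, j ≤ J → Real.exp (3 * (lp A j) ^ 2) ≤ N := by
    intro j hj
    have h5 : (lp A j) ^ 2 ≤ (lp A J) ^ 2 :=
      pow_le_pow_left₀ (lp_pos A j).le (lp_mono A hA0.le hj) 2
    calc Real.exp (3 * (lp A j) ^ 2) ≤ Real.exp (Real.log N) := by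
          apply Real.exp_le_exp.mpr
          linarith
      _ = N := hlogN
  -- the good part
  have hgood : ∀ k : ℕ, 1 ≤ k → k ≤ J → ∫ t in {t | Good f A ε k t}, F t
      ≤ K1 / A * N ^ 2 + ∑ j ∈ Ico 1 k, K2 / A * (1 / 2) ^ j * N ^ 2 := by
    intro k hk
    induction k, hk using Nat.le_induction with
    | base =>
      intro _
      have := hl1 N T hT1 hTe (hexp 1 hJ0) f hf
      simpa using this
    | succ k hk ih =>
      intro hkJ
      have ih := ih (by omega)
      have hstep := hl2 k hk N T hT1 hTN (hexp (k + 1) hkJ) f hf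
      have hcov := setInt_cover F hFint hF0 {t | Good f A ε (k + 1) t}
        {t | Good f A ε k t} {t | Good f A ε (k + 1) t ∧ ¬ Good f A ε k t}
        (measurable_Good f A ε k)
        ((measurable_Good f A ε (k + 1)).inter (measurable_Good f A ε k).compl)
        (by
          intro t ht
          by_cases hg : Good f A ε k t
          · exact Or.inl hg
          · exact Or.inr ⟨ht, hg⟩)
      rw [Finset.sum_Ico_succ_top hk]
      linarith
  have hgoodJ := hgood J hJ0 le_rfl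
  have hgeom : ∑ j ∈ Ico 1 J, K2 / A * (1 / 2) ^ j * N ^ 2 ≤ K2 / A * N ^ 2 := by
    have e1 : ∑ j ∈ Ico 1 J, K2 / A * (1 / 2) ^ j * N ^ 2
        = K2 / A * N ^ 2 * ∑ j ∈ Ico 1 J, (1 / 2 : ℝ) ^ j := by
      rw [mul_sum]
      exact sum_congr rfl (fun j _ => by ring)
    rw [e1]
    have e2 : ∑ j ∈ Ico 1 J, (1 / 2 : ℝ) ^ j ≤ 1 := by
      have e3 : ∀ m : ℕ, 1 ≤ m → ∑ j ∈ Ico 1 m, (1 / 2 : ℝ) ^ j = 1 - (1 / 2) ^ (m - 1) := by
        intro m hm
        induction m, hm using Nat.le_induction with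
        | base => simp
        | succ m hm ih =>
          rw [Finset.sum_Ico_succ_top hm, ih]
          obtain ⟨r, rfl⟩ : ∃ r, m = r + 1 := ⟨m - 1, by omega⟩
          simp only [Nat.add_sub_cancel]
          ring
      rw [e3 J hJ0]
      have : (0 : ℝ) ≤ (1 / 2) ^ (J - 1) := by positivity
      linarith
    have e4 : 0 ≤ K2 / A * N ^ 2 := by positivity
    nlinarith
  -- the exceptional part
  set U : Set ℝ := {t : ℝ | |t| ≤ N ^ (3 / 2 : ℝ) ∧ ¬ Good f A ε J t} with hUdef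
  have hUm : MeasurableSet U :=
    (measurableSet_le continuous_abs.measurable measurable_const).inter
      (measurable_Good f A ε J).compl
  have hUv : (volume U).toReal ≤ N ^ ε0 := by
    refine (hl3 N hb4 J hJ0 hJ2 hJ1 f hf).trans ?_
    exact Real.rpow_le_rpow_of_exponent_le hb1 hε8
  have hUI : ∫ t in U, F t ≤ η / 4 * N ^ 2 :=
    hTop N hb2 U hUm (fun t ht => ht.1) hUv T hT1 hTN
  set V : Set ℝ := {t : ℝ | N ^ (3 / 2 : ℝ) < |t|} with hVdef
  have hVm : MeasurableSet V := measurableSet_lt measurable_const continuous_abs.measurable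
  have hVI : ∫ t in V, F t ≤ η / 4 * N ^ 2 := hTail N hb3 T (by linarith) hTN
  have hc1 := setInt_cover F hFint hF0 Set.univ {t | Good f A ε J t} (U ∪ V)
    (measurable_Good f A ε J) (hUm.union hVm)
    (by
      intro t _
      by_cases hg : Good f A ε J t
      · exact Or.inl hg
      · right
        by_cases ht : |t| ≤ N ^ (3 / 2 : ℝ)
        · exact Or.inl ⟨ht, hg⟩
        · exact Or.inr (not_le.mp ht))
  have hc2 := setInt_cover F hFint hF0 (U ∪ V) U V hUm hVm le_rfl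
  rw [setIntegral_univ] at hc1
  have hfin : (K1 / A * N ^ 2 + K2 / A * N ^ 2) ≤ η / 4 * N ^ 2 := by
    have : K1 / A * N ^ 2 + K2 / A * N ^ 2 = (K1 + K2) / A * N ^ 2 := by ring
    rw [this]
    exact mul_le_mul_of_nonneg_right hKA (by positivity)
  have hN2 : 0 ≤ N ^ 2 := by positivity
  nlinarith

end Pool.Agent.MR
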