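import Pool.Agent.MR.ATk

set_option autoImplicit false

open Finset

namespace Pool.Agent.MR

private theorem ni_mul (m n : ℕ) (hm : 0 < m) (hn : 0 < n) (t : ℝ) :
    ni (m * n) t = ni m t * ni n t := by
  unfold ni
  rw [← Complex.exp_add]
  congr 1
  have hm' : (m : ℝ) ≠ 0 := by positivity
  have hn' : (n : ℝ) ≠ 0 := by positivity
  push_cast
  rw [show Real.log ((m : ℝ) * (n : ℝ)) = Real.log m + Real.log n from Real.log_mul hm' hn']
  push_cast
  ring

/-- the scale attached to `p` -/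
private noncomputable def xp (H : ℕ) (N : ℝ) (p : ℕ) : ℝ :=
  N / Real.exp ((⌊(H : ℝ) * Real.log (p : ℝ)⌋₊ : ℝ) / H)

private noncomputable def rr (P : Finset ℕ) (H : ℕ) (N : ℝ) (n : ℕ) : ℕ :=
  (P.filter (fun p => p ∣ n ∧ n / p ∈ blk (xp H N p))).card

private theorem exp_le {p H : ℕ} (hp : 1 ≤ p) (hH : 1 ≤ H) :
    Real.exp ((⌊(H : ℝ) * Real.log (p : ℝ)⌋₊ : ℝ) / H) ≤ p := by
  have hp' : (1 : ℝ) ≤ p := by exact_mod_cast hp
  have hH' : (1 : ℝ) ≤ H := by exact_mod_cast hH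
  have hl : 0 ≤ Real.log (p : ℝ) := Real.log_nonneg hp'
  rw [← Real.le_log_iff_exp_le (by linarith)]
  rw [div_le_iff₀ (by linarith)]
  have := Nat.floor_le (mul_nonneg (by linarith : (0 : ℝ) ≤ H) hl)
  linarith

private theorem lt_exp {p H : ℕ} (hp : 1 ≤ p) (hH : 1 ≤ H) :
    (p : ℝ) < Real.exp ((⌊(H : ℝ) * Real.log (p : ℝ)⌋₊ : ℝ) / H) * Real.exp (1 / H) := by
  have hp' : (1 : ℝ) ≤ p := by exact_mod_cast hp
  have hH' : (1 : ℝ) ≤ H := by exact_mod_cast hH
  rw [← Real.exp_add, ← Real.log_lt_iff_lt_exp (by linarith)]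
  rw [← add_div, lt_div_iff₀ (by linarith)]
  have := Nat.lt_floor_add_one ((H : ℝ) * Real.log (p : ℝ))
  linarith

private theorem exp_one_div {H : ℕ} (hH : 1 ≤ H) : Real.exp (1 / (H : ℝ)) ≤ 1 + 2 / H := by
  have hH' : (1 : ℝ) ≤ H := by exact_mod_cast hH
  have hx0 : 0 ≤ 1 / (H : ℝ) := by positivity
  have hx1 : 1 / (H : ℝ) ≤ 1 := by
    rw [div_le_one (by linarith)]; exact hH'
  have h := Real.abs_exp_sub_one_sub_id_le (x := 1 / (H : ℝ)) (by rw [abs_of_nonneg hx0]; exact hx1)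
  have h2 := (abs_le.1 h).2
  have h3 : (1 / (H : ℝ)) ^ 2 ≤ 1 / (H : ℝ) := by nlinarith
  have h4 : (2 : ℝ) / H = 2 * (1 / H) := by ring
  rw [h4]
  linarith

private theorem one_le_exp_one_div (H : ℕ) : 1 ≤ Real.exp (1 / (H : ℝ)) :=
  Real.one_le_exp (by positivity)

private theorem mem_blk_iff {N : ℝ} (hN : 0 ≤ N) {m : ℕ} :
    m ∈ blk N ↔ N < m ∧ (m : ℝ) ≤ 3 * N := by
  unfold blk
  rw [mem_Ioc, Nat.floor_lt hN, Nat.le_floor_iff (by linarith)]

private theorem xp_pos {H : ℕ} {N : ℝ} (hN : 1 ≤ N) (p : ℕ) : 0 < xp H N p :=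
  div_pos (by linarith) (Real.exp_pos _)

/-- membership for the divisor condition: range of `n` -/
private theorem range_of_mem {H : ℕ} (hH : 1 ≤ H) {N : ℝ} (hN : 1 ≤ N) {p n : ℕ}
    (hp : 1 ≤ p) (hpn : p ∣ n) (h : n / p ∈ blk (xp H N p)) :
    N < n ∧ (n : ℝ) ≤ 3 * (N * Real.exp (1 / (H : ℝ))) := by
  obtain ⟨m, rfl⟩ := hpn
  rw [Nat.mul_div_cancel_left _ (by omega)] at h
  rw [mem_blk_iff (xp_pos hN p).le] at h
  have h1 := exp_le hp hH
  have h2 := lt_exp hp hH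
  unfold xp at h
  set E := Real.exp ((⌊(H : ℝ) * Real.log (p : ℝ)⌋₊ : ℝ) / H) with hE
  have hEpos : 0 < E := Real.exp_pos _
  obtain ⟨h3, h4⟩ := h
  rw [div_lt_iff₀ hEpos] at h3
  have hm0 : (0 : ℝ) ≤ m := by positivity
  constructor
  · push_cast
    calc N < m * E := h3
      _ ≤ m * p := by gcongr
      _ = p * m := by ring
  · push_cast
    have h5 : (m : ℝ) * E ≤ 3 * N := by
      calc (m : ℝ) * E ≤ (3 * (N / E)) * E := by gcongr
        _ = 3 * N := by field_simp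
    calc (p : ℝ) * m ≤ (E * Real.exp (1 / (H : ℝ))) * m := by
          gcongr
      _ = (m * E) * Real.exp (1 / (H : ℝ)) := by ring
      _ ≤ (3 * N) * Real.exp (1 / (H : ℝ)) := by gcongr
      _ = _ := by ring

private theorem mem_of_range {H : ℕ} (hH : 1 ≤ H) {N : ℝ} (hN : 1 ≤ N) {p n : ℕ}
    (hp : 1 ≤ p) (hpn : p ∣ n) (h1 : N * Real.exp (1 / (H : ℝ)) < n) (h2 : (n : ℝ) ≤ 3 * N) :
    n / p ∈ blk (xp H N p) := by
  obtain ⟨m, rfl⟩ := hpn
  rw [Nat.mul_div_cancel_left _ (by omega)]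
  rw [mem_blk_iff (xp_pos hN p).le]
  have h3 := exp_le hp hH
  have h4 := lt_exp hp hH
  unfold xp
  set E := Real.exp ((⌊(H : ℝ) * Real.log (p : ℝ)⌋₊ : ℝ) / H) with hE
  have hEpos : 0 < E := Real.exp_pos _
  have he1 := Real.exp_pos (1 / (H : ℝ))
  have hm0 : (0 : ℝ) ≤ m := by positivity
  push_cast at h1 h2
  constructor
  · rw [div_lt_iff₀ hEpos]
    have h5 : N * Real.exp (1 / (H : ℝ)) < (m * E) * Real.exp (1 / (H : ℝ)) := by
      have h6 : (p : ℝ) * m ≤ (E * Real.exp (1 / (H : ℝ))) * m := by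
        gcongr
      calc N * Real.exp (1 / (H : ℝ)) < p * m := h1
        _ ≤ (E * Real.exp (1 / (H : ℝ))) * m := h6
        _ = _ := by ring
    exact lt_of_mul_lt_mul_right h5 he1.le
  · have : 3 * (N / E) = (3 * N) / E := by ring
    rw [this, le_div_iff₀ hEpos]
    calc (m : ℝ) * E ≤ m * p := by gcongr
      _ = p * m := by ring
      _ ≤ 3 * N := h2

private theorem exp_one_lt_three : Real.exp 1 < 3 := by
  have := Real.exp_one_lt_d9
  linarith

private theorem exp_lt_three {H : ℕ} (hH : 1 ≤ H) : Real.exp (1 / (H : ℝ)) < 3 := by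
  have hH' : (1 : ℝ) ≤ H := by exact_mod_cast hH
  have : Real.exp (1 / (H : ℝ)) ≤ Real.exp 1 := by
    apply Real.exp_le_exp.2
    rw [div_le_one (by linarith)]; exact hH'
  linarith [exp_one_lt_three]

private theorem blk_pos {x : ℝ} {m : ℕ} (h : m ∈ blk x) : 1 ≤ m := by
  unfold blk at h
  rw [mem_Ioc] at h
  omega

/-- the main identity -/
private theorem sum_identity (G : ℕ → ℂ) (P : Finset ℕ) (hP : ∀ p ∈ P, 1 ≤ p) {H : ℕ}
    (hH : 1 ≤ H) {N : ℝ} (hN : 1 ≤ N) :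
    ∑ v ∈ vs H P, ∑ p ∈ pb H P v, ∑ m ∈ blk (N / Real.exp (v / H)), G (p * m)
      = ∑ n ∈ Icc 1 ⌊9 * N⌋₊, (rr P H N n : ℂ) * G n := by
  have h1 : ∑ v ∈ vs H P, ∑ p ∈ pb H P v, ∑ m ∈ blk (N / Real.exp (v / H)), G (p * m)
      = ∑ p ∈ P, ∑ m ∈ blk (xp H N p), G (p * m) := by
    rw [← Finset.sum_fiberwise_of_maps_to (s := P) (t := vs H P)
      (g := fun p : ℕ => ⌊(H : ℝ) * Real.log (p : ℝ)⌋₊)]
    · apply Finset.sum_congr rfl
      intro v hv
      apply Finset.sum_congr rfl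
      intro p hp
      have hp2 : ⌊(H : ℝ) * Real.log (p : ℝ)⌋₊ = v := by
        unfold pb at hp
        exact (mem_filter.1 hp).2
      unfold xp
      rw [hp2]
    · intro p hp
      exact mem_image_of_mem _ hp
  rw [h1]
  have h2 : ∀ p ∈ P, ∑ m ∈ blk (xp H N p), G (p * m)
      = ∑ n ∈ Icc 1 ⌊9 * N⌋₊, if p ∣ n ∧ n / p ∈ blk (xp H N p) then G n else 0 := by
    intro p hp
    have hp1 := hP p hp
    rw [← Finset.sum_filter]
    refine Finset.sum_nbij' (fun m => p * m) (fun n => n / p) ?_ ?_ ?_ ?_ ?_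
    · intro m hm
      have hd : p ∣ p * m := dvd_mul_right _ _
      have hm' : p * m / p = m := Nat.mul_div_cancel_left _ (by omega)
      have hr := range_of_mem hH hN hp1 hd (by rw [hm']; exact hm)
      simp only [mem_filter, mem_Icc]
      refine ⟨⟨?_, ?_⟩, hd, by rw [hm']; exact hm⟩
      · have := blk_pos hm
        exact Nat.mul_pos (by omega) (by omega)
      · apply Nat.le_floor
        have h3 := exp_lt_three hH
        have h4 : 3 * (N * Real.exp (1 / (H : ℝ))) ≤ 9 * N := by nlinarith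
        linarith [hr.2]
    · intro n hn
      simp only [mem_filter] at hn
      exact hn.2.2
    · intro m hm
      exact Nat.mul_div_cancel_left _ (by omega)
    · intro n hn
      simp only [mem_filter] at hn
      exact Nat.mul_div_cancel' hn.2.1
    · intro m hm
      rfl
  rw [Finset.sum_congr rfl h2, Finset.sum_comm]
  apply Finset.sum_congr rfl
  intro n hn
  unfold rr
  rw [← Finset.sum_filter, Finset.sum_const, nsmul_eq_mul]

private theorem rr_le_om (P : Finset ℕ) (H : ℕ) (N : ℝ) (n : ℕ) : rr P H N n ≤ om P n := by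
  unfold rr om
  apply card_le_card
  intro p hp
  simp only [mem_filter] at hp ⊢
  exact ⟨hp.1, hp.2.1⟩

private theorem rr_eq_om (P : Finset ℕ) (hP : ∀ p ∈ P, 1 ≤ p) {H : ℕ} (hH : 1 ≤ H) {N : ℝ}
    (hN : 1 ≤ N) {n : ℕ} (h1 : N * Real.exp (1 / (H : ℝ)) < n) (h2 : (n : ℝ) ≤ 3 * N) :
    rr P H N n = om P n := by
  unfold rr om
  congr 1
  apply Finset.filter_congr
  intro p hp
  constructor
  · exact fun h => h.1
  · exact fun h => ⟨h, mem_of_range hH hN (hP p hp) h h1 h2⟩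

private theorem rr_eq_zero (P : Finset ℕ) (hP : ∀ p ∈ P, 1 ≤ p) {H : ℕ} (hH : 1 ≤ H) {N : ℝ}
    (hN : 1 ≤ N) {n : ℕ} (h : (n : ℝ) ≤ N ∨ 3 * (N * Real.exp (1 / (H : ℝ))) < n) :
    rr P H N n = 0 := by
  unfold rr
  rw [card_eq_zero, filter_eq_empty_iff]
  intro p hp hc
  have := range_of_mem hH hN (hP p hp) hc.1 hc.2
  rcases h with h | h
  · linarith [this.1]
  · linarith [this.2]

private theorem sum_ite_le (s : Finset ℕ) (a b : ℕ) (F : ℕ → ℝ) (hF : ∀ n, 0 ≤ F n) :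
    ∑ n ∈ s, (if n ∈ Ioc a b then F n else 0) ≤ ∑ n ∈ Ioc a b, F n := by
  rw [Finset.sum_ite_mem]
  exact Finset.sum_le_sum_of_subset_of_nonneg Finset.inter_subset_right (fun n _ _ => hF n)

/-- Decomposition of `∑_{N<n≤3N} f(n) n^{-it}`. -/
theorem decomp : ∃ K : ℝ, 0 < K ∧ ∀ (f : ℕ → ℂ), CM f → ∀ (P : Finset ℕ), (∀ p ∈ P, p.Prime) →
    ∀ Z : ℕ, (∀ p ∈ P, p ≤ Z) → 1 ≤ rs P → ∀ H : ℕ, 1 ≤ H → ∀ N : ℝ, 1 ≤ N →
    ∃ e : ℕ → ℂ, (∀ t : ℝ, dp (blk N) f t = (1 / (rs P : ℂ)) *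
        ∑ v ∈ vs H P, dp (pb H P v) f t * dp (blk (N / Real.exp (v / H))) f t
          + dp (Icc 1 ⌊9 * N⌋₊) e t) ∧
      ∑ n ∈ Icc 1 ⌊9 * N⌋₊, ‖e n‖ ^ 2 ≤ K * (N / rs P + N / H + (Z : ℝ) ^ 2) := by
  refine ⟨100, by norm_num, ?_⟩
  intro f hf P hP Z hZ hL H hH N hN
  have hP1 : ∀ p ∈ P, 1 ≤ p := fun p hp => (hP p hp).one_lt.le
  set L := rs P with hLdef
  have hLpos : 0 < L := by linarith
  have hLC : (L : ℂ) ≠ 0 := by
    exact_mod_cast hLpos.ne'
  refine ⟨fun n => f n * ((if n ∈ blk N then 1 else 0) - (rr P H N n : ℂ) / L), ?_, ?_⟩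
  · intro t
    set G : ℕ → ℂ := fun n => f n * ni n t with hG
    have hA : ∑ v ∈ vs H P, dp (pb H P v) f t * dp (blk (N / Real.exp (v / H))) f t
        = ∑ n ∈ Icc 1 ⌊9 * N⌋₊, (rr P H N n : ℂ) * G n := by
      rw [← sum_identity G P hP1 hH hN]
      apply Finset.sum_congr rfl
      intro v hv
      unfold dp
      rw [Finset.sum_mul_sum]
      apply Finset.sum_congr rfl
      intro p hp
      apply Finset.sum_congr rfl
      intro m hm
      have hp0 : 0 < p := by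
        unfold pb at hp
        rw [mem_filter] at hp
        exact hP1 p hp.1
      have hm0 : 0 < m := blk_pos hm
      simp only [hG]
      rw [hf.mul p m hp0 hm0, ni_mul p m hp0 hm0]
      ring
    have hB : dp (blk N) f t = ∑ n ∈ Icc 1 ⌊9 * N⌋₊, if n ∈ blk N then G n else 0 := by
      rw [Finset.sum_ite_mem]
      have : Icc 1 ⌊9 * N⌋₊ ∩ blk N = blk N := by
        rw [Finset.inter_eq_right]
        intro n hn
        have h1 := blk_pos hn
        rw [mem_blk_iff (by linarith)] at hn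
        rw [mem_Icc]
        refine ⟨h1, Nat.le_floor ?_⟩
        linarith [hn.2]
      rw [this]
      rfl
    rw [hA, hB]
    unfold dp
    rw [Finset.mul_sum, ← Finset.sum_add_distrib]
    apply Finset.sum_congr rfl
    intro n hn
    simp only [hG]
    split_ifs
    · field_simp
      ring
    · field_simp
      ring
  · -- the error
    have hZ2 : 2 ≤ Z := by
      have hne : P.Nonempty := by
        rw [Finset.nonempty_iff_ne_empty]
        rintro rfl
        have : L = 0 := by simp [hLdef, rs]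
        linarith
      obtain ⟨p, hp⟩ := hne
      exact (hP p hp).two_le.trans (hZ p hp)
    have hZ2' : (2 : ℝ) ≤ Z := by exact_mod_cast hZ2
    have hH' : (1 : ℝ) ≤ H := by exact_mod_cast hH
    set E1 := Real.exp (1 / (H : ℝ)) with hE1
    have hE1a : 1 ≤ E1 := one_le_exp_one_div H
    have hE1b : E1 ≤ 1 + 2 / H := exp_one_div hH
    have hE1c : E1 < 3 := exp_lt_three hH
    set a := ⌊N⌋₊ with ha
    set b := ⌊N * E1⌋₊ with hb
    set c := ⌊3 * N⌋₊ with hc
    set d := ⌊3 * (N * E1)⌋₊ with hd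
    have hab : a ≤ b := Nat.floor_le_floor (by nlinarith)
    have hbc : b ≤ c := Nat.floor_le_floor (by nlinarith)
    have hcd : c ≤ d := Nat.floor_le_floor (by nlinarith)
    have ha1 : N - 1 < a := Nat.sub_one_lt_floor N
    have ha2 : (a : ℝ) ≤ N := Nat.floor_le (by linarith)
    have hb1 : N * E1 - 1 < b := Nat.sub_one_lt_floor _
    have hb2 : (b : ℝ) ≤ N * E1 := Nat.floor_le (by nlinarith)
    have hc1 : 3 * N - 1 < c := Nat.sub_one_lt_floor _
    have hc2 : (c : ℝ) ≤ 3 * N := Nat.floor_le (by linarith)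
    have hd2 : (d : ℝ) ≤ 3 * (N * E1) := Nat.floor_le (by nlinarith)
    have hq : ∀ n ∈ Icc 1 ⌊9 * N⌋₊,
        ‖f n * ((if n ∈ blk N then 1 else 0) - (rr P H N n : ℂ) / L)‖ ^ 2 ≤
          (if n ∈ Ioc a b then (1 + (om P n : ℝ) ^ 2 / L ^ 2) else 0)
          + (if n ∈ Ioc b c then (((om P n : ℝ) - L) ^ 2 / L ^ 2) else 0)
          + (if n ∈ Ioc c d then ((om P n : ℝ) ^ 2 / L ^ 2) else 0) := by
      intro n hn
      have hfn := hf.norm_le n
      have hnorm : ‖f n * ((if n ∈ blk N then 1 else 0) - (rr P H N n : ℂ) / L)‖ ^ 2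
          ≤ ((if n ∈ blk N then (1 : ℝ) else 0) - (rr P H N n : ℝ) / L) ^ 2 := by
        rw [norm_mul, mul_pow]
        have h1 : ‖((if n ∈ blk N then (1 : ℂ) else 0) - (rr P H N n : ℂ) / L)‖ ^ 2
            = ((if n ∈ blk N then (1 : ℝ) else 0) - (rr P H N n : ℝ) / L) ^ 2 := by
          have h2 : ((if n ∈ blk N then (1 : ℂ) else 0) - (rr P H N n : ℂ) / L)
              = (((if n ∈ blk N then (1 : ℝ) else 0) - (rr P H N n : ℝ) / L : ℝ) : ℂ) := by
            push_cast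
            split_ifs <;> simp
          rw [h2, Complex.norm_real, Real.norm_eq_abs, sq_abs]
        rw [h1]
        have h3 : ‖f n‖ ^ 2 ≤ 1 := by
          have := norm_nonneg (f n)
          nlinarith
        calc ‖f n‖ ^ 2 * ((if n ∈ blk N then (1 : ℝ) else 0) - (rr P H N n : ℝ) / L) ^ 2
            ≤ 1 * ((if n ∈ blk N then (1 : ℝ) else 0) - (rr P H N n : ℝ) / L) ^ 2 := by
              gcongr
          _ = _ := one_mul _
      refine hnorm.trans ?_
      have hrle : (rr P H N n : ℝ) ≤ om P n := by exact_mod_cast rr_le_om P H N n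
      have hr0 : (0 : ℝ) ≤ rr P H N n := by positivity
      have ho0 : (0 : ℝ) ≤ om P n := by positivity
      have hrL : (rr P H N n : ℝ) / L ≤ (om P n : ℝ) / L := by gcongr
      have hrL0 : 0 ≤ (rr P H N n : ℝ) / L := by positivity
      have hsq : ((rr P H N n : ℝ) / L) ^ 2 ≤ (om P n : ℝ) ^ 2 / L ^ 2 := by
        rw [← div_pow]
        gcongr
      simp only [mem_Ioc]
      rcases le_or_gt n a with h1 | h1
      · -- n ≤ a
        have hnN : (n : ℝ) ≤ N := by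
          have : (n : ℝ) ≤ a := by exact_mod_cast h1
          linarith
        have hnot : n ∉ blk N := by
          rw [mem_blk_iff (by linarith)]
          intro h
          linarith [h.1]
        rw [if_neg hnot, rr_eq_zero P hP1 hH hN (Or.inl hnN)]
        rw [if_neg (show ¬ (a < n ∧ n ≤ b) by omega), if_neg (show ¬ (b < n ∧ n ≤ c) by omega),
          if_neg (show ¬ (c < n ∧ n ≤ d) by omega)]
        simp
      rcases le_or_gt n b with h2 | h2
      · rw [if_pos (show a < n ∧ n ≤ b from ⟨h1, h2⟩), if_neg (show ¬ (b < n ∧ n ≤ c) by omega),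
          if_neg (show ¬ (c < n ∧ n ≤ d) by omega)]
        have : ((if n ∈ blk N then (1 : ℝ) else 0) - (rr P H N n : ℝ) / L) ^ 2
            ≤ 1 + ((rr P H N n : ℝ) / L) ^ 2 := by
          split_ifs
          · nlinarith
          · nlinarith
        linarith
      rcases le_or_gt n c with h3 | h3
      · rw [if_neg (show ¬ (a < n ∧ n ≤ b) by omega), if_pos (show b < n ∧ n ≤ c from ⟨h2, h3⟩),
          if_neg (show ¬ (c < n ∧ n ≤ d) by omega)]
        have h4 : N * E1 < n := (Nat.floor_lt (by nlinarith)).1 h2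
        have h5 : (n : ℝ) ≤ 3 * N := (Nat.le_floor_iff (by linarith)).1 h3
        have hin : n ∈ blk N := by
          rw [mem_blk_iff (by linarith)]
          constructor
          · nlinarith
          · exact h5
        rw [if_pos hin, rr_eq_om P hP1 hH hN h4 h5]
        rw [← div_pow]
        have : (1 - (om P n : ℝ) / L) ^ 2 = (((om P n : ℝ) - L) / L) ^ 2 := by
          field_simp
          ring
        rw [this]
        simp
      rcases le_or_gt n d with h4 | h4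
      · rw [if_neg (show ¬ (a < n ∧ n ≤ b) by omega), if_neg (show ¬ (b < n ∧ n ≤ c) by omega),
          if_pos (show c < n ∧ n ≤ d from ⟨h3, h4⟩)]
        have h5 : 3 * N < n := (Nat.floor_lt (by nlinarith)).1 h3
        have hnot : n ∉ blk N := by
          rw [mem_blk_iff (by linarith)]
          intro h
          linarith [h.2]
        rw [if_neg hnot]
        simp only [zero_sub, neg_sq, zero_add]
        exact hsq
      · rw [if_neg (show ¬ (a < n ∧ n ≤ b) by omega), if_neg (show ¬ (b < n ∧ n ≤ c) by omega),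
          if_neg (show ¬ (c < n ∧ n ≤ d) by omega)]
        have h5 : 3 * (N * E1) < n := (Nat.floor_lt (by nlinarith)).1 h4
        have hnot : n ∉ blk N := by
          rw [mem_blk_iff (by linarith)]
          intro h
          have := h.2
          nlinarith
        rw [if_neg hnot, rr_eq_zero P hP1 hH hN (Or.inr h5)]
        simp
    refine (Finset.sum_le_sum hq).trans ?_
    rw [Finset.sum_add_distrib, Finset.sum_add_distrib]
    have hS1 := sum_ite_le (Icc 1 ⌊9 * N⌋₊) a b (fun n => 1 + (om P n : ℝ) ^ 2 / L ^ 2)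
      (fun n => by positivity)
    have hS2 := sum_ite_le (Icc 1 ⌊9 * N⌋₊) b c (fun n => ((om P n : ℝ) - L) ^ 2 / L ^ 2)
      (fun n => by positivity)
    have hS3 := sum_ite_le (Icc 1 ⌊9 * N⌋₊) c d (fun n => (om P n : ℝ) ^ 2 / L ^ 2)
      (fun n => by positivity)
    have hT1 := tk_sq P hP Z hZ a b hab
    have hT2 := tk P hP Z hZ b c hbc
    have hT3 := tk_sq P hP Z hZ c d hcd
    rw [← hLdef] at hT1 hT2 hT3
    have hL2 : 1 ≤ L ^ 2 := by nlinarith
    have habr : (b : ℝ) - a ≤ 2 * N / H + 1 := by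
      have : N * E1 ≤ N * (1 + 2 / H) := by gcongr
      have h2 : N * (1 + 2 / H) = N + 2 * N / H := by ring
      linarith
    have hcdr : (d : ℝ) - c ≤ 6 * N / H + 1 := by
      have : 3 * (N * E1) ≤ 3 * (N * (1 + 2 / H)) := by gcongr
      have h2 : 3 * (N * (1 + 2 / H)) = 3 * N + 6 * N / H := by ring
      linarith
    have hbcr : (c : ℝ) - b ≤ 3 * N := by
      have : N ≤ N * E1 := by nlinarith
      linarith
    have hab0 : (0 : ℝ) ≤ (b : ℝ) - a := by
      have : (a : ℝ) ≤ b := by exact_mod_cast hab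
      linarith
    have hcd0 : (0 : ℝ) ≤ (d : ℝ) - c := by
      have : (c : ℝ) ≤ d := by exact_mod_cast hcd
      linarith
    have hU1 : ∑ n ∈ Ioc a b, (1 + (om P n : ℝ) ^ 2 / L ^ 2)
        ≤ 5 * ((b : ℝ) - a) + 8 * (Z : ℝ) ^ 2 := by
      rw [Finset.sum_add_distrib, ← Finset.sum_div]
      have h1 : ∑ n ∈ Ioc a b, (1 : ℝ) = (b : ℝ) - a := by
        rw [Finset.sum_const, Nat.card_Ioc, nsmul_eq_mul, mul_one, Nat.cast_sub hab]
      rw [h1]
      have h2 : (∑ n ∈ Ioc a b, (om P n : ℝ) ^ 2) / L ^ 2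
          ≤ (2 * ((b : ℝ) - a) * (L ^ 2 + L) + 8 * (Z : ℝ) ^ 2) / L ^ 2 := by gcongr
      have h3 : (2 * ((b : ℝ) - a) * (L ^ 2 + L) + 8 * (Z : ℝ) ^ 2) / L ^ 2
          ≤ 4 * ((b : ℝ) - a) + 8 * (Z : ℝ) ^ 2 := by
        rw [div_le_iff₀ (by positivity)]
        have h4 : L ^ 2 + L ≤ 2 * L ^ 2 := by nlinarith
        have h5 : 2 * ((b : ℝ) - a) * (L ^ 2 + L) ≤ 2 * ((b : ℝ) - a) * (2 * L ^ 2) := by
          gcongr
        have h6 : 8 * (Z : ℝ) ^ 2 ≤ 8 * (Z : ℝ) ^ 2 * L ^ 2 := by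
          have : (0 : ℝ) ≤ (Z : ℝ) ^ 2 := by positivity
          nlinarith
        nlinarith
      linarith
    have hU3 : ∑ n ∈ Ioc c d, ((om P n : ℝ) ^ 2 / L ^ 2)
        ≤ 4 * ((d : ℝ) - c) + 8 * (Z : ℝ) ^ 2 := by
      rw [← Finset.sum_div]
      have h2 : (∑ n ∈ Ioc c d, (om P n : ℝ) ^ 2) / L ^ 2
          ≤ (2 * ((d : ℝ) - c) * (L ^ 2 + L) + 8 * (Z : ℝ) ^ 2) / L ^ 2 := by gcongr
      refine h2.trans ?_
      rw [div_le_iff₀ (by positivity)]
      have h4 : L ^ 2 + L ≤ 2 * L ^ 2 := by nlinarith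
      have h5 : 2 * ((d : ℝ) - c) * (L ^ 2 + L) ≤ 2 * ((d : ℝ) - c) * (2 * L ^ 2) := by
        gcongr
      have h6 : 8 * (Z : ℝ) ^ 2 ≤ 8 * (Z : ℝ) ^ 2 * L ^ 2 := by
        have : (0 : ℝ) ≤ (Z : ℝ) ^ 2 := by positivity
        nlinarith
      nlinarith
    have hU2 : ∑ n ∈ Ioc b c, (((om P n : ℝ) - L) ^ 2 / L ^ 2)
        ≤ 3 * (N / L) + 4 * (Z : ℝ) ^ 2 := by
      rw [← Finset.sum_div]
      have h2 : (∑ n ∈ Ioc b c, ((om P n : ℝ) - L) ^ 2) / L ^ 2
          ≤ (((c : ℝ) - b) * L + 4 * (Z : ℝ) ^ 2) / L ^ 2 := by gcongr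
      refine h2.trans ?_
      rw [div_le_iff₀ (by positivity)]
      have h3 : ((c : ℝ) - b) * L ≤ 3 * N * L := by gcongr
      have h4 : 3 * (N / L) * L ^ 2 = 3 * N * L := by
        field_simp
      have h6 : 4 * (Z : ℝ) ^ 2 ≤ 4 * (Z : ℝ) ^ 2 * L ^ 2 := by
        have : (0 : ℝ) ≤ (Z : ℝ) ^ 2 := by positivity
        nlinarith
      nlinarith
    have hZsq : (4 : ℝ) ≤ (Z : ℝ) ^ 2 := by nlinarith
    have hNL : 0 ≤ N / L := by positivity
    have hNH : 0 ≤ N / H := by positivity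
    have e1 : 2 * N / H = 2 * (N / H) := by ring
    have e2 : 6 * N / H = 6 * (N / H) := by ring
    rw [e1] at habr
    rw [e2] at hcdr
    linarith
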