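import Pool.Agent.MR.AMvt

set_option autoImplicit false

open Finset MeasureTheory

namespace Pool.Agent.MR

open scoped ComplexConjugate

theorem sch_ni_mul (n : ℕ) (t t' : ℝ) : ni n t * conj (ni n t') = ni n (t - t') := by
  unfold ni
  rw [← Complex.exp_conj, ← Complex.exp_add]
  congr 1
  simp only [map_mul, map_neg, Complex.conj_ofReal, Complex.conj_I]
  push_cast
  ring

theorem sch_ni_conj (n : ℕ) (u : ℝ) : conj (ni n u) = ni n (-u) := by
  unfold ni
  rw [← Complex.exp_conj]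
  congr 1
  simp only [map_mul, map_neg, Complex.conj_ofReal, Complex.conj_I]
  push_cast
  ring

theorem sch_norm_ni (n : ℕ) (t : ℝ) : ‖ni n t‖ = 1 := by
  unfold ni
  have h : -((t * Real.log n : ℝ) : ℂ) * Complex.I = ((-(t * Real.log n) : ℝ) : ℂ) * Complex.I := by
    push_cast; ring
  rw [h, Complex.norm_exp_ofReal_mul_I]

theorem sch_continuous_ni (n : ℕ) : Continuous (ni n) := by
  unfold ni
  fun_prop

/-- the kernel -/
noncomputable def sch_K (ν : ℕ → ℝ) (Y : ℕ) (u : ℝ) : ℂ := ∑ n ∈ Icc 1 Y, (ν n : ℂ) * ni n u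

theorem sch_K_cont (ν : ℕ → ℝ) (Y : ℕ) : Continuous (sch_K ν Y) := by
  unfold sch_K
  apply continuous_finsetSum
  intro n _
  exact continuous_const.mul (sch_continuous_ni n)

theorem sch_K_symm (ν : ℕ → ℝ) (Y : ℕ) (u : ℝ) : ‖sch_K ν Y (-u)‖ = ‖sch_K ν Y u‖ := by
  have : sch_K ν Y (-u) = conj (sch_K ν Y u) := by
    unfold sch_K
    rw [map_sum]
    apply sum_congr rfl
    intro n _
    rw [map_mul, Complex.conj_ofReal, sch_ni_conj]
  rw [this, Complex.norm_conj]

theorem sch_K_bound (ν : ℕ → ℝ) (Y : ℕ) (hν : ∀ n, 0 ≤ ν n) (u : ℝ) :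
    ‖sch_K ν Y u‖ ≤ ∑ n ∈ Icc 1 Y, ν n := by
  unfold sch_K
  refine (norm_sum_le _ _).trans ?_
  apply sum_le_sum
  intro n _
  rw [norm_mul, sch_norm_ni, mul_one, Complex.norm_real, Real.norm_of_nonneg (hν n)]

/-- Schur test. -/
theorem schur (S : Finset ℕ) (c : ℕ → ℂ) (ν : ℕ → ℝ) (Y : ℕ) (hν : ∀ n, 0 ≤ ν n)
    (hS : ∀ p ∈ S, p ∈ Icc 1 Y ∧ 1 ≤ ν p) (U : Set ℝ) (hU : MeasurableSet U) (T : ℝ)
    (hUT : ∀ t ∈ U, |t| ≤ T) (B : ℝ) (hB0 : 0 ≤ B)
    (hB : ∀ t ∈ U, ∫ t' in U, ‖∑ n ∈ Icc 1 Y, (ν n : ℂ) * ni n (t' - t)‖ ≤ B) :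
    ∫ t in U, ‖dp S c t‖ ^ 2 ≤ (∑ p ∈ S, ‖c p‖ ^ 2) * B := by
  classical
  set μ := volume.restrict U with hμ
  have hfin : IsFiniteMeasure μ := by
    refine ⟨?_⟩
    rw [hμ, Measure.restrict_apply_univ]
    have hsub : U ⊆ Set.Icc (-T) T := fun t ht => abs_le.1 (hUT t ht)
    exact (measure_mono hsub).trans_lt (by rw [Real.volume_Icc]; exact ENNReal.ofReal_lt_top)
  set D : ℝ → ℂ := dp S c with hD
  have hDc : Continuous D := continuous_dp S c
  set Q := ∑ n ∈ S, ‖c n‖ with hQ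
  have hQ0 : 0 ≤ Q := sum_nonneg (fun n _ => norm_nonneg _)
  have hDb : ∀ t, ‖D t‖ ≤ Q := fun t => norm_dp_le S c t
  -- integrability of continuous bounded functions
  have hint : ∀ (g : ℝ → ℂ) (R : ℝ), Continuous g → (∀ t, ‖g t‖ ≤ R) → Integrable g μ := by
    intro g R hg hR
    exact Integrable.of_bound hg.aestronglyMeasurable R (Filter.Eventually.of_forall hR)
  have hintR : ∀ (g : ℝ → ℝ) (R : ℝ), Continuous g → (∀ t, ‖g t‖ ≤ R) → Integrable g μ := by
    intro g R hg hR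
    exact Integrable.of_bound hg.aestronglyMeasurable R (Filter.Eventually.of_forall hR)
  have hint2 : ∀ (g : ℝ × ℝ → ℝ) (R : ℝ), Continuous g → (∀ t, ‖g t‖ ≤ R) →
      Integrable g (μ.prod μ) := by
    intro g R hg hR
    exact Integrable.of_bound hg.aestronglyMeasurable R (Filter.Eventually.of_forall hR)
  set b : ℕ → ℂ := fun n => ∫ t, conj (D t) * ni n t ∂μ with hb
  set I := ∫ t, ‖D t‖ ^ 2 ∂μ with hI
  have hI0 : 0 ≤ I := integral_nonneg (fun t => by positivity)
  have hcD : Continuous (fun t => conj (D t)) := Complex.continuous_conj.comp hDc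
  have hterm : ∀ n, Integrable (fun t => conj (D t) * ni n t) μ := by
    intro n
    refine hint (fun t => conj (D t) * ni n t) Q (hcD.mul (sch_continuous_ni n)) ?_
    intro t
    rw [norm_mul, sch_norm_ni, mul_one, Complex.norm_conj]
    exact hDb t
  have htermc : ∀ n, Integrable (fun t => conj (conj (D t) * ni n t)) μ := by
    intro n
    refine hint (fun t => conj (conj (D t) * ni n t)) Q
      (Complex.continuous_conj.comp (hcD.mul (sch_continuous_ni n))) ?_
    intro t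
    rw [Complex.norm_conj, norm_mul, sch_norm_ni, mul_one, Complex.norm_conj]
    exact hDb t
  -- `I` in terms of `b`
  have hIb : (I : ℂ) = ∑ p ∈ S, c p * b p := by
    rw [hI, ← integral_complex_ofReal]
    have e1 : ∀ t, ((‖D t‖ ^ 2 : ℝ) : ℂ) = ∑ p ∈ S, c p * (conj (D t) * ni p t) := by
      intro t
      have e2 : ((‖D t‖ ^ 2 : ℝ) : ℂ) = conj (D t) * D t := by
        rw [Complex.conj_mul']
        push_cast
        rfl
      rw [e2]
      conv_lhs => rw [hD]
      unfold dp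
      rw [mul_sum]
      apply sum_congr rfl
      intro p _
      rw [hD]
      unfold dp
      ring
    simp_rw [e1]
    rw [integral_finsetSum]
    · apply sum_congr rfl
      intro p _
      rw [integral_const_mul]
    · intro p _
      exact (hterm p).const_mul _
  have hIle : I ≤ ∑ p ∈ S, ‖c p‖ * ‖b p‖ := by
    have h1 : ‖(I : ℂ)‖ = I := by rw [Complex.norm_real, Real.norm_of_nonneg hI0]
    rw [← h1, hIb]
    refine (norm_sum_le _ _).trans ?_
    apply sum_le_sum
    intro p _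
    rw [norm_mul]
  -- the quadratic form
  have hquad : ∑ n ∈ Icc 1 Y, ν n * ‖b n‖ ^ 2 ≤ B * I := by
    have e1 : ((∑ n ∈ Icc 1 Y, ν n * ‖b n‖ ^ 2 : ℝ) : ℂ) =
        ∫ t, ∫ t', conj (D t) * D t' * sch_K ν Y (t - t') ∂μ ∂μ := by
      have e2 : ∀ t t', conj (D t) * D t' * sch_K ν Y (t - t') =
          ∑ n ∈ Icc 1 Y, ((ν n : ℂ) * (conj (D t) * ni n t)) * conj (conj (D t') * ni n t') := by
        intro t t'
        unfold sch_K
        rw [mul_sum]
        apply sum_congr rfl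
        intro n _
        rw [← sch_ni_mul, map_mul, Complex.conj_conj]
        ring
      simp_rw [e2]
      have e3 : ∀ t, ∫ t', ∑ n ∈ Icc 1 Y, ((ν n : ℂ) * (conj (D t) * ni n t)) *
          conj (conj (D t') * ni n t') ∂μ =
          ∑ n ∈ Icc 1 Y, ((ν n : ℂ) * (conj (D t) * ni n t)) * conj (b n) := by
        intro t
        rw [integral_finsetSum]
        · apply sum_congr rfl
          intro n _
          rw [integral_const_mul, integral_conj]
        · intro n _
          apply Integrable.const_mul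
          exact htermc n
      simp_rw [e3]
      rw [integral_finsetSum]
      · push_cast
        apply sum_congr rfl
        intro n _
        rw [integral_mul_const, integral_const_mul]
        rw [mul_assoc, Complex.mul_conj']
      · intro n _
        exact ((hterm n).const_mul _).mul_const _
    set R := ∑ n ∈ Icc 1 Y, ν n with hR
    have hR0 : 0 ≤ R := sum_nonneg (fun n _ => hν n)
    have hKc : Continuous (fun x : ℝ × ℝ => ‖sch_K ν Y (x.1 - x.2)‖) :=
      ((sch_K_cont ν Y).comp (continuous_fst.sub continuous_snd)).norm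
    have hsec : ∀ t ∈ U, ∫ t', ‖sch_K ν Y (t - t')‖ ∂μ ≤ B := by
      intro t ht
      have h1 := hB t ht
      refine le_trans (le_of_eq ?_) h1
      apply integral_congr_ae
      filter_upwards with t'
      rw [← sch_K_symm, neg_sub]
      rfl
    -- first half
    have hA1 : ∫ t, ∫ t', ‖D t‖ ^ 2 * ‖sch_K ν Y (t - t')‖ ∂μ ∂μ ≤ B * I := by
      have h1 : ∀ t, ∫ t', ‖D t‖ ^ 2 * ‖sch_K ν Y (t - t')‖ ∂μ =
          ‖D t‖ ^ 2 * ∫ t', ‖sch_K ν Y (t - t')‖ ∂μ := by
        intro t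
        rw [integral_const_mul]
      rw [hI, ← integral_const_mul]
      apply integral_mono_ae
      · have h2 := (hint2 (fun x => ‖D x.1‖ ^ 2 * ‖sch_K ν Y (x.1 - x.2)‖) (Q ^ 2 * R)
          (((hDc.comp continuous_fst).norm.pow 2).mul hKc) (by
            intro x
            rw [Real.norm_of_nonneg (by positivity)]
            have := hDb x.1
            have := sch_K_bound ν Y hν (x.1 - x.2)
            gcongr))
        exact h2.integral_prod_left
      · apply (hintR (fun t => ‖D t‖ ^ 2) (Q ^ 2) (hDc.norm.pow 2) ?_).const_mul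
        intro t
        rw [Real.norm_of_nonneg (by positivity)]
        have := hDb t
        gcongr
      · rw [hμ]
        filter_upwards [ae_restrict_mem hU] with t ht
        rw [← hμ, h1 t, mul_comm B]
        apply mul_le_mul_of_nonneg_left (hsec t ht) (by positivity)
    have hA2 : ∫ t, ∫ t', ‖D t'‖ ^ 2 * ‖sch_K ν Y (t - t')‖ ∂μ ∂μ ≤ B * I := by
      rw [integral_integral_swap]
      · refine le_trans (le_of_eq ?_) hA1
        apply integral_congr_ae
        filter_upwards with t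
        apply integral_congr_ae
        filter_upwards with t'
        rw [← sch_K_symm, neg_sub]
      · exact hint2 (fun x => ‖D x.2‖ ^ 2 * ‖sch_K ν Y (x.1 - x.2)‖) (Q ^ 2 * R)
          (((hDc.comp continuous_snd).norm.pow 2).mul hKc) (by
            intro x
            rw [Real.norm_of_nonneg (by positivity)]
            have := hDb x.2
            have := sch_K_bound ν Y hν (x.1 - x.2)
            gcongr)
    have hnn : 0 ≤ ∑ n ∈ Icc 1 Y, ν n * ‖b n‖ ^ 2 :=
      sum_nonneg (fun n _ => mul_nonneg (hν n) (by positivity))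
    have hnorm : ∑ n ∈ Icc 1 Y, ν n * ‖b n‖ ^ 2 =
        ‖((∑ n ∈ Icc 1 Y, ν n * ‖b n‖ ^ 2 : ℝ) : ℂ)‖ := by
      rw [Complex.norm_real, Real.norm_of_nonneg hnn]
    rw [hnorm, e1]
    have hb1 : ∀ x : ℝ × ℝ, ‖(‖D x.1‖ ^ 2 * ‖sch_K ν Y (x.1 - x.2)‖)‖ ≤ Q ^ 2 * R := by
      intro x
      rw [Real.norm_of_nonneg (by positivity)]
      have := hDb x.1
      have := sch_K_bound ν Y hν (x.1 - x.2)
      gcongr
    have hb2 : ∀ x : ℝ × ℝ, ‖(‖D x.2‖ ^ 2 * ‖sch_K ν Y (x.1 - x.2)‖)‖ ≤ Q ^ 2 * R := by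
      intro x
      rw [Real.norm_of_nonneg (by positivity)]
      have := hDb x.2
      have := sch_K_bound ν Y hν (x.1 - x.2)
      gcongr
    have hI1 := hint2 (fun x => ‖D x.1‖ ^ 2 * ‖sch_K ν Y (x.1 - x.2)‖) (Q ^ 2 * R)
          (((hDc.comp continuous_fst).norm.pow 2).mul hKc) hb1
    have hI2 := hint2 (fun x => ‖D x.2‖ ^ 2 * ‖sch_K ν Y (x.1 - x.2)‖) (Q ^ 2 * R)
          (((hDc.comp continuous_snd).norm.pow 2).mul hKc) hb2
    have hI12 : Integrable (fun x : ℝ × ℝ => (1 / 2 : ℝ) * (‖D x.1‖ ^ 2 * ‖sch_K ν Y (x.1 - x.2)‖) +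
        (1 / 2 : ℝ) * (‖D x.2‖ ^ 2 * ‖sch_K ν Y (x.1 - x.2)‖)) (μ.prod μ) :=
      (hI1.const_mul _).add (hI2.const_mul _)
    have hsecint1 : ∀ t, Integrable (fun t' => ‖D t‖ ^ 2 * ‖sch_K ν Y (t - t')‖) μ := by
      intro t
      apply hintR _ (Q ^ 2 * R)
      · exact continuous_const.mul ((sch_K_cont ν Y).comp (continuous_const.sub continuous_id)).norm
      · intro t'
        exact hb1 (t, t')
    have hsecint2 : ∀ t, Integrable (fun t' => ‖D t'‖ ^ 2 * ‖sch_K ν Y (t - t')‖) μ := by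
      intro t
      apply hintR _ (Q ^ 2 * R)
      · exact (hDc.norm.pow 2).mul ((sch_K_cont ν Y).comp (continuous_const.sub continuous_id)).norm
      · intro t'
        exact hb2 (t, t')
    calc ‖∫ t, ∫ t', conj (D t) * D t' * sch_K ν Y (t - t') ∂μ ∂μ‖
        ≤ ∫ t, ‖∫ t', conj (D t) * D t' * sch_K ν Y (t - t') ∂μ‖ ∂μ := norm_integral_le_integral_norm _
      _ ≤ ∫ t, ∫ t', ((1 / 2 : ℝ) * (‖D t‖ ^ 2 * ‖sch_K ν Y (t - t')‖) +
            (1 / 2 : ℝ) * (‖D t'‖ ^ 2 * ‖sch_K ν Y (t - t')‖)) ∂μ ∂μ := by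
          apply integral_mono_of_nonneg
          · exact Filter.Eventually.of_forall (fun t => norm_nonneg _)
          · exact hI12.integral_prod_left
          · apply Filter.Eventually.of_forall
            intro t
            refine (norm_integral_le_integral_norm _).trans ?_
            apply integral_mono_of_nonneg
            · exact Filter.Eventually.of_forall (fun t' => norm_nonneg _)
            · exact ((hsecint1 t).const_mul _).add ((hsecint2 t).const_mul _)
            · apply Filter.Eventually.of_forall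
              intro t'
              dsimp only
              rw [norm_mul, norm_mul, Complex.norm_conj]
              have h1 : ‖D t‖ * ‖D t'‖ ≤ 1 / 2 * ‖D t‖ ^ 2 + 1 / 2 * ‖D t'‖ ^ 2 := by
                nlinarith [sq_nonneg (‖D t‖ - ‖D t'‖)]
              have h2 := norm_nonneg (sch_K ν Y (t - t'))
              nlinarith [mul_le_mul_of_nonneg_right h1 h2]
      _ = (1 / 2 : ℝ) * ∫ t, ∫ t', ‖D t‖ ^ 2 * ‖sch_K ν Y (t - t')‖ ∂μ ∂μ +
            (1 / 2 : ℝ) * ∫ t, ∫ t', ‖D t'‖ ^ 2 * ‖sch_K ν Y (t - t')‖ ∂μ ∂μ := by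
          have h1 : ∀ t, ∫ t', ((1 / 2 : ℝ) * (‖D t‖ ^ 2 * ‖sch_K ν Y (t - t')‖) +
              (1 / 2 : ℝ) * (‖D t'‖ ^ 2 * ‖sch_K ν Y (t - t')‖)) ∂μ =
              (1 / 2 : ℝ) * ∫ t', ‖D t‖ ^ 2 * ‖sch_K ν Y (t - t')‖ ∂μ +
              (1 / 2 : ℝ) * ∫ t', ‖D t'‖ ^ 2 * ‖sch_K ν Y (t - t')‖ ∂μ := by
            intro t
            rw [integral_add ((hsecint1 t).const_mul _) ((hsecint2 t).const_mul _)]
            congr 1
            · exact integral_const_mul _ _
            · exact integral_const_mul _ _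
          simp_rw [h1]
          rw [integral_add]
          · congr 1
            · exact integral_const_mul _ _
            · exact integral_const_mul _ _
          · exact hI1.integral_prod_left.const_mul _
          · exact hI2.integral_prod_left.const_mul _
      _ ≤ B * I := by linarith
  -- conclusion
  have hbS : ∑ p ∈ S, ‖b p‖ ^ 2 ≤ B * I := by
    refine le_trans ?_ hquad
    have h1 : ∑ p ∈ S, ‖b p‖ ^ 2 ≤ ∑ p ∈ S, ν p * ‖b p‖ ^ 2 := by
      apply sum_le_sum
      intro p hp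
      have := (hS p hp).2
      have h2 : 0 ≤ ‖b p‖ ^ 2 := by positivity
      nlinarith
    refine h1.trans ?_
    apply sum_le_sum_of_subset_of_nonneg
    · intro p hp
      exact (hS p hp).1
    · intro n _ _
      exact mul_nonneg (hν n) (by positivity)
  have hCS := Finset.sum_mul_sq_le_sq_mul_sq S (fun p => ‖c p‖) (fun p => ‖b p‖)
  have hC0 : 0 ≤ ∑ p ∈ S, ‖c p‖ ^ 2 := sum_nonneg (fun p _ => by positivity)
  have hI2 : I ^ 2 ≤ (∑ p ∈ S, ‖c p‖ ^ 2) * (B * I) := by
    calc I ^ 2 ≤ (∑ p ∈ S, ‖c p‖ * ‖b p‖) ^ 2 := by gcongr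
      _ ≤ (∑ p ∈ S, ‖c p‖ ^ 2) * (∑ p ∈ S, ‖b p‖ ^ 2) := hCS
      _ ≤ _ := by gcongr
  show I ≤ _
  rcases eq_or_lt_of_le hI0 with h | h
  · rw [← h]; positivity
  · have h3 : I * I ≤ ((∑ p ∈ S, ‖c p‖ ^ 2) * B) * I := by nlinarith
    exact le_of_mul_le_mul_right h3 h

end Pool.Agent.MR
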