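import Pool.Agent.MR.AMajor
import Pool.Agent.MR.ASchur
import Pool.Agent.H6.HR.Mertens

set_option autoImplicit false

open Finset MeasureTheory

namespace Pool.Agent.MR

private theorem alarge_cont (Y : ℕ) (ν : ℕ → ℝ) (t : ℝ) :
    Continuous (fun t' : ℝ => ‖∑ n ∈ Icc 1 Y, (ν n : ℂ) * ni n (t' - t)‖) := by
  unfold ni
  fun_prop

/-- Large values of prime polynomials on a set of small measure. -/
theorem large_values (C : ℝ) (hC : 0 ≤ C) : ∃ δ K Z0 : ℝ, 0 < δ ∧ 0 < K ∧ 1 ≤ Z0 ∧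
    ∀ Z : ℝ, Z0 ≤ Z → ∀ S : Finset ℕ, (∀ p ∈ S, p.Prime ∧ Z ≤ p ∧ (p : ℝ) ≤ 2.7 * Z) →
    ∀ c : ℕ → ℂ, (∀ n, ‖c n‖ ≤ 1) → ∀ U : Set ℝ, MeasurableSet U → (∀ t ∈ U, |t| ≤ Z ^ C) →
      (volume U).toReal ≤ Z ^ δ →
      ∫ t in U, ‖dp S c t‖ ^ 2 ≤ K * (Z / Real.log Z) ^ 2 := by
  obtain ⟨δ', K1, Z1, hδ', hK1, hZ1, hmaj⟩ := majorant (C + 1) (by linarith)
  obtain ⟨C2, hC2, hpi⟩ := Pool.Agent.H6.HR.pi_le
  have hlog : ∀ᶠ Z : ℝ in Filter.atTop, Real.log Z ≤ Z ^ (δ' / 2) := by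
    have := (isLittleO_log_rpow_atTop (by positivity : 0 < δ' / 2)).bound (one_pos)
    filter_upwards [this, Filter.eventually_ge_atTop 1] with Z hZ hZ1
    have hZpos : 0 < Z := by linarith
    rw [Real.norm_eq_abs, Real.norm_eq_abs, one_mul, abs_of_nonneg (Real.log_nonneg hZ1),
      abs_of_nonneg (by positivity)] at hZ
    exact hZ
  have hev : ∀ᶠ Z : ℝ in Filter.atTop, 3 ≤ Z ∧ Z1 ≤ Z ∧ Real.log Z ≤ Z ^ (δ' / 2) :=
    (Filter.eventually_ge_atTop 3).and ((Filter.eventually_ge_atTop Z1).and hlog)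
  obtain ⟨Z2, hZ2⟩ := Filter.eventually_atTop.1 hev
  refine ⟨δ' / 2, 2.7 * C2 * (4 * K1 + 1), max Z2 1, by positivity, by positivity,
    le_max_right _ _, ?_⟩
  intro Z hZ S hS c hc U hU hUC hvol
  obtain ⟨hZ3, hZZ1, hlogZ⟩ := hZ2 Z ((le_max_left _ _).trans hZ)
  have hZpos : 0 < Z := by linarith
  have hZ1' : 1 ≤ Z := by linarith
  have hlpos : 0 < Real.log Z := Real.log_pos (by linarith)
  obtain ⟨ν, hν0, hν1, hνF⟩ := hmaj Z hZZ1
  set B : ℝ := (4 * K1 + 1) * (Z / Real.log Z) with hB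
  have hB0 : 0 ≤ B := by positivity
  have hUbd : U ⊆ Set.Icc (-(Z ^ C)) (Z ^ C) := by
    intro t ht
    exact abs_le.1 (hUC t ht)
  have hUfin : volume U < ⊤ := by
    refine lt_of_le_of_lt (measure_mono hUbd) ?_
    rw [Real.volume_Icc]
    exact ENNReal.ofReal_lt_top
  have hmain : ∀ t ∈ U, ∫ t' in U, ‖∑ n ∈ Icc 1 ⌊8 * Z⌋₊, (ν n : ℂ) * ni n (t' - t)‖ ≤ B := by
    intro t ht
    have hint : Integrable (fun t' : ℝ => (1 + (t' - t) ^ 2)⁻¹) :=
      integrable_inv_one_add_sq.comp_sub_right t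
    have hintval : ∫ t' : ℝ, (1 + (t' - t) ^ 2)⁻¹ = Real.pi := by
      rw [integral_sub_right_eq_self (fun x : ℝ => (1 + x ^ 2)⁻¹) t]
      exact integral_univ_inv_one_add_sq
    have h1 : ∫ t' in U, ‖∑ n ∈ Icc 1 ⌊8 * Z⌋₊, (ν n : ℂ) * ni n (t' - t)‖
        ≤ ∫ t' in U, (K1 * Z / Real.log Z * (1 + (t' - t) ^ 2)⁻¹ + Z ^ (1 - δ')) := by
      apply setIntegral_mono_on
      · exact ((alarge_cont _ ν t).integrableOn_Icc).mono_set hUbd
      · apply Integrable.add
        · exact (hint.const_mul _).integrableOn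
        · exact integrableOn_const hUfin.ne
      · exact hU
      · intro t' ht'
        have hdiff : |t' - t| ≤ Z ^ (C + 1) := by
          have h2 : |t' - t| ≤ |t'| + |t| := abs_sub _ _
          have h3 := hUC t ht
          have h4 := hUC t' ht'
          have h5 : Z ^ (C + 1) = Z ^ C * Z := by
            rw [Real.rpow_add hZpos, Real.rpow_one]
          have h6 : 0 ≤ Z ^ C := by positivity
          rw [h5]
          nlinarith
        have h7 := hνF (t' - t) hdiff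
        refine h7.trans (le_of_eq ?_)
        rw [div_eq_mul_inv, mul_inv, div_eq_mul_inv]
        ring
    refine h1.trans ?_
    rw [integral_add]
    rotate_left
    · exact (hint.const_mul _).integrableOn
    · exact integrableOn_const hUfin.ne
    have h2 : ∫ t' in U, K1 * Z / Real.log Z * (1 + (t' - t) ^ 2)⁻¹
        ≤ K1 * Z / Real.log Z * Real.pi := by
      rw [integral_const_mul]
      have h3 : ∫ t' in U, (1 + (t' - t) ^ 2)⁻¹ ≤ ∫ t' : ℝ, (1 + (t' - t) ^ 2)⁻¹ := by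
        apply setIntegral_le_integral hint
        filter_upwards with x
        positivity
      rw [hintval] at h3
      gcongr
    have h3 : ∫ t' in U, Z ^ (1 - δ') ≤ Z / Real.log Z := by
      rw [setIntegral_const, smul_eq_mul]
      have hv : volume.real U ≤ Z ^ (δ' / 2) := hvol
      calc volume.real U * Z ^ (1 - δ') ≤ Z ^ (δ' / 2) * Z ^ (1 - δ') := by gcongr
        _ = Z ^ (1 - δ' / 2) := by
          rw [← Real.rpow_add hZpos]; congr 1; ring
        _ = Z / Z ^ (δ' / 2) := by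
          rw [Real.rpow_sub hZpos, Real.rpow_one]
        _ ≤ Z / Real.log Z := by gcongr
    have h4 : K1 * Z / Real.log Z * Real.pi ≤ 4 * K1 * (Z / Real.log Z) := by
      have : 0 ≤ K1 * (Z / Real.log Z) := by positivity
      have hpi4 := Real.pi_lt_four
      calc K1 * Z / Real.log Z * Real.pi = (K1 * (Z / Real.log Z)) * Real.pi := by ring
        _ ≤ (K1 * (Z / Real.log Z)) * 4 := by gcongr
        _ = 4 * K1 * (Z / Real.log Z) := by ring
    rw [hB]
    linarith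
  have hsch := schur S c ν ⌊8 * Z⌋₊ hν0 ?_ U hU (Z ^ C) hUC B hB0 hmain
  swap
  · intro p hp
    obtain ⟨hpp, hp1, hp2⟩ := hS p hp
    refine ⟨?_, hν1 p hpp hp1 hp2⟩
    rw [mem_Icc]
    refine ⟨hpp.one_lt.le, Nat.le_floor ?_⟩
    linarith
  refine hsch.trans ?_
  have hcard : (S.card : ℝ) ≤ 2.7 * C2 * (Z / Real.log Z) := by
    have h1 : S.card ≤ Nat.primeCounting ⌊2.7 * Z⌋₊ := by
      rw [Nat.primeCounting, Nat.primeCounting', Nat.count_eq_card_filter_range]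
      apply card_le_card
      intro p hp
      obtain ⟨hpp, hp1, hp2⟩ := hS p hp
      rw [mem_filter, mem_range]
      refine ⟨?_, hpp⟩
      have : p ≤ ⌊2.7 * Z⌋₊ := Nat.le_floor hp2
      omega
    have h2 := hpi (2.7 * Z) (by linarith)
    have h3 : (S.card : ℝ) ≤ (Nat.primeCounting ⌊2.7 * Z⌋₊ : ℝ) := by exact_mod_cast h1
    have h4 : C2 * (2.7 * Z) / Real.log (2.7 * Z) ≤ C2 * (2.7 * Z) / Real.log Z := by
      have : Real.log Z ≤ Real.log (2.7 * Z) := Real.log_le_log hZpos (by linarith)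
      gcongr
    have h5 : C2 * (2.7 * Z) / Real.log Z = 2.7 * C2 * (Z / Real.log Z) := by ring
    linarith
  have hsum : ∑ p ∈ S, ‖c p‖ ^ 2 ≤ S.card := by
    calc ∑ p ∈ S, ‖c p‖ ^ 2 ≤ ∑ p ∈ S, (1 : ℝ) := by
          apply Finset.sum_le_sum
          intro p _
          have h1 := hc p
          have h0 := norm_nonneg (c p)
          nlinarith
      _ = S.card := by simp
  calc (∑ p ∈ S, ‖c p‖ ^ 2) * B ≤ (2.7 * C2 * (Z / Real.log Z)) * B := by
        have := hsum.trans hcard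
        gcongr
    _ = 2.7 * C2 * (4 * K1 + 1) * (Z / Real.log Z) ^ 2 := by
        rw [hB]; ring

end Pool.Agent.MR
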