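import Pool.Agent.MR.ADecomp
import Pool.Agent.MR.ALoc
import Pool.Agent.MR.ALevFacts

set_option autoImplicit false

/-!
# Common part of the level bounds
-/

open Finset MeasureTheory

namespace Pool.Agent.MR

theorem Lev.gw_nonneg (T t : ℝ) : 0 ≤ gw T t := (Real.exp_pos _).le

/-- union bound for integrals -/
theorem Lev.union_bound {ι : Type} (s : Finset ι) (U : Set ℝ) (V : ι → Set ℝ)
    (hU : MeasurableSet U) (hV : ∀ i ∈ s, MeasurableSet (V i)) (h : ∀ t ∈ U, ∃ i ∈ s, t ∈ V i)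
    (g : ℝ → ℝ) (hg : Integrable g) (h0 : ∀ t, 0 ≤ g t) :
    ∫ t in U, g t ≤ ∑ i ∈ s, ∫ t in V i, g t := by
  rw [← integral_indicator hU]
  have h1 : ∀ i ∈ s, ∫ t in V i, g t = ∫ t, (V i).indicator g t := fun i hi => by
    rw [integral_indicator (hV i hi)]
  rw [Finset.sum_congr rfl h1, ← integral_finsetSum s (fun i hi => hg.indicator (hV i hi))]
  apply integral_mono (hg.indicator hU) (integrable_finsetSum s (fun i hi => hg.indicator (hV i hi)))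
  intro t
  have hnn : ∀ i ∈ s, 0 ≤ (V i).indicator g t := fun i _ => Set.indicator_nonneg (fun x _ => h0 x) t
  by_cases ht : t ∈ U
  · obtain ⟨i, hi, hti⟩ := h t ht
    simp only
    rw [Set.indicator_of_mem ht]
    have h2 := Finset.single_le_sum (f := fun i => (V i).indicator g t) hnn hi
    rwa [Set.indicator_of_mem hti] at h2
  · simp only
    rw [Set.indicator_of_notMem ht]
    exact Finset.sum_nonneg hnn

theorem Lev.integrable_prod (f : ℕ → ℂ) (S B : Finset ℕ) (T : ℝ) (hT : 0 < T) :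
    Integrable (fun t => ‖dp S f t * dp B f t‖ ^ 2 * gw T t) :=
  integrable_gw (fun t => dp S f t * dp B f t)
    ((continuous_dp S f).mul (continuous_dp B f))
    ((∑ n ∈ S, ‖f n‖) * ∑ n ∈ B, ‖f n‖)
    (fun t => by
      rw [norm_mul]
      exact mul_le_mul (norm_dp_le _ _ _) (norm_dp_le _ _ _) (norm_nonneg _)
        (Finset.sum_nonneg (fun n _ => norm_nonneg _))) T hT

/-- The decomposition integrated over a set. -/
theorem Lev.split : ∃ K : ℝ, 0 < K ∧ ∀ (f : ℕ → ℂ), CM f → ∀ (P : Finset ℕ), (∀ p ∈ P, p.Prime) →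
    ∀ Z : ℕ, (∀ p ∈ P, p ≤ Z) → 1 ≤ rs P → ∀ H : ℕ, 1 ≤ H → ∀ N T : ℝ, 1 ≤ T → T ≤ N →
    ∀ U : Set ℝ, MeasurableSet U →
    ∫ t in U, ‖dp (blk N) f t‖ ^ 2 * gw T t ≤
      2 * ((vs H P).card : ℝ) * (∑ v ∈ vs H P, ∫ t in U,
        ‖dp (pb H P v) f t * dp (blk (N / Real.exp (v / H))) f t‖ ^ 2 * gw T t) +
      K * N * (N / rs P + N / H + (Z : ℝ) ^ 2) := by
  obtain ⟨K₀, hK₀, hdec⟩ := decomp
  refine ⟨200 * K₀, by positivity, ?_⟩
  intro f hf P hP Z hZ hL H hH N T hT hTN U hU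
  obtain ⟨e, he1, he2⟩ := hdec f hf P hP Z hZ hL H hH N (by linarith)
  have hT0 : 0 < T := by linarith
  set F : ℕ → ℝ → ℝ := fun v t =>
    ‖dp (pb H P v) f t * dp (blk (N / Real.exp (v / H))) f t‖ ^ 2 * gw T t with hF
  set E : ℝ → ℝ := fun t => ‖dp (Icc 1 ⌊9 * N⌋₊) e t‖ ^ 2 * gw T t with hE
  have hFi : ∀ v, Integrable (F v) := fun v => Lev.integrable_prod f _ _ T hT0
  have hEi : Integrable E := integrable_dp _ e T hT0
  have hE0 : ∀ t, 0 ≤ E t := fun t => mul_nonneg (by positivity) (Lev.gw_nonneg T t)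
  have hpt : ∀ t, ‖dp (blk N) f t‖ ^ 2 * gw T t ≤
      2 * ((vs H P).card : ℝ) * ∑ v ∈ vs H P, F v t + 2 * E t := by
    intro t
    have hgw := Lev.gw_nonneg T t
    set a : ℂ := (1 / (rs P : ℂ)) *
      ∑ v ∈ vs H P, dp (pb H P v) f t * dp (blk (N / Real.exp (v / H))) f t with ha
    have h1 : ‖dp (blk N) f t‖ ^ 2 ≤ 2 * ‖a‖ ^ 2 + 2 * ‖dp (Icc 1 ⌊9 * N⌋₊) e t‖ ^ 2 := by
      rw [he1 t]
      have h2 := norm_add_le a (dp (Icc 1 ⌊9 * N⌋₊) e t)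
      have h3 := norm_nonneg (a + dp (Icc 1 ⌊9 * N⌋₊) e t)
      nlinarith [sq_nonneg (‖a‖ - ‖dp (Icc 1 ⌊9 * N⌋₊) e t‖), norm_nonneg a,
        norm_nonneg (dp (Icc 1 ⌊9 * N⌋₊) e t)]
    have h4 : ‖a‖ ^ 2 ≤ ((vs H P).card : ℝ) * ∑ v ∈ vs H P,
        ‖dp (pb H P v) f t * dp (blk (N / Real.exp (v / H))) f t‖ ^ 2 := by
      have h5 : ‖a‖ ≤ ∑ v ∈ vs H P,
          ‖dp (pb H P v) f t * dp (blk (N / Real.exp (v / H))) f t‖ := by
        rw [ha, norm_mul]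
        have h6 : ‖(1 / (rs P : ℂ))‖ ≤ 1 := by
          rw [norm_div, norm_one, Complex.norm_real, Real.norm_eq_abs, abs_of_nonneg (by linarith)]
          rw [div_le_one (by linarith)]
          exact hL
        calc ‖(1 / (rs P : ℂ))‖ * ‖∑ v ∈ vs H P,
              dp (pb H P v) f t * dp (blk (N / Real.exp (v / H))) f t‖
            ≤ 1 * ‖∑ v ∈ vs H P, dp (pb H P v) f t * dp (blk (N / Real.exp (v / H))) f t‖ :=
              mul_le_mul_of_nonneg_right h6 (norm_nonneg _)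
          _ ≤ _ := by
              rw [one_mul]
              exact norm_sum_le _ _
      refine (pow_le_pow_left₀ (norm_nonneg _) h5 2).trans ?_
      exact sq_sum_le_card_mul_sum_sq
    have h5 : ∑ v ∈ vs H P, F v t = (∑ v ∈ vs H P,
        ‖dp (pb H P v) f t * dp (blk (N / Real.exp (v / H))) f t‖ ^ 2) * gw T t := by
      rw [Finset.sum_mul]
    rw [h5]
    calc ‖dp (blk N) f t‖ ^ 2 * gw T t
        ≤ (2 * (((vs H P).card : ℝ) * ∑ v ∈ vs H P,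
        ‖dp (pb H P v) f t * dp (blk (N / Real.exp (v / H))) f t‖ ^ 2) +
          2 * ‖dp (Icc 1 ⌊9 * N⌋₊) e t‖ ^ 2) * gw T t := by
          apply mul_le_mul_of_nonneg_right _ hgw
          linarith
      _ = _ := by
          simp only [hE]
          ring
  have hint1 : Integrable (fun t => 2 * ((vs H P).card : ℝ) * ∑ v ∈ vs H P, F v t) :=
    (integrable_finsetSum _ (fun v _ => hFi v)).const_mul _
  have hint2 : Integrable (fun t => 2 * E t) := hEi.const_mul 2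
  have h1 : ∫ t in U, ‖dp (blk N) f t‖ ^ 2 * gw T t ≤
      ∫ t in U, (2 * ((vs H P).card : ℝ) * ∑ v ∈ vs H P, F v t + 2 * E t) := by
    apply setIntegral_mono_on (integrable_dp _ f T hT0).integrableOn
      (hint1.add hint2).integrableOn hU
    intro t _
    exact hpt t
  refine h1.trans ?_
  rw [integral_add hint1.integrableOn hint2.integrableOn, integral_const_mul,
    integral_const_mul, integral_finsetSum _ (fun v _ => (hFi v).integrableOn)]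
  have h2 : ∫ t in U, E t ≤ ∫ t, E t := by
    apply setIntegral_le_integral hEi
    filter_upwards with t
    exact hE0 t
  have h3 : ∫ t, E t ≤ 10 * (T + (⌊9 * N⌋₊ : ℝ)) * ∑ n ∈ Icc 1 ⌊9 * N⌋₊, ‖e n‖ ^ 2 :=
    mvt T hT0 _ e
  have h4 : (⌊9 * N⌋₊ : ℝ) ≤ 9 * N := Nat.floor_le (by linarith)
  have h5 : 10 * (T + (⌊9 * N⌋₊ : ℝ)) * ∑ n ∈ Icc 1 ⌊9 * N⌋₊, ‖e n‖ ^ 2 ≤
      100 * N * (K₀ * (N / rs P + N / H + (Z : ℝ) ^ 2)) := by
    apply mul_le_mul _ he2 (Finset.sum_nonneg (fun n _ => by positivity)) (by linarith)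
    linarith
  have h6 : 200 * K₀ * N * (N / rs P + N / H + (Z : ℝ) ^ 2) =
      2 * (100 * N * (K₀ * (N / rs P + N / H + (Z : ℝ) ^ 2))) := by ring
  rw [h6]
  simp only [hF]
  linarith

/-- numerics: `72 a² ≤ ε e^a` for large `a` -/
theorem Lev.num (ε : ℝ) (hε : 0 < ε) : ∃ A0 : ℝ, 3 ≤ A0 ∧ ∀ a : ℝ, A0 ≤ a →
    72 * a ^ 2 ≤ ε * Real.exp a ∧ 3200 * a ≤ Real.exp a := by
  have h1 := Real.tendsto_pow_mul_exp_neg_atTop_nhds_zero 2
  have h2 := (tendsto_order.1 h1).2 (min (ε / 72) (1 / 3200)) (by positivity)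
  obtain ⟨A0, hA0⟩ := Filter.eventually_atTop.mp h2
  refine ⟨max 3 A0, le_max_left _ _, fun a ha => ?_⟩
  have h3 := hA0 a (le_trans (le_max_right _ _) ha)
  have ha3 : 3 ≤ a := le_trans (le_max_left _ _) ha
  have hpos := Real.exp_pos a
  have h4 : a ^ 2 < min (ε / 72) (1 / 3200) * Real.exp a := by
    have h5 := mul_lt_mul_of_pos_right h3 hpos
    rwa [mul_assoc, ← Real.exp_add, neg_add_cancel, Real.exp_zero, mul_one] at h5
  constructor
  · have h5 : min (ε / 72) (1 / 3200) ≤ ε / 72 := min_le_left _ _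
    nlinarith
  · have h5 : min (ε / 72) (1 / 3200) ≤ 1 / 3200 := min_le_right _ _
    nlinarith

/-- Numerical facts on the level `j`. -/
theorem Lev.level_facts (A0 : ℝ) (hA0 : 3 ≤ A0) (ε : ℝ)
    (hnum : ∀ a : ℝ, A0 ≤ a → 72 * a ^ 2 ≤ ε * Real.exp a ∧ 3200 * a ≤ Real.exp a)
    (A : ℝ) (hA : A0 ≤ A) (j : ℕ) :
    ∃ a : ℝ, a = A * 3 ^ j ∧ lp A j = Real.exp a ∧ 3 ≤ a ∧ 72 * a ^ 2 ≤ ε * lp A j ∧
      3200 * a ≤ lp A j ∧ A * 2 ^ j ≤ a ∧ (2 : ℝ) ^ j ≤ a ∧ (HH A j : ℝ) ≤ 2 * a ∧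
      (HH A (j + 1) : ℝ) ≤ 4 * a ∧ A * 2 ^ j ≤ (HH A j : ℝ) ∧ 1 ≤ HH A j := by
  have hA3 : 3 ≤ A := hA0.trans hA
  have h3j : (1 : ℝ) ≤ 3 ^ j := one_le_pow₀ (by norm_num)
  have h2j : (1 : ℝ) ≤ 2 ^ j := one_le_pow₀ (by norm_num)
  have h23 : (2 : ℝ) ^ j ≤ 3 ^ j := pow_le_pow_left₀ (by norm_num) (by norm_num) j
  have ha : A ≤ A * 3 ^ j := by nlinarith
  obtain ⟨h1, h2⟩ := hnum (A * 3 ^ j) (hA.trans ha)
  have hc1 : A ≤ (⌈A⌉₊ : ℝ) := Nat.le_ceil A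
  have hc2 : (⌈A⌉₊ : ℝ) < A + 1 := Nat.ceil_lt_add_one (by linarith)
  have hc0 : 1 ≤ ⌈A⌉₊ := Nat.one_le_ceil_iff.mpr (by linarith)
  have hm : (2 : ℝ) ^ j * A ≤ 3 ^ j * A := mul_le_mul_of_nonneg_right h23 (by linarith)
  refine ⟨A * 3 ^ j, rfl, rfl, by nlinarith, h1, h2, by linarith, ?_, ?_, ?_, ?_, ?_⟩
  · nlinarith
  · unfold HH
    push_cast
    nlinarith
  · unfold HH
    push_cast
    rw [pow_succ]
    nlinarith
  · unfold HH
    push_cast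
    nlinarith
  · unfold HH
    exact Nat.one_le_iff_ne_zero.mpr (by positivity)

theorem Lev.pset_Z (A : ℝ) (j : ℕ) : (∀ p ∈ pset A j, p.Prime) ∧
    (∀ p ∈ pset A j, p ≤ ⌊Real.exp ((lp A j) ^ 2)⌋₊) := by
  constructor
  · intro p hp
    exact (mem_filter.mp hp).2
  · intro p hp
    exact (mem_Ioc.mp (mem_filter.mp hp).1).2

/-- The error term of the decomposition. -/
theorem Lev.err (A N : ℝ) (j : ℕ) (B : ℝ) (hB : 1 ≤ B) (hrs : B ≤ rs (pset A j))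
    (hH : B ≤ (HH A j : ℝ)) (hB2 : B ≤ (lp A j) ^ 2) (hN : Real.exp (3 * (lp A j) ^ 2) ≤ N) :
    N / rs (pset A j) + N / (HH A j : ℝ) + ((⌊Real.exp ((lp A j) ^ 2)⌋₊ : ℕ) : ℝ) ^ 2 ≤
      3 * (N / B) := by
  have hN0 : 0 < N := lt_of_lt_of_le (Real.exp_pos _) hN
  have h1 : N / rs (pset A j) ≤ N / B := div_le_div_of_nonneg_left hN0.le (by linarith) hrs
  have h2 : N / (HH A j : ℝ) ≤ N / B := div_le_div_of_nonneg_left hN0.le (by linarith) hH
  have h3 : ((⌊Real.exp ((lp A j) ^ 2)⌋₊ : ℕ) : ℝ) ^ 2 ≤ N / B := by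
    have h4 := Nat.floor_le (Real.exp_pos ((lp A j) ^ 2)).le
    have h5 : ((⌊Real.exp ((lp A j) ^ 2)⌋₊ : ℕ) : ℝ) ^ 2 ≤ (Real.exp ((lp A j) ^ 2)) ^ 2 :=
      pow_le_pow_left₀ (Nat.cast_nonneg _) h4 2
    refine h5.trans ?_
    rw [le_div_iff₀ (by linarith)]
    have h6 : B ≤ Real.exp ((lp A j) ^ 2) := by
      have := Real.add_one_le_exp ((lp A j) ^ 2)
      linarith
    calc (Real.exp ((lp A j) ^ 2)) ^ 2 * B
        ≤ (Real.exp ((lp A j) ^ 2)) ^ 2 * Real.exp ((lp A j) ^ 2) :=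
          mul_le_mul_of_nonneg_left h6 (by positivity)
      _ = (Real.exp ((lp A j) ^ 2)) ^ 3 := by ring
      _ = Real.exp (3 * (lp A j) ^ 2) := by
          rw [← Real.exp_nat_mul]
          norm_num
      _ ≤ N := hN
  linarith


end Pool.Agent.MR
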