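import Pool.Agent.MR.ATent
import Pool.Agent.MR.AExp

set_option autoImplicit false

open Finset MeasureTheory

namespace Pool.Agent.MR

/-- Abel summation with total variation. -/
private theorem ast_abel (w : ℕ → ℝ) (z : ℕ → ℂ) (B : ℝ) (a : ℕ)
    (hB : ∀ c, ‖∑ n ∈ Ico a c, z n‖ ≤ B) (k : ℕ) :
    ‖∑ n ∈ Ico a (a + k + 1), (w n : ℂ) * z n - (w (a + k) : ℂ) * ∑ n ∈ Ico a (a + k + 1), z n‖
      ≤ B * ∑ n ∈ Ico a (a + k), |w (n + 1) - w n| := by
  induction k with
  | zero => simp
  | succ k ih =>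
    have e1 : ∑ n ∈ Ico a (a + (k + 1) + 1), (w n : ℂ) * z n
        = ∑ n ∈ Ico a (a + k + 1), (w n : ℂ) * z n + (w (a + k + 1) : ℂ) * z (a + k + 1) := by
      rw [show a + (k + 1) + 1 = (a + k + 1) + 1 by ring, Finset.sum_Ico_succ_top (by omega)]
    have e2 : ∑ n ∈ Ico a (a + (k + 1) + 1), z n
        = ∑ n ∈ Ico a (a + k + 1), z n + z (a + k + 1) := by
      rw [show a + (k + 1) + 1 = (a + k + 1) + 1 by ring, Finset.sum_Ico_succ_top (by omega)]
    have e3 : ∑ n ∈ Ico a (a + (k + 1)), |w (n + 1) - w n|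
        = ∑ n ∈ Ico a (a + k), |w (n + 1) - w n| + |w (a + k + 1) - w (a + k)| := by
      rw [show a + (k + 1) = (a + k) + 1 by ring, Finset.sum_Ico_succ_top (by omega)]
    rw [e1, e2, e3, show a + (k + 1) = a + k + 1 by ring]
    have e4 : ∑ n ∈ Ico a (a + k + 1), (w n : ℂ) * z n + (w (a + k + 1) : ℂ) * z (a + k + 1)
        - (w (a + k + 1) : ℂ) * (∑ n ∈ Ico a (a + k + 1), z n + z (a + k + 1))
        = (∑ n ∈ Ico a (a + k + 1), (w n : ℂ) * z n - (w (a + k) : ℂ) * ∑ n ∈ Ico a (a + k + 1), z n)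
          + ((w (a + k) - w (a + k + 1) : ℝ) : ℂ) * ∑ n ∈ Ico a (a + k + 1), z n := by
      push_cast; ring
    rw [e4]
    refine (norm_add_le _ _).trans ?_
    rw [mul_add]
    refine add_le_add ih ?_
    rw [norm_mul, Complex.norm_real, Real.norm_eq_abs, abs_sub_comm, mul_comm]
    exact mul_le_mul_of_nonneg_right (hB _) (abs_nonneg _)

private theorem ast_abel' (w : ℕ → ℝ) (z : ℕ → ℂ) (B : ℝ) (a b : ℕ)
    (hB : ∀ c, ‖∑ n ∈ Ico a c, z n‖ ≤ B) (W V : ℝ) (hW : ∀ n, |w n| ≤ W)
    (hV : ∑ n ∈ Ico a (b - 1), |w (n + 1) - w n| ≤ V) (hV0 : 0 ≤ V) :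
    ‖∑ n ∈ Ico a b, (w n : ℂ) * z n‖ ≤ (W + V) * B := by
  have hB0 : 0 ≤ B := (norm_nonneg _).trans (hB 0)
  have hW0 : 0 ≤ W := (abs_nonneg _).trans (hW 0)
  rcases le_or_gt b a with hab | hab
  · rw [Finset.Ico_eq_empty_of_le hab]
    simp only [Finset.sum_empty, norm_zero]
    positivity
  · obtain ⟨k, rfl⟩ : ∃ k, b = a + k + 1 := ⟨b - a - 1, by omega⟩
    have h := ast_abel w z B a hB k
    rw [Nat.add_sub_cancel] at hV
    have h2 : ∑ n ∈ Ico a (a + k + 1), (w n : ℂ) * z n
        = (∑ n ∈ Ico a (a + k + 1), (w n : ℂ) * z n - (w (a + k) : ℂ) * ∑ n ∈ Ico a (a + k + 1), z n)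
          + (w (a + k) : ℂ) * ∑ n ∈ Ico a (a + k + 1), z n := by ring
    rw [h2]
    refine (norm_add_le _ _).trans ?_
    rw [add_mul, add_comm (W * B)]
    refine add_le_add (h.trans ?_) ?_
    · rw [mul_comm V]
      exact mul_le_mul_of_nonneg_left hV hB0
    · rw [norm_mul, Complex.norm_real, Real.norm_eq_abs]
      exact mul_le_mul (hW _) (hB _) (norm_nonneg _) hW0

private theorem ast_tent_abs (M : ℝ) (n : ℕ) : |tent M n| ≤ 2 := by
  unfold tent
  rw [abs_of_nonneg (le_max_left _ _)]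
  refine max_le (by norm_num) ?_
  linarith [abs_nonneg (Real.log (n / M))]

private theorem ast_tent_diff (M : ℝ) (hM : 0 < M) (n : ℕ) (hn : 1 ≤ n) :
    |tent M (n + 1) - tent M n| ≤ 1 / n := by
  have hn' : (1 : ℝ) ≤ n := by exact_mod_cast hn
  have hn0 : (0 : ℝ) < n := by linarith
  unfold tent
  have h1 : |max 0 (2 - |Real.log ((n + 1 : ℕ) / M)|) - max 0 (2 - |Real.log (n / M)|)|
      ≤ |Real.log ((n + 1 : ℕ) / M) - Real.log (n / M)| := by
    refine (abs_max_sub_max_le_max _ _ _ _).trans ?_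
    rw [sub_self, abs_zero]
    refine max_le (abs_nonneg _) ?_
    rw [show 2 - |Real.log ((n + 1 : ℕ) / M)| - (2 - |Real.log (n / M)|)
      = |Real.log (n / M)| - |Real.log ((n + 1 : ℕ) / M)| by ring]
    rw [abs_sub_comm (Real.log ((n + 1 : ℕ) / M))]
    exact abs_abs_sub_abs_le_abs_sub _ _
  refine h1.trans ?_
  have h2 : Real.log ((n + 1 : ℕ) / M) - Real.log (n / M) = Real.log (1 + 1 / n) := by
    rw [Real.log_div (by positivity) hM.ne', Real.log_div hn0.ne' hM.ne']
    have : (1 : ℝ) + 1 / n = ((n + 1 : ℕ) : ℝ) / n := by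
      push_cast
      field_simp
    rw [this, Real.log_div (by positivity) hn0.ne']
    ring
  rw [h2]
  have h3 : 0 ≤ Real.log (1 + 1 / n) := Real.log_nonneg (by
    have : 0 ≤ 1 / (n : ℝ) := by positivity
    linarith)
  rw [abs_of_nonneg h3]
  have h4 := Real.log_le_sub_one_of_pos (show 0 < 1 + 1 / (n : ℝ) by positivity)
  linarith

private theorem ast_tent_zero (M : ℝ) (hM : 0 < M) (n : ℕ) (hn : 1 ≤ n) (h : (n : ℝ) < M / 8) :
    tent M n = 0 := by
  unfold tent
  have hn' : (1 : ℝ) ≤ n := by exact_mod_cast hn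
  have h1 : (n : ℝ) / M < 1 / 8 := by
    rw [div_lt_iff₀ hM]; linarith
  have h2 : Real.log (n / M) < -2 := by
    rw [Real.log_lt_iff_lt_exp (by positivity)]
    have h3 : (1 : ℝ) / 8 ≤ Real.exp (-2) := by
      rw [Real.exp_neg, one_div]
      apply inv_anti₀ (Real.exp_pos _)
      have : Real.exp 2 = Real.exp 1 * Real.exp 1 := by rw [← Real.exp_add]; norm_num
      have h := Real.exp_one_lt_d9
      have h0 := Real.exp_pos 1
      rw [this]
      nlinarith
    linarith
  apply max_eq_left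
  rw [abs_of_neg (by linarith)]
  linarith

/-- Large frequencies. -/
theorem St_large (C : ℝ) : ∃ δ M0 : ℝ, 0 < δ ∧ δ ≤ 1 ∧ 1 ≤ M0 ∧ ∀ M : ℝ, M0 ≤ M → ∀ t : ℝ,
    M ^ (1 / 8 : ℝ) ≤ |t| → |t| ≤ M ^ C → ‖St M t‖ ≤ M ^ (1 - δ) := by
  obtain ⟨η, X0, hη, hη1, hX0, hweyl⟩ := log_weyl (2 * |C|)
  have hev : ∀ᶠ M : ℝ in Filter.atTop, 64 ≤ M ∧ 8 * X0 ≤ M ∧ 1056 ≤ M ^ (η / 2) := by
    refine (Filter.eventually_ge_atTop 64).and ?_
    refine (Filter.eventually_ge_atTop _).and ?_
    exact (tendsto_rpow_atTop (by positivity : 0 < η / 2)).eventually_ge_atTop 1056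
  obtain ⟨M1, hM1⟩ := Filter.eventually_atTop.1 hev
  refine ⟨η / 2, max M1 1, by positivity, by linarith, le_max_right _ _, ?_⟩
  intro M hM t ht1 ht2
  obtain ⟨hM64, hMX, hMη⟩ := hM1 M ((le_max_left _ _).trans hM)
  have hMpos : 0 < M := by linarith
  have hM1' : 1 ≤ M := by linarith
  -- one block
  have hblock : ∀ X : ℝ, M / 8 ≤ X → X ≤ 4 * M → ∀ a b : ℕ, X ≤ a → (b : ℝ) ≤ 4 * X →
      (b : ℝ) ≤ 8 * M + 1 →
      ‖∑ n ∈ Ico a b, (tent M n : ℂ) * ni n (-t)‖ ≤ 264 * M ^ (1 - η) := by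
    intro X hX1 hX2 a b ha hb hbM
    have hXpos : 0 < X := by linarith
    have hX0' : X0 ≤ X := by linarith
    have hXt1 : X ^ (1 / 16 : ℝ) ≤ |t| := by
      calc X ^ (1 / 16 : ℝ) ≤ (M * M) ^ (1 / 16 : ℝ) := by
            apply Real.rpow_le_rpow hXpos.le _ (by norm_num)
            nlinarith
        _ = M ^ (1 / 8 : ℝ) := by
            rw [Real.mul_rpow hMpos.le hMpos.le, ← Real.rpow_add hMpos]
            norm_num
        _ ≤ |t| := ht1
    have hXt2 : |t| ≤ X ^ (2 * |C|) := by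
      calc |t| ≤ M ^ C := ht2
        _ ≤ M ^ |C| := Real.rpow_le_rpow_of_exponent_le hM1' (le_abs_self C)
        _ ≤ (X ^ (2 : ℝ)) ^ |C| := by
            apply Real.rpow_le_rpow hMpos.le _ (abs_nonneg C)
            rw [Real.rpow_two]
            nlinarith
        _ = X ^ (2 * |C|) := by rw [← Real.rpow_mul hXpos.le]
    have hXη : X ^ (1 - η) ≤ 4 * M ^ (1 - η) := by
      calc X ^ (1 - η) ≤ (4 * M) ^ (1 - η) := by
            apply Real.rpow_le_rpow hXpos.le hX2 (by linarith)
        _ = 4 ^ (1 - η) * M ^ (1 - η) := Real.mul_rpow (by norm_num) hMpos.le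
        _ ≤ 4 * M ^ (1 - η) := by
            have : (4 : ℝ) ^ (1 - η) ≤ 4 ^ (1 : ℝ) :=
              Real.rpow_le_rpow_of_exponent_le (by norm_num) (by linarith)
            rw [Real.rpow_one] at this
            gcongr
    have hzero : (0 : ℝ) ≤ 1 - 1 := by norm_num
    -- prefix sums of the truncated sequence
    set z : ℕ → ℂ := fun n => if n < b then ni n (-t) else 0 with hz
    have hB : ∀ c, ‖∑ n ∈ Ico a c, z n‖ ≤ X ^ (1 - η) := by
      intro c
      have h1 : ∑ n ∈ Ico a c, z n = ∑ n ∈ Ico a (min c b),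
          Complex.exp ((t * Real.log (n + (0 : ℝ)) : ℝ) * Complex.I) := by
        rw [hz, ← Finset.sum_filter]
        have : (Ico a c).filter (fun n => n < b) = Ico a (min c b) := by
          ext n
          simp only [mem_filter, mem_Ico, lt_min_iff]
          tauto
        rw [this]
        apply Finset.sum_congr rfl
        intro n hn
        unfold ni
        congr 1
        push_cast
        simp
      rw [h1]
      apply hweyl X hX0' 0 le_rfl (by norm_num) t hXt1 hXt2 a (min c b) ha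
      have : ((min c b : ℕ) : ℝ) ≤ b := by exact_mod_cast min_le_right c b
      linarith
    have hsum : ∑ n ∈ Ico a b, (tent M n : ℂ) * ni n (-t) = ∑ n ∈ Ico a b, (tent M n : ℂ) * z n := by
      apply Finset.sum_congr rfl
      intro n hn
      rw [mem_Ico] at hn
      rw [hz]
      simp only [if_pos hn.2]
    rw [hsum]
    have ha1 : 1 ≤ a := by
      have : (0 : ℝ) < a := by linarith
      exact_mod_cast this
    have hV : ∑ n ∈ Ico a (b - 1), |tent M (n + 1) - tent M n| ≤ 64 := by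
      have h1 : ∀ n ∈ Ico a (b - 1), |tent M (n + 1) - tent M n| ≤ 8 / M := by
        intro n hn
        rw [mem_Ico] at hn
        have hn1 : 1 ≤ n := by omega
        refine (ast_tent_diff M hMpos n hn1).trans ?_
        have : M / 8 ≤ n := by
          have : (a : ℝ) ≤ n := by exact_mod_cast hn.1
          linarith
        have hn0 : (0 : ℝ) < n := by linarith
        rw [div_le_div_iff₀ hn0 hMpos]
        linarith
      refine (Finset.sum_le_sum h1).trans ?_
      rw [Finset.sum_const, Nat.card_Ico, nsmul_eq_mul]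
      have h2 : ((b - 1 - a : ℕ) : ℝ) ≤ 8 * M := by
        rcases le_or_gt b (a + 1) with hba | hba
        · have : b - 1 - a = 0 := by omega
          rw [this]
          push_cast
          linarith
        · have h3 : ((b - 1 - a : ℕ) : ℝ) = (b : ℝ) - 1 - a := by
            rw [Nat.sub_sub, Nat.cast_sub (by omega)]
            push_cast
            ring
          rw [h3]
          have : (0 : ℝ) ≤ a := by positivity
          linarith
      calc ((b - 1 - a : ℕ) : ℝ) * (8 / M) ≤ (8 * M) * (8 / M) := by gcongr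
        _ = 64 := by field_simp; norm_num
    have := ast_abel' (fun n => tent M n) z (X ^ (1 - η)) a b hB 2 64 (ast_tent_abs M) hV
      (by norm_num)
    refine this.trans ?_
    calc (2 + 64) * X ^ (1 - η) ≤ (2 + 64) * (4 * M ^ (1 - η)) := by gcongr
      _ = 264 * M ^ (1 - η) := by ring
  -- the four blocks
  set a0 := ⌈M / 8⌉₊ with ha0
  set a1 := ⌊M / 2⌋₊ with ha1
  set a2 := ⌊M⌋₊ with ha2
  set a3 := ⌊3 * M⌋₊ with ha3
  set a4 := ⌊8 * M⌋₊ + 1 with ha4
  have f0 : M / 8 ≤ a0 := Nat.le_ceil _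
  have f0' : (a0 : ℝ) < M / 8 + 1 := Nat.ceil_lt_add_one (by positivity)
  have f1 : M / 2 - 1 < a1 := Nat.sub_one_lt_floor _
  have f1' : (a1 : ℝ) ≤ M / 2 := Nat.floor_le (by positivity)
  have f2 : M - 1 < a2 := Nat.sub_one_lt_floor _
  have f2' : (a2 : ℝ) ≤ M := Nat.floor_le (by positivity)
  have f3 : 3 * M - 1 < a3 := Nat.sub_one_lt_floor _
  have f3' : (a3 : ℝ) ≤ 3 * M := Nat.floor_le (by positivity)
  have f4' : (a4 : ℝ) ≤ 8 * M + 1 := by
    rw [ha4]
    push_cast
    have := Nat.floor_le (show 0 ≤ 8 * M by positivity)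
    linarith
  have f4 : 8 * M < a4 := by
    rw [ha4]
    push_cast
    exact Nat.lt_floor_add_one _
  have g01 : a0 ≤ a1 := by
    have : (a0 : ℝ) ≤ a1 := by linarith
    exact_mod_cast this
  have g12 : a1 ≤ a2 := by
    have : (a1 : ℝ) ≤ a2 := by linarith
    exact_mod_cast this
  have g23 : a2 ≤ a3 := by
    have : (a2 : ℝ) ≤ a3 := by linarith
    exact_mod_cast this
  have g34 : a3 ≤ a4 := by
    have : (a3 : ℝ) ≤ a4 := by linarith
    exact_mod_cast this
  have hSt : St M t = ∑ n ∈ Ico a0 a4, (tent M n : ℂ) * ni n (-t) := by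
    unfold St
    symm
    apply Finset.sum_subset
    · intro n hn
      rw [mem_Ico] at hn
      rw [mem_Icc]
      have : 1 ≤ n := by
        have h1 : (0 : ℝ) < a0 := by linarith
        have h2 : 0 < a0 := by exact_mod_cast h1
        omega
      exact ⟨this, by omega⟩
    · intro n hn hn'
      rw [mem_Icc] at hn
      rw [mem_Ico] at hn'
      have h1 : n < a0 := by
        by_contra hcon
        exact hn' ⟨by omega, by omega⟩
      have h2 : (n : ℝ) < M / 8 := by
        by_contra hcon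
        push Not at hcon
        have : a0 ≤ n := Nat.ceil_le.2 hcon
        omega
      rw [ast_tent_zero M hMpos n hn.1 h2]
      simp
  have b1 := hblock (M / 8) le_rfl (by linarith) a0 a1 f0 (by linarith) (by linarith)
  have b2 := hblock (M / 3) (by linarith) (by linarith) a1 a2 (by linarith) (by linarith) (by linarith)
  have b3 := hblock (3 * M / 4) (by linarith) (by linarith) a2 a3 (by linarith) (by linarith)
    (by linarith)
  have b4 := hblock (5 * M / 2) (by linarith) (by linarith) a3 a4 (by linarith) (by linarith)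
    (by linarith)
  rw [hSt]
  rw [← Finset.sum_Ico_consecutive _ (g01.trans (g12.trans g23)) g34,
    ← Finset.sum_Ico_consecutive _ (g01.trans g12) g23,
    ← Finset.sum_Ico_consecutive _ g01 g12]
  have hfin : 1056 * M ^ (1 - η) ≤ M ^ (1 - η / 2) := by
    calc 1056 * M ^ (1 - η) ≤ M ^ (η / 2) * M ^ (1 - η) := by gcongr
      _ = M ^ (1 - η / 2) := by
        rw [← Real.rpow_add hMpos]
        congr 1
        ring
  refine (norm_add_le _ _).trans ?_
  refine (add_le_add (norm_add_le _ _) le_rfl).trans ?_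
  refine (add_le_add (add_le_add (norm_add_le _ _) le_rfl) le_rfl).trans ?_
  linarith

end Pool.Agent.MR
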