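import Pool.Agent.MR.AStMain
import Pool.Agent.MR.AStLarge
import Pool.Agent.MR.ASelberg

set_option autoImplicit false

open Finset MeasureTheory

namespace Pool.Agent.MR

private theorem amaj_ni_mul (m n : ℕ) (hm : 0 < m) (hn : 0 < n) (t : ℝ) :
    ni (m * n) t = ni m t * ni n t := by
  unfold ni
  rw [← Complex.exp_add]
  congr 1
  have hm' : (m : ℝ) ≠ 0 := by positivity
  have hn' : (n : ℝ) ≠ 0 := by positivity
  push_cast
  rw [show Real.log ((m : ℝ) * (n : ℝ)) = Real.log m + Real.log n from Real.log_mul hm' hn']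
  push_cast
  ring

private theorem amaj_tent_scale (Z : ℝ) (D m : ℕ) :
    tent Z (D * m) = tent (Z / D) m := by
  unfold tent
  have : ((D * m : ℕ) : ℝ) / Z = (m : ℝ) / (Z / D) := by
    push_cast
    rw [div_div_eq_mul_div]
    ring
  rw [this]

private theorem amaj_inner (Z : ℝ) (D : ℕ) (hD : 0 < D) (t : ℝ) :
    ∑ n ∈ (Icc 1 ⌊8 * Z⌋₊).filter (fun n => D ∣ n), (tent Z n : ℂ) * ni n t
      = ni D t * St (Z / D) (-t) := by
  unfold St
  rw [Finset.mul_sum]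
  symm
  have hfl : ⌊8 * (Z / D)⌋₊ = ⌊8 * Z⌋₊ / D := by
    rw [← mul_div_assoc, Nat.floor_div_natCast]
  refine Finset.sum_nbij' (fun m => D * m) (fun n => n / D) ?_ ?_ ?_ ?_ ?_
  · intro m hm
    rw [mem_Icc, hfl] at hm
    simp only [mem_filter, mem_Icc]
    refine ⟨⟨?_, ?_⟩, dvd_mul_right _ _⟩
    · exact Nat.mul_pos hD (by omega)
    · have := (Nat.le_div_iff_mul_le hD).1 hm.2
      rw [mul_comm]; exact this
  · intro n hn
    simp only [mem_filter, mem_Icc] at hn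
    rw [mem_Icc, hfl]
    refine ⟨?_, Nat.div_le_div_right hn.1.2⟩
    exact Nat.div_pos (Nat.le_of_dvd (by omega) hn.2) hD
  · intro m hm
    exact Nat.mul_div_cancel_left _ hD
  · intro n hn
    simp only [mem_filter] at hn
    exact Nat.mul_div_cancel' hn.2
  · intro m hm
    rw [mem_Icc] at hm
    have : ni (D * m) t = ni D t * ni m t := amaj_ni_mul D m hD (by omega) t
    rw [this, amaj_tent_scale, neg_neg]
    ring

private theorem amaj_expand (Z : ℝ) (X D : ℕ) (l : ℕ → ℝ) (t : ℝ) :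
    ∑ n ∈ Icc 1 X, ((((∑ d ∈ (Icc 1 D).filter (fun d => d ∣ n), l d) ^ 2 * tent Z n : ℝ)) : ℂ) * ni n t
      = ∑ d ∈ Icc 1 D, ∑ e ∈ Icc 1 D, ((l d * l e : ℝ) : ℂ) *
          ∑ n ∈ (Icc 1 X).filter (fun n => Nat.lcm d e ∣ n), (tent Z n : ℂ) * ni n t := by
  have h1 : ∀ n : ℕ, (∑ d ∈ (Icc 1 D).filter (fun d => d ∣ n), l d) ^ 2
      = ∑ d ∈ Icc 1 D, ∑ e ∈ Icc 1 D, if Nat.lcm d e ∣ n then l d * l e else 0 := by
    intro n
    rw [sq, Finset.sum_filter, Finset.sum_mul_sum]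
    apply Finset.sum_congr rfl
    intro d _
    apply Finset.sum_congr rfl
    intro e _
    by_cases h1 : d ∣ n
    · by_cases h2 : e ∣ n
      · rw [if_pos h1, if_pos h2, if_pos (Nat.lcm_dvd h1 h2)]
      · rw [if_pos h1, if_neg h2, if_neg (fun h => h2 ((Nat.dvd_lcm_right d e).trans h)), mul_zero]
    · rw [if_neg h1, if_neg (fun h => h1 ((Nat.dvd_lcm_left d e).trans h)), zero_mul]
  have h2 : ∀ n ∈ Icc 1 X,
      ((((∑ d ∈ (Icc 1 D).filter (fun d => d ∣ n), l d) ^ 2 * tent Z n : ℝ)) : ℂ) * ni n t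
      = ∑ d ∈ Icc 1 D, ∑ e ∈ Icc 1 D, if Nat.lcm d e ∣ n then
          ((l d * l e : ℝ) : ℂ) * ((tent Z n : ℂ) * ni n t) else 0 := by
    intro n _
    rw [h1 n]
    push_cast
    rw [Finset.sum_mul, Finset.sum_mul]
    apply Finset.sum_congr rfl
    intro d _
    rw [Finset.sum_mul, Finset.sum_mul]
    apply Finset.sum_congr rfl
    intro e _
    split_ifs
    · push_cast; ring
    · simp
  rw [Finset.sum_congr rfl h2, Finset.sum_comm]
  apply Finset.sum_congr rfl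
  intro d _
  rw [Finset.sum_comm]
  apply Finset.sum_congr rfl
  intro e _
  rw [Finset.mul_sum, Finset.sum_filter]

private theorem amaj_norm_ni (n : ℕ) (t : ℝ) : ‖ni n t‖ = 1 := by
  unfold ni
  rw [show (-((t * Real.log n : ℝ) : ℂ) * Complex.I) = ((-(t * Real.log n) : ℝ) : ℂ) * Complex.I by
    push_cast; ring]
  exact Complex.norm_exp_ofReal_mul_I _

/-- the factor `Φ` -/
private noncomputable def Phi (t : ℝ) : ℂ :=
  (Complex.exp (2 * (1 + t * Complex.I)) + Complex.exp (-2 * (1 + t * Complex.I)) - 2)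
        / (1 + t * Complex.I) ^ 2

private theorem norm_Phi_le (t : ℝ) : ‖Phi t‖ ≤ 12 / (1 + t ^ 2) := by
  unfold Phi
  rw [norm_div]
  have h1 : ‖(1 + (t : ℂ) * Complex.I) ^ 2‖ = 1 + t ^ 2 := by
    rw [norm_pow]
    have : ‖(1 + (t : ℂ) * Complex.I)‖ ^ 2 = 1 + t ^ 2 := by
      rw [← Complex.normSq_eq_norm_sq, Complex.normSq_apply]
      simp
      ring
    exact this
  rw [h1]
  have h2 : ‖Complex.exp (2 * (1 + (t : ℂ) * Complex.I))‖ = Real.exp 2 := by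
    rw [Complex.norm_exp]; simp
  have h3 : ‖Complex.exp (-2 * (1 + (t : ℂ) * Complex.I))‖ = Real.exp (-2) := by
    rw [Complex.norm_exp]; simp
  have h4 : ‖Complex.exp (2 * (1 + (t : ℂ) * Complex.I)) + Complex.exp (-2 * (1 + (t : ℂ) * Complex.I)) - 2‖
      ≤ 12 := by
    calc ‖Complex.exp (2 * (1 + (t : ℂ) * Complex.I)) + Complex.exp (-2 * (1 + (t : ℂ) * Complex.I)) - 2‖
        ≤ ‖Complex.exp (2 * (1 + (t : ℂ) * Complex.I)) + Complex.exp (-2 * (1 + (t : ℂ) * Complex.I))‖ + ‖(2 : ℂ)‖ :=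
          norm_sub_le _ _
      _ ≤ ‖Complex.exp (2 * (1 + (t : ℂ) * Complex.I))‖ + ‖Complex.exp (-2 * (1 + (t : ℂ) * Complex.I))‖ + ‖(2 : ℂ)‖ := by
          gcongr
          exact norm_add_le _ _
      _ = Real.exp 2 + Real.exp (-2) + 2 := by
          rw [h2, h3]; simp
      _ ≤ 12 := by
          have e1 : Real.exp 2 ≤ 8 := by
            have : Real.exp 2 = Real.exp 1 * Real.exp 1 := by rw [← Real.exp_add]; norm_num
            have h := Real.exp_one_lt_d9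
            have h0 := Real.exp_pos 1
            rw [this]
            nlinarith
          have e2 : Real.exp (-2) ≤ 1 := Real.exp_le_one_iff.2 (by norm_num)
          linarith
  gcongr

/-- phases -/
private theorem phase (Z : ℝ) (hZ : 0 < Z) (D : ℕ) (hD : 0 < D) (t : ℝ) :
    ni D t * (((Z / D : ℝ) : ℂ) * Complex.exp (((-t) * Real.log (Z / D) : ℝ) * Complex.I))
      = (1 / (D : ℂ)) * ((Z : ℂ) * Complex.exp (((-t) * Real.log Z : ℝ) * Complex.I)) := by
  have hD' : (D : ℝ) ≠ 0 := by positivity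
  have h1 : Real.log (Z / D) = Real.log Z - Real.log D := Real.log_div hZ.ne' hD'
  have h2 : ni D t * Complex.exp (((-t) * Real.log (Z / D) : ℝ) * Complex.I)
      = Complex.exp (((-t) * Real.log Z : ℝ) * Complex.I) := by
    unfold ni
    rw [← Complex.exp_add, h1]
    congr 1
    push_cast
    ring
  calc ni D t * (((Z / D : ℝ) : ℂ) * Complex.exp (((-t) * Real.log (Z / D) : ℝ) * Complex.I))
      = ((Z / D : ℝ) : ℂ) * (ni D t * Complex.exp (((-t) * Real.log (Z / D) : ℝ) * Complex.I)) := by ring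
    _ = _ := by
      rw [h2]
      push_cast
      ring

/-- small frequencies -/
private theorem amaj_small (Z : ℝ) (hZ : 0 < Z) (D : ℕ) (l : ℕ → ℝ)
    (hl : ∀ d, |l d| ≤ d) (t : ℝ) :
    ‖∑ d ∈ Icc 1 D, ∑ e ∈ Icc 1 D, ((l d * l e : ℝ) : ℂ) *
        (ni (Nat.lcm d e) t * St (Z / (Nat.lcm d e : ℕ)) (-t))‖
      ≤ Z * (12 / (1 + t ^ 2)) * |∑ d ∈ Icc 1 D, ∑ e ∈ Icc 1 D, l d * l e / (Nat.lcm d e)|
        + (D : ℝ) ^ 4 * (20 * (1 + |t|)) := by
  set W : ℂ := (Z : ℂ) * Complex.exp (((-t) * Real.log Z : ℝ) * Complex.I) * Phi (-t) with hW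
  have hsplit : ∑ d ∈ Icc 1 D, ∑ e ∈ Icc 1 D, ((l d * l e : ℝ) : ℂ) *
        (ni (Nat.lcm d e) t * St (Z / (Nat.lcm d e : ℕ)) (-t))
      = W * ((∑ d ∈ Icc 1 D, ∑ e ∈ Icc 1 D, l d * l e / (Nat.lcm d e) : ℝ) : ℂ)
        + ∑ d ∈ Icc 1 D, ∑ e ∈ Icc 1 D, ((l d * l e : ℝ) : ℂ) *
          (ni (Nat.lcm d e) t * (St (Z / (Nat.lcm d e : ℕ)) (-t)
            - ((Z / (Nat.lcm d e : ℕ) : ℝ) : ℂ) *
              Complex.exp (((-t) * Real.log (Z / (Nat.lcm d e : ℕ)) : ℝ) * Complex.I) * Phi (-t))) := by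
    push_cast
    rw [Finset.mul_sum, ← Finset.sum_add_distrib]
    apply Finset.sum_congr rfl
    intro d hd
    rw [Finset.mul_sum, ← Finset.sum_add_distrib]
    apply Finset.sum_congr rfl
    intro e he
    rw [mem_Icc] at hd he
    have hlpos : 0 < Nat.lcm d e := Nat.lcm_pos (by omega) (by omega)
    have hp := phase Z hZ (Nat.lcm d e) hlpos t
    push_cast at hp
    rw [hW]
    push_cast
    linear_combination ((l d : ℂ) * l e * Phi (-t)) * hp
  rw [hsplit]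
  refine (norm_add_le _ _).trans (add_le_add ?_ ?_)
  · rw [norm_mul, Complex.norm_real, Real.norm_eq_abs]
    have h1 : ‖W‖ ≤ Z * (12 / (1 + t ^ 2)) := by
      rw [hW, norm_mul, norm_mul, Complex.norm_real, Real.norm_eq_abs, abs_of_pos hZ,
        Complex.norm_exp_ofReal_mul_I, mul_one]
      have := norm_Phi_le (-t)
      rw [neg_sq] at this
      gcongr
    gcongr
  · refine (norm_sum_le _ _).trans ?_
    have hD4 : (D : ℝ) ^ 4 * (20 * (1 + |t|)) = ∑ d ∈ Icc 1 D, (D : ℝ) ^ 3 * (20 * (1 + |t|)) := by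
      rw [Finset.sum_const, Nat.card_Icc, nsmul_eq_mul, Nat.add_sub_cancel]
      ring
    rw [hD4]
    apply Finset.sum_le_sum
    intro d hd
    refine (norm_sum_le _ _).trans ?_
    have hD3 : (D : ℝ) ^ 3 * (20 * (1 + |t|)) = ∑ e ∈ Icc 1 D, (D : ℝ) ^ 2 * (20 * (1 + |t|)) := by
      rw [Finset.sum_const, Nat.card_Icc, nsmul_eq_mul, Nat.add_sub_cancel]
      ring
    rw [hD3]
    apply Finset.sum_le_sum
    intro e he
    rw [mem_Icc] at hd he
    have hlpos : 0 < Nat.lcm d e := Nat.lcm_pos (by omega) (by omega)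
    have hlr : (0 : ℝ) < (Nat.lcm d e : ℕ) := by exact_mod_cast hlpos
    have hm := St_main (Z / (Nat.lcm d e : ℕ)) (by positivity) (-t)
    rw [abs_neg] at hm
    rw [norm_mul, norm_mul, amaj_norm_ni, one_mul, Complex.norm_real, Real.norm_eq_abs, abs_mul]
    have hd' : |l d| ≤ D := (hl d).trans (by exact_mod_cast hd.2)
    have he' : |l e| ≤ D := (hl e).trans (by exact_mod_cast he.2)
    have hprod : |l d| * |l e| ≤ (D : ℝ) ^ 2 := by
      rw [sq]
      exact mul_le_mul hd' he' (abs_nonneg _) (by positivity)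
    refine mul_le_mul hprod ?_ (norm_nonneg _) (by positivity)
    refine le_trans (le_of_eq ?_) hm
    congr 1
    unfold Phi
    push_cast
    ring

/-- large frequencies -/
private theorem amaj_large (Z : ℝ) (D : ℕ) (l : ℕ → ℝ)
    (hl : ∀ d, |l d| ≤ d) (t : ℝ) (B : ℝ)
    (hSt : ∀ m : ℕ, 1 ≤ m → m ≤ D * D → ‖St (Z / m) (-t)‖ ≤ B) :
    ‖∑ d ∈ Icc 1 D, ∑ e ∈ Icc 1 D, ((l d * l e : ℝ) : ℂ) *
        (ni (Nat.lcm d e) t * St (Z / (Nat.lcm d e : ℕ)) (-t))‖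
      ≤ (D : ℝ) ^ 4 * B := by
  refine (norm_sum_le _ _).trans ?_
  have hD4 : (D : ℝ) ^ 4 * B = ∑ d ∈ Icc 1 D, (D : ℝ) ^ 3 * B := by
    rw [Finset.sum_const, Nat.card_Icc, nsmul_eq_mul, Nat.add_sub_cancel]
    ring
  rw [hD4]
  apply Finset.sum_le_sum
  intro d hd
  refine (norm_sum_le _ _).trans ?_
  have hD3 : (D : ℝ) ^ 3 * B = ∑ e ∈ Icc 1 D, (D : ℝ) ^ 2 * B := by
    rw [Finset.sum_const, Nat.card_Icc, nsmul_eq_mul, Nat.add_sub_cancel]
    ring
  rw [hD3]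
  apply Finset.sum_le_sum
  intro e he
  rw [mem_Icc] at hd he
  have hlpos : 0 < Nat.lcm d e := Nat.lcm_pos (by omega) (by omega)
  have hlle : Nat.lcm d e ≤ D * D :=
    (Nat.le_of_dvd (Nat.mul_pos (by omega) (by omega)) (Nat.lcm_dvd_mul d e)).trans
      (Nat.mul_le_mul hd.2 he.2)
  have hm := hSt _ hlpos hlle
  rw [norm_mul, norm_mul, amaj_norm_ni, one_mul, Complex.norm_real, Real.norm_eq_abs, abs_mul]
  have hd' : |l d| ≤ D := (hl d).trans (by exact_mod_cast hd.2)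
  have he' : |l e| ≤ D := (hl e).trans (by exact_mod_cast he.2)
  have hprod : |l d| * |l e| ≤ (D : ℝ) ^ 2 := by
    rw [sq]
    exact mul_le_mul hd' he' (abs_nonneg _) (by positivity)
  exact mul_le_mul hprod hm (norm_nonneg _) (by positivity)

/-- A majorant of the primes with small Fourier transform. -/
theorem majorant (C : ℝ) (hC : 0 ≤ C) : ∃ δ K Z0 : ℝ, 0 < δ ∧ 0 < K ∧ 1 ≤ Z0 ∧
    ∀ Z : ℝ, Z0 ≤ Z →
    ∃ ν : ℕ → ℝ, (∀ n, 0 ≤ ν n) ∧ (∀ p : ℕ, p.Prime → Z ≤ p → (p : ℝ) ≤ 2.7 * Z → 1 ≤ ν p) ∧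
      ∀ t : ℝ, |t| ≤ Z ^ C → ‖∑ n ∈ Icc 1 ⌊8 * Z⌋₊, (ν n : ℂ) * ni n t‖
        ≤ K * Z / (Real.log Z * (1 + t ^ 2)) + Z ^ (1 - δ) := by
  obtain ⟨δ0, M0, hδ0, hδ1, hM0, hSt⟩ := St_large (2 * C)
  obtain ⟨Ks, hKs, hsel⟩ := selberg_weights
  set κ : ℝ := δ0 / 16 with hκ
  have hκpos : 0 < κ := by positivity
  have hκ1 : κ ≤ 1 / 16 := by rw [hκ]; linarith
  -- eventual conditions on Z
  have hev : ∀ᶠ Z : ℝ in Filter.atTop, 2 ≤ Z ∧ 2 ≤ Z ^ (κ / 2) ∧ 40 ≤ Z ^ (1 / 8 : ℝ) ∧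
      M0 ≤ Z ^ (7 / 8 : ℝ) := by
    refine (Filter.eventually_ge_atTop 2).and ?_
    refine ((tendsto_rpow_atTop (by positivity : 0 < κ / 2)).eventually_ge_atTop 2).and ?_
    refine ((tendsto_rpow_atTop (by norm_num : (0 : ℝ) < 1 / 8)).eventually_ge_atTop 40).and ?_
    exact (tendsto_rpow_atTop (by norm_num : (0 : ℝ) < 7 / 8)).eventually_ge_atTop M0
  obtain ⟨Z1, hZ1⟩ := Filter.eventually_atTop.1 hev
  refine ⟨κ, 24 * Ks / κ, max Z1 1, hκpos, by positivity, le_max_right _ _, ?_⟩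
  intro Z hZ
  obtain ⟨hZ2, hZκ, hZ8, hZM⟩ := hZ1 Z ((le_max_left _ _).trans hZ)
  have hZpos : 0 < Z := by linarith
  have hZ1' : 1 ≤ Z := by linarith
  set D : ℕ := ⌊Z ^ κ⌋₊ with hD
  have hZκ' : Z ^ κ = Z ^ (κ / 2) * Z ^ (κ / 2) := by
    rw [← Real.rpow_add hZpos]; congr 1; ring
  have hDle : (D : ℝ) ≤ Z ^ κ := Nat.floor_le (by positivity)
  have hDge : Z ^ (κ / 2) ≤ D := by
    have h1 : Z ^ κ - 1 < D := Nat.sub_one_lt_floor _
    have h2 : Z ^ (κ / 2) ≤ Z ^ κ - 1 := by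
      rw [hZκ']
      nlinarith
    linarith
  have hD2 : 2 ≤ D := by
    have : (2 : ℝ) ≤ D := hZκ.trans hDge
    exact_mod_cast this
  obtain ⟨l, hl1, hl, hlsum⟩ := hsel D hD2
  refine ⟨fun n => (∑ d ∈ (Icc 1 D).filter (fun d => d ∣ n), l d) ^ 2 * tent Z n, ?_, ?_, ?_⟩
  · intro n
    unfold tent
    positivity
  · intro p hp hpZ hpZ'
    have hDp : D < p := by
      have h1 : Z ^ κ < Z := by
        calc Z ^ κ < Z ^ (1 : ℝ) := Real.rpow_lt_rpow_of_exponent_lt (by linarith) (by linarith)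
          _ = Z := Real.rpow_one Z
      have : (D : ℝ) < p := by linarith
      exact_mod_cast this
    have hfil : (Icc 1 D).filter (fun d => d ∣ p) = {1} := by
      ext d
      simp only [mem_filter, mem_Icc, mem_singleton]
      constructor
      · rintro ⟨⟨h1, h2⟩, h3⟩
        rcases (Nat.dvd_prime hp).1 h3 with h | h
        · exact h
        · omega
      · rintro rfl
        exact ⟨⟨le_refl _, by omega⟩, one_dvd _⟩
    simp only [hfil, Finset.sum_singleton, hl1, one_pow, one_mul]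
    unfold tent
    have hp0 : (0 : ℝ) < p := by linarith
    have h1 : 1 ≤ (p : ℝ) / Z := by rw [le_div_iff₀ hZpos]; linarith
    have h2 : (p : ℝ) / Z ≤ 2.7 := by rw [div_le_iff₀ hZpos]; linarith
    have h3 : 0 ≤ Real.log ((p : ℝ) / Z) := Real.log_nonneg h1
    have h4 : Real.log ((p : ℝ) / Z) ≤ 1 := by
      rw [Real.log_le_iff_le_exp (by positivity)]
      have := Real.exp_one_gt_d9
      linarith
    rw [abs_of_nonneg h3]
    refine le_trans ?_ (le_max_right _ _)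
    linarith
  · intro t ht
    have hexp := amaj_expand Z ⌊8 * Z⌋₊ D l t
    rw [hexp]
    have hin : ∑ d ∈ Icc 1 D, ∑ e ∈ Icc 1 D, ((l d * l e : ℝ) : ℂ) *
          ∑ n ∈ (Icc 1 ⌊8 * Z⌋₊).filter (fun n => Nat.lcm d e ∣ n), (tent Z n : ℂ) * ni n t
        = ∑ d ∈ Icc 1 D, ∑ e ∈ Icc 1 D, ((l d * l e : ℝ) : ℂ) *
          (ni (Nat.lcm d e) t * St (Z / (Nat.lcm d e : ℕ)) (-t)) := by
      apply Finset.sum_congr rfl
      intro d hd
      apply Finset.sum_congr rfl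
      intro e he
      rw [mem_Icc] at hd he
      rw [amaj_inner Z (Nat.lcm d e) (Nat.lcm_pos (by omega) (by omega)) t]
    rw [hin]
    have hD4 : (D : ℝ) ^ 4 ≤ Z ^ (4 * κ) := by
      calc (D : ℝ) ^ 4 ≤ (Z ^ κ) ^ 4 := by gcongr
        _ = Z ^ (4 * κ) := by
          rw [← Real.rpow_natCast (Z ^ κ) 4, ← Real.rpow_mul hZpos.le]
          congr 1
          push_cast
          ring
    have hlogZ : 0 < Real.log Z := Real.log_pos (by linarith)
    have hlogD : κ / 2 * Real.log Z ≤ Real.log D := by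
      rw [← Real.log_rpow hZpos]
      exact Real.log_le_log (by positivity) hDge
    have hlogDpos : 0 < Real.log D := lt_of_lt_of_le (by positivity) hlogD
    have hterm : 0 ≤ 24 * Ks / κ * Z / (Real.log Z * (1 + t ^ 2)) := by positivity
    have hterm2 : 0 ≤ Z ^ (1 - κ) := by positivity
    rcases le_or_gt |t| (Z ^ (1 / 2 : ℝ)) with hcase | hcase
    · refine (amaj_small Z hZpos D l hl t).trans ?_
      have h1 : Z * (12 / (1 + t ^ 2)) * |∑ d ∈ Icc 1 D, ∑ e ∈ Icc 1 D, l d * l e / (Nat.lcm d e)|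
          ≤ 24 * Ks / κ * Z / (Real.log Z * (1 + t ^ 2)) := by
        calc Z * (12 / (1 + t ^ 2)) * |∑ d ∈ Icc 1 D, ∑ e ∈ Icc 1 D, l d * l e / (Nat.lcm d e)|
            ≤ Z * (12 / (1 + t ^ 2)) * (Ks / Real.log D) := by gcongr
          _ ≤ Z * (12 / (1 + t ^ 2)) * (Ks / (κ / 2 * Real.log Z)) := by gcongr
          _ = 24 * Ks / κ * Z / (Real.log Z * (1 + t ^ 2)) := by
            field_simp
            ring
      have h2 : (D : ℝ) ^ 4 * (20 * (1 + |t|)) ≤ Z ^ (1 - κ) := by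
        have h3 : 1 ≤ Z ^ (1 / 2 : ℝ) := Real.one_le_rpow hZ1' (by norm_num)
        have h4 : 20 * (1 + |t|) ≤ 40 * Z ^ (1 / 2 : ℝ) := by linarith
        calc (D : ℝ) ^ 4 * (20 * (1 + |t|)) ≤ Z ^ (4 * κ) * (40 * Z ^ (1 / 2 : ℝ)) := by
              gcongr
          _ ≤ Z ^ (1 / 4 : ℝ) * (Z ^ (1 / 8 : ℝ) * Z ^ (1 / 2 : ℝ)) := by
              have : Z ^ (4 * κ) ≤ Z ^ (1 / 4 : ℝ) :=
                Real.rpow_le_rpow_of_exponent_le hZ1' (by linarith)
              gcongr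
          _ = Z ^ (7 / 8 : ℝ) := by
              rw [← Real.rpow_add hZpos, ← Real.rpow_add hZpos]
              norm_num
          _ ≤ Z ^ (1 - κ) := Real.rpow_le_rpow_of_exponent_le hZ1' (by linarith)
      linarith
    · have hB : ∀ m : ℕ, 1 ≤ m → m ≤ D * D → ‖St (Z / m) (-t)‖ ≤ Z ^ (1 - δ0) := by
        intro m hm1 hm2
        have hm1' : (1 : ℝ) ≤ m := by exact_mod_cast hm1
        have hmpos : (0 : ℝ) < m := by linarith
        have hm2' : (m : ℝ) ≤ Z ^ (1 / 8 : ℝ) := by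
          have h1 : (m : ℝ) ≤ (D : ℝ) * D := by exact_mod_cast hm2
          calc (m : ℝ) ≤ (D : ℝ) * D := h1
            _ ≤ Z ^ κ * Z ^ κ := by gcongr
            _ = Z ^ (κ + κ) := (Real.rpow_add hZpos _ _).symm
            _ ≤ Z ^ (1 / 8 : ℝ) := Real.rpow_le_rpow_of_exponent_le hZ1' (by linarith)
        have hMge : Z ^ (7 / 8 : ℝ) ≤ Z / m := by
          rw [le_div_iff₀ hmpos]
          calc Z ^ (7 / 8 : ℝ) * m ≤ Z ^ (7 / 8 : ℝ) * Z ^ (1 / 8 : ℝ) := by gcongr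
            _ = Z ^ (1 : ℝ) := by rw [← Real.rpow_add hZpos]; norm_num
            _ = Z := Real.rpow_one Z
        have hMle : Z / m ≤ Z := div_le_self hZpos.le hm1'
        have hMpos : 0 < Z / m := by positivity
        have hM1 : 1 ≤ Z / m := le_trans (Real.one_le_rpow hZ1' (by norm_num)) hMge
        have h1 : (Z / m) ^ (1 / 8 : ℝ) ≤ |(-t)| := by
          rw [abs_neg]
          calc (Z / m) ^ (1 / 8 : ℝ) ≤ Z ^ (1 / 8 : ℝ) := by gcongr
            _ ≤ Z ^ (1 / 2 : ℝ) := Real.rpow_le_rpow_of_exponent_le hZ1' (by norm_num)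
            _ ≤ |t| := hcase.le
        have h2 : |(-t)| ≤ (Z / m) ^ (2 * C) := by
          rw [abs_neg]
          calc |t| ≤ Z ^ C := ht
            _ ≤ Z ^ (7 / 8 * (2 * C)) := Real.rpow_le_rpow_of_exponent_le hZ1' (by nlinarith)
            _ = (Z ^ (7 / 8 : ℝ)) ^ (2 * C) := by rw [← Real.rpow_mul hZpos.le]
            _ ≤ (Z / m) ^ (2 * C) := by
                apply Real.rpow_le_rpow (by positivity) hMge (by positivity)
        calc ‖St (Z / m) (-t)‖ ≤ (Z / m) ^ (1 - δ0) := hSt _ (hZM.trans hMge) _ h1 h2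
          _ ≤ Z ^ (1 - δ0) := Real.rpow_le_rpow hMpos.le hMle (by linarith)
      refine (amaj_large Z D l hl t _ hB).trans ?_
      have h3 : (D : ℝ) ^ 4 * Z ^ (1 - δ0) ≤ Z ^ (1 - κ) := by
        calc (D : ℝ) ^ 4 * Z ^ (1 - δ0) ≤ Z ^ (4 * κ) * Z ^ (1 - δ0) := by gcongr
          _ = Z ^ (4 * κ + (1 - δ0)) := (Real.rpow_add hZpos _ _).symm
          _ ≤ Z ^ (1 - κ) := by
            apply Real.rpow_le_rpow_of_exponent_le hZ1'
            rw [hκ]
            linarith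
      linarith

end Pool.Agent.MR
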