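import Pool.Agent.MR.ATent

set_option autoImplicit false

open Finset MeasureTheory

namespace Pool.Agent.MR

namespace StM

/-- tent on the logarithmic scale -/
noncomputable def tt (L x : ℝ) : ℝ := max 0 (2 - |x - L|)

/-- the summand on the logarithmic scale -/
noncomputable def GG (L t x : ℝ) : ℂ := (tt L x : ℂ) * Complex.exp ((t * x : ℝ) * Complex.I)

/-- clamp to `[L - 2, L + 2]` -/
noncomputable def cl (L x : ℝ) : ℝ := max (L - 2) (min x (L + 2))

theorem tt_nonneg (L x : ℝ) : 0 ≤ tt L x := le_max_left _ _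

theorem tt_le (L x : ℝ) : tt L x ≤ 2 := by
  unfold tt
  have := abs_nonneg (x - L)
  exact max_le (by norm_num) (by linarith)

theorem tt_lip (L x y : ℝ) : |tt L x - tt L y| ≤ |x - y| := by
  unfold tt
  have h1 := abs_max_sub_max_le_max (0 : ℝ) (2 - |x - L|) 0 (2 - |y - L|)
  have h2 : |2 - |x - L| - (2 - |y - L|)| ≤ |x - y| := by
    have h3 := abs_abs_sub_abs_le_abs_sub (y - L) (x - L)
    have e1 : 2 - |x - L| - (2 - |y - L|) = |y - L| - |x - L| := by ring
    have e2 : y - L - (x - L) = -(x - y) := by ring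
    rw [e1]
    rw [e2, abs_neg] at h3
    exact h3
  refine h1.trans ?_
  rw [sub_self, abs_zero]
  exact max_le (abs_nonneg _) h2

theorem norm_E (a : ℝ) : ‖Complex.exp ((a : ℝ) * Complex.I)‖ = 1 := Complex.norm_exp_ofReal_mul_I a

theorem norm_E_sub (a b : ℝ) :
    ‖Complex.exp ((a : ℝ) * Complex.I) - Complex.exp ((b : ℝ) * Complex.I)‖ ≤ |a - b| := by
  have e : Complex.exp ((a : ℝ) * Complex.I) - Complex.exp ((b : ℝ) * Complex.I) =
      Complex.exp ((b : ℝ) * Complex.I) * (Complex.exp (Complex.I * ((a - b : ℝ) : ℂ)) - 1) := by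
    rw [mul_sub, ← Complex.exp_add, mul_one]
    congr 2
    push_cast; ring
  rw [e, norm_mul, norm_E, one_mul]
  exact Real.norm_exp_I_mul_ofReal_sub_one_le

theorem norm_GG_le (L t x : ℝ) : ‖GG L t x‖ ≤ 2 := by
  unfold GG
  rw [norm_mul, norm_E, mul_one, Complex.norm_real, Real.norm_eq_abs, abs_of_nonneg (tt_nonneg L x)]
  exact tt_le L x

theorem GG_lip (L t x y : ℝ) : ‖GG L t x - GG L t y‖ ≤ (1 + 2 * |t|) * |x - y| := by
  have e : GG L t x - GG L t y = ((tt L x - tt L y : ℝ) : ℂ) * Complex.exp ((t * x : ℝ) * Complex.I) +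
      (tt L y : ℂ) * (Complex.exp ((t * x : ℝ) * Complex.I) - Complex.exp ((t * y : ℝ) * Complex.I)) := by
    unfold GG; push_cast; ring
  rw [e]
  refine (norm_add_le _ _).trans ?_
  rw [norm_mul, norm_mul, norm_E, mul_one, Complex.norm_real, Complex.norm_real, Real.norm_eq_abs,
    Real.norm_eq_abs, abs_of_nonneg (tt_nonneg L y)]
  have h1 := tt_lip L x y
  have h2 := norm_E_sub (t * x) (t * y)
  have e2 : |t * x - t * y| = |t| * |x - y| := by rw [← mul_sub, abs_mul]
  rw [e2] at h2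
  have h3 : tt L y * ‖Complex.exp ((t * x : ℝ) * Complex.I) - Complex.exp ((t * y : ℝ) * Complex.I)‖ ≤
      2 * (|t| * |x - y|) := mul_le_mul (tt_le L y) h2 (norm_nonneg _) (by norm_num)
  linarith

theorem tt_eq_zero {L x : ℝ} (h : x ≤ L - 2 ∨ L + 2 ≤ x) : tt L x = 0 := by
  unfold tt
  apply max_eq_left
  rcases h with h | h
  · have := neg_le_abs (x - L)
    linarith
  · have := le_abs_self (x - L)
    linarith

theorem GG_eq_zero {L t x : ℝ} (h : x ≤ L - 2 ∨ L + 2 ≤ x) : GG L t x = 0 := by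
  unfold GG; rw [tt_eq_zero h]; simp

theorem GG_cl (L t x : ℝ) : GG L t (cl L x) = GG L t x := by
  unfold cl
  rcases le_total x (L - 2) with h | h
  · rw [min_eq_left (by linarith), max_eq_left h, GG_eq_zero (Or.inl le_rfl), GG_eq_zero (Or.inl h)]
  · rcases le_total x (L + 2) with h' | h'
    · rw [min_eq_left h', max_eq_right h]
    · rw [min_eq_right h', max_eq_right (by linarith), GG_eq_zero (Or.inr le_rfl),
        GG_eq_zero (Or.inr h')]

theorem cl_mono (L : ℝ) {x y : ℝ} (h : x ≤ y) : cl L x ≤ cl L y := by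
  unfold cl
  exact max_le_max le_rfl (min_le_min h le_rfl)

theorem cl_ge (L x : ℝ) : L - 2 ≤ cl L x := le_max_left _ _

theorem cl_le (L x : ℝ) : cl L x ≤ L + 2 := max_le (by linarith) (min_le_right _ _)

theorem continuous_GG (L t : ℝ) : Continuous (GG L t) := by
  unfold GG tt
  fun_prop

/-- the summand -/
noncomputable def g (L t u : ℝ) : ℂ := GG L t (Real.log u)

theorem measurable_g (L t : ℝ) : Measurable (g L t) :=
  (continuous_GG L t).measurable.comp Real.measurable_log

theorem norm_g_le (L t u : ℝ) : ‖g L t u‖ ≤ 2 := norm_GG_le _ _ _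

theorem integrable_g (L t a b : ℝ) : IntervalIntegrable (g L t) volume a b := by
  rw [intervalIntegrable_iff]
  refine Measure.integrableOn_of_bounded (M := 2) ?_ (measurable_g L t).aestronglyMeasurable ?_
  · rw [Set.uIoc, Real.volume_Ioc]; exact ENNReal.ofReal_ne_top
  · exact Filter.Eventually.of_forall (fun x => norm_g_le L t x)

theorem step_zero (L t : ℝ) : ‖g L t 1 - ∫ u in (0 : ℝ)..1, g L t u‖ ≤ 4 := by
  have h1 : ‖∫ u in (0 : ℝ)..1, g L t u‖ ≤ 2 * |1 - 0| :=
    intervalIntegral.norm_integral_le_of_norm_le_const (fun u _ => norm_g_le L t u)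
  norm_num at h1
  have h2 := norm_g_le L t 1
  refine (norm_sub_le _ _).trans ?_
  linarith

theorem step_pos (L t : ℝ) {k : ℕ} (hk : 1 ≤ k) :
    ‖g L t ((k + 1 : ℕ) : ℝ) - ∫ u in (k : ℝ)..((k + 1 : ℕ) : ℝ), g L t u‖ ≤
      (1 + 2 * |t|) * (cl L (Real.log ((k + 1 : ℕ) : ℝ)) - cl L (Real.log k)) := by
  have hk0 : (0 : ℝ) < k := by exact_mod_cast hk
  have e1 : g L t ((k + 1 : ℕ) : ℝ) = ∫ _u in (k : ℝ)..((k + 1 : ℕ) : ℝ), g L t ((k + 1 : ℕ) : ℝ) := by
    rw [intervalIntegral.integral_const]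
    push_cast
    simp
  rw [e1, ← intervalIntegral.integral_sub intervalIntegrable_const (integrable_g L t _ _)]
  have hle : (k : ℝ) ≤ ((k + 1 : ℕ) : ℝ) := by push_cast; linarith
  have h2 : ∀ u ∈ Set.uIoc (k : ℝ) ((k + 1 : ℕ) : ℝ),
      ‖g L t ((k + 1 : ℕ) : ℝ) - g L t u‖ ≤
      (1 + 2 * |t|) * (cl L (Real.log ((k + 1 : ℕ) : ℝ)) - cl L (Real.log k)) := by
    intro u hu
    rw [Set.uIoc_of_le hle] at hu
    have hu0 : 0 < u := hk0.trans hu.1
    unfold g
    rw [← GG_cl L t (Real.log ((k + 1 : ℕ) : ℝ)), ← GG_cl L t (Real.log u)]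
    refine (GG_lip L t _ _).trans ?_
    apply mul_le_mul_of_nonneg_left _ (by positivity)
    have m1 := cl_mono L (Real.log_le_log hu0 hu.2)
    have m2 := cl_mono L (Real.log_le_log hk0 hu.1.le)
    rw [abs_of_nonneg (by linarith)]
    linarith
  have h3 := intervalIntegral.norm_integral_le_of_norm_le_const h2
  have e3 : |((k + 1 : ℕ) : ℝ) - (k : ℝ)| = 1 := by push_cast; rw [add_sub_cancel_left]; norm_num
  rw [e3, mul_one] at h3
  exact h3

theorem sum_sub_integral (L t : ℝ) (N : ℕ) :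
    ‖∑ k ∈ range N, (g L t ((k + 1 : ℕ) : ℝ) - ∫ u in (k : ℝ)..((k + 1 : ℕ) : ℝ), g L t u)‖ ≤
      4 + (1 + 2 * |t|) * (cl L (Real.log N) - (L - 2)) := by
  induction N with
  | zero =>
    rw [range_zero, sum_empty, norm_zero]
    have h1 := cl_ge L (Real.log ((0 : ℕ) : ℝ))
    have h2 : 0 ≤ (1 + 2 * |t|) * (cl L (Real.log ((0 : ℕ) : ℝ)) - (L - 2)) :=
      mul_nonneg (by positivity) (by linarith)
    linarith
  | succ N ih =>
    rw [sum_range_succ]
    rcases Nat.eq_zero_or_pos N with h0 | h0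
    · subst h0
      rw [range_zero, sum_empty, zero_add]
      have h1 := cl_ge L (Real.log ((0 + 1 : ℕ) : ℝ))
      have h2 : 0 ≤ (1 + 2 * |t|) * (cl L (Real.log ((0 + 1 : ℕ) : ℝ)) - (L - 2)) :=
        mul_nonneg (by positivity) (by linarith)
      have h3 := step_zero L t
      have e : ‖g L t ((0 + 1 : ℕ) : ℝ) - ∫ u in ((0 : ℕ) : ℝ)..((0 + 1 : ℕ) : ℝ), g L t u‖ =
          ‖g L t 1 - ∫ u in (0 : ℝ)..1, g L t u‖ := by
        push_cast
        simp
      rw [e]
      linarith
    · refine (norm_add_le _ _).trans ?_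
      have h1 := step_pos L t h0
      have e : (1 + 2 * |t|) * (cl L (Real.log ((N + 1 : ℕ) : ℝ)) - (L - 2)) =
          (1 + 2 * |t|) * (cl L (Real.log ((N + 1 : ℕ) : ℝ)) - cl L (Real.log N)) +
          (1 + 2 * |t|) * (cl L (Real.log N) - (L - 2)) := by ring
      rw [e]
      linarith

theorem exp_s {t u : ℝ} (hu : 0 < u) : Complex.exp ((1 + t * Complex.I) * (Real.log u : ℂ)) =
    (u : ℂ) * Complex.exp ((t * Real.log u : ℝ) * Complex.I) := by
  have e : (1 + t * Complex.I) * (Real.log u : ℂ) =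
      (Real.log u : ℂ) + ((t * Real.log u : ℝ) : ℂ) * Complex.I := by push_cast; ring
  rw [e, Complex.exp_add, ← Complex.ofReal_exp, Real.exp_log hu]

theorem s_ne (t : ℝ) : (1 + t * Complex.I : ℂ) ≠ 0 := by
  intro h
  have := congrArg Complex.re h
  simp at this

theorem deriv_left (L t : ℝ) {u : ℝ} (hu : 0 < u) (h1 : L - 2 ≤ Real.log u) (h2 : Real.log u ≤ L) :
    HasDerivAt (fun u : ℝ => Complex.exp ((1 + t * Complex.I) * (Real.log u : ℂ)) *
      ((2 + (Real.log u : ℂ) - L) / (1 + t * Complex.I) - 1 / (1 + t * Complex.I) ^ 2))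
      (g L t u) u := by
  have hlog : HasDerivAt (fun u : ℝ => (Real.log u : ℂ)) ((u⁻¹ : ℝ) : ℂ) u :=
    (Real.hasDerivAt_log hu.ne').ofReal_comp
  have hE := (hlog.const_mul (1 + t * Complex.I : ℂ)).cexp
  have hP := (((hlog.const_add (2 : ℂ)).sub_const (L : ℂ)).div_const (1 + t * Complex.I : ℂ)).sub_const
    (1 / (1 + t * Complex.I : ℂ) ^ 2)
  refine (hE.mul hP).congr_deriv ?_
  have hs := s_ne t
  have hu' : (u : ℂ) ≠ 0 := by exact_mod_cast hu.ne'
  have hg : g L t u = (2 + (Real.log u : ℂ) - L) * Complex.exp ((t * Real.log u : ℝ) * Complex.I) := by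
    unfold g GG tt
    rw [abs_of_nonpos (by linarith), max_eq_right (by linarith)]
    push_cast; ring
  rw [hg, exp_s hu]
  push_cast
  field_simp
  ring

theorem deriv_right (L t : ℝ) {u : ℝ} (hu : 0 < u) (h1 : L ≤ Real.log u) (h2 : Real.log u ≤ L + 2) :
    HasDerivAt (fun u : ℝ => Complex.exp ((1 + t * Complex.I) * (Real.log u : ℂ)) *
      ((2 - (Real.log u : ℂ) + L) / (1 + t * Complex.I) + 1 / (1 + t * Complex.I) ^ 2))
      (g L t u) u := by
  have hlog : HasDerivAt (fun u : ℝ => (Real.log u : ℂ)) ((u⁻¹ : ℝ) : ℂ) u :=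
    (Real.hasDerivAt_log hu.ne').ofReal_comp
  have hE := (hlog.const_mul (1 + t * Complex.I : ℂ)).cexp
  have hP := (((hlog.const_sub (2 : ℂ)).add_const (L : ℂ)).div_const (1 + t * Complex.I : ℂ)).add_const
    (1 / (1 + t * Complex.I : ℂ) ^ 2)
  refine (hE.mul hP).congr_deriv ?_
  have hs := s_ne t
  have hu' : (u : ℂ) ≠ 0 := by exact_mod_cast hu.ne'
  have hg : g L t u = (2 - (Real.log u : ℂ) + L) * Complex.exp ((t * Real.log u : ℝ) * Complex.I) := by
    unfold g GG tt
    rw [abs_of_nonneg (by linarith), max_eq_right (by linarith)]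
    push_cast; ring
  rw [hg, exp_s hu]
  push_cast
  field_simp
  ring

theorem integral_g (L t B : ℝ) (hB : Real.exp (L + 2) ≤ B) :
    ∫ u in (0 : ℝ)..B, g L t u = (Real.exp L : ℂ) * Complex.exp ((t * L : ℝ) * Complex.I) *
      (Complex.exp (2 * (1 + t * Complex.I)) + Complex.exp (-2 * (1 + t * Complex.I)) - 2)
        / (1 + t * Complex.I) ^ 2 := by
  set a := Real.exp (L - 2) with ha
  set b := Real.exp L with hb
  set c := Real.exp (L + 2) with hc
  have ha0 : 0 < a := Real.exp_pos _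
  have hab : a ≤ b := Real.exp_le_exp.mpr (by linarith)
  have hbc : b ≤ c := Real.exp_le_exp.mpr (by linarith)
  have hla : Real.log a = L - 2 := Real.log_exp _
  have hlb : Real.log b = L := Real.log_exp _
  have hlc : Real.log c = L + 2 := Real.log_exp _
  have I1 : ∫ u in (0 : ℝ)..a, g L t u = 0 := by
    apply intervalIntegral.integral_zero_ae
    refine Filter.Eventually.of_forall (fun u hu => ?_)
    rw [Set.uIoc_of_le ha0.le] at hu
    apply GG_eq_zero
    left
    rw [← hla]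
    exact Real.log_le_log hu.1 hu.2
  have I4 : ∫ u in c..B, g L t u = 0 := by
    apply intervalIntegral.integral_zero_ae
    refine Filter.Eventually.of_forall (fun u hu => ?_)
    rw [Set.uIoc_of_le hB] at hu
    apply GG_eq_zero
    right
    rw [← hlc]
    exact Real.log_le_log (Real.exp_pos _) hu.1.le
  have I2 := intervalIntegral.integral_eq_sub_of_hasDerivAt (a := a) (b := b)
    (f := fun u : ℝ => Complex.exp ((1 + t * Complex.I) * (Real.log u : ℂ)) *
      ((2 + (Real.log u : ℂ) - L) / (1 + t * Complex.I) - 1 / (1 + t * Complex.I) ^ 2))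
    (f' := g L t) (by
      intro u hu
      rw [Set.uIcc_of_le hab] at hu
      have hu0 := ha0.trans_le hu.1
      apply deriv_left L t hu0
      · rw [← hla]; exact Real.log_le_log ha0 hu.1
      · rw [← hlb]; exact Real.log_le_log hu0 hu.2) (integrable_g L t _ _)
  have I3 := intervalIntegral.integral_eq_sub_of_hasDerivAt (a := b) (b := c)
    (f := fun u : ℝ => Complex.exp ((1 + t * Complex.I) * (Real.log u : ℂ)) *
      ((2 - (Real.log u : ℂ) + L) / (1 + t * Complex.I) + 1 / (1 + t * Complex.I) ^ 2))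
    (f' := g L t) (by
      intro u hu
      rw [Set.uIcc_of_le hbc] at hu
      have hb0 : 0 < b := Real.exp_pos _
      have hu0 := hb0.trans_le hu.1
      apply deriv_right L t hu0
      · rw [← hlb]; exact Real.log_le_log hb0 hu.1
      · rw [← hlc]; exact Real.log_le_log hu0 hu.2) (integrable_g L t _ _)
  rw [hla, hlb] at I2
  rw [hlb, hlc] at I3
  rw [← intervalIntegral.integral_add_adjacent_intervals (integrable_g L t 0 a) (integrable_g L t a B),
    ← intervalIntegral.integral_add_adjacent_intervals (integrable_g L t a b) (integrable_g L t b B),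
    ← intervalIntegral.integral_add_adjacent_intervals (integrable_g L t b c) (integrable_g L t c B),
    I1, I4, I2, I3]
  have hs := s_ne t
  have eE : (b : ℂ) * Complex.exp ((t * L : ℝ) * Complex.I) =
      Complex.exp ((1 + t * Complex.I) * (L : ℂ)) := by
    have h := exp_s (t := t) (u := b) (Real.exp_pos _)
    rw [hlb] at h
    exact h.symm
  rw [eE]
  have e1 : Complex.exp ((1 + t * Complex.I) * ((L - 2 : ℝ) : ℂ)) =
      Complex.exp ((1 + t * Complex.I) * (L : ℂ)) * Complex.exp (-2 * (1 + t * Complex.I)) := by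
    rw [← Complex.exp_add]; congr 1; push_cast; ring
  have e2 : Complex.exp ((1 + t * Complex.I) * ((L + 2 : ℝ) : ℂ)) =
      Complex.exp ((1 + t * Complex.I) * (L : ℂ)) * Complex.exp (2 * (1 + t * Complex.I)) := by
    rw [← Complex.exp_add]; congr 1; push_cast; ring
  rw [e1, e2]
  push_cast
  field_simp
  ring

end StM

open StM in
/-- The main term of `St`. -/
theorem St_main (M : ℝ) (hM : 0 < M) (t : ℝ) :
    ‖St M t - (M : ℂ) * Complex.exp ((t * Real.log M : ℝ) * Complex.I) *
      (Complex.exp (2 * (1 + t * Complex.I)) + Complex.exp (-2 * (1 + t * Complex.I)) - 2)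
        / (1 + t * Complex.I) ^ 2‖ ≤ 20 * (1 + |t|) := by
  set L := Real.log M with hL
  have hML : Real.exp L = M := Real.exp_log hM
  have hB : Real.exp (L + 2) ≤ 8 * M := by
    rw [Real.exp_add, hML]
    have h2 : Real.exp 2 ≤ 8 := by
      have h1 := Real.exp_one_lt_d9
      have e : Real.exp 2 = Real.exp 1 * Real.exp 1 := by rw [← Real.exp_add]; norm_num
      have h0 := Real.exp_pos 1
      rw [e]
      nlinarith
    nlinarith
  have hI := integral_g L t (8 * M) hB
  rw [hML] at hI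
  rw [← hI]
  set N := ⌊8 * M⌋₊ with hN
  have hN1 : (N : ℝ) ≤ 8 * M := Nat.floor_le (by linarith)
  have hN2 : 8 * M < N + 1 := Nat.lt_floor_add_one _
  have hS : St M t = ∑ k ∈ range N, g L t ((k + 1 : ℕ) : ℝ) := by
    unfold St
    rw [← hN]
    have e : Icc 1 N = (range N).image (fun k => k + 1) := by
      ext n
      rw [mem_Icc, mem_image]
      constructor
      · rintro ⟨h1, h2⟩
        exact ⟨n - 1, by rw [mem_range]; omega, by omega⟩
      · rintro ⟨k, hk, rfl⟩
        rw [mem_range] at hk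
        omega
    rw [e, sum_image (by intro a _ b _ h; simpa using h)]
    apply sum_congr rfl
    intro k _
    have hk0 : (0 : ℝ) < ((k + 1 : ℕ) : ℝ) := by positivity
    unfold g GG tent tt ni
    rw [Real.log_div hk0.ne' hM.ne', ← hL]
    congr 2
    push_cast
    ring
  have hInt : ∫ u in (0 : ℝ)..(8 * M), g L t u =
      (∑ k ∈ range N, ∫ u in (k : ℝ)..((k + 1 : ℕ) : ℝ), g L t u) + ∫ u in (N : ℝ)..(8 * M), g L t u := by
    rw [intervalIntegral.sum_integral_adjacent_intervals (a := fun k : ℕ => (k : ℝ))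
      (fun k _ => integrable_g L t _ _)]
    push_cast
    rw [intervalIntegral.integral_add_adjacent_intervals (integrable_g L t _ _) (integrable_g L t _ _)]
  rw [hS, hInt]
  have e3 : ∑ k ∈ range N, g L t ((k + 1 : ℕ) : ℝ) -
      ((∑ k ∈ range N, ∫ u in (k : ℝ)..((k + 1 : ℕ) : ℝ), g L t u) + ∫ u in (N : ℝ)..(8 * M), g L t u) =
      ∑ k ∈ range N, (g L t ((k + 1 : ℕ) : ℝ) - ∫ u in (k : ℝ)..((k + 1 : ℕ) : ℝ), g L t u) -
      ∫ u in (N : ℝ)..(8 * M), g L t u := by
    rw [sum_sub_distrib]; ring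
  rw [e3]
  have h1 := sum_sub_integral L t N
  have h2 : ‖∫ u in (N : ℝ)..(8 * M), g L t u‖ ≤ 2 * |8 * M - N| :=
    intervalIntegral.norm_integral_le_of_norm_le_const (fun u _ => norm_g_le L t u)
  rw [abs_of_nonneg (by linarith)] at h2
  have h3 := cl_le L (Real.log N)
  have ht := abs_nonneg t
  have h4 : (1 + 2 * |t|) * (cl L (Real.log N) - (L - 2)) ≤ (1 + 2 * |t|) * 4 :=
    mul_le_mul_of_nonneg_left (by linarith) (by linarith)
  refine (norm_sub_le _ _).trans ?_
  linarith

end Pool.Agent.MR
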