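import Pool.Agent.MR.ADefs

set_option autoImplicit false

open Finset MeasureTheory

namespace Pool.Agent.MR

/-- The tent weight `max 0 (2 - |log (n/Z)|)`. -/
noncomputable def tent (Z : ℝ) (n : ℕ) : ℝ := max 0 (2 - |Real.log (n / Z)|)

/-- The sum `∑ n^{it}` with tent weight (the support is contained in `[M/8, 8M]`). -/
noncomputable def St (M t : ℝ) : ℂ :=
  ∑ n ∈ Icc 1 ⌊8 * M⌋₊, (tent M n : ℂ) * ni n (-t)

end Pool.Agent.MR
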