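import Pool.Agent.MR.ALarge
import Pool.Agent.MR.ADecomp
import Pool.Agent.MR.ACoef
import Pool.Agent.H6.HR.Mertens

set_option autoImplicit false

open Finset MeasureTheory

namespace Pool.Agent.MR

private theorem atopb_norm_sum_sq (s : Finset ℕ) (F : ℕ → ℂ) :
    ‖∑ v ∈ s, F v‖ ^ 2 ≤ (s.card : ℝ) * ∑ v ∈ s, ‖F v‖ ^ 2 := by
  calc ‖∑ v ∈ s, F v‖ ^ 2 ≤ (∑ v ∈ s, ‖F v‖) ^ 2 := by
        gcongr
        exact norm_sum_le _ _
    _ ≤ (s.card : ℝ) * ∑ v ∈ s, ‖F v‖ ^ 2 := sq_sum_le_card_mul_sum_sq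

private theorem atopb_two (a b : ℂ) : ‖a + b‖ ^ 2 ≤ 2 * ‖a‖ ^ 2 + 2 * ‖b‖ ^ 2 := by
  have h := norm_add_le a b
  have h0 := norm_nonneg (a + b)
  have ha := norm_nonneg a
  have hb := norm_nonneg b
  nlinarith [sq_nonneg (‖a‖ - ‖b‖)]

/-- The exceptional set, using the pointwise hypothesis. -/
theorem top_bound (f : ℕ → ℂ) (hf : CM f) (hpw : PW f) (η : ℝ) (hη : 0 < η) :
    ∃ ε0 N0 : ℝ, 0 < ε0 ∧ 1 ≤ N0 ∧ ∀ N : ℝ, N0 ≤ N → ∀ U : Set ℝ, MeasurableSet U →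
      (∀ t ∈ U, |t| ≤ N ^ (3 / 2 : ℝ)) → (volume U).toReal ≤ N ^ ε0 → ∀ T : ℝ, 1 ≤ T → T ≤ N →
      ∫ t in U, ‖dp (blk N) f t‖ ^ 2 * gw T t ≤ η * N ^ 2 := by
  obtain ⟨K0, hK0, hdec⟩ := decomp
  obtain ⟨Cm, hCm, hmert⟩ := Pool.Agent.H6.HR.mertens_second_lower
  set L0 : ℝ := 1200 * K0 / η + 1 with hL0
  have hL0pos : 1 ≤ L0 := by
    have : 0 ≤ 1200 * K0 / η := by positivity
    linarith
  set H : ℕ := ⌈1200 * K0 / η⌉₊ + 2 with hH
  have hH2 : 2 ≤ H := by omega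
  have hHr : 1200 * K0 / η ≤ H := by
    have := Nat.le_ceil (1200 * K0 / η)
    rw [hH]
    push_cast
    linarith
  have hHr2 : (2 : ℝ) ≤ H := by exact_mod_cast hH2
  have hHpos : (0 : ℝ) < H := by linarith
  set θ : ℝ := Real.exp (-(L0 + 1)) / 4 with hθ
  have hθpos : 0 < θ := by positivity
  have hθ1 : θ ≤ 1 / 4 := by
    have : Real.exp (-(L0 + 1)) ≤ 1 := Real.exp_le_one_iff.2 (by linarith)
    rw [hθ]
    linarith
  obtain ⟨δ, K1, Z1, hδ, hK1, hZ1, hlv⟩ := large_values (3 / θ) (by positivity)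
  set η2 : ℝ := θ * √(η / (16 * K1)) / H with hη2
  have hη2pos : 0 < η2 := by
    have : 0 < √(η / (16 * K1)) := Real.sqrt_pos.2 (by positivity)
    positivity
  have hη2sq : 8 * K1 * (H : ℝ) ^ 2 / θ ^ 2 * η2 ^ 2 = η / 2 := by
    have hs : √(η / (16 * K1)) ^ 2 = η / (16 * K1) := Real.sq_sqrt (by positivity)
    have hθne : θ ≠ 0 := hθpos.ne'
    have hHne : (H : ℝ) ≠ 0 := hHpos.ne'
    have e1 : 8 * K1 * (H : ℝ) ^ 2 / θ ^ 2 * η2 ^ 2 = 8 * K1 * (√(η / (16 * K1)) ^ 2) := by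
      rw [hη2]
      generalize √(η / (16 * K1)) = q
      field_simp
    rw [e1, hs]
    field_simp
    ring
  obtain ⟨M0, hM0⟩ := hpw η2 hη2pos
  -- eventual conditions
  have hev : ∀ᶠ N : ℝ in Filter.atTop, 1 ≤ N ∧ 3 ≤ N ^ θ ∧ Cm / θ ≤ Real.log N ∧
      Z1 ≤ N ^ (θ / 2) ∧ M0 ≤ N ^ (3 / 4 : ℝ) ∧ 1200 * K0 / η ≤ N ^ (1 / 2 : ℝ) ∧
      2 / θ ≤ Real.log N := by
    refine (Filter.eventually_ge_atTop 1).and ?_
    refine ((tendsto_rpow_atTop hθpos).eventually_ge_atTop 3).and ?_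
    refine (Real.tendsto_log_atTop.eventually_ge_atTop _).and ?_
    refine ((tendsto_rpow_atTop (by positivity : 0 < θ / 2)).eventually_ge_atTop Z1).and ?_
    refine ((tendsto_rpow_atTop (by norm_num : (0 : ℝ) < 3 / 4)).eventually_ge_atTop M0).and ?_
    refine ((tendsto_rpow_atTop (by norm_num : (0 : ℝ) < 1 / 2)).eventually_ge_atTop _).and ?_
    exact Real.tendsto_log_atTop.eventually_ge_atTop _
  obtain ⟨N1, hN1⟩ := Filter.eventually_atTop.1 hev
  refine ⟨θ * δ / 2, max N1 1, by positivity, le_max_right _ _, ?_⟩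
  intro N hN U hU hUt hUv T hT1 hTN
  obtain ⟨hN1', hNθ, hNC, hNZ, hNM, hNs, hNl⟩ := hN1 N ((le_max_left _ _).trans hN)
  have hNpos : 0 < N := by linarith
  have hlogN : 8 ≤ Real.log N := by
    have : 8 ≤ 2 / θ := by
      rw [le_div_iff₀ hθpos]; linarith
    linarith
  have hlogpos : 0 < Real.log N := by linarith
  set P : Finset ℕ := (Pool.Agent.CoprimeSieve.pr (N ^ (1 / 4 : ℝ))).filter
    (fun p : ℕ => N ^ θ < (p : ℝ)) with hP
  have hPprime : ∀ p ∈ P, p.Prime := by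
    intro p hp
    rw [hP, mem_filter] at hp
    have h1 := hp.1
    unfold Pool.Agent.CoprimeSieve.pr at h1
    exact (mem_filter.1 h1).2
  have hPle : ∀ p ∈ P, (p : ℝ) ≤ N ^ (1 / 4 : ℝ) := by
    intro p hp
    rw [hP, mem_filter] at hp
    have h1 := hp.1
    unfold Pool.Agent.CoprimeSieve.pr at h1
    have h2 := (mem_Icc.1 (mem_filter.1 h1).1).2
    exact (Nat.le_floor_iff (by positivity)).1 h2
  have hPge : ∀ p ∈ P, N ^ θ < (p : ℝ) := by
    intro p hp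
    rw [hP, mem_filter] at hp
    exact hp.2
  have hL : L0 ≤ rs P := by
    have h1 := hmert (N ^ θ) (N ^ (1 / 4 : ℝ)) (by linarith)
      (Real.rpow_le_rpow_of_exponent_le hN1' hθ1)
    rw [Real.log_rpow hNpos, Real.log_rpow hNpos] at h1
    have h2 : 1 / 4 * Real.log N / (θ * Real.log N) = Real.exp (L0 + 1) := by
      rw [hθ, Real.exp_neg]
      field_simp
    rw [h2, Real.log_exp] at h1
    have h3 : Cm / (θ * Real.log N) ≤ 1 := by
      rw [div_le_one (by positivity)]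
      rw [div_le_iff₀ hθpos] at hNC
      linarith
    unfold rs
    linarith
  have hL1 : 1 ≤ rs P := hL0pos.trans hL
  set Zn : ℕ := ⌊N ^ (1 / 4 : ℝ)⌋₊ with hZn
  have hPZ : ∀ p ∈ P, p ≤ Zn := fun p hp => Nat.le_floor (hPle p hp)
  have hZnr : (Zn : ℝ) ≤ N ^ (1 / 4 : ℝ) := Nat.floor_le (by positivity)
  have hZn2 : (Zn : ℝ) ^ 2 ≤ N ^ (1 / 2 : ℝ) := by
    calc (Zn : ℝ) ^ 2 ≤ (N ^ (1 / 4 : ℝ)) ^ 2 := by gcongr
      _ = N ^ (1 / 2 : ℝ) := by
        rw [← Real.rpow_natCast (N ^ (1 / 4 : ℝ)) 2, ← Real.rpow_mul hNpos.le]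
        norm_num
  obtain ⟨e, hdece, hesum⟩ := hdec f hf P hPprime Zn hPZ hL1 H (by omega) N hN1'
  -- bounded set
  have hUbd : U ⊆ Set.Icc (-(N ^ (3 / 2 : ℝ))) (N ^ (3 / 2 : ℝ)) := by
    intro t ht
    exact abs_le.1 (hUt t ht)
  -- facts on v
  have hvge : ∀ v ∈ vs H P, θ / 2 * Real.log N ≤ (v : ℝ) / H := by
    intro v hv
    unfold vs at hv
    rw [mem_image] at hv
    obtain ⟨p, hp, rfl⟩ := hv
    rw [le_div_iff₀ hHpos]
    have h1 := Nat.lt_floor_add_one ((H : ℝ) * Real.log (p : ℝ))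
    have h2 : θ * Real.log N ≤ Real.log p := by
      rw [← Real.log_rpow hNpos]
      exact Real.log_le_log (by positivity) (hPge p hp).le
    have h3 : (H : ℝ) * (θ * Real.log N) ≤ H * Real.log p := by gcongr
    have h4 : 1 ≤ θ / 2 * Real.log N * H := by
      rw [div_le_iff₀ hθpos] at hNl
      have : 1 ≤ θ / 2 * Real.log N := by linarith
      nlinarith
    nlinarith
  have hvle : ∀ v ∈ vs H P, (v : ℝ) / H ≤ 1 / 4 * Real.log N := by
    intro v hv
    unfold vs at hv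
    rw [mem_image] at hv
    obtain ⟨p, hp, rfl⟩ := hv
    rw [div_le_iff₀ hHpos]
    have hp1 : (1 : ℝ) ≤ p := by exact_mod_cast (hPprime p hp).one_lt.le
    have h1 := Nat.floor_le (mul_nonneg hHpos.le (Real.log_nonneg hp1))
    have h2 : Real.log p ≤ 1 / 4 * Real.log N := by
      rw [← Real.log_rpow hNpos]
      exact Real.log_le_log (by linarith) (hPle p hp)
    have h3 : (H : ℝ) * Real.log p ≤ H * (1 / 4 * Real.log N) := by gcongr
    linarith
  have hvcard : ((vs H P).card : ℝ) ≤ H * Real.log N := by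
    have h1 : vs H P ⊆ range (⌊(H : ℝ) * (1 / 4 * Real.log N)⌋₊ + 1) := by
      intro v hv
      rw [mem_range, Nat.lt_succ_iff]
      apply Nat.le_floor
      have := hvle v hv
      rw [div_le_iff₀ hHpos] at this
      linarith
    have h2 := card_le_card h1
    rw [card_range] at h2
    have h3 : ((vs H P).card : ℝ) ≤ (⌊(H : ℝ) * (1 / 4 * Real.log N)⌋₊ : ℝ) + 1 := by
      exact_mod_cast h2
    have h4 := Nat.floor_le (show 0 ≤ (H : ℝ) * (1 / 4 * Real.log N) by positivity)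
    nlinarith
  -- local bounds
  have hR : ∀ v ∈ vs H P, ∀ t ∈ U, ‖dp (blk (N / Real.exp (v / H))) f t‖
      ≤ η2 * (N / Real.exp (v / H)) := by
    intro v hv t ht
    have hMge : N ^ (3 / 4 : ℝ) ≤ N / Real.exp (v / H) := by
      rw [le_div_iff₀ (Real.exp_pos _)]
      have h1 : Real.exp ((v : ℝ) / H) ≤ N ^ (1 / 4 : ℝ) := by
        rw [Real.rpow_def_of_pos hNpos]
        apply Real.exp_le_exp.2
        have := hvle v hv
        linarith
      calc N ^ (3 / 4 : ℝ) * Real.exp ((v : ℝ) / H) ≤ N ^ (3 / 4 : ℝ) * N ^ (1 / 4 : ℝ) := by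
            gcongr
        _ = N := by
            rw [← Real.rpow_add hNpos]
            norm_num
    apply hM0 _ (hNM.trans hMge)
    calc |t| ≤ N ^ (3 / 2 : ℝ) := hUt t ht
      _ = (N ^ (3 / 4 : ℝ)) ^ 2 := by
        rw [← Real.rpow_natCast (N ^ (3 / 4 : ℝ)) 2, ← Real.rpow_mul hNpos.le]
        norm_num
      _ ≤ (N / Real.exp (v / H)) ^ 2 := by
        have : 0 ≤ N ^ (3 / 4 : ℝ) := by positivity
        gcongr
  have hPv : ∀ v ∈ vs H P, ∫ t in U, ‖dp (pb H P v) f t‖ ^ 2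
      ≤ K1 * (Real.exp (v / H) / (v / H)) ^ 2 := by
    intro v hv
    have h1 := hvge v hv
    have hZge : N ^ (θ / 2) ≤ Real.exp ((v : ℝ) / H) := by
      rw [Real.rpow_def_of_pos hNpos]
      apply Real.exp_le_exp.2
      linarith
    have h2 := hlv (Real.exp ((v : ℝ) / H)) (hNZ.trans hZge) (pb H P v) ?_ f hf.norm_le U hU ?_ ?_
    · rw [Real.log_exp] at h2
      exact h2
    · intro p hp
      obtain ⟨g1, g2, g3⟩ := mem_pb H (by omega) P (fun p hp => (hPprime p hp).one_lt.le) v p hp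
      refine ⟨hPprime p g1, g2, g3.le.trans ?_⟩
      rw [add_div, Real.exp_add, mul_comm]
      have : Real.exp (1 / (H : ℝ)) ≤ 2.7 := by
        have h3 : 1 / (H : ℝ) ≤ 1 / 2 := by
          apply one_div_le_one_div_of_le (by norm_num) hHr2
        have h4 : Real.exp (1 / (H : ℝ)) ≤ Real.exp (1 / 2) := Real.exp_le_exp.2 h3
        have h5 : Real.exp (1 / 2) ^ 2 = Real.exp 1 := by
          rw [← Real.exp_nat_mul]; norm_num
        have h6 := Real.exp_one_lt_d9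
        have h7 := Real.exp_pos (1 / 2)
        have h8 : Real.exp (1 / 2) ≤ 2.7 := by nlinarith
        linarith
      gcongr
    · intro t ht
      calc |t| ≤ N ^ (3 / 2 : ℝ) := hUt t ht
        _ = (N ^ (θ / 2)) ^ (3 / θ) := by
          rw [← Real.rpow_mul hNpos.le]
          congr 1
          field_simp
        _ ≤ (Real.exp ((v : ℝ) / H)) ^ (3 / θ) := by
          apply Real.rpow_le_rpow (by positivity) hZge (by positivity)
    · calc (volume U).toReal ≤ N ^ (θ * δ / 2) := hUv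
        _ = (N ^ (θ / 2)) ^ δ := by
          rw [← Real.rpow_mul hNpos.le]
          congr 1
          ring
        _ ≤ (Real.exp ((v : ℝ) / H)) ^ δ := by
          apply Real.rpow_le_rpow (by positivity) hZge hδ.le
  -- integrability
  have hiP : ∀ v, IntegrableOn (fun t => ‖dp (pb H P v) f t‖ ^ 2) U := by
    intro v
    have hc : Continuous (fun t => ‖dp (pb H P v) f t‖ ^ 2) :=
      (continuous_dp _ _).norm.pow 2
    exact hc.integrableOn_Icc.mono_set hUbd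
  have hTpos : 0 < T := by linarith
  -- pointwise bound
  have hpt : ∀ t ∈ U, ‖dp (blk N) f t‖ ^ 2 * gw T t ≤
      (2 * ((vs H P).card : ℝ)) * ∑ v ∈ vs H P, (η2 * (N / Real.exp (v / H))) ^ 2 *
        ‖dp (pb H P v) f t‖ ^ 2 + 2 * (‖dp (Icc 1 ⌊9 * N⌋₊) e t‖ ^ 2 * gw T t) := by
    intro t ht
    have hgw1 : gw T t ≤ 1 := by
      unfold gw
      apply Real.exp_le_one_iff.2
      have := sq_nonneg (t / T)
      linarith
    have hgw0 : 0 ≤ gw T t := (Real.exp_pos _).le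
    rw [hdece t]
    set X := (1 / (rs P : ℂ)) *
        ∑ v ∈ vs H P, dp (pb H P v) f t * dp (blk (N / Real.exp (v / H))) f t with hX
    set E := dp (Icc 1 ⌊9 * N⌋₊) e t with hE
    have h1 := atopb_two X E
    have h2 : ‖X‖ ^ 2 ≤ ((vs H P).card : ℝ) * ∑ v ∈ vs H P, (η2 * (N / Real.exp (v / H))) ^ 2 *
        ‖dp (pb H P v) f t‖ ^ 2 := by
      have h3 : ‖X‖ ≤ ‖∑ v ∈ vs H P, dp (pb H P v) f t * dp (blk (N / Real.exp (v / H))) f t‖ := by
        rw [hX, norm_mul]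
        have : ‖(1 / (rs P : ℂ))‖ ≤ 1 := by
          rw [norm_div, norm_one, Complex.norm_real, Real.norm_eq_abs, abs_of_pos (by linarith)]
          rw [div_le_one (by linarith)]
          exact hL1
        calc _ ≤ 1 * ‖∑ v ∈ vs H P, dp (pb H P v) f t * dp (blk (N / Real.exp (v / H))) f t‖ := by
              gcongr
          _ = _ := one_mul _
      calc ‖X‖ ^ 2 ≤ ‖∑ v ∈ vs H P, dp (pb H P v) f t * dp (blk (N / Real.exp (v / H))) f t‖ ^ 2 := by
            gcongr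
        _ ≤ ((vs H P).card : ℝ) * ∑ v ∈ vs H P,
            ‖dp (pb H P v) f t * dp (blk (N / Real.exp (v / H))) f t‖ ^ 2 := atopb_norm_sum_sq _ _
        _ ≤ _ := by
            gcongr with v hv
            rw [norm_mul, mul_pow, mul_comm]
            have := hR v hv t ht
            gcongr
    have h4 : 0 ≤ ((vs H P).card : ℝ) * ∑ v ∈ vs H P, (η2 * (N / Real.exp (v / H))) ^ 2 *
        ‖dp (pb H P v) f t‖ ^ 2 := by positivity
    calc ‖X + E‖ ^ 2 * gw T t ≤ (2 * ‖X‖ ^ 2 + 2 * ‖E‖ ^ 2) * gw T t := by gcongr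
      _ = 2 * (‖X‖ ^ 2 * gw T t) + 2 * (‖E‖ ^ 2 * gw T t) := by ring
      _ ≤ 2 * ((((vs H P).card : ℝ) * ∑ v ∈ vs H P, (η2 * (N / Real.exp (v / H))) ^ 2 *
        ‖dp (pb H P v) f t‖ ^ 2) * 1) + 2 * (‖E‖ ^ 2 * gw T t) := by
          gcongr
      _ = _ := by ring
  -- integrate
  have hint1 : IntegrableOn (fun t => (2 * ((vs H P).card : ℝ)) * ∑ v ∈ vs H P,
      (η2 * (N / Real.exp (v / H))) ^ 2 * ‖dp (pb H P v) f t‖ ^ 2) U := by
    apply Integrable.const_mul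
    apply integrable_finsetSum
    intro v _
    exact (hiP v).const_mul _
  have hint2 : IntegrableOn (fun t => 2 * (‖dp (Icc 1 ⌊9 * N⌋₊) e t‖ ^ 2 * gw T t)) U :=
    ((integrable_dp _ e T hTpos).const_mul 2).integrableOn
  have hstep : ∫ t in U, ‖dp (blk N) f t‖ ^ 2 * gw T t ≤
      ∫ t in U, ((2 * ((vs H P).card : ℝ)) * ∑ v ∈ vs H P,
      (η2 * (N / Real.exp (v / H))) ^ 2 * ‖dp (pb H P v) f t‖ ^ 2
        + 2 * (‖dp (Icc 1 ⌊9 * N⌋₊) e t‖ ^ 2 * gw T t)) :=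
    setIntegral_mono_on (integrable_dp _ f T hTpos).integrableOn (hint1.add hint2) hU hpt
  refine hstep.trans ?_
  rw [integral_add hint1 hint2]
  have hE : ∫ t in U, 2 * (‖dp (Icc 1 ⌊9 * N⌋₊) e t‖ ^ 2 * gw T t) ≤ η / 2 * N ^ 2 := by
    rw [integral_const_mul]
    have h1 : ∫ t in U, ‖dp (Icc 1 ⌊9 * N⌋₊) e t‖ ^ 2 * gw T t
        ≤ ∫ t, ‖dp (Icc 1 ⌊9 * N⌋₊) e t‖ ^ 2 * gw T t := by
      apply setIntegral_le_integral (integrable_dp _ e T hTpos)
      filter_upwards with t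
      have : 0 ≤ gw T t := (Real.exp_pos _).le
      positivity
    have h2 := mvt T hTpos ⌊9 * N⌋₊ e
    have h3 : ((⌊9 * N⌋₊ : ℕ) : ℝ) ≤ 9 * N := Nat.floor_le (by positivity)
    have h4 : N / rs P + N / H + (Zn : ℝ) ^ 2 ≤ η / (400 * K0) * N := by
      have hc : 0 < 1200 * K0 / η := by positivity
      have e1 : N / rs P ≤ η / (1200 * K0) * N := by
        have : 1200 * K0 / η ≤ rs P := by linarith
        calc N / rs P ≤ N / (1200 * K0 / η) := by gcongr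
          _ = η / (1200 * K0) * N := by field_simp
      have e2 : N / H ≤ η / (1200 * K0) * N := by
        calc N / H ≤ N / (1200 * K0 / η) := by gcongr
          _ = η / (1200 * K0) * N := by field_simp
      have e3 : (Zn : ℝ) ^ 2 ≤ η / (1200 * K0) * N := by
        refine hZn2.trans ?_
        have h5 : N = N ^ (1 / 2 : ℝ) * N ^ (1 / 2 : ℝ) := by
          rw [← Real.rpow_add hNpos]; norm_num
        have h6 : 0 < N ^ (1 / 2 : ℝ) := by positivity
        calc N ^ (1 / 2 : ℝ) = η / (1200 * K0) * (1200 * K0 / η * N ^ (1 / 2 : ℝ)) := by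
              field_simp
          _ ≤ η / (1200 * K0) * (N ^ (1 / 2 : ℝ) * N ^ (1 / 2 : ℝ)) := by gcongr
          _ = η / (1200 * K0) * N := by rw [← h5]
      have e4 : η / (400 * K0) * N = 3 * (η / (1200 * K0) * N) := by
        field_simp; ring
      rw [e4]; linarith
    have h5 : ∑ n ∈ Icc 1 ⌊9 * N⌋₊, ‖e n‖ ^ 2 ≤ K0 * (η / (400 * K0) * N) :=
      hesum.trans (by gcongr)
    have h6 : 0 ≤ ∑ n ∈ Icc 1 ⌊9 * N⌋₊, ‖e n‖ ^ 2 := by positivity
    calc 2 * ∫ t in U, ‖dp (Icc 1 ⌊9 * N⌋₊) e t‖ ^ 2 * gw T t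
        ≤ 2 * (10 * (T + (⌊9 * N⌋₊ : ℕ)) * ∑ n ∈ Icc 1 ⌊9 * N⌋₊, ‖e n‖ ^ 2) := by
          linarith
      _ ≤ 2 * (10 * (N + 9 * N) * (K0 * (η / (400 * K0) * N))) := by gcongr
      _ = η / 2 * N ^ 2 := by
          field_simp; ring
  have hM : ∫ t in U, (2 * ((vs H P).card : ℝ)) * ∑ v ∈ vs H P,
      (η2 * (N / Real.exp (v / H))) ^ 2 * ‖dp (pb H P v) f t‖ ^ 2 ≤ η / 2 * N ^ 2 := by
    rw [integral_const_mul, integral_finsetSum _ (fun v _ => (hiP v).const_mul _)]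
    have h1 : ∀ v ∈ vs H P, ∫ t in U, (η2 * (N / Real.exp (v / H))) ^ 2 * ‖dp (pb H P v) f t‖ ^ 2
        ≤ η2 ^ 2 * N ^ 2 * K1 * (4 / (θ ^ 2 * Real.log N ^ 2)) := by
      intro v hv
      rw [integral_const_mul]
      have h2 := hPv v hv
      have h3 := hvge v hv
      have h3' : 0 < θ / 2 * Real.log N := by positivity
      have h3'' : 0 < (v : ℝ) / H := by linarith
      have hexp : 0 < Real.exp ((v : ℝ) / H) := Real.exp_pos _
      calc (η2 * (N / Real.exp (v / H))) ^ 2 * ∫ t in U, ‖dp (pb H P v) f t‖ ^ 2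
          ≤ (η2 * (N / Real.exp (v / H))) ^ 2 * (K1 * (Real.exp (v / H) / (v / H)) ^ 2) := by
            gcongr
        _ = η2 ^ 2 * N ^ 2 * K1 * (1 / ((v : ℝ) / H) ^ 2) := by
            generalize (v : ℝ) / H = w at *
            field_simp
        _ ≤ η2 ^ 2 * N ^ 2 * K1 * (1 / (θ / 2 * Real.log N) ^ 2) := by
            gcongr
        _ = η2 ^ 2 * N ^ 2 * K1 * (4 / (θ ^ 2 * Real.log N ^ 2)) := by
            congr 1
            field_simp
            norm_num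
    have h2 := Finset.sum_le_sum h1
    rw [Finset.sum_const, nsmul_eq_mul] at h2
    have hnn : 0 ≤ η2 ^ 2 * N ^ 2 * K1 * (4 / (θ ^ 2 * Real.log N ^ 2)) := by positivity
    calc 2 * ((vs H P).card : ℝ) * ∑ v ∈ vs H P, ∫ t in U,
          (η2 * (N / Real.exp (v / H))) ^ 2 * ‖dp (pb H P v) f t‖ ^ 2
        ≤ 2 * ((vs H P).card : ℝ) * (((vs H P).card : ℝ) *
          (η2 ^ 2 * N ^ 2 * K1 * (4 / (θ ^ 2 * Real.log N ^ 2)))) := by gcongr
      _ ≤ 2 * (H * Real.log N) * ((H * Real.log N) *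
          (η2 ^ 2 * N ^ 2 * K1 * (4 / (θ ^ 2 * Real.log N ^ 2)))) := by gcongr
      _ = (8 * K1 * (H : ℝ) ^ 2 / θ ^ 2 * η2 ^ 2) * N ^ 2 := by
          field_simp; ring
      _ = η / 2 * N ^ 2 := by rw [hη2sq]
  linarith

end Pool.Agent.MR
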