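import Mathlib

set_option autoImplicit false

/-!
# Part (B), definitions
Notes: /team-store/notes_MP_739ba1_nt_helper9.md
-/

open Finset

namespace Pool.Agent.MR

/-- A configuration `(l1, l2, s1, s2, q)`. -/
structure Cfg where
  l1 : ℕ
  l2 : ℕ
  s1 : ℕ
  s2 : ℕ
  q : ℕ
  deriving DecidableEq

/-- Static conditions on a configuration. -/
structure Cfg.Static (C : Cfg) (W : ℕ) : Prop where
  hl1 : 0 < C.l1
  hl2 : 0 < C.l2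
  cop1 : Nat.Coprime C.l1 W
  cop2 : Nat.Coprime C.l2 W
  hq : 0 < C.q
  hWq : W * C.q + C.l1 * C.s2 = C.l2 * C.s1

/-- The window conditions at the fractional part `φ`. -/
def Cfg.Win (C : Cfg) (c1 φ : ℝ) : Prop :=
  c1 * (35 / 100) < (C.s1 : ℝ) / C.l1 - φ ∧ (C.s1 : ℝ) / C.l1 - φ < c1 * (40 / 100) ∧
  c1 * (10 / 100) < (C.s2 : ℝ) / C.l2 - φ ∧ (C.s2 : ℝ) / C.l2 - φ < c1 * (15 / 100)

/-- The inner window conditions at the fractional part `φ`. -/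
def Cfg.WinIn (C : Cfg) (c1 φ : ℝ) : Prop :=
  c1 * (36 / 100) < (C.s1 : ℝ) / C.l1 - φ ∧ (C.s1 : ℝ) / C.l1 - φ < c1 * (39 / 100) ∧
  c1 * (11 / 100) < (C.s2 : ℝ) / C.l2 - φ ∧ (C.s2 : ℝ) / C.l2 - φ < c1 * (14 / 100)

/-- The divisibility conditions on `(w, n)`. -/
def Cfg.Dyn (C : Cfg) (W a d w n : ℕ) : Prop :=
  C.l1 ∣ w ∧ C.l2 ∣ w + d ∧ C.q ∣ C.l1 * n + C.s1 ∧ C.q ∣ C.l2 * n + C.s2 ∧
  C.l1 * n + C.s1 ≡ C.l1 * a [MOD W] ∧ C.l2 * n + C.s2 ≡ C.l2 * a [MOD W]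

instance (C : Cfg) (W a d w n : ℕ) : Decidable (C.Dyn W a d w n) := by
  unfold Cfg.Dyn; infer_instance

/-- `κ = c² / (100 W²)`. -/
noncomputable def kap (c : ℝ) (W : ℕ) : ℝ := c ^ 2 / (100 * (W : ℝ) ^ 2)

/-- `D = ⌈1/κ⌉`. -/
noncomputable def DD (c : ℝ) (W : ℕ) : ℕ := ⌈1 / kap c W⌉₊

/-- `σ₀ = c / (200 W² D)`. -/
noncomputable def sg (c : ℝ) (W : ℕ) : ℝ := c / (200 * (W : ℝ) ^ 2 * DD c W)

/-- The range `[√x/σ, 2√x/σ]` of `w`. -/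
noncomputable def wset (x σ : ℝ) : Finset ℕ := Icc ⌈√x / σ⌉₊ ⌊2 * (√x / σ)⌋₊

/-- The four numbers produced by a configuration, together with what is needed to recover `w`
from a divisor of one of them. -/
structure LinkData (C : Cfg) (W a : ℕ) (x c : ℝ) (w d jj m1 m2 m3 m4 al : ℕ) : Prop where
  ident : m1 * m3 * (w + W ^ 2 * d) = m2 * m4 * w
  mem1 : x < m1 ∧ (m1 : ℝ) ≤ x + c * √x ∧ m1 ≡ a [MOD W]
  mem2 : x < m2 ∧ (m2 : ℝ) ≤ x + c * √x ∧ m2 ≡ a [MOD W]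
  mem3 : x < m3 ∧ (m3 : ℝ) ≤ x + c * √x ∧ m3 ≡ a [MOD W]
  mem4 : x < m4 ∧ (m4 : ℝ) ≤ x + c * √x ∧ m4 ≡ a [MOD W]
  hjj : jj ≤ d
  hal : C.l2 * al + W * d * C.s2 = C.q * (w / C.l1) + W * C.l2 * jj
  hw1 : C.l1 * (w / C.l1) = w
  hw2 : C.l2 * ((w + W ^ 2 * d) / C.l2) = w + W ^ 2 * d
  div1 : w / C.l1 ∣ m1
  div2 : al ∣ m2
  div3 : al ∣ m3
  div4 : (w + W ^ 2 * d) / C.l2 ∣ m4

/-- the modulus attached to a pair `(s1, s2)`. -/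
def qf (W l1 l2 s1 s2 : ℕ) : ℕ := (l2 * s1 - l1 * s2) / W

/-- the congruence conditions. -/
def Cg (W a l1 l2 s1 s2 n : ℕ) : Prop :=
  l1 * n + s1 ≡ l1 * (a + W) [MOD W ^ 2] ∧ l2 * n + s2 ≡ l2 * a [MOD W ^ 2]

instance (W a l1 l2 s1 s2 n : ℕ) : Decidable (Cg W a l1 l2 s1 s2 n) := by
  unfold Cg; infer_instance

/-- The weighted number of configurations attached to `(l1, l2)` at `n`. -/
noncomputable def YY (W a l1 l2 : ℕ) (I1 I2 : Finset ℕ) (n : ℕ) : ℝ :=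
  ∑ s1 ∈ I1, ∑ s2 ∈ I2,
    if Cg W a l1 l2 s1 s2 n ∧ qf W l1 l2 s1 s2 ∣ l1 * n + s1 then
      (qf W l1 l2 s1 s2 : ℝ) / (l1 * l2) else 0

/-- Average over `(w, n)` modulo `M`. -/
noncomputable def avg (M : ℕ) (Z : ℕ → ℕ → ℝ) : ℝ :=
  (∑ w ∈ range M, ∑ n ∈ range M, Z w n) / (M : ℝ) ^ 2

/-- Periodicity modulo `M` in both variables. -/
def Per (M : ℕ) (Z : ℕ → ℕ → ℝ) : Prop :=
  (∀ w n, Z (w + M) n = Z w n) ∧ ∀ w n, Z w (n + M) = Z w n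

/-- `Z` is a nonnegative function of `(w,n)` modulo `M`, positive only where some configuration
of `S` occurs. -/
structure Supp (c1 φ : ℝ) (W a d M : ℕ) (S : Finset Cfg) (Z : ℕ → ℕ → ℝ) : Prop where
  hM : 0 < M
  hWM : W ^ 2 ∣ M
  stat : ∀ C ∈ S, C.Static W ∧ C.WinIn c1 φ ∧ C.l1 ∣ M ∧ C.l2 ∣ M ∧ C.q ∣ M
  per : Per M Z
  nonneg : ∀ w n, 0 ≤ Z w n
  pos : ∀ w n, 0 < Z w n → ∃ C ∈ S, C.Dyn W a d w n

end Pool.Agent.MR
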