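import Pool.Agent.MR.BDefs

set_option autoImplicit false

open Finset

namespace Pool.Agent.MR

namespace BSqM

/-- elements of an interval in one residue class -/
theorem card_class (S N g : ℕ) (A : Finset ℕ) (hA : A ⊆ Ico S (S + N))
    (hc : ∀ x ∈ A, ∀ y ∈ A, x ≡ y [MOD g]) : (A.card : ℝ) ≤ N / g + 1 := by
  have h1 : A.card ≤ N / g + 1 := by
    have hinj : Set.InjOn (fun x => (x - S) / g) (A : Set ℕ) := by
      intro x hx y hy hxy
      have hx' := mem_Ico.1 (hA hx)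
      have hy' := mem_Ico.1 (hA hy)
      have h := hc x hx y hy
      simp only at hxy
      have h2 : x - S ≡ y - S [MOD g] := by
        have : (x - S) + S ≡ (y - S) + S [MOD g] := by
          rw [Nat.sub_add_cancel hx'.1, Nat.sub_add_cancel hy'.1]; exact h
        exact Nat.ModEq.add_right_cancel' _ this
      have h3 : x - S = y - S := by
        rw [← Nat.div_add_mod (x - S) g, ← Nat.div_add_mod (y - S) g, hxy,
          show (x - S) % g = (y - S) % g from h2]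
      omega
    calc A.card = (A.image (fun x => (x - S) / g)).card := (card_image_of_injOn hinj).symm
      _ ≤ (range (N / g + 1)).card := by
          apply card_le_card
          intro z hz
          obtain ⟨x, hx, rfl⟩ := mem_image.1 hz
          have hx' := mem_Ico.1 (hA hx)
          rw [mem_range]
          have : (x - S) / g ≤ N / g := Nat.div_le_div_right (by omega)
          omega
      _ = _ := card_range _
  calc (A.card : ℝ) ≤ ((N / g + 1 : ℕ) : ℝ) := by exact_mod_cast h1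
    _ ≤ N / g + 1 := by
      push_cast
      gcongr
      exact Nat.cast_div_le

section
variable (W a l1 l2 M : ℕ)

/-- the divisibility by `W` -/
def Kd (s : ℕ × ℕ) : Prop := W ∣ l2 * s.1 - l1 * s.2

/-- the modulus of a pair -/
def qq (s : ℕ × ℕ) : ℕ := qf W l1 l2 s.1 s.2

/-- the condition in `YY` -/
def VV (s : ℕ × ℕ) (n : ℕ) : Prop :=
  Cg W a l1 l2 s.1 s.2 n ∧ qf W l1 l2 s.1 s.2 ∣ l1 * n + s.1

instance (s : ℕ × ℕ) (n : ℕ) : Decidable (VV W a l1 l2 s n) := by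
  unfold VV; infer_instance

instance (s : ℕ × ℕ) : Decidable (Kd W l1 l2 s) := by
  unfold Kd; infer_instance

variable {W a l1 l2 M}

theorem kd_of_vv (s : ℕ × ℕ) (n : ℕ) (hs : l1 * s.2 < l2 * s.1) (h : VV W a l1 l2 s n) :
    Kd W l1 l2 s := by
  obtain ⟨⟨h1, h2⟩, -⟩ := h
  have hWW : W ∣ W ^ 2 := Dvd.intro_left (W ^ 1) (by ring)
  have h1' := (h1.mul_left l2).of_dvd hWW
  have h2' := (h2.mul_left l1).of_dvd hWW
  have h3 : l2 * (l1 * (a + W)) ≡ l1 * (l2 * a) [MOD W] := by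
    have : l2 * (l1 * (a + W)) = l1 * (l2 * a) + l2 * l1 * W := by ring
    rw [this]
    exact (Nat.modEq_iff_dvd' (by omega)).2 ⟨l2 * l1, by
      rw [Nat.add_sub_cancel_left]; ring⟩ |>.symm
  have h4 : l1 * (l2 * n + s.2) ≡ l2 * (l1 * n + s.1) [MOD W] :=
    h2'.trans (h3.symm.trans h1'.symm)
  have h5 : l1 * l2 * n + l1 * s.2 ≡ l1 * l2 * n + l2 * s.1 [MOD W] := by
    have e1 : l1 * (l2 * n + s.2) = l1 * l2 * n + l1 * s.2 := by ring
    have e2 : l2 * (l1 * n + s.1) = l1 * l2 * n + l2 * s.1 := by ring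
    rw [e1, e2] at h4
    exact h4
  have h6 := Nat.ModEq.add_left_cancel' _ h5
  exact (Nat.modEq_iff_dvd' hs.le).1 h6

theorem qq_mul (s : ℕ × ℕ) (hk : Kd W l1 l2 s) : W * qq W l1 l2 s = l2 * s.1 - l1 * s.2 :=
  Nat.mul_div_cancel' hk

theorem qq_pos (s : ℕ × ℕ) (hs : l1 * s.2 < l2 * s.1) (hk : Kd W l1 l2 s) :
    0 < qq W l1 l2 s := by
  rcases Nat.eq_zero_or_pos (qq W l1 l2 s) with h | h
  · have := qq_mul s hk
    rw [h] at this
    omega
  · exact h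

theorem qq_coprime (h1 : l1.Prime) (h2 : l2.Prime) (h12 : l1 < l2) (s : ℕ × ℕ)
    (hs : l1 * s.2 < l2 * s.1) (hs1 : ¬ l1 ∣ s.1) (hk : Kd W l1 l2 s) :
    Nat.Coprime (qq W l1 l2 s) l1 := by
  rw [Nat.coprime_comm, Nat.Prime.coprime_iff_not_dvd h1]
  intro h
  have h3 : l1 ∣ l2 * s.1 - l1 * s.2 := by
    rw [← qq_mul s hk]; exact h.mul_left _
  have h4 : l1 ∣ l2 * s.1 := by
    have := (Nat.dvd_add_iff_left (Dvd.intro s.2 rfl : l1 ∣ l1 * s.2)).1 h3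
    rwa [Nat.sub_add_cancel hs.le] at this
  rcases (Nat.Prime.dvd_mul h1).1 h4 with h5 | h5
  · exact h12.ne ((Nat.prime_dvd_prime_iff_eq h1 h2).1 h5)
  · exact hs1 h5

theorem dvd_second (h1 : l1.Prime) (h2 : l2.Prime) (h12 : l1 < l2) (s : ℕ × ℕ) (n : ℕ)
    (hs : l1 * s.2 < l2 * s.1) (hs1 : ¬ l1 ∣ s.1) (h : VV W a l1 l2 s n) :
    qq W l1 l2 s ∣ l2 * n + s.2 := by
  have hk := kd_of_vv s n hs h
  have hq := qq_mul s hk
  have e : l2 * (l1 * n + s.1) = l1 * (l2 * n + s.2) + W * qq W l1 l2 s := by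
    rw [hq]
    have : l2 * s.1 = l1 * s.2 + (l2 * s.1 - l1 * s.2) := by omega
    calc l2 * (l1 * n + s.1) = l1 * l2 * n + l2 * s.1 := by ring
      _ = l1 * l2 * n + (l1 * s.2 + (l2 * s.1 - l1 * s.2)) := by rw [← this]
      _ = _ := by ring
  have h3 : qq W l1 l2 s ∣ l1 * (l2 * n + s.2) := by
    have h4 : qq W l1 l2 s ∣ l2 * (l1 * n + s.1) := Dvd.dvd.mul_left h.2 _
    rw [e] at h4
    exact (Nat.dvd_add_iff_left (Dvd.intro_left W rfl)).2 h4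
  exact (qq_coprime h1 h2 h12 s hs hs1 hk).dvd_of_dvd_mul_left h3

/-- counting `n` with two conditions -/
theorem pair_count (h1 : l1.Prime) (h2 : l2.Prime) (h12 : l1 < l2)
    (hM : 0 < M) (s s' : ℕ × ℕ)
    (hs : l1 * s.2 < l2 * s.1) (hs1 : ¬ l1 ∣ s.1)
    (hs' : l1 * s'.2 < l2 * s'.1) (hs1' : ¬ l1 ∣ s'.1)
    (hqM : Kd W l1 l2 s → qq W l1 l2 s ∣ M) (hqM' : Kd W l1 l2 s' → qq W l1 l2 s' ∣ M) :
    (qq W l1 l2 s : ℝ) * qq W l1 l2 s' *
      ((range M).filter (fun n => VV W a l1 l2 s n ∧ VV W a l1 l2 s' n)).card ≤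
      M * (if Kd W l1 l2 s ∧ Kd W l1 l2 s' ∧
        s.1 ≡ s'.1 [MOD Nat.gcd (qq W l1 l2 s) (qq W l1 l2 s')] ∧
        s.2 ≡ s'.2 [MOD Nat.gcd (qq W l1 l2 s) (qq W l1 l2 s')]
        then (Nat.gcd (qq W l1 l2 s) (qq W l1 l2 s') : ℝ) else 0) := by
  set F := (range M).filter (fun n => VV W a l1 l2 s n ∧ VV W a l1 l2 s' n) with hF
  rcases F.eq_empty_or_nonempty with he | ⟨n0, hn0⟩
  · rw [he]
    simp only [card_empty, Nat.cast_zero, mul_zero]
    split_ifs <;> positivity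
  · have hn0' := (mem_filter.1 hn0).2
    have hk := kd_of_vv s n0 hs hn0'.1
    have hk' := kd_of_vv s' n0 hs' hn0'.2
    set q := qq W l1 l2 s with hq
    set q' := qq W l1 l2 s' with hq'
    set g := Nat.gcd q q' with hg
    have hgq : g ∣ q := Nat.gcd_dvd_left _ _
    have hgq' : g ∣ q' := Nat.gcd_dvd_right _ _
    have c1 : s.1 ≡ s'.1 [MOD g] := by
      have e1 : g ∣ l1 * n0 + s.1 := hgq.trans hn0'.1.2
      have e2 : g ∣ l1 * n0 + s'.1 := hgq'.trans hn0'.2.2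
      have e3 : l1 * n0 + s.1 ≡ l1 * n0 + s'.1 [MOD g] :=
        ((Nat.modEq_zero_iff_dvd.2 e1).trans (Nat.modEq_zero_iff_dvd.2 e2).symm)
      exact Nat.ModEq.add_left_cancel' _ e3
    have c2 : s.2 ≡ s'.2 [MOD g] := by
      have e1 : g ∣ l2 * n0 + s.2 := hgq.trans (dvd_second h1 h2 h12 s n0 hs hs1 hn0'.1)
      have e2 : g ∣ l2 * n0 + s'.2 := hgq'.trans (dvd_second h1 h2 h12 s' n0 hs' hs1' hn0'.2)
      have e3 : l2 * n0 + s.2 ≡ l2 * n0 + s'.2 [MOD g] :=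
        ((Nat.modEq_zero_iff_dvd.2 e1).trans (Nat.modEq_zero_iff_dvd.2 e2).symm)
      exact Nat.ModEq.add_left_cancel' _ e3
    rw [if_pos ⟨hk, hk', c1, c2⟩]
    -- the lcm
    have hqpos : 0 < q := qq_pos s hs hk
    have hqpos' : 0 < q' := qq_pos s' hs' hk'
    have hcop := qq_coprime h1 h2 h12 s hs hs1 hk
    have hcop' := qq_coprime h1 h2 h12 s' hs' hs1' hk'
    have hL : Nat.lcm q q' ∣ M := Nat.lcm_dvd (hqM hk) (hqM' hk')
    have hLpos : 0 < Nat.lcm q q' := Nat.lcm_pos hqpos hqpos'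
    have hcls : ∀ x ∈ F, ∀ y ∈ F, x ≡ y [MOD Nat.lcm q q'] := by
      intro x hx y hy
      have hx' := (mem_filter.1 hx).2
      have hy' := (mem_filter.1 hy).2
      have key : ∀ (r z : ℕ), Nat.Coprime r l1 → r ∣ l1 * x + z → r ∣ l1 * y + z →
          x ≡ y [MOD r] := by
        intro r z hr hx1 hy1
        have e3 : l1 * x + z ≡ l1 * y + z [MOD r] :=
          ((Nat.modEq_zero_iff_dvd.2 hx1).trans (Nat.modEq_zero_iff_dvd.2 hy1).symm)
        have e4 : l1 * x ≡ l1 * y [MOD r] := Nat.ModEq.add_right_cancel' _ e3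
        exact Nat.ModEq.cancel_left_of_coprime hr e4
      have k1 := key q s.1 hcop hx'.1.2 hy'.1.2
      have k2 := key q' s'.1 hcop' hx'.2.2 hy'.2.2
      exact Nat.mod_lcm k1 k2
    have hcard : F.card * Nat.lcm q q' ≤ M := by
      have hc : F.card ≤ M / Nat.lcm q q' := by
        have hinj : Set.InjOn (fun x => x / Nat.lcm q q') (F : Set ℕ) := by
          intro x hx y hy hxy
          simp only at hxy
          rw [← Nat.div_add_mod x (Nat.lcm q q'), ← Nat.div_add_mod y (Nat.lcm q q'), hxy,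
            show x % Nat.lcm q q' = y % Nat.lcm q q' from hcls x hx y hy]
        calc F.card = (F.image (fun x => x / Nat.lcm q q')).card :=
              (card_image_of_injOn hinj).symm
          _ ≤ (range (M / Nat.lcm q q')).card := by
              apply card_le_card
              intro z hz
              obtain ⟨x, hx, rfl⟩ := mem_image.1 hz
              have hx' := mem_range.1 (mem_filter.1 hx).1
              rw [mem_range]
              exact Nat.div_lt_div_of_lt_of_dvd hL hx'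
          _ = _ := card_range _
      calc F.card * Nat.lcm q q' ≤ M / Nat.lcm q q' * Nat.lcm q q' :=
            Nat.mul_le_mul_right _ hc
        _ ≤ M := Nat.div_mul_le_self _ _
    have e5 : q * q' = g * Nat.lcm q q' := (Nat.gcd_mul_lcm q q').symm
    calc (q : ℝ) * q' * F.card = ((q * q' * F.card : ℕ) : ℝ) := by push_cast; ring
      _ = ((g * (F.card * Nat.lcm q q') : ℕ) : ℝ) := by rw [e5]; congr 1; ring
      _ ≤ ((g * M : ℕ) : ℝ) := by exact_mod_cast Nat.mul_le_mul_left g hcard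
      _ = M * g := by push_cast; ring


/-- for given `s1` and `g`, the admissible `s2` are in one class modulo `g` -/
theorem class_s2 (h1 : l1.Prime) (h2 : l2.Prime) (h12 : l1 < l2) (g s1 s2 s2' : ℕ)
    (hs : l1 * s2 < l2 * s1) (hs' : l1 * s2' < l2 * s1) (hs1 : ¬ l1 ∣ s1)
    (hk : Kd W l1 l2 (s1, s2)) (hk' : Kd W l1 l2 (s1, s2'))
    (hg : g ∣ qq W l1 l2 (s1, s2)) (hg' : g ∣ qq W l1 l2 (s1, s2')) : s2 ≡ s2' [MOD g] := by
  have hc : Nat.Coprime g l1 :=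
    Nat.Coprime.coprime_dvd_left hg (qq_coprime h1 h2 h12 (s1, s2) hs hs1 hk)
  have e1 : g ∣ l2 * s1 - l1 * s2 := by
    have := qq_mul (s1, s2) hk
    simp only at this
    rw [← this]; exact hg.mul_left _
  have e2 : g ∣ l2 * s1 - l1 * s2' := by
    have := qq_mul (s1, s2') hk'
    simp only at this
    rw [← this]; exact hg'.mul_left _
  have f1 : l1 * s2 ≡ l2 * s1 [MOD g] := (Nat.modEq_iff_dvd' hs.le).2 e1
  have f2 : l1 * s2' ≡ l2 * s1 [MOD g] := (Nat.modEq_iff_dvd' hs'.le).2 e2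
  exact Nat.ModEq.cancel_left_of_coprime hc (f1.trans f2.symm)

theorem count_g (h1 : l1.Prime) (h2 : l2.Prime) (h12 : l1 < l2) (S1 N1 S2 N2 g : ℕ)
    (hg : 1 ≤ g) (hgN : g ≤ N2)
    (hpos : ∀ s1 ∈ Ico S1 (S1 + N1), ∀ s2 ∈ Ico S2 (S2 + N2), l1 * s2 < l2 * s1 ∧ ¬ l1 ∣ s1) :
    ∑ s ∈ Ico S1 (S1 + N1) ×ˢ Ico S2 (S2 + N2), ∑ s' ∈ Ico S1 (S1 + N1) ×ˢ Ico S2 (S2 + N2),
      (if Kd W l1 l2 s ∧ g ∣ qq W l1 l2 s ∧ s.1 ≡ s'.1 [MOD g] ∧ s.2 ≡ s'.2 [MOD g]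
        then (1 : ℝ) else 0)
      ≤ (N1 * (2 * N2 / g)) * ((N1 / g + 1) * (2 * N2 / g)) := by
  have hgR : (0 : ℝ) < g := by exact_mod_cast hg
  have hN2 : (N2 : ℝ) / g + 1 ≤ 2 * N2 / g := by
    have : (1 : ℝ) ≤ N2 / g := by
      rw [le_div_iff₀ hgR, one_mul]; exact_mod_cast hgN
    have e : 2 * (N2 : ℝ) / g = N2 / g + N2 / g := by ring
    rw [e]; linarith
  have inner : ∀ s ∈ Ico S1 (S1 + N1) ×ˢ Ico S2 (S2 + N2),
      ∑ s' ∈ Ico S1 (S1 + N1) ×ˢ Ico S2 (S2 + N2),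
      (if Kd W l1 l2 s ∧ g ∣ qq W l1 l2 s ∧ s.1 ≡ s'.1 [MOD g] ∧ s.2 ≡ s'.2 [MOD g]
        then (1 : ℝ) else 0) ≤
      (if Kd W l1 l2 s ∧ g ∣ qq W l1 l2 s then (1 : ℝ) else 0) *
        ((N1 / g + 1) * (2 * N2 / g)) := by
    intro s _
    by_cases hc : Kd W l1 l2 s ∧ g ∣ qq W l1 l2 s
    · rw [if_pos hc, one_mul]
      have e1 : ∑ s' ∈ Ico S1 (S1 + N1) ×ˢ Ico S2 (S2 + N2),
          (if Kd W l1 l2 s ∧ g ∣ qq W l1 l2 s ∧ s.1 ≡ s'.1 [MOD g] ∧ s.2 ≡ s'.2 [MOD g]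
            then (1 : ℝ) else 0) =
          (((Ico S1 (S1 + N1)).filter (fun z => s.1 ≡ z [MOD g])).card : ℝ) *
          (((Ico S2 (S2 + N2)).filter (fun z => s.2 ≡ z [MOD g])).card : ℝ) := by
        rw [← Nat.cast_mul, ← card_product, ← filter_product, ← sum_boole]
        apply sum_congr rfl
        intro s' _
        have : (Kd W l1 l2 s ∧ g ∣ qq W l1 l2 s ∧ s.1 ≡ s'.1 [MOD g] ∧ s.2 ≡ s'.2 [MOD g]) ↔
          (s.1 ≡ s'.1 [MOD g] ∧ s.2 ≡ s'.2 [MOD g]) := by tauto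
        simp only [this]
      rw [e1]
      have c1 := card_class S1 N1 g ((Ico S1 (S1 + N1)).filter (fun z => s.1 ≡ z [MOD g]))
        (filter_subset _ _) (fun x hx y hy =>
          ((mem_filter.1 hx).2.symm.trans (mem_filter.1 hy).2))
      have c2 := card_class S2 N2 g ((Ico S2 (S2 + N2)).filter (fun z => s.2 ≡ z [MOD g]))
        (filter_subset _ _) (fun x hx y hy =>
          ((mem_filter.1 hx).2.symm.trans (mem_filter.1 hy).2))
      exact mul_le_mul c1 (c2.trans hN2) (by positivity) (by positivity)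
    · rw [if_neg hc, zero_mul]
      apply le_of_eq
      apply sum_eq_zero
      intro s' _
      rw [if_neg]
      tauto
  calc _ ≤ ∑ s ∈ Ico S1 (S1 + N1) ×ˢ Ico S2 (S2 + N2),
        (if Kd W l1 l2 s ∧ g ∣ qq W l1 l2 s then (1 : ℝ) else 0) *
        ((N1 / g + 1) * (2 * N2 / g)) := sum_le_sum inner
    _ = (∑ s1 ∈ Ico S1 (S1 + N1), ∑ s2 ∈ Ico S2 (S2 + N2),
        (if Kd W l1 l2 (s1, s2) ∧ g ∣ qq W l1 l2 (s1, s2) then (1 : ℝ) else 0)) *
        ((N1 / g + 1) * (2 * N2 / g)) := by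
        rw [← sum_mul, sum_product]
    _ ≤ (∑ s1 ∈ Ico S1 (S1 + N1), (2 * N2 / g : ℝ)) * ((N1 / g + 1) * (2 * N2 / g)) := by
        apply mul_le_mul_of_nonneg_right _ (by positivity)
        apply sum_le_sum
        intro s1 hs1
        rw [sum_boole]
        refine le_trans ?_ hN2
        apply card_class S2 N2 g _ (filter_subset _ _)
        intro x hx y hy
        have hx' := mem_filter.1 hx
        have hy' := mem_filter.1 hy
        exact class_s2 h1 h2 h12 g s1 x y (hpos s1 hs1 x hx'.1).1 (hpos s1 hs1 y hy'.1).1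
          (hpos s1 hs1 x hx'.1).2 hx'.2.1 hy'.2.1 hx'.2.2 hy'.2.2
    _ = _ := by
        rw [sum_const, Nat.card_Ico]
        simp

/-- the off-diagonal terms -/
theorem off_diag (S1 N1 S2 N2 : ℕ) (hN12 : N1 ≤ N2) (s s' : ℕ × ℕ)
    (hs : s ∈ Ico S1 (S1 + N1) ×ˢ Ico S2 (S2 + N2))
    (hs' : s' ∈ Ico S1 (S1 + N1) ×ˢ Ico S2 (S2 + N2)) (hne : s ≠ s') (g : ℕ)
    (c1 : s.1 ≡ s'.1 [MOD g]) (c2 : s.2 ≡ s'.2 [MOD g]) : g ≤ N2 := by
  have h1 := mem_Ico.1 (mem_product.1 hs).1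
  have h2 := mem_Ico.1 (mem_product.1 hs).2
  have h1' := mem_Ico.1 (mem_product.1 hs').1
  have h2' := mem_Ico.1 (mem_product.1 hs').2
  by_contra hcon
  push Not at hcon
  have key : ∀ (S x y : ℕ), S ≤ x → x < S + N2 → S ≤ y → y < S + N2 → x ≡ y [MOD g] → x = y := by
    intro S x y hx1 hx2 hy1 hy2 h
    rcases le_total x y with hxy | hxy
    · have h3 := (Nat.modEq_iff_dvd' hxy).1 h
      rcases Nat.eq_zero_or_pos (y - x) with h4 | h4
      · omega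
      · have := Nat.le_of_dvd h4 h3
        omega
    · have h3 := (Nat.modEq_iff_dvd' hxy).1 h.symm
      rcases Nat.eq_zero_or_pos (x - y) with h4 | h4
      · omega
      · have := Nat.le_of_dvd h4 h3
        omega
  apply hne
  apply Prod.ext
  · exact key S1 s.1 s'.1 h1.1 (by omega) h1'.1 (by omega) c1
  · exact key S2 s.2 s'.2 h2.1 h2.2 h2'.1 h2'.2 c2


/-- the term attached to a pair of pairs -/
noncomputable def GG (W l1 l2 : ℕ) (s s' : ℕ × ℕ) : ℝ :=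
  if Kd W l1 l2 s ∧ Kd W l1 l2 s' ∧
        s.1 ≡ s'.1 [MOD Nat.gcd (qq W l1 l2 s) (qq W l1 l2 s')] ∧
        s.2 ≡ s'.2 [MOD Nat.gcd (qq W l1 l2 s) (qq W l1 l2 s')]
        then (Nat.gcd (qq W l1 l2 s) (qq W l1 l2 s') : ℝ) else 0

theorem sum_inv_sq (N : ℕ) : ∑ g ∈ Icc 1 N, (1 : ℝ) / (g : ℝ) ^ 2 ≤ 2 - 1 / N := by
  induction N with
  | zero => simp
  | succ N ih =>
    rw [sum_Icc_succ_top (by omega)]
    rcases Nat.eq_zero_or_pos N with h | h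
    · subst h; norm_num
    · have hN : (0 : ℝ) < N := by exact_mod_cast h
      have : (1 : ℝ) / ((N + 1 : ℕ) : ℝ) ^ 2 ≤ 1 / N - 1 / ((N + 1 : ℕ) : ℝ) := by
        push_cast
        rw [div_sub_div _ _ hN.ne' (by positivity), div_le_div_iff₀ (by positivity) (by positivity)]
        nlinarith
      linarith

theorem sum_inv (N : ℕ) : ∑ g ∈ Icc 1 N, (1 : ℝ) / (g : ℝ) ≤ 1 + Real.log N := by
  have h := harmonic_le_one_add_log N
  have e : ∑ g ∈ Icc 1 N, (1 : ℝ) / (g : ℝ) = ((harmonic N : ℚ) : ℝ) := by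
    rw [harmonic_eq_sum_Icc]
    push_cast
    apply sum_congr rfl
    intro g _
    rw [one_div]
  rw [e]; exact h

theorem total (hW : 0 < W) (h1 : l1.Prime) (h2 : l2.Prime) (h12 : l1 < l2)
    (S1 N1 S2 N2 : ℕ) (hN12 : N1 ≤ N2) (hN1 : N1 ≤ l1) (hN2 : N2 ≤ l2)
    (hlog : Real.log l2 ≤ l1)
    (hpos : ∀ s1 ∈ Ico S1 (S1 + N1), ∀ s2 ∈ Ico S2 (S2 + N2),
      l1 * s2 < l2 * s1 ∧ l2 * s1 ≤ l1 * s2 + l1 * l2 ∧ ¬ l1 ∣ s1) :
    ∑ s ∈ Ico S1 (S1 + N1) ×ˢ Ico S2 (S2 + N2), ∑ s' ∈ Ico S1 (S1 + N1) ×ˢ Ico S2 (S2 + N2),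
      GG W l1 l2 s s' ≤ 40 * ((l1 : ℝ) * l2) ^ 2 := by
  set P := Ico S1 (S1 + N1) ×ˢ Ico S2 (S2 + N2) with hP
  have hl1 : (1 : ℝ) ≤ l1 := by exact_mod_cast h1.one_lt.le
  have hl2 : (1 : ℝ) ≤ l2 := by exact_mod_cast h2.one_lt.le
  have hterm : ∀ s ∈ P, ∀ s' ∈ P, GG W l1 l2 s s' ≤ (if s = s' then ((l1 : ℝ) * l2) else 0) +
      ∑ g ∈ Icc 1 N2, (g : ℝ) * (if Kd W l1 l2 s ∧ g ∣ qq W l1 l2 s ∧ s.1 ≡ s'.1 [MOD g] ∧
        s.2 ≡ s'.2 [MOD g] then (1 : ℝ) else 0) := by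
    intro s hs s' hs'
    have hsP := hpos s.1 (mem_product.1 hs).1 s.2 (mem_product.1 hs).2
    have hsum0 : 0 ≤ ∑ g ∈ Icc 1 N2, (g : ℝ) * (if Kd W l1 l2 s ∧ g ∣ qq W l1 l2 s ∧
        s.1 ≡ s'.1 [MOD g] ∧ s.2 ≡ s'.2 [MOD g] then (1 : ℝ) else 0) := by
      apply sum_nonneg
      intro g _
      split_ifs <;> positivity
    unfold GG
    by_cases hD : Kd W l1 l2 s ∧ Kd W l1 l2 s' ∧
        s.1 ≡ s'.1 [MOD Nat.gcd (qq W l1 l2 s) (qq W l1 l2 s')] ∧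
        s.2 ≡ s'.2 [MOD Nat.gcd (qq W l1 l2 s) (qq W l1 l2 s')]
    · rw [if_pos hD]
      have hqpos := qq_pos s hsP.1 hD.1
      by_cases he : s = s'
      · rw [if_pos he]
        have : (Nat.gcd (qq W l1 l2 s) (qq W l1 l2 s') : ℝ) ≤ (l1 : ℝ) * l2 := by
          have g1 : Nat.gcd (qq W l1 l2 s) (qq W l1 l2 s') ≤ qq W l1 l2 s :=
            Nat.gcd_le_left _ hqpos
          have g2 : qq W l1 l2 s ≤ l1 * l2 := by
            have := qq_mul s hD.1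
            calc qq W l1 l2 s ≤ W * qq W l1 l2 s := Nat.le_mul_of_pos_left _ hW
              _ = l2 * s.1 - l1 * s.2 := this
              _ ≤ l1 * l2 := by omega
          exact_mod_cast g1.trans g2
        linarith
      · rw [if_neg he, zero_add]
        have hgN := off_diag S1 N1 S2 N2 hN12 s s' hs hs' he _ hD.2.2.1 hD.2.2.2
        have hg1 : 1 ≤ Nat.gcd (qq W l1 l2 s) (qq W l1 l2 s') := Nat.gcd_pos_of_pos_left _ hqpos
        have hmem : Nat.gcd (qq W l1 l2 s) (qq W l1 l2 s') ∈ Icc 1 N2 := mem_Icc.2 ⟨hg1, hgN⟩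
        refine le_trans (le_of_eq ?_) (single_le_sum (f := fun g : ℕ => (g : ℝ) *
          (if Kd W l1 l2 s ∧ g ∣ qq W l1 l2 s ∧ s.1 ≡ s'.1 [MOD g] ∧
            s.2 ≡ s'.2 [MOD g] then (1 : ℝ) else 0)) ?_ hmem)
        · rw [if_pos ⟨hD.1, Nat.gcd_dvd_left _ _, hD.2.2.1, hD.2.2.2⟩, mul_one]
        · intro g _
          split_ifs <;> positivity
    · rw [if_neg hD]
      have : (0 : ℝ) ≤ if s = s' then ((l1 : ℝ) * l2) else 0 := by split_ifs <;> positivity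
      linarith
  have hstep : ∑ s ∈ P, ∑ s' ∈ P, GG W l1 l2 s s' ≤
      (N1 : ℝ) * N2 * (l1 * l2) + ∑ g ∈ Icc 1 N2, (g : ℝ) *
        ((N1 * (2 * N2 / g)) * ((N1 / g + 1) * (2 * N2 / g))) := by
    calc ∑ s ∈ P, ∑ s' ∈ P, GG W l1 l2 s s' ≤ ∑ s ∈ P, ∑ s' ∈ P,
          ((if s = s' then ((l1 : ℝ) * l2) else 0) +
          ∑ g ∈ Icc 1 N2, (g : ℝ) * (if Kd W l1 l2 s ∧ g ∣ qq W l1 l2 s ∧ s.1 ≡ s'.1 [MOD g] ∧
            s.2 ≡ s'.2 [MOD g] then (1 : ℝ) else 0)) :=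
          sum_le_sum fun s hs => sum_le_sum fun s' hs' => hterm s hs s' hs'
      _ = (∑ s ∈ P, ∑ s' ∈ P, (if s = s' then ((l1 : ℝ) * l2) else 0)) +
          ∑ g ∈ Icc 1 N2, (g : ℝ) * ∑ s ∈ P, ∑ s' ∈ P,
            (if Kd W l1 l2 s ∧ g ∣ qq W l1 l2 s ∧ s.1 ≡ s'.1 [MOD g] ∧
            s.2 ≡ s'.2 [MOD g] then (1 : ℝ) else 0) := by
          simp only [sum_add_distrib]
          congr 1
          simp only [mul_sum]
          rw [sum_congr rfl (fun s _ => sum_comm (s := P) (t := Icc 1 N2)), sum_comm]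
      _ ≤ _ := by
          apply add_le_add
          · apply le_of_eq
            rw [sum_congr rfl (fun s hs => sum_ite_eq P s (fun _ => (l1 : ℝ) * l2))]
            rw [sum_congr rfl (fun s hs => if_pos hs), sum_const, hP, card_product,
              Nat.card_Ico, Nat.card_Ico, nsmul_eq_mul]
            simp
          · apply sum_le_sum
            intro g hg
            have hg' := mem_Icc.1 hg
            apply mul_le_mul_of_nonneg_left _ (Nat.cast_nonneg _)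
            exact count_g h1 h2 h12 S1 N1 S2 N2 g hg'.1 hg'.2
              (fun s1 hs1 s2 hs2 => ⟨(hpos s1 hs1 s2 hs2).1, (hpos s1 hs1 s2 hs2).2.2⟩)
  have hsum2 : ∑ g ∈ Icc 1 N2, (g : ℝ) *
        ((N1 * (2 * N2 / g)) * ((N1 / g + 1) * (2 * N2 / g))) =
      4 * (N1 : ℝ) * (N2 : ℝ) ^ 2 * (N1 * ∑ g ∈ Icc 1 N2, (1 : ℝ) / (g : ℝ) ^ 2 +
        ∑ g ∈ Icc 1 N2, (1 : ℝ) / (g : ℝ)) := by
    rw [mul_sum, ← sum_add_distrib, mul_sum]
    apply sum_congr rfl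
    intro g hg
    have hg' : (g : ℝ) ≠ 0 := by
      have := (mem_Icc.1 hg).1
      positivity
    field_simp
    ring
  rw [hsum2] at hstep
  refine hstep.trans ?_
  rcases Nat.eq_zero_or_pos N2 with h0 | h0
  · subst h0
    simp
    positivity
  · have hN2R : (1 : ℝ) ≤ N2 := by exact_mod_cast h0
    have a1 : ∑ g ∈ Icc 1 N2, (1 : ℝ) / (g : ℝ) ^ 2 ≤ 2 := by
      have := sum_inv_sq N2
      have h3 : (0 : ℝ) ≤ 1 / N2 := by positivity
      linarith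
    have a2 : ∑ g ∈ Icc 1 N2, (1 : ℝ) / (g : ℝ) ≤ 1 + l1 := by
      have := sum_inv N2
      have h3 : Real.log N2 ≤ Real.log l2 :=
        Real.log_le_log (by linarith) (by exact_mod_cast hN2)
      linarith
    have b1 : (N1 : ℝ) ≤ l1 := by exact_mod_cast hN1
    have b2 : (N2 : ℝ) ≤ l2 := by exact_mod_cast hN2
    have b3 : (0 : ℝ) ≤ N1 := Nat.cast_nonneg _
    have b4 : (0 : ℝ) ≤ N2 := Nat.cast_nonneg _
    have c0 : (N1 : ℝ) * ∑ g ∈ Icc 1 N2, (1 : ℝ) / (g : ℝ) ^ 2 ≤ l1 * 2 :=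
      mul_le_mul b1 a1 (sum_nonneg fun g _ => by positivity) (by linarith)
    have c1 : (N1 : ℝ) * ∑ g ∈ Icc 1 N2, (1 : ℝ) / (g : ℝ) ^ 2 +
        ∑ g ∈ Icc 1 N2, (1 : ℝ) / (g : ℝ) ≤ 4 * l1 := by linarith
    have c2 : 4 * (N1 : ℝ) * (N2 : ℝ) ^ 2 ≤ 4 * l1 * (l2 : ℝ) ^ 2 := by
      gcongr
    have c3 : (N1 : ℝ) * N2 * (l1 * l2) ≤ (l1 * l2) * (l1 * l2) := by
      gcongr
    have c4 : 4 * (N1 : ℝ) * (N2 : ℝ) ^ 2 * (N1 * ∑ g ∈ Icc 1 N2, (1 : ℝ) / (g : ℝ) ^ 2 +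
        ∑ g ∈ Icc 1 N2, (1 : ℝ) / (g : ℝ)) ≤ 4 * l1 * (l2 : ℝ) ^ 2 * (4 * l1) := by
      apply mul_le_mul c2 c1 _ (by positivity)
      have : 0 ≤ ∑ g ∈ Icc 1 N2, (1 : ℝ) / (g : ℝ) ^ 2 := sum_nonneg fun g _ => by positivity
      have : 0 ≤ ∑ g ∈ Icc 1 N2, (1 : ℝ) / (g : ℝ) := sum_nonneg fun g _ => by positivity
      positivity
    nlinarith [sq_nonneg ((l1 : ℝ) * l2)]


end

end BSqM

open BSqM in
/-- Second moment of `YY`. -/
theorem pair_sq (W a l1 l2 M : ℕ) (hW : 0 < W) (h1 : l1.Prime) (h2 : l2.Prime)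
    (h12 : l1 < l2)
    (hl1 : l1.Coprime W) (hl2 : l2.Coprime W) (hM : 0 < M)
    (S1 N1 S2 N2 : ℕ) (hN12 : N1 ≤ N2) (hN1 : N1 ≤ l1) (hN2 : N2 ≤ l2)
    (hlog : Real.log l2 ≤ l1)
    (hpos : ∀ s1 ∈ Ico S1 (S1 + N1), ∀ s2 ∈ Ico S2 (S2 + N2),
      l1 * s2 < l2 * s1 ∧ l2 * s1 ≤ l1 * s2 + l1 * l2 ∧ ¬ l1 ∣ s1 ∧
        (W ∣ l2 * s1 - l1 * s2 → qf W l1 l2 s1 s2 ∣ M)) :
    ∑ n ∈ range M, (YY W a l1 l2 (Ico S1 (S1 + N1)) (Ico S2 (S2 + N2)) n) ^ 2 ≤ 40 * (M : ℝ) := by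
  set P := Ico S1 (S1 + N1) ×ˢ Ico S2 (S2 + N2) with hP
  have hL : (0 : ℝ) < (l1 : ℝ) * l2 := by
    have := h1.pos
    have := h2.pos
    positivity
  have hYY : ∀ n, YY W a l1 l2 (Ico S1 (S1 + N1)) (Ico S2 (S2 + N2)) n =
      ∑ s ∈ P, if VV W a l1 l2 s n then (qq W l1 l2 s : ℝ) / (l1 * l2) else 0 := by
    intro n
    rw [YY, hP, sum_product]
    rfl
  have hsq : ∀ n, (YY W a l1 l2 (Ico S1 (S1 + N1)) (Ico S2 (S2 + N2)) n) ^ 2 =
      ∑ s ∈ P, ∑ s' ∈ P, ((qq W l1 l2 s : ℝ) * qq W l1 l2 s' / (l1 * l2) ^ 2) *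
        (if VV W a l1 l2 s n ∧ VV W a l1 l2 s' n then (1 : ℝ) else 0) := by
    intro n
    rw [hYY, pow_two, sum_mul_sum]
    apply sum_congr rfl
    intro s _
    apply sum_congr rfl
    intro s' _
    by_cases c1 : VV W a l1 l2 s n <;> by_cases c2 : VV W a l1 l2 s' n <;>
      simp only [c1, c2, if_true, if_false, and_self, and_true, and_false, mul_zero, zero_mul,
        mul_one]
    rw [div_mul_div_comm, pow_two]
  calc ∑ n ∈ range M, (YY W a l1 l2 (Ico S1 (S1 + N1)) (Ico S2 (S2 + N2)) n) ^ 2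
      = ∑ s ∈ P, ∑ s' ∈ P, (1 / ((l1 : ℝ) * l2) ^ 2) *
        ((qq W l1 l2 s : ℝ) * qq W l1 l2 s' *
        ((range M).filter (fun n => VV W a l1 l2 s n ∧ VV W a l1 l2 s' n)).card) := by
        rw [sum_congr rfl (fun n _ => hsq n), sum_comm]
        apply sum_congr rfl
        intro s _
        rw [sum_comm]
        apply sum_congr rfl
        intro s' _
        rw [← mul_sum, sum_boole]
        ring
    _ ≤ ∑ s ∈ P, ∑ s' ∈ P, (1 / ((l1 : ℝ) * l2) ^ 2) * (M * GG W l1 l2 s s') := by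
        apply sum_le_sum
        intro s hs
        apply sum_le_sum
        intro s' hs'
        apply mul_le_mul_of_nonneg_left _ (by positivity)
        have hsP := hpos s.1 (mem_product.1 hs).1 s.2 (mem_product.1 hs).2
        have hsP' := hpos s'.1 (mem_product.1 hs').1 s'.2 (mem_product.1 hs').2
        exact pair_count h1 h2 h12 hM s s' hsP.1 hsP.2.2.1 hsP'.1 hsP'.2.2.1
          (fun hk => hsP.2.2.2 hk) (fun hk => hsP'.2.2.2 hk)
    _ = (M / ((l1 : ℝ) * l2) ^ 2) * ∑ s ∈ P, ∑ s' ∈ P, GG W l1 l2 s s' := by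
        rw [mul_sum]
        apply sum_congr rfl
        intro s _
        rw [mul_sum]
        apply sum_congr rfl
        intro s' _
        ring
    _ ≤ (M / ((l1 : ℝ) * l2) ^ 2) * (40 * ((l1 : ℝ) * l2) ^ 2) := by
        apply mul_le_mul_of_nonneg_left _ (by positivity)
        exact total hW h1 h2 h12 S1 N1 S2 N2 hN12 hN1 hN2 hlog
          (fun s1 hs1 s2 hs2 => ⟨(hpos s1 hs1 s2 hs2).1, (hpos s1 hs1 s2 hs2).2.1,
            (hpos s1 hs1 s2 hs2).2.2.1⟩)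
    _ = 40 * (M : ℝ) := by
        have : ((l1 : ℝ) * l2) ^ 2 ≠ 0 := by positivity
        rw [div_mul_comm, mul_div_assoc, div_self this, mul_one]

end Pool.Agent.MR
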