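import Pool.Agent.MR.BWeyl
import Pool.Agent.MR.BSq

set_option autoImplicit false

open Finset

namespace Pool.Agent.MR

namespace BEqM

open Pool.Agent.H33

theorem ee_int (m : ℤ) : ee m = 1 := by
  unfold ee
  rw [Complex.exp_eq_one_iff]
  exact ⟨m, by push_cast; ring⟩

theorem ee_add_int (t : ℝ) (m : ℤ) : ee (t + m) = ee t := by
  rw [ee_add, ee_int, mul_one]

theorem ee_nat_mul (a : ℕ) (t : ℝ) : ee (a * t) = ee t ^ a := by
  induction a with
  | zero => simp [ee_zero]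
  | succ a ih =>
    rw [pow_succ, ← ih, ← ee_add]
    congr 1
    push_cast
    ring

/-- distance from the integers -/
theorem norm_one_sub_ee_ge' (t δ : ℝ) (ht : ∀ m : ℤ, δ ≤ |t - m|) : 4 * δ ≤ ‖1 - ee t‖ := by
  have h1 := ht (round t)
  have h2 := abs_sub_round t
  have e1 : ee t = ee (t - round t) := by
    have := ee_add_int (t - round t) (round t)
    rw [← this]
    congr 1
    ring
  rw [e1]
  rcases le_total 0 (t - round t) with h | h
  · rw [abs_of_nonneg h] at h1 h2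
    have := norm_one_sub_ee_ge h h2
    linarith
  · rw [abs_of_nonpos h] at h1 h2
    have := norm_one_sub_ee_ge (x := -(t - round t)) (by linarith) h2
    have e2 : ‖1 - ee (-(t - round t))‖ = ‖1 - ee (t - round t)‖ := by
      rw [ee_neg]
      have : (1 : ℂ) - (starRingEnd ℂ) (ee (t - round t)) =
          (starRingEnd ℂ) (1 - ee (t - round t)) := by simp
      rw [this, Complex.norm_conj]
    rw [e2] at this
    linarith

/-- the Fejér kernel -/
noncomputable def ker (K : ℕ) (t : ℝ) : ℝ := ‖∑ a ∈ range K, ee (a * t)‖ ^ 2 / K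

theorem ker_nonneg (K : ℕ) (t : ℝ) : 0 ≤ ker K t := by
  unfold ker
  positivity

theorem ker_small (K : ℕ) (hK : 0 < K) (t δ : ℝ) (hδ : 0 < δ) (ht : ∀ m : ℤ, δ ≤ |t - m|) :
    ker K t ≤ 1 / (4 * δ ^ 2 * K) := by
  have h1 := norm_one_sub_ee_ge' t δ ht
  have hne : ee t ≠ 1 := by
    intro h
    rw [h] at h1
    simp at h1
    linarith
  have hsum : ∑ a ∈ range K, ee (a * t) = (1 - ee t ^ K) / (1 - ee t) := by
    rw [sum_congr rfl (fun a _ => ee_nat_mul a t), geom_sum_eq hne, ← neg_div_neg_eq, neg_sub,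
      neg_sub]
  have hnum : ‖1 - ee t ^ K‖ ≤ 2 := by
    calc ‖1 - ee t ^ K‖ ≤ ‖(1 : ℂ)‖ + ‖ee t ^ K‖ := norm_sub_le _ _
      _ = 2 := by rw [norm_pow, norm_ee]; norm_num
  have hb : ‖∑ a ∈ range K, ee (a * t)‖ ≤ 1 / (2 * δ) := by
    rw [hsum, norm_div]
    calc ‖1 - ee t ^ K‖ / ‖1 - ee t‖ ≤ 2 / (4 * δ) := by gcongr
      _ = 1 / (2 * δ) := by field_simp; norm_num
  unfold ker
  have hKR : (0 : ℝ) < K := by exact_mod_cast hK
  calc ‖∑ a ∈ range K, ee (a * t)‖ ^ 2 / K ≤ (1 / (2 * δ)) ^ 2 / K := by gcongr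
    _ = 1 / (4 * δ ^ 2 * K) := by field_simp; norm_num

/-- the square as a double sum -/
theorem sq_expand (K : ℕ) (t : ℝ) :
    ((‖∑ a ∈ range K, ee (a * t)‖ ^ 2 : ℝ) : ℂ) =
      ∑ a ∈ range K, ∑ b ∈ range K, ee ((((a : ℤ) - b : ℤ) : ℝ) * t) := by
  have h : ((‖∑ a ∈ range K, ee (a * t)‖ ^ 2 : ℝ) : ℂ) =
      (∑ a ∈ range K, ee (a * t)) * (starRingEnd ℂ) (∑ a ∈ range K, ee (a * t)) := by
    rw [Complex.mul_conj, Complex.normSq_eq_norm_sq]
  rw [h, map_sum, sum_mul_sum]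
  apply sum_congr rfl
  intro a _
  apply sum_congr rfl
  intro b _
  rw [← ee_sub]
  congr 1
  push_cast
  ring

theorem sum_roots (K : ℕ) (hK : 0 < K) (h : ℤ) (hh : h ≠ 0) (hhK : |h| < K) :
    ∑ j ∈ range K, ee (-(h * ((j : ℝ) / K))) = 0 := by
  have hKR : (K : ℝ) ≠ 0 := by positivity
  set z := ee (-(h / K : ℝ)) with hz
  have e1 : ∀ j ∈ range K, ee (-(h * ((j : ℝ) / K))) = z ^ j := by
    intro j _
    rw [hz, ← ee_nat_mul]
    congr 1
    ring
  have hzK : z ^ K = 1 := by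
    rw [hz, ← ee_nat_mul]
    have : (K : ℝ) * -(h / K : ℝ) = ((-h : ℤ) : ℝ) := by
      push_cast
      field_simp
    rw [this, ee_int]
  have hz1 : z ≠ 1 := by
    intro hcon
    rw [hz] at hcon
    unfold ee at hcon
    rw [Complex.exp_eq_one_iff] at hcon
    obtain ⟨n, hn⟩ := hcon
    have hpi : (2 * (Real.pi : ℂ) * Complex.I) ≠ 0 := Complex.two_pi_I_ne_zero
    have h2 : ((-(h / K : ℝ) : ℝ) : ℂ) = (n : ℂ) := by
      apply mul_left_cancel₀ hpi
      rw [mul_comm _ (n : ℂ), ← hn]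
      push_cast
      ring
    have h3 : (-(h / K : ℝ) : ℝ) = (n : ℝ) := by exact_mod_cast h2
    have h4 : (-(h : ℝ)) = n * K := by
      field_simp at h3
      linarith
    have h5 : -h = n * K := by exact_mod_cast h4
    have hn0 : n ≠ 0 := by
      rintro rfl
      apply hh
      simpa using h5
    have h6 : |h| = |n| * K := by
      rw [← abs_neg, h5, abs_mul, Nat.abs_cast]
    have h7 : 1 ≤ |n| := Int.one_le_abs hn0
    nlinarith
  rw [sum_congr rfl e1, geom_sum_eq hz1, hzK, sub_self, zero_div]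

theorem sum_ker (K : ℕ) (hK : 0 < K) (t : ℝ) :
    ∑ j ∈ range K, ker K (t - (j : ℝ) / K) = K := by
  have hKR : (K : ℝ) ≠ 0 := by positivity
  have key : ∑ j ∈ range K, ((‖∑ a ∈ range K, ee (a * (t - (j : ℝ) / K))‖ ^ 2 : ℝ) : ℂ) =
      (K : ℂ) * K := by
    rw [sum_congr rfl (fun (j : ℕ) _ => sq_expand K (t - (j : ℝ) / K)), sum_comm]
    have h1 : ∀ a ∈ range K, ∑ j ∈ range K, ∑ b ∈ range K,
        ee ((((a : ℤ) - b : ℤ) : ℝ) * (t - (j : ℝ) / K)) = K := by
      intro a ha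
      rw [sum_comm, sum_eq_single a]
      · simp [ee_zero]
      · intro b hb hba
        have h2 : ∀ j ∈ range K, ee ((((a : ℤ) - b : ℤ) : ℝ) * (t - (j : ℝ) / K)) =
            ee ((((a : ℤ) - b : ℤ) : ℝ) * t) * ee (-((((a : ℤ) - b : ℤ) : ℝ) * ((j : ℝ) / K))) := by
          intro j _
          rw [← ee_add]
          congr 1
          ring
        rw [sum_congr rfl h2, ← mul_sum, sum_roots K hK, mul_zero]
        · intro h
          apply hba
          omega
        · have := mem_range.1 ha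
          have := mem_range.1 hb
          rw [abs_lt]
          constructor <;> omega
      · intro h
        exact absurd ha h
    rw [sum_congr rfl h1, sum_const, card_range, nsmul_eq_mul]
  have key2 : ∑ j ∈ range K, ‖∑ a ∈ range K, ee (a * (t - (j : ℝ) / K))‖ ^ 2 = (K : ℝ) * K := by
    exact_mod_cast key
  unfold ker
  rw [← sum_div, key2, mul_div_assoc, div_self hKR, mul_one]

theorem sum_ker_F (K : ℕ) (hK : 0 < K) (F : Finset ℕ) (θ : ℕ → ℝ) (B : ℝ) (hB0 : 0 ≤ B)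
    (hB : ∀ h : ℤ, h ≠ 0 → |h| < K → ‖∑ w ∈ F, ee (h * θ w)‖ ≤ B) (s : ℝ) :
    ∑ w ∈ F, ker K (θ w - s) ≤ F.card + K * B := by
  have hKR : (0 : ℝ) < K := by exact_mod_cast hK
  have key : ((∑ w ∈ F, ‖∑ a ∈ range K, ee (a * (θ w - s))‖ ^ 2 : ℝ) : ℂ) =
      ∑ a ∈ range K, ∑ b ∈ range K, ee (-((((a : ℤ) - b : ℤ) : ℝ) * s)) *
        ∑ w ∈ F, ee ((((a : ℤ) - b : ℤ) : ℝ) * θ w) := by
    rw [Complex.ofReal_sum, sum_congr rfl (fun w _ => sq_expand K (θ w - s)), sum_comm]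
    apply sum_congr rfl
    intro a _
    rw [sum_comm]
    apply sum_congr rfl
    intro b _
    rw [mul_sum]
    apply sum_congr rfl
    intro w _
    rw [← ee_add]
    congr 1
    ring
  have hn : ∑ w ∈ F, ‖∑ a ∈ range K, ee (a * (θ w - s))‖ ^ 2 ≤
      ∑ a ∈ range K, ∑ b ∈ range K, ((if b = a then (F.card : ℝ) else 0) + B) := by
    have h0 : 0 ≤ ∑ w ∈ F, ‖∑ a ∈ range K, ee (a * (θ w - s))‖ ^ 2 :=
      sum_nonneg fun w _ => by positivity
    calc ∑ w ∈ F, ‖∑ a ∈ range K, ee (a * (θ w - s))‖ ^ 2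
        = ‖((∑ w ∈ F, ‖∑ a ∈ range K, ee (a * (θ w - s))‖ ^ 2 : ℝ) : ℂ)‖ := by
          rw [Complex.norm_real, Real.norm_of_nonneg h0]
      _ ≤ ∑ a ∈ range K, ∑ b ∈ range K, ((if b = a then (F.card : ℝ) else 0) + B) := by
          rw [key]
          refine (norm_sum_le _ _).trans (sum_le_sum fun a ha => ?_)
          refine (norm_sum_le _ _).trans (sum_le_sum fun b hb => ?_)
          rw [norm_mul, norm_ee, one_mul]
          by_cases hba : b = a
          · subst hba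
            rw [if_pos rfl]
            simp only [sub_self, Int.cast_zero, zero_mul, ee_zero, sum_const, nsmul_eq_mul,
              mul_one, Complex.norm_natCast]
            linarith
          · rw [if_neg hba, zero_add]
            apply hB
            · omega
            · have := mem_range.1 ha
              have := mem_range.1 hb
              rw [abs_lt]
              constructor <;> omega
  have hval : ∑ a ∈ range K, ∑ b ∈ range K, ((if b = a then (F.card : ℝ) else 0) + B) =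
      K * (F.card + K * B) := by
    have h1 : ∀ a ∈ range K, ∑ b ∈ range K, ((if b = a then (F.card : ℝ) else 0) + B) =
        F.card + K * B := by
      intro a ha
      rw [sum_add_distrib, sum_ite_eq', if_pos ha, sum_const, card_range, nsmul_eq_mul]
    rw [sum_congr rfl h1, sum_const, card_range, nsmul_eq_mul]
  rw [hval] at hn
  unfold ker
  rw [← sum_div, div_le_iff₀ hKR]
  linarith

/-- number of grid points near an arc -/
theorem card_J (K : ℕ) (hK : 0 < K) (A B : ℝ) (hAB : A ≤ B) (J : Finset ℕ) (hJ : J ⊆ range K)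
    (hm : ∀ j ∈ J, ∃ m : ℤ, A < (j : ℝ) / K + m ∧ (j : ℝ) / K + m < B) :
    (J.card : ℝ) ≤ K * (B - A) + 1 := by
  have hKR : (0 : ℝ) < K := by exact_mod_cast hK
  choose! m hm1 hm2 using hm
  have hinj : Set.InjOn (fun j : ℕ => (j : ℤ) + m j * K) (J : Set ℕ) := by
    intro i hi j hj hij
    simp only at hij
    have h1 := mem_range.1 (hJ hi)
    have h2 := mem_range.1 (hJ hj)
    have h3 : ((i : ℤ) + m i * K) % K = ((j : ℤ) + m j * K) % K := by rw [hij]
    rw [Int.add_mul_emod_self_right, Int.add_mul_emod_self_right,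
      Int.emod_eq_of_lt (by omega) (by omega), Int.emod_eq_of_lt (by omega) (by omega)] at h3
    omega
  have hsub : J.image (fun j : ℕ => (j : ℤ) + m j * K) ⊆ Ioo ⌊K * A⌋ ⌈K * B⌉ := by
    intro z hz
    obtain ⟨j, hj, rfl⟩ := mem_image.1 hz
    rw [mem_Ioo]
    have e : (((j : ℤ) + m j * K : ℤ) : ℝ) = K * ((j : ℝ) / K + m j) := by
      push_cast
      field_simp
    constructor
    · rw [Int.floor_lt, e]
      exact mul_lt_mul_of_pos_left (hm1 j hj) hKR
    · rw [Int.lt_ceil, e]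
      exact mul_lt_mul_of_pos_left (hm2 j hj) hKR
  have hc : J.card ≤ (⌈K * B⌉ - ⌊K * A⌋ - 1).toNat := by
    rw [← card_image_of_injOn hinj, ← Int.card_Ioo]
    exact card_le_card hsub
  have h5 : ((⌈K * B⌉ - ⌊K * A⌋ - 1).toNat : ℝ) ≤ K * (B - A) + 1 := by
    have h6 : ((⌈K * B⌉ - ⌊K * A⌋ - 1 : ℤ) : ℝ) ≤ K * (B - A) + 1 := by
      push_cast
      have := Int.ceil_lt_add_one (K * B)
      have := Int.sub_one_lt_floor (K * A)
      linarith
    rcases le_total 0 (⌈K * B⌉ - ⌊K * A⌋ - 1) with h | h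
    · have : ((⌈K * B⌉ - ⌊K * A⌋ - 1).toNat : ℝ) = ((⌈K * B⌉ - ⌊K * A⌋ - 1 : ℤ) : ℝ) := by
        have := Int.toNat_of_nonneg h
        exact_mod_cast this
      rw [this]
      exact h6
    · rw [Int.toNat_of_nonpos h]
      have : 0 ≤ K * (B - A) := mul_nonneg hKR.le (by linarith)
      push_cast
      linarith
  calc (J.card : ℝ) ≤ ((⌈K * B⌉ - ⌊K * A⌋ - 1).toNat : ℝ) := by exact_mod_cast hc
    _ ≤ _ := h5

/-- upper bound for the number of points in an arc -/
theorem arc_count (α β δ : ℝ) (hαβ : α ≤ β) (hδ : 0 < δ) (K : ℕ) (hK : 0 < K)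
    (F : Finset ℕ) (θ : ℕ → ℝ) (B : ℝ) (hB0 : 0 ≤ B)
    (hB : ∀ h : ℤ, h ≠ 0 → |h| < K → ‖∑ w ∈ F, ee (h * θ w)‖ ≤ B) :
    ((F.filter (fun w => α ≤ Int.fract (θ w) ∧ Int.fract (θ w) < β)).card : ℝ) ≤
      (β - α + 2 * δ + 1 / K + 1 / (4 * δ ^ 2 * K)) * F.card + K * B := by
  classical
  have hKR : (0 : ℝ) < K := by exact_mod_cast hK
  set J := (range K).filter (fun j : ℕ => ∃ m : ℤ, α - δ < (j : ℝ) / K + m ∧
    (j : ℝ) / K + m < β + δ) with hJ
  have hJc : (J.card : ℝ) ≤ K * ((β + δ) - (α - δ)) + 1 :=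
    card_J K hK (α - δ) (β + δ) (by linarith) J (filter_subset _ _)
      (fun j hj => (mem_filter.1 hj).2)
  have hJK : (J.card : ℝ) ≤ K := by
    have : J.card ≤ K := (card_filter_le _ _).trans (by rw [card_range])
    exact_mod_cast this
  set η := 1 / (4 * δ ^ 2 * K) with hη
  have hη0 : 0 ≤ η := by positivity
  have hpt : ∀ w ∈ F.filter (fun w => α ≤ Int.fract (θ w) ∧ Int.fract (θ w) < β),
      (1 : ℝ) ≤ (1 / K) * ∑ j ∈ J, ker K (θ w - (j : ℝ) / K) + η := by
    intro w hw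
    obtain ⟨-, hw1, hw2⟩ := mem_filter.1 hw
    have hs := sum_ker K hK (θ w)
    have hsplit := sum_filter_add_sum_filter_not (range K) (fun j : ℕ => ∃ m : ℤ,
      α - δ < (j : ℝ) / K + m ∧ (j : ℝ) / K + m < β + δ)
      (fun j => ker K (θ w - (j : ℝ) / K))
    rw [hs] at hsplit
    have hrest : ∑ j ∈ (range K).filter (fun j : ℕ => ¬ ∃ m : ℤ,
        α - δ < (j : ℝ) / K + m ∧ (j : ℝ) / K + m < β + δ), ker K (θ w - (j : ℝ) / K) ≤
        K * η := by
      calc _ ≤ ∑ j ∈ (range K).filter (fun j : ℕ => ¬ ∃ m : ℤ,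
            α - δ < (j : ℝ) / K + m ∧ (j : ℝ) / K + m < β + δ), η := by
            apply sum_le_sum
            intro j hj
            have hj2 := (mem_filter.1 hj).2
            apply ker_small K hK _ δ hδ
            intro m
            by_contra hcon
            push Not at hcon
            rw [abs_lt] at hcon
            apply hj2
            refine ⟨m - ⌊θ w⌋, ?_, ?_⟩
            · push_cast
              have : Int.fract (θ w) = θ w - ⌊θ w⌋ := rfl
              linarith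
            · push_cast
              have : Int.fract (θ w) = θ w - ⌊θ w⌋ := rfl
              linarith
        _ ≤ ∑ j ∈ range K, η :=
            sum_le_sum_of_subset_of_nonneg (filter_subset _ _) (fun _ _ _ => hη0)
        _ = K * η := by rw [sum_const, card_range, nsmul_eq_mul]
    have h2 : (K : ℝ) ≤ ∑ j ∈ J, ker K (θ w - (j : ℝ) / K) + K * η :=
      calc (K : ℝ) = _ := hsplit.symm
        _ ≤ _ := add_le_add le_rfl hrest
    have h3 : (1 : ℝ) = (1 / K) * K := by field_simp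
    calc (1 : ℝ) = (1 / K) * K := h3
      _ ≤ (1 / K) * (∑ j ∈ J, ker K (θ w - (j : ℝ) / K) + K * η) :=
          mul_le_mul_of_nonneg_left h2 (by positivity)
      _ = (1 / K) * ∑ j ∈ J, ker K (θ w - (j : ℝ) / K) + η := by field_simp
  calc ((F.filter (fun w => α ≤ Int.fract (θ w) ∧ Int.fract (θ w) < β)).card : ℝ)
      = ∑ w ∈ F.filter (fun w => α ≤ Int.fract (θ w) ∧ Int.fract (θ w) < β), (1 : ℝ) := by
        simp
    _ ≤ ∑ w ∈ F.filter (fun w => α ≤ Int.fract (θ w) ∧ Int.fract (θ w) < β),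
        ((1 / K) * ∑ j ∈ J, ker K (θ w - (j : ℝ) / K) + η) := sum_le_sum hpt
    _ ≤ ∑ w ∈ F, ((1 / K) * ∑ j ∈ J, ker K (θ w - (j : ℝ) / K) + η) := by
        apply sum_le_sum_of_subset_of_nonneg (filter_subset _ _)
        intro w _ _
        have : 0 ≤ ∑ j ∈ J, ker K (θ w - (j : ℝ) / K) := sum_nonneg fun j _ => ker_nonneg _ _
        positivity
    _ = (1 / K) * ∑ j ∈ J, ∑ w ∈ F, ker K (θ w - (j : ℝ) / K) + F.card * η := by
        rw [sum_add_distrib, ← mul_sum, sum_comm, sum_const, nsmul_eq_mul]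
    _ ≤ (1 / K) * ∑ j ∈ J, (F.card + K * B) + F.card * η := by
        gcongr with j hj
        exact sum_ker_F K hK F θ B hB0 hB _
    _ = (J.card / K) * F.card + J.card * B + F.card * η := by
        rw [sum_const, nsmul_eq_mul]
        field_simp
    _ ≤ (β - α + 2 * δ + 1 / K) * F.card + K * B + F.card * η := by
        have h1 : (J.card : ℝ) / K ≤ β - α + 2 * δ + 1 / K := by
          rw [div_le_iff₀ hKR]
          have : (β - α + 2 * δ + 1 / K) * K = K * ((β + δ) - (α - δ)) + 1 := by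
            field_simp
            ring
          rw [this]
          exact hJc
        gcongr
    _ = _ := by ring

end BEqM

open BEqM Pool.Agent.H33 in
/-- (E) Equidistribution of `(w mod M, x/w mod M)`, upper bound. -/
theorem equid (σ : ℝ) (hσ : 0 < σ) (M : ℕ) (hM : 0 < M) (r ν : ℕ) (u v : ℝ) (hu : 0 ≤ u)
    (huv : u ≤ v) (hv : v ≤ 1) (ε : ℝ) (hε : 0 < ε) :
    ∃ X0 : ℝ, ∀ x : ℝ, X0 ≤ x →
      (((wset x σ).filter (fun w : ℕ => w ≡ r [MOD M] ∧ ⌊x / w⌋₊ ≡ ν [MOD M] ∧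
          u ≤ Int.fract (x / w) ∧ Int.fract (x / w) < v)).card : ℝ)
        ≤ ((v - u) / (M : ℝ) ^ 2 + ε) * (√x / σ) := by
  have hMR : (0 : ℝ) < M := by exact_mod_cast hM
  -- parameters
  set δ := ε / 12 with hδ
  have hδ0 : 0 < δ := by positivity
  obtain ⟨K, hK⟩ := exists_nat_gt (max 1 (max (12 / ε) (12 / (4 * δ ^ 2 * ε))))
  have hKR : (0 : ℝ) < K := lt_trans zero_lt_one (lt_of_le_of_lt (le_max_left _ _) hK)
  have hK0 : 0 < K := by exact_mod_cast hKR
  have hK1 : (1 : ℝ) / K ≤ ε / 12 := by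
    have : 12 / ε < K := lt_of_le_of_lt (le_trans (le_max_left _ _) (le_max_right _ _)) hK
    rw [div_lt_iff₀ hε] at this
    rw [div_le_iff₀ hKR]
    linarith
  have hK2 : 1 / (4 * δ ^ 2 * K) ≤ ε / 12 := by
    have : 12 / (4 * δ ^ 2 * ε) < K :=
      lt_of_le_of_lt (le_trans (le_max_right _ _) (le_max_right _ _)) hK
    rw [div_lt_iff₀ (by positivity)] at this
    rw [div_le_iff₀ (by positivity)]
    nlinarith
  -- the Weyl sums
  have hev : ∀ᶠ x : ℝ in Filter.atTop, ∀ h ∈ Ioo (-(K : ℤ)) K, h ≠ 0 →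
      ‖∑ w ∈ (wset x σ).filter (fun w => w ≡ r [MOD M]), ee (h * (x / (M * w)))‖ ≤
        ε / (4 * K) * (√x / σ) := by
    rw [Filter.eventually_all_finset]
    intro h _
    by_cases hh : h = 0
    · filter_upwards with x hx
      exact absurd hh hx
    · obtain ⟨X0, hX0⟩ := weyl_small σ hσ M hM h hh r (ε / (4 * K)) (by positivity)
      filter_upwards [Filter.eventually_ge_atTop X0] with x hx _
      exact hX0 x hx
  have hlim : ∀ᶠ x : ℝ in Filter.atTop, 16 * (1 + ε) / ε ≤ √x / σ := by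
    have : Filter.Tendsto (fun x : ℝ => √x / σ) Filter.atTop Filter.atTop :=
      Real.tendsto_sqrt_atTop.atTop_div_const hσ
    exact this.eventually_ge_atTop _
  obtain ⟨X0, hX0⟩ := Filter.eventually_atTop.1 ((hev.and hlim).and
    (Filter.eventually_gt_atTop 0))
  refine ⟨X0, fun x hx => ?_⟩
  obtain ⟨⟨hw, hN⟩, hx0⟩ := hX0 x hx
  set N := √x / σ with hNdef
  have hNpos : 0 < N := lt_of_lt_of_le (by positivity) hN
  set F := (wset x σ).filter (fun w => w ≡ r [MOD M]) with hF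
  have hM1 : (1 : ℝ) ≤ M := by exact_mod_cast hM
  have hFc : (F.card : ℝ) ≤ N / M + 3 := by
    have h2N : (⌊2 * N⌋₊ : ℝ) ≤ 2 * N := Nat.floor_le (by positivity)
    have hN' : N ≤ ⌈N⌉₊ := Nat.le_ceil _
    have hsubF : F ⊆ Ico ⌈N⌉₊ (⌈N⌉₊ + (⌊2 * N⌋₊ + 1 - ⌈N⌉₊)) := by
      intro w hw'
      have h1 := mem_Icc.1 (mem_filter.1 hw').1
      rw [mem_Ico]
      have h2 : ⌈N⌉₊ ≤ w := h1.1
      have h3 : w ≤ ⌊2 * N⌋₊ := h1.2
      omega
    have h1 := BSqM.card_class ⌈N⌉₊ (⌊2 * N⌋₊ + 1 - ⌈N⌉₊) M F hsubF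
      (fun a ha b hb => (mem_filter.1 ha).2.trans (mem_filter.1 hb).2.symm)
    have h2 : ((⌊2 * N⌋₊ + 1 - ⌈N⌉₊ : ℕ) : ℝ) ≤ N + 1 := by
      rcases le_total ⌈N⌉₊ (⌊2 * N⌋₊ + 1) with h | h
      · rw [Nat.cast_sub h]
        push_cast
        linarith
      · rw [Nat.sub_eq_zero_of_le h]
        push_cast
        linarith
    have h3 : ((⌊2 * N⌋₊ + 1 - ⌈N⌉₊ : ℕ) : ℝ) / M ≤ (N + 1) / M := by gcongr
    have h4 : (N + 1) / M = N / M + 1 / M := by ring
    have h5 : 1 / (M : ℝ) ≤ 1 := by rw [div_le_one hMR]; exact hM1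
    linarith
  have hmain := arc_count (((ν % M : ℕ) + u) / M) (((ν % M : ℕ) + v) / M) δ (by gcongr) hδ0 K hK0
    F (fun w => x / (M * w)) (ε / (4 * K) * N) (by positivity) (fun h hh hhK => by
      apply hw h _ hh
      rw [mem_Ioo]
      rw [abs_lt] at hhK
      exact hhK)
  have hsub : (wset x σ).filter (fun w : ℕ => w ≡ r [MOD M] ∧ ⌊x / w⌋₊ ≡ ν [MOD M] ∧
          u ≤ Int.fract (x / w) ∧ Int.fract (x / w) < v) ⊆
      F.filter (fun w : ℕ => ((ν % M : ℕ) + u) / M ≤ Int.fract (x / ((M : ℝ) * w)) ∧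
        Int.fract (x / ((M : ℝ) * w)) < ((ν % M : ℕ) + v) / M) := by
    intro w hw'
    obtain ⟨h1, h2, h3, h4, h5⟩ := mem_filter.1 hw'
    rw [mem_filter, hF, mem_filter]
    refine ⟨⟨h1, h2⟩, ?_⟩
    set y := x / (w : ℝ) with hy
    have hy0 : 0 ≤ y := by positivity
    have hfr : Int.fract y = y - ⌊y⌋₊ := by
      rw [Int.fract, ← natCast_floor_eq_intCast_floor hy0]
    have hfr0 := Int.fract_nonneg y
    have hfr1 := Int.fract_lt_one y
    have hmod : ν % M = ⌊y⌋₊ % M := h3.symm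
    have hdm : M * (⌊y⌋₊ / M) + ν % M = ⌊y⌋₊ := by
      rw [hmod]
      exact Nat.div_add_mod _ _
    have hdmR : (M : ℝ) * ((⌊y⌋₊ / M : ℕ) : ℝ) + ((ν % M : ℕ) : ℝ) = (⌊y⌋₊ : ℝ) := by
      exact_mod_cast hdm
    have hνM : ((ν % M : ℕ) : ℝ) + 1 ≤ M := by
      have := Nat.mod_lt ν hM
      exact_mod_cast this
    have e1 : x / ((M : ℝ) * w) = y / M := by
      rw [hy, div_div, mul_comm]
    have e2 : Int.fract (x / ((M : ℝ) * w)) = ((ν % M : ℕ) + Int.fract y) / M := by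
      rw [Int.fract_eq_iff]
      refine ⟨by positivity, ?_, ((⌊y⌋₊ / M : ℕ) : ℤ), ?_⟩
      · rw [div_lt_one hMR]
        linarith
      · rw [e1, ← sub_div, hfr, Int.cast_natCast, div_eq_iff hMR.ne']
        linarith
    rw [e2]
    constructor
    · gcongr
    · gcongr
  have hcard : (((wset x σ).filter (fun w : ℕ => w ≡ r [MOD M] ∧ ⌊x / w⌋₊ ≡ ν [MOD M] ∧
          u ≤ Int.fract (x / w) ∧ Int.fract (x / w) < v)).card : ℝ) ≤
      (F.filter (fun w : ℕ => ((ν % M : ℕ) + u) / M ≤ Int.fract (x / ((M : ℝ) * w)) ∧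
        Int.fract (x / ((M : ℝ) * w)) < ((ν % M : ℕ) + v) / M)).card := by
    exact_mod_cast card_le_card hsub
  refine hcard.trans (hmain.trans ?_)
  have e1 : (((ν % M : ℕ) : ℝ) + v) / M - (((ν % M : ℕ) : ℝ) + u) / M = (v - u) / M := by ring
  have e2 : (K : ℝ) * (ε / (4 * K) * N) = ε / 4 * N := by field_simp
  rw [e1, e2]
  have b1 : (v - u) / M + 2 * δ + 1 / K + 1 / (4 * δ ^ 2 * K) ≤ (v - u) / M + ε / 3 := by
    rw [hδ] at hK2 ⊢
    linarith
  have b0 : 0 ≤ (v - u) / M := div_nonneg (by linarith) hMR.le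
  have b2 : (v - u) / M ≤ 1 := by
    rw [div_le_one hMR]
    linarith
  have b3 : N / M ≤ N := div_le_self hNpos.le hM1
  have b4 : 16 * (1 + ε) ≤ N * ε := by
    rw [div_le_iff₀ hε] at hN
    exact hN
  calc ((v - u) / M + 2 * δ + 1 / K + 1 / (4 * δ ^ 2 * K)) * F.card + ε / 4 * N
      ≤ ((v - u) / M + ε / 3) * (N / M + 3) + ε / 4 * N := by
        gcongr
    _ = (v - u) / M ^ 2 * N + 3 * ((v - u) / M) + ε / 3 * (N / M) + ε + ε / 4 * N := by
        field_simp
        ring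
    _ ≤ (v - u) / M ^ 2 * N + 3 * 1 + ε / 3 * N + ε + ε / 4 * N := by gcongr
    _ ≤ ((v - u) / (M : ℝ) ^ 2 + ε) * N := by nlinarith

end Pool.Agent.MR
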