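import Pool.Agent.MR.BSq

set_option autoImplicit false

open Finset

namespace Pool.Agent.MR

namespace BIndM

open BSqM

/-! ### periodic sums -/

theorem per_one (m : ℕ) (f : ℕ → ℝ) (hf : ∀ x, f (x + m) = f x) (S : ℕ) :
    ∑ s ∈ Ico S (S + m), f s = ∑ r ∈ range m, f r := by
  induction S with
  | zero => rw [Nat.zero_add, range_eq_Ico]
  | succ S ih =>
    rw [← ih]
    rcases Nat.eq_zero_or_pos m with h | h
    · subst h; simp
    · have e1 := sum_Ico_succ_top (show S + 1 ≤ S + m by omega) f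
      have e2 := sum_eq_sum_Ico_succ_bot (show S < S + m by omega) f
      rw [show S + 1 + m = S + m + 1 by ring, e1, e2, hf]
      ring

theorem per_mul (m : ℕ) (f : ℕ → ℝ) (hf : ∀ x, f (x + m) = f x) (S K : ℕ) :
    ∑ s ∈ Ico S (S + K * m), f s = K * ∑ r ∈ range m, f r := by
  induction K with
  | zero => simp
  | succ K ih =>
    have e : S + (K + 1) * m = (S + K * m) + m := by ring
    rw [e, ← sum_Ico_consecutive f (show S ≤ S + K * m by omega)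
      (show S + K * m ≤ S + K * m + m by omega), ih, per_one m f hf]
    push_cast
    ring

theorem per_shift (m : ℕ) (f : ℕ → ℝ) (hf : ∀ x, f (x + m) = f x) (c S K : ℕ) :
    ∑ s ∈ Ico S (S + K * m), f (c + s) = K * ∑ r ∈ range m, f r := by
  rw [per_mul m (fun s => f (c + s)) (fun x => by
    show f (c + (x + m)) = f (c + x)
    rw [← add_assoc, hf]) S K]
  congr 1
  have h := per_one m f hf c
  rw [sum_Ico_eq_sum_range] at h
  rw [← h]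
  congr 1
  congr 1
  omega

/-! ### counting in one class -/

section
variable {W a l1 l2 M : ℕ}

theorem cg_congr (M0 s1 s2 n n0 : ℕ) (hWM : W ^ 2 ∣ M0) (h : n ≡ n0 [MOD M0]) :
    Cg W a l1 l2 s1 s2 n ↔ Cg W a l1 l2 s1 s2 n0 := by
  have h' : n ≡ n0 [MOD W ^ 2] := h.of_dvd hWM
  have h1 : l1 * n + s1 ≡ l1 * n0 + s1 [MOD W ^ 2] := (h'.mul_left l1).add_right s1
  have h2 : l2 * n + s2 ≡ l2 * n0 + s2 [MOD W ^ 2] := (h'.mul_left l2).add_right s2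
  unfold Cg
  constructor
  · rintro ⟨a1, a2⟩
    exact ⟨h1.symm.trans a1, h2.symm.trans a2⟩
  · rintro ⟨a1, a2⟩
    exact ⟨h1.trans a1, h2.trans a2⟩

/-- solvability of `l1 ν + s ≡ 0` modulo `q` -/
theorem exists_sol (q s : ℕ) (hq : 0 < q) (hc : Nat.Coprime q l1) :
    ∃ ν : ℕ, q ∣ l1 * ν + s := by
  rcases Nat.lt_or_ge 1 q with h | h
  · obtain ⟨u, -, hu⟩ := Nat.exists_mul_mod_eq_one_of_coprime hc.symm h
    refine ⟨u * (s * (q - 1)), ?_⟩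
    have h1 : l1 * u ≡ 1 [MOD q] := by
      rw [Nat.ModEq, hu, Nat.mod_eq_of_lt h]
    have h2 : l1 * (u * (s * (q - 1))) + s ≡ 1 * (s * (q - 1)) + s [MOD q] := by
      rw [← mul_assoc]
      exact (h1.mul_right _).add_right _
    have h3 : 1 * (s * (q - 1)) + s = s * q := by
      obtain ⟨r, rfl⟩ := Nat.exists_eq_succ_of_ne_zero hq.ne'
      simp
      ring
    rw [h3] at h2
    exact (Nat.modEq_zero_iff_dvd.1 (h2.trans (Nat.modEq_zero_iff_dvd.2 (Dvd.intro_left s rfl))))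
  · have : q = 1 := by omega
    subst this
    exact ⟨0, one_dvd _⟩

/-- the number of `n < M` in a class modulo `M0` with `q ∣ l1 n + s` -/
theorem count_class (M0 q s n0 : ℕ) (hM0 : 0 < M0) (hM : 0 < M) (hMM : M0 ∣ M) (hqM : q ∣ M)
    (hc : Nat.Coprime q l1) :
    (q : ℝ) * ((range M).filter (fun n => n ≡ n0 [MOD M0] ∧ q ∣ l1 * n + s)).card =
      (M : ℝ) / M0 * (if Nat.gcd q M0 ∣ l1 * n0 + s then (Nat.gcd q M0 : ℝ) else 0) := by
  have hq : 0 < q := Nat.pos_of_dvd_of_pos hqM hM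
  have hgc : Nat.Coprime (Nat.gcd q M0) l1 :=
    Nat.Coprime.coprime_dvd_left (Nat.gcd_dvd_left _ _) hc
  by_cases hg : Nat.gcd q M0 ∣ l1 * n0 + s
  · rw [if_pos hg]
    obtain ⟨ν0, hν0⟩ := exists_sol (l1 := l1) q s hq hc
    have h1 : n0 ≡ ν0 [MOD Nat.gcd M0 q] := by
      rw [Nat.gcd_comm M0 q]
      have e2 : Nat.gcd q M0 ∣ l1 * ν0 + s := (Nat.gcd_dvd_left _ _).trans hν0
      have e3 : l1 * n0 + s ≡ l1 * ν0 + s [MOD Nat.gcd q M0] :=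
        (Nat.modEq_zero_iff_dvd.2 hg).trans (Nat.modEq_zero_iff_dvd.2 e2).symm
      exact Nat.ModEq.cancel_left_of_coprime hgc (Nat.ModEq.add_right_cancel' _ e3)
    obtain ⟨ν, hν1, hν2⟩ := Nat.chineseRemainder' h1
    have hset : (range M).filter (fun n => n ≡ n0 [MOD M0] ∧ q ∣ l1 * n + s) =
        (range M).filter (fun n => n ≡ ν [MOD Nat.lcm M0 q]) := by
      apply filter_congr
      intro n _
      constructor
      · rintro ⟨b1, b2⟩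
        apply Nat.mod_lcm (b1.trans hν1.symm)
        have e3 : l1 * n + s ≡ l1 * ν0 + s [MOD q] :=
          (Nat.modEq_zero_iff_dvd.2 b2).trans (Nat.modEq_zero_iff_dvd.2 hν0).symm
        exact (Nat.ModEq.cancel_left_of_coprime hc (Nat.ModEq.add_right_cancel' _ e3)).trans
          hν2.symm
      · intro h
        refine ⟨(h.of_dvd (Nat.dvd_lcm_left _ _)).trans hν1, ?_⟩
        have h4 : n ≡ ν0 [MOD q] := (h.of_dvd (Nat.dvd_lcm_right _ _)).trans hν2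
        have h5 : l1 * n + s ≡ l1 * ν0 + s [MOD q] := (h4.mul_left l1).add_right s
        exact Nat.modEq_zero_iff_dvd.1 (h5.trans (Nat.modEq_zero_iff_dvd.2 hν0))
    have hL : Nat.lcm M0 q ∣ M := Nat.lcm_dvd hMM hqM
    have hLpos : 0 < Nat.lcm M0 q := Nat.lcm_pos hM0 hq
    have hcard : ((range M).filter (fun n => n ≡ ν [MOD Nat.lcm M0 q])).card =
        M / Nat.lcm M0 q := by
      rw [← Nat.count_eq_card_filter_range, Nat.count_modEq_card _ hLpos,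
        Nat.mod_eq_zero_of_dvd hL]
      simp
    rw [hset, hcard]
    obtain ⟨k, hk⟩ := hL
    rw [hk, Nat.mul_div_cancel_left _ hLpos]
    have e5 : (Nat.gcd q M0 : ℝ) * Nat.lcm M0 q = q * M0 := by
      rw [Nat.lcm_comm]; exact_mod_cast Nat.gcd_mul_lcm q M0
    have hM0R : (M0 : ℝ) ≠ 0 := by positivity
    push_cast
    field_simp
    linear_combination (-(k : ℝ)) * e5
  · rw [if_neg hg, mul_zero]
    have : (range M).filter (fun n => n ≡ n0 [MOD M0] ∧ q ∣ l1 * n + s) = ∅ := by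
      rw [filter_eq_empty_iff]
      rintro n _ ⟨b1, b2⟩
      apply hg
      have h1 : n ≡ n0 [MOD Nat.gcd q M0] := b1.of_dvd (Nat.gcd_dvd_right _ _)
      have h2 : Nat.gcd q M0 ∣ l1 * n + s := (Nat.gcd_dvd_left _ _).trans b2
      have h5 : l1 * n0 + s ≡ l1 * n + s [MOD Nat.gcd q M0] :=
        ((h1.symm).mul_left l1).add_right s
      exact Nat.modEq_zero_iff_dvd.1 (h5.trans (Nat.modEq_zero_iff_dvd.2 h2))
    rw [this]
    simp

/-- the mass of `YY` on a class modulo `M0` -/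
theorem class_sum (W a l1 l2 M0 M : ℕ) (h1 : l1.Prime) (h2 : l2.Prime)
    (h12 : l1 < l2) (hM0 : 0 < M0) (hWM : W ^ 2 ∣ M0) (hM : 0 < M) (hMM : M0 ∣ M)
    (I1 I2 : Finset ℕ)
    (hpos : ∀ s1 ∈ I1, ∀ s2 ∈ I2,
      l1 * s2 < l2 * s1 ∧ ¬ l1 ∣ s1 ∧ (W ∣ l2 * s1 - l1 * s2 → qf W l1 l2 s1 s2 ∣ M))
    (n0 : ℕ) :
    ∑ n ∈ (range M).filter (fun n => n ≡ n0 [MOD M0]), YY W a l1 l2 I1 I2 n =
      (M : ℝ) / M0 / (l1 * l2) * ∑ s1 ∈ I1, ∑ s2 ∈ I2,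
        (if Cg W a l1 l2 s1 s2 n0 ∧ Nat.gcd (qf W l1 l2 s1 s2) M0 ∣ l1 * n0 + s1 then
          (Nat.gcd (qf W l1 l2 s1 s2) M0 : ℝ) else 0) := by
  unfold YY
  rw [sum_comm, mul_sum]
  apply sum_congr rfl
  intro s1 hs1
  rw [sum_comm, mul_sum]
  apply sum_congr rfl
  intro s2 hs2
  obtain ⟨p1, p2, p3⟩ := hpos s1 hs1 s2 hs2
  by_cases hC : Cg W a l1 l2 s1 s2 n0
  · -- the pair is admissible
    have hk : Kd W l1 l2 (s1, s2) := by
      -- any `n` in the class with `q ∣ l1 n + s1` would do; we use `Cg` only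
      have hWW : W ∣ W ^ 2 := Dvd.intro_left (W ^ 1) (by ring)
      obtain ⟨c1, c2⟩ := hC
      have h1' := (c1.mul_left l2).of_dvd hWW
      have h2' := (c2.mul_left l1).of_dvd hWW
      have h3 : l2 * (l1 * (a + W)) ≡ l1 * (l2 * a) [MOD W] := by
        have : l2 * (l1 * (a + W)) = l1 * (l2 * a) + l2 * l1 * W := by ring
        rw [this]
        exact (Nat.modEq_iff_dvd' (by omega)).2 ⟨l2 * l1, by
          rw [Nat.add_sub_cancel_left]; ring⟩ |>.symm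
      have h4 : l1 * (l2 * n0 + s2) ≡ l2 * (l1 * n0 + s1) [MOD W] :=
        h2'.trans (h3.symm.trans h1'.symm)
      have h5 : l1 * l2 * n0 + l1 * s2 ≡ l1 * l2 * n0 + l2 * s1 [MOD W] := by
        have e1 : l1 * (l2 * n0 + s2) = l1 * l2 * n0 + l1 * s2 := by ring
        have e2 : l2 * (l1 * n0 + s1) = l1 * l2 * n0 + l2 * s1 := by ring
        rw [e1, e2] at h4
        exact h4
      have h6 := Nat.ModEq.add_left_cancel' _ h5
      exact (Nat.modEq_iff_dvd' p1.le).1 h6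
    have hcop : Nat.Coprime (qf W l1 l2 s1 s2) l1 :=
      qq_coprime h1 h2 h12 (s1, s2) p1 p2 hk
    have hcnt := count_class (M := M) M0 (qf W l1 l2 s1 s2) s1 n0 hM0 hM hMM (p3 hk) hcop
    have e1 : ∑ n ∈ (range M).filter (fun n => n ≡ n0 [MOD M0]),
        (if Cg W a l1 l2 s1 s2 n ∧ qf W l1 l2 s1 s2 ∣ l1 * n + s1 then
          (qf W l1 l2 s1 s2 : ℝ) / (l1 * l2) else 0) =
        (qf W l1 l2 s1 s2 : ℝ) / (l1 * l2) *
        ((range M).filter (fun n => n ≡ n0 [MOD M0] ∧ qf W l1 l2 s1 s2 ∣ l1 * n + s1)).card := by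
      rw [← filter_filter, ← sum_boole, mul_sum]
      apply sum_congr rfl
      intro n hn
      have hn' := (mem_filter.1 hn).2
      have hCn : Cg W a l1 l2 s1 s2 n := (cg_congr M0 s1 s2 n n0 hWM hn').2 hC
      by_cases hd : qf W l1 l2 s1 s2 ∣ l1 * n + s1
      · rw [if_pos ⟨hCn, hd⟩, if_pos hd, mul_one]
      · rw [if_neg (fun h => hd h.2), if_neg hd, mul_zero]
    rw [e1]
    have e2 : (if Cg W a l1 l2 s1 s2 n0 ∧ Nat.gcd (qf W l1 l2 s1 s2) M0 ∣ l1 * n0 + s1 then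
          (Nat.gcd (qf W l1 l2 s1 s2) M0 : ℝ) else 0) =
        (if Nat.gcd (qf W l1 l2 s1 s2) M0 ∣ l1 * n0 + s1 then
          (Nat.gcd (qf W l1 l2 s1 s2) M0 : ℝ) else 0) := by
      simp only [hC, true_and]
    rw [e2, div_mul_eq_mul_div, hcnt]
    ring
  · rw [if_neg (fun h => hC h.1), mul_zero]
    apply sum_eq_zero
    intro n hn
    have hn' := (mem_filter.1 hn).2
    rw [if_neg]
    rintro ⟨h, -⟩
    exact hC ((cg_congr M0 s1 s2 n n0 hWM hn').1 h)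

/-- the function of `(b1, b2)` -/
noncomputable def HHf (W a l1 l2 M0 : ℕ) (b1 b2 : ℕ) : ℝ :=
  if b1 ≡ l1 * (a + W) [MOD W ^ 2] ∧ b2 ≡ l2 * a [MOD W ^ 2] ∧
    Int.gcd (((l2 : ℤ) * b1 - l1 * b2) / W) M0 ∣ b1 then
    (Int.gcd (((l2 : ℤ) * b1 - l1 * b2) / W) M0 : ℝ) else 0

theorem HHf_per1 (W a l1 l2 M0 : ℕ) (hW : 0 < W) (hWM : W ^ 2 ∣ M0) (b1 b2 : ℕ) :
    HHf W a l1 l2 M0 (b1 + W * M0) b2 = HHf W a l1 l2 M0 b1 b2 := by
  have hW' : (W : ℤ) ≠ 0 := by exact_mod_cast hW.ne'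
  have e1 : ((l2 : ℤ) * ((b1 + W * M0 : ℕ) : ℤ) - l1 * b2) / W =
      ((l2 : ℤ) * b1 - l1 * b2) / W + l2 * M0 := by
    have : (l2 : ℤ) * ((b1 + W * M0 : ℕ) : ℤ) - l1 * b2 =
        ((l2 : ℤ) * b1 - l1 * b2) + (l2 * M0) * W := by push_cast; ring
    rw [this, Int.add_mul_ediv_right _ _ hW']
  have e2 : Int.gcd (((l2 : ℤ) * ((b1 + W * M0 : ℕ) : ℤ) - l1 * b2) / W) M0 =
      Int.gcd (((l2 : ℤ) * b1 - l1 * b2) / W) M0 := by
    rw [e1]
    simp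
  have e3 : b1 + W * M0 ≡ b1 [MOD W ^ 2] := by
    have : W ^ 2 ∣ W * M0 := hWM.mul_left _
    exact ((Nat.modEq_iff_dvd' (by omega)).2 (by simpa using this)).symm
  have e4 : Int.gcd (((l2 : ℤ) * b1 - l1 * b2) / W) M0 ∣ b1 + W * M0 ↔
      Int.gcd (((l2 : ℤ) * b1 - l1 * b2) / W) M0 ∣ b1 := by
    have h : Int.gcd (((l2 : ℤ) * b1 - l1 * b2) / W) M0 ∣ W * M0 := by
      have : Int.gcd (((l2 : ℤ) * b1 - l1 * b2) / W) M0 ∣ M0 := by
        have := Int.gcd_dvd_right (((l2 : ℤ) * b1 - l1 * b2) / W) M0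
        exact_mod_cast this
      exact this.mul_left _
    exact (Nat.dvd_add_iff_left h).symm
  unfold HHf
  rw [e2]
  have e5 : (b1 + W * M0 ≡ l1 * (a + W) [MOD W ^ 2]) ↔ (b1 ≡ l1 * (a + W) [MOD W ^ 2]) :=
    ⟨fun h => e3.symm.trans h, fun h => e3.trans h⟩
  simp only [e4, e5]

theorem HHf_per2 (W a l1 l2 M0 : ℕ) (hW : 0 < W) (hWM : W ^ 2 ∣ M0) (b1 b2 : ℕ) :
    HHf W a l1 l2 M0 b1 (b2 + W * M0) = HHf W a l1 l2 M0 b1 b2 := by
  have hW' : (W : ℤ) ≠ 0 := by exact_mod_cast hW.ne'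
  have e1 : ((l2 : ℤ) * b1 - l1 * ((b2 + W * M0 : ℕ) : ℤ)) / W =
      ((l2 : ℤ) * b1 - l1 * b2) / W + (-l1) * M0 := by
    have : (l2 : ℤ) * b1 - l1 * ((b2 + W * M0 : ℕ) : ℤ) =
        ((l2 : ℤ) * b1 - l1 * b2) + ((-l1) * M0) * W := by push_cast; ring
    rw [this, Int.add_mul_ediv_right _ _ hW']
  have e2 : Int.gcd (((l2 : ℤ) * b1 - l1 * ((b2 + W * M0 : ℕ) : ℤ)) / W) M0 =
      Int.gcd (((l2 : ℤ) * b1 - l1 * b2) / W) M0 := by
    rw [e1]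
    simp
  have e3 : b2 + W * M0 ≡ b2 [MOD W ^ 2] := by
    have : W ^ 2 ∣ W * M0 := hWM.mul_left _
    exact ((Nat.modEq_iff_dvd' (by omega)).2 (by simpa using this)).symm
  unfold HHf
  rw [e2]
  have e5 : (b2 + W * M0 ≡ l2 * a [MOD W ^ 2]) ↔ (b2 ≡ l2 * a [MOD W ^ 2]) :=
    ⟨fun h => e3.symm.trans h, fun h => e3.trans h⟩
  simp only [e5]

theorem HHf_eq (W a l1 l2 M0 : ℕ) (s1 s2 n0 : ℕ) (hs : l1 * s2 < l2 * s1) :
    (if Cg W a l1 l2 s1 s2 n0 ∧ Nat.gcd (qf W l1 l2 s1 s2) M0 ∣ l1 * n0 + s1 then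
          (Nat.gcd (qf W l1 l2 s1 s2) M0 : ℝ) else 0) =
      HHf W a l1 l2 M0 (l1 * n0 + s1) (l2 * n0 + s2) := by
  have e1 : ((l2 : ℤ) * ((l1 * n0 + s1 : ℕ) : ℤ) - l1 * ((l2 * n0 + s2 : ℕ) : ℤ)) / W =
      ((qf W l1 l2 s1 s2 : ℕ) : ℤ) := by
    have : (l2 : ℤ) * ((l1 * n0 + s1 : ℕ) : ℤ) - l1 * ((l2 * n0 + s2 : ℕ) : ℤ) =
        ((l2 * s1 - l1 * s2 : ℕ) : ℤ) := by
      rw [Nat.cast_sub hs.le]; push_cast; ring
    rw [this, qf]
    push_cast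
    rfl
  unfold HHf Cg
  rw [e1, Int.gcd_natCast_natCast]
  simp only [and_assoc]

end

end BIndM

open BIndM in
/-- Full-period windows: the sum of `YY` over a residue class modulo `M0` does not depend on the
class. -/
theorem pair_indep (W a l1 l2 M0 M : ℕ) (hW : 0 < W) (h1 : l1.Prime) (h2 : l2.Prime)
    (h12 : l1 < l2)
    (hl1 : l1.Coprime W) (hl2 : l2.Coprime W) (hM0 : 0 < M0) (hWM : W ^ 2 ∣ M0) (hM : 0 < M)
    (hMM : M0 ∣ M) (S1 K1 S2 K2 : ℕ)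
    (hpos : ∀ s1 ∈ Ico S1 (S1 + K1 * (W * M0)), ∀ s2 ∈ Ico S2 (S2 + K2 * (W * M0)),
      l1 * s2 < l2 * s1 ∧ ¬ l1 ∣ s1 ∧ (W ∣ l2 * s1 - l1 * s2 → qf W l1 l2 s1 s2 ∣ M))
    (n0 n0' : ℕ) :
    ∑ n ∈ (range M).filter (fun n => n ≡ n0 [MOD M0]),
        YY W a l1 l2 (Ico S1 (S1 + K1 * (W * M0))) (Ico S2 (S2 + K2 * (W * M0))) n =
      ∑ n ∈ (range M).filter (fun n => n ≡ n0' [MOD M0]),
        YY W a l1 l2 (Ico S1 (S1 + K1 * (W * M0))) (Ico S2 (S2 + K2 * (W * M0))) n := by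
  have key : ∀ n0 : ℕ, ∑ s1 ∈ Ico S1 (S1 + K1 * (W * M0)), ∑ s2 ∈ Ico S2 (S2 + K2 * (W * M0)),
        (if Cg W a l1 l2 s1 s2 n0 ∧ Nat.gcd (qf W l1 l2 s1 s2) M0 ∣ l1 * n0 + s1 then
          (Nat.gcd (qf W l1 l2 s1 s2) M0 : ℝ) else 0) =
      K1 * ∑ r1 ∈ range (W * M0), (K2 * ∑ r2 ∈ range (W * M0), HHf W a l1 l2 M0 r1 r2) := by
    intro n0
    rw [sum_congr rfl (fun s1 hs1 => sum_congr rfl (fun s2 hs2 =>
      HHf_eq W a l1 l2 M0 s1 s2 n0 (hpos s1 hs1 s2 hs2).1))]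
    rw [sum_congr rfl (fun s1 _ => per_shift (W * M0)
      (fun b2 => HHf W a l1 l2 M0 (l1 * n0 + s1) b2)
      (fun x => HHf_per2 W a l1 l2 M0 hW hWM _ x) (l2 * n0) S2 K2)]
    exact per_shift (W * M0)
      (fun b1 => (K2 : ℝ) * ∑ r2 ∈ range (W * M0), HHf W a l1 l2 M0 b1 r2)
      (fun x => by
        show (K2 : ℝ) * _ = K2 * _
        congr 1
        apply sum_congr rfl
        intro r2 _
        exact HHf_per1 W a l1 l2 M0 hW hWM x r2) (l1 * n0) S1 K1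
  rw [class_sum W a l1 l2 M0 M h1 h2 h12 hM0 hWM hM hMM _ _ hpos n0,
    class_sum W a l1 l2 M0 M h1 h2 h12 hM0 hWM hM hMM _ _ hpos n0', key n0, key n0']

end Pool.Agent.MR
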