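import Pool.Agent.MR.BDefs

set_option autoImplicit false

open Finset

namespace Pool.Agent.MR

/-- facts about the constants -/
theorem blink_consts {c : ℝ} (hc0 : 0 < c) (hc1 : c ≤ 1) {W : ℕ} (hW : 0 < W) :
    0 < kap c W ∧ kap c W ≤ 1 / 100 ∧ 0 < sg c W ∧ sg c W ≤ 1 / 200 ∧
    (W : ℝ) ^ 2 * kap c W = c ^ 2 / 100 ∧ (W : ℝ) ^ 2 * DD c W * sg c W = c / 200 := by
  have hW1 : (1 : ℝ) ≤ W := by exact_mod_cast hW
  have hW2 : (1 : ℝ) ≤ (W : ℝ) ^ 2 := one_le_pow₀ hW1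
  have hk : 0 < kap c W := by unfold kap; positivity
  have hD : 0 < DD c W := by
    unfold DD
    rw [Nat.ceil_pos]; positivity
  have hD1 : (1 : ℝ) ≤ DD c W := by exact_mod_cast hD
  have hk2 : kap c W ≤ 1 / 100 := by
    unfold kap
    rw [div_le_div_iff₀ (by positivity) (by norm_num)]
    nlinarith
  refine ⟨hk, hk2, ?_, ?_, ?_, ?_⟩
  · unfold sg; positivity
  · unfold sg
    rw [div_le_div_iff₀ (by positivity) (by norm_num)]
    have : (1 : ℝ) ≤ (W : ℝ) ^ 2 * DD c W := by nlinarith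
    nlinarith
  · unfold kap; field_simp
  · unfold sg; field_simp

theorem blink_y {X σ w y : ℝ} (hσ : 0 < σ) (hX : 0 < X) (hwl : X / σ ≤ w) (hy : w * y = X * X) :
    y ≤ X * σ := by
  rw [div_le_iff₀ hσ] at hwl
  have hw : 0 < w := by
    by_contra h
    push Not at h
    have : w * σ ≤ 0 := mul_nonpos_of_nonpos_of_nonneg h hσ.le
    linarith
  have h1 : X * X ≤ X * (w * σ) := mul_le_mul_of_nonneg_left hwl hX.le
  have h2 : w * y ≤ w * (X * σ) := by
    rw [hy]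
    calc X * X ≤ X * (w * σ) := h1
      _ = w * (X * σ) := by ring
  exact le_of_mul_le_mul_left h2 hw

theorem blink_cw {c X σ w : ℝ} (hc : 0 < c) (hσ : 0 < σ) (hwl : X / σ ≤ w)
    (hwu : w ≤ 2 * (X / σ)) : c * X ≤ c * σ * w ∧ c * σ * w ≤ 2 * (c * X) := by
  rw [div_le_iff₀ hσ] at hwl
  constructor
  · calc c * X ≤ c * (w * σ) := mul_le_mul_of_nonneg_left hwl hc.le
      _ = c * σ * w := by ring
  · have h2 : c * σ * w ≤ c * σ * (2 * (X / σ)) := mul_le_mul_of_nonneg_left hwu (by positivity)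
    have h3 : c * σ * (2 * (X / σ)) = 2 * (c * X) := by field_simp
    linarith

theorem blink_err {c X σ κ W d y : ℝ} (hc : 0 < c) (hσ : 0 < σ) (hX : 0 < X) (hd : 0 < d)
    (hκ : 0 < κ) (hy0 : 0 < y)
    (hWk : W ^ 2 * κ = c ^ 2 / 100) (hWd : W ^ 2 * d * σ ≤ c / 200) (hσX : 100 ≤ X * σ)
    (hy : y ≤ X * σ) :
    5 * W ^ 2 * (κ + d * (c * σ * (15 / 100))) * (y + 1) ≤ (6 / 100) * (c * X) * (c * σ) := by
  have h1 : 5 * W ^ 2 * (κ + d * (c * σ * (15 / 100))) ≤ c ^ 2 * (5375 / 100000) := by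
    have h2 : W ^ 2 * d * σ * c ≤ c / 200 * c := mul_le_mul_of_nonneg_right hWd hc.le
    have e1 : 5 * W ^ 2 * (κ + d * (c * σ * (15 / 100))) =
      5 * (W ^ 2 * κ) + (75 / 100) * (W ^ 2 * d * σ * c) := by ring
    rw [e1, hWk]
    have e2 : c / 200 * c = c ^ 2 / 200 := by ring
    rw [e2] at h2
    have : 0 < c ^ 2 := by positivity
    linarith
  have h3 : y + 1 ≤ X * σ * (101 / 100) := by linarith
  have h0 : 0 ≤ 5 * W ^ 2 * (κ + d * (c * σ * (15 / 100))) := by positivity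
  calc 5 * W ^ 2 * (κ + d * (c * σ * (15 / 100))) * (y + 1)
      ≤ (c ^ 2 * (5375 / 100000)) * (X * σ * (101 / 100)) :=
        mul_le_mul h1 h3 (by linarith) (by positivity)
    _ = (5428750 / 100000000 : ℝ) * (c ^ 2 * X * σ) := by ring
    _ ≤ (6 / 100) * (c ^ 2 * X * σ) := by
        have : 0 < c ^ 2 * X * σ := by positivity
        linarith
    _ = (6 / 100) * (c * X) * (c * σ) := by ring

theorem blink_wd {c X σ W d y v : ℝ} (hc : 0 < c) (hX : 0 < X) (hd : 0 < d)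
    (hWd : W ^ 2 * d * σ ≤ c / 200) (hσX : 100 ≤ X * σ)
    (hy : y ≤ X * σ) (hv : v ≤ 1) :
    W ^ 2 * d * (y + v) ≤ (1 / 100) * (c * X) := by
  have h1 : y + v ≤ X * σ * (101 / 100) := by linarith
  have h0 : 0 ≤ W ^ 2 * d := by positivity
  have h2 : 0 < c * X := by positivity
  calc W ^ 2 * d * (y + v) ≤ W ^ 2 * d * (X * σ * (101 / 100)) :=
        mul_le_mul_of_nonneg_left h1 h0
    _ = (W ^ 2 * d * σ) * (X * (101 / 100)) := by ring
    _ ≤ (c / 200) * (X * (101 / 100)) := mul_le_mul_of_nonneg_right hWd (by positivity)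
    _ = (101 / 20000) * (c * X) := by ring
    _ ≤ (1 / 100) * (c * X) := by linarith

theorem blink_win {c X σ w u α β : ℝ} (hw : 0 < w) (hα : 0 ≤ α) (hβ : 0 ≤ β)
    (h1 : c * X ≤ c * σ * w) (h2 : c * σ * w ≤ 2 * (c * X))
    (hu1 : c * σ * α < u) (hu2 : u < c * σ * β) :
    α * (c * X) < w * u ∧ w * u < 2 * β * (c * X) := by
  constructor
  · calc α * (c * X) ≤ α * (c * σ * w) := mul_le_mul_of_nonneg_left h1 hα
      _ = w * (c * σ * α) := by ring
      _ < w * u := mul_lt_mul_of_pos_left hu1 hw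
  · calc w * u < w * (c * σ * β) := mul_lt_mul_of_pos_left hu2 hw
      _ = β * (c * σ * w) := by ring
      _ ≤ β * (2 * (c * X)) := mul_le_mul_of_nonneg_left h2 hβ
      _ = 2 * β * (c * X) := by ring

/-- (B1) A configuration at `w` gives the four numbers `m1,…,m4` in `(x, x + c√x]`. -/
theorem link_lemma (c : ℝ) (hc0 : 0 < c) (hc1 : c ≤ 1) (W a : ℕ) (hW : 0 < W) :
    ∃ X0 : ℝ, 1 ≤ X0 ∧ ∀ x : ℝ, X0 ≤ x → ∀ w ∈ wset x (sg c W), ∀ d : ℕ, 1 ≤ d → d ≤ DD c W →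
      w ≡ 1 [MOD W] → ∀ j : ℤ, |(d : ℝ) * (x / w) - j| ≤ kap c W →
      ∀ C : Cfg, C.Static W → C.Win (c * sg c W) (Int.fract (x / w)) →
        C.Dyn W a (W ^ 2 * d) w ⌊x / w⌋₊ →
        ∃ jj m1 m2 m3 m4 al : ℕ, LinkData C W a x c w d jj m1 m2 m3 m4 al := by
  obtain ⟨hk0, hk1, hs0, hs1, hWk, hWD⟩ := blink_consts hc0 hc1 hW
  set κ := kap c W with hκ
  set σ := sg c W with hσ
  refine ⟨(100 / σ) ^ 2, ?_, ?_⟩
  · have : 1 ≤ 100 / σ := by
      rw [le_div_iff₀ hs0]; linarith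
    exact one_le_pow₀ this
  intro x hx w hw d hd1 hdD hw1 j hj C hS hWin hDyn
  obtain ⟨hl1, hl2, cop1, cop2, hq, hWq⟩ := hS
  obtain ⟨hA1, hA2, hB1, hB2⟩ := hWin
  obtain ⟨k, hk⟩ := hDyn.1
  obtain ⟨k2, hk2⟩ := hDyn.2.1
  obtain ⟨be1, hbe1⟩ := hDyn.2.2.1
  obtain ⟨be2, hbe2⟩ := hDyn.2.2.2.1
  have hc1a := hDyn.2.2.2.2.1
  have hc2a := hDyn.2.2.2.2.2
  set n := ⌊x / w⌋₊ with hn
  -- basic real facts
  set X := √x with hX
  have hx0 : 0 ≤ x := le_trans (sq_nonneg _) hx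
  have hXX : X * X = x := Real.mul_self_sqrt hx0
  have hXl : 100 / σ ≤ X := by
    rw [hX]; exact Real.le_sqrt_of_sq_le hx
  have hσX : 100 ≤ X * σ := by
    rw [div_le_iff₀ hs0] at hXl; exact hXl
  have hXpos : 0 < X := lt_of_lt_of_le (by positivity) hXl
  have hxpos : 0 < x := by rw [← hXX]; positivity
  have hwm := hw
  unfold wset at hwm
  rw [mem_Icc] at hwm
  have hwl : X / σ ≤ w := (Nat.ceil_le.mp hwm.1)
  have hwu : (w : ℝ) ≤ 2 * (X / σ) := by
    have h1 : (0 : ℝ) ≤ 2 * (X / σ) := by positivity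
    exact (Nat.le_floor_iff h1).mp hwm.2
  have hwpos : (0 : ℝ) < w := lt_of_lt_of_le (by positivity) hwl
  have hw0 : 0 < w := by exact_mod_cast hwpos
  set y := x / w with hy
  have hywx : w * y = x := by rw [hy]; field_simp
  have hy0 : 0 < y := by rw [hy]; positivity
  have hyu : y ≤ X * σ := blink_y hs0 hXpos hwl (by rw [hywx, hXX])
  obtain ⟨hcw1, hcw2⟩ := blink_cw hc0 hs0 hwl hwu
  -- fractional part
  have hnz : ((n : ℤ) : ℝ) = (⌊y⌋ : ℝ) := by
    have : (n : ℤ) = ⌊y⌋ := by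
      rw [hn]; exact Int.natCast_floor_eq_floor hy0.le
    rw [this]
  set φ := Int.fract y with hφ
  have hyn : y = n + φ := by
    have h1 := Int.floor_add_fract y
    rw [← hφ, ← hnz] at h1
    push_cast at h1
    exact h1.symm
  have hφ0 : 0 ≤ φ := Int.fract_nonneg y
  have hφ1 : φ < 1 := Int.fract_lt_one y
  have hd0 : (0 : ℝ) < d := by exact_mod_cast hd1
  have hdDr : (d : ℝ) ≤ DD c W := by exact_mod_cast hdD
  -- jj
  have hjj0 : |((j - d * n : ℤ) : ℝ) - d * φ| ≤ κ := by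
    have e : ((j - d * n : ℤ) : ℝ) - d * φ = -((d : ℝ) * y - j) := by
      rw [hyn]; push_cast; ring
    rw [e, abs_neg]; exact hj
  have hjj1 : 0 ≤ j - d * n := by
    have h1 := (abs_le.mp hjj0).1
    have h2 : (-1 : ℝ) < ((j - d * n : ℤ) : ℝ) := by
      have : 0 ≤ (d : ℝ) * φ := by positivity
      linarith
    have h3 : (-1 : ℤ) < j - d * n := by exact_mod_cast h2
    omega
  have hjj2 : j - d * n ≤ d := by
    have h1 := (abs_le.mp hjj0).2
    have h2 : ((j - d * n : ℤ) : ℝ) < (d : ℝ) + 1 := by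
      have : (d : ℝ) * φ ≤ d := mul_le_of_le_one_right hd0.le hφ1.le
      linarith
    have h3 : j - d * n < (d : ℤ) + 1 := by exact_mod_cast h2
    omega
  obtain ⟨jj, hjj⟩ := Int.eq_ofNat_of_zero_le hjj1
  rw [hjj] at hjj0 hjj2
  have hjjd : jj ≤ d := by exact_mod_cast hjj2
  have hjjr : |(jj : ℝ) - d * φ| ≤ κ := by exact_mod_cast hjj0
  -- integer identities
  have hWqz : (W : ℤ) * C.q + C.l1 * C.s2 = C.l2 * C.s1 := by exact_mod_cast hWq
  have hkz : (w : ℤ) = C.l1 * k := by exact_mod_cast hk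
  have hk2z : (w : ℤ) + W ^ 2 * d = C.l2 * k2 := by exact_mod_cast hk2
  have hb1z : (C.l1 : ℤ) * n + C.s1 = C.q * be1 := by exact_mod_cast hbe1
  have hb2z : (C.l2 : ℤ) * n + C.s2 = C.q * be2 := by exact_mod_cast hbe2
  have hqz : (0 : ℤ) < C.q := by exact_mod_cast hq
  have hbb : (C.l2 : ℤ) * be1 - C.l1 * be2 = W := by
    have h1 : (C.q : ℤ) * (C.l2 * be1 - C.l1 * be2) = C.q * W := by
      linear_combination (-(C.l2 : ℤ)) * hb1z + (C.l1 : ℤ) * hb2z - hWqz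
    exact mul_left_cancel₀ hqz.ne' h1
  have hdiv : (C.l2 : ℤ) ∣ C.q * k - W * d * C.s2 := by
    have h1 : (C.l2 : ℤ) ∣ W * (C.q * k - W * d * C.s2) := by
      refine ⟨C.s1 * k - k2 * C.s2, ?_⟩
      linear_combination (k : ℤ) * hWqz + (C.s2 : ℤ) * hkz - (C.s2 : ℤ) * hk2z
    have h2 : IsCoprime (C.l2 : ℤ) (W : ℤ) := Nat.isCoprime_iff_coprime.mpr cop2
    exact h2.dvd_of_dvd_mul_left h1
  obtain ⟨e, he⟩ := hdiv
  -- real casts
  have hl1r : (0 : ℝ) < C.l1 := by exact_mod_cast hl1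
  have hl2r : (0 : ℝ) < C.l2 := by exact_mod_cast hl2
  have hqr : (0 : ℝ) < C.q := by exact_mod_cast hq
  have hWr : (0 : ℝ) < W := by exact_mod_cast hW
  set u := (C.s1 : ℝ) / C.l1 - φ with hu
  set v := (C.s2 : ℝ) / C.l2 - φ with hv
  have hs1r : (C.s1 : ℝ) = C.l1 * (u + φ) := by rw [hu]; field_simp; ring
  have hs2r : (C.s2 : ℝ) = C.l2 * (v + φ) := by rw [hv]; field_simp; ring
  have hWqr : (W : ℝ) * C.q = C.l1 * C.l2 * (u - v) := by
    have : (W : ℝ) * C.q + C.l1 * C.s2 = C.l2 * C.s1 := by exact_mod_cast hWq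
    rw [hs1r, hs2r] at this
    linear_combination this
  have hb1r : (C.q : ℝ) * be1 = C.l1 * (y + u) := by
    have : (C.l1 : ℝ) * n + C.s1 = C.q * be1 := by exact_mod_cast hbe1
    rw [hs1r] at this
    rw [← this, hyn]; ring
  have hb2r : (C.q : ℝ) * be2 = C.l2 * (y + v) := by
    have : (C.l2 : ℝ) * n + C.s2 = C.q * be2 := by exact_mod_cast hbe2
    rw [hs2r] at this
    rw [← this, hyn]; ring
  set c1 := c * σ with hc1d
  have hc1p : 0 < c1 := by positivity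
  have hc1s : c1 ≤ 1 := by
    have : c * σ ≤ 1 * (1 / 200) := mul_le_mul hc1 hs1 hs0.le zero_le_one
    linarith
  have huv : c1 * (20 / 100) ≤ u - v := by linarith
  have huv0 : 0 < u - v := by
    have : 0 < c1 * (20 / 100) := by positivity
    linarith
  have hkr : (w : ℝ) = C.l1 * k := by exact_mod_cast hk
  have hk2r : (w : ℝ) + W ^ 2 * d = C.l2 * k2 := by exact_mod_cast hk2
  have her : (C.q : ℝ) * k - W * d * C.s2 = C.l2 * e := by exact_mod_cast he
  -- tau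
  set τ : ℝ := jj - d * (v + φ) with hτ
  have hτb : |τ| ≤ κ + d * (c1 * (15 / 100)) := by
    have e1 : τ = (jj - d * φ) + (-(d * v)) := by rw [hτ]; ring
    have h2 : |-((d : ℝ) * v)| ≤ d * (c1 * (15 / 100)) := by
      rw [abs_neg, abs_of_nonneg (by
        have : 0 ≤ v := by
          have : 0 < c1 * (10 / 100) := by positivity
          linarith
        positivity)]
      exact mul_le_mul_of_nonneg_left hB2.le hd0.le
    rw [e1]
    exact (abs_add_le _ _).trans (add_le_add hjjr h2)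
  have hal2 : (C.l2 : ℝ) * (e + W * jj) = C.q * k + W * C.l2 * τ := by
    rw [mul_add, ← her, hτ]
    rw [hs2r]; ring
  -- the error bound
  have hW2D : (W : ℝ) ^ 2 * d * σ ≤ c / 200 := by
    rw [← hWD]
    have : (W : ℝ) ^ 2 * d ≤ (W : ℝ) ^ 2 * DD c W := mul_le_mul_of_nonneg_left hdDr (by positivity)
    exact mul_le_mul_of_nonneg_right this hs0.le
  have hErr : 5 * (W : ℝ) ^ 2 * (κ + d * (c1 * (15 / 100))) * (y + 1) ≤ (6 / 100) * (c * X) * c1 :=
    blink_err hc0 hs0 hXpos hd0 hk0 hy0 hWk hW2D hσX hyu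
  have hu1 : u ≤ 1 := by linarith
  have hv1 : v ≤ 1 := by linarith
  have hu0 : 0 < u := by
    have : 0 < c1 * (35 / 100) := by positivity
    linarith
  have hv0 : 0 < v := by
    have : 0 < c1 * (10 / 100) := by positivity
    linarith
  -- be1 and be2 bounds
  have hbe1b : (be1 : ℝ) * (c1 * C.l2) ≤ 5 * W * (y + 1) := by
    -- W q be1 = W l1 (y+u), W q >= l1 l2 c1/5
    have h1 : (C.l1 * C.l2 * (u - v)) * be1 = W * (C.l1 * (y + u)) := by
      rw [← hWqr, mul_assoc, hb1r]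
    have h2 : C.l2 * (u - v) * be1 = W * (y + u) := by
      have : (C.l1 : ℝ) * (C.l2 * (u - v) * be1) = C.l1 * (W * (y + u)) := by
        linear_combination h1
      exact mul_left_cancel₀ hl1r.ne' this
    have h3 : (C.l2 : ℝ) * (c1 * (20 / 100)) * be1 ≤ C.l2 * (u - v) * be1 := by
      have : (0 : ℝ) ≤ be1 := Nat.cast_nonneg _
      gcongr
    have h4 : (W : ℝ) * (y + u) ≤ W * (y + 1) := by gcongr
    linarith
  have hbe2b : (be2 : ℝ) * (c1 * C.l1) ≤ 5 * W * (y + 1) := by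
    have h1 : (C.l1 * C.l2 * (u - v)) * be2 = W * (C.l2 * (y + v)) := by
      rw [← hWqr, mul_assoc, hb2r]
    have h2 : C.l1 * (u - v) * be2 = W * (y + v) := by
      have : (C.l2 : ℝ) * (C.l1 * (u - v) * be2) = C.l2 * (W * (y + v)) := by
        linear_combination h1
      exact mul_left_cancel₀ hl2r.ne' this
    have h3 : (C.l1 : ℝ) * (c1 * (20 / 100)) * be2 ≤ C.l1 * (u - v) * be2 := by
      have : (0 : ℝ) ≤ be2 := Nat.cast_nonneg _
      gcongr
    have h4 : (W : ℝ) * (y + v) ≤ W * (y + 1) := by gcongr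
    linarith
  -- shifts
  have hsh1 : |(W : ℝ) * C.l2 * τ * be1| ≤ (6 / 100) * (c * X) := by
    have h1 : |(W : ℝ) * C.l2 * τ * be1| * c1 ≤ (6 / 100) * (c * X) * c1 := by
      refine le_trans ?_ hErr
      have e1 : |(W : ℝ) * C.l2 * τ * be1| * c1 = W * |τ| * (be1 * (c1 * C.l2)) := by
        rw [abs_mul, abs_mul, abs_of_nonneg (by positivity : (0 : ℝ) ≤ (W : ℝ) * C.l2),
          abs_of_nonneg (Nat.cast_nonneg be1 : (0 : ℝ) ≤ be1)]
        ring
      rw [e1]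
      calc (W : ℝ) * |τ| * (be1 * (c1 * C.l2))
          ≤ (W : ℝ) * (κ + d * (c1 * (15 / 100))) * (5 * W * (y + 1)) := by
            gcongr
        _ = 5 * (W : ℝ) ^ 2 * (κ + d * (c1 * (15 / 100))) * (y + 1) := by ring
    exact le_of_mul_le_mul_right h1 hc1p
  have hsh2 : |(W : ℝ) * C.l1 * τ * be2| ≤ (6 / 100) * (c * X) := by
    have h1 : |(W : ℝ) * C.l1 * τ * be2| * c1 ≤ (6 / 100) * (c * X) * c1 := by
      refine le_trans ?_ hErr
      have e1 : |(W : ℝ) * C.l1 * τ * be2| * c1 = W * |τ| * (be2 * (c1 * C.l1)) := by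
        rw [abs_mul, abs_mul, abs_of_nonneg (by positivity : (0 : ℝ) ≤ (W : ℝ) * C.l1),
          abs_of_nonneg (Nat.cast_nonneg be2 : (0 : ℝ) ≤ be2)]
        ring
      rw [e1]
      calc (W : ℝ) * |τ| * (be2 * (c1 * C.l1))
          ≤ (W : ℝ) * (κ + d * (c1 * (15 / 100))) * (5 * W * (y + 1)) := by
            gcongr
        _ = 5 * (W : ℝ) ^ 2 * (κ + d * (c1 * (15 / 100))) * (y + 1) := by ring
    exact le_of_mul_le_mul_right h1 hc1p
  -- values of the four numbers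
  have hm1 : (k : ℝ) * (C.q * be1) = x + w * u := by
    rw [hb1r, ← hywx, hkr]; ring
  have hm2 : (C.l2 : ℝ) * (e + W * jj) * be1 = x + w * u + W * C.l2 * τ * be1 := by
    rw [hal2, ← hm1]; ring
  have hm4 : (k2 : ℝ) * (C.q * be2) = x + w * v + W ^ 2 * d * (y + v) := by
    rw [hb2r]
    have : (k2 : ℝ) * (C.l2 * (y + v)) = (C.l2 * k2) * (y + v) := by ring
    rw [this, ← hk2r, ← hywx]; ring
  have hm3 : (C.l1 : ℝ) * (e + W * jj) * be2 = x + w * v + W * C.l1 * τ * be2 := by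
    have h1 : (C.l2 : ℝ) * (C.l1 * (e + W * jj) * be2) =
        C.l2 * (x + w * v + W * C.l1 * τ * be2) := by
      have h2 : (C.l2 : ℝ) * (C.l1 * (e + W * jj) * be2) = C.l1 * be2 * (C.l2 * (e + W * jj)) := by
        ring
      rw [h2, hal2]
      have h3 : (C.l1 : ℝ) * be2 * (C.q * k + W * C.l2 * τ) =
          (C.l1 * k) * (C.q * be2) + C.l2 * (W * C.l1 * τ * be2) := by ring
      rw [h3, hb2r, ← hkr, ← hywx]; ring
    exact mul_left_cancel₀ hl2r.ne' h1
  have hcX : 0 < c * X := by positivity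
  obtain ⟨hwu1, hwu2⟩ := blink_win hwpos (by norm_num) (by norm_num) hcw1 hcw2 hA1 hA2
  obtain ⟨hwv1, hwv2⟩ := blink_win hwpos (by norm_num) (by norm_num) hcw1 hcw2 hB1 hB2
  have hWd : (W : ℝ) ^ 2 * d * (y + v) ≤ (1 / 100) * (c * X) :=
    blink_wd hc0 hXpos hd0 hW2D hσX hyu hv1
  have hWd0 : 0 ≤ (W : ℝ) ^ 2 * d * (y + v) := by positivity
  -- al is positive
  have hsh1' := abs_le.mp hsh1
  have hsh2' := abs_le.mp hsh2
  have halpos : 0 < e + W * (jj : ℤ) := by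
    have h1 : 0 < (C.l2 : ℝ) * (e + W * jj) * be1 := by
      rw [hm2]; linarith
    have h2 : (0 : ℝ) ≤ be1 := Nat.cast_nonneg _
    have h3 : (0 : ℝ) < e + W * jj := by
      by_contra hcon
      push Not at hcon
      have h4 : (C.l2 : ℝ) * (e + W * jj) ≤ 0 := mul_nonpos_of_nonneg_of_nonpos hl2r.le hcon
      have h5 : (C.l2 : ℝ) * (e + W * jj) * be1 ≤ 0 := mul_nonpos_of_nonpos_of_nonneg h4 h2
      linarith
    exact_mod_cast h3
  obtain ⟨al, hal⟩ := Int.eq_ofNat_of_zero_le halpos.le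
  have halr : (e : ℝ) + W * jj = al := by exact_mod_cast hal
  rw [halr] at hm2 hm3 hal2
  have hkdiv : w / C.l1 = k := by
    rw [hk]; exact Nat.mul_div_cancel_left k hl1
  have hk2div : (w + W ^ 2 * d) / C.l2 = k2 := by
    rw [hk2]; exact Nat.mul_div_cancel_left k2 hl2
  have halz : (C.l2 : ℤ) * al = C.q * k + W * C.l2 * jj - W * d * C.s2 := by
    have : (al : ℤ) = e + W * jj := by rw [hal]
    rw [this]
    linear_combination -he
  -- congruences
  have cong1 : k * (C.q * be1) ≡ a [MOD W] := by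
    have h1 : C.l1 * (k * (C.q * be1)) ≡ C.l1 * a [MOD W] := by
      calc C.l1 * (k * (C.q * be1)) = w * (C.l1 * n + C.s1) := by rw [hbe1, hk]; ring
        _ ≡ 1 * (C.l1 * a) [MOD W] := Nat.ModEq.mul hw1 hc1a
        _ = C.l1 * a := one_mul _
    exact Nat.ModEq.cancel_left_of_coprime (Nat.Coprime.symm cop1) h1
  have cong4 : k2 * (C.q * be2) ≡ a [MOD W] := by
    have hww : w + W ^ 2 * d ≡ 1 [MOD W] := by
      have h0 : W ^ 2 * d ≡ 0 [MOD W] := by
        rw [Nat.modEq_zero_iff_dvd]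
        exact Dvd.dvd.mul_right (dvd_pow_self W two_ne_zero) d
      simpa using Nat.ModEq.add hw1 h0
    have h1 : C.l2 * (k2 * (C.q * be2)) ≡ C.l2 * a [MOD W] := by
      calc C.l2 * (k2 * (C.q * be2)) = (w + W ^ 2 * d) * (C.l2 * n + C.s2) := by
            rw [hbe2, hk2]; ring
        _ ≡ 1 * (C.l2 * a) [MOD W] := Nat.ModEq.mul hww hc2a
        _ = C.l2 * a := one_mul _
    exact Nat.ModEq.cancel_left_of_coprime (Nat.Coprime.symm cop2) h1
  have cong2 : C.l2 * al * be1 ≡ a [MOD W] := by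
    refine Nat.ModEq.trans ?_ cong1
    rw [← Int.natCast_modEq_iff]
    push_cast
    have e1 : (C.l2 : ℤ) * al * be1 = k * (C.q * be1) + W * (C.l2 * jj - d * C.s2) * be1 := by
      rw [halz]; ring
    rw [e1, Int.modEq_iff_dvd]
    refine ⟨-((C.l2 * jj - d * C.s2) * be1), ?_⟩
    ring
  have cong3 : C.l1 * al * be2 ≡ a [MOD W] := by
    have h1 : C.l2 * (C.l1 * al * be2) ≡ C.l2 * a [MOD W] := by
      refine Nat.ModEq.trans (b := w * (C.l2 * n + C.s2)) ?_ ?_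
      · rw [← Int.natCast_modEq_iff]
        push_cast
        have e1 : (C.l2 : ℤ) * (C.l1 * al * be2) = w * (C.l2 * n + C.s2) +
            W * (C.l2 * jj - d * C.s2) * C.l1 * be2 := by
          have h2 : (C.l2 : ℤ) * (C.l1 * al * be2) = C.l1 * be2 * (C.l2 * al) := by ring
          rw [h2, halz, hb2z, hkz]; ring
        rw [e1, Int.modEq_iff_dvd]
        refine ⟨-((C.l2 * jj - d * C.s2) * C.l1 * be2), ?_⟩
        ring
      · have := Nat.ModEq.mul hw1 hc2a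
        rwa [one_mul] at this
    exact Nat.ModEq.cancel_left_of_coprime (Nat.Coprime.symm cop2) h1
  refine ⟨jj, k * (C.q * be1), C.l2 * al * be1, C.l1 * al * be2, k2 * (C.q * be2), al, ?_⟩
  refine ⟨?_, ⟨?_, ?_, cong1⟩, ⟨?_, ?_, cong2⟩, ⟨?_, ?_, cong3⟩, ⟨?_, ?_, cong4⟩, hjjd, ?_, ?_, ?_,
    ?_, ?_, ?_, ?_⟩
  · have e1 : k * (C.q * be1) * (C.l1 * al * be2) * (w + W ^ 2 * d) =
        (C.l1 * k) * (C.q * be1 * al * be2) * (w + W ^ 2 * d) := by ring
    have e2 : C.l2 * al * be1 * (k2 * (C.q * be2)) * w =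
        (C.l2 * k2) * (C.q * be1 * al * be2) * w := by ring
    rw [e1, e2, ← hk, ← hk2]; ring
  · push_cast; rw [hm1]; linarith
  · push_cast; rw [hm1]; linarith
  · push_cast; rw [hm2]; linarith
  · push_cast; rw [hm2]; linarith
  · push_cast; rw [hm3]; linarith
  · push_cast; rw [hm3]; linarith
  · push_cast; rw [hm4]; linarith
  · push_cast; rw [hm4]; linarith
  · rw [hkdiv]
    have : ((C.l2 * al + W * d * C.s2 : ℕ) : ℤ) = ((C.q * k + W * C.l2 * jj : ℕ) : ℤ) := by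
      push_cast
      rw [halz]; ring
    exact_mod_cast this
  · rw [hkdiv]; exact hk.symm
  · rw [hk2div]; exact hk2.symm
  · rw [hkdiv]; exact Dvd.intro _ rfl
  · exact Dvd.intro_left C.l2 rfl |>.mul_right be1
  · exact Dvd.intro_left C.l1 rfl |>.mul_right be2
  · rw [hk2div]; exact Dvd.intro _ rfl

end Pool.Agent.MR
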