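import Pool.Agent.MR.BModel
import Pool.Agent.MR.BEquid

set_option autoImplicit false

open Finset

namespace Pool.Agent.MR

theorem dyn_congr (C : Cfg) (W a d M w w' n n' : ℕ) (hWM : W ∣ M) (h1 : C.l1 ∣ M)
    (h2 : C.l2 ∣ M) (hq : C.q ∣ M) (hw : w ≡ w' [MOD M]) (hn : n ≡ n' [MOD M]) :
    C.Dyn W a d w n ↔ C.Dyn W a d w' n' := by
  have e1 : C.l1 ∣ w ↔ C.l1 ∣ w' := hw.dvd_iff h1
  have e2 : C.l2 ∣ w + d ↔ C.l2 ∣ w' + d := (hw.add_right d).dvd_iff h2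
  have e3 : C.q ∣ C.l1 * n + C.s1 ↔ C.q ∣ C.l1 * n' + C.s1 :=
    ((hn.mul_left C.l1).add_right C.s1).dvd_iff hq
  have e4 : C.q ∣ C.l2 * n + C.s2 ↔ C.q ∣ C.l2 * n' + C.s2 :=
    ((hn.mul_left C.l2).add_right C.s2).dvd_iff hq
  have f1 : C.l1 * n + C.s1 ≡ C.l1 * n' + C.s1 [MOD W] :=
    ((hn.of_dvd hWM).mul_left C.l1).add_right C.s1
  have f2 : C.l2 * n + C.s2 ≡ C.l2 * n' + C.s2 [MOD W] :=
    ((hn.of_dvd hWM).mul_left C.l2).add_right C.s2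
  have e5 : (C.l1 * n + C.s1 ≡ C.l1 * a [MOD W]) ↔ (C.l1 * n' + C.s1 ≡ C.l1 * a [MOD W]) :=
    ⟨fun h => f1.symm.trans h, fun h => f1.trans h⟩
  have e6 : (C.l2 * n + C.s2 ≡ C.l2 * a [MOD W]) ↔ (C.l2 * n' + C.s2 ≡ C.l2 * a [MOD W]) :=
    ⟨fun h => f2.symm.trans h, fun h => f2.trans h⟩
  unfold Cfg.Dyn
  rw [e1, e2, e3, e4, e5, e6]

theorem card_bi (I : Finset ℕ) (B : ℕ → Finset (ℕ × ℕ)) (F : ℕ → ℕ × ℕ → Finset ℕ) :
    ((I.biUnion fun k => (B k).biUnion fun p => F k p).card : ℝ) ≤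
      ∑ k ∈ I, ∑ p ∈ B k, ((F k p).card : ℝ) := by
  have h : (I.biUnion fun k => (B k).biUnion fun p => F k p).card ≤
      ∑ k ∈ I, ∑ p ∈ B k, (F k p).card :=
    card_biUnion_le.trans (sum_le_sum fun k _ => card_biUnion_le)
  exact_mod_cast h

/-- (B3) Almost all `w` have a configuration from a fixed finite set. -/
theorem transfer (c1 : ℝ) (hc1 : 0 < c1) (hc1' : c1 ≤ 1) (σ : ℝ) (hσ : 0 < σ) (W a d : ℕ)
    (hW : 0 < W) (ε : ℝ) (hε : 0 < ε) :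
    ∃ (S : Finset Cfg) (X0 : ℝ), (∀ C ∈ S, C.Static W) ∧ ∀ x : ℝ, X0 ≤ x →
      (Set.ncard {w : ℕ | w ∈ wset x σ ∧ ∀ C ∈ S,
          ¬ (C.Win c1 (Int.fract (x / w)) ∧ C.Dyn W a d w ⌊x / w⌋₊)} : ℝ)
        ≤ ε * (√x / σ) := by
  classical
  -- the grid
  obtain ⟨K, hK⟩ := exists_nat_gt (100 / c1)
  have hKpos : (0 : ℝ) < K := lt_trans (by positivity) hK
  have hK0 : 0 < K := by exact_mod_cast hKpos
  have hK1 : (1 : ℝ) / K ≤ c1 * (1 / 100) := by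
    rw [div_lt_iff₀ hc1] at hK
    rw [div_le_iff₀ hKpos]
    nlinarith
  have hmod : ∀ k : ℕ, ∃ (M : ℕ) (S : Finset Cfg), k < K → 0 < M ∧ W ^ 2 ∣ M ∧
      (∀ C ∈ S, C.Static W ∧ C.WinIn c1 ((k : ℝ) / K) ∧ C.l1 ∣ M ∧ C.l2 ∣ M ∧ C.q ∣ M) ∧
      ((((range M) ×ˢ (range M)).filter (fun p => ∀ C ∈ S, ¬ C.Dyn W a d p.1 p.2)).card : ℝ)
        ≤ ε / 2 * (M : ℝ) ^ 2 := by
    intro k
    by_cases hk : k < K
    · have hk' : (k : ℝ) / K ≤ 1 := by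
        rw [div_le_one hKpos]
        exact_mod_cast hk.le
      obtain ⟨M, S, h⟩ := model c1 hc1 hc1' W a d hW ((k : ℝ) / K) (by positivity) hk' (ε / 2)
        (by positivity)
      exact ⟨M, S, fun _ => h⟩
    · exact ⟨0, ∅, fun h => absurd h hk⟩
  choose Mk Sk hMS using hmod
  -- the bad classes
  set B : ℕ → Finset (ℕ × ℕ) := fun k =>
    ((range (Mk k)) ×ˢ (range (Mk k))).filter (fun p => ∀ C ∈ Sk k, ¬ C.Dyn W a d p.1 p.2) with hB
  -- equidistribution, for all cells and classes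
  have hev : ∀ᶠ x : ℝ in Filter.atTop, ∀ k ∈ range K, ∀ p ∈ B k,
      (((wset x σ).filter (fun w : ℕ => w ≡ p.1 [MOD Mk k] ∧ ⌊x / w⌋₊ ≡ p.2 [MOD Mk k] ∧
          (k : ℝ) / K ≤ Int.fract (x / w) ∧ Int.fract (x / w) < ((k : ℝ) + 1) / K)).card : ℝ)
        ≤ ((1 / K) / (Mk k : ℝ) ^ 2 + ε / 2 / K / (Mk k : ℝ) ^ 2) * (√x / σ) := by
    rw [Filter.eventually_all_finset]
    intro k hk
    rw [Filter.eventually_all_finset]
    intro p _
    have hk' := mem_range.1 hk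
    have hM := (hMS k hk').1
    have hMR : (0 : ℝ) < Mk k := by exact_mod_cast hM
    have hv : ((k : ℝ) + 1) / K ≤ 1 := by
      rw [div_le_one hKpos]
      exact_mod_cast hk'
    obtain ⟨X0, hX0⟩ := equid σ hσ (Mk k) hM p.1 p.2 ((k : ℝ) / K) (((k : ℝ) + 1) / K)
      (by positivity) (by gcongr; linarith) hv (ε / 2 / K / (Mk k : ℝ) ^ 2) (by positivity)
    filter_upwards [Filter.eventually_ge_atTop X0] with x hx
    have h := hX0 x hx
    have e : ((k : ℝ) + 1) / K - k / K = 1 / K := by ring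
    rw [e] at h
    exact h
  obtain ⟨X0, hX0⟩ := Filter.eventually_atTop.1 hev
  refine ⟨(range K).biUnion Sk, X0, ?_, ?_⟩
  · intro C hC
    obtain ⟨k, hk, hC'⟩ := mem_biUnion.1 hC
    exact ((hMS k (mem_range.1 hk)).2.2.1 C hC').1
  intro x hx
  set T : Finset ℕ := (range K).biUnion fun k => (B k).biUnion fun p =>
    (wset x σ).filter (fun w : ℕ => w ≡ p.1 [MOD Mk k] ∧ ⌊x / w⌋₊ ≡ p.2 [MOD Mk k] ∧
          (k : ℝ) / K ≤ Int.fract (x / w) ∧ Int.fract (x / w) < ((k : ℝ) + 1) / K) with hT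
  have hsub : {w : ℕ | w ∈ wset x σ ∧ ∀ C ∈ (range K).biUnion Sk,
          ¬ (C.Win c1 (Int.fract (x / w)) ∧ C.Dyn W a d w ⌊x / w⌋₊)} ⊆ (T : Set ℕ) := by
    rintro w ⟨hw, hbad⟩
    set f := Int.fract (x / (w : ℝ)) with hf
    have hf0 : 0 ≤ f := Int.fract_nonneg _
    have hf1 : f < 1 := Int.fract_lt_one _
    set k := ⌊f * K⌋₊ with hk
    have hk1 : (k : ℝ) ≤ f * K := Nat.floor_le (by positivity)
    have hk2 : f * K < k + 1 := Nat.lt_floor_add_one _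
    have hkK : k < K := by
      have : (k : ℝ) < K := by nlinarith
      exact_mod_cast this
    have hfk1 : (k : ℝ) / K ≤ f := by rw [div_le_iff₀ hKpos]; exact hk1
    have hfk2 : f < ((k : ℝ) + 1) / K := by rw [lt_div_iff₀ hKpos]; exact hk2
    obtain ⟨hM, hWM, hstat, -⟩ := hMS k hkK
    have hWM' : W ∣ Mk k := (Dvd.intro_left (W ^ 1) (by ring)).trans hWM
    rw [hT, mem_coe, mem_biUnion]
    refine ⟨k, mem_range.2 hkK, ?_⟩
    rw [mem_biUnion]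
    refine ⟨(w % Mk k, ⌊x / w⌋₊ % Mk k), ?_, ?_⟩
    · rw [hB, mem_filter, mem_product]
      refine ⟨⟨mem_range.2 (Nat.mod_lt _ hM), mem_range.2 (Nat.mod_lt _ hM)⟩, ?_⟩
      intro C hC hDyn
      obtain ⟨hs, hwin, d1, d2, d3⟩ := hstat C hC
      apply hbad C (mem_biUnion.2 ⟨k, mem_range.2 hkK, hC⟩)
      refine ⟨?_, ?_⟩
      · obtain ⟨w1, w2, w3, w4⟩ := hwin
        have e : ((k : ℝ) + 1) / K = k / K + 1 / K := by ring
        rw [e] at hfk2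
        refine ⟨?_, ?_, ?_, ?_⟩ <;> nlinarith
      · exact (dyn_congr C W a d (Mk k) (w % Mk k) w (⌊x / w⌋₊ % Mk k) ⌊x / w⌋₊ hWM' d1 d2 d3
          (Nat.mod_modEq _ _) (Nat.mod_modEq _ _)).1 hDyn
    · rw [mem_filter]
      exact ⟨hw, (Nat.mod_modEq _ _).symm, (Nat.mod_modEq _ _).symm, hfk1, hfk2⟩
  have h1 : (Set.ncard {w : ℕ | w ∈ wset x σ ∧ ∀ C ∈ (range K).biUnion Sk,
          ¬ (C.Win c1 (Int.fract (x / w)) ∧ C.Dyn W a d w ⌊x / w⌋₊)} : ℝ) ≤ T.card := by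
    have := Set.ncard_le_ncard hsub (finite_toSet T)
    rw [Set.ncard_coe_finset] at this
    exact_mod_cast this
  refine h1.trans ?_
  have hsx : 0 ≤ √x / σ := by positivity
  calc (T.card : ℝ) ≤ ∑ k ∈ range K, ∑ p ∈ B k,
        (((wset x σ).filter (fun w : ℕ => w ≡ p.1 [MOD Mk k] ∧ ⌊x / w⌋₊ ≡ p.2 [MOD Mk k] ∧
          (k : ℝ) / K ≤ Int.fract (x / w) ∧ Int.fract (x / w) < ((k : ℝ) + 1) / K)).card : ℝ) := by
        rw [hT]
        exact card_bi _ _ _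
    _ ≤ ∑ k ∈ range K, ∑ p ∈ B k,
        ((1 / K) / (Mk k : ℝ) ^ 2 + ε / 2 / K / (Mk k : ℝ) ^ 2) * (√x / σ) :=
        sum_le_sum fun k hk => sum_le_sum fun p hp => hX0 x hx k hk p hp
    _ ≤ ∑ k ∈ range K, (ε / K) * (√x / σ) := by
        apply sum_le_sum
        intro k hk
        have hk' := mem_range.1 hk
        obtain ⟨hM, -, -, hcard⟩ := hMS k hk'
        have hMR : (0 : ℝ) < Mk k := by exact_mod_cast hM
        rw [sum_const, nsmul_eq_mul, ← mul_assoc]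
        apply mul_le_mul_of_nonneg_right _ hsx
        have hBcard2 : ((B k).card : ℝ) ≤ (Mk k : ℝ) ^ 2 := by
          have : (B k).card ≤ Mk k * Mk k := by
            refine (card_filter_le _ _).trans ?_
            rw [card_product, card_range]
          rw [pow_two]
          exact_mod_cast this
        have hBcard1 : ((B k).card : ℝ) ≤ ε / 2 * (Mk k : ℝ) ^ 2 := hcard
        have hM2 : (0 : ℝ) < (Mk k : ℝ) ^ 2 := by positivity
        calc ((B k).card : ℝ) * ((1 / K) / (Mk k : ℝ) ^ 2 + ε / 2 / K / (Mk k : ℝ) ^ 2)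
            = (B k).card * ((1 / K) / (Mk k : ℝ) ^ 2) +
              (B k).card * (ε / 2 / K / (Mk k : ℝ) ^ 2) := by ring
          _ ≤ ε / 2 * (Mk k : ℝ) ^ 2 * ((1 / K) / (Mk k : ℝ) ^ 2) +
              (Mk k : ℝ) ^ 2 * (ε / 2 / K / (Mk k : ℝ) ^ 2) := by gcongr
          _ = ε / K := by field_simp; ring
    _ = ε * (√x / σ) := by
        rw [sum_const, card_range, nsmul_eq_mul, ← mul_assoc, mul_div_cancel₀ _ hKpos.ne']

end Pool.Agent.MR
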