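import Pool.Agent.MR.BLink
import Pool.Agent.MR.BTransfer

set_option autoImplicit false

open Finset

namespace Pool.Agent.MR

/-- the spoiled set -/
def spoiledSet (W a : ℕ) (S : Finset Cfg) (D : ℕ) (x c : ℝ) (E : Finset ℕ) : Set ℕ :=
  {w : ℕ | 0 < w ∧ ∃ C ∈ S, ∃ d jj m1 m2 m3 m4 al : ℕ, d ≤ D ∧
        LinkData C W a x c w d jj m1 m2 m3 m4 al ∧ (m1 ∈ E ∨ m2 ∈ E ∨ m3 ∈ E ∨ m4 ∈ E)}

/-- index set for the recovery of `w` -/
def spIdx (S : Finset Cfg) (D : ℕ) (E : Finset ℕ) :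
    Finset (Cfg × ℕ × ℕ × (Σ _ : ℕ, ℕ)) :=
  S ×ˢ (range (D + 1) ×ˢ (range (D + 1) ×ˢ E.sigma (fun m => m.divisors)))

theorem spIdx_card (S : Finset Cfg) (D : ℕ) (E : Finset ℕ) :
    (spIdx S D E).card = S.card * ((D + 1) * ((D + 1) * ∑ m ∈ E, m.divisors.card)) := by
  unfold spIdx
  rw [card_product, card_product, card_product, card_sigma, card_range]

def spFin (W : ℕ) (S : Finset Cfg) (D : ℕ) (E : Finset ℕ) : Finset ℕ :=
  ((spIdx S D E).image (fun i => i.1.l1 * i.2.2.2.2)) ∪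
  ((spIdx S D E).image (fun i => i.1.l1 *
    ((i.1.l2 * i.2.2.2.2 + W * i.2.1 * i.1.s2 - W * i.1.l2 * i.2.2.1) / i.1.q))) ∪
  ((spIdx S D E).image (fun i => i.1.l2 * i.2.2.2.2 - W ^ 2 * i.2.1))

theorem spFin_card (W : ℕ) (S : Finset Cfg) (D : ℕ) (E : Finset ℕ) :
    (spFin W S D E).card ≤ 3 * (S.card * ((D + 1) * ((D + 1) * ∑ m ∈ E, m.divisors.card))) := by
  rw [← spIdx_card]
  unfold spFin
  refine (card_union_le _ _).trans ?_
  have h1 := card_union_le ((spIdx S D E).image (fun i => i.1.l1 * i.2.2.2.2))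
    ((spIdx S D E).image (fun i => i.1.l1 *
      ((i.1.l2 * i.2.2.2.2 + W * i.2.1 * i.1.s2 - W * i.1.l2 * i.2.2.1) / i.1.q)))
  have h2 := card_image_le (s := spIdx S D E) (f := fun i => i.1.l1 * i.2.2.2.2)
  have h3 := card_image_le (s := spIdx S D E) (f := fun i => i.1.l1 *
      ((i.1.l2 * i.2.2.2.2 + W * i.2.1 * i.1.s2 - W * i.1.l2 * i.2.2.1) / i.1.q))
  have h4 := card_image_le (s := spIdx S D E) (f := fun i => i.1.l2 * i.2.2.2.2 - W ^ 2 * i.2.1)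
  omega

theorem spoiledSet_subset (W a : ℕ) (S : Finset Cfg) (hS : ∀ C ∈ S, C.Static W) (D : ℕ)
    (x c : ℝ) (E : Finset ℕ) (hx : 0 ≤ x) :
    spoiledSet W a S D x c E ⊆ (spFin W S D E : Set ℕ) := by
  rintro w ⟨hw, C, hC, d, jj, m1, m2, m3, m4, al, hd, hL, hE⟩
  have hmem : ∀ m δ : ℕ, m ∈ E → x < m → δ ∣ m →
      (C, d, jj, (⟨m, δ⟩ : Σ _ : ℕ, ℕ)) ∈ spIdx S D E := by
    intro m δ hm hxm hδ
    unfold spIdx
    have hm0 : m ≠ 0 := by
      rintro rfl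
      have : x < 0 := by simpa using hxm
      linarith
    have := hL.hjj
    simp only [mem_product, mem_range, mem_sigma, Nat.mem_divisors]
    exact ⟨hC, by omega, by omega, hm, hδ, hm0⟩
  have hq := (hS C hC).hq
  -- recovery from `al`
  have hrec : w = C.l1 * ((C.l2 * al + W * d * C.s2 - W * C.l2 * jj) / C.q) := by
    have h1 : C.l2 * al + W * d * C.s2 - W * C.l2 * jj = C.q * (w / C.l1) := by
      have := hL.hal; omega
    rw [h1, Nat.mul_div_cancel_left _ hq, hL.hw1]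
  unfold spFin
  rw [Finset.mem_coe, Finset.mem_union, Finset.mem_union, Finset.mem_image, Finset.mem_image,
    Finset.mem_image]
  rcases hE with h | h | h | h
  · left; left
    exact ⟨_, hmem m1 (w / C.l1) h hL.mem1.1 hL.div1, hL.hw1⟩
  · left; right
    exact ⟨_, hmem m2 al h hL.mem2.1 hL.div2, hrec.symm⟩
  · left; right
    exact ⟨_, hmem m3 al h hL.mem3.1 hL.div3, hrec.symm⟩
  · right
    refine ⟨_, hmem m4 ((w + W ^ 2 * d) / C.l2) h hL.mem4.1 hL.div4, ?_⟩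
    simp only
    rw [hL.hw2]; omega

/-- (B4b) The number of `w` spoiled by the exceptional set. -/
theorem spoiled (W a : ℕ) (hW : 0 < W) (S : Finset Cfg) (hS : ∀ C ∈ S, C.Static W) (D : ℕ) :
    ∃ K : ℝ, 0 < K ∧ ∀ (x c : ℝ) (E : Finset ℕ), 0 ≤ x →
      (Set.ncard {w : ℕ | 0 < w ∧ ∃ C ∈ S, ∃ d jj m1 m2 m3 m4 al : ℕ, d ≤ D ∧
        LinkData C W a x c w d jj m1 m2 m3 m4 al ∧ (m1 ∈ E ∨ m2 ∈ E ∨ m3 ∈ E ∨ m4 ∈ E)} : ℝ)
      ≤ K * ∑ m ∈ E, (m.divisors.card : ℝ) := by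
  refine ⟨3 * (S.card * ((D + 1) * (D + 1))) + 1, by positivity, fun x c E hx => ?_⟩
  have h1 : Set.ncard (spoiledSet W a S D x c E) ≤ (spFin W S D E).card := by
    rw [← Set.ncard_coe_finset]
    exact Set.ncard_le_ncard (spoiledSet_subset W a S hS D x c E hx) (Finset.finite_toSet _)
  have h2 := spFin_card W S D E
  have h3 : (Set.ncard (spoiledSet W a S D x c E) : ℝ) ≤
      3 * (S.card * ((D + 1) * ((D + 1) * ∑ m ∈ E, (m.divisors.card : ℝ)))) := by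
    exact_mod_cast h1.trans h2
  have h4 : 0 ≤ ∑ m ∈ E, (m.divisors.card : ℝ) := by positivity
  calc (Set.ncard (spoiledSet W a S D x c E) : ℝ)
      ≤ 3 * (S.card * ((D + 1) * ((D + 1) * ∑ m ∈ E, (m.divisors.card : ℝ)))) := h3
    _ ≤ (3 * (S.card * ((D + 1) * (D + 1))) + 1) * ∑ m ∈ E, (m.divisors.card : ℝ) := by
      nlinarith

theorem bl_kap_pos {c : ℝ} (hc : 0 < c) {W : ℕ} (hW : 0 < W) : 0 < kap c W := by
  unfold kap; positivity

theorem bl_DD_pos {c : ℝ} (hc : 0 < c) {W : ℕ} (hW : 0 < W) : 0 < DD c W := by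
  unfold DD; have := bl_kap_pos hc hW
  exact Nat.ceil_pos.2 (by positivity)

theorem bl_sg_pos {c : ℝ} (hc : 0 < c) {W : ℕ} (hW : 0 < W) : 0 < sg c W := by
  unfold sg; have : (0 : ℝ) < DD c W := by exact_mod_cast bl_DD_pos hc hW
  positivity

theorem bl_sg_le {c : ℝ} (hc : 0 < c) {W : ℕ} (hW : 0 < W) : sg c W ≤ c := by
  unfold sg
  have h1 : (1 : ℝ) ≤ DD c W := by exact_mod_cast bl_DD_pos hc hW
  have h2 : (1 : ℝ) ≤ (W : ℝ) ^ 2 := by
    have : (1 : ℝ) ≤ W := by exact_mod_cast hW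
    nlinarith
  have h3 : (1 : ℝ) ≤ 200 * (W : ℝ) ^ 2 * DD c W := by nlinarith
  exact div_le_self hc.le h3

/-- (B1)-(B4): links hold for almost all `w`. -/
theorem links (c : ℝ) (hc0 : 0 < c) (hc1 : c ≤ 1) (W a : ℕ) (hW : 0 < W) (ε : ℝ) (hε : 0 < ε) :
    ∃ δ X0 : ℝ, 0 < δ ∧ 1 ≤ X0 ∧ ∀ x : ℝ, X0 ≤ x → ∀ (G : Type) [CommGroup G] (f : ℕ → G),
      (∀ m n : ℕ, 0 < m → 0 < n → f (m * n) = f m * f n) → ∀ (E : Finset ℕ) (g0 : G),
      ∑ m ∈ E, (m.divisors.card : ℝ) ≤ δ * √x →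
      (∀ m : ℕ, x < m → (m : ℝ) ≤ x + c * √x → m ≡ a [MOD W] → m ∉ E → f m = g0) →
      (Set.ncard {w : ℕ | w ∈ wset x (sg c W) ∧ w ≡ 1 [MOD W] ∧ ∃ d : ℕ, 1 ≤ d ∧ d ≤ DD c W ∧
          ∃ j : ℤ, |(d : ℝ) * (x / w) - j| ≤ kap c W ∧ f w ≠ f (w + W ^ 2 * d)} : ℝ)
        ≤ ε * (√x / sg c W) := by
  classical
  have hs0 := bl_sg_pos hc0 hW
  have hsc := bl_sg_le hc0 hW
  have hDD := bl_DD_pos hc0 hW
  have hDD' : (0 : ℝ) < DD c W := by exact_mod_cast hDD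
  have hc1' : c * sg c W ≤ 1 := by nlinarith
  have hT : ∀ d : ℕ, ∃ (S : Finset Cfg) (X0 : ℝ), (∀ C ∈ S, C.Static W) ∧ ∀ x : ℝ, X0 ≤ x →
      (Set.ncard {w : ℕ | w ∈ wset x (sg c W) ∧ ∀ C ∈ S,
          ¬ (C.Win (c * sg c W) (Int.fract (x / w)) ∧ C.Dyn W a (W ^ 2 * d) w ⌊x / w⌋₊)} : ℝ)
        ≤ ε / (2 * DD c W) * (√x / sg c W) := fun d =>
    transfer (c * sg c W) (by positivity) hc1' (sg c W) hs0 W a (W ^ 2 * d) hW
      (ε / (2 * DD c W)) (by positivity)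
  choose S X hS hX using hT
  obtain ⟨X1, hX1, hlink⟩ := link_lemma c hc0 hc1 W a hW
  set I : Finset ℕ := Icc 1 (DD c W) with hI
  set U : Finset Cfg := I.biUnion S with hU
  have hUs : ∀ C ∈ U, C.Static W := by
    intro C hC
    rw [hU, Finset.mem_biUnion] at hC
    obtain ⟨d, _, hCd⟩ := hC
    exact hS d C hCd
  obtain ⟨K, hK0, hK⟩ := spoiled W a hW U hUs (DD c W)
  set X2 : ℝ := ∑ d ∈ I, |X d| with hX2
  refine ⟨ε / (2 * K * sg c W), max X1 (max 1 X2), by positivity,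
    le_trans (le_max_left _ _) (le_max_right _ _), ?_⟩
  intro x hx G _ f hf E g0 hE hg
  have hxX1 : X1 ≤ x := (le_max_left _ _).trans hx
  have hx1 : (1 : ℝ) ≤ x := ((le_max_left _ _).trans (le_max_right _ _)).trans hx
  have hxX2 : X2 ≤ x := ((le_max_right _ _).trans (le_max_right _ _)).trans hx
  have hxd : ∀ d ∈ I, X d ≤ x := by
    intro d hd
    have : |X d| ≤ X2 := Finset.single_le_sum (f := fun d => |X d|) (fun _ _ => abs_nonneg _) hd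
    exact ((le_abs_self _).trans this).trans hxX2
  have hsx : 0 < √x := Real.sqrt_pos.2 (by linarith)
  set B : Set ℕ := {w : ℕ | w ∈ wset x (sg c W) ∧ w ≡ 1 [MOD W] ∧ ∃ d : ℕ, 1 ≤ d ∧ d ≤ DD c W ∧
          ∃ j : ℤ, |(d : ℝ) * (x / w) - j| ≤ kap c W ∧ f w ≠ f (w + W ^ 2 * d)} with hB
  set T : ℕ → Set ℕ := fun d => {w : ℕ | w ∈ wset x (sg c W) ∧ ∀ C ∈ S d,
          ¬ (C.Win (c * sg c W) (Int.fract (x / w)) ∧ C.Dyn W a (W ^ 2 * d) w ⌊x / w⌋₊)} with hTdef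
  set P : Set ℕ := spoiledSet W a U (DD c W) x c E with hP
  have hPfin : P.Finite := (Finset.finite_toSet _).subset
    (spoiledSet_subset W a U hUs (DD c W) x c E (by linarith))
  have hTfin : ∀ d, (T d).Finite := fun d =>
    (Finset.finite_toSet (wset x (sg c W))).subset (fun w hw => hw.1)
  have hsub : B ⊆ (⋃ d ∈ I, T d) ∪ P := by
    rintro w ⟨hw, hw1, d, hd1, hdD, j, hj, hfw⟩
    have hdI : d ∈ I := by rw [hI, Finset.mem_Icc]; exact ⟨hd1, hdD⟩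
    by_cases hTd : w ∈ T d
    · left
      exact Set.mem_biUnion (show d ∈ (I : Set ℕ) from hdI) hTd
    · right
      have hw0 : 0 < w := by
        rw [wset, Finset.mem_Icc] at hw
        have : 0 < ⌈√x / sg c W⌉₊ := Nat.ceil_pos.2 (by positivity)
        omega
      have hex : ∃ C ∈ S d, C.Win (c * sg c W) (Int.fract (x / w)) ∧
          C.Dyn W a (W ^ 2 * d) w ⌊x / w⌋₊ := by
        by_contra hcon
        push Not at hcon
        apply hTd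
        refine ⟨hw, fun C hC h => hcon C hC h.1 h.2⟩
      obtain ⟨C, hC, hwin, hdyn⟩ := hex
      obtain ⟨jj, m1, m2, m3, m4, al, hL⟩ :=
        hlink x hxX1 w hw d hd1 hdD hw1 j hj C (hS d C hC) hwin hdyn
      have hCU : C ∈ U := by rw [hU, Finset.mem_biUnion]; exact ⟨d, hdI, hC⟩
      refine ⟨hw0, C, hCU, d, jj, m1, m2, m3, m4, al, hdD, hL, ?_⟩
      by_contra hnE
      push Not at hnE
      obtain ⟨n1, n2, n3, n4⟩ := hnE
      have e1 := hg m1 hL.mem1.1 hL.mem1.2.1 hL.mem1.2.2 n1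
      have e2 := hg m2 hL.mem2.1 hL.mem2.2.1 hL.mem2.2.2 n2
      have e3 := hg m3 hL.mem3.1 hL.mem3.2.1 hL.mem3.2.2 n3
      have e4 := hg m4 hL.mem4.1 hL.mem4.2.1 hL.mem4.2.2 n4
      have pos : ∀ m : ℕ, x < m → 0 < m := by
        intro m hm
        have : (0 : ℝ) < m := by linarith
        exact_mod_cast this
      have p1 := pos m1 hL.mem1.1
      have p2 := pos m2 hL.mem2.1
      have p3 := pos m3 hL.mem3.1
      have p4 := pos m4 hL.mem4.1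
      have hid := congrArg f hL.ident
      rw [hf _ _ (Nat.mul_pos p1 p3) (by omega), hf _ _ p1 p3,
        hf _ _ (Nat.mul_pos p2 p4) hw0, hf _ _ p2 p4, e1, e2, e3, e4] at hid
      exact hfw (mul_left_cancel hid).symm
  have hUfin : (⋃ d ∈ I, T d).Finite := Set.Finite.biUnion (Finset.finite_toSet I) (fun d _ => hTfin d)
  have h1 : B.ncard ≤ (⋃ d ∈ I, T d).ncard + P.ncard :=
    (Set.ncard_le_ncard hsub (hUfin.union hPfin)).trans (Set.ncard_union_le _ _)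
  have h2 : (⋃ d ∈ I, T d).ncard ≤ ∑ d ∈ I, (T d).ncard := Finset.set_ncard_biUnion_le I T
  have h3 : (∑ d ∈ I, ((T d).ncard : ℝ)) ≤ ε / 2 * (√x / sg c W) := by
    calc (∑ d ∈ I, ((T d).ncard : ℝ)) ≤ ∑ d ∈ I, ε / (2 * DD c W) * (√x / sg c W) :=
          Finset.sum_le_sum (fun d hd => hX d x (hxd d hd))
      _ = ε / 2 * (√x / sg c W) := by
          rw [Finset.sum_const, hI, Nat.card_Icc, nsmul_eq_mul, Nat.add_sub_cancel]
          field_simp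
  have h4 : (P.ncard : ℝ) ≤ ε / 2 * (√x / sg c W) := by
    calc (P.ncard : ℝ) ≤ K * ∑ m ∈ E, (m.divisors.card : ℝ) := hK x c E (by linarith)
      _ ≤ K * (ε / (2 * K * sg c W) * √x) := mul_le_mul_of_nonneg_left hE hK0.le
      _ = ε / 2 * (√x / sg c W) := by field_simp
  have h5 : (B.ncard : ℝ) ≤ ((⋃ d ∈ I, T d).ncard : ℝ) + P.ncard := by exact_mod_cast h1
  have h6 : ((⋃ d ∈ I, T d).ncard : ℝ) ≤ ∑ d ∈ I, ((T d).ncard : ℝ) := by exact_mod_cast h2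
  linarith

end Pool.Agent.MR
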