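import Pool.Agent.MR.BIndep

set_option autoImplicit false

open Finset

namespace Pool.Agent.MR

namespace BMeanM

open BSqM BIndM

/-- splitting a sum over `range M` into classes modulo `k` -/
theorem sum_classes (M k : ℕ) (hk : 0 < k) (f : ℕ → ℝ) :
    ∑ ν ∈ range k, ∑ n ∈ (range M).filter (fun n => n ≡ ν [MOD k]), f n =
      ∑ n ∈ range M, f n := by
  rw [← sum_fiberwise_of_maps_to (s := range M) (t := range k) (g := fun n => n % k)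
    (fun n _ => mem_range.2 (Nat.mod_lt _ hk)) f]
  apply sum_congr rfl
  intro ν hν
  apply sum_congr _ (fun _ _ => rfl)
  apply filter_congr
  intro n _
  rw [Nat.ModEq, Nat.mod_eq_of_lt (mem_range.1 hν)]

theorem count_shift (W m c e S K : ℕ) (hW : 0 < W) (hWm : W ^ 2 ∣ m) :
    ∑ s ∈ Ico S (S + K * m), (if c + s ≡ e [MOD W ^ 2] then (1 : ℝ) else 0) =
      K * (m / (W : ℝ) ^ 2) := by
  have hW2 : 0 < W ^ 2 := by positivity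
  have hper : ∀ x : ℕ, (if x + m ≡ e [MOD W ^ 2] then (1 : ℝ) else 0) =
      (if x ≡ e [MOD W ^ 2] then (1 : ℝ) else 0) := by
    intro x
    have e3 : x + m ≡ x [MOD W ^ 2] :=
      ((Nat.modEq_iff_dvd' (by omega)).2 (by simpa using hWm)).symm
    have e5 : (x + m ≡ e [MOD W ^ 2]) ↔ (x ≡ e [MOD W ^ 2]) :=
      ⟨fun h => e3.symm.trans h, fun h => e3.trans h⟩
    simp only [e5]
  rw [per_shift m (fun x => if x ≡ e [MOD W ^ 2] then (1 : ℝ) else 0) hper c S K, sum_boole]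
  congr 1
  rw [← Nat.count_eq_card_filter_range, Nat.count_modEq_card _ hW2, Nat.mod_eq_zero_of_dvd hWm]
  simp only [Nat.not_lt_zero, if_false, add_zero]
  rw [Nat.cast_div hWm (by positivity)]
  push_cast
  rfl

theorem cop_of_cg {W a l1 l2 : ℕ} (hW : 0 < W) (hl1 : l1.Coprime W) (hl2 : l2.Coprime W)
    (s1 s2 n : ℕ) (hs : l1 * s2 < l2 * s1) (hC : Cg W a l1 l2 s1 s2 n) :
    Nat.gcd (qf W l1 l2 s1 s2) (W ^ 2) = 1 := by
  obtain ⟨c1, c2⟩ := hC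
  have hd : (W : ℤ) ^ 2 ∣ ((l2 : ℤ) * s1 - l1 * s2) - l1 * l2 * W := by
    have d1 := (Nat.modEq_iff_dvd.1 c1)
    have d2 := (Nat.modEq_iff_dvd.1 c2)
    push_cast at d1 d2
    obtain ⟨u, hu⟩ := d1
    obtain ⟨v, hv⟩ := d2
    refine ⟨-(l2 * u) + l1 * v, ?_⟩
    linear_combination (-(l2 : ℤ)) * hu + (l1 : ℤ) * hv
  have hk : W ∣ l2 * s1 - l1 * s2 := by
    have : (W : ℤ) ∣ ((l2 * s1 - l1 * s2 : ℕ) : ℤ) := by
      rw [Nat.cast_sub hs.le]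
      push_cast
      have h1 : (W : ℤ) ∣ ((l2 : ℤ) * s1 - l1 * s2) - l1 * l2 * W :=
        (Dvd.intro_left ((W : ℤ) ^ 1) (by ring)).trans hd
      have h2 : (W : ℤ) ∣ l1 * l2 * W := Dvd.intro_left _ rfl
      have := dvd_add h1 h2
      simpa using this
    exact_mod_cast this
  have hq : W * qf W l1 l2 s1 s2 = l2 * s1 - l1 * s2 := Nat.mul_div_cancel' hk
  have hqZ : (W : ℤ) * (qf W l1 l2 s1 s2 : ℕ) = (l2 : ℤ) * s1 - l1 * s2 := by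
    have : ((W * qf W l1 l2 s1 s2 : ℕ) : ℤ) = ((l2 * s1 - l1 * s2 : ℕ) : ℤ) := by rw [hq]
    rw [Nat.cast_sub hs.le] at this
    push_cast at this
    exact this
  have hW' : (W : ℤ) ≠ 0 := by exact_mod_cast hW.ne'
  have h3 : (W : ℤ) ∣ (qf W l1 l2 s1 s2 : ℕ) - l1 * l2 := by
    rw [← hqZ] at hd
    have : (W : ℤ) * W ∣ W * ((qf W l1 l2 s1 s2 : ℕ) - l1 * l2) := by
      have e : (W : ℤ) * ((qf W l1 l2 s1 s2 : ℕ) - l1 * l2) =
        (W : ℤ) * (qf W l1 l2 s1 s2 : ℕ) - l1 * l2 * W := by ring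
      rw [e, ← pow_two]; exact hd
    exact (mul_dvd_mul_iff_left hW').1 this
  have h4 : l1 * l2 ≡ qf W l1 l2 s1 s2 [MOD W] := by
    rw [Nat.modEq_iff_dvd]
    push_cast
    exact h3
  have h5 : Nat.Coprime (l1 * l2) W := Nat.Coprime.mul_left hl1 hl2
  have h6 : Nat.Coprime (qf W l1 l2 s1 s2) W := by
    have := h4.gcd_eq
    rw [Nat.Coprime, ← this]
    exact h5
  exact h6.pow_right 2

end BMeanM

open BMeanM BSqM BIndM in
/-- The total mass of `YY`. -/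
theorem pair_total (W a l1 l2 M0 M : ℕ) (hW : 0 < W) (h1 : l1.Prime) (h2 : l2.Prime)
    (h12 : l1 < l2)
    (hl1 : l1.Coprime W) (hl2 : l2.Coprime W) (hM0 : 0 < M0) (hWM : W ^ 2 ∣ M0) (hM : 0 < M)
    (hMM : M0 ∣ M) (S1 K1 S2 K2 : ℕ)
    (hpos : ∀ s1 ∈ Ico S1 (S1 + K1 * (W * M0)), ∀ s2 ∈ Ico S2 (S2 + K2 * (W * M0)),
      l1 * s2 < l2 * s1 ∧ ¬ l1 ∣ s1 ∧ (W ∣ l2 * s1 - l1 * s2 → qf W l1 l2 s1 s2 ∣ M)) :
    ∑ n ∈ range M,
        YY W a l1 l2 (Ico S1 (S1 + K1 * (W * M0))) (Ico S2 (S2 + K2 * (W * M0))) n =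
      (M : ℝ) * ((K1 * (W * M0) : ℕ) * (K2 * (W * M0) : ℕ)) / ((W : ℝ) ^ 4 * (l1 * l2)) := by
  have hW2 : 0 < W ^ 2 := by positivity
  have hWm : W ^ 2 ∣ W * M0 := hWM.mul_left _
  rw [← sum_classes M (W ^ 2) hW2]
  have key : ∀ ν ∈ range (W ^ 2),
      ∑ n ∈ (range M).filter (fun n => n ≡ ν [MOD W ^ 2]),
        YY W a l1 l2 (Ico S1 (S1 + K1 * (W * M0))) (Ico S2 (S2 + K2 * (W * M0))) n =
      (M : ℝ) / (W ^ 2 : ℕ) / (l1 * l2) *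
        ((K1 * ((W * M0 : ℕ) / (W : ℝ) ^ 2)) * (K2 * ((W * M0 : ℕ) / (W : ℝ) ^ 2))) := by
    intro ν _
    rw [class_sum W a l1 l2 (W ^ 2) M h1 h2 h12 hW2 dvd_rfl hM (hWM.trans hMM) _ _ hpos ν]
    congr 1
    have e1 : ∀ s1 ∈ Ico S1 (S1 + K1 * (W * M0)), ∀ s2 ∈ Ico S2 (S2 + K2 * (W * M0)),
        (if Cg W a l1 l2 s1 s2 ν ∧ Nat.gcd (qf W l1 l2 s1 s2) (W ^ 2) ∣ l1 * ν + s1 then
          (Nat.gcd (qf W l1 l2 s1 s2) (W ^ 2) : ℝ) else 0) =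
        (if l1 * ν + s1 ≡ l1 * (a + W) [MOD W ^ 2] then (1 : ℝ) else 0) *
        (if l2 * ν + s2 ≡ l2 * a [MOD W ^ 2] then (1 : ℝ) else 0) := by
      intro s1 hs1 s2 hs2
      by_cases c1 : l1 * ν + s1 ≡ l1 * (a + W) [MOD W ^ 2]
      · by_cases c2 : l2 * ν + s2 ≡ l2 * a [MOD W ^ 2]
        · have hC : Cg W a l1 l2 s1 s2 ν := ⟨c1, c2⟩
          have hg := cop_of_cg hW hl1 hl2 s1 s2 ν (hpos s1 hs1 s2 hs2).1 hC
          rw [if_pos c1, if_pos c2, hg, if_pos ⟨hC, one_dvd _⟩]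
          norm_num
        · rw [if_neg c2, mul_zero, if_neg]
          rintro ⟨⟨-, h⟩, -⟩
          exact c2 h
      · rw [if_neg c1, zero_mul, if_neg]
        rintro ⟨⟨h, -⟩, -⟩
        exact c1 h
    rw [sum_congr rfl (fun s1 hs1 => sum_congr rfl (fun s2 hs2 => e1 s1 hs1 s2 hs2)),
      ← sum_mul_sum, count_shift W (W * M0) (l1 * ν) (l1 * (a + W)) S1 K1 hW hWm,
      count_shift W (W * M0) (l2 * ν) (l2 * a) S2 K2 hW hWm]
  rw [sum_congr rfl key, sum_const, card_range, nsmul_eq_mul]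
  have hWR : (W : ℝ) ≠ 0 := by positivity
  have hl1R : (l1 : ℝ) ≠ 0 := by have := h1.pos; positivity
  have hl2R : (l2 : ℝ) ≠ 0 := by have := h2.pos; positivity
  push_cast
  field_simp

open BMeanM BSqM BIndM in
/-- The mass of `YY` on a residue class modulo `M0`. -/
theorem pair_mean (W a l1 l2 M0 M : ℕ) (hW : 0 < W) (h1 : l1.Prime) (h2 : l2.Prime)
    (h12 : l1 < l2)
    (hl1 : l1.Coprime W) (hl2 : l2.Coprime W) (hM0 : 0 < M0) (hWM : W ^ 2 ∣ M0) (hM : 0 < M)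
    (hMM : M0 ∣ M) (S1 K1 S2 K2 : ℕ)
    (hpos : ∀ s1 ∈ Ico S1 (S1 + K1 * (W * M0)), ∀ s2 ∈ Ico S2 (S2 + K2 * (W * M0)),
      l1 * s2 < l2 * s1 ∧ ¬ l1 ∣ s1 ∧ (W ∣ l2 * s1 - l1 * s2 → qf W l1 l2 s1 s2 ∣ M))
    (n0 : ℕ) :
    ∑ n ∈ (range M).filter (fun n => n ≡ n0 [MOD M0]),
        YY W a l1 l2 (Ico S1 (S1 + K1 * (W * M0))) (Ico S2 (S2 + K2 * (W * M0))) n =
      (M : ℝ) / M0 * ((K1 * (W * M0) : ℕ) * (K2 * (W * M0) : ℕ)) /
        ((W : ℝ) ^ 4 * (l1 * l2)) := by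
  have ht := pair_total W a l1 l2 M0 M hW h1 h2 h12 hl1 hl2 hM0 hWM hM hMM S1 K1 S2 K2 hpos
  rw [← sum_classes M M0 hM0, sum_congr rfl (fun n0' _ =>
    pair_indep W a l1 l2 M0 M hW h1 h2 h12 hl1 hl2 hM0 hWM hM hMM S1 K1 S2 K2 hpos n0' n0),
    sum_const, card_range, nsmul_eq_mul] at ht
  have hM0R : (M0 : ℝ) ≠ 0 := by positivity
  have h3 := congrArg (fun z : ℝ => z / M0) ht
  rw [mul_div_cancel_left₀ _ hM0R] at h3
  rw [h3]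
  ring

end Pool.Agent.MR
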