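import Pool.Agent.MR.BScale

set_option autoImplicit false

open Finset

namespace Pool.Agent.MR

private theorem per_mod {M : ℕ} {Z : ℕ → ℕ → ℝ} (h : Per M Z) (w n : ℕ) :
    Z w n = Z (w % M) (n % M) := by
  have h1 : Z (w % M) n = Z w n := Function.Periodic.map_mod_nat (f := fun w => Z w n)
    (fun w => h.1 w n) w
  have h2 : Z (w % M) (n % M) = Z (w % M) n :=
    Function.Periodic.map_mod_nat (f := fun n => Z (w % M) n) (fun n => h.2 _ n) n
  rw [h2, h1]

private theorem per_dvd {M M' : ℕ} {Z : ℕ → ℕ → ℝ} (h : Per M Z) (hd : M ∣ M') : Per M' Z := by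
  obtain ⟨t, rfl⟩ := hd
  constructor
  · intro w n
    rw [per_mod h, per_mod h w n, Nat.add_mul_mod_self_left]
  · intro w n
    rw [per_mod h, per_mod h w n, Nat.add_mul_mod_self_left]

private theorem sum_classes (M M' : ℕ) (hM : 0 < M) (F : ℕ → ℝ) :
    ∑ w ∈ range M', F w =
      ∑ w0 ∈ range M, ∑ w ∈ (range M').filter (fun w => w ≡ w0 [MOD M]), F w := by
  rw [← Finset.sum_fiberwise_of_maps_to (s := range M') (t := range M) (g := fun w => w % M)
    (fun w _ => Finset.mem_range.2 (Nat.mod_lt _ hM))]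
  apply Finset.sum_congr rfl
  intro w0 hw0
  apply Finset.sum_congr _ fun _ _ => rfl
  apply Finset.filter_congr
  intro w _
  rw [Finset.mem_range] at hw0
  unfold Nat.ModEq
  rw [Nat.mod_eq_of_lt hw0]

private theorem avg_mul {M M' : ℕ} (hM : 0 < M) (hM' : 0 < M') {Z Z' : ℕ → ℕ → ℝ}
    (h : Per M Z) (a : ℝ)
    (hc : ∀ w0 n0 : ℕ, ∑ w ∈ (range M').filter (fun w => w ≡ w0 [MOD M]),
      ∑ n ∈ (range M').filter (fun n => n ≡ n0 [MOD M]), Z' w n = ((M' : ℝ) / M) ^ 2 * a) :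
    avg M' (fun w n => Z w n * Z' w n) = avg M Z * a := by
  have hMr : (0 : ℝ) < M := by exact_mod_cast hM
  have hMr' : (0 : ℝ) < M' := by exact_mod_cast hM'
  have key : ∑ w ∈ range M', ∑ n ∈ range M', Z w n * Z' w n =
      ∑ w0 ∈ range M, ∑ n0 ∈ range M, Z w0 n0 * (((M' : ℝ) / M) ^ 2 * a) := by
    rw [sum_classes M M' hM]
    apply Finset.sum_congr rfl
    intro w0 hw0
    have h1 : ∑ w ∈ (range M').filter (fun w => w ≡ w0 [MOD M]),
        ∑ n ∈ range M', Z w n * Z' w n =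
        ∑ w ∈ (range M').filter (fun w => w ≡ w0 [MOD M]), ∑ n0 ∈ range M,
          ∑ n ∈ (range M').filter (fun n => n ≡ n0 [MOD M]), Z w0 n0 * Z' w n := by
      apply Finset.sum_congr rfl
      intro w hw
      rw [sum_classes M M' hM]
      apply Finset.sum_congr rfl
      intro n0 hn0
      apply Finset.sum_congr rfl
      intro n hn
      rw [Finset.mem_filter] at hw hn
      rw [Finset.mem_range] at hw0 hn0
      have h2 : w % M = w0 := by
        have := hw.2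
        unfold Nat.ModEq at this
        rwa [Nat.mod_eq_of_lt hw0] at this
      have h3 : n % M = n0 := by
        have := hn.2
        unfold Nat.ModEq at this
        rwa [Nat.mod_eq_of_lt hn0] at this
      rw [per_mod h w n, h2, h3]
    rw [h1, Finset.sum_comm]
    apply Finset.sum_congr rfl
    intro n0 _
    rw [← hc w0 n0, Finset.mul_sum]
    apply Finset.sum_congr rfl
    intro w _
    rw [Finset.mul_sum]
  unfold avg
  rw [key]
  simp only [← Finset.sum_mul]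
  field_simp

private theorem avg_per {M M' : ℕ} (hM : 0 < M) (hM' : 0 < M') (hd : M ∣ M') {Z : ℕ → ℕ → ℝ}
    (h : Per M Z) : avg M' Z = avg M Z := by
  have hMr : (0 : ℝ) < M := by exact_mod_cast hM
  have hcard : ∀ w0 : ℕ, (((range M').filter (fun w => w ≡ w0 [MOD M])).card : ℝ) =
      (M' : ℝ) / M := by
    intro w0
    have h1 := Nat.count_modEq_card (b := M') (r := M) hM w0
    rw [Nat.count_eq_card_filter_range] at h1
    obtain ⟨t, rfl⟩ := hd
    rw [h1]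
    rw [Nat.mul_mod_right, if_neg (by omega), Nat.mul_div_cancel_left _ hM]
    push_cast
    field_simp
    simp
  have h1 := avg_mul (Z' := fun _ _ => 1) hM hM' h 1 (by
    intro w0 n0
    simp only [Finset.sum_const, nsmul_eq_mul, mul_one]
    rw [hcard, hcard]
    ring)
  rw [mul_one] at h1
  rw [← h1]
  unfold avg
  simp only [mul_one]

private theorem avg_add (M : ℕ) (Z Z' : ℕ → ℕ → ℝ) :
    avg M (fun w n => Z w n + Z' w n) = avg M Z + avg M Z' := by
  unfold avg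
  rw [← add_div]
  congr 1
  rw [← Finset.sum_add_distrib]
  apply Finset.sum_congr rfl
  intro w _
  rw [← Finset.sum_add_distrib]

private theorem avg_smul (M : ℕ) (c : ℝ) (Z : ℕ → ℕ → ℝ) :
    avg M (fun w n => c * Z w n) = c * avg M Z := by
  unfold avg
  rw [← mul_div_assoc]
  congr 1
  rw [Finset.mul_sum]
  apply Finset.sum_congr rfl
  intro w _
  rw [Finset.mul_sum]

/-- Sum of `J` scales. -/
theorem scales (c1 : ℝ) (hc1 : 0 < c1) (hc1' : c1 ≤ 1) (W a : ℕ) (hW : 0 < W) :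
    ∃ p0 K0 : ℝ, 0 < p0 ∧ 0 < K0 ∧ ∀ (d : ℕ) (φ : ℝ), 0 ≤ φ → φ ≤ 1 → ∀ J : ℕ,
      ∃ (M : ℕ) (S : Finset Cfg) (Z : ℕ → ℕ → ℝ), Supp c1 φ W a d M S Z ∧
        J * p0 ≤ avg M Z ∧ avg M (fun w n => Z w n ^ 2) ≤ (avg M Z) ^ 2 + J * K0 := by
  classical
  obtain ⟨p0, K0, hp0, hK0, hsc⟩ := scale c1 hc1 hc1' W a hW
  refine ⟨p0, K0, hp0, hK0, fun d φ hφ0 hφ1 J => ?_⟩
  induction J with
  | zero =>
    refine ⟨W ^ 2, ∅, fun _ _ => 0, ⟨by positivity, dvd_refl _, ?_, ?_, ?_, ?_⟩, ?_, ?_⟩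
    · intro C hC
      exact absurd hC (Finset.notMem_empty C)
    · exact ⟨fun _ _ => rfl, fun _ _ => rfl⟩
    · intro _ _
      exact le_refl _
    · intro w n h
      exact absurd h (lt_irrefl _)
    · simp [avg]
    · simp [avg]
  | succ J ih =>
    obtain ⟨M, S, Z, hS, h1, h2⟩ := ih
    obtain ⟨M', S', Z', hd, hS', h1', h2', h3'⟩ := hsc d φ hφ0 hφ1 M hS.hM hS.hWM
    have hMM : avg M' Z = avg M Z := avg_per hS.hM hS'.hM hd hS.per
    have hsq : avg M' (fun w n => Z w n ^ 2) = avg M (fun w n => Z w n ^ 2) := by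
      apply avg_per hS.hM hS'.hM hd
      constructor
      · intro w n
        simp only [hS.per.1 w n]
      · intro w n
        simp only [hS.per.2 w n]
    have hprod : avg M' (fun w n => Z w n * Z' w n) = avg M Z * avg M' Z' :=
      avg_mul hS.hM hS'.hM hS.per (avg M' Z') h3'
    refine ⟨M', S ∪ S', fun w n => Z w n + Z' w n, ⟨hS'.hM, hS'.hWM, ?_, ?_, ?_, ?_⟩, ?_, ?_⟩
    · intro C hC
      rw [Finset.mem_union] at hC
      rcases hC with hC | hC
      · obtain ⟨a1, a2, a3, a4, a5⟩ := hS.stat C hC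
        exact ⟨a1, a2, a3.trans hd, a4.trans hd, a5.trans hd⟩
      · exact hS'.stat C hC
    · have hp := per_dvd hS.per hd
      constructor
      · intro w n
        simp only [hp.1 w n, hS'.per.1 w n]
      · intro w n
        simp only [hp.2 w n, hS'.per.2 w n]
    · intro w n
      exact add_nonneg (hS.nonneg w n) (hS'.nonneg w n)
    · intro w n h
      rcases (hS.nonneg w n).lt_or_eq with h4 | h4
      · obtain ⟨C, hC, hD⟩ := hS.pos w n h4
        exact ⟨C, Finset.mem_union_left _ hC, hD⟩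
      · have h5 : 0 < Z' w n := by
          have h : 0 < Z w n + Z' w n := h
          rw [← h4, zero_add] at h
          exact h
        obtain ⟨C, hC, hD⟩ := hS'.pos w n h5
        exact ⟨C, Finset.mem_union_right _ hC, hD⟩
    · rw [avg_add, hMM]
      push_cast
      linarith
    · have h6 : avg M' (fun w n => (Z w n + Z' w n) ^ 2) =
          avg M' (fun w n => Z w n ^ 2) + 2 * avg M' (fun w n => Z w n * Z' w n) +
            avg M' (fun w n => Z' w n ^ 2) := by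
        have e : (fun w n => (Z w n + Z' w n) ^ 2) =
            (fun w n => (Z w n ^ 2 + 2 * (Z w n * Z' w n)) + Z' w n ^ 2) := by
          funext w n
          ring
        rw [e, avg_add M' (fun w n => Z w n ^ 2 + 2 * (Z w n * Z' w n)) (fun w n => Z' w n ^ 2),
          avg_add M' (fun w n => Z w n ^ 2) (fun w n => 2 * (Z w n * Z' w n)),
          avg_smul M' 2 (fun w n => Z w n * Z' w n)]
      rw [h6, avg_add, hMM, hsq, hprod]
      push_cast
      nlinarith [sq_nonneg (avg M' Z')]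

/-- (B2) The model lemma. -/
theorem model (c1 : ℝ) (hc1 : 0 < c1) (hc1' : c1 ≤ 1) (W a d : ℕ) (hW : 0 < W)
    (φ : ℝ) (hφ0 : 0 ≤ φ) (hφ1 : φ ≤ 1) (ε : ℝ) (hε : 0 < ε) :
    ∃ (M : ℕ) (S : Finset Cfg), 0 < M ∧ W ^ 2 ∣ M ∧
      (∀ C ∈ S, C.Static W ∧ C.WinIn c1 φ ∧ C.l1 ∣ M ∧ C.l2 ∣ M ∧ C.q ∣ M) ∧
      ((((range M) ×ˢ (range M)).filter (fun p => ∀ C ∈ S, ¬ C.Dyn W a d p.1 p.2)).card : ℝ)
        ≤ ε * (M : ℝ) ^ 2 := by
  obtain ⟨p0, K0, hp0, hK0, hsc⟩ := scales c1 hc1 hc1' W a hW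
  obtain ⟨J, hJ⟩ := exists_nat_gt (K0 / (ε * p0 ^ 2))
  have hJ0 : (0 : ℝ) < J := lt_of_le_of_lt (by positivity) hJ
  obtain ⟨M, S, Z, hS, h1, h2⟩ := hsc d φ hφ0 hφ1 J
  refine ⟨M, S, hS.hM, hS.hWM, hS.stat, ?_⟩
  set B := ((range M) ×ˢ (range M)).filter (fun p => ∀ C ∈ S, ¬ C.Dyn W a d p.1 p.2) with hB
  set μ := avg M Z with hμ
  have hMr : (0 : ℝ) < M := by exact_mod_cast hS.hM
  have hμ0 : 0 < μ := lt_of_lt_of_le (by positivity) h1
  have hZ0 : ∀ p ∈ B, Z p.1 p.2 = 0 := by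
    intro p hp
    rw [hB, Finset.mem_filter] at hp
    by_contra hne
    have h3 : 0 < Z p.1 p.2 := lt_of_le_of_ne (hS.nonneg _ _) (Ne.symm hne)
    obtain ⟨C, hC, hD⟩ := hS.pos _ _ h3
    exact hp.2 C hC hD
  have hsum1 : ∑ p ∈ (range M) ×ˢ (range M), Z p.1 p.2 = (M : ℝ) ^ 2 * μ := by
    rw [Finset.sum_product, hμ]
    unfold avg
    field_simp
  have hsum2 : ∑ p ∈ (range M) ×ˢ (range M), Z p.1 p.2 ^ 2 ≤ (M : ℝ) ^ 2 * (μ ^ 2 + J * K0) := by
    rw [Finset.sum_product]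
    unfold avg at h2
    rw [div_le_iff₀ (by positivity)] at h2
    linarith
  have hvar : ∑ p ∈ (range M) ×ˢ (range M), (Z p.1 p.2 - μ) ^ 2 ≤ (M : ℝ) ^ 2 * (J * K0) := by
    have e : ∑ p ∈ (range M) ×ˢ (range M), (Z p.1 p.2 - μ) ^ 2 =
        ∑ p ∈ (range M) ×ˢ (range M), Z p.1 p.2 ^ 2 -
          2 * μ * ∑ p ∈ (range M) ×ˢ (range M), Z p.1 p.2 + (M : ℝ) ^ 2 * μ ^ 2 := by
      have e1 : ∀ p : ℕ × ℕ, (Z p.1 p.2 - μ) ^ 2 = Z p.1 p.2 ^ 2 - 2 * μ * Z p.1 p.2 + μ ^ 2 := by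
        intro p
        ring
      simp only [e1]
      rw [Finset.sum_add_distrib, Finset.sum_sub_distrib, Finset.mul_sum, Finset.sum_const,
        Finset.card_product, Finset.card_range, nsmul_eq_mul]
      push_cast
      ring
    rw [e, hsum1]
    nlinarith
  have hcard : (B.card : ℝ) * μ ^ 2 ≤ (M : ℝ) ^ 2 * (J * K0) := by
    refine le_trans ?_ hvar
    calc (B.card : ℝ) * μ ^ 2 = ∑ p ∈ B, (Z p.1 p.2 - μ) ^ 2 := by
          rw [Finset.sum_congr rfl (g := fun _ => μ ^ 2), Finset.sum_const, nsmul_eq_mul]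
          intro p hp
          rw [hZ0 p hp]
          ring
      _ ≤ ∑ p ∈ (range M) ×ˢ (range M), (Z p.1 p.2 - μ) ^ 2 := by
          apply Finset.sum_le_sum_of_subset_of_nonneg (Finset.filter_subset _ _)
          intro p _ _
          positivity
  have hJp : (J * p0) ^ 2 ≤ μ ^ 2 := by
    apply pow_le_pow_left₀ (by positivity) h1
  have h3 : K0 ≤ ε * p0 ^ 2 * J := by
    rw [div_lt_iff₀ (by positivity)] at hJ
    linarith
  have h4 : (J : ℝ) * K0 ≤ ε * (J * p0) ^ 2 := by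
    calc (J : ℝ) * K0 ≤ J * (ε * p0 ^ 2 * J) := by gcongr
      _ = ε * (J * p0) ^ 2 := by ring
  have h5 : (B.card : ℝ) * μ ^ 2 ≤ (ε * (M : ℝ) ^ 2) * μ ^ 2 := by
    calc (B.card : ℝ) * μ ^ 2 ≤ (M : ℝ) ^ 2 * (J * K0) := hcard
      _ ≤ (M : ℝ) ^ 2 * (ε * (J * p0) ^ 2) := by gcongr
      _ ≤ (M : ℝ) ^ 2 * (ε * μ ^ 2) := by gcongr
      _ = (ε * (M : ℝ) ^ 2) * μ ^ 2 := by ring
  exact le_of_mul_le_mul_right h5 (by positivity)

end Pool.Agent.MR
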