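import Pool.Agent.MR.BDefs
import Pool.Agent.H6.HR.Mertens

set_option autoImplicit false

open Finset

namespace Pool.Agent.MR

/-- Windows of full periods. -/
theorem exists_windows (c1 φ : ℝ) (hc1 : 0 < c1) (hc1' : c1 ≤ 1) (hφ0 : 0 ≤ φ) (hφ1 : φ ≤ 1)
    (m : ℕ) (hm : 0 < m) :
    ∃ R0 : ℕ, ∀ l : ℕ, R0 ≤ l → ∃ S T : ℕ,
      c1 / 200 * l ≤ (⌊c1 / 100 * l / m⌋₊ * m : ℕ) ∧ ((⌊c1 / 100 * l / m⌋₊ * m : ℕ) : ℝ) ≤ c1 / 100 * l ∧
      (∀ s ∈ Ico S (S + ⌊c1 / 100 * l / m⌋₊ * m),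
        c1 * (36 / 100) < (s : ℝ) / l - φ ∧ (s : ℝ) / l - φ < c1 * (39 / 100) ∧ ¬ l ∣ s) ∧
      (∀ s ∈ Ico T (T + ⌊c1 / 100 * l / m⌋₊ * m),
        c1 * (11 / 100) < (s : ℝ) / l - φ ∧ (s : ℝ) / l - φ < c1 * (14 / 100)) := by
  have _ := hφ1
  have hmr : (0 : ℝ) < m := by exact_mod_cast hm
  refine ⟨⌈200 * (m : ℝ) / c1⌉₊ + 1, fun l hl => ?_⟩
  have hl1 : 200 * (m : ℝ) / c1 + 1 ≤ l := by
    have h1 : 200 * (m : ℝ) / c1 ≤ ⌈200 * (m : ℝ) / c1⌉₊ := Nat.le_ceil _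
    have h2 : ((⌈200 * (m : ℝ) / c1⌉₊ + 1 : ℕ) : ℝ) ≤ l := by exact_mod_cast hl
    push_cast at h2
    linarith
  have hl0 : (0 : ℝ) < l := by
    have : 0 < 200 * (m : ℝ) / c1 := by positivity
    linarith
  have hlpos : 0 < l := by exact_mod_cast hl0
  have hy : 2 * (m : ℝ) ≤ c1 / 100 * l := by
    have h1 : 200 * (m : ℝ) / c1 ≤ l := by linarith
    rw [div_le_iff₀ hc1] at h1
    linarith
  set len := ⌊c1 / 100 * l / m⌋₊ * m with hlen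
  have hlen2 : (len : ℝ) ≤ c1 / 100 * l := by
    have h1 : (⌊c1 / 100 * l / m⌋₊ : ℝ) ≤ c1 / 100 * l / m := Nat.floor_le (by positivity)
    rw [hlen]
    push_cast
    rwa [le_div_iff₀ hmr] at h1
  have hlen1 : c1 / 200 * l ≤ (len : ℝ) := by
    have h1 : c1 / 100 * l / m < ⌊c1 / 100 * l / m⌋₊ + 1 := Nat.lt_floor_add_one _
    rw [div_lt_iff₀ hmr] at h1
    rw [hlen]
    push_cast
    linarith
  have hcl : 0 < c1 * l := by positivity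
  -- a window starting after `l * (φ + u)`
  have hwin : ∀ u v : ℝ, 0 ≤ u → ∀ s : ℕ, ⌊(l : ℝ) * (φ + u)⌋₊ + 1 ≤ s →
      (s : ℝ) ≤ ⌊(l : ℝ) * (φ + u)⌋₊ + v * l → u < (s : ℝ) / l - φ ∧ (s : ℝ) / l - φ ≤ u + v := by
    intro u v hu s h1 h2
    have h3 : (l : ℝ) * (φ + u) < ⌊(l : ℝ) * (φ + u)⌋₊ + 1 := Nat.lt_floor_add_one _
    have h4 : (⌊(l : ℝ) * (φ + u)⌋₊ : ℝ) ≤ (l : ℝ) * (φ + u) := Nat.floor_le (by positivity)
    have h5 : ((⌊(l : ℝ) * (φ + u)⌋₊ + 1 : ℕ) : ℝ) ≤ s := by exact_mod_cast h1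
    push_cast at h5
    constructor
    · rw [lt_sub_iff_add_lt, lt_div_iff₀ hl0]
      linarith
    · rw [sub_le_iff_le_add, div_le_iff₀ hl0]
      linarith
  set S1 := ⌊(l : ℝ) * (φ + c1 * (36 / 100))⌋₊ + 1 with hS1
  set T := ⌊(l : ℝ) * (φ + c1 * (11 / 100))⌋₊ + 1 with hT
  -- bounds in both windows
  have hb : ∀ s : ℕ, S1 ≤ s → s < S1 + 2 * len →
      c1 * (36 / 100) < (s : ℝ) / l - φ ∧ (s : ℝ) / l - φ < c1 * (39 / 100) := by
    intro s h1 h2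
    have h3 : (s : ℝ) ≤ ⌊(l : ℝ) * (φ + c1 * (36 / 100))⌋₊ + c1 * (2 / 100) * l := by
      have h4 : s ≤ ⌊(l : ℝ) * (φ + c1 * (36 / 100))⌋₊ + 2 * len := by omega
      have h5 : (s : ℝ) ≤ ((⌊(l : ℝ) * (φ + c1 * (36 / 100))⌋₊ + 2 * len : ℕ) : ℝ) := by
        exact_mod_cast h4
      push_cast at h5
      linarith
    obtain ⟨h6, h7⟩ := hwin (c1 * (36 / 100)) (c1 * (2 / 100)) (by positivity) s h1 h3
    exact ⟨h6, by linarith⟩
  obtain ⟨S, hSS, hS2, hSd⟩ : ∃ S, S1 ≤ S ∧ S + len ≤ S1 + 2 * len ∧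
      ∀ s ∈ Ico S (S + len), ¬ l ∣ s := by
    by_cases h : ∀ s ∈ Ico S1 (S1 + len), ¬ l ∣ s
    · exact ⟨S1, le_refl _, by omega, h⟩
    · push Not at h
      obtain ⟨s1, hs1, hd1⟩ := h
      refine ⟨S1 + len, by omega, by omega, fun s2 hs2 hd2 => ?_⟩
      rw [Finset.mem_Ico] at hs1 hs2
      have h1 : l ∣ s2 - s1 := Nat.dvd_sub hd2 hd1
      have h2 : l ≤ s2 - s1 := Nat.le_of_dvd (by omega) h1
      have h3 : l < 2 * len := by omega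
      have h4 : (l : ℝ) < 2 * len := by exact_mod_cast h3
      nlinarith
  refine ⟨S, T, hlen1, hlen2, ?_, ?_⟩
  · intro s hs
    have hs' := Finset.mem_Ico.1 hs
    obtain ⟨h1, h2⟩ := hb s (by omega) (by omega)
    exact ⟨h1, h2, hSd s hs⟩
  · intro s hs
    rw [Finset.mem_Ico] at hs
    have h3 : (s : ℝ) ≤ ⌊(l : ℝ) * (φ + c1 * (11 / 100))⌋₊ + c1 * (1 / 100) * l := by
      have h4 : s ≤ ⌊(l : ℝ) * (φ + c1 * (11 / 100))⌋₊ + len := by omega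
      have h5 : (s : ℝ) ≤ ((⌊(l : ℝ) * (φ + c1 * (11 / 100))⌋₊ + len : ℕ) : ℝ) := by
        exact_mod_cast h4
      push_cast at h5
      linarith
    obtain ⟨h6, h7⟩ := hwin (c1 * (11 / 100)) (c1 * (1 / 100)) (by positivity) s hs.1 h3
    exact ⟨h6, by linarith⟩

/-- Two sets of primes with bounded reciprocal sums (Mertens; see
`Pool.Agent.CoprimeSieve.mertens_second_upper` and `mertens_second_lower` in `H6/HR/Mertens`). -/
theorem exists_primes : ∃ K : ℝ, 1 ≤ K ∧ ∀ R0 : ℕ, ∃ L1 L2 : Finset ℕ,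
    (∀ l ∈ L1, l.Prime ∧ R0 < l) ∧ (∀ l ∈ L2, l.Prime ∧ R0 < l) ∧
    (∀ l ∈ L1, ∀ l' ∈ L2, l < l' ∧ Real.log l' ≤ l) ∧
    1 ≤ ∑ l ∈ L1, (1 : ℝ) / l ∧ ∑ l ∈ L1, (1 : ℝ) / l ≤ K ∧
    1 ≤ ∑ l ∈ L2, (1 : ℝ) / l ∧ ∑ l ∈ L2, (1 : ℝ) / l ≤ K := by
  obtain ⟨C, hC, hup⟩ := Pool.Agent.CoprimeSieve.mertens_second_upper
  obtain ⟨C', hC', hlo⟩ := Pool.Agent.H6.HR.mertens_second_lower
  refine ⟨4, by norm_num, fun R0 => ?_⟩
  -- choice of `R`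
  obtain ⟨R, hR2, hRR, hRC, hRC', hRl⟩ : ∃ R : ℝ, 2 ≤ R ∧ (R0 : ℝ) ≤ R ∧ C ≤ Real.log R ∧
      C' ≤ Real.log R ∧ 64 * Real.log R ≤ R := by
    have h1 : ∀ᶠ R : ℝ in Filter.atTop, 64 * Real.log R ≤ R := by
      have h2 := Real.isLittleO_log_id_atTop.bound (show (0 : ℝ) < 1 / 64 by norm_num)
      filter_upwards [h2, Filter.eventually_ge_atTop (1 : ℝ)] with R h3 h4
      rw [Real.norm_eq_abs, Real.norm_eq_abs, id, abs_of_nonneg (Real.log_nonneg h4),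
        abs_of_nonneg (by linarith : (0 : ℝ) ≤ R)] at h3
      linarith
    have h := (Filter.eventually_ge_atTop (2 : ℝ)).and ((Filter.eventually_ge_atTop (R0 : ℝ)).and
      ((Real.tendsto_log_atTop.eventually_ge_atTop C).and
      ((Real.tendsto_log_atTop.eventually_ge_atTop C').and h1)))
    exact h.exists
  have hR0 : 0 < R := by linarith
  have hR1 : 1 ≤ R := by linarith
  have hlR : 0 < Real.log R := Real.log_pos (by linarith)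
  have hlog8 : 2 ≤ Real.log 8 ∧ Real.log 8 ≤ 3 := by
    have e : Real.log 8 = 3 * Real.log 2 := by
      rw [show (8 : ℝ) = 2 ^ 3 by norm_num, Real.log_pow]
      norm_num
    rw [e]
    constructor <;> linarith [Real.log_two_gt_d9, Real.log_two_lt_d9]
  -- the general sum
  have hgen : ∀ A : ℝ, R ≤ A →
      1 ≤ ∑ p ∈ (Pool.Agent.CoprimeSieve.pr (A ^ 8)).filter (fun p : ℕ => A < (p : ℝ)),
        (1 : ℝ) / p ∧
      ∑ p ∈ (Pool.Agent.CoprimeSieve.pr (A ^ 8)).filter (fun p : ℕ => A < (p : ℝ)),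
        (1 : ℝ) / p ≤ 4 := by
    intro A hA
    have hA2 : 2 ≤ A := hR2.trans hA
    have hA0 : 0 < A := by linarith
    have hlA : Real.log R ≤ Real.log A := Real.log_le_log hR0 hA
    have hlA0 : 0 < Real.log A := lt_of_lt_of_le hlR hlA
    have hAA : A ≤ A ^ 8 := le_self_pow₀ (by linarith) (by norm_num)
    have e : Real.log (Real.log (A ^ 8) / Real.log A) = Real.log 8 := by
      rw [Real.log_pow]
      congr 1
      push_cast
      field_simp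
    have h1 := hup A (A ^ 8) hA2 hAA
    have h2 := hlo A (A ^ 8) hA2 hAA
    rw [e] at h1 h2
    have h3 : C / Real.log A ≤ 1 := by
      rw [div_le_one hlA0]
      linarith
    have h4 : C' / Real.log A ≤ 1 := by
      rw [div_le_one hlA0]
      linarith
    constructor
    · linarith [hlog8.1]
    · linarith [hlog8.2]
  have hR8 : R ≤ R ^ 8 := le_self_pow₀ hR1 (by norm_num)
  obtain ⟨g1, g2⟩ := hgen R le_rfl
  obtain ⟨g3, g4⟩ := hgen (R ^ 8) hR8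
  refine ⟨(Pool.Agent.CoprimeSieve.pr (R ^ 8)).filter (fun p : ℕ => R < (p : ℝ)),
    (Pool.Agent.CoprimeSieve.pr ((R ^ 8) ^ 8)).filter (fun p : ℕ => R ^ 8 < (p : ℝ)),
    ?_, ?_, ?_, g1, g2, g3, g4⟩
  · intro l hl
    rw [Finset.mem_filter, Pool.Agent.CoprimeSieve.mem_pr] at hl
    refine ⟨hl.1.1, ?_⟩
    have : (R0 : ℝ) < l := lt_of_le_of_lt hRR hl.2
    exact_mod_cast this
  · intro l hl
    rw [Finset.mem_filter, Pool.Agent.CoprimeSieve.mem_pr] at hl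
    refine ⟨hl.1.1, ?_⟩
    have : (R0 : ℝ) < l := lt_of_le_of_lt (hRR.trans hR8) hl.2
    exact_mod_cast this
  · intro l hl l' hl'
    rw [Finset.mem_filter, Pool.Agent.CoprimeSieve.mem_pr] at hl hl'
    have h1 : (l : ℝ) < l' := lt_of_le_of_lt hl.1.2 hl'.2
    refine ⟨by exact_mod_cast h1, ?_⟩
    have h2 : (0 : ℝ) < l' := by
      have := hl'.1.1.pos
      exact_mod_cast this
    have h3 : Real.log l' ≤ Real.log ((R ^ 8) ^ 8) := Real.log_le_log h2 hl'.1.2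
    have h4 : Real.log ((R ^ 8) ^ 8) = 64 * Real.log R := by
      rw [Real.log_pow, Real.log_pow]
      push_cast
      ring
    linarith [hl.2]

end Pool.Agent.MR
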