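import Pool.Agent.MR.BMean
import Pool.Agent.MR.BSq
import Pool.Agent.MR.BPrimes

set_option autoImplicit false

open Finset

namespace Pool.Agent.MR

namespace BScM

open BSqM BIndM

/-- counting `w` by the Chinese remainder theorem -/
theorem wcount (M A a1 a2 w0 d : ℕ) (hA : 0 < A) (ha1 : 0 < a1) (ha2 : 0 < a2)
    (c12 : a1.Coprime a2) (cA1 : A.Coprime a1) (cA2 : A.Coprime a2) (hd : A * a1 * a2 ∣ M) :
    (((range M).filter (fun w => w ≡ w0 [MOD A] ∧ a1 ∣ w ∧ a2 ∣ w + d)).card : ℝ) =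
      (M : ℝ) / (A * a1 * a2) := by
  obtain ⟨k1, hk1, hk1'⟩ := Nat.chineseRemainder cA1 w0 0
  have cA : (A * a1).Coprime a2 := Nat.Coprime.mul_left cA2 c12
  obtain ⟨k, hk, hk'⟩ := Nat.chineseRemainder cA k1 ((a2 - 1) * d)
  have hs : (a2 - 1) * d + d = a2 * d := by
    obtain ⟨r, rfl⟩ := Nat.exists_eq_succ_of_ne_zero ha2.ne'
    simp
    ring
  have hset : (range M).filter (fun w => w ≡ w0 [MOD A] ∧ a1 ∣ w ∧ a2 ∣ w + d) =
      (range M).filter (fun w => w ≡ k [MOD A * a1 * a2]) := by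
    apply filter_congr
    intro w _
    rw [← Nat.modEq_and_modEq_iff_modEq_mul cA]
    have e1 : w ≡ k [MOD A * a1] ↔ (w ≡ w0 [MOD A] ∧ a1 ∣ w) := by
      have h3 : w ≡ k [MOD A * a1] ↔ w ≡ k1 [MOD A * a1] :=
        ⟨fun h => h.trans hk, fun h => h.trans hk.symm⟩
      rw [h3, ← Nat.modEq_and_modEq_iff_modEq_mul cA1]
      constructor
      · rintro ⟨b1, b2⟩
        exact ⟨b1.trans hk1, Nat.modEq_zero_iff_dvd.1 (b2.trans hk1')⟩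
      · rintro ⟨b1, b2⟩
        exact ⟨b1.trans hk1.symm, (Nat.modEq_zero_iff_dvd.2 b2).trans hk1'.symm⟩
    have e2 : w ≡ k [MOD a2] ↔ a2 ∣ w + d := by
      constructor
      · intro h
        have h4 : w + d ≡ (a2 - 1) * d + d [MOD a2] := (h.trans hk').add_right d
        rw [hs] at h4
        exact Nat.modEq_zero_iff_dvd.1
          (h4.trans (Nat.modEq_zero_iff_dvd.2 (Dvd.intro d rfl)))
      · intro h
        have h4 : w + d ≡ (a2 - 1) * d + d [MOD a2] := by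
          rw [hs]
          exact (Nat.modEq_zero_iff_dvd.2 h).trans
            (Nat.modEq_zero_iff_dvd.2 (Dvd.intro d rfl)).symm
        exact (Nat.ModEq.add_right_cancel' _ h4).trans hk'.symm
    rw [e1, e2, and_assoc]
  have hpos : 0 < A * a1 * a2 := by positivity
  rw [hset, ← Nat.count_eq_card_filter_range, Nat.count_modEq_card _ hpos,
    Nat.mod_eq_zero_of_dvd hd]
  simp only [Nat.not_lt_zero, if_false, add_zero]
  rw [Nat.cast_div hd (by positivity)]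
  push_cast
  rfl

/-- the data of one scale -/
structure Dat (W M0 : ℕ) (c1 φ : ℝ) where
  L1 : Finset ℕ
  L2 : Finset ℕ
  S1 : ℕ → ℕ
  S2 : ℕ → ℕ
  k : ℕ → ℕ
  prime1 : ∀ l ∈ L1, l.Prime
  prime2 : ∀ l ∈ L2, l.Prime
  big1 : ∀ l ∈ L1, M0 < l
  big2 : ∀ l ∈ L2, M0 < l
  lt : ∀ l ∈ L1, ∀ l' ∈ L2, l < l' ∧ Real.log l' ≤ l
  mono : ∀ l ∈ L1, ∀ l' ∈ L2, k l ≤ k l'
  low1 : ∀ l ∈ L1, c1 / 200 * l ≤ (k l * (W * M0) : ℕ)
  low2 : ∀ l ∈ L2, c1 / 200 * l ≤ (k l * (W * M0) : ℕ)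
  up1 : ∀ l ∈ L1, ((k l * (W * M0) : ℕ) : ℝ) ≤ c1 / 100 * l
  up2 : ∀ l ∈ L2, ((k l * (W * M0) : ℕ) : ℝ) ≤ c1 / 100 * l
  win1 : ∀ l ∈ L1, ∀ s ∈ Ico (S1 l) (S1 l + k l * (W * M0)),
    c1 * (36 / 100) < (s : ℝ) / l - φ ∧ (s : ℝ) / l - φ < c1 * (39 / 100) ∧ ¬ l ∣ s
  win2 : ∀ l ∈ L2, ∀ s ∈ Ico (S2 l) (S2 l + k l * (W * M0)),
    c1 * (11 / 100) < (s : ℝ) / l - φ ∧ (s : ℝ) / l - φ < c1 * (14 / 100)

namespace Dat

variable {W M0 : ℕ} {c1 φ : ℝ} (D : Dat W M0 c1 φ)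

/-- windows -/
def I1 (l : ℕ) : Finset ℕ := Ico (D.S1 l) (D.S1 l + D.k l * (W * M0))
/-- windows -/
def I2 (l : ℕ) : Finset ℕ := Ico (D.S2 l) (D.S2 l + D.k l * (W * M0))

/-- the configurations -/
def S : Finset Cfg :=
  D.L1.biUnion fun l1 => D.L2.biUnion fun l2 =>
    ((D.I1 l1 ×ˢ D.I2 l2).filter (fun s => W ∣ l2 * s.1 - l1 * s.2)).image
      (fun s => ⟨l1, l2, s.1, s.2, qf W l1 l2 s.1 s.2⟩)

/-- the new modulus -/
def M : ℕ := M0 * (∏ l ∈ D.L1, l) * (∏ l ∈ D.L2, l) * ∏ C ∈ D.S, C.q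

/-- the weighted number of configurations -/
noncomputable def Z (a d : ℕ) (w n : ℕ) : ℝ :=
  ∑ p ∈ D.L1 ×ˢ D.L2, (if p.1 ∣ w ∧ p.2 ∣ w + d then (1 : ℝ) else 0) *
    YY W a p.1 p.2 (D.I1 p.1) (D.I2 p.2) n

theorem mem_S (C : Cfg) : C ∈ D.S ↔ C.l1 ∈ D.L1 ∧ C.l2 ∈ D.L2 ∧ C.s1 ∈ D.I1 C.l1 ∧
    C.s2 ∈ D.I2 C.l2 ∧ W ∣ C.l2 * C.s1 - C.l1 * C.s2 ∧ C.q = qf W C.l1 C.l2 C.s1 C.s2 := by
  unfold S
  simp only [mem_biUnion, mem_image, mem_filter, mem_product]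
  constructor
  · rintro ⟨l1, h1, l2, h2, s, ⟨⟨h3, h4⟩, h5⟩, rfl⟩
    exact ⟨h1, h2, h3, h4, h5, rfl⟩
  · rintro ⟨h1, h2, h3, h4, h5, h6⟩
    refine ⟨C.l1, h1, C.l2, h2, (C.s1, C.s2), ⟨⟨h3, h4⟩, h5⟩, ?_⟩
    cases C
    simp only at h6
    subst h6
    rfl

variable (hc1 : 0 < c1) (hc1' : c1 ≤ 1)

include hc1 hc1' in
theorem order (l1 l2 s1 s2 : ℕ) (h1 : l1 ∈ D.L1) (h2 : l2 ∈ D.L2) (hs1 : s1 ∈ D.I1 l1)
    (hs2 : s2 ∈ D.I2 l2) : l1 * s2 < l2 * s1 ∧ l2 * s1 ≤ l1 * s2 + l1 * l2 ∧ ¬ l1 ∣ s1 := by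
  have w1 := D.win1 l1 h1 s1 hs1
  have w2 := D.win2 l2 h2 s2 hs2
  have p1 : (0 : ℝ) < l1 := by exact_mod_cast (D.prime1 l1 h1).pos
  have p2 : (0 : ℝ) < l2 := by exact_mod_cast (D.prime2 l2 h2).pos
  refine ⟨?_, ?_, w1.2.2⟩
  · have h3 : (s2 : ℝ) / l2 < s1 / l1 := by linarith [w1.1, w2.2]
    rw [div_lt_div_iff₀ p2 p1] at h3
    have h4 : s2 * l1 < s1 * l2 := by exact_mod_cast h3
    nlinarith
  · have h3 : (s1 : ℝ) / l1 ≤ s2 / l2 + 1 := by linarith [w1.2.1, w2.1]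
    rw [div_add_one p2.ne', div_le_div_iff₀ p1 p2] at h3
    have h4 : s1 * l2 ≤ (s2 + l2) * l1 := by exact_mod_cast h3
    nlinarith

include hc1 hc1' in
theorem q_pos (C : Cfg) (hC : C ∈ D.S) : 0 < C.q := by
  obtain ⟨h1, h2, h3, h4, h5, h6⟩ := (D.mem_S C).1 hC
  rw [h6]
  exact qq_pos (W := W) (l1 := C.l1) (l2 := C.l2) (C.s1, C.s2)
    (D.order hc1 hc1' _ _ _ _ h1 h2 h3 h4).1 h5

theorem q_dvd (C : Cfg) (hC : C ∈ D.S) : C.q ∣ D.M :=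
  (dvd_prod_of_mem (fun C : Cfg => C.q) hC).mul_left _

theorem qf_dvd (l1 l2 s1 s2 : ℕ) (h1 : l1 ∈ D.L1) (h2 : l2 ∈ D.L2) (hs1 : s1 ∈ D.I1 l1)
    (hs2 : s2 ∈ D.I2 l2) (hW : W ∣ l2 * s1 - l1 * s2) : qf W l1 l2 s1 s2 ∣ D.M := by
  have : (⟨l1, l2, s1, s2, qf W l1 l2 s1 s2⟩ : Cfg) ∈ D.S :=
    (D.mem_S _).2 ⟨h1, h2, hs1, hs2, hW, rfl⟩
  exact D.q_dvd _ this

include hc1 hc1' in
theorem M_pos (hM0 : 0 < M0) : 0 < D.M := by
  unfold M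
  apply Nat.mul_pos
  · apply Nat.mul_pos
    · exact Nat.mul_pos hM0 (prod_pos fun l hl => (D.prime1 l hl).pos)
    · exact prod_pos fun l hl => (D.prime2 l hl).pos
  · exact prod_pos fun C hC => D.q_pos hc1 hc1' C hC

theorem M0_dvd : M0 ∣ D.M :=
  ((Dvd.intro _ rfl : M0 ∣ M0 * _).mul_right _).mul_right _

theorem mid_dvd (x y : ℕ) (hx : x ∣ ∏ l ∈ D.L1, l) (hy : y ∣ ∏ l ∈ D.L2, l) :
    M0 * x * y ∣ D.M :=
  (mul_dvd_mul (mul_dvd_mul dvd_rfl hx) hy).mul_right _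

theorem mid_dvd' (x y : ℕ) (hx : x ∣ ∏ l ∈ D.L1, l) (hy : y ∣ ∏ l ∈ D.L2, l) :
    1 * x * y ∣ D.M := by
  rw [one_mul]
  exact (Dvd.intro_left M0 (by ring)).trans (D.mid_dvd x y hx hy)

theorem l1_dvd (l : ℕ) (hl : l ∈ D.L1) : l ∣ ∏ l ∈ D.L1, l := dvd_prod_of_mem _ hl
theorem l2_dvd (l : ℕ) (hl : l ∈ D.L2) : l ∣ ∏ l ∈ D.L2, l := dvd_prod_of_mem _ hl

theorem l_dvd_M1 (l : ℕ) (hl : l ∈ D.L1) : l ∣ D.M := by
  have := D.mid_dvd' l 1 (D.l1_dvd l hl) (one_dvd _)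
  simpa using this
theorem l_dvd_M2 (l : ℕ) (hl : l ∈ D.L2) : l ∣ D.M := by
  have := D.mid_dvd' 1 l (one_dvd _) (D.l2_dvd l hl)
  simpa using this

theorem cop_M0_1 (hM0 : 0 < M0) (l : ℕ) (hl : l ∈ D.L1) : M0.Coprime l := by
  rw [Nat.coprime_comm, (D.prime1 l hl).coprime_iff_not_dvd]
  intro h
  exact absurd (Nat.le_of_dvd hM0 h) (by have := D.big1 l hl; omega)

theorem cop_M0_2 (hM0 : 0 < M0) (l : ℕ) (hl : l ∈ D.L2) : M0.Coprime l := by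
  rw [Nat.coprime_comm, (D.prime2 l hl).coprime_iff_not_dvd]
  intro h
  exact absurd (Nat.le_of_dvd hM0 h) (by have := D.big2 l hl; omega)

theorem cop_W_1 (hM0 : 0 < M0) (hWM : W ^ 2 ∣ M0) (l : ℕ) (hl : l ∈ D.L1) : l.Coprime W :=
  (Nat.Coprime.coprime_dvd_left ((Dvd.intro_left (W ^ 1) (by ring)).trans hWM)
    (D.cop_M0_1 hM0 l hl)).symm

theorem cop_W_2 (hM0 : 0 < M0) (hWM : W ^ 2 ∣ M0) (l : ℕ) (hl : l ∈ D.L2) : l.Coprime W :=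
  (Nat.Coprime.coprime_dvd_left ((Dvd.intro_left (W ^ 1) (by ring)).trans hWM)
    (D.cop_M0_2 hM0 l hl)).symm

theorem cop_12 (l l' : ℕ) (hl : l ∈ D.L1) (hl' : l' ∈ D.L2) : l.Coprime l' :=
  (Nat.coprime_primes (D.prime1 l hl) (D.prime2 l' hl')).2 (D.lt l hl l' hl').1.ne

include hc1 hc1' in
theorem hpos (l1 l2 : ℕ) (h1 : l1 ∈ D.L1) (h2 : l2 ∈ D.L2) :
    ∀ s1 ∈ Ico (D.S1 l1) (D.S1 l1 + D.k l1 * (W * M0)),
    ∀ s2 ∈ Ico (D.S2 l2) (D.S2 l2 + D.k l2 * (W * M0)),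
      l1 * s2 < l2 * s1 ∧ ¬ l1 ∣ s1 ∧ (W ∣ l2 * s1 - l1 * s2 → qf W l1 l2 s1 s2 ∣ D.M) := by
  intro s1 hs1 s2 hs2
  have h3 := D.order hc1 hc1' l1 l2 s1 s2 h1 h2 hs1 hs2
  exact ⟨h3.1, h3.2.2, D.qf_dvd l1 l2 s1 s2 h1 h2 hs1 hs2⟩

include hc1 hc1' in
theorem supp (a d : ℕ) (hW : 0 < W) (hM0 : 0 < M0) (hWM : W ^ 2 ∣ M0) :
    Supp c1 φ W a d D.M D.S (D.Z a d) where
  hM := D.M_pos hc1 hc1' hM0
  hWM := hWM.trans D.M0_dvd
  stat := by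
    intro C hC
    obtain ⟨h1, h2, h3, h4, h5, h6⟩ := (D.mem_S C).1 hC
    have ho := D.order hc1 hc1' _ _ _ _ h1 h2 h3 h4
    have hq := qq_mul (W := W) (l1 := C.l1) (l2 := C.l2) (C.s1, C.s2) h5
    refine ⟨⟨(D.prime1 _ h1).pos, (D.prime2 _ h2).pos, D.cop_W_1 hM0 hWM _ h1,
      D.cop_W_2 hM0 hWM _ h2, D.q_pos hc1 hc1' C hC, ?_⟩, ?_, D.l_dvd_M1 _ h1, D.l_dvd_M2 _ h2,
      D.q_dvd C hC⟩
    · rw [h6]
      simp only [qq] at hq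
      rw [hq]
      omega
    · have w1 := D.win1 _ h1 _ h3
      have w2 := D.win2 _ h2 _ h4
      exact ⟨w1.1, w1.2.1, w2.1, w2.2⟩
  per := by
    constructor
    · intro w n
      unfold Z
      apply sum_congr rfl
      intro p hp
      have h1 := D.l_dvd_M1 _ (mem_product.1 hp).1
      have h2 := D.l_dvd_M2 _ (mem_product.1 hp).2
      have e1 : p.1 ∣ w + D.M ↔ p.1 ∣ w := (Nat.dvd_add_iff_left h1).symm
      have e2 : p.2 ∣ w + D.M + d ↔ p.2 ∣ w + d := by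
        rw [add_right_comm]
        exact (Nat.dvd_add_iff_left h2).symm
      simp only [e1, e2]
    · intro w n
      unfold Z
      apply sum_congr rfl
      intro p hp
      congr 1
      unfold YY
      apply sum_congr rfl
      intro s1 hs1
      apply sum_congr rfl
      intro s2 hs2
      have hcls : n + D.M ≡ n [MOD D.M] := by
        exact ((Nat.modEq_iff_dvd' (by omega)).2 (by simp)).symm
      have e1 := cg_congr (a := a) (l1 := p.1) (l2 := p.2) D.M s1 s2 (n + D.M) n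
        (hWM.trans D.M0_dvd) hcls
      by_cases hC : Cg W a p.1 p.2 s1 s2 n
      · have hv : Kd W p.1 p.2 (s1, s2) := by
          have ho := D.order hc1 hc1' p.1 p.2 s1 s2 (mem_product.1 hp).1 (mem_product.1 hp).2
            hs1 hs2
          obtain ⟨c1, c2⟩ := hC
          have hWW : W ∣ W ^ 2 := Dvd.intro_left (W ^ 1) (by ring)
          have h1' := (c1.mul_left p.2).of_dvd hWW
          have h2' := (c2.mul_left p.1).of_dvd hWW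
          have h3 : p.2 * (p.1 * (a + W)) ≡ p.1 * (p.2 * a) [MOD W] := by
            have : p.2 * (p.1 * (a + W)) = p.1 * (p.2 * a) + p.2 * p.1 * W := by ring
            rw [this]
            exact (Nat.modEq_iff_dvd' (by omega)).2 ⟨p.2 * p.1, by
              rw [Nat.add_sub_cancel_left]; ring⟩ |>.symm
          have h4 : p.1 * (p.2 * n + s2) ≡ p.2 * (p.1 * n + s1) [MOD W] :=
            h2'.trans (h3.symm.trans h1'.symm)
          have h5 : p.1 * p.2 * n + p.1 * s2 ≡ p.1 * p.2 * n + p.2 * s1 [MOD W] := by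
            have e1 : p.1 * (p.2 * n + s2) = p.1 * p.2 * n + p.1 * s2 := by ring
            have e2 : p.2 * (p.1 * n + s1) = p.1 * p.2 * n + p.2 * s1 := by ring
            rw [e1, e2] at h4
            exact h4
          have h6 := Nat.ModEq.add_left_cancel' _ h5
          exact (Nat.modEq_iff_dvd' ho.1.le).1 h6
        have hq := D.qf_dvd p.1 p.2 s1 s2 (mem_product.1 hp).1 (mem_product.1 hp).2 hs1 hs2 hv
        have e3 : qf W p.1 p.2 s1 s2 ∣ p.1 * (n + D.M) + s1 ↔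
            qf W p.1 p.2 s1 s2 ∣ p.1 * n + s1 := by
          have : p.1 * (n + D.M) + s1 = p.1 * n + s1 + p.1 * D.M := by ring
          rw [this]
          exact (Nat.dvd_add_iff_left (hq.mul_left _)).symm
        simp only [e1, e3]
      · rw [if_neg (fun h => hC (e1.1 h.1)), if_neg (fun h => hC h.1)]
  nonneg := by
    intro w n
    unfold Z
    apply sum_nonneg
    intro p _
    apply mul_nonneg
    · split_ifs <;> norm_num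
    · unfold YY
      apply sum_nonneg
      intro s1 _
      apply sum_nonneg
      intro s2 _
      split_ifs <;> positivity
  pos := by
    intro w n hpos
    unfold Z at hpos
    obtain ⟨p, hp, hp2⟩ := exists_ne_zero_of_sum_ne_zero hpos.ne'
    obtain ⟨ha, hb⟩ := mul_ne_zero_iff.1 hp2
    have ha' : p.1 ∣ w ∧ p.2 ∣ w + d := by
      by_contra h
      exact ha (if_neg h)
    unfold YY at hb
    obtain ⟨s1, hs1, hb1⟩ := exists_ne_zero_of_sum_ne_zero hb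
    obtain ⟨s2, hs2, hb2⟩ := exists_ne_zero_of_sum_ne_zero hb1
    have hc : Cg W a p.1 p.2 s1 s2 n ∧ qf W p.1 p.2 s1 s2 ∣ p.1 * n + s1 := by
      by_contra h
      exact hb2 (if_neg h)
    have hp1 := (mem_product.1 hp).1
    have hp2' := (mem_product.1 hp).2
    have ho := D.order hc1 hc1' p.1 p.2 s1 s2 hp1 hp2' hs1 hs2
    have hv : VV W a p.1 p.2 (s1, s2) n := hc
    have hk : Kd W p.1 p.2 (s1, s2) := kd_of_vv (s1, s2) n ho.1 hv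
    have hd2 := dvd_second (D.prime1 _ hp1) (D.prime2 _ hp2') (D.lt _ hp1 _ hp2').1 (s1, s2) n
      ho.1 ho.2.2 hv
    refine ⟨⟨p.1, p.2, s1, s2, qf W p.1 p.2 s1 s2⟩,
      (D.mem_S _).2 ⟨hp1, hp2', hs1, hs2, hk, rfl⟩, ha'.1, ha'.2, hc.2, hd2, ?_, ?_⟩
    · have hWW : W ∣ W ^ 2 := Dvd.intro_left (W ^ 1) (by ring)
      have h3 : p.1 * (a + W) ≡ p.1 * a [MOD W] := by
        have : p.1 * (a + W) = p.1 * a + p.1 * W := by ring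
        rw [this]
        exact ((Nat.modEq_iff_dvd' (by omega)).2 ⟨p.1, by
          rw [Nat.add_sub_cancel_left]; ring⟩).symm
      exact (hc.1.1.of_dvd hWW).trans h3
    · have hWW : W ∣ W ^ 2 := Dvd.intro_left (W ^ 1) (by ring)
      exact hc.1.2.of_dvd hWW

/-- the mass -/
noncomputable def mu : ℝ := ∑ p ∈ D.L1 ×ˢ D.L2,
  (1 / ((p.1 : ℝ) * p.2)) * ((((D.k p.1 * (W * M0) : ℕ) : ℝ) * ((D.k p.2 * (W * M0) : ℕ) : ℝ)) /
    ((W : ℝ) ^ 4 * (p.1 * p.2)))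

theorem sum_Z (a d : ℕ) (A B : Finset ℕ) :
    ∑ w ∈ A, ∑ n ∈ B, D.Z a d w n = ∑ p ∈ D.L1 ×ˢ D.L2,
      ((A.filter (fun w => p.1 ∣ w ∧ p.2 ∣ w + d)).card : ℝ) *
        ∑ n ∈ B, YY W a p.1 p.2 (D.I1 p.1) (D.I2 p.2) n := by
  unfold Z
  calc _ = ∑ w ∈ A, ∑ p ∈ D.L1 ×ˢ D.L2, (if p.1 ∣ w ∧ p.2 ∣ w + d then (1 : ℝ) else 0) *
        ∑ n ∈ B, YY W a p.1 p.2 (D.I1 p.1) (D.I2 p.2) n := by
        apply sum_congr rfl
        intro w _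
        rw [sum_comm]
        apply sum_congr rfl
        intro p _
        rw [mul_sum]
    _ = _ := by
        rw [sum_comm]
        apply sum_congr rfl
        intro p _
        rw [← sum_mul, sum_boole]

include hc1 hc1' in
theorem avg_Z (a d : ℕ) (hW : 0 < W) (hM0 : 0 < M0) (hWM : W ^ 2 ∣ M0) :
    avg D.M (D.Z a d) = D.mu := by
  have hMpos := D.M_pos hc1 hc1' hM0
  have hMR : (D.M : ℝ) ≠ 0 := by positivity
  unfold avg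
  rw [D.sum_Z, mu, sum_div]
  apply sum_congr rfl
  intro p hp
  have hp1 := (mem_product.1 hp).1
  have hp2 := (mem_product.1 hp).2
  have c1 := wcount D.M 1 p.1 p.2 0 d one_pos (D.prime1 _ hp1).pos (D.prime2 _ hp2).pos
    (D.cop_12 _ _ hp1 hp2) (Nat.coprime_one_left _) (Nat.coprime_one_left _)
    (D.mid_dvd' _ _ (D.l1_dvd _ hp1) (D.l2_dvd _ hp2))
  have e1 : (range D.M).filter (fun w => w ≡ 0 [MOD 1] ∧ p.1 ∣ w ∧ p.2 ∣ w + d) =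
      (range D.M).filter (fun w => p.1 ∣ w ∧ p.2 ∣ w + d) := by
    apply filter_congr
    intro w _
    simp [Nat.modEq_one]
  rw [e1] at c1
  have t1 := pair_total W a p.1 p.2 M0 D.M hW (D.prime1 _ hp1) (D.prime2 _ hp2)
    (D.lt _ hp1 _ hp2).1 (D.cop_W_1 hM0 hWM _ hp1) (D.cop_W_2 hM0 hWM _ hp2) hM0 hWM hMpos
    D.M0_dvd (D.S1 p.1) (D.k p.1) (D.S2 p.2) (D.k p.2) (D.hpos hc1 hc1' p.1 p.2 hp1 hp2)
  rw [c1]
  unfold I1 I2
  rw [t1]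
  have hp1R : (p.1 : ℝ) ≠ 0 := by have := (D.prime1 _ hp1).pos; positivity
  have hp2R : (p.2 : ℝ) ≠ 0 := by have := (D.prime2 _ hp2).pos; positivity
  have hWR : (W : ℝ) ≠ 0 := by positivity
  push_cast
  field_simp

include hc1 hc1' in
theorem cond_Z (a d : ℕ) (hW : 0 < W) (hM0 : 0 < M0) (hWM : W ^ 2 ∣ M0) (w0 n0 : ℕ) :
    ∑ w ∈ (range D.M).filter (fun w => w ≡ w0 [MOD M0]),
      ∑ n ∈ (range D.M).filter (fun n => n ≡ n0 [MOD M0]), D.Z a d w n =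
    ((D.M : ℝ) / M0) ^ 2 * D.mu := by
  have hMpos := D.M_pos hc1 hc1' hM0
  have hMR : (D.M : ℝ) ≠ 0 := by positivity
  rw [D.sum_Z, mu, mul_sum]
  apply sum_congr rfl
  intro p hp
  have hp1 := (mem_product.1 hp).1
  have hp2 := (mem_product.1 hp).2
  have c1 := wcount D.M M0 p.1 p.2 w0 d hM0 (D.prime1 _ hp1).pos (D.prime2 _ hp2).pos
    (D.cop_12 _ _ hp1 hp2) (D.cop_M0_1 hM0 _ hp1) (D.cop_M0_2 hM0 _ hp2)
    (D.mid_dvd _ _ (D.l1_dvd _ hp1) (D.l2_dvd _ hp2))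
  rw [filter_filter]
  rw [c1]
  have t1 := pair_mean W a p.1 p.2 M0 D.M hW (D.prime1 _ hp1) (D.prime2 _ hp2)
    (D.lt _ hp1 _ hp2).1 (D.cop_W_1 hM0 hWM _ hp1) (D.cop_W_2 hM0 hWM _ hp2) hM0 hWM hMpos
    D.M0_dvd (D.S1 p.1) (D.k p.1) (D.S2 p.2) (D.k p.2) (D.hpos hc1 hc1' p.1 p.2 hp1 hp2) n0
  unfold I1 I2
  rw [t1]
  have hp1R : (p.1 : ℝ) ≠ 0 := by have := (D.prime1 _ hp1).pos; positivity
  have hp2R : (p.2 : ℝ) ≠ 0 := by have := (D.prime2 _ hp2).pos; positivity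
  have hWR : (W : ℝ) ≠ 0 := by positivity
  have hM0R : (M0 : ℝ) ≠ 0 := by positivity
  push_cast
  field_simp

include hc1 hc1' in
theorem mu_ge (hW : 0 < W) (h1 : 1 ≤ ∑ l ∈ D.L1, (1 : ℝ) / l) (h2 : 1 ≤ ∑ l ∈ D.L2, (1 : ℝ) / l) :
    (c1 / 200) ^ 2 / (W : ℝ) ^ 4 ≤ D.mu := by
  have hWR : (0 : ℝ) < W := by exact_mod_cast hW
  have hterm : ∀ p ∈ D.L1 ×ˢ D.L2, (1 / (p.1 : ℝ)) * (1 / (p.2 : ℝ)) *
      ((c1 / 200) ^ 2 / (W : ℝ) ^ 4) ≤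
      (1 / ((p.1 : ℝ) * p.2)) * ((((D.k p.1 * (W * M0) : ℕ) : ℝ) *
        ((D.k p.2 * (W * M0) : ℕ) : ℝ)) / ((W : ℝ) ^ 4 * (p.1 * p.2))) := by
    intro p hp
    have hp1 := (mem_product.1 hp).1
    have hp2 := (mem_product.1 hp).2
    have hp1R : (0 : ℝ) < p.1 := by exact_mod_cast (D.prime1 _ hp1).pos
    have hp2R : (0 : ℝ) < p.2 := by exact_mod_cast (D.prime2 _ hp2).pos
    have b1 := D.low1 _ hp1
    have b2 := D.low2 _ hp2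
    have b3 : (c1 / 200 * p.1) * (c1 / 200 * p.2) ≤ ((D.k p.1 * (W * M0) : ℕ) : ℝ) *
        ((D.k p.2 * (W * M0) : ℕ) : ℝ) := mul_le_mul b1 b2 (by positivity) (by positivity)
    have e : (1 / (p.1 : ℝ)) * (1 / (p.2 : ℝ)) * ((c1 / 200) ^ 2 / (W : ℝ) ^ 4) =
        (1 / ((p.1 : ℝ) * p.2)) * (((c1 / 200 * p.1) * (c1 / 200 * p.2)) /
          ((W : ℝ) ^ 4 * (p.1 * p.2))) := by
      field_simp
    rw [e]
    gcongr
  have hprod : ∑ p ∈ D.L1 ×ˢ D.L2, (1 / (p.1 : ℝ)) * (1 / (p.2 : ℝ)) *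
      ((c1 / 200) ^ 2 / (W : ℝ) ^ 4) =
      ((∑ l ∈ D.L1, (1 : ℝ) / l) * (∑ l ∈ D.L2, (1 : ℝ) / l)) *
        ((c1 / 200) ^ 2 / (W : ℝ) ^ 4) := by
    rw [← sum_mul, sum_mul_sum, sum_product]
  have h3 : 1 ≤ (∑ l ∈ D.L1, (1 : ℝ) / l) * (∑ l ∈ D.L2, (1 : ℝ) / l) := by nlinarith
  calc (c1 / 200) ^ 2 / (W : ℝ) ^ 4 = 1 * ((c1 / 200) ^ 2 / (W : ℝ) ^ 4) := by ring
    _ ≤ ((∑ l ∈ D.L1, (1 : ℝ) / l) * (∑ l ∈ D.L2, (1 : ℝ) / l)) *
        ((c1 / 200) ^ 2 / (W : ℝ) ^ 4) := mul_le_mul_of_nonneg_right h3 (by positivity)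
    _ ≤ D.mu := by
        rw [← hprod]
        exact sum_le_sum hterm

/-- sum of reciprocals of least common multiples of primes -/
theorem sum_lcm (L : Finset ℕ) (hL : ∀ l ∈ L, l.Prime) (K : ℝ)
    (hK : ∑ l ∈ L, (1 : ℝ) / l ≤ K) :
    ∑ l ∈ L, ∑ l' ∈ L, (1 : ℝ) / (Nat.lcm l l') ≤ K ^ 2 + K := by
  have h0 : 0 ≤ ∑ l ∈ L, (1 : ℝ) / l := sum_nonneg fun l _ => by positivity
  have hterm : ∀ l ∈ L, ∀ l' ∈ L, (1 : ℝ) / (Nat.lcm l l') ≤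
      (1 / (l : ℝ)) * (1 / (l' : ℝ)) + (if l = l' then (1 : ℝ) / l else 0) := by
    intro l hl l' hl'
    by_cases h : l = l'
    · subst h
      rw [if_pos rfl, Nat.lcm_self]
      have : 0 ≤ (1 / (l : ℝ)) * (1 / (l : ℝ)) := by positivity
      linarith
    · have hc : l.Coprime l' := (Nat.coprime_primes (hL l hl) (hL l' hl')).2 h
      rw [if_neg h, hc.lcm_eq_mul]
      push_cast
      rw [add_zero, div_mul_div_comm, one_mul]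
  calc ∑ l ∈ L, ∑ l' ∈ L, (1 : ℝ) / (Nat.lcm l l') ≤ ∑ l ∈ L, ∑ l' ∈ L,
        ((1 / (l : ℝ)) * (1 / (l' : ℝ)) + (if l = l' then (1 : ℝ) / l else 0)) :=
        sum_le_sum fun l hl => sum_le_sum fun l' hl' => hterm l hl l' hl'
    _ = (∑ l ∈ L, (1 : ℝ) / l) * (∑ l ∈ L, (1 : ℝ) / l) + ∑ l ∈ L, (1 : ℝ) / l := by
        simp only [sum_add_distrib]
        rw [sum_mul_sum]
        congr 1
        apply sum_congr rfl
        intro l hl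
        rw [sum_ite_eq, if_pos hl]
    _ ≤ K ^ 2 + K := by nlinarith

include hc1 hc1' in
theorem sq_Z (a d : ℕ) (hW : 0 < W) (hM0 : 0 < M0) (hWM : W ^ 2 ∣ M0) (K : ℝ)
    (hK1 : ∑ l ∈ D.L1, (1 : ℝ) / l ≤ K) (hK2 : ∑ l ∈ D.L2, (1 : ℝ) / l ≤ K) :
    avg D.M (fun w n => D.Z a d w n ^ 2) ≤ 40 * (K ^ 2 + K) ^ 2 := by
  have hMpos := D.M_pos hc1 hc1' hM0
  have hMR : (0 : ℝ) < D.M := by exact_mod_cast hMpos
  set P := D.L1 ×ˢ D.L2 with hP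
  set Y : ℕ × ℕ → ℕ → ℝ := fun p n => YY W a p.1 p.2 (D.I1 p.1) (D.I2 p.2) n with hY
  have hYsq : ∀ p ∈ P, ∑ n ∈ range D.M, Y p n ^ 2 ≤ 40 * D.M := by
    intro p hp
    have hp1 := (mem_product.1 hp).1
    have hp2 := (mem_product.1 hp).2
    have b1 := D.up1 _ hp1
    have b2 := D.up2 _ hp2
    have hp1R : (0 : ℝ) ≤ p.1 := Nat.cast_nonneg _
    have hp2R : (0 : ℝ) ≤ p.2 := Nat.cast_nonneg _
    have b1' : D.k p.1 * (W * M0) ≤ p.1 := by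
      have : ((D.k p.1 * (W * M0) : ℕ) : ℝ) ≤ p.1 := b1.trans (by nlinarith)
      exact_mod_cast this
    have b2' : D.k p.2 * (W * M0) ≤ p.2 := by
      have : ((D.k p.2 * (W * M0) : ℕ) : ℝ) ≤ p.2 := b2.trans (by nlinarith)
      exact_mod_cast this
    exact pair_sq W a p.1 p.2 D.M hW (D.prime1 _ hp1) (D.prime2 _ hp2) (D.lt _ hp1 _ hp2).1
      (D.cop_W_1 hM0 hWM _ hp1) (D.cop_W_2 hM0 hWM _ hp2) hMpos (D.S1 p.1) _ (D.S2 p.2) _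
      (Nat.mul_le_mul_right _ (D.mono _ hp1 _ hp2)) b1' b2' (D.lt _ hp1 _ hp2).2
      (fun s1 hs1 s2 hs2 => by
        have h3 := D.order hc1 hc1' p.1 p.2 s1 s2 hp1 hp2 hs1 hs2
        exact ⟨h3.1, h3.2.1, h3.2.2, D.qf_dvd p.1 p.2 s1 s2 hp1 hp2 hs1 hs2⟩)
  have hYY : ∀ p ∈ P, ∀ p' ∈ P, ∑ n ∈ range D.M, Y p n * Y p' n ≤ 40 * D.M := by
    intro p hp p' hp'
    calc ∑ n ∈ range D.M, Y p n * Y p' n ≤
          ∑ n ∈ range D.M, (1 / 2 * Y p n ^ 2 + 1 / 2 * Y p' n ^ 2) := by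
          apply sum_le_sum
          intro n _
          nlinarith [sq_nonneg (Y p n - Y p' n)]
      _ = 1 / 2 * ∑ n ∈ range D.M, Y p n ^ 2 + 1 / 2 * ∑ n ∈ range D.M, Y p' n ^ 2 := by
          rw [sum_add_distrib, mul_sum, mul_sum]
      _ ≤ 40 * D.M := by linarith [hYsq p hp, hYsq p' hp']
  -- expand
  have hexp : ∑ w ∈ range D.M, ∑ n ∈ range D.M, D.Z a d w n ^ 2 =
      ∑ p ∈ P, ∑ p' ∈ P, (((range D.M).filter (fun w => (p.1 ∣ w ∧ p.2 ∣ w + d) ∧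
        (p'.1 ∣ w ∧ p'.2 ∣ w + d))).card : ℝ) * ∑ n ∈ range D.M, Y p n * Y p' n := by
    have e1 : ∀ w n, D.Z a d w n ^ 2 = ∑ p ∈ P, ∑ p' ∈ P,
        (if (p.1 ∣ w ∧ p.2 ∣ w + d) ∧ (p'.1 ∣ w ∧ p'.2 ∣ w + d) then (1 : ℝ) else 0) *
          (Y p n * Y p' n) := by
      intro w n
      unfold Z
      rw [pow_two, sum_mul_sum]
      apply sum_congr rfl
      intro p _
      apply sum_congr rfl
      intro p' _
      by_cases h1 : p.1 ∣ w ∧ p.2 ∣ w + d <;> by_cases h2 : p'.1 ∣ w ∧ p'.2 ∣ w + d <;>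
        simp only [h1, h2, if_true, if_false, and_self, and_true, and_false, false_and,
          true_and, zero_mul, mul_zero, one_mul, hY]
    calc _ = ∑ w ∈ range D.M, ∑ p ∈ P, ∑ p' ∈ P,
        (if (p.1 ∣ w ∧ p.2 ∣ w + d) ∧ (p'.1 ∣ w ∧ p'.2 ∣ w + d) then (1 : ℝ) else 0) *
          ∑ n ∈ range D.M, Y p n * Y p' n := by
          apply sum_congr rfl
          intro w _
          rw [sum_congr rfl (fun n _ => e1 w n), sum_comm]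
          apply sum_congr rfl
          intro p _
          rw [sum_comm]
          apply sum_congr rfl
          intro p' _
          rw [mul_sum]
      _ = _ := by
          rw [sum_comm]
          apply sum_congr rfl
          intro p _
          rw [sum_comm]
          apply sum_congr rfl
          intro p' _
          rw [← sum_mul, sum_boole]
  have hcnt : ∀ p ∈ P, ∀ p' ∈ P, (((range D.M).filter (fun w => (p.1 ∣ w ∧ p.2 ∣ w + d) ∧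
        (p'.1 ∣ w ∧ p'.2 ∣ w + d))).card : ℝ) =
      (D.M : ℝ) * ((1 / (Nat.lcm p.1 p'.1 : ℝ)) * (1 / (Nat.lcm p.2 p'.2 : ℝ))) := by
    intro p hp p' hp'
    have hp1 := (mem_product.1 hp).1
    have hp2 := (mem_product.1 hp).2
    have hp1' := (mem_product.1 hp').1
    have hp2' := (mem_product.1 hp').2
    have hcop : Nat.Coprime (Nat.lcm p.1 p'.1) (Nat.lcm p.2 p'.2) := by
      apply Nat.Coprime.coprime_dvd_left (Nat.lcm_dvd_mul _ _)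
      apply Nat.Coprime.coprime_dvd_right (Nat.lcm_dvd_mul _ _)
      exact Nat.Coprime.mul_left
        (Nat.Coprime.mul_right (D.cop_12 _ _ hp1 hp2) (D.cop_12 _ _ hp1 hp2'))
        (Nat.Coprime.mul_right (D.cop_12 _ _ hp1' hp2) (D.cop_12 _ _ hp1' hp2'))
    have hl1 : 0 < Nat.lcm p.1 p'.1 := Nat.lcm_pos (D.prime1 _ hp1).pos (D.prime1 _ hp1').pos
    have hl2 : 0 < Nat.lcm p.2 p'.2 := Nat.lcm_pos (D.prime2 _ hp2).pos (D.prime2 _ hp2').pos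
    have c1 := wcount D.M 1 (Nat.lcm p.1 p'.1) (Nat.lcm p.2 p'.2) 0 d one_pos hl1 hl2
      hcop (Nat.coprime_one_left _) (Nat.coprime_one_left _)
      (D.mid_dvd' _ _ (Nat.lcm_dvd (D.l1_dvd _ hp1) (D.l1_dvd _ hp1'))
        (Nat.lcm_dvd (D.l2_dvd _ hp2) (D.l2_dvd _ hp2')))
    have e1 : (range D.M).filter (fun w => (p.1 ∣ w ∧ p.2 ∣ w + d) ∧
        (p'.1 ∣ w ∧ p'.2 ∣ w + d)) = (range D.M).filter (fun w => w ≡ 0 [MOD 1] ∧
          Nat.lcm p.1 p'.1 ∣ w ∧ Nat.lcm p.2 p'.2 ∣ w + d) := by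
      apply filter_congr
      intro w _
      constructor
      · rintro ⟨⟨b1, b2⟩, b3, b4⟩
        exact ⟨Nat.modEq_one, Nat.lcm_dvd b1 b3, Nat.lcm_dvd b2 b4⟩
      · rintro ⟨-, b1, b2⟩
        exact ⟨⟨(Nat.dvd_lcm_left _ _).trans b1, (Nat.dvd_lcm_left _ _).trans b2⟩,
          (Nat.dvd_lcm_right _ _).trans b1, (Nat.dvd_lcm_right _ _).trans b2⟩
    rw [e1, c1]
    have : (Nat.lcm p.1 p'.1 : ℝ) ≠ 0 := by positivity
    have : (Nat.lcm p.2 p'.2 : ℝ) ≠ 0 := by positivity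
    push_cast
    field_simp
  unfold avg
  rw [hexp, div_le_iff₀ (by positivity)]
  calc ∑ p ∈ P, ∑ p' ∈ P, (((range D.M).filter (fun w => (p.1 ∣ w ∧ p.2 ∣ w + d) ∧
        (p'.1 ∣ w ∧ p'.2 ∣ w + d))).card : ℝ) * ∑ n ∈ range D.M, Y p n * Y p' n
      ≤ ∑ p ∈ P, ∑ p' ∈ P, ((D.M : ℝ) * ((1 / (Nat.lcm p.1 p'.1 : ℝ)) *
        (1 / (Nat.lcm p.2 p'.2 : ℝ)))) * (40 * D.M) := by
        apply sum_le_sum
        intro p hp
        apply sum_le_sum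
        intro p' hp'
        rw [hcnt p hp p' hp']
        exact mul_le_mul_of_nonneg_left (hYY p hp p' hp') (by positivity)
    _ = 40 * (D.M : ℝ) ^ 2 * ((∑ l ∈ D.L1, ∑ l' ∈ D.L1, (1 : ℝ) / (Nat.lcm l l')) *
          (∑ l ∈ D.L2, ∑ l' ∈ D.L2, (1 : ℝ) / (Nat.lcm l l'))) := by
        have e2 : (∑ l ∈ D.L1, ∑ l' ∈ D.L1, (1 : ℝ) / (Nat.lcm l l')) *
          (∑ l ∈ D.L2, ∑ l' ∈ D.L2, (1 : ℝ) / (Nat.lcm l l')) =
          ∑ p ∈ P, ∑ p' ∈ P, (1 / (Nat.lcm p.1 p'.1 : ℝ)) *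
        (1 / (Nat.lcm p.2 p'.2 : ℝ)) := by
          rw [sum_mul_sum, hP, sum_product]
          apply sum_congr rfl
          intro l _
          apply sum_congr rfl
          intro l' _
          rw [sum_mul_sum, sum_product]
        rw [e2, mul_sum]
        apply sum_congr rfl
        intro p _
        rw [mul_sum]
        apply sum_congr rfl
        intro p' _
        ring
    _ ≤ 40 * (D.M : ℝ) ^ 2 * ((K ^ 2 + K) * (K ^ 2 + K)) := by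
        apply mul_le_mul_of_nonneg_left _ (by positivity)
        have h1 := sum_lcm D.L1 D.prime1 K hK1
        have h2 := sum_lcm D.L2 D.prime2 K hK2
        apply mul_le_mul h1 h2 _ _
        · exact sum_nonneg fun l _ => sum_nonneg fun l' _ => by positivity
        · exact le_trans (sum_nonneg fun l _ => sum_nonneg fun l' _ => by positivity) h1
    _ = 40 * (K ^ 2 + K) ^ 2 * (D.M : ℝ) ^ 2 := by ring

end Dat

/-- existence of the data -/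
theorem exists_dat (c1 : ℝ) (hc1 : 0 < c1) (hc1' : c1 ≤ 1) (W : ℕ) (hW : 0 < W) (K : ℝ)
    (hK : ∀ R0 : ℕ, ∃ L1 L2 : Finset ℕ,
      (∀ l ∈ L1, l.Prime ∧ R0 < l) ∧ (∀ l ∈ L2, l.Prime ∧ R0 < l) ∧
      (∀ l ∈ L1, ∀ l' ∈ L2, l < l' ∧ Real.log l' ≤ l) ∧
      1 ≤ ∑ l ∈ L1, (1 : ℝ) / l ∧ ∑ l ∈ L1, (1 : ℝ) / l ≤ K ∧
      1 ≤ ∑ l ∈ L2, (1 : ℝ) / l ∧ ∑ l ∈ L2, (1 : ℝ) / l ≤ K)
    (φ : ℝ) (hφ0 : 0 ≤ φ) (hφ1 : φ ≤ 1) (M0 : ℕ) (hM0 : 0 < M0) :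
    ∃ D : Dat W M0 c1 φ, 1 ≤ ∑ l ∈ D.L1, (1 : ℝ) / l ∧ ∑ l ∈ D.L1, (1 : ℝ) / l ≤ K ∧
      1 ≤ ∑ l ∈ D.L2, (1 : ℝ) / l ∧ ∑ l ∈ D.L2, (1 : ℝ) / l ≤ K := by
  have hm : 0 < W * M0 := by positivity
  obtain ⟨R1, hR1⟩ := exists_windows c1 φ hc1 hc1' hφ0 hφ1 (W * M0) hm
  obtain ⟨L1, L2, h1, h2, h3, h4, h5, h6, h7⟩ := hK (max R1 M0)
  have hch : ∀ l : ℕ, ∃ S T : ℕ, R1 ≤ l →
      c1 / 200 * l ≤ (⌊c1 / 100 * l / (W * M0 : ℕ)⌋₊ * (W * M0) : ℕ) ∧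
      ((⌊c1 / 100 * l / (W * M0 : ℕ)⌋₊ * (W * M0) : ℕ) : ℝ) ≤ c1 / 100 * l ∧
      (∀ s ∈ Ico S (S + ⌊c1 / 100 * l / (W * M0 : ℕ)⌋₊ * (W * M0)),
        c1 * (36 / 100) < (s : ℝ) / l - φ ∧ (s : ℝ) / l - φ < c1 * (39 / 100) ∧ ¬ l ∣ s) ∧
      (∀ s ∈ Ico T (T + ⌊c1 / 100 * l / (W * M0 : ℕ)⌋₊ * (W * M0)),
        c1 * (11 / 100) < (s : ℝ) / l - φ ∧ (s : ℝ) / l - φ < c1 * (14 / 100)) := by
    intro l
    by_cases hl : R1 ≤ l
    · obtain ⟨S, T, h⟩ := hR1 l hl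
      exact ⟨S, T, fun _ => h⟩
    · exact ⟨0, 0, fun h => absurd h hl⟩
  choose Sf Tf hST using hch
  have b1 : ∀ l ∈ L1, R1 ≤ l := fun l hl => by have := (h1 l hl).2; omega
  have b2 : ∀ l ∈ L2, R1 ≤ l := fun l hl => by have := (h2 l hl).2; omega
  refine ⟨{ L1 := L1, L2 := L2, S1 := Sf, S2 := Tf
            k := fun l => ⌊c1 / 100 * l / (W * M0 : ℕ)⌋₊
            prime1 := fun l hl => (h1 l hl).1
            prime2 := fun l hl => (h2 l hl).1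
            big1 := fun l hl => by have := (h1 l hl).2; omega
            big2 := fun l hl => by have := (h2 l hl).2; omega
            lt := h3
            mono := ?_
            low1 := fun l hl => (hST l (b1 l hl)).1
            low2 := fun l hl => (hST l (b2 l hl)).1
            up1 := fun l hl => (hST l (b1 l hl)).2.1
            up2 := fun l hl => (hST l (b2 l hl)).2.1
            win1 := fun l hl => (hST l (b1 l hl)).2.2.1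
            win2 := fun l hl => (hST l (b2 l hl)).2.2.2 }, h4, h5, h6, h7⟩
  intro l hl l' hl'
  apply Nat.floor_mono
  have : (l : ℝ) ≤ l' := by exact_mod_cast (h3 l hl l' hl').1.le
  gcongr

end BScM

open BScM in
/-- One scale. -/
theorem scale (c1 : ℝ) (hc1 : 0 < c1) (hc1' : c1 ≤ 1) (W a : ℕ) (hW : 0 < W) :
    ∃ p0 K0 : ℝ, 0 < p0 ∧ 0 < K0 ∧ ∀ (d : ℕ) (φ : ℝ), 0 ≤ φ → φ ≤ 1 →
      ∀ M0 : ℕ, 0 < M0 → W ^ 2 ∣ M0 →
      ∃ (M : ℕ) (S : Finset Cfg) (Z : ℕ → ℕ → ℝ), M0 ∣ M ∧ Supp c1 φ W a d M S Z ∧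
        p0 ≤ avg M Z ∧ avg M (fun w n => Z w n ^ 2) ≤ K0 ∧
        ∀ w0 n0 : ℕ,
          ∑ w ∈ (range M).filter (fun w => w ≡ w0 [MOD M0]),
            ∑ n ∈ (range M).filter (fun n => n ≡ n0 [MOD M0]), Z w n =
          ((M : ℝ) / M0) ^ 2 * avg M Z := by
  obtain ⟨K, hK1, hK⟩ := exists_primes
  have hWR : (0 : ℝ) < W := by exact_mod_cast hW
  refine ⟨(c1 / 200) ^ 2 / (W : ℝ) ^ 4, 40 * (K ^ 2 + K) ^ 2, by positivity, by positivity, ?_⟩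
  intro d φ hφ0 hφ1 M0 hM0 hWM
  obtain ⟨D, h1, h2, h3, h4⟩ := exists_dat c1 hc1 hc1' W hW K hK φ hφ0 hφ1 M0 hM0
  refine ⟨D.M, D.S, D.Z a d, D.M0_dvd, D.supp hc1 hc1' a d hW hM0 hWM, ?_,
    D.sq_Z hc1 hc1' a d hW hM0 hWM K h2 h4, ?_⟩
  · rw [D.avg_Z hc1 hc1' a d hW hM0 hWM]
    exact D.mu_ge hc1 hc1' hW h1 h3
  · intro w0 n0
    rw [D.avg_Z hc1 hc1' a d hW hM0 hWM]
    exact D.cond_Z hc1 hc1' a d hW hM0 hWM w0 n0

end Pool.Agent.MR
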