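import Pool.Agent.MR.BDefs
import Pool.Agent.H33.Exp.W1

set_option autoImplicit false

open Finset

namespace Pool.Agent.MR

theorem bw_sum_classes (F : ℕ → ℂ) (U V M r : ℕ) (hM : 0 < M) (hV : M ≤ V) :
    ∑ w ∈ (Icc U V).filter (fun w => w ≡ r [MOD M]), F w
      = ∑ k ∈ Ico ((U - r % M + (M - 1)) / M) ((V - r % M) / M + 1), F (r % M + M * k) := by
  have hr : r % M < M := Nat.mod_lt _ hM
  symm
  apply Finset.sum_nbij (fun k => r % M + M * k)
  · intro k hk
    rw [mem_Ico] at hk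
    rw [mem_filter, mem_Icc]
    obtain ⟨h1, h2⟩ := hk
    have h3 : (U - r % M + (M - 1)) / M < k + 1 := by omega
    rw [Nat.div_lt_iff_lt_mul hM] at h3
    have h4 : k ≤ (V - r % M) / M := by omega
    rw [Nat.le_div_iff_mul_le hM] at h4
    have e1 : (k + 1) * M = M * k + M := by ring
    have e2 : k * M = M * k := by ring
    refine ⟨⟨by omega, by omega⟩, ?_⟩
    unfold Nat.ModEq
    simp
  · intro k _ k' _ h
    have : M * k = M * k' := by
      simp only at h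
      omega
    exact Nat.eq_of_mul_eq_mul_left hM this
  · intro w hw
    rw [mem_coe, mem_filter, mem_Icc] at hw
    obtain ⟨⟨h1, h2⟩, h3⟩ := hw
    refine ⟨w / M, ?_, ?_⟩
    · rw [mem_coe, mem_Ico]
      have h4 : w % M = r % M := h3
      have h5 := Nat.div_add_mod w M
      constructor
      · have : (U - r % M + (M - 1)) / M < w / M + 1 := by
          rw [Nat.div_lt_iff_lt_mul hM]
          have e1 : (w / M + 1) * M = M * (w / M) + M := by ring
          omega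
        omega
      · have : w / M ≤ (V - r % M) / M := by
          rw [Nat.le_div_iff_mul_le hM]
          have e2 : w / M * M = M * (w / M) := by ring
          omega
        omega
    · have h4 : w % M = r % M := h3
      simp only
      rw [← h4]
      exact Nat.mod_add_div w M
  · intro k _
    rfl

/-- Weyl sums of `h x / (M w)` over `w ≡ r` modulo `M` are `o(√x)`. (Use `WProp` of
`Pool.Agent.H33.Exp.W` with the class `[[r/M]]`, or van der Corput.) -/
theorem weyl_small (σ : ℝ) (hσ : 0 < σ) (M : ℕ) (hM : 0 < M) (h : ℤ) (hh : h ≠ 0) (r : ℕ)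
    (ε : ℝ) (hε : 0 < ε) :
    ∃ X0 : ℝ, ∀ x : ℝ, X0 ≤ x →
      ‖∑ w ∈ (wset x σ).filter (fun w => w ≡ r [MOD M]),
        Pool.Agent.H33.ee (h * (x / (M * w)))‖ ≤ ε * (√x / σ) := by
  open Pool.Agent.H33 in
  obtain ⟨η, hη, ev⟩ := W_all 1 1 1 5 le_rfl le_rfl (by norm_num)
  have hMR : (0 : ℝ) < M := by exact_mod_cast hM
  have hM1 : (1 : ℝ) ≤ M := by exact_mod_cast hM
  set c0 : ℝ := |(h : ℝ)| * 4 * σ ^ 2 with hc0
  have hhpos : 0 < |(h : ℝ)| := abs_pos.mpr (by exact_mod_cast hh)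
  have hc0pos : 0 < c0 := by positivity
  have e1 := ev_rpow c0⁻¹ (show (17 / 16 : ℝ) < 2 by norm_num)
  have e2 := ev_rpow c0 (show (2 : ℝ) < 1 + 7 / 8 + 3 / 4 by norm_num)
  have e3 := ev_rpow (1 / (2 * M * ε)) (show (1 - η : ℝ) < 1 by linarith)
  have ev2 := ((ev.and e1).and e2).and e3
  rw [Filter.eventually_atTop] at ev2
  obtain ⟨X1, hX1⟩ := ev2
  set X2 : ℝ := max X1 4 with hX2
  refine ⟨(X2 * (2 * M * σ)) ^ 2, ?_⟩
  intro x hx
  set N0 : ℝ := √x / σ with hN0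
  set X : ℝ := N0 / (2 * M) with hX
  have hX2pos : 0 ≤ X2 := le_trans (by norm_num) (le_max_right X1 4)
  have hxpos : 0 < x := by
    refine lt_of_lt_of_le ?_ hx
    have : 0 < X2 := lt_of_lt_of_le (by norm_num) (le_max_right X1 4)
    positivity
  have hXge : X2 ≤ X := by
    have h1 : X2 * (2 * M * σ) ≤ √x := by
      apply Real.le_sqrt_of_sq_le hx
    rw [hX, hN0, le_div_iff₀ (by positivity), le_div_iff₀ hσ]
    linarith
  have hX4 : 4 ≤ X := (le_max_right X1 4).trans hXge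
  have hX0 : 0 < X := by linarith
  obtain ⟨⟨⟨hW, h1⟩, h2⟩, h3⟩ := hX1 X ((le_max_left _ _).trans hXge)
  have hN0X : N0 = 2 * M * X := by
    rw [hX]
    field_simp
  have hN0M : (M : ℝ) * 8 ≤ N0 := by
    rw [hN0X]
    nlinarith
  have hx2 : x = (N0 * σ) ^ 2 := by
    rw [hN0, div_mul_cancel₀ _ hσ.ne', Real.sq_sqrt hxpos.le]
  -- the range
  have hV : M ≤ ⌊2 * N0⌋₊ := by
    apply Nat.le_floor
    linarith
  have hws : wset x σ = Icc ⌈N0⌉₊ ⌊2 * N0⌋₊ := rfl
  rw [hws, bw_sum_classes _ _ _ M r hM hV]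
  set a := (⌈N0⌉₊ - r % M + (M - 1)) / M with ha
  set b := (⌊2 * N0⌋₊ - r % M) / M + 1 with hb
  have hr : r % M < M := Nat.mod_lt _ hM
  have hrR : ((r % M : ℕ) : ℝ) < M := by exact_mod_cast hr
  set ρ : ℝ := ((r % M : ℕ) : ℝ) / M with hρ
  have hρ0 : 0 ≤ ρ := by positivity
  have hρ1 : ρ ≤ 1 := by
    rw [hρ, div_le_one hMR]
    exact hrR.le
  have haX : X ≤ a := by
    have h4 : ⌈N0⌉₊ - r % M + (M - 1) < M * (a + 1) := by
      have := Nat.lt_mul_div_succ (⌈N0⌉₊ - r % M + (M - 1)) hM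
      rw [ha]
      exact this
    have h5 : ⌈N0⌉₊ ≤ M * (a + 1) + M := by omega
    have h6 : (⌈N0⌉₊ : ℝ) ≤ M * (a + 1) + M := by exact_mod_cast h5
    have h7 := Nat.le_ceil N0
    have h8 : 2 * M * X ≤ M * (a + 1) + M := by linarith
    have h9 : 2 * X ≤ a + 2 := by
      have : M * (2 * X) ≤ M * ((a : ℝ) + 2) := by linarith
      exact le_of_mul_le_mul_left this hMR
    linarith
  have hbX : (b : ℝ) ≤ ((5 : ℕ) : ℝ) * X := by
    have h4 : (⌊2 * N0⌋₊ - r % M) / M ≤ ⌊2 * N0⌋₊ / M := Nat.div_le_div_right (Nat.sub_le _ _)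
    have h5 : ((⌊2 * N0⌋₊ / M : ℕ) : ℝ) ≤ (⌊2 * N0⌋₊ : ℝ) / M := Nat.cast_div_le
    have h6 : (⌊2 * N0⌋₊ : ℝ) ≤ 2 * N0 := Nat.floor_le (by linarith)
    have h7 : (⌊2 * N0⌋₊ : ℝ) / M ≤ 4 * X := by
      rw [div_le_iff₀ hMR]
      have h9 : 2 * N0 = 4 * X * M := by
        rw [hN0X]
        ring
      linarith
    have h8 : (b : ℝ) ≤ ((⌊2 * N0⌋₊ / M : ℕ) : ℝ) + 1 := by
      rw [hb]
      exact_mod_cast Nat.add_le_add_right h4 1
    push_cast
    linarith
  have hcls : Cls 1 1 ρ [[ρ]] := by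
    refine ⟨rfl, ?_⟩
    intro l hl
    rw [List.mem_singleton] at hl
    subst hl
    refine ⟨rfl, ?_⟩
    intro a ha
    rw [List.mem_singleton] at ha
    subst ha
    exact ⟨hρ0, le_rfl⟩
  have hNN : |(h : ℝ)| * x / M ^ 2 = c0 * X ^ (2 : ℝ) := by
    rw [hx2, hN0X, hc0]
    have : X ^ (2 : ℝ) = X ^ 2 := by
      rw [← Real.rpow_natCast]
      norm_num
    rw [this]
    field_simp
    ring
  have hmain := hW [[ρ]] ρ hρ0 (by push_cast; linarith) hcls (|(h : ℝ)| * x / M ^ 2)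
    (by
      rw [hNN]
      have e4 : ((1 : ℕ) : ℝ) + 1 / 16 = 17 / 16 := by norm_num
      rw [e4]
      rwa [inv_mul_le_iff₀ hc0pos] at h1)
    (by
      rw [hNN]
      have e4 : ((1 : ℕ) : ℝ) + 7 / 8 + 3 / 4 * ((1 : ℕ) : ℝ) = 1 + 7 / 8 + 3 / 4 := by norm_num
      rw [e4]
      exact h2) a b haX hbX
  have hfin : X ^ (1 - η) ≤ ε * N0 := by
    rw [Real.rpow_one] at h3
    have h4 : X ^ (1 - η) ≤ X * (2 * M * ε) := by
      rwa [one_div, inv_mul_le_iff₀ (by positivity), mul_comm] at h3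
    rw [hN0X]
    linarith
  have hgS : ∀ k : ℕ, |(h : ℝ)| * x / M ^ 2 * gS [[ρ]] k
      = |(h : ℝ)| * (x / (M * ((r % M + M * k : ℕ) : ℝ))) := by
    intro k
    have e5 : gS [[ρ]] (k : ℝ) = ((k : ℝ) + ρ)⁻¹ := by
      simp [gS, pInv]
    have e6 : ((r % M + M * k : ℕ) : ℝ) = M * ((k : ℝ) + ρ) := by
      rw [hρ]
      push_cast
      field_simp
      ring
    rw [e5, e6]
    rcases eq_or_ne ((k : ℝ) + ρ) 0 with h0 | h0
    · rw [h0]
      simp
    · field_simp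
  refine le_trans (le_of_eq ?_) (hmain.trans hfin)
  rcases le_or_gt 0 h with hs | hs
  · congr 1
    apply sum_congr rfl
    intro k _
    rw [hgS k, abs_of_nonneg (by exact_mod_cast hs)]
  · rw [← norm_sum_ee_neg]
    congr 1
    apply sum_congr rfl
    intro k _
    rw [hgS k, abs_of_neg (by exact_mod_cast hs)]
    congr 1
    ring

end Pool.Agent.MR
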