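import Pool.Agent.MR.PSmooth

set_option autoImplicit false

open Finset MeasureTheory

namespace Pool.Agent.MR

namespace PSharpAux

theorem ge_nonneg (ε : ℝ) (hε : 0 < ε) (x : ℝ) : 0 ≤ ge ε x := by
  unfold ge; positivity

theorem ge_cont (ε : ℝ) : Continuous (ge ε) := by
  unfold ge; fun_prop

theorem ge_eq (ε : ℝ) (_hε : 0 < ε) (x : ℝ) :
    ge ε x = (1 / (ε * √Real.pi)) * Real.exp (-(1 / ε ^ 2) * x ^ 2) := by
  unfold ge
  have : -(x / ε) ^ 2 = -(1 / ε ^ 2) * x ^ 2 := by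
    rw [div_pow]; ring
  rw [this]; ring

theorem ge_integrable (ε : ℝ) (hε : 0 < ε) : Integrable (ge ε) := by
  have h := (integrable_exp_neg_mul_sq (b := 1 / ε ^ 2) (by positivity)).const_mul
    (1 / (ε * √Real.pi))
  exact h.congr (Filter.Eventually.of_forall fun x => (ge_eq ε hε x).symm)

theorem ge_integral (ε : ℝ) (hε : 0 < ε) : ∫ x, ge ε x = 1 := by
  have h1 : (fun x => ge ε x) =
      fun x => (1 / (ε * √Real.pi)) * Real.exp (-(1 / ε ^ 2) * x ^ 2) := by
    funext x; exact ge_eq ε hε x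
  rw [h1, integral_const_mul, integral_gaussian]
  have h2 : √(Real.pi / (1 / ε ^ 2)) = ε * √Real.pi := by
    rw [div_div_eq_mul_div, div_one, mul_comm, Real.sqrt_mul (by positivity),
      Real.sqrt_sq hε.le]
  rw [h2]
  have : ε * √Real.pi ≠ 0 := by positivity
  field_simp

theorem tail (ε : ℝ) (hε : 0 < ε) (δ : ℝ) (hδ : 0 < δ) :
    ∫ x in {x : ℝ | δ ≤ |x|}, ge ε x ≤ 2 * Real.exp (-(δ ^ 2 / (2 * ε ^ 2))) := by
  have hms : MeasurableSet {x : ℝ | δ ≤ |x|} := measurableSet_le measurable_const (by fun_prop)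
  set c : ℝ := (1 / (ε * √Real.pi)) * Real.exp (-(δ ^ 2 / (2 * ε ^ 2))) with hc
  have hb : (0 : ℝ) < 1 / (2 * ε ^ 2) := by positivity
  have hint : Integrable (fun x : ℝ => c * Real.exp (-(1 / (2 * ε ^ 2)) * x ^ 2)) :=
    (integrable_exp_neg_mul_sq hb).const_mul c
  have h1 : ∫ x in {x : ℝ | δ ≤ |x|}, ge ε x ≤
      ∫ x in {x : ℝ | δ ≤ |x|}, c * Real.exp (-(1 / (2 * ε ^ 2)) * x ^ 2) := by
    apply setIntegral_mono_on (ge_integrable ε hε).integrableOn hint.integrableOn hms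
    intro x hx
    simp only [Set.mem_ofPred_eq] at hx
    rw [ge_eq ε hε, hc, mul_assoc, ← Real.exp_add]
    apply mul_le_mul_of_nonneg_left _ (by positivity)
    apply Real.exp_le_exp.mpr
    have hx2 : δ ^ 2 ≤ x ^ 2 := by
      rw [← sq_abs x]; exact pow_le_pow_left₀ hδ.le hx 2
    have : -(1 / ε ^ 2) * x ^ 2 = -(x ^ 2 / (2 * ε ^ 2)) + -(1 / (2 * ε ^ 2)) * x ^ 2 := by
      field_simp; ring
    rw [this]
    have : δ ^ 2 / (2 * ε ^ 2) ≤ x ^ 2 / (2 * ε ^ 2) := by gcongr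
    linarith
  refine h1.trans ?_
  have h2 : ∫ x in {x : ℝ | δ ≤ |x|}, c * Real.exp (-(1 / (2 * ε ^ 2)) * x ^ 2) ≤
      ∫ x, c * Real.exp (-(1 / (2 * ε ^ 2)) * x ^ 2) := by
    apply setIntegral_le_integral hint
    exact Filter.Eventually.of_forall fun x => by
      have : 0 ≤ c := by rw [hc]; positivity
      simp only [Pi.zero_apply]; positivity
  refine h2.trans ?_
  rw [integral_const_mul, integral_gaussian]
  have h3 : √(Real.pi / (1 / (2 * ε ^ 2))) = √2 * (ε * √Real.pi) := by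
    rw [div_div_eq_mul_div, div_one, show Real.pi * (2 * ε ^ 2) = 2 * (ε ^ 2 * Real.pi) by ring,
      Real.sqrt_mul (by norm_num), Real.sqrt_mul (by positivity), Real.sqrt_sq hε.le]
  rw [h3, hc]
  have hne : ε * √Real.pi ≠ 0 := by positivity
  have h4 : 1 / (ε * √Real.pi) * Real.exp (-(δ ^ 2 / (2 * ε ^ 2))) * (√2 * (ε * √Real.pi)) =
      √2 * Real.exp (-(δ ^ 2 / (2 * ε ^ 2))) := by
    field_simp
  rw [h4]
  have h5 : √2 ≤ 2 := by
    rw [Real.sqrt_le_left (by norm_num)]; norm_num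
  exact mul_le_mul_of_nonneg_right h5 (Real.exp_pos _).le

/-- the smoothed indicator -/
noncomputable def ww (ε y : ℝ) : ℝ := ∫ x in Set.Ioc 0 (Real.log 3), ge ε (y - x)

theorem log3_pos : 0 < Real.log 3 := Real.log_pos (by norm_num)

theorem log3_lt : Real.log 3 < 2 := by
  rw [Real.log_lt_iff_lt_exp (by norm_num)]
  have := Real.add_one_le_exp (2 : ℝ)
  have h1 := Real.exp_one_gt_d9
  have : Real.exp 2 = Real.exp 1 * Real.exp 1 := by rw [← Real.exp_add]; norm_num
  rw [this]; nlinarith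

theorem ww_eq (ε y : ℝ) : ww ε y = ∫ x in Set.Ioc (y - Real.log 3) y, ge ε x := by
  unfold ww
  rw [← intervalIntegral.integral_of_le log3_pos.le,
    ← intervalIntegral.integral_of_le (by linarith [log3_pos])]
  rw [intervalIntegral.integral_comp_sub_left (fun x => ge ε x) y]
  simp

theorem ww_nonneg (ε : ℝ) (hε : 0 < ε) (y : ℝ) : 0 ≤ ww ε y := by
  unfold ww
  exact integral_nonneg fun x => ge_nonneg ε hε _

theorem ww_le_one (ε : ℝ) (hε : 0 < ε) (y : ℝ) : ww ε y ≤ 1 := by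
  rw [ww_eq, ← ge_integral ε hε]
  exact setIntegral_le_integral (ge_integrable ε hε)
    (Filter.Eventually.of_forall fun x => ge_nonneg ε hε x)

theorem ww_ge (ε : ℝ) (hε : 0 < ε) (δ : ℝ) (hδ : 0 < δ) (y : ℝ) (h1 : δ ≤ y)
    (h2 : y ≤ Real.log 3 - δ) : 1 - 2 * Real.exp (-(δ ^ 2 / (2 * ε ^ 2))) ≤ ww ε y := by
  rw [ww_eq]
  have h3 := integral_add_compl (s := Set.Ioc (y - Real.log 3) y) measurableSet_Ioc
    (ge_integrable ε hε)
  rw [ge_integral ε hε] at h3
  have h4 : ∫ x in (Set.Ioc (y - Real.log 3) y)ᶜ, ge ε x ≤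
      ∫ x in {x : ℝ | δ ≤ |x|}, ge ε x := by
    apply setIntegral_mono_set (ge_integrable ε hε).integrableOn
    · exact Filter.Eventually.of_forall fun x => ge_nonneg ε hε x
    · apply Filter.Eventually.of_forall
      intro x hx
      change x ∈ {x : ℝ | δ ≤ |x|}
      simp only [Set.mem_ofPred_eq]
      have hx' : x ∉ Set.Ioc (y - Real.log 3) y := hx
      simp only [Set.mem_Ioc, not_and_or, not_lt, not_le] at hx'
      rcases hx' with h | h
      · rw [le_abs]; right; linarith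
      · rw [le_abs]; left; linarith
  have h5 := tail ε hε δ hδ
  linarith

theorem ge_shift (ε : ℝ) (hε : 0 < ε) (Y : ℝ) (hY : 0 < Y) (m : ℕ) (hm : 1 ≤ m) :
    ge ε (Real.log m - Real.log Y) = Y * Real.exp (ε ^ 2 / 4) * ((1 / (m : ℝ)) *
      ge ε (Real.log m - Real.log (Y * Real.exp (ε ^ 2 / 2)))) := by
  have hm0 : (0 : ℝ) < m := by exact_mod_cast hm
  have h1 : Real.log (Y * Real.exp (ε ^ 2 / 2)) = Real.log Y + ε ^ 2 / 2 := by
    rw [Real.log_mul hY.ne' (Real.exp_pos _).ne', Real.log_exp]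
  rw [h1]
  have h2 : Y * (1 / (m : ℝ)) = Real.exp (Real.log Y - Real.log m) := by
    rw [Real.exp_sub, Real.exp_log hY, Real.exp_log hm0]; ring
  have h3 : Y * Real.exp (ε ^ 2 / 4) * ((1 / (m : ℝ)) *
      ge ε (Real.log m - (Real.log Y + ε ^ 2 / 2))) =
      (Y * (1 / (m : ℝ))) * Real.exp (ε ^ 2 / 4) *
        ge ε (Real.log m - (Real.log Y + ε ^ 2 / 2)) := by ring
  rw [h3, h2, ge_eq ε hε, ge_eq ε hε]
  rw [show Real.exp (Real.log Y - Real.log m) * Real.exp (ε ^ 2 / 4) *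
      (1 / (ε * √Real.pi) * Real.exp (-(1 / ε ^ 2) *
        (Real.log m - (Real.log Y + ε ^ 2 / 2)) ^ 2)) =
      1 / (ε * √Real.pi) * (Real.exp (Real.log Y - Real.log m) * Real.exp (ε ^ 2 / 4) *
        Real.exp (-(1 / ε ^ 2) * (Real.log m - (Real.log Y + ε ^ 2 / 2)) ^ 2)) by ring]
  rw [← Real.exp_add, ← Real.exp_add]
  congr 2
  field_simp
  ring

theorem ge_dom (ε : ℝ) (hε : 0 < ε) (y x : ℝ) (h0 : 0 ≤ x) (h3 : x ≤ Real.log 3) :
    ge ε (y - x) ≤ (2 * Real.exp (4 / ε ^ 2)) * ge (√2 * ε) y := by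
  rw [ge_eq ε hε, ge_eq (√2 * ε) (by positivity)]
  have h2 : (√2 * ε) ^ 2 = 2 * ε ^ 2 := by rw [mul_pow, Real.sq_sqrt (by norm_num)]
  rw [h2]
  have hx2 : x ^ 2 ≤ 4 := by nlinarith [log3_lt]
  have h4 : Real.exp (-(1 / ε ^ 2) * (y - x) ^ 2) ≤
      Real.exp (4 / ε ^ 2) * Real.exp (-(1 / (2 * ε ^ 2)) * y ^ 2) := by
    rw [← Real.exp_add]
    apply Real.exp_le_exp.mpr
    have h5 : 4 / ε ^ 2 + -(1 / (2 * ε ^ 2)) * y ^ 2 - -(1 / ε ^ 2) * (y - x) ^ 2 =
        (1 / ε ^ 2) * (4 - y ^ 2 / 2 + (y - x) ^ 2) := by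
      field_simp
      ring
    have h6 : 0 ≤ (1 / ε ^ 2) * (4 - y ^ 2 / 2 + (y - x) ^ 2) := by
      apply mul_nonneg (by positivity)
      nlinarith [sq_nonneg (y - 2 * x)]
    linarith
  have h7 : (1 / (ε * √Real.pi)) ≤ 2 * (1 / (√2 * ε * √Real.pi)) := by
    have h8 : 2 * (1 / (√2 * ε * √Real.pi)) = (2 / √2) * (1 / (ε * √Real.pi)) := by
      field_simp
    rw [h8]
    have h9 : (1 : ℝ) ≤ 2 / √2 := by
      rw [le_div_iff₀ (by positivity), one_mul]
      rw [Real.sqrt_le_left (by norm_num)]; norm_num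
    have : (0 : ℝ) < 1 / (ε * √Real.pi) := by positivity
    nlinarith
  calc 1 / (ε * √Real.pi) * Real.exp (-(1 / ε ^ 2) * (y - x) ^ 2)
      ≤ (2 * (1 / (√2 * ε * √Real.pi))) *
        (Real.exp (4 / ε ^ 2) * Real.exp (-(1 / (2 * ε ^ 2)) * y ^ 2)) := by
        apply mul_le_mul h7 h4 (Real.exp_pos _).le (by positivity)
    _ = _ := by ring

/-- `1` for `m ≥ 1`, `0` for `m = 0` -/
noncomputable def uu (m : ℕ) : ℝ := (m : ℝ) * (1 / (m : ℝ))

theorem uu_pos (m : ℕ) (hm : 1 ≤ m) : uu m = 1 := by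
  unfold uu
  have : (m : ℝ) ≠ 0 := by positivity
  field_simp

theorem uu_zero : uu 0 = 0 := by simp [uu]

theorem uu_nonneg (m : ℕ) : 0 ≤ uu m := by unfold uu; positivity

theorem uu_le (m : ℕ) : uu m ≤ 1 := by
  rcases Nat.eq_zero_or_pos m with h | h
  · rw [h, uu_zero]; norm_num
  · rw [uu_pos m h]

theorem summable_dom (ε : ℝ) (hε : 0 < ε) (M : ℝ) (hM : 0 < M) :
    Summable (fun m : ℕ => uu m * ge (√2 * ε) (Real.log m - Real.log M)) := by
  have h := summable_ge (√2 * ε) (by positivity) M hM (fun m => (m : ℂ)) 1 1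
    (fun n _ => by simp)
  have h2 : (fun n : ℕ => (n : ℂ) * (1 / (n : ℂ)) *
      (ge (√2 * ε) (Real.log n - Real.log M) : ℂ)) =
      fun n : ℕ => ((uu n * ge (√2 * ε) (Real.log n - Real.log M) : ℝ) : ℂ) := by
    funext n; simp [uu]
  rw [h2] at h
  exact_mod_cast h

theorem ww_dom (ε : ℝ) (hε : 0 < ε) (y : ℝ) :
    ww ε y ≤ (4 * Real.exp (4 / ε ^ 2)) * ge (√2 * ε) y := by
  unfold ww
  have h1 : ∫ x in Set.Ioc 0 (Real.log 3), ge ε (y - x) ≤
      ∫ x in Set.Ioc 0 (Real.log 3), (2 * Real.exp (4 / ε ^ 2)) * ge (√2 * ε) y := by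
    apply setIntegral_mono_on
    · exact ((ge_cont ε).comp (continuous_const.sub continuous_id)).integrableOn_Ioc
    · exact (continuous_const).integrableOn_Ioc
    · exact measurableSet_Ioc
    · intro x hx
      exact ge_dom ε hε y x hx.1.le hx.2
  refine h1.trans ?_
  rw [setIntegral_const]
  simp only [smul_eq_mul, Measure.real, Real.volume_Ioc, sub_zero]
  rw [ENNReal.toReal_ofReal log3_pos.le]
  have h3 := ge_nonneg (√2 * ε) (by positivity) y
  have h4 : 0 ≤ (2 * Real.exp (4 / ε ^ 2)) * ge (√2 * ε) y := by positivity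
  nlinarith [log3_lt]

theorem summable_uw (ε : ℝ) (hε : 0 < ε) (M : ℝ) (hM : 0 < M) :
    Summable (fun m : ℕ => uu m * ww ε (Real.log m - Real.log M)) := by
  refine Summable.of_nonneg_of_le (fun m => mul_nonneg (uu_nonneg m) (ww_nonneg ε hε _))
    (fun m => ?_) ((summable_dom ε hε M hM).mul_left (4 * Real.exp (4 / ε ^ 2)))
  have := ww_dom ε hε (Real.log m - Real.log M)
  calc uu m * ww ε (Real.log m - Real.log M)
      ≤ uu m * ((4 * Real.exp (4 / ε ^ 2)) * ge (√2 * ε) (Real.log m - Real.log M)) :=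
        mul_le_mul_of_nonneg_left this (uu_nonneg m)
    _ = _ := by ring

theorem log_shift (M : ℝ) (hM : 0 < M) (x : ℝ) :
    Real.log (M * Real.exp x) = Real.log M + x := by
  rw [Real.log_mul hM.ne' (Real.exp_pos _).ne', Real.log_exp]

/-- exchange of sum and integral -/
theorem exchange (ε : ℝ) (hε : 0 < ε) (M : ℝ) (hM : 0 < M) (g : ℕ → ℂ) (hg : ∀ m, ‖g m‖ ≤ 1) :
    ∑' m : ℕ, g m * ((uu m * ww ε (Real.log m - Real.log M) : ℝ) : ℂ) =
      ∫ x in Set.Ioc 0 (Real.log 3), ∑' m : ℕ,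
        g m * ((uu m * ge ε (Real.log m - Real.log M - x) : ℝ) : ℂ) := by
  set μ : Measure ℝ := volume.restrict (Set.Ioc 0 (Real.log 3)) with hμ
  have hint : ∀ m : ℕ, Integrable
      (fun x => g m * ((uu m * ge ε (Real.log m - Real.log M - x) : ℝ) : ℂ)) μ := by
    intro m
    have : Continuous (fun x : ℝ =>
        g m * ((uu m * ge ε (Real.log m - Real.log M - x) : ℝ) : ℂ)) := by
      have := ge_cont ε
      fun_prop
    exact this.integrableOn_Ioc
  have hnorm : ∀ m : ℕ, ∫ x, ‖g m * ((uu m * ge ε (Real.log m - Real.log M - x) : ℝ) : ℂ)‖ ∂μ ≤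
      uu m * ww ε (Real.log m - Real.log M) := by
    intro m
    have h1 : ∀ x : ℝ, ‖g m * ((uu m * ge ε (Real.log m - Real.log M - x) : ℝ) : ℂ)‖ ≤
        uu m * ge ε (Real.log m - Real.log M - x) := by
      intro x
      have h0 : 0 ≤ uu m * ge ε (Real.log m - Real.log M - x) :=
        mul_nonneg (uu_nonneg m) (ge_nonneg ε hε _)
      rw [norm_mul, Complex.norm_real, Real.norm_of_nonneg h0]
      exact mul_le_of_le_one_left h0 (hg m)
    have h2 : Integrable (fun x => uu m * ge ε (Real.log m - Real.log M - x)) μ := by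
      have : Continuous (fun x : ℝ => uu m * ge ε (Real.log m - Real.log M - x)) := by
        have := ge_cont ε
        fun_prop
      exact this.integrableOn_Ioc
    refine (integral_mono (hint m).norm h2 h1).trans ?_
    rw [integral_const_mul]
    exact le_rfl
  have hsum : Summable (fun m : ℕ =>
      ∫ x, ‖g m * ((uu m * ge ε (Real.log m - Real.log M - x) : ℝ) : ℂ)‖ ∂μ) :=
    Summable.of_nonneg_of_le (fun m => integral_nonneg fun x => norm_nonneg _) hnorm
      (summable_uw ε hε M hM)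
  have h := integral_tsum_of_summable_integral_norm hint hsum
  rw [← h]
  congr 1
  funext m
  rw [integral_const_mul]
  congr 1
  rw [integral_complex_ofReal, integral_const_mul]
  rfl

/-- the inner sum is a smoothed sum -/
theorem inner (ε : ℝ) (hε : 0 < ε) (f : ℕ → ℂ) (Y t : ℝ) (hY : 0 < Y) :
    ∑' m : ℕ, (f m * ni m t) * ((uu m * ge ε (Real.log m - Real.log Y) : ℝ) : ℂ) =
      ((Y * Real.exp (ε ^ 2 / 4) : ℝ) : ℂ) * SS ε f (Y * Real.exp (ε ^ 2 / 2)) t := by
  unfold SS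
  rw [← tsum_mul_left]
  congr 1
  funext m
  rcases Nat.eq_zero_or_pos m with h | h
  · subst h
    simp [uu_zero]
  · rw [uu_pos m h, one_mul, ge_shift ε hε Y hY m h]
    push_cast
    ring

theorem total (ε : ℝ) (hε : 0 < ε) (hε1 : ε ≤ 1) : ∃ K : ℝ, 0 < K ∧ ∀ M : ℝ, 0 < M →
    ∑' m : ℕ, uu m * ww ε (Real.log m - Real.log M) ≤ 2 * M * Real.exp (ε ^ 2 / 4) + K := by
  obtain ⟨K, hK, hKs⟩ := ge_sum ε hε hε1
  refine ⟨4 * K, by positivity, fun M hM => ?_⟩
  have h1 := exchange ε hε M hM (fun _ => 1) (fun _ => by simp)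
  simp only [one_mul] at h1
  -- real version
  have h2 : ∀ x : ℝ, ∑' m : ℕ, ((uu m * ge ε (Real.log m - Real.log M - x) : ℝ) : ℂ) =
      ((M * Real.exp x * Real.exp (ε ^ 2 / 4) *
        ∑' m : ℕ, (1 / (m : ℝ)) * ge ε (Real.log m -
          Real.log (M * Real.exp x * Real.exp (ε ^ 2 / 2))) : ℝ) : ℂ) := by
    intro x
    have hY : 0 < M * Real.exp x := by positivity
    rw [← tsum_mul_left, Complex.ofReal_tsum]
    congr 1
    funext m
    rcases Nat.eq_zero_or_pos m with h | h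
    · subst h
      simp [uu_zero]
    · rw [uu_pos m h, one_mul, sub_sub, ← log_shift M hM x, ge_shift ε hε _ hY m h]
  have h3 : ∫ x in Set.Ioc 0 (Real.log 3), ∑' m : ℕ,
      ((uu m * ge ε (Real.log m - Real.log M - x) : ℝ) : ℂ) =
      ((∫ x in Set.Ioc 0 (Real.log 3), (M * Real.exp x * Real.exp (ε ^ 2 / 4) *
        ∑' m : ℕ, (1 / (m : ℝ)) * ge ε (Real.log m -
          Real.log (M * Real.exp x * Real.exp (ε ^ 2 / 2)))) : ℝ) : ℂ) := by
    rw [← integral_complex_ofReal]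
    congr 1
    funext x
    exact h2 x
  rw [h3, ← Complex.ofReal_tsum] at h1
  have h4 := Complex.ofReal_injective h1
  rw [h4]
  have hexp1 : Real.exp (ε ^ 2 / 4) ≤ 2 := by
    have : Real.exp (ε ^ 2 / 4) ≤ Real.exp (1 / 4) := by
      apply Real.exp_le_exp.mpr; nlinarith
    have h6 : Real.exp (1 / 4) ≤ 2 := by
      have := Real.exp_bound_div_one_sub_of_interval (x := 1 / 4) (by norm_num) (by norm_num)
      linarith [this, (by norm_num : (1 : ℝ) / (1 - 1 / 4) ≤ 2)]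
    linarith
  have hbound : ∀ x ∈ Set.Ioc 0 (Real.log 3), M * Real.exp x * Real.exp (ε ^ 2 / 4) *
        ∑' m : ℕ, (1 / (m : ℝ)) * ge ε (Real.log m -
          Real.log (M * Real.exp x * Real.exp (ε ^ 2 / 2))) ≤
      M * Real.exp (ε ^ 2 / 4) * Real.exp x + 2 * K := by
    intro x hx
    have hY' : 0 < M * Real.exp x * Real.exp (ε ^ 2 / 2) := by positivity
    have h5 := (abs_le.mp (hKs _ hY')).2
    have hpos : 0 < M * Real.exp x * Real.exp (ε ^ 2 / 4) := by positivity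
    calc _ ≤ M * Real.exp x * Real.exp (ε ^ 2 / 4) *
          (1 + K / (M * Real.exp x * Real.exp (ε ^ 2 / 2))) :=
          mul_le_mul_of_nonneg_left (by linarith) hpos.le
      _ = M * Real.exp (ε ^ 2 / 4) * Real.exp x +
          K * (Real.exp (ε ^ 2 / 4) / Real.exp (ε ^ 2 / 2)) := by
          field_simp
      _ ≤ _ := by
          have h7 : Real.exp (ε ^ 2 / 4) / Real.exp (ε ^ 2 / 2) ≤ 2 := by
            rw [div_le_iff₀ (Real.exp_pos _)]
            have : 1 ≤ Real.exp (ε ^ 2 / 2) := Real.one_le_exp (by positivity)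
            nlinarith
          nlinarith
  have hcont : IntegrableOn (fun x : ℝ => M * Real.exp (ε ^ 2 / 4) * Real.exp x + 2 * K)
      (Set.Ioc 0 (Real.log 3)) := by
    have : Continuous (fun x : ℝ => M * Real.exp (ε ^ 2 / 4) * Real.exp x + 2 * K) := by fun_prop
    exact this.integrableOn_Ioc
  have h8 : ∫ x in Set.Ioc 0 (Real.log 3), (M * Real.exp (ε ^ 2 / 4) * Real.exp x + 2 * K) =
      2 * M * Real.exp (ε ^ 2 / 4) + 2 * K * Real.log 3 := by
    rw [← intervalIntegral.integral_of_le log3_pos.le, intervalIntegral.integral_add,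
      intervalIntegral.integral_const_mul, integral_exp, intervalIntegral.integral_const]
    · rw [Real.exp_log (by norm_num), Real.exp_zero]; simp; ring
    · apply Continuous.intervalIntegrable; fun_prop
    · apply Continuous.intervalIntegrable; fun_prop
  have h9 : ∫ x in Set.Ioc 0 (Real.log 3), (M * Real.exp x * Real.exp (ε ^ 2 / 4) *
        ∑' m : ℕ, (1 / (m : ℝ)) * ge ε (Real.log m -
          Real.log (M * Real.exp x * Real.exp (ε ^ 2 / 2)))) ≤
      ∫ x in Set.Ioc 0 (Real.log 3), (M * Real.exp (ε ^ 2 / 4) * Real.exp x + 2 * K) := by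
    apply integral_mono_of_nonneg _ hcont
    · rw [Filter.EventuallyLE, ae_restrict_iff' measurableSet_Ioc]
      exact Filter.Eventually.of_forall hbound
    · apply Filter.Eventually.of_forall
      intro x
      simp only [Pi.zero_apply]
      apply mul_nonneg (by positivity)
      exact tsum_nonneg fun m => mul_nonneg (by positivity) (ge_nonneg ε hε _)
  rw [h8] at h9
  refine h9.trans ?_
  nlinarith [log3_lt]

theorem exp_le' (x : ℝ) (h0 : 0 ≤ x) (h1 : x ≤ 1 / 2) : Real.exp x ≤ 1 + 2 * x := by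
  refine (Real.exp_bound_div_one_sub_of_interval h0 (by linarith)).trans ?_
  rw [div_le_iff₀ (by linarith)]
  nlinarith

theorem card_Ioc_real (a b : ℝ) (ha : 0 ≤ a) :
    b - 1 - a ≤ ((Ioc ⌊a⌋₊ ⌊b⌋₊).card : ℝ) := by
  rw [Nat.card_Ioc]
  have h1 : (⌊a⌋₊ : ℝ) ≤ a := Nat.floor_le ha
  have h2 : b < (⌊b⌋₊ : ℝ) + 1 := Nat.lt_floor_add_one b
  have h3 : (⌊b⌋₊ : ℝ) ≤ ((⌊b⌋₊ - ⌊a⌋₊ : ℕ) : ℝ) + (⌊a⌋₊ : ℝ) := by
    exact_mod_cast (by omega : ⌊b⌋₊ ≤ (⌊b⌋₊ - ⌊a⌋₊) + ⌊a⌋₊)
  linarith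

theorem card_blk (M : ℝ) (hM : 0 < M) : ((blk M).card : ℝ) ≤ 2 * M + 1 := by
  unfold blk
  rw [Nat.card_Ioc]
  have h1 : M < (⌊M⌋₊ : ℝ) + 1 := Nat.lt_floor_add_one M
  have h2 : (⌊3 * M⌋₊ : ℝ) ≤ 3 * M := Nat.floor_le (by positivity)
  have h4 : ⌊M⌋₊ ≤ ⌊3 * M⌋₊ := Nat.floor_le_floor (by linarith)
  rw [Nat.cast_sub h4]
  linarith

theorem error_bound (ε : ℝ) (hε : 0 < ε) (δ : ℝ) (hδ : 0 < δ) (hδ1 : δ ≤ 1 / 2) (M : ℝ)
    (hM : 0 < M) (hτ : 2 * Real.exp (-(δ ^ 2 / (2 * ε ^ 2))) ≤ 1) :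
    (2 * M - 5 * δ * M - 1) * (1 - 2 * Real.exp (-(δ ^ 2 / (2 * ε ^ 2)))) ≤
      ∑ m ∈ blk M, uu m * ww ε (Real.log m - Real.log M) := by
  set τ := 2 * Real.exp (-(δ ^ 2 / (2 * ε ^ 2))) with hτd
  have hτ0 : 0 ≤ 1 - τ := by linarith
  set G : Finset ℕ := Ioc ⌊M * Real.exp δ⌋₊ ⌊3 * M * Real.exp (-δ)⌋₊ with hG
  have hsub : G ⊆ blk M := by
    unfold blk
    apply Finset.Ioc_subset_Ioc
    · apply Nat.floor_le_floor
      have := Real.one_le_exp hδ.le
      nlinarith
    · apply Nat.floor_le_floor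
      have h1 : Real.exp (-δ) ≤ 1 := Real.exp_le_one_iff.mpr (by linarith)
      nlinarith
  have hcard : 2 * M - 5 * δ * M - 1 ≤ (G.card : ℝ) := by
    have h1 := card_Ioc_real (M * Real.exp δ) (3 * M * Real.exp (-δ)) (by positivity)
    have h2 := exp_le' δ hδ.le hδ1
    have h3 := Real.add_one_le_exp (-δ)
    rw [← hG] at h1
    have h4 : M * Real.exp δ ≤ M * (1 + 2 * δ) := mul_le_mul_of_nonneg_left h2 hM.le
    have h5 : 3 * M * (-δ + 1) ≤ 3 * M * Real.exp (-δ) :=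
      mul_le_mul_of_nonneg_left h3 (by positivity)
    linarith
  have hterm : ∀ m ∈ G, 1 - τ ≤ uu m * ww ε (Real.log m - Real.log M) := by
    intro m hm
    rw [hG, Finset.mem_Ioc] at hm
    have h1 : M * Real.exp δ < m := (Nat.floor_lt (by positivity)).mp hm.1
    have h2 : (m : ℝ) ≤ 3 * M * Real.exp (-δ) := (Nat.le_floor_iff (by positivity)).mp hm.2
    have hm1 : 1 ≤ m := by omega
    have hm0 : (0 : ℝ) < m := by exact_mod_cast hm1
    rw [uu_pos m hm1, one_mul]
    apply ww_ge ε hε δ hδ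
    · have := Real.log_le_log (by positivity) h1.le
      rw [log_shift M hM] at this
      linarith
    · have h3 := Real.log_le_log hm0 h2
      have h4 : Real.log (3 * M * Real.exp (-δ)) = Real.log 3 + Real.log M - δ := by
        rw [Real.log_mul (by positivity) (by positivity), Real.log_exp,
          Real.log_mul (by norm_num) hM.ne']
        ring
      linarith
  calc (2 * M - 5 * δ * M - 1) * (1 - τ) ≤ (G.card : ℝ) * (1 - τ) :=
        mul_le_mul_of_nonneg_right hcard hτ0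
    _ = ∑ m ∈ G, (1 - τ) := by rw [sum_const, nsmul_eq_mul]
    _ ≤ ∑ m ∈ G, uu m * ww ε (Real.log m - Real.log M) := sum_le_sum hterm
    _ ≤ _ := sum_le_sum_of_subset_of_nonneg hsub fun m _ _ =>
        mul_nonneg (uu_nonneg m) (ww_nonneg ε hε _)

theorem norm_ni (n : ℕ) (t : ℝ) : ‖ni n t‖ = 1 := by
  unfold ni
  have : (-((t * Real.log n : ℝ) : ℂ) * Complex.I) = ((-(t * Real.log n) : ℝ) : ℂ) * Complex.I := by
    push_cast; ring
  rw [this, Complex.norm_exp_ofReal_mul_I]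

theorem compare (ε : ℝ) (hε : 0 < ε) (M : ℝ) (hM : 0 < M) (g : ℕ → ℂ) (hg : ∀ m, ‖g m‖ ≤ 1) :
    ‖∑ m ∈ blk M, g m - ∑' m : ℕ, g m * ((uu m * ww ε (Real.log m - Real.log M) : ℝ) : ℂ)‖ ≤
      ∑' m : ℕ, uu m * ww ε (Real.log m - Real.log M) + (blk M).card -
        2 * ∑ m ∈ blk M, uu m * ww ε (Real.log m - Real.log M) := by
  classical
  set a : ℕ → ℝ := fun m => uu m * ww ε (Real.log m - Real.log M) with ha
  have ha0 : ∀ m, 0 ≤ a m := fun m => mul_nonneg (uu_nonneg m) (ww_nonneg ε hε _)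
  have ha1 : ∀ m, a m ≤ 1 := fun m => by
    have h1 := uu_le m
    have h2 := ww_le_one ε hε (Real.log m - Real.log M)
    have h3 := uu_nonneg m
    have h4 := ww_nonneg ε hε (Real.log m - Real.log M)
    calc a m ≤ 1 * 1 := mul_le_mul h1 h2 h4 (by norm_num)
      _ = 1 := by norm_num
  have hsa : Summable a := summable_uw ε hε M hM
  have hs1 : Summable (fun m => if m ∈ blk M then g m else 0) :=
    summable_of_ne_finset_zero (s := blk M) (fun m hm => by simp [hm])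
  have hs2 : Summable (fun m => g m * (a m : ℂ)) := by
    apply Summable.of_norm_bounded hsa
    intro m
    rw [norm_mul, Complex.norm_real, Real.norm_of_nonneg (ha0 m)]
    exact mul_le_of_le_one_left (ha0 m) (hg m)
  have hs3 : Summable (fun m => a m + if m ∈ blk M then 1 - 2 * a m else 0) := by
    apply hsa.add
    exact summable_of_ne_finset_zero (s := blk M) (fun m hm => by simp [hm])
  have e1 : ∑ m ∈ blk M, g m = ∑' m, if m ∈ blk M then g m else 0 := by
    rw [tsum_eq_sum (s := blk M) (fun m hm => by simp [hm])]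
    exact sum_congr rfl fun m hm => by simp [hm]
  rw [e1, ← hs1.tsum_sub hs2]
  have e2 : ∑' m : ℕ, a m + (blk M).card - 2 * ∑ m ∈ blk M, a m =
      ∑' m, (a m + if m ∈ blk M then 1 - 2 * a m else 0) := by
    rw [hsa.tsum_add (summable_of_ne_finset_zero (s := blk M) (fun m hm => by simp [hm]))]
    rw [tsum_eq_sum (s := blk M)
      (f := fun m => if m ∈ blk M then 1 - 2 * a m else 0) (fun m hm => by simp [hm])]
    rw [sum_congr rfl (fun m hm => by rw [if_pos hm] :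
      ∀ m ∈ blk M, (if m ∈ blk M then 1 - 2 * a m else 0) = 1 - 2 * a m)]
    rw [sum_sub_distrib, sum_const, nsmul_eq_mul, mul_one, ← mul_sum]
    ring
  rw [e2]
  apply tsum_of_norm_bounded hs3.hasSum
  intro m
  by_cases hm : m ∈ blk M
  · simp only [hm, if_true]
    have : g m - g m * (a m : ℂ) = g m * ((1 - a m : ℝ) : ℂ) := by push_cast; ring
    rw [this, norm_mul, Complex.norm_real, Real.norm_of_nonneg (by linarith [ha1 m])]
    have h1 := hg m
    have h2 : 0 ≤ 1 - a m := by linarith [ha1 m]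
    have h3 := mul_le_of_le_one_left h2 h1
    linarith
  · simp only [hm, if_false, zero_sub, add_zero, norm_neg]
    rw [norm_mul, Complex.norm_real, Real.norm_of_nonneg (ha0 m)]
    exact mul_le_of_le_one_left (ha0 m) (hg m)

end PSharpAux

open PSharpAux in
/-- Pointwise bound with sharp cutoffs. -/
theorem pw_of_fb (f : ℕ → ℂ) (hf : CM f) (hfb : FB f) : PW f := by
  intro η hη
  set η1 : ℝ := min η 1 with hη1
  have hη1p : 0 < η1 := lt_min hη one_pos
  have hη1l : η1 ≤ 1 := min_le_right _ _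
  have hη1e : η1 ≤ η := min_le_left _ _
  set δ : ℝ := η1 / 80 with hδd
  have hδ : 0 < δ := by positivity
  have hδ1 : δ ≤ 1 / 2 := by rw [hδd]; linarith
  set ε : ℝ := η1 * δ / 12 with hεd
  have hε : 0 < ε := by positivity
  have hε1 : ε ≤ 1 := by rw [hεd]; nlinarith
  have hε2 : ε ^ 2 ≤ η1 * δ ^ 2 / 128 := by
    have : ε ^ 2 = η1 * (η1 * δ ^ 2) / 144 := by rw [hεd]; ring
    rw [this]
    have h1 : η1 * (η1 * δ ^ 2) ≤ 1 * (η1 * δ ^ 2) :=
      mul_le_mul_of_nonneg_right hη1l (by positivity)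
    have h2 : 0 ≤ η1 * δ ^ 2 := by positivity
    linarith
  have hτ : 2 * Real.exp (-(δ ^ 2 / (2 * ε ^ 2))) ≤ η1 / 32 := by
    set u : ℝ := δ ^ 2 / (2 * ε ^ 2) with hu
    have hup : 0 < u := by positivity
    have h1 : u + 1 ≤ Real.exp u := Real.add_one_le_exp u
    have h2 : 64 / η1 ≤ u := by
      rw [hu, div_le_div_iff₀ hη1p (by positivity)]
      have : ε ^ 2 * 128 ≤ η1 * δ ^ 2 := by linarith
      linarith
    rw [Real.exp_neg]
    have h3 : (Real.exp u)⁻¹ ≤ (64 / η1)⁻¹ := by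
      apply inv_anti₀ (by positivity)
      linarith
    rw [inv_div] at h3
    linarith
  have hε3 : ε ^ 2 ≤ η1 / 128 := by
    have : η1 * δ ^ 2 ≤ η1 * 1 := by
      apply mul_le_mul_of_nonneg_left _ hη1p.le
      nlinarith
    linarith
  obtain ⟨Y0, hY01, hY0⟩ := smooth_pw f hf hfb ε hε hε1 (η1 / 96) (by positivity)
  obtain ⟨K, hK, hKs⟩ := total ε hε hε1
  refine ⟨max Y0 (8 * (K + 3) / η1), fun M hM0 t ht => ?_⟩
  have hMY : Y0 ≤ M := (le_max_left _ _).trans hM0
  have hM1 : 1 ≤ M := hY01.trans hMY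
  have hM : 0 < M := by linarith
  have hMK : K + 3 ≤ M * η1 / 8 := by
    have := (le_max_right _ _).trans hM0
    rw [div_le_iff₀ hη1p] at this
    linarith
  set g : ℕ → ℂ := fun m => f m * ni m t with hgd
  have hg : ∀ m, ‖g m‖ ≤ 1 := fun m => by
    rw [hgd]; simp only [norm_mul, norm_ni, mul_one]; exact hf.norm_le m
  have h1 := compare ε hε M hM g hg
  have h2 := exchange ε hε M hM g hg
  have hexp : Real.exp (ε ^ 2 / 4) ≤ 1 + ε ^ 2 / 2 := by
    have := exp_le' (ε ^ 2 / 4) (by positivity) (by nlinarith)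
    linarith
  have hexp2 : Real.exp (ε ^ 2 / 4) ≤ 2 := by nlinarith
  have h3 : ‖∑' m : ℕ, g m * ((uu m * ww ε (Real.log m - Real.log M) : ℝ) : ℂ)‖ ≤
      M * η1 / 8 := by
    rw [h2]
    have h4 : ∀ x ∈ Set.Ioc 0 (Real.log 3), ‖∑' m : ℕ,
        g m * ((uu m * ge ε (Real.log m - Real.log M - x) : ℝ) : ℂ)‖ ≤ 6 * M * (η1 / 96) := by
      intro x hx
      have hY : 0 < M * Real.exp x := by positivity
      have h5 := inner ε hε f (M * Real.exp x) t hY
      have h6 : (∑' m : ℕ, g m * ((uu m * ge ε (Real.log m - Real.log M - x) : ℝ) : ℂ)) =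
          ∑' m : ℕ, (f m * ni m t) *
            ((uu m * ge ε (Real.log m - Real.log (M * Real.exp x)) : ℝ) : ℂ) := by
        congr 1
        funext m
        rw [log_shift M hM, sub_sub]
      rw [h6, h5, norm_mul, Complex.norm_real, Real.norm_of_nonneg (by positivity)]
      have hex1 : 1 ≤ Real.exp x := Real.one_le_exp hx.1.le
      have hex3 : Real.exp x ≤ 3 := by
        have := Real.exp_le_exp.mpr hx.2
        rwa [Real.exp_log (by norm_num)] at this
      have hee : 1 ≤ Real.exp (ε ^ 2 / 2) := Real.one_le_exp (by positivity)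
      have hYM : M ≤ M * Real.exp x * Real.exp (ε ^ 2 / 2) := by
        have : M * 1 ≤ M * (Real.exp x * Real.exp (ε ^ 2 / 2)) := by
          apply mul_le_mul_of_nonneg_left _ hM.le
          nlinarith
        linarith
      have h7 := hY0 (M * Real.exp x * Real.exp (ε ^ 2 / 2)) (hMY.trans hYM) t
        (ht.trans (pow_le_pow_left₀ hM.le hYM 2))
      have h8 : M * Real.exp x * Real.exp (ε ^ 2 / 4) ≤ 6 * M := by
        have : M * Real.exp x ≤ M * 3 := mul_le_mul_of_nonneg_left hex3 hM.le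
        have h9 : M * Real.exp x * Real.exp (ε ^ 2 / 4) ≤ (M * 3) * 2 :=
          mul_le_mul this hexp2 (Real.exp_pos _).le (by positivity)
        linarith
      exact mul_le_mul h8 h7 (norm_nonneg _) (by positivity)
    have h10 := norm_setIntegral_le_of_norm_le_const (μ := volume) (by simp) h4
    refine h10.trans ?_
    simp only [Measure.real, Real.volume_Ioc, sub_zero]
    rw [ENNReal.toReal_ofReal log3_pos.le]
    have : 0 ≤ 6 * M * (η1 / 96) := by positivity
    nlinarith [log3_lt]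
  have hτ1 : 2 * Real.exp (-(δ ^ 2 / (2 * ε ^ 2))) ≤ 1 := by linarith
  have h11 := error_bound ε hε δ hδ hδ1 M hM hτ1
  have h12 := card_blk M hM
  have h13 := hKs M hM
  set τ : ℝ := 2 * Real.exp (-(δ ^ 2 / (2 * ε ^ 2))) with hτd
  have hτ0 : 0 ≤ τ := by positivity
  have h14 : 2 * M * Real.exp (ε ^ 2 / 4) ≤ 2 * M * (1 + ε ^ 2 / 2) :=
    mul_le_mul_of_nonneg_left hexp (by positivity)
  have h15 : dp (blk M) f t = ∑ m ∈ blk M, g m := rfl
  have h16 : (2 * M - 5 * δ * M - 1) * (1 - τ) ≥ 2 * M - 5 * δ * M - 1 - 2 * M * τ := by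
    have : 0 ≤ (5 * δ * M + 1) * τ := by positivity
    nlinarith
  have h17 : M * ε ^ 2 ≤ M * (η1 / 128) := mul_le_mul_of_nonneg_left hε3 hM.le
  have h18 : M * τ ≤ M * (η1 / 32) := mul_le_mul_of_nonneg_left hτ hM.le
  have h19 : δ * M = M * η1 / 80 := by rw [hδd]; ring
  have h20 : M * η1 ≤ M * η := mul_le_mul_of_nonneg_left hη1e hM.le
  rw [h15]
  calc ‖∑ m ∈ blk M, g m‖
      = ‖(∑ m ∈ blk M, g m -
          ∑' m : ℕ, g m * ((uu m * ww ε (Real.log m - Real.log M) : ℝ) : ℂ)) +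
          ∑' m : ℕ, g m * ((uu m * ww ε (Real.log m - Real.log M) : ℝ) : ℂ)‖ := by
        rw [sub_add_cancel]
    _ ≤ _ := norm_add_le _ _
    _ ≤ η * M := by
        have h21 : 2 * M * (1 + ε ^ 2 / 2) = 2 * M + M * ε ^ 2 := by ring
        have h22 : 2 * M * τ = 2 * (M * τ) := by ring
        have h23 : 5 * δ * M = 5 * (δ * M) := by ring
        have h24 : M * (η1 / 128) = M * η1 / 128 := by ring
        have h25 : M * (η1 / 32) = M * η1 / 32 := by ring
        have h26 : η * M = M * η := by ring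
        have h27 : 0 ≤ M * η1 := by positivity
        rw [h21] at h14
        rw [h22, h23] at h16
        rw [h23] at h11
        rw [h24] at h17
        rw [h25] at h18
        rw [h26]
        linarith

end Pool.Agent.MR
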