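import Pool.Agent.MR.PTk

set_option autoImplicit false

open Finset MeasureTheory

namespace Pool.Agent.MR

/-- `∑_{p ∈ P} f(p) p^{-s}`, `s = 1 + α + iu`. -/
noncomputable def PS (P : Finset ℕ) (f : ℕ → ℂ) (α u : ℝ) : ℂ :=
  ∑ p ∈ P, f p * ((p : ℝ) ^ (-1 - α) : ℝ) * ni p u

namespace PFourAux

open Complex

/-- The Gaussian kernel as a Fourier integral. -/
theorem ge_fourier (ε : ℝ) (hε : 0 < ε) (x : ℝ) :
    ∫ τ : ℝ, cexp (I * (x : ℂ) * τ) * cexp (-((ε ^ 2 / 4 : ℝ) : ℂ) * (τ : ℂ) ^ 2) =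
      (2 * Real.pi * ge ε x : ℝ) := by
  have hb : 0 < (((ε ^ 2 / 4 : ℝ) : ℂ)).re := by
    rw [Complex.ofReal_re]; positivity
  rw [fourierIntegral_gaussian hb (x : ℂ)]
  have h1 : ((Real.pi : ℂ) / ((ε ^ 2 / 4 : ℝ) : ℂ)) ^ (1 / 2 : ℂ) = ((2 * √Real.pi / ε : ℝ) : ℂ) := by
    have h2 : ((Real.pi : ℂ) / ((ε ^ 2 / 4 : ℝ) : ℂ)) = ((Real.pi / (ε ^ 2 / 4) : ℝ) : ℂ) := by
      push_cast; ring
    have h3 : (1 / 2 : ℂ) = ((1 / 2 : ℝ) : ℂ) := by push_cast; ring
    rw [h2, h3, ← Complex.ofReal_cpow (by positivity)]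
    congr 1
    rw [← Real.sqrt_eq_rpow]
    have h4 : Real.pi / (ε ^ 2 / 4) = (2 * √Real.pi / ε) ^ 2 := by
      rw [div_pow, mul_pow, Real.sq_sqrt Real.pi_pos.le]
      field_simp
      norm_num
    rw [h4, Real.sqrt_sq (by positivity)]
  rw [h1]
  have h5 : -(x : ℂ) ^ 2 / (4 * ((ε ^ 2 / 4 : ℝ) : ℂ)) = ((-(x / ε) ^ 2 : ℝ) : ℂ) := by
    push_cast
    field_simp
  rw [h5, ← Complex.ofReal_exp, ← Complex.ofReal_mul]
  congr 1
  unfold ge
  have hs : √Real.pi ≠ 0 := by positivity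
  have hpi : Real.pi = √Real.pi * √Real.pi := (Real.mul_self_sqrt Real.pi_pos.le).symm
  have hε' : ε ≠ 0 := hε.ne'
  rw [show 2 * Real.pi * (Real.exp (-(x / ε) ^ 2) / (ε * √Real.pi)) =
    2 * (√Real.pi * √Real.pi) * (Real.exp (-(x / ε) ^ 2) / (ε * √Real.pi)) by rw [← hpi]]
  field_simp

theorem ge_shift (ε : ℝ) (hε : 0 < ε) (α x : ℝ) :
    ge ε x = Real.exp (-(α * x)) * Real.exp (α ^ 2 * ε ^ 2 / 4) * ge ε (x - α * ε ^ 2 / 2) := by
  unfold ge
  have hε' : ε ≠ 0 := hε.ne'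
  rw [← mul_div_assoc, ← Real.exp_add, ← Real.exp_add]
  congr 2
  field_simp
  ring

theorem term_mul (f : ℕ → ℂ) (hf : CM f) (s : ℂ) (d m : ℕ) (hd : 0 < d) :
    LSeries.term f s (d * m) = f d / (d : ℂ) ^ s * LSeries.term f s m := by
  rcases Nat.eq_zero_or_pos m with rfl | hm
  · simp
  · rw [LSeries.term_of_ne_zero (by positivity), LSeries.term_of_ne_zero hm.ne', hf.mul d m hd hm]
    rw [Nat.cast_mul, Complex.natCast_mul_natCast_cpow]
    field_simp

theorem norm_term_le (f : ℕ → ℂ) (K : ℝ) (hf : ∀ n, ‖f n‖ ≤ K) (s : ℂ) (α : ℝ)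
    (hs : s.re = 1 + α) (n : ℕ) :
    ‖LSeries.term f s n‖ ≤ K * (1 / (n : ℝ) ^ (1 + α)) := by
  have hK : 0 ≤ K := le_trans (norm_nonneg _) (hf 0)
  rcases Nat.eq_zero_or_pos n with rfl | hn
  · simp only [LSeries.term_zero, norm_zero]
    positivity
  · rw [LSeries.norm_term_eq, if_neg hn.ne', hs, mul_one_div]
    gcongr
    exact hf n

theorem summable_pow (α : ℝ) (hα : 0 < α) (K : ℝ) :
    Summable (fun n : ℕ => K * (1 / (n : ℝ) ^ (1 + α))) :=
  (Real.summable_one_div_nat_rpow.mpr (by linarith)).mul_left K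

theorem summable_term (f : ℕ → ℂ) (K : ℝ) (hf : ∀ n, ‖f n‖ ≤ K) (s : ℂ) (α : ℝ) (hα : 0 < α)
    (hs : s.re = 1 + α) : Summable (LSeries.term f s) :=
  Summable.of_norm_bounded (summable_pow α hα K) (norm_term_le f K hf s α hs)

theorem tsum_dvd (g : ℕ → ℂ) (d : ℕ) (hd : 0 < d) :
    ∑' n : ℕ, (if d ∣ n then g n else 0) = ∑' m : ℕ, g (d * m) := by
  have hinj : Function.Injective (fun m : ℕ => d * m) := fun a b h => Nat.eq_of_mul_eq_mul_left hd h
  have hsupp : Function.support (fun n : ℕ => if d ∣ n then g n else 0) ⊆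
      Set.range (fun m : ℕ => d * m) := by
    intro n hn
    rw [Function.mem_support] at hn
    by_contra hcon
    apply hn
    rw [if_neg]
    rintro ⟨k, hk⟩
    exact hcon ⟨k, hk.symm⟩
  rw [← hinj.tsum_eq hsupp]
  apply tsum_congr
  intro m
  rw [if_pos (Dvd.intro m rfl)]

theorem c2_eq (P : Finset ℕ) (n : ℕ) :
    (c2 P n : ℂ) = ∑ x ∈ P ×ˢ P, (if x.1 * x.2 ∣ n then (1 : ℂ) else 0) := by
  unfold c2
  rw [Finset.card_filter]
  push_cast
  rfl

theorem c2_term (f : ℕ → ℂ) (hf : CM f) (P : Finset ℕ) (hP : ∀ p ∈ P, p.Prime) (s : ℂ) (α : ℝ)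
    (hα : 0 < α) (hs : s.re = 1 + α) :
    ∑' n : ℕ, LSeries.term (fun n => (c2 P n : ℂ) * f n) s n =
      (∑ p ∈ P, f p / (p : ℂ) ^ s) ^ 2 * LSeries f s := by
  have h1 : ∀ n : ℕ, LSeries.term (fun n => (c2 P n : ℂ) * f n) s n =
      ∑ x ∈ P ×ˢ P, (if x.1 * x.2 ∣ n then LSeries.term f s n else 0) := by
    intro n
    rcases Nat.eq_zero_or_pos n with rfl | hn
    · simp
    · rw [LSeries.term_of_ne_zero hn.ne', LSeries.term_of_ne_zero hn.ne', c2_eq, mul_div_assoc,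
        Finset.sum_mul]
      apply Finset.sum_congr rfl
      intro x _
      split_ifs <;> simp
  simp_rw [h1]
  have hsum : ∀ x ∈ P ×ˢ P, Summable (fun n : ℕ =>
      (if x.1 * x.2 ∣ n then LSeries.term f s n else 0)) := by
    intro x _
    refine Summable.of_norm_bounded (summable_pow α hα 1) ?_
    intro n
    split_ifs
    · exact norm_term_le f 1 hf.norm_le s α hs n
    · rw [norm_zero]; positivity
  rw [Summable.tsum_finsetSum hsum]
  rw [sq, Finset.sum_mul_sum, ← Finset.sum_product', Finset.sum_mul]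
  apply Finset.sum_congr rfl
  intro x hx
  rw [Finset.mem_product] at hx
  have hp1 := (hP _ hx.1).pos
  have hp2 := (hP _ hx.2).pos
  rw [tsum_dvd _ _ (Nat.mul_pos hp1 hp2)]
  simp_rw [term_mul f hf s _ _ (Nat.mul_pos hp1 hp2)]
  rw [tsum_mul_left, LSeries]
  congr 1
  rw [hf.mul _ _ hp1 hp2, Nat.cast_mul, Complex.natCast_mul_natCast_cpow]
  rw [div_mul_div_comm]

theorem cpow_eq_exp (n : ℕ) (hn : 0 < n) (s : ℂ) :
    (n : ℂ) ^ s = cexp ((Real.log n : ℂ) * s) := by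
  have h0 : (n : ℂ) ≠ 0 := by exact_mod_cast hn.ne'
  rw [Complex.cpow_def_of_ne_zero h0, ← Complex.natCast_log]

theorem PS_eq (P : Finset ℕ) (hP : ∀ p ∈ P, p.Prime) (f : ℕ → ℂ) (α u : ℝ) :
    PS P f α u = ∑ p ∈ P, f p / (p : ℂ) ^ (1 + (α : ℂ) + (u : ℂ) * I) := by
  unfold PS
  apply Finset.sum_congr rfl
  intro p hp
  have hp0 := (hP p hp).pos
  have hp0' : (0 : ℝ) < p := by exact_mod_cast hp0
  rw [cpow_eq_exp p hp0, Real.rpow_def_of_pos hp0']
  unfold ni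
  rw [div_eq_mul_inv, ← Complex.exp_neg, mul_assoc]
  congr 1
  rw [Complex.ofReal_exp, ← Complex.exp_add]
  congr 1
  push_cast
  ring

end PFourAux

open Complex PFourAux in
/-- Fourier representation of the Gaussian-smoothed sum of `c₂ f`. -/
theorem fourier_bound (f : ℕ → ℂ) (hf : CM f) (P : Finset ℕ) (hP : ∀ p ∈ P, p.Prime)
    (ε : ℝ) (hε : 0 < ε) (hε1 : ε ≤ 1) (α : ℝ) (hα : 0 < α) (hα1 : α ≤ 1) (Y : ℝ) (hY : 1 ≤ Y)
    (t : ℝ) :
    ‖SS ε (fun n => (c2 P n : ℂ) * f n) Y t‖ ≤ Y ^ α *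
      ∫ τ : ℝ, Real.exp (-(ε * τ / 2) ^ 2) * ‖PS P f α (t - τ)‖ ^ 2 *
        ‖LSeries f (1 + α + (t - τ : ℝ) * Complex.I)‖ := by
  have hY0 : 0 < Y := by linarith
  set C : ℝ := Y ^ α * (Real.exp (α ^ 2 * ε ^ 2 / 4) / (2 * Real.pi)) with hC
  set δ : ℝ := α * ε ^ 2 / 2 with hδ
  -- the weight
  set W : ℝ → ℂ := fun τ => (C : ℂ) * cexp (-(I * ((Real.log Y + δ : ℝ) : ℂ) * τ)) *
    cexp (-((ε ^ 2 / 4 : ℝ) : ℂ) * (τ : ℂ) ^ 2) with hW
  set F : ℕ → ℝ → ℂ := fun n τ => W τ *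
    LSeries.term (fun n => (c2 P n : ℂ) * f n) (1 + (α : ℂ) + ((t - τ : ℝ) : ℂ) * I) n with hF
  have hc2 : ∀ n, ‖(c2 P n : ℂ) * f n‖ ≤ ((P ×ˢ P).card : ℝ) := by
    intro n
    rw [norm_mul, Complex.norm_natCast]
    calc (c2 P n : ℝ) * ‖f n‖ ≤ ((P ×ˢ P).card : ℝ) * 1 := by
          apply mul_le_mul _ (hf.norm_le n) (norm_nonneg _) (by positivity)
          exact_mod_cast Finset.card_filter_le _ _
      _ = _ := mul_one _
  have hre : ∀ τ : ℝ, (1 + (α : ℂ) + ((t - τ : ℝ) : ℂ) * I).re = 1 + α := by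
    intro τ
    simp
  have hWnorm : ∀ τ, ‖W τ‖ = C * Real.exp (-(ε * τ / 2) ^ 2) := by
    intro τ
    rw [hW]
    simp only [norm_mul]
    have e1 : ‖cexp (-(I * ((Real.log Y + δ : ℝ) : ℂ) * τ))‖ = 1 := by
      rw [Complex.norm_exp]
      simp
    have e2 : ‖cexp (-((ε ^ 2 / 4 : ℝ) : ℂ) * (τ : ℂ) ^ 2)‖ = Real.exp (-(ε * τ / 2) ^ 2) := by
      rw [show -((ε ^ 2 / 4 : ℝ) : ℂ) * (τ : ℂ) ^ 2 = ((-(ε * τ / 2) ^ 2 : ℝ) : ℂ) by
        push_cast; ring]
      rw [Complex.norm_exp, Complex.ofReal_re]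
    have e3 : ‖(C : ℂ)‖ = C := by
      rw [Complex.norm_real, Real.norm_of_nonneg]
      positivity
    rw [e1, e2, e3, mul_one]
  have hWcont : Continuous W := by
    rw [hW]
    fun_prop
  have hgauss : Integrable (fun τ : ℝ => Real.exp (-(ε * τ / 2) ^ 2)) := by
    have h := integrable_exp_neg_mul_sq (show 0 < ε ^ 2 / 4 by positivity)
    refine h.congr (Filter.Eventually.of_forall fun τ => ?_)
    simp only
    congr 1
    ring
  have hterm_cont : ∀ n, Continuous (fun τ : ℝ =>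
      LSeries.term (fun n => (c2 P n : ℂ) * f n) (1 + (α : ℂ) + ((t - τ : ℝ) : ℂ) * I) n) := by
    intro n
    rcases Nat.eq_zero_or_pos n with rfl | hn
    · simp only [LSeries.term_zero]
      exact continuous_const
    · simp only [LSeries.term_of_ne_zero hn.ne']
      have : (fun τ : ℝ => (c2 P n : ℂ) * f n / (n : ℂ) ^ (1 + (α : ℂ) + ((t - τ : ℝ) : ℂ) * I)) =
          fun τ : ℝ => (c2 P n : ℂ) * f n *
            cexp (-((Real.log n : ℂ) * (1 + (α : ℂ) + ((t - τ : ℝ) : ℂ) * I))) := by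
        funext τ
        rw [cpow_eq_exp n hn, Complex.exp_neg, div_eq_mul_inv]
      rw [this]
      fun_prop
  have hFnorm : ∀ n τ, ‖F n τ‖ ≤ (C * Real.exp (-(ε * τ / 2) ^ 2)) *
      (((P ×ˢ P).card : ℝ) * (1 / (n : ℝ) ^ (1 + α))) := by
    intro n τ
    rw [hF]
    simp only [norm_mul]
    rw [hWnorm]
    have hC0 : 0 ≤ C := by positivity
    gcongr
    exact norm_term_le _ _ hc2 _ α (hre τ) n
  have hFint : ∀ n, Integrable (F n) := by
    intro n
    have hb : Integrable (fun τ : ℝ => (C * Real.exp (-(ε * τ / 2) ^ 2)) *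
      (((P ×ˢ P).card : ℝ) * (1 / (n : ℝ) ^ (1 + α)))) := (hgauss.const_mul C).mul_const _
    refine hb.mono' ?_ (Filter.Eventually.of_forall (hFnorm n))
    exact (hWcont.mul (hterm_cont n)).aestronglyMeasurable
  have hFsum : Summable (fun n => ∫ τ, ‖F n τ‖) := by
    have hs := (summable_pow α hα ((P ×ˢ P).card : ℝ)).mul_left
      (∫ τ, C * Real.exp (-(ε * τ / 2) ^ 2))
    refine Summable.of_nonneg_of_le (fun n => integral_nonneg fun _ => norm_nonneg _) ?_ hs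
    intro n
    rw [← integral_mul_const]
    apply integral_mono_of_nonneg (Filter.Eventually.of_forall fun _ => norm_nonneg _)
    · exact (hgauss.const_mul C).mul_const _
    · exact Filter.Eventually.of_forall (hFnorm n)
  have hmain := hasSum_integral_of_summable_integral_norm hFint hFsum
  -- the terms
  have hterm : ∀ n : ℕ, ((c2 P n : ℂ) * f n) * (1 / (n : ℂ)) * ni n t *
      (ge ε (Real.log n - Real.log Y) : ℂ) = ∫ τ, F n τ := by
    intro n
    rcases Nat.eq_zero_or_pos n with rfl | hn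
    · simp [hF]
    · have hn' : (0 : ℝ) < n := by exact_mod_cast hn
      set x : ℝ := Real.log n - Real.log Y with hx
      have hpi : (2 * Real.pi : ℝ) ≠ 0 := by positivity
      have e1 : (ge ε x : ℂ) = ((Real.exp (-(α * x)) * Real.exp (α ^ 2 * ε ^ 2 / 4) /
          (2 * Real.pi) : ℝ) : ℂ) * ∫ τ : ℝ, cexp (I * ((x - δ : ℝ) : ℂ) * τ) *
            cexp (-((ε ^ 2 / 4 : ℝ) : ℂ) * (τ : ℂ) ^ 2) := by
        rw [ge_fourier ε hε, ← Complex.ofReal_mul]
        congr 1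
        rw [ge_shift ε hε α x, ← hδ]
        field_simp
      rw [e1, ← mul_assoc, ← integral_const_mul]
      congr 1
      funext τ
      rw [hF, hW]
      simp only
      rw [LSeries.term_of_ne_zero hn.ne', cpow_eq_exp n hn, div_eq_mul_inv ((c2 P n : ℂ) * f n),
        ← Complex.exp_neg]
      have e2 : (1 / (n : ℂ)) = cexp (-(Real.log n : ℂ)) := by
        rw [Complex.exp_neg, ← Complex.ofReal_exp, Real.exp_log hn']
        simp
      have e3 : ((Y ^ α : ℝ) : ℂ) = cexp ((α * Real.log Y : ℝ) : ℂ) := by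
        rw [← Complex.ofReal_exp, Real.rpow_def_of_pos hY0, mul_comm α]
      rw [e2, hC]
      rw [Complex.ofReal_div, Complex.ofReal_mul (Real.exp (-(α * x))), Complex.ofReal_mul (Y ^ α),
        e3, Complex.ofReal_div (Real.exp (α ^ 2 * ε ^ 2 / 4)), Complex.ofReal_exp (-(α * x))]
      unfold ni
      have e4 : cexp (-(Real.log n : ℂ)) * cexp (-((t * Real.log n : ℝ) : ℂ) * I) *
          cexp ((-(α * x) : ℝ) : ℂ) * cexp (I * ((x - δ : ℝ) : ℂ) * τ) =
          cexp ((α * Real.log Y : ℝ) : ℂ) * cexp (-(I * ((Real.log Y + δ : ℝ) : ℂ) * τ)) *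
          cexp (-((Real.log n : ℂ) * (1 + (α : ℂ) + ((t - τ : ℝ) : ℂ) * I))) := by
        rw [← Complex.exp_add, ← Complex.exp_add, ← Complex.exp_add, ← Complex.exp_add,
          ← Complex.exp_add]
        congr 1
        rw [hx]
        push_cast
        ring
      generalize cexp (-((ε ^ 2 / 4 : ℝ) : ℂ) * (τ : ℂ) ^ 2) = G
      generalize ((Real.exp (α ^ 2 * ε ^ 2 / 4) : ℝ) : ℂ) = E
      generalize (((2 * Real.pi : ℝ)) : ℂ) = PI
      linear_combination ((c2 P n : ℂ) * f n) * E / PI * G * e4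
  have hSS : SS ε (fun n => (c2 P n : ℂ) * f n) Y t = ∫ τ, ∑' n, F n τ := by
    unfold SS
    rw [← hmain.tsum_eq]
    exact tsum_congr hterm
  have hinner : ∀ τ, ∑' n, F n τ = W τ * (PS P f α (t - τ) ^ 2 *
      LSeries f (1 + α + (t - τ : ℝ) * Complex.I)) := by
    intro τ
    rw [hF]
    simp only
    rw [tsum_mul_left, c2_term f hf P hP _ α hα (hre τ), PS_eq P hP]
  rw [hSS]
  simp_rw [hinner]
  have hCle : C ≤ Y ^ α := by
    rw [hC]
    have h1 : Real.exp (α ^ 2 * ε ^ 2 / 4) / (2 * Real.pi) ≤ 1 := by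
      rw [div_le_one (by positivity)]
      have h2 : α ^ 2 * ε ^ 2 / 4 ≤ 1 := by
        have : α ^ 2 * ε ^ 2 ≤ 1 * 1 := by
          gcongr
          · exact pow_le_one₀ hα.le hα1
          · exact pow_le_one₀ hε.le hε1
        linarith
      have h3 := Real.exp_le_exp.mpr h2
      have h4 := Real.exp_one_lt_d9
      have h5 := Real.pi_gt_three
      linarith
    calc Y ^ α * (Real.exp (α ^ 2 * ε ^ 2 / 4) / (2 * Real.pi)) ≤ Y ^ α * 1 := by gcongr
      _ = Y ^ α := mul_one _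
  calc ‖∫ τ, W τ * (PS P f α (t - τ) ^ 2 * LSeries f (1 + α + (t - τ : ℝ) * Complex.I))‖
      ≤ ∫ τ, ‖W τ * (PS P f α (t - τ) ^ 2 * LSeries f (1 + α + (t - τ : ℝ) * Complex.I))‖ :=
        norm_integral_le_integral_norm _
    _ = ∫ τ, C * (Real.exp (-(ε * τ / 2) ^ 2) * ‖PS P f α (t - τ)‖ ^ 2 *
        ‖LSeries f (1 + α + (t - τ : ℝ) * Complex.I)‖) := by
        congr 1
        funext τ
        rw [norm_mul, hWnorm, norm_mul, norm_pow]
        ring
    _ = C * ∫ τ, (Real.exp (-(ε * τ / 2) ^ 2) * ‖PS P f α (t - τ)‖ ^ 2 *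
        ‖LSeries f (1 + α + (t - τ : ℝ) * Complex.I)‖) := integral_const_mul _ _
    _ ≤ _ := by
        apply mul_le_mul_of_nonneg_right hCle
        apply integral_nonneg
        intro τ
        positivity

end Pool.Agent.MR
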