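import Pool.Agent.MR.ADefs

set_option autoImplicit false

open Finset MeasureTheory

namespace Pool.Agent.MR

namespace PGeAux

theorem ge_nonneg (ε x : ℝ) (hε : 0 < ε) : 0 ≤ ge ε x := by
  unfold ge
  positivity

/-- Gaussian versus exponential. -/
theorem ge_le_exp (ε : ℝ) (hε : 0 < ε) (a x : ℝ) :
    ge ε x ≤ Real.exp (-(a * x)) * (Real.exp (a ^ 2 * ε ^ 2 / 4) / (ε * √Real.pi)) := by
  unfold ge
  rw [← mul_div_assoc, ← Real.exp_add]
  apply div_le_div_of_nonneg_right _ (by positivity)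
  apply Real.exp_le_exp.mpr
  have h1 : (x / ε - a * ε / 2) ^ 2 = (x / ε) ^ 2 - a * x + a ^ 2 * ε ^ 2 / 4 := by
    have hε' : ε ≠ 0 := hε.ne'
    field_simp
    ring
  have h2 := sq_nonneg (x / ε - a * ε / 2)
  linarith

/-- the function `h(u) = g(log u - log Y) / u` -/
noncomputable def hh (ε Y u : ℝ) : ℝ := ge ε (Real.log u - Real.log Y) / u

/-- its derivative -/
noncomputable def hd (ε Y u : ℝ) : ℝ :=
  -(2 * (Real.log u - Real.log Y) / ε ^ 2 + 1) * ge ε (Real.log u - Real.log Y) / u ^ 2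

theorem hasDerivAt_ge (ε : ℝ) (hε : 0 < ε) (x : ℝ) :
    HasDerivAt (ge ε) (-(2 * x / ε ^ 2) * ge ε x) x := by
  unfold ge
  have h1 : HasDerivAt (fun x : ℝ => -(x / ε) ^ 2) (-(2 * x / ε ^ 2)) x := by
    have h2 : HasDerivAt (fun x : ℝ => x / ε) (1 / ε) x := (hasDerivAt_id x).div_const ε
    refine (h2.pow 2).neg.congr_deriv ?_
    have hε' : ε ≠ 0 := hε.ne'
    push_cast
    field_simp
  refine ((h1.exp).div_const (ε * √Real.pi)).congr_deriv ?_
  ring

theorem hasDerivAt_hh (ε : ℝ) (hε : 0 < ε) (Y u : ℝ) (hu : 0 < u) :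
    HasDerivAt (hh ε Y) (hd ε Y u) u := by
  unfold hh
  have h1 : HasDerivAt (fun u : ℝ => Real.log u - Real.log Y) (u⁻¹) u :=
    (Real.hasDerivAt_log hu.ne').sub_const _
  have h2 := (hasDerivAt_ge ε hε (Real.log u - Real.log Y)).comp u h1
  refine (h2.div (hasDerivAt_id u) hu.ne').congr_deriv ?_
  unfold hd
  have hu' : u ≠ 0 := hu.ne'
  have hε' : ε ≠ 0 := hε.ne'
  simp only [Function.comp, id]
  field_simp
  ring

/-- constants -/
noncomputable def c1 (ε : ℝ) : ℝ := Real.exp (ε ^ 2 / 4) / (ε * √Real.pi)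

noncomputable def c2' (ε : ℝ) : ℝ :=
  4 * (2 / ε ^ 2 + 1) * (Real.exp (9 * ε ^ 2 / 4) / (ε * √Real.pi))

theorem c1_pos (ε : ℝ) (hε : 0 < ε) : 0 < c1 ε := by
  unfold c1
  have := Real.pi_pos
  positivity

theorem c2'_pos (ε : ℝ) (hε : 0 < ε) : 0 < c2' ε := by
  unfold c2'
  have := Real.pi_pos
  positivity

theorem hh_nonneg (ε : ℝ) (hε : 0 < ε) (Y u : ℝ) (hu : 0 ≤ u) : 0 ≤ hh ε Y u :=
  div_nonneg (ge_nonneg _ _ hε) hu

theorem hh_le (ε : ℝ) (hε : 0 < ε) (Y u : ℝ) (hY : 0 < Y) (hu : 0 < u) :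
    hh ε Y u ≤ c1 ε / Y := by
  unfold hh
  rw [div_le_iff₀ hu]
  have h1 := ge_le_exp ε hε (-1) (Real.log u - Real.log Y)
  have h2 : Real.exp (-(-1 * (Real.log u - Real.log Y))) = u / Y := by
    rw [show -(-1 * (Real.log u - Real.log Y)) = Real.log u - Real.log Y by ring, Real.exp_sub,
      Real.exp_log hu, Real.exp_log hY]
  rw [h2] at h1
  calc ge ε (Real.log u - Real.log Y) ≤ _ := h1
    _ = c1 ε / Y * u := by
      unfold c1
      rw [show ((-1 : ℝ)) ^ 2 * ε ^ 2 / 4 = ε ^ 2 / 4 by ring]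
      ring

theorem hd_le (ε : ℝ) (hε : 0 < ε) (Y u : ℝ) (hY : 0 < Y) (hu : 0 < u) :
    |hd ε Y u| ≤ c2' ε / (Y + u) ^ 2 := by
  obtain ⟨x, hx⟩ : ∃ x, x = Real.log u - Real.log Y := ⟨_, rfl⟩
  have hex : Real.exp (-x) = Y / u := by
    rw [hx, show -(Real.log u - Real.log Y) = Real.log Y - Real.log u by ring, Real.exp_sub,
      Real.exp_log hu, Real.exp_log hY]
  have key : |2 * x / ε ^ 2 + 1| * ge ε x * (1 + Real.exp (-x)) ^ 2 ≤ c2' ε := by
    have hax : 0 ≤ |x| := abs_nonneg x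
    have e1 : |2 * x / ε ^ 2 + 1| ≤ (2 / ε ^ 2 + 1) * Real.exp |x| := by
      have h1 : |x| + 1 ≤ Real.exp |x| := Real.add_one_le_exp _
      have h2 : |2 * x / ε ^ 2 + 1| ≤ (2 / ε ^ 2) * |x| + 1 := by
        refine (abs_add_le _ _).trans ?_
        rw [abs_one]
        have : |2 * x / ε ^ 2| = 2 / ε ^ 2 * |x| := by
          rw [show 2 * x / ε ^ 2 = (2 / ε ^ 2) * x by ring, abs_mul, abs_of_pos (by positivity)]
        rw [this]
      have h3 : 0 < 2 / ε ^ 2 := by positivity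
      nlinarith
    have e2 : (1 + Real.exp (-x)) ^ 2 ≤ 4 * Real.exp (2 * |x|) := by
      have h1 : Real.exp (-x) ≤ Real.exp |x| := Real.exp_le_exp.mpr (neg_le_abs x)
      have h2 : 1 ≤ Real.exp |x| := Real.one_le_exp hax
      have h3 : Real.exp (2 * |x|) = Real.exp |x| ^ 2 := by
        rw [← Real.exp_nat_mul]; norm_num
      rw [h3]
      have h4 : 0 < Real.exp (-x) := Real.exp_pos _
      nlinarith
    have e3 : ge ε x ≤ Real.exp (-(3 * |x|)) * (Real.exp (9 * ε ^ 2 / 4) / (ε * √Real.pi)) := by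
      have h1 := ge_le_exp ε hε 3 |x|
      have h2 : ge ε |x| = ge ε x := by
        unfold ge
        rw [div_pow, sq_abs, ← div_pow]
      rw [h2] at h1
      refine h1.trans (le_of_eq ?_)
      norm_num
    have hg := ge_nonneg ε x hε
    calc |2 * x / ε ^ 2 + 1| * ge ε x * (1 + Real.exp (-x)) ^ 2
        ≤ ((2 / ε ^ 2 + 1) * Real.exp |x|) *
          (Real.exp (-(3 * |x|)) * (Real.exp (9 * ε ^ 2 / 4) / (ε * √Real.pi))) *
          (4 * Real.exp (2 * |x|)) := by
          apply mul_le_mul _ e2 (by positivity) (by positivity)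
          exact mul_le_mul e1 e3 hg (by positivity)
      _ = (4 * (2 / ε ^ 2 + 1) * (Real.exp (9 * ε ^ 2 / 4) / (ε * √Real.pi))) *
          (Real.exp |x| * Real.exp (-(3 * |x|)) * Real.exp (2 * |x|)) := by ring
      _ = c2' ε := by
          rw [← Real.exp_add, ← Real.exp_add,
            show |x| + -(3 * |x|) + 2 * |x| = 0 by ring, Real.exp_zero, mul_one]
          rfl
  have habs : |hd ε Y u| = |2 * x / ε ^ 2 + 1| * ge ε x / u ^ 2 := by
    unfold hd
    rw [← hx, abs_div, abs_mul, abs_neg, abs_of_nonneg (ge_nonneg ε x hε),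
      abs_of_pos (by positivity : 0 < u ^ 2)]
  rw [habs, le_div_iff₀ (by positivity)]
  calc |2 * x / ε ^ 2 + 1| * ge ε x / u ^ 2 * (Y + u) ^ 2
      = |2 * x / ε ^ 2 + 1| * ge ε x * (1 + Real.exp (-x)) ^ 2 := by
        rw [hex]
        field_simp
        ring
    _ ≤ c2' ε := key

/-- change of variables -/
theorem integral_hh (ε : ℝ) (hε : 0 < ε) (Y : ℝ) :
    IntegrableOn (hh ε Y) (Set.Ioi 0) ∧ ∫ u in Set.Ioi (0 : ℝ), hh ε Y u = 1 := by
  have himg : Real.exp '' Set.univ = Set.Ioi 0 := by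
    rw [Set.image_univ, Real.range_exp]
  have hder : ∀ x ∈ (Set.univ : Set ℝ), HasDerivWithinAt Real.exp (Real.exp x) Set.univ x :=
    fun x _ => (Real.hasDerivAt_exp x).hasDerivWithinAt
  have hinj : Set.InjOn Real.exp Set.univ := Real.exp_injective.injOn
  have hpt : ∀ x : ℝ, |Real.exp x| • hh ε Y (Real.exp x) = ge ε (x - Real.log Y) := by
    intro x
    rw [abs_of_pos (Real.exp_pos x), smul_eq_mul]
    unfold hh
    rw [Real.log_exp]
    have := (Real.exp_pos x).ne'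
    field_simp
  have hgauss : Integrable (fun x : ℝ => ge ε x) := by
    unfold ge
    apply Integrable.div_const
    have h := integrable_exp_neg_mul_sq (b := 1 / ε ^ 2) (by positivity)
    refine h.congr (Filter.Eventually.of_forall fun x => ?_)
    simp only
    congr 1
    rw [div_pow]
    ring
  have hint : ∫ x : ℝ, ge ε x = 1 := by
    unfold ge
    rw [integral_div]
    have h := integral_gaussian (1 / ε ^ 2)
    have e : (fun x : ℝ => Real.exp (-(x / ε) ^ 2)) = fun x : ℝ => Real.exp (-(1 / ε ^ 2) * x ^ 2) := by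
      funext x
      congr 1
      rw [div_pow]
      ring
    rw [e, h]
    have h2 : √(Real.pi / (1 / ε ^ 2)) = ε * √Real.pi := by
      rw [show Real.pi / (1 / ε ^ 2) = ε ^ 2 * Real.pi by field_simp,
        Real.sqrt_mul (by positivity), Real.sqrt_sq hε.le]
    rw [h2]
    have := Real.pi_pos
    exact div_self (by positivity)
  constructor
  · rw [← himg, integrableOn_image_iff_integrableOn_abs_deriv_smul MeasurableSet.univ hder hinj,
      integrableOn_univ]
    refine (hgauss.comp_sub_right (Real.log Y)).congr (Filter.Eventually.of_forall fun x => ?_)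
    exact (hpt x).symm
  · rw [← himg, integral_image_eq_integral_abs_deriv_smul MeasurableSet.univ hder hinj]
    simp only [Measure.restrict_univ]
    rw [integral_congr_ae (Filter.Eventually.of_forall hpt)]
    rw [integral_sub_right_eq_self (fun x => ge ε x) (Real.log Y)]
    exact hint

end PGeAux

open PGeAux

theorem summable_ge (ε : ℝ) (hε : 0 < ε) (Y : ℝ) (hY : 0 < Y) (c : ℕ → ℂ) (K : ℝ) (k : ℕ)
    (hc : ∀ n, 1 ≤ n → ‖c n‖ ≤ K * (n : ℝ) ^ k) :
    Summable (fun n : ℕ => c n * (1 / (n : ℂ)) * (ge ε (Real.log n - Real.log Y) : ℂ)) := by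
  have hpi := Real.pi_pos
  set A : ℝ := Real.exp (((k : ℝ) + 1) ^ 2 * ε ^ 2 / 4) / (ε * √Real.pi) with hA
  have hA0 : 0 < A := by positivity
  have hsum : Summable (fun n : ℕ => |K| * A * Y ^ (k + 1) * (1 / (n : ℝ) ^ 2)) :=
    (Real.summable_one_div_nat_pow.mpr (by norm_num)).mul_left _
  refine Summable.of_norm_bounded hsum fun n => ?_
  rcases Nat.eq_zero_or_pos n with h0 | hn
  · subst h0
    simp
  have hn0 : (0 : ℝ) < n := by exact_mod_cast hn
  have h1 := hc n hn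
  have h2 := ge_le_exp ε hε ((k : ℝ) + 1) (Real.log n - Real.log Y)
  have h3 : Real.exp (-(((k : ℝ) + 1) * (Real.log n - Real.log Y))) = Y ^ (k + 1) / (n : ℝ) ^ (k + 1) := by
    rw [show -(((k : ℝ) + 1) * (Real.log n - Real.log Y)) =
      ((k + 1 : ℕ) : ℝ) * Real.log Y - ((k + 1 : ℕ) : ℝ) * Real.log n by push_cast; ring,
      Real.exp_sub, Real.exp_nat_mul, Real.exp_nat_mul, Real.exp_log hY, Real.exp_log hn0]
  rw [h3, ← hA] at h2
  rw [norm_mul, norm_mul, norm_div, norm_one, Complex.norm_natCast, Complex.norm_real,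
    Real.norm_of_nonneg (ge_nonneg ε _ hε)]
  have h4 : ‖c n‖ ≤ |K| * (n : ℝ) ^ k := by
    refine h1.trans ?_
    exact mul_le_mul_of_nonneg_right (le_abs_self K) (by positivity)
  calc ‖c n‖ * (1 / (n : ℝ)) * ge ε (Real.log n - Real.log Y)
      ≤ (|K| * (n : ℝ) ^ k) * (1 / (n : ℝ)) * (Y ^ (k + 1) / (n : ℝ) ^ (k + 1) * A) := by
        apply mul_le_mul _ h2 (ge_nonneg ε _ hε) (by positivity)
        exact mul_le_mul_of_nonneg_right h4 (by positivity)
    _ = |K| * A * Y ^ (k + 1) * (1 / (n : ℝ) ^ 2) := by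
        field_simp
        ring

/-- Riemann sum of the Gaussian kernel. -/
theorem ge_sum (ε : ℝ) (hε : 0 < ε) (hε1 : ε ≤ 1) : ∃ K : ℝ, 0 < K ∧ ∀ Y : ℝ, 0 < Y →
    |∑' n : ℕ, (1 / (n : ℝ)) * ge ε (Real.log n - Real.log Y) - 1| ≤ K / Y := by
  have hc1 := c1_pos ε hε
  have hc2 := c2'_pos ε hε
  refine ⟨c1 ε + c1 ε + c2' ε, by positivity, fun Y hY => ?_⟩
  obtain ⟨hI, hI1⟩ := integral_hh ε hε Y
  have hsm : Summable (fun n : ℕ => (1 / (n : ℝ)) * ge ε (Real.log n - Real.log Y)) := by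
    have h := summable_ge ε hε Y hY (fun _ => 1) 1 0 (fun n _ => by simp)
    have h2 := h.norm
    refine h2.congr fun n => ?_
    rw [one_mul, norm_mul, norm_div, norm_one, Complex.norm_natCast, Complex.norm_real,
      Real.norm_of_nonneg (ge_nonneg ε _ hε)]
  have hterm : ∀ n : ℕ, (1 / (n : ℝ)) * ge ε (Real.log n - Real.log Y) = hh ε Y n := by
    intro n
    unfold hh
    ring
  have hlim1 : Filter.Tendsto (fun M : ℕ => ∑ n ∈ range (M + 2), hh ε Y n) Filter.atTop
      (nhds (∑' n : ℕ, (1 / (n : ℝ)) * ge ε (Real.log n - Real.log Y))) := by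
    have h := hsm.hasSum.tendsto_sum_nat
    simp only [hterm] at h
    simp only [hterm]
    exact h.comp (Filter.tendsto_add_atTop_nat 2)
  have hlim2 : Filter.Tendsto (fun M : ℕ => ∫ u in (0 : ℝ)..((M + 1 : ℕ) : ℝ), hh ε Y u) Filter.atTop
      (nhds 1) := by
    have h := intervalIntegral_tendsto_integral_Ioi (0 : ℝ) hI
      (tendsto_natCast_atTop_atTop.comp (Filter.tendsto_add_atTop_nat 1) :
        Filter.Tendsto (fun M : ℕ => ((M + 1 : ℕ) : ℝ)) Filter.atTop Filter.atTop)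
    rw [hI1] at h
    exact h
  have hint : ∀ a b : ℝ, 0 ≤ a → 0 ≤ b → IntervalIntegrable (hh ε Y) volume a b := by
    intro a b ha hb
    rw [intervalIntegrable_iff]
    apply hI.mono_set
    intro u hu
    rw [Set.mem_uIoc] at hu
    rw [Set.mem_Ioi]
    rcases hu with h | h <;> linarith [h.1]
  have hbound : ∀ M : ℕ, |∑ n ∈ range (M + 2), hh ε Y n - ∫ u in (0 : ℝ)..((M + 1 : ℕ) : ℝ), hh ε Y u|
      ≤ c1 ε / Y + c1 ε / Y + c2' ε * (1 / Y - 1 / (Y + M)) := by
    intro M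
    induction M with
    | zero =>
      rw [Finset.sum_range_succ, Finset.sum_range_one]
      have h0 : hh ε Y ((0 : ℕ) : ℝ) = 0 := by
        unfold hh; simp
      rw [h0, zero_add]
      have h1 : |hh ε Y ((1 : ℕ) : ℝ)| ≤ c1 ε / Y := by
        rw [abs_of_nonneg (hh_nonneg ε hε Y _ (by norm_num))]
        exact hh_le ε hε Y _ hY (by norm_num)
      have h2 : ‖∫ u in (0 : ℝ)..((0 + 1 : ℕ) : ℝ), hh ε Y u‖ ≤ c1 ε / Y * |((0 + 1 : ℕ) : ℝ) - 0| := by
        apply intervalIntegral.norm_integral_le_of_norm_le_const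
        intro u hu
        rw [Set.uIoc_of_le (by norm_num)] at hu
        rw [Real.norm_of_nonneg (hh_nonneg ε hε Y _ hu.1.le)]
        exact hh_le ε hε Y _ hY hu.1
      rw [Real.norm_eq_abs] at h2
      norm_num at h2 ⊢
      have h3 := abs_sub (hh ε Y 1) (∫ u in (0 : ℝ)..1, hh ε Y u)
      norm_num at h1
      linarith
    | succ M ih =>
      have hM : (0 : ℝ) < ((M + 1 : ℕ) : ℝ) := by positivity
      have hsplit : ∫ u in (0 : ℝ)..((M + 1 + 1 : ℕ) : ℝ), hh ε Y u =
          (∫ u in (0 : ℝ)..((M + 1 : ℕ) : ℝ), hh ε Y u) +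
            ∫ u in ((M + 1 : ℕ) : ℝ)..((M + 1 + 1 : ℕ) : ℝ), hh ε Y u := by
        rw [intervalIntegral.integral_add_adjacent_intervals (hint _ _ le_rfl hM.le)
          (hint _ _ hM.le (by positivity))]
      have hstep : |hh ε Y ((M + 2 : ℕ) : ℝ) -
          ∫ u in ((M + 1 : ℕ) : ℝ)..((M + 1 + 1 : ℕ) : ℝ), hh ε Y u| ≤
          c2' ε / (Y + ((M + 1 : ℕ) : ℝ)) ^ 2 := by
        have e1 : hh ε Y ((M + 2 : ℕ) : ℝ) -
            ∫ u in ((M + 1 : ℕ) : ℝ)..((M + 1 + 1 : ℕ) : ℝ), hh ε Y u =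
            ∫ u in ((M + 1 : ℕ) : ℝ)..((M + 1 + 1 : ℕ) : ℝ), (hh ε Y ((M + 2 : ℕ) : ℝ) - hh ε Y u) := by
          rw [intervalIntegral.integral_sub intervalIntegrable_const
            (hint _ _ hM.le (by positivity)), intervalIntegral.integral_const]
          push_cast
          simp
        rw [e1]
        have h2 := intervalIntegral.norm_integral_le_of_norm_le_const (a := ((M + 1 : ℕ) : ℝ))
          (b := ((M + 1 + 1 : ℕ) : ℝ)) (f := fun u => (hh ε Y ((M + 2 : ℕ) : ℝ) - hh ε Y u))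
          (C := c2' ε / (Y + ((M + 1 : ℕ) : ℝ)) ^ 2) (fun u hu => by
            rw [Set.uIoc_of_le (by push_cast; linarith)] at hu
            have hu2 : u ≤ ((M + 2 : ℕ) : ℝ) := by
              have := hu.2
              push_cast at this ⊢
              linarith
            have hmv := (convex_Icc ((M + 1 : ℕ) : ℝ) ((M + 2 : ℕ) : ℝ)).norm_image_sub_le_of_norm_hasDerivWithin_le
              (f := hh ε Y) (f' := hd ε Y) (C := c2' ε / (Y + ((M + 1 : ℕ) : ℝ)) ^ 2)
              (fun v hv => (hasDerivAt_hh ε hε Y v (lt_of_lt_of_le hM hv.1)).hasDerivWithinAt)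
              (fun v hv => by
                rw [Real.norm_eq_abs]
                refine (hd_le ε hε Y v hY (lt_of_lt_of_le hM hv.1)).trans ?_
                apply div_le_div_of_nonneg_left hc2.le (by positivity)
                apply pow_le_pow_left₀ (by positivity)
                linarith [hv.1])
              (show u ∈ Set.Icc ((M + 1 : ℕ) : ℝ) ((M + 2 : ℕ) : ℝ) from ⟨hu.1.le, hu2⟩)
              (show ((M + 2 : ℕ) : ℝ) ∈ Set.Icc ((M + 1 : ℕ) : ℝ) ((M + 2 : ℕ) : ℝ) from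
                ⟨by push_cast; linarith, le_rfl⟩)
            refine hmv.trans ?_
            have h5 : ‖((M + 2 : ℕ) : ℝ) - u‖ ≤ 1 := by
              rw [Real.norm_of_nonneg (by linarith)]
              have := hu.1
              push_cast at this ⊢
              linarith
            exact mul_le_of_le_one_right (by positivity) h5)
        rw [Real.norm_eq_abs] at h2
        refine h2.trans (le_of_eq ?_)
        push_cast
        rw [show (M : ℝ) + 1 + 1 - (M + 1) = 1 by ring, abs_one, mul_one]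
      have htel : c2' ε / (Y + ((M + 1 : ℕ) : ℝ)) ^ 2 ≤ c2' ε * (1 / (Y + M) - 1 / (Y + (M + 1 : ℕ))) := by
        have hp1 : 0 < Y + M := by positivity
        have hp2 : 0 < Y + ((M + 1 : ℕ) : ℝ) := by positivity
        have e : 1 / (Y + M) - 1 / (Y + (M + 1 : ℕ)) = 1 / ((Y + M) * (Y + ((M + 1 : ℕ) : ℝ))) := by
          push_cast at hp2 ⊢
          field_simp
          ring
        rw [e, mul_one_div]
        apply div_le_div_of_nonneg_left hc2.le (by positivity)
        rw [sq]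
        apply mul_le_mul_of_nonneg_right _ hp2.le
        push_cast
        linarith
      rw [Finset.sum_range_succ, hsplit]
      have e2 : (∑ n ∈ range (M + 1 + 1), hh ε Y n + hh ε Y ((M + 1 + 1 : ℕ) : ℝ)) -
          ((∫ u in (0 : ℝ)..((M + 1 : ℕ) : ℝ), hh ε Y u) +
            ∫ u in ((M + 1 : ℕ) : ℝ)..((M + 1 + 1 : ℕ) : ℝ), hh ε Y u) =
          (∑ n ∈ range (M + 2), hh ε Y n - ∫ u in (0 : ℝ)..((M + 1 : ℕ) : ℝ), hh ε Y u) +
          (hh ε Y ((M + 2 : ℕ) : ℝ) -
            ∫ u in ((M + 1 : ℕ) : ℝ)..((M + 1 + 1 : ℕ) : ℝ), hh ε Y u) := by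
        ring
      rw [e2]
      refine (abs_add_le _ _).trans ?_
      have := hstep.trans htel
      linarith
  have hbound2 : ∀ M : ℕ, |∑ n ∈ range (M + 2), hh ε Y n - ∫ u in (0 : ℝ)..((M + 1 : ℕ) : ℝ), hh ε Y u|
      ≤ (c1 ε + c1 ε + c2' ε) / Y := by
    intro M
    refine (hbound M).trans ?_
    have : 0 ≤ 1 / (Y + M) := by positivity
    have h3 : c2' ε * (1 / Y - 1 / (Y + M)) ≤ c2' ε * (1 / Y) :=
      mul_le_mul_of_nonneg_left (by linarith) hc2.le
    calc c1 ε / Y + c1 ε / Y + c2' ε * (1 / Y - 1 / (Y + M))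
        ≤ c1 ε / Y + c1 ε / Y + c2' ε * (1 / Y) := by linarith
      _ = (c1 ε + c1 ε + c2' ε) / Y := by ring
  have hlim := (hlim1.sub hlim2).abs
  exact le_of_tendsto' hlim hbound2

end Pool.Agent.MR
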