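import Pool.Agent.MR.AExp

set_option autoImplicit false

open Finset MeasureTheory

namespace Pool.Agent.MR

theorem plb_abel_identity (w : ℕ → ℝ) (z : ℕ → ℂ) (a b : ℕ) (hab : a ≤ b) :
    ∑ n ∈ Ico a b, (w n : ℂ) * z n = (w b : ℂ) * ∑ k ∈ Ico a b, z k +
      ∑ n ∈ Ico a b, ((w n - w (n + 1) : ℝ) : ℂ) * ∑ k ∈ Ico a (n + 1), z k := by
  induction b, hab using Nat.le_induction with
  | base => simp
  | succ b hb ih =>
    rw [sum_Ico_succ_top hb, sum_Ico_succ_top hb, sum_Ico_succ_top hb, ih,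
      sum_Ico_succ_top hb]
    push_cast
    ring

theorem plb_abel (w : ℕ → ℝ) (z : ℕ → ℂ) (a b : ℕ) (B : ℝ) (hab : a ≤ b)
    (hw0 : ∀ n, a ≤ n → 0 ≤ w n) (hw : ∀ n, a ≤ n → w (n + 1) ≤ w n)
    (hB : ∀ n, a ≤ n → n ≤ b → ‖∑ k ∈ Ico a n, z k‖ ≤ B) :
    ‖∑ n ∈ Ico a b, (w n : ℂ) * z n‖ ≤ w a * B := by
  rw [plb_abel_identity w z a b hab]
  have h1 : ‖(w b : ℂ) * ∑ k ∈ Ico a b, z k‖ ≤ w b * B := by
    rw [norm_mul, Complex.norm_real, Real.norm_eq_abs, abs_of_nonneg (hw0 b hab)]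
    exact mul_le_mul_of_nonneg_left (hB b hab le_rfl) (hw0 b hab)
  have h2 : ‖∑ n ∈ Ico a b, ((w n - w (n + 1) : ℝ) : ℂ) * ∑ k ∈ Ico a (n + 1), z k‖
      ≤ ∑ n ∈ Ico a b, (w n - w (n + 1)) * B := by
    refine norm_sum_le_of_le _ ?_
    intro n hn
    rw [mem_Ico] at hn
    have h3 : 0 ≤ w n - w (n + 1) := by linarith [hw n hn.1]
    rw [norm_mul, Complex.norm_real, Real.norm_eq_abs, abs_of_nonneg h3]
    exact mul_le_mul_of_nonneg_left (hB (n + 1) (by omega) (by omega)) h3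
  have h4 : ∑ n ∈ Ico a b, (w n - w (n + 1)) = w a - w b := by
    clear h1 h2 hB
    induction b, hab using Nat.le_induction with
    | base => simp
    | succ b hb ih =>
      rw [sum_Ico_succ_top hb, ih]
      ring
  rw [← sum_mul, h4] at h2
  refine (norm_add_le _ _).trans ?_
  linarith

/-- `(x+ρ)^z`. -/
noncomputable def hE (ρ : ℝ) (z : ℂ) (x : ℝ) : ℂ := Complex.exp (z * (Real.log (x + ρ) : ℂ))

theorem norm_hE (ρ : ℝ) (z : ℂ) (x : ℝ) : ‖hE ρ z x‖ = Real.exp (z.re * Real.log (x + ρ)) := by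
  unfold hE
  rw [Complex.norm_exp]
  congr 1
  simp

theorem hE_add (ρ : ℝ) (z z' : ℂ) (x : ℝ) : hE ρ (z + z') x = hE ρ z x * hE ρ z' x := by
  unfold hE
  rw [← Complex.exp_add]
  congr 1
  ring

theorem hE_one (ρ x : ℝ) (hx : 0 < x + ρ) : hE ρ 1 x = ((x + ρ : ℝ) : ℂ) := by
  unfold hE
  rw [one_mul, ← Complex.ofReal_exp, Real.exp_log hx]

theorem hasDerivAt_hE (ρ : ℝ) (z : ℂ) (x : ℝ) (hx : 0 < x + ρ) :
    HasDerivAt (hE ρ z) (z * hE ρ (z - 1) x) x := by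
  have h1 : HasDerivAt (fun x : ℝ => Real.log (x + ρ)) ((x + ρ)⁻¹) x := by
    have := (hasDerivAt_id x).add_const ρ
    simpa using this.log hx.ne'
  have h2 : HasDerivAt (fun x : ℝ => ((Real.log (x + ρ) : ℝ) : ℂ)) (((x + ρ)⁻¹ : ℝ) : ℂ) x :=
    h1.ofReal_comp
  have h3 := (h2.const_mul z).cexp
  have e1 : hE ρ z x = hE ρ (z - 1) x * ((x + ρ : ℝ) : ℂ) := by
    rw [← hE_one ρ x hx, ← hE_add]
    congr 1
    ring
  have hne : ((x + ρ : ℝ) : ℂ) ≠ 0 := by exact_mod_cast hx.ne'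
  have e2 : Complex.exp (z * ((Real.log (x + ρ) : ℝ) : ℂ)) * (z * (((x + ρ)⁻¹ : ℝ) : ℂ))
      = z * hE ρ (z - 1) x := by
    change hE ρ z x * (z * (((x + ρ)⁻¹ : ℝ) : ℂ)) = _
    rw [e1, Complex.ofReal_inv]
    field_simp
  rw [← e2]
  exact h3

theorem norm_hE_le_one (ρ : ℝ) (z : ℂ) (x : ℝ) (hx : 1 ≤ x + ρ) (hz : z.re ≤ 0) :
    ‖hE ρ z x‖ ≤ 1 := by
  rw [norm_hE, Real.exp_le_one_iff]
  exact mul_nonpos_of_nonpos_of_nonneg hz (Real.log_nonneg hx)

theorem norm_hE_le_inv_pow (ρ : ℝ) (hρ : 0 ≤ ρ) (z : ℂ) (m : ℕ) (hz : z.re ≤ -(m : ℝ)) (k : ℝ)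
    (hk : 1 ≤ k) (x : ℝ) (hx : k ≤ x) : ‖hE ρ z x‖ ≤ (k ^ m)⁻¹ := by
  rw [norm_hE]
  have h1 : 0 ≤ Real.log (x + ρ) := Real.log_nonneg (by linarith)
  have h2 : z.re * Real.log (x + ρ) ≤ -(m * Real.log k) := by
    have h3 : Real.log k ≤ Real.log (x + ρ) := Real.log_le_log (by linarith) (by linarith)
    have h4 : z.re * Real.log (x + ρ) ≤ -(m : ℝ) * Real.log (x + ρ) :=
      mul_le_mul_of_nonneg_right hz h1
    have h5 : (m : ℝ) * Real.log k ≤ m * Real.log (x + ρ) :=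
      mul_le_mul_of_nonneg_left h3 (Nat.cast_nonneg m)
    linarith
  refine (Real.exp_le_exp.mpr h2).trans (le_of_eq ?_)
  rw [Real.exp_neg, ← Real.log_pow, Real.exp_log (by positivity)]

/-- one step of Euler-Maclaurin -/
theorem plb_step (ρ : ℝ) (hρ : 0 ≤ ρ) (s : ℂ) (hs : 1 ≤ s.re) (hs1 : 1 - s ≠ 0) (k : ℕ)
    (hk : 1 ≤ k) :
    ‖hE ρ (-s) k - (hE ρ (1 - s) ((k + 1 : ℕ) : ℝ) / (1 - s) - hE ρ (1 - s) k / (1 - s))‖
      ≤ ‖s‖ * ((k : ℝ) ^ 2)⁻¹ := by
  have hk' : (1 : ℝ) ≤ k := by exact_mod_cast hk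
  -- oscillation of `hE ρ (-s)` on `[k, k+1]`
  have h1 : ∀ x ∈ Set.Icc (k : ℝ) (k + 1), ‖hE ρ (-s) x - hE ρ (-s) k‖ ≤ ‖s‖ * ((k : ℝ) ^ 2)⁻¹ := by
    intro x hx
    have h2 := norm_image_sub_le_of_norm_deriv_le_segment' (a := (k : ℝ)) (b := k + 1)
      (f := hE ρ (-s)) (f' := fun y => -s * hE ρ (-s - 1) y) (C := ‖s‖ * ((k : ℝ) ^ 2)⁻¹)
      (fun y hy => (hasDerivAt_hE ρ (-s) y (by linarith [hy.1])).hasDerivWithinAt)
      (fun y hy => by
        rw [norm_mul, norm_neg]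
        apply mul_le_mul_of_nonneg_left _ (norm_nonneg _)
        apply norm_hE_le_inv_pow ρ hρ _ 2 _ k hk' y hy.1
        simp
        linarith) x hx
    refine h2.trans ?_
    have h3 : 0 ≤ ‖s‖ * ((k : ℝ) ^ 2)⁻¹ := by positivity
    have h4 : x - k ≤ 1 := by linarith [hx.2]
    nlinarith [hx.1]
  have h5 := norm_image_sub_le_of_norm_deriv_le_segment' (a := (k : ℝ)) (b := k + 1)
      (f := fun y : ℝ => hE ρ (1 - s) y / (1 - s) - (y : ℂ) * hE ρ (-s) k)
      (f' := fun y => hE ρ (-s) y - hE ρ (-s) k) (C := ‖s‖ * ((k : ℝ) ^ 2)⁻¹)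
      (fun y hy => by
        have h6 := (hasDerivAt_hE ρ (1 - s) y (by linarith [hy.1])).div_const (1 - s)
        have e1 : (1 - s) * hE ρ (1 - s - 1) y / (1 - s) = hE ρ (-s) y := by
          rw [mul_div_assoc, mul_div_cancel₀ _ hs1]
          congr 1
          ring
        rw [e1] at h6
        have h7 : HasDerivAt (fun y : ℝ => (y : ℂ) * hE ρ (-s) k) (hE ρ (-s) k) y := by
          have := ((hasDerivAt_id y).ofReal_comp).mul_const (hE ρ (-s) k)
          simpa using this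
        exact (h6.sub h7).hasDerivWithinAt)
      (fun y hy => h1 y ⟨hy.1, hy.2.le⟩) (k + 1) ⟨by linarith, le_rfl⟩
  have e2 : ((k : ℝ) + 1 - k) = 1 := by ring
  rw [e2, mul_one] at h5
  refine le_trans (le_of_eq ?_) h5
  rw [← norm_neg]
  congr 1
  push_cast
  ring

theorem plb_tail (ρ : ℝ) (hρ : 0 ≤ ρ) (s : ℂ) (hs : 1 ≤ s.re) (hs1 : 1 ≤ ‖1 - s‖) (a b : ℕ)
    (ha : 1 ≤ a) (hab : a ≤ b) :
    ‖∑ k ∈ Ico a b, hE ρ (-s) k‖ ≤ 2 + ‖s‖ * (2 / a) := by
  have hs2 : 1 - s ≠ 0 := by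
    intro h
    rw [h, norm_zero] at hs1
    linarith
  have h1 : ‖∑ k ∈ Ico a b, (hE ρ (-s) k -
      (hE ρ (1 - s) ((k + 1 : ℕ) : ℝ) / (1 - s) - hE ρ (1 - s) k / (1 - s)))‖
      ≤ ‖s‖ * (2 / a) := by
    refine (norm_sum_le_of_le (n := fun k : ℕ => ‖s‖ * ((k : ℝ) ^ 2)⁻¹) _
      (fun k hk => ?_)).trans ?_
    · rw [mem_Ico] at hk
      exact plb_step ρ hρ s hs hs2 k (by omega)
    · rw [← mul_sum]
      apply mul_le_mul_of_nonneg_left _ (norm_nonneg _)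
      have h2 := sum_Ioo_inv_sq_le (α := ℝ) (a - 1) b
      have e1 : Ioo (a - 1) b = Ico a b := by
        ext k
        rw [mem_Ioo, mem_Ico]
        omega
      rw [e1] at h2
      refine h2.trans (le_of_eq ?_)
      congr 1
      have : ((a - 1 : ℕ) : ℝ) = (a : ℝ) - 1 := by
        push_cast [Nat.cast_sub ha]
        ring
      rw [this]
      ring
  have h3 : ∑ k ∈ Ico a b, (hE ρ (1 - s) ((k + 1 : ℕ) : ℝ) / (1 - s) - hE ρ (1 - s) k / (1 - s))
      = hE ρ (1 - s) b / (1 - s) - hE ρ (1 - s) a / (1 - s) := by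
    clear h1
    induction b, hab using Nat.le_induction with
    | base => simp
    | succ b hb ih =>
      rw [sum_Ico_succ_top hb, ih]
      ring
  rw [sum_sub_distrib, h3] at h1
  have h4 : ∀ c : ℕ, 1 ≤ c → ‖hE ρ (1 - s) c / (1 - s)‖ ≤ 1 := by
    intro c hc
    have hc' : (1 : ℝ) ≤ c := by exact_mod_cast hc
    rw [norm_div, div_le_one (by linarith)]
    refine (norm_hE_le_one ρ _ _ (by linarith) ?_).trans hs1
    simp
    linarith
  have e5 : ∑ k ∈ Ico a b, hE ρ (-s) k = (∑ k ∈ Ico a b, hE ρ (-s) k -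
      (hE ρ (1 - s) b / (1 - s) - hE ρ (1 - s) a / (1 - s))) + hE ρ (1 - s) b / (1 - s)
      - hE ρ (1 - s) a / (1 - s) := by ring
  rw [e5]
  refine (norm_sub_le _ _).trans ?_
  have h6 := norm_add_le (∑ k ∈ Ico a b, hE ρ (-s) k -
      (hE ρ (1 - s) b / (1 - s) - hE ρ (1 - s) a / (1 - s))) (hE ρ (1 - s) b / (1 - s))
  linarith [h4 a ha, h4 b (ha.trans hab)]

theorem plb_head (ρ : ℝ) (hρ : 0 ≤ ρ) (s : ℂ) (hs : 1 ≤ s.re) (b : ℕ) (hb : 1 ≤ b) :
    ‖∑ k ∈ Ico 1 b, hE ρ (-s) k‖ ≤ 1 + Real.log b := by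
  refine (norm_sum_le_of_le (n := fun k : ℕ => ((k : ℝ))⁻¹) _ (fun k hk => ?_)).trans ?_
  · rw [mem_Ico] at hk
    have := norm_hE_le_inv_pow ρ hρ (-s) 1 (by simp; linarith) k (by exact_mod_cast hk.1) k le_rfl
    simpa using this
  · have h1 := harmonic_le_one_add_log (b - 1)
    have h2 : ((harmonic (b - 1) : ℚ) : ℝ) = ∑ k ∈ Ico 1 b, ((k : ℝ))⁻¹ := by
      rw [harmonic, Finset.sum_Ico_eq_sum_range]
      push_cast
      apply sum_congr rfl
      intro i _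
      rw [add_comm]
    rw [h2] at h1
    refine h1.trans ?_
    rcases Nat.eq_or_lt_of_le hb with h | h
    · rw [← h]
      simp
    · have : Real.log ((b - 1 : ℕ) : ℝ) ≤ Real.log b := by
        apply Real.log_le_log
        · have : 1 ≤ b - 1 := by omega
          exact_mod_cast this
        · exact_mod_cast Nat.sub_le b 1
      linarith

/-- one dyadic block -/
theorem plb_block (ρ : ℝ) (hρ : 0 ≤ ρ) (α v X B : ℝ) (hα : 0 ≤ α) (hX : 1 ≤ X) (a b : ℕ)
    (ha : X ≤ a) (hab : a ≤ b)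
    (hB : ∀ n : ℕ, a ≤ n → n ≤ b →
      ‖∑ k ∈ Ico a n, Complex.exp ((-v * Real.log (k + ρ) : ℝ) * Complex.I)‖ ≤ B) :
    ‖∑ k ∈ Ico a b, hE ρ (-(1 + α + v * Complex.I)) k‖ ≤ X⁻¹ * B := by
  have e1 : ∀ k : ℕ, hE ρ (-(1 + α + v * Complex.I)) k
      = ((Real.exp (-(1 + α) * Real.log (k + ρ)) : ℝ) : ℂ) *
        Complex.exp ((-v * Real.log (k + ρ) : ℝ) * Complex.I) := by
    intro k
    unfold hE
    rw [Complex.ofReal_exp, ← Complex.exp_add]
    congr 1
    push_cast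
    ring
  simp only [e1]
  have ha' : (1 : ℝ) ≤ a := by linarith
  have hlog : ∀ n : ℕ, a ≤ n → 0 ≤ Real.log (n + ρ) := by
    intro n hn
    have : (a : ℝ) ≤ n := by exact_mod_cast hn
    exact Real.log_nonneg (by linarith)
  have h := plb_abel (fun k : ℕ => Real.exp (-(1 + α) * Real.log (k + ρ)))
    (fun k : ℕ => Complex.exp ((-v * Real.log (k + ρ) : ℝ) * Complex.I)) a b B hab
    (fun n _ => (Real.exp_pos _).le) (fun n hn => by
      apply Real.exp_le_exp.mpr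
      have h1 : Real.log ((n : ℝ) + ρ) ≤ Real.log (((n + 1 : ℕ) : ℝ) + ρ) := by
        apply Real.log_le_log
        · have : (a : ℝ) ≤ n := by exact_mod_cast hn
          linarith
        · push_cast
          linarith
      have h2 : (1 + α) * Real.log ((n : ℝ) + ρ) ≤ (1 + α) * Real.log (((n + 1 : ℕ) : ℝ) + ρ) :=
        mul_le_mul_of_nonneg_left h1 (by linarith)
      linarith) hB
  refine h.trans ?_
  have hB0 : 0 ≤ B := (norm_nonneg _).trans (hB a le_rfl hab)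
  apply mul_le_mul_of_nonneg_right _ hB0
  have h3 : -(1 + α) * Real.log ((a : ℝ) + ρ) ≤ -Real.log X := by
    have h4 : Real.log X ≤ Real.log ((a : ℝ) + ρ) := Real.log_le_log (by linarith) (by linarith)
    have h5 : 0 ≤ α * Real.log ((a : ℝ) + ρ) := mul_nonneg hα (hlog a le_rfl)
    linarith
  refine (Real.exp_le_exp.mpr h3).trans (le_of_eq ?_)
  rw [Real.exp_neg, Real.exp_log (by linarith)]

/-- the middle range -/
theorem plb_middle (C η X0 : ℝ) (hη : 0 < η) (hX0 : 1 ≤ X0)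
    (hW : ∀ X : ℝ, X0 ≤ X →
    ∀ ρ : ℝ, 0 ≤ ρ → ρ ≤ 1 → ∀ t : ℝ, X ^ (1 / 16 : ℝ) ≤ |t| → |t| ≤ X ^ C →
    ∀ a b : ℕ, X ≤ a → (b : ℝ) ≤ 4 * X →
      ‖∑ n ∈ Ico a b, Complex.exp ((t * Real.log (n + ρ) : ℝ) * Complex.I)‖ ≤ X ^ (1 - η))
    (hC : 0 ≤ C) (ρ : ℝ) (hρ : 0 ≤ ρ) (hρ1 : ρ ≤ 1) (α v : ℝ) (hα : 0 ≤ α) (hv : 1 ≤ |v|)
    (X : ℝ) (hX : X0 ≤ X) (hvX : |v| ≤ X ^ C) (J : ℕ) :
    ∀ a b : ℕ, X ≤ a → b ≤ ⌈2 ^ J * X⌉₊ → b ≤ ⌈|v| ^ 16⌉₊ →
      ‖∑ k ∈ Ico a b, hE ρ (-(1 + α + v * Complex.I)) k‖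
        ≤ ∑ j ∈ range J, ((2 : ℝ) ^ (-η)) ^ j := by
  have hX1 : 1 ≤ X := hX0.trans hX
  induction J with
  | zero =>
    intro a b ha hb _
    have : b ≤ a := by
      refine hb.trans ?_
      rw [pow_zero, one_mul]
      exact Nat.ceil_le.mpr ha
    rw [Ico_eq_empty (by omega)]
    simp
  | succ J ih =>
    intro a b ha hb hb2
    rw [sum_range_succ]
    have hpos : 0 ≤ ((2 : ℝ) ^ (-η)) ^ J := by positivity
    set c := ⌈2 ^ J * X⌉₊ with hc
    rcases le_or_gt b c with hbc | hbc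
    · have := ih a b ha hbc hb2
      linarith
    have h2J : (1 : ℝ) ≤ 2 ^ J := one_le_pow₀ (by norm_num)
    have hXJ : X ≤ 2 ^ J * X := by nlinarith
    have hX'1 : 1 ≤ 2 ^ J * X := by linarith
    -- block bound
    have hblock : ∀ a' : ℕ, 2 ^ J * X ≤ a' → a' ≤ b →
        ‖∑ k ∈ Ico a' b, hE ρ (-(1 + α + v * Complex.I)) k‖ ≤ ((2 : ℝ) ^ (-η)) ^ J := by
      intro a' ha' hab'
      have hb4 : (b : ℝ) ≤ 4 * (2 ^ J * X) := by
        have h3 : (b : ℝ) ≤ (⌈2 ^ (J + 1) * X⌉₊ : ℝ) := by exact_mod_cast hb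
        have h4 := Nat.ceil_lt_add_one (show (0 : ℝ) ≤ 2 ^ (J + 1) * X by positivity)
        have h5 : (2 : ℝ) ^ (J + 1) * X = 2 * (2 ^ J * X) := by ring
        linarith
      have hlow : (2 ^ J * X) ^ (1 / 16 : ℝ) ≤ |v| := by
        have h6 : (2 : ℝ) ^ J * X ≤ |v| ^ 16 := by
          have h7 : (2 : ℝ) ^ J * X ≤ c := Nat.le_ceil _
          have h8 : (c : ℝ) ≤ (b : ℝ) - 1 := by
            have : c + 1 ≤ b := hbc
            have h9 : ((c + 1 : ℕ) : ℝ) ≤ b := by exact_mod_cast this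
            push_cast at h9
            linarith
          have h9 : (b : ℝ) ≤ (⌈|v| ^ 16⌉₊ : ℝ) := by exact_mod_cast hb2
          have h10 := Nat.ceil_lt_add_one (show (0 : ℝ) ≤ |v| ^ 16 by positivity)
          linarith
        calc (2 ^ J * X) ^ (1 / 16 : ℝ) ≤ (|v| ^ 16) ^ (1 / 16 : ℝ) :=
              Real.rpow_le_rpow (by positivity) h6 (by norm_num)
          _ = |v| := by
              rw [← Real.rpow_natCast, ← Real.rpow_mul (abs_nonneg v)]
              norm_num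
      have hup : |v| ≤ (2 ^ J * X) ^ C :=
        hvX.trans (Real.rpow_le_rpow (by linarith) hXJ hC)
      have h := plb_block ρ hρ α v (2 ^ J * X) ((2 ^ J * X) ^ (1 - η)) hα hX'1 a' b ha' hab'
        (fun n hn hnb => by
          apply hW (2 ^ J * X) (hX.trans hXJ) ρ hρ hρ1 (-v) (by rwa [abs_neg])
            (by rwa [abs_neg]) a' n ha'
          have : (n : ℝ) ≤ b := by exact_mod_cast hnb
          linarith)
      refine h.trans ?_
      have e1 : (2 ^ J * X)⁻¹ * (2 ^ J * X) ^ (1 - η) = (2 ^ J * X) ^ (-η) := by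
        rw [← Real.rpow_neg_one, ← Real.rpow_add (by linarith)]
        congr 1
        ring
      rw [e1, Real.mul_rpow (by positivity) (by linarith)]
      have e2 : ((2 : ℝ) ^ J) ^ (-η) = ((2 : ℝ) ^ (-η)) ^ J := by
        rw [← Real.rpow_natCast, ← Real.rpow_natCast, ← Real.rpow_mul (by norm_num),
          ← Real.rpow_mul (by norm_num)]
        congr 1
        ring
      rw [e2]
      have e3 : X ^ (-η) ≤ 1 := Real.rpow_le_one_of_one_le_of_nonpos hX1 (by linarith)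
      nlinarith
    rcases le_or_gt c a with hca | hca
    · rcases le_or_gt a b with hab | hab
      · have h1 := hblock a ((Nat.le_ceil _).trans (Nat.cast_le.mpr hca)) hab
        have h2 : 0 ≤ ∑ j ∈ range J, ((2 : ℝ) ^ (-η)) ^ j := sum_nonneg (fun j _ => by positivity)
        linarith
      · rw [Ico_eq_empty (by omega)]
        simp only [sum_empty, norm_zero]
        have h2 : 0 ≤ ∑ j ∈ range J, ((2 : ℝ) ^ (-η)) ^ j := sum_nonneg (fun j _ => by positivity)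
        linarith
    · rw [← sum_Ico_consecutive _ hca.le hbc.le]
      refine (norm_add_le _ _).trans ?_
      have h1 := ih a c ha le_rfl (by omega)
      have h2 := hblock c (Nat.le_ceil _) hbc.le
      linarith

/-- Bound for the Hurwitz type sums. -/
theorem plb_hurwitz (ε : ℝ) (hε : 0 < ε) : ∃ K : ℝ, 0 < K ∧ ∀ ρ : ℝ, 0 ≤ ρ → ρ ≤ 1 →
    ∀ α : ℝ, 0 ≤ α → α ≤ 1 → ∀ v : ℝ, 1 ≤ |v| → ∀ M : ℕ,
      ‖∑ k ∈ Ico 1 M, hE ρ (-(1 + α + v * Complex.I)) k‖ ≤ ε * Real.log |v| + K := by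
  obtain ⟨η, X0, hη, hη1, hX0, hW⟩ := log_weyl (1 / ε)
  set K1 : ℝ := (1 - (2 : ℝ) ^ (-η))⁻¹ with hK1
  have h2η : (2 : ℝ) ^ (-η) < 1 := Real.rpow_lt_one_of_one_lt_of_neg (by norm_num) (by linarith)
  have h2η0 : (0 : ℝ) < (2 : ℝ) ^ (-η) := by positivity
  have hK1pos : 0 < K1 := by
    rw [hK1]
    apply inv_pos.mpr
    linarith
  have hlogX0 : 0 ≤ Real.log X0 := Real.log_nonneg hX0
  have hlog2 : 0 < Real.log 2 := Real.log_pos (by norm_num)
  refine ⟨1 + Real.log 2 + Real.log X0 + K1 + 8, by linarith, ?_⟩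
  intro ρ hρ hρ1 α hα hα1 v hv M
  have hv0 : 0 < |v| := by linarith
  set s : ℂ := 1 + α + v * Complex.I with hs
  have hsre : 1 ≤ s.re := by
    rw [hs]
    simp
    exact hα
  have hs1 : 1 ≤ ‖1 - s‖ := by
    have h1 := Complex.abs_im_le_norm (1 - s)
    have h2 : (1 - s).im = -v := by
      rw [hs]
      simp
    rw [h2, abs_neg] at h1
    linarith
  have hsn : ‖s‖ ≤ 2 + |v| := by
    rw [hs]
    refine (norm_add_le _ _).trans ?_
    refine add_le_add ((norm_add_le _ _).trans ?_) ?_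
    · rw [norm_one, Complex.norm_real, Real.norm_eq_abs, abs_of_nonneg hα]
      linarith
    · rw [norm_mul, Complex.norm_I, mul_one, Complex.norm_real, Real.norm_eq_abs]
  have hvε : 1 ≤ |v| ^ ε := Real.one_le_rpow hv hε.le
  set Y0 : ℝ := X0 * |v| ^ ε with hY0
  have hY0X : X0 ≤ Y0 := by
    rw [hY0]
    nlinarith
  have hY01 : 1 ≤ Y0 := hX0.trans hY0X
  have hvY : |v| ≤ Y0 ^ (1 / ε) := by
    have h1 : |v| ^ ε ≤ Y0 := by
      rw [hY0]
      nlinarith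
    calc |v| = (|v| ^ ε) ^ (1 / ε) := by
          rw [← Real.rpow_mul hv0.le]
          field_simp
          rw [Real.rpow_one]
      _ ≤ Y0 ^ (1 / ε) := Real.rpow_le_rpow (by positivity) h1 (by positivity)
  have hlogY : Real.log Y0 = Real.log X0 + ε * Real.log |v| := by
    rw [hY0, Real.log_mul (by linarith) (by positivity), Real.log_rpow hv0]
  set a0 : ℕ := ⌈Y0⌉₊ with ha0
  have ha0Y : Y0 ≤ a0 := Nat.le_ceil _
  have ha0Y2 : (a0 : ℝ) ≤ 2 * Y0 := by
    have := Nat.ceil_lt_add_one (show (0 : ℝ) ≤ Y0 by linarith)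
    rw [← ha0] at this
    linarith
  have ha01 : 1 ≤ a0 := by
    have : (1 : ℝ) ≤ a0 := by linarith
    exact_mod_cast this
  -- head
  have hhead : ∀ b : ℕ, b ≤ a0 → ‖∑ k ∈ Ico 1 b, hE ρ (-s) k‖
      ≤ 1 + Real.log 2 + Real.log X0 + ε * Real.log |v| := by
    intro b hb
    have hRHS : 0 ≤ 1 + Real.log 2 + Real.log X0 + ε * Real.log |v| := by
      have : 0 ≤ ε * Real.log |v| := mul_nonneg hε.le (Real.log_nonneg hv)
      linarith
    rcases Nat.eq_zero_or_pos b with hb0 | hb0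
    · subst hb0
      simpa using hRHS
    · refine (plb_head ρ hρ s hsre b hb0).trans ?_
      have h1 : Real.log b ≤ Real.log (2 * Y0) := by
        apply Real.log_le_log (by exact_mod_cast hb0)
        have : (b : ℝ) ≤ a0 := by exact_mod_cast hb
        linarith
      rw [Real.log_mul (by norm_num) (by linarith), hlogY] at h1
      linarith
  -- middle
  have hmid : ∀ b : ℕ, b ≤ ⌈|v| ^ 16⌉₊ → ‖∑ k ∈ Ico a0 b, hE ρ (-s) k‖ ≤ K1 := by
    intro b hb
    obtain ⟨J, hJ⟩ : ∃ J : ℕ, (b : ℝ) ≤ 2 ^ J := pow_unbounded_of_one_lt (b : ℝ) one_lt_two |>.imp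
      (fun n h => h.le)
    have h1 := plb_middle (1 / ε) η X0 hη hX0 hW (by positivity) ρ hρ hρ1 α v hα hv Y0 hY0X hvY J
      a0 b ha0Y (by
        have : (b : ℝ) ≤ (⌈2 ^ J * Y0⌉₊ : ℝ) := by
          refine le_trans ?_ (Nat.le_ceil _)
          have : (0 : ℝ) < 2 ^ J := by positivity
          nlinarith
        exact_mod_cast this) hb
    refine h1.trans ?_
    rw [hK1]
    have h4 : ∑ j ∈ range J, ((2 : ℝ) ^ (-η)) ^ j ≤ ∑' j : ℕ, ((2 : ℝ) ^ (-η)) ^ j :=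
      (summable_geometric_of_lt_one h2η0.le h2η).sum_le_tsum _ (fun j _ => by positivity)
    rwa [tsum_geometric_of_lt_one h2η0.le h2η] at h4
  -- tail
  have htail : ∀ a b : ℕ, |v| ^ 16 ≤ a → 1 ≤ a → a ≤ b →
      ‖∑ k ∈ Ico a b, hE ρ (-s) k‖ ≤ 8 := by
    intro a b ha ha1 hab
    refine (plb_tail ρ hρ s hsre hs1 a b ha1 hab).trans ?_
    have ha1' : (1 : ℝ) ≤ a := by exact_mod_cast ha1
    have hva : |v| ≤ a := by
      have : |v| ≤ |v| ^ 16 := le_self_pow₀ hv (by norm_num)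
      linarith
    have h1 : ‖s‖ * (2 / a) ≤ 6 := by
      rw [mul_div_assoc', div_le_iff₀ (by linarith)]
      linarith
    linarith
  set b1 : ℕ := ⌈|v| ^ 16⌉₊ with hb1
  have hε0 : 0 ≤ ε * Real.log |v| := mul_nonneg hε.le (Real.log_nonneg hv)
  rcases le_or_gt M a0 with hM | hM
  · have := hhead M hM
    linarith
  rw [← sum_Ico_consecutive _ ha01 hM.le]
  rcases le_or_gt b1 a0 with hba | hba
  · have h1 := hhead a0 le_rfl
    have h2 := htail a0 M ((Nat.le_ceil _).trans (by exact_mod_cast hba)) ha01 hM.le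
    refine (norm_add_le _ _).trans ?_
    linarith
  rcases le_or_gt M b1 with hMb | hMb
  · have h1 := hhead a0 le_rfl
    have h2 := hmid M hMb
    refine (norm_add_le _ _).trans ?_
    linarith
  · rw [← sum_Ico_consecutive _ hba.le hMb.le]
    have h1 := hhead a0 le_rfl
    have h2 := hmid b1 le_rfl
    have h3 := htail b1 M (Nat.le_ceil _) (by omega) hMb.le
    refine (norm_add_le _ _).trans ?_
    have h4 := norm_add_le (∑ k ∈ Ico a0 b1, hE ρ (-s) k) (∑ k ∈ Ico b1 M, hE ρ (-s) k)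
    linarith

/-- `|L(1+α+iv, χ)| ≤ ε log |v| + K` for `|v| ≥ 1`. -/
theorem L_bound (q : ℕ) [NeZero q] (χ : DirichletCharacter ℂ q) (ε : ℝ) (hε : 0 < ε) :
    ∃ K : ℝ, 0 < K ∧ ∀ α : ℝ, 0 < α → α ≤ 1 → ∀ v : ℝ, 1 ≤ |v| →
      ‖LSeries (fun n => χ n) (1 + α + v * Complex.I)‖ ≤ ε * Real.log |v| + K := by
  obtain ⟨K, hK, hb⟩ := plb_hurwitz ε hε
  have hq : 0 < q := Nat.pos_of_ne_zero (NeZero.ne q)
  have hqR : (0 : ℝ) < q := by exact_mod_cast hq
  have hq1 : (1 : ℝ) ≤ q := by exact_mod_cast hq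
  refine ⟨q + K, by linarith, ?_⟩
  intro α hα hα1 v hv
  set s : ℂ := 1 + α + v * Complex.I with hs
  have hsre : s.re = 1 + α := by
    rw [hs]
    simp
  have hsum := ZMod.LSeriesSummable_of_one_lt_re (fun n : ZMod q => χ n) (s := s)
    (by rw [hsre]; linarith)
  have hres := Nat.sumByResidueClasses hsum q
  have hL : LSeries (fun n => χ n) s
      = ∑ j : ZMod q, ∑' m, LSeries.term (fun n => χ n) s (j.val + q * m) := hres
  rw [hL]
  have hj : ∀ j : ZMod q, ‖∑' m, LSeries.term (fun n => χ n) s (j.val + q * m)‖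
      ≤ 1 + (q : ℝ)⁻¹ * (ε * Real.log |v| + K) := by
    intro j
    set g : ℕ → ℂ := fun m => LSeries.term (fun n => χ n) s (j.val + q * m) with hg
    have hgs : Summable g := by
      apply hsum.comp_injective (i := fun m => j.val + q * m)
      intro m m' h
      simpa [hq.ne'] using h
    set ρ : ℝ := (j.val : ℝ) / q with hρ
    have hρ0 : 0 ≤ ρ := by positivity
    have hρ1 : ρ ≤ 1 := by
      rw [hρ, div_le_one hqR]
      exact_mod_cast (ZMod.val_lt j).le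
    have hg1 : ∀ m : ℕ, g (m + 1) = χ j * (q : ℂ) ^ (-s) * hE ρ (-s) ((m + 1 : ℕ) : ℝ) := by
      intro m
      have hn : j.val + q * (m + 1) ≠ 0 := by positivity
      rw [hg]
      simp only
      rw [LSeries.term_of_ne_zero hn]
      have e1 : χ ((j.val + q * (m + 1) : ℕ) : ZMod q) = χ j := by
        congr 1
        push_cast
        simp
      rw [e1, div_eq_mul_inv, ← Complex.cpow_neg, mul_assoc]
      congr 1
      have e2 : (((j.val + q * (m + 1) : ℕ)) : ℂ) = ((q : ℝ) : ℂ) * (((m + 1 : ℕ) + ρ : ℝ) : ℂ) := by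
        rw [← Complex.ofReal_mul]
        have : (q : ℝ) * ((m + 1 : ℕ) + ρ) = ((j.val + q * (m + 1) : ℕ) : ℝ) := by
          rw [hρ]
          push_cast
          field_simp
          ring
        rw [this]
        push_cast
        ring
      rw [e2, Complex.mul_cpow_ofReal_nonneg hqR.le (by positivity)]
      congr 1
      unfold hE
      rw [Complex.cpow_def_of_ne_zero]
      · rw [← Complex.ofReal_log (by positivity), mul_comm]
      · have : (0 : ℝ) < (m + 1 : ℕ) + ρ := by positivity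
        exact_mod_cast this.ne'
    rw [hgs.tsum_eq_zero_add]
    refine (norm_add_le _ _).trans (add_le_add ?_ ?_)
    · rw [hg]
      simp only [mul_zero, add_zero]
      rcases Nat.eq_zero_or_pos j.val with h0 | h0
      · rw [h0]
        simp
      · rw [LSeries.term_of_ne_zero h0.ne', norm_div, Complex.norm_natCast_cpow_of_pos h0, hsre]
        have h1 : (1 : ℝ) ≤ (j.val : ℝ) ^ (1 + α) :=
          Real.one_le_rpow (by exact_mod_cast h0) (by linarith)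
        rw [div_le_one (by linarith)]
        exact (DirichletCharacter.norm_le_one χ _).trans h1
    · have e3 : ∑' m, g (m + 1) = χ j * (q : ℂ) ^ (-s) *
          ∑' m : ℕ, hE ρ (-s) ((m + 1 : ℕ) : ℝ) := by
        rw [← tsum_mul_left]
        exact tsum_congr hg1
      rw [e3, norm_mul, norm_mul]
      have h2 : ‖(q : ℂ) ^ (-s)‖ ≤ (q : ℝ)⁻¹ := by
        rw [Complex.norm_natCast_cpow_of_pos hq, Complex.neg_re, hsre, ← Real.rpow_neg_one]
        apply Real.rpow_le_rpow_of_exponent_le hq1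
        linarith
      have h3 : ‖∑' m : ℕ, hE ρ (-s) ((m + 1 : ℕ) : ℝ)‖ ≤ ε * Real.log |v| + K := by
        by_cases hsm : Summable (fun m : ℕ => hE ρ (-s) ((m + 1 : ℕ) : ℝ))
        · have h4 := hsm.hasSum.tendsto_sum_nat.norm
          refine le_of_tendsto' h4 ?_
          intro N
          have e4 : ∑ m ∈ range N, hE ρ (-s) ((m + 1 : ℕ) : ℝ)
              = ∑ k ∈ Ico 1 (N + 1), hE ρ (-s) k := by
            rw [Finset.sum_Ico_eq_sum_range]
            apply sum_congr (by simp)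
            intro i _
            rw [add_comm]
          rw [e4]
          exact hb ρ hρ0 hρ1 α hα.le hα1 v hv (N + 1)
        · rw [tsum_eq_zero_of_not_summable hsm, norm_zero]
          have : 0 ≤ ε * Real.log |v| := mul_nonneg hε.le (Real.log_nonneg hv)
          linarith
      have h5 := DirichletCharacter.norm_le_one χ j
      calc ‖χ j‖ * ‖(q : ℂ) ^ (-s)‖ * ‖∑' m : ℕ, hE ρ (-s) ((m + 1 : ℕ) : ℝ)‖
          ≤ 1 * (q : ℝ)⁻¹ * (ε * Real.log |v| + K) := by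
            apply mul_le_mul _ h3 (norm_nonneg _) (by positivity)
            exact mul_le_mul h5 h2 (norm_nonneg _) zero_le_one
        _ = _ := by ring
  refine (norm_sum_le_of_le _ (fun j _ => hj j)).trans (le_of_eq ?_)
  rw [sum_const, card_univ, ZMod.card, nsmul_eq_mul]
  field_simp
  ring

end Pool.Agent.MR
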