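import Pool.Agent.MR.PFour
import Pool.Agent.H6.HR.Mertens

set_option autoImplicit false

open Finset MeasureTheory

namespace Pool.Agent.MR

namespace PMeanAux

theorem win : ∃ K : ℝ, 0 < K ∧ ∀ P0 : ℝ, 1 < P0 → ∀ z : ℝ, 0 < z →
    ∀ S : Finset ℕ, (∀ p ∈ S, p.Prime ∧ P0 < p ∧ z ≤ p ∧ (p : ℝ) ≤ 3 * z) →
    ∑ p ∈ S, (1 : ℝ) / p ≤ K / Real.log P0 := by
  obtain ⟨C, hC, hpi⟩ := Pool.Agent.H6.HR.pi_le
  refine ⟨3 * C, by positivity, ?_⟩
  intro P0 hP0 z hz S hS
  have hlog : 0 < Real.log P0 := Real.log_pos hP0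
  rcases S.eq_empty_or_nonempty with rfl | ⟨p0, hp0⟩
  · simp only [Finset.sum_empty]; positivity
  have h0 := hS p0 hp0
  have h3z : 2 ≤ 3 * z := by
    have : (2 : ℝ) ≤ p0 := by exact_mod_cast h0.1.two_le
    linarith [h0.2.2.2]
  have hP0z : P0 ≤ 3 * z := by linarith [h0.2.1, h0.2.2.2]
  have hcard : (S.card : ℝ) ≤ Nat.primeCounting ⌊3 * z⌋₊ := by
    have h1 : S ⊆ (Finset.range (⌊3 * z⌋₊ + 1)).filter Nat.Prime := by
      intro p hp
      rw [Finset.mem_filter, Finset.mem_range]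
      refine ⟨?_, (hS p hp).1⟩
      exact Nat.lt_succ_of_le (Nat.le_floor (hS p hp).2.2.2)
    have h2 := Finset.card_le_card h1
    rw [Nat.primeCounting, Nat.primeCounting', Nat.count_eq_card_filter_range]
    exact_mod_cast h2
  calc ∑ p ∈ S, (1 : ℝ) / p ≤ ∑ p ∈ S, 1 / z := by
        apply Finset.sum_le_sum
        intro p hp
        exact one_div_le_one_div_of_le hz (hS p hp).2.2.1
    _ = S.card * (1 / z) := by rw [Finset.sum_const, nsmul_eq_mul]
    _ ≤ (C * (3 * z) / Real.log (3 * z)) * (1 / z) := by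
        gcongr
        exact hcard.trans (hpi _ h3z)
    _ = 3 * C / Real.log (3 * z) := by field_simp
    _ ≤ 3 * C / Real.log P0 := by
        gcongr

theorem fixed : ∃ K : ℝ, 0 < K ∧ ∀ P : Finset ℕ, ∀ P0 : ℝ, 1 < P0 →
    (∀ p ∈ P, p.Prime ∧ P0 < p) → ∀ x : ℝ,
    ∑ q ∈ P, (1 : ℝ) / q * Real.exp (-(Real.log q - x) ^ 2) ≤ K / Real.log P0 := by
  obtain ⟨K, hK, hwin⟩ := win
  refine ⟨4 * K, by positivity, ?_⟩
  intro P P0 hP0 hP x
  have hlog : 0 < Real.log P0 := Real.log_pos hP0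
  have hl3 : 1 ≤ Real.log 3 := by
    rw [Real.le_log_iff_exp_le (by norm_num)]
    linarith [Real.exp_one_lt_d9]
  set κ : ℕ → ℕ := fun q => ⌊|Real.log q - x| / Real.log 3⌋₊ with hκ
  have hκ1 : ∀ q : ℕ, (κ q : ℝ) * Real.log 3 ≤ |Real.log q - x| := by
    intro q
    rw [← le_div_iff₀ (by positivity)]
    exact Nat.floor_le (by positivity)
  have hκ2 : ∀ q : ℕ, |Real.log q - x| ≤ ((κ q : ℝ) + 1) * Real.log 3 := by
    intro q
    rw [← div_le_iff₀ (by positivity)]
    exact (Nat.lt_floor_add_one _).le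
  have hterm : ∀ q ∈ P, (1 : ℝ) / q * Real.exp (-(Real.log q - x) ^ 2) ≤
      (1 : ℝ) / q * (1 / 2) ^ (κ q) := by
    intro q _
    apply mul_le_mul_of_nonneg_left _ (by positivity)
    have h1 : (κ q : ℝ) ≤ (Real.log q - x) ^ 2 := by
      rw [← sq_abs]
      have h2 : (κ q : ℝ) ≤ |Real.log q - x| := by
        refine le_trans ?_ (hκ1 q)
        nlinarith [Nat.cast_nonneg (α := ℝ) (κ q)]
      have h3 : (κ q : ℝ) ≤ (κ q : ℝ) ^ 2 := by
        rcases Nat.eq_zero_or_pos (κ q) with h | h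
        · rw [h]; simp
        · have : (1 : ℝ) ≤ κ q := by exact_mod_cast h
          nlinarith
      exact h3.trans (by gcongr)
    calc Real.exp (-(Real.log q - x) ^ 2) ≤ Real.exp (-(κ q : ℝ)) := by
          apply Real.exp_le_exp.mpr; linarith
      _ = (Real.exp (-1)) ^ (κ q) := by
          rw [← Real.exp_nat_mul]; congr 1; ring
      _ ≤ (1 / 2) ^ (κ q) := by
          gcongr
          rw [Real.exp_neg, one_div]
          apply inv_anti₀ (by norm_num)
          have := Real.add_one_le_exp (1 : ℝ)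
          linarith
  refine (Finset.sum_le_sum hterm).trans ?_
  have hfib : ∑ q ∈ P, (1 : ℝ) / q * (1 / 2) ^ (κ q) =
      ∑ k ∈ P.image κ, ∑ q ∈ P.filter (fun q => κ q = k), (1 : ℝ) / q * (1 / 2) ^ (κ q) := by
    rw [Finset.sum_fiberwise_of_maps_to]
    intro q hq
    exact Finset.mem_image_of_mem κ hq
  rw [hfib]
  have hone : ∀ k, ∑ q ∈ P.filter (fun q => κ q = k), (1 : ℝ) / q * (1 / 2) ^ (κ q) ≤
      (2 * K / Real.log P0) * (1 / 2) ^ k := by
    intro k
    have h1 : ∑ q ∈ P.filter (fun q => κ q = k), (1 : ℝ) / q * (1 / 2) ^ (κ q) =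
        (∑ q ∈ P.filter (fun q => κ q = k), (1 : ℝ) / q) * (1 / 2) ^ k := by
      rw [Finset.sum_mul]
      apply Finset.sum_congr rfl
      intro q hq
      rw [(Finset.mem_filter.mp hq).2]
    rw [h1]
    gcongr
    rw [← Finset.sum_filter_add_sum_filter_not (P.filter (fun q => κ q = k))
      (fun q => x ≤ Real.log q)]
    have hA := hwin P0 hP0 (Real.exp (x + k * Real.log 3)) (Real.exp_pos _)
      ((P.filter (fun q => κ q = k)).filter (fun q => x ≤ Real.log q)) (by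
        intro q hq
        rw [Finset.mem_filter, Finset.mem_filter] at hq
        obtain ⟨⟨hqP, hk⟩, hx⟩ := hq
        have hq0 : (0 : ℝ) < q := by exact_mod_cast (hP q hqP).1.pos
        have h1 := hκ1 q
        have h2 := hκ2 q
        rw [hk, abs_of_nonneg (by linarith)] at h1 h2
        refine ⟨(hP q hqP).1, (hP q hqP).2, ?_, ?_⟩
        · rw [← Real.exp_log hq0]
          apply Real.exp_le_exp.mpr; linarith
        · rw [← Real.exp_log hq0]
          conv_rhs => rw [show (3 : ℝ) = Real.exp (Real.log 3) from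
            (Real.exp_log (by norm_num)).symm]
          rw [← Real.exp_add]
          apply Real.exp_le_exp.mpr
          rw [Real.exp_log (by norm_num : (0:ℝ) < 3)]
          linarith)
    have hB := hwin P0 hP0 (Real.exp (x - (k + 1) * Real.log 3)) (Real.exp_pos _)
      ((P.filter (fun q => κ q = k)).filter (fun q => ¬ x ≤ Real.log q)) (by
        intro q hq
        rw [Finset.mem_filter, Finset.mem_filter] at hq
        obtain ⟨⟨hqP, hk⟩, hx⟩ := hq
        have hq0 : (0 : ℝ) < q := by exact_mod_cast (hP q hqP).1.pos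
        have h1 := hκ1 q
        have h2 := hκ2 q
        rw [hk, abs_of_neg (by linarith)] at h1 h2
        refine ⟨(hP q hqP).1, (hP q hqP).2, ?_, ?_⟩
        · rw [← Real.exp_log hq0]
          apply Real.exp_le_exp.mpr; linarith
        · rw [← Real.exp_log hq0]
          conv_rhs => rw [show (3 : ℝ) = Real.exp (Real.log 3) from
            (Real.exp_log (by norm_num)).symm]
          rw [← Real.exp_add]
          apply Real.exp_le_exp.mpr
          rw [Real.exp_log (by norm_num : (0:ℝ) < 3)]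
          linarith)
    calc _ ≤ K / Real.log P0 + K / Real.log P0 := add_le_add hA hB
      _ = 2 * K / Real.log P0 := by ring
  calc _ ≤ ∑ k ∈ P.image κ, (2 * K / Real.log P0) * (1 / 2) ^ k :=
        Finset.sum_le_sum fun k _ => hone k
    _ = (2 * K / Real.log P0) * ∑ k ∈ P.image κ, (1 / 2 : ℝ) ^ k := by rw [Finset.mul_sum]
    _ ≤ (2 * K / Real.log P0) * 2 := by
        gcongr
        refine (summable_geometric_two.sum_le_tsum _ (fun _ _ => by positivity)).trans ?_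
        exact tsum_geometric_two.le
    _ = 4 * K / Real.log P0 := by ring

end PMeanAux

/-- Chebyshev-type bound in multiplicative windows. -/
theorem prime_window : ∃ K : ℝ, 0 < K ∧ ∀ z : ℝ, 1 < z →
    ∀ S : Finset ℕ, (∀ p ∈ S, p.Prime ∧ z < p ∧ (p : ℝ) ≤ 3 * z) →
    ∑ p ∈ S, (1 : ℝ) / p ≤ K / Real.log z := by
  obtain ⟨K, hK, h⟩ := PMeanAux.win
  refine ⟨K, hK, ?_⟩
  intro z hz S hS
  exact h z hz z (by linarith) S fun p hp =>
    ⟨(hS p hp).1, (hS p hp).2.1, (hS p hp).2.1.le, (hS p hp).2.2⟩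

open Complex ComplexConjugate in
/-- Mean square of `PS`. -/
theorem PS_meansq (ε : ℝ) (hε : 0 < ε) (hε1 : ε ≤ 1) : ∃ K : ℝ, 0 < K ∧ ∀ (f : ℕ → ℂ), CM f →
    ∀ (P : Finset ℕ) (P0 : ℝ), 3 ≤ P0 → (∀ p ∈ P, p.Prime ∧ P0 < p) → ∀ α : ℝ, 0 < α →
    ∀ t : ℝ, ∫ τ : ℝ, Real.exp (-(ε * τ / 2) ^ 2) * ‖PS P f α (t - τ)‖ ^ 2
      ≤ K * rs P / Real.log P0 := by
  obtain ⟨K, hK, hfix⟩ := PMeanAux.fixed
  refine ⟨2 * Real.pi / (ε * √Real.pi) * K, by positivity, ?_⟩
  intro f hf P P0 hP0 hP α hα t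
  have hlog : 0 < Real.log P0 := Real.log_pos (by linarith)
  set a : ℕ → ℂ := fun p => f p * ((p : ℝ) ^ (-1 - α) : ℝ) with ha
  have hPS : ∀ τ, PS P f α (t - τ) = ∑ p ∈ P, a p * ni p (t - τ) := fun τ => rfl
  have hanorm : ∀ p ∈ P, ‖a p‖ ≤ 1 / p := by
    intro p hp
    have hp1 : (1 : ℝ) ≤ p := by exact_mod_cast (hP p hp).1.one_lt.le
    rw [ha]
    simp only [norm_mul, Complex.norm_real]
    rw [Real.norm_of_nonneg (by positivity)]
    calc ‖f p‖ * (p : ℝ) ^ (-1 - α) ≤ 1 * (p : ℝ) ^ (-1 : ℝ) := by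
          have e1 : (p : ℝ) ^ (-1 - α) ≤ (p : ℝ) ^ (-1 : ℝ) :=
            Real.rpow_le_rpow_of_exponent_le hp1 (by linarith)
          exact mul_le_mul (hf.norm_le p) e1 (by positivity) (by norm_num)
      _ = 1 / p := by rw [Real.rpow_neg_one, one_mul, one_div]
  -- expansion
  have hexp : ∀ τ : ℝ, ((Real.exp (-(ε * τ / 2) ^ 2) * ‖PS P f α (t - τ)‖ ^ 2 : ℝ) : ℂ) =
      ∑ p ∈ P, ∑ q ∈ P, (a p * conj (a q) *
        cexp (-(I * ((Real.log p - Real.log q : ℝ) : ℂ) * t))) *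
        (cexp (I * ((Real.log p - Real.log q : ℝ) : ℂ) * τ) *
        cexp (-((ε ^ 2 / 4 : ℝ) : ℂ) * (τ : ℂ) ^ 2)) := by
    intro τ
    rw [Complex.ofReal_mul]
    have h1 : ((‖PS P f α (t - τ)‖ ^ 2 : ℝ) : ℂ) = PS P f α (t - τ) * conj (PS P f α (t - τ)) := by
      rw [Complex.mul_conj, Complex.normSq_eq_norm_sq]
    have h2 : ((Real.exp (-(ε * τ / 2) ^ 2) : ℝ) : ℂ) =
        cexp (-((ε ^ 2 / 4 : ℝ) : ℂ) * (τ : ℂ) ^ 2) := by
      rw [Complex.ofReal_exp]
      congr 1
      push_cast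
      ring
    rw [h1, h2, hPS, map_sum, Finset.sum_mul_sum, Finset.mul_sum]
    apply Finset.sum_congr rfl
    intro p _
    rw [Finset.mul_sum]
    apply Finset.sum_congr rfl
    intro q _
    have h3 : ni p (t - τ) * conj (ni q (t - τ)) =
        cexp (-(I * ((Real.log p - Real.log q : ℝ) : ℂ) * t)) *
        cexp (I * ((Real.log p - Real.log q : ℝ) : ℂ) * τ) := by
      unfold ni
      rw [← Complex.exp_conj, ← Complex.exp_add, ← Complex.exp_add]
      congr 1
      simp only [map_mul, map_neg, Complex.conj_ofReal, Complex.conj_I]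
      push_cast
      ring
    rw [map_mul]
    linear_combination cexp (-((ε ^ 2 / 4 : ℝ) : ℂ) * (τ : ℂ) ^ 2) * a p * conj (a q) * h3
  have hint1 : ∀ x : ℝ, Integrable (fun τ : ℝ => cexp (I * (x : ℂ) * τ) *
        cexp (-((ε ^ 2 / 4 : ℝ) : ℂ) * (τ : ℂ) ^ 2)) := by
    intro x
    have hgauss : Integrable (fun τ : ℝ => Real.exp (-(ε ^ 2 / 4) * τ ^ 2)) :=
      integrable_exp_neg_mul_sq (show 0 < ε ^ 2 / 4 by positivity)
    refine hgauss.mono' ?_ (Filter.Eventually.of_forall fun τ => ?_)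
    · apply Continuous.aestronglyMeasurable
      fun_prop
    · rw [norm_mul, Complex.norm_exp, Complex.norm_exp]
      have e1 : (I * (x : ℂ) * (τ : ℂ)).re = 0 := by simp
      have e2 : (-((ε ^ 2 / 4 : ℝ) : ℂ) * (τ : ℂ) ^ 2).re = -(ε ^ 2 / 4) * τ ^ 2 := by
        rw [show (-((ε ^ 2 / 4 : ℝ) : ℂ) * (τ : ℂ) ^ 2) = ((-(ε ^ 2 / 4) * τ ^ 2 : ℝ) : ℂ) by
          push_cast; ring, Complex.ofReal_re]
      rw [e1, e2, Real.exp_zero, one_mul]
  have hval : ((∫ τ : ℝ, Real.exp (-(ε * τ / 2) ^ 2) * ‖PS P f α (t - τ)‖ ^ 2 : ℝ) : ℂ) =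
      ∑ p ∈ P, ∑ q ∈ P, (a p * conj (a q) *
        cexp (-(I * ((Real.log p - Real.log q : ℝ) : ℂ) * t))) *
        ((2 * Real.pi * ge ε (Real.log p - Real.log q) : ℝ) : ℂ) := by
    rw [← integral_complex_ofReal]
    simp_rw [hexp]
    rw [integral_finsetSum]
    · apply Finset.sum_congr rfl
      intro p _
      rw [integral_finsetSum]
      · apply Finset.sum_congr rfl
        intro q _
        rw [integral_const_mul, PFourAux.ge_fourier ε hε]
      · intro q _
        exact (hint1 _).const_mul _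
    · intro p _
      apply integrable_finsetSum
      intro q _
      exact (hint1 _).const_mul _
  have hge : ∀ x : ℝ, 2 * Real.pi * ge ε x ≤ 2 * Real.pi / (ε * √Real.pi) * Real.exp (-x ^ 2) := by
    intro x
    unfold ge
    have h1 : Real.exp (-(x / ε) ^ 2) ≤ Real.exp (-x ^ 2) := by
      apply Real.exp_le_exp.mpr
      have h2 : x ^ 2 ≤ (x / ε) ^ 2 := by
        rw [div_pow, le_div_iff₀ (by positivity)]
        have h3 : ε ^ 2 ≤ 1 := pow_le_one₀ hε.le hε1
        nlinarith [sq_nonneg x]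
      linarith
    calc 2 * Real.pi * (Real.exp (-(x / ε) ^ 2) / (ε * √Real.pi))
        ≤ 2 * Real.pi * (Real.exp (-x ^ 2) / (ε * √Real.pi)) := by gcongr
      _ = _ := by ring
  have hge0 : ∀ x : ℝ, 0 ≤ ge ε x := by
    intro x; unfold ge; positivity
  set c : ℝ := 2 * Real.pi / (ε * √Real.pi) with hc
  have hc0 : 0 < c := by positivity
  calc ∫ τ : ℝ, Real.exp (-(ε * τ / 2) ^ 2) * ‖PS P f α (t - τ)‖ ^ 2
      ≤ ‖((∫ τ : ℝ, Real.exp (-(ε * τ / 2) ^ 2) * ‖PS P f α (t - τ)‖ ^ 2 : ℝ) : ℂ)‖ := by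
        rw [Complex.norm_real]; exact Real.le_norm_self _
    _ = ‖∑ p ∈ P, ∑ q ∈ P, (a p * conj (a q) *
        cexp (-(I * ((Real.log p - Real.log q : ℝ) : ℂ) * t))) *
        ((2 * Real.pi * ge ε (Real.log p - Real.log q) : ℝ) : ℂ)‖ := by rw [hval]
    _ ≤ ∑ p ∈ P, ∑ q ∈ P, (1 / (p : ℝ)) * ((1 / (q : ℝ)) *
        (c * Real.exp (-(Real.log q - Real.log p) ^ 2))) := by
        refine (norm_sum_le _ _).trans (Finset.sum_le_sum fun p hp => ?_)
        refine (norm_sum_le _ _).trans (Finset.sum_le_sum fun q hq => ?_)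
        rw [norm_mul, norm_mul, norm_mul, Complex.norm_real, RCLike.norm_conj]
        have e1 : ‖cexp (-(I * ((Real.log p - Real.log q : ℝ) : ℂ) * t))‖ = 1 := by
          rw [show (-(I * ((Real.log p - Real.log q : ℝ) : ℂ) * t)) =
            ((-((Real.log p - Real.log q) * t) : ℝ) : ℂ) * I by push_cast; ring]
          exact Complex.norm_exp_ofReal_mul_I _
        rw [e1, mul_one, Real.norm_of_nonneg (mul_nonneg (by positivity) (hge0 _)), mul_assoc]
        have h1 := hge (Real.log p - Real.log q)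
        rw [show (Real.log p - Real.log q) ^ 2 = (Real.log q - Real.log p) ^ 2 by ring] at h1
        have h2 := hanorm p hp
        have h3 := hanorm q hq
        have h4 := hge0 (Real.log p - Real.log q)
        gcongr
    _ = c * ∑ p ∈ P, (1 / (p : ℝ)) * ∑ q ∈ P, (1 / (q : ℝ)) *
        Real.exp (-(Real.log q - Real.log p) ^ 2) := by
        rw [Finset.mul_sum]
        apply Finset.sum_congr rfl
        intro p _
        rw [Finset.mul_sum, Finset.mul_sum]
        apply Finset.sum_congr rfl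
        intro q _
        ring
    _ ≤ c * ∑ p ∈ P, (1 / (p : ℝ)) * (K / Real.log P0) := by
        gcongr with p hp
        exact hfix P P0 (by linarith) hP (Real.log p)
    _ = c * K * rs P / Real.log P0 := by
        rw [← Finset.sum_mul]
        unfold rs
        ring

end Pool.Agent.MR
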