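import Pool.Agent.MR.PMean

set_option autoImplicit false

open Finset MeasureTheory

namespace Pool.Agent.MR

namespace PSmoothAux

/-- Trivial bound for the Dirichlet series. -/
theorem norm_LSeries_le (f : ℕ → ℂ) (hf : CM f) (α : ℝ) (hα : 0 < α) (u : ℝ) :
    ‖LSeries f (1 + α + u * Complex.I)‖ ≤ 1 + 1 / α := by
  have hre : (1 + (α : ℂ) + (u : ℂ) * Complex.I).re = 1 + α := by simp
  have h1 : ‖LSeries f (1 + α + u * Complex.I)‖ ≤ ∑' n : ℕ, 1 * (1 / (n : ℝ) ^ (1 + α)) := by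
    apply tsum_of_norm_bounded (PFourAux.summable_pow α hα 1).hasSum
    intro n
    exact PFourAux.norm_term_le f 1 hf.norm_le _ α hre n
  have hs : Summable (fun n : ℕ => 1 * (1 / (n : ℝ) ^ (1 + α))) := PFourAux.summable_pow α hα 1
  have h2 : ∑' n : ℕ, 1 * (1 / (n : ℝ) ^ (1 + α)) = ∑' n : ℕ, 1 / ((n : ℝ) + 1) ^ (1 + α) := by
    rw [hs.tsum_eq_zero_add]
    have h0 : (1 : ℝ) * (1 / ((0 : ℕ) : ℝ) ^ (1 + α)) = 0 := by
      rw [Nat.cast_zero, Real.zero_rpow (by linarith)]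
      simp
    rw [h0, zero_add]
    apply tsum_congr
    intro n
    rw [one_mul]
    push_cast
    rfl
  have h3 := ZetaAsymptotics.zeta_limit_aux1 (s := 1 + α) (by linarith)
  have h4 : 0 ≤ ZetaAsymptotics.termTSum (1 + α) := by
    rw [ZetaAsymptotics.termTSum_of_lt (by linarith)]
    have h5 := ZetaAsymptotics.termTSum_of_lt (s := 1 + α) (by linarith)
    have h6 : 0 ≤ ZetaAsymptotics.termTSum (1 + α) :=
      tsum_nonneg fun n => ZetaAsymptotics.term_nonneg _ _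
    rwa [h5] at h6
  rw [h2] at h1
  have h7 : 0 ≤ (1 + α) * ZetaAsymptotics.termTSum (1 + α) := by positivity
  have h8 : (1 + α) - 1 = α := by ring
  rw [h8] at h3
  linarith

end PSmoothAux

/-- Smooth pointwise bound. -/
theorem smooth_pw (f : ℕ → ℂ) (hf : CM f) (hfb : FB f) (ε : ℝ) (hε : 0 < ε) (hε1 : ε ≤ 1)
    (η : ℝ) (hη : 0 < η) : ∃ Y0 : ℝ, 1 ≤ Y0 ∧ ∀ Y : ℝ, Y0 ≤ Y → ∀ t : ℝ, |t| ≤ Y ^ 2 →
      ‖SS ε f Y t‖ ≤ η := by
  obtain ⟨K1, hK1, happ⟩ := SS_approx ε hε hε1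
  obtain ⟨K2, hK2, hms⟩ := PS_meansq (ε / 2) (by positivity) (by linarith)
  obtain ⟨C, hC, hM⟩ := Pool.Agent.H6.HR.mertens_second_lower
  set L0 : ℝ := max 1 ((2 * K1 / η) ^ 2) with hL0
  have hL01 : 1 ≤ L0 := le_max_left _ _
  have hL02 : (2 * K1 / η) ^ 2 ≤ L0 := le_max_right _ _
  set d1 : ℝ := Real.exp (-(L0 + 1)) / 8 with hd1
  have hd0 : 0 < d1 := by positivity
  have hd18 : d1 ≤ 1 / 8 := by
    rw [hd1]
    have : Real.exp (-(L0 + 1)) ≤ 1 := Real.exp_le_one_iff.mpr (by linarith)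
    linarith
  set E : ℝ := Real.exp 1 with hE
  have hE0 : 0 < E := Real.exp_pos 1
  set η' : ℝ := η * d1 / (4 * E * K2) with hη'
  have hη'0 : 0 < η' := by positivity
  obtain ⟨a0, ha0, hfb'⟩ := hfb η' hη'0
  have hlogtop := Real.tendsto_log_atTop
  have ev1 : ∀ᶠ Y : ℝ in Filter.atTop, 3 ≤ Y := Filter.eventually_ge_atTop 3
  have ev2 : ∀ᶠ Y : ℝ in Filter.atTop, 1 / a0 ≤ Real.log Y :=
    hlogtop.eventually (Filter.eventually_ge_atTop _)
  have ev3 : ∀ᶠ Y : ℝ in Filter.atTop, (Real.log 3) / d1 ≤ Real.log Y :=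
    hlogtop.eventually (Filter.eventually_ge_atTop _)
  have ev4 : ∀ᶠ Y : ℝ in Filter.atTop, C / d1 ≤ Real.log Y :=
    hlogtop.eventually (Filter.eventually_ge_atTop _)
  have ev5 : ∀ᶠ Y : ℝ in Filter.atTop, 2 * Real.exp (-(3 * (ε / 2 * Y / 2) ^ 2)) ≤ η' := by
    have h1 : Filter.Tendsto (fun Y : ℝ => 3 * (ε / 2 * Y / 2) ^ 2) Filter.atTop Filter.atTop := by
      have h2 : (fun Y : ℝ => 3 * (ε / 2 * Y / 2) ^ 2) = fun Y : ℝ => (3 * (ε / 4) ^ 2) * Y ^ 2 := by
        funext Y; ring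
      rw [h2]
      exact (Filter.tendsto_pow_atTop (by norm_num)).const_mul_atTop (by positivity)
    have h3 : Filter.Tendsto (fun Y : ℝ => 2 * Real.exp (-(3 * (ε / 2 * Y / 2) ^ 2)))
        Filter.atTop (nhds (2 * 0)) :=
      (Real.tendsto_exp_neg_atTop_nhds_zero.comp h1).const_mul 2
    rw [mul_zero] at h3
    exact (h3.eventually (gt_mem_nhds hη'0)).mono fun _ h => le_of_lt h
  obtain ⟨Y0, hY0⟩ := ((((ev1.and ev2).and ev3).and ev4).and ev5).exists_forall_of_atTop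
  refine ⟨max 1 Y0, le_max_left _ _, ?_⟩
  intro Y hY t ht
  obtain ⟨⟨⟨⟨hY3, hYa⟩, hYb⟩, hYc⟩, hYd⟩ := hY0 Y (le_trans (le_max_right _ _) hY)
  have hY0' : 0 < Y := by linarith
  have hlogY : 1 ≤ Real.log Y := by
    rw [Real.le_log_iff_exp_le hY0']
    linarith [Real.exp_one_lt_d9]
  set l : ℝ := Real.log Y with hl
  have hl0 : 0 < l := by linarith
  -- the set of primes
  set a : ℝ := Real.exp (d1 * l) with ha
  set b : ℝ := Real.exp (1 / 8 * l) with hb
  have ha3 : 3 ≤ a := by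
    rw [ha, ← Real.log_le_iff_le_exp (by norm_num)]
    rw [div_le_iff₀ hd0] at hYb
    linarith
  have hab : a ≤ b := by
    rw [ha, hb]; apply Real.exp_le_exp.mpr; gcongr
  have hloga : Real.log a = d1 * l := Real.log_exp _
  have hlogb : Real.log b = 1 / 8 * l := Real.log_exp _
  set P : Finset ℕ := (Pool.Agent.CoprimeSieve.pr b).filter (fun p : ℕ => a < (p : ℝ)) with hP
  have hPp : ∀ p ∈ P, p.Prime ∧ a < p ∧ (p : ℝ) ≤ b := by
    intro p hp
    rw [hP, Finset.mem_filter, Pool.Agent.CoprimeSieve.pr, Finset.mem_filter, Finset.mem_Icc] at hp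
    exact ⟨hp.1.2, hp.2, (Nat.le_floor_iff' hp.1.2.ne_zero).mp hp.1.1.2⟩
  have hrs : L0 ≤ rs P := by
    have h1 := hM a b (by linarith) hab
    rw [hloga, hlogb] at h1
    have h2 : 1 / 8 * l / (d1 * l) = Real.exp (L0 + 1) := by
      rw [hd1]
      rw [show (1 / 8 * l / (Real.exp (-(L0 + 1)) / 8 * l)) = (Real.exp (-(L0 + 1)))⁻¹ by
        have := Real.exp_pos (-(L0 + 1))
        field_simp]
      rw [← Real.exp_neg, neg_neg]
    rw [h2, Real.log_exp] at h1
    have h3 : C / (d1 * l) ≤ 1 := by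
      rw [div_le_one (by positivity)]
      rw [div_le_iff₀ hd0] at hYc
      linarith
    have h4 : rs P = ∑ p ∈ (Pool.Agent.CoprimeSieve.pr b).filter (fun p : ℕ => a < (p : ℝ)),
        (1 : ℝ) / p := rfl
    rw [h4]
    linarith
  have hrs1 : 1 ≤ rs P := hL01.trans hrs
  have hrs0 : 0 < rs P := by linarith
  set Z : ℕ := ⌊b⌋₊ with hZ
  have hZb : (Z : ℝ) ≤ b := Nat.floor_le (by positivity)
  have hPZ : ∀ p ∈ P, p ≤ Z := fun p hp => Nat.le_floor (hPp p hp).2.2
  have hZY : (Z : ℝ) ^ 4 ≤ Y := by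
    calc (Z : ℝ) ^ 4 ≤ b ^ 4 := by gcongr
      _ = Real.exp (1 / 2 * l) := by
          rw [hb, ← Real.exp_nat_mul]; congr 1; push_cast; ring
      _ ≤ Real.exp l := by apply Real.exp_le_exp.mpr; linarith
      _ = Y := Real.exp_log hY0'
  have hA := happ f hf P (fun p hp => (hPp p hp).1) Z hPZ hrs1 Y (by linarith) hZY t
  -- first term
  have hA1 : K1 / √(rs P) ≤ η / 2 := by
    have h1 : 2 * K1 / η ≤ √(rs P) := Real.le_sqrt_of_sq_le (hL02.trans hrs)
    rw [div_le_iff₀ (by positivity)]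
    rw [div_le_iff₀ hη] at h1
    linarith
  -- second term
  set α : ℝ := 1 / l with hα
  have hα0 : 0 < α := by positivity
  have hα1 : α ≤ 1 := by rw [hα, div_le_one hl0]; exact hlogY
  have hαa : α ≤ a0 := by
    rw [hα, div_le_iff₀ hl0]
    rw [div_le_iff₀ ha0] at hYa
    linarith
  have hB := fourier_bound f hf P (fun p hp => (hPp p hp).1) ε hε hε1 α hα0 hα1 Y (by linarith) t
  have hYα : Y ^ α = E := by
    rw [Real.rpow_def_of_pos hY0', ← hl, hα, mul_one_div_cancel hl0.ne']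
  rw [hYα] at hB
  have hpoint : ∀ τ : ℝ, Real.exp (-(ε * τ / 2) ^ 2) * ‖PS P f α (t - τ)‖ ^ 2 *
        ‖LSeries f (1 + α + (t - τ : ℝ) * Complex.I)‖ ≤
      (2 * η' * l) * (Real.exp (-(ε / 2 * τ / 2) ^ 2) * ‖PS P f α (t - τ)‖ ^ 2) := by
    intro τ
    have hg : Real.exp (-(ε * τ / 2) ^ 2) =
        Real.exp (-(ε / 2 * τ / 2) ^ 2) * Real.exp (-(3 * (ε / 2 * τ / 2) ^ 2)) := by
      rw [← Real.exp_add]; congr 1; ring
    have hg1 : Real.exp (-(3 * (ε / 2 * τ / 2) ^ 2)) ≤ 1 := by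
      apply Real.exp_le_one_iff.mpr
      have := sq_nonneg (ε / 2 * τ / 2)
      linarith
    have key : Real.exp (-(3 * (ε / 2 * τ / 2) ^ 2)) *
        ‖LSeries f (1 + α + (t - τ : ℝ) * Complex.I)‖ ≤ 2 * η' * l := by
      by_cases hc : |t - τ| ≤ Real.exp (3 / α)
      · have h1 := hfb' α hα0 hαa (t - τ) hc
        calc _ ≤ 1 * (η' / α) := by
              apply mul_le_mul hg1 h1 (norm_nonneg _) (by norm_num)
          _ = η' * l := by rw [hα]; field_simp
          _ ≤ 2 * η' * l := by nlinarith [mul_pos hη'0 hl0]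
      · push Not at hc
        have h3 : Real.exp (3 / α) = Y ^ 3 := by
          rw [hα, show (3 / (1 / l) : ℝ) = (3 : ℕ) * l by push_cast; field_simp, Real.exp_nat_mul,
            hl, Real.exp_log hY0']
        rw [h3] at hc
        have h4 : Y ≤ |τ| := by
          have h5 : |t - τ| ≤ |t| + |τ| := abs_sub _ _
          have h6 : Y + Y ^ 2 ≤ Y ^ 3 := by nlinarith [sq_nonneg Y, mul_pos hY0' hY0']
          linarith
        have h5 := PSmoothAux.norm_LSeries_le f hf α hα0 (t - τ)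
        have h6 : 1 + 1 / α ≤ 2 * l := by
          rw [hα, one_div_one_div]; linarith
        have h7 : Real.exp (-(3 * (ε / 2 * τ / 2) ^ 2)) ≤
            Real.exp (-(3 * (ε / 2 * Y / 2) ^ 2)) := by
          apply Real.exp_le_exp.mpr
          have h8 : (ε / 2 * Y / 2) ^ 2 ≤ (ε / 2 * τ / 2) ^ 2 := by
            have h9 : Y ^ 2 ≤ τ ^ 2 := by
              rw [← sq_abs τ]; gcongr
            have h10 : (ε / 2 * Y / 2) ^ 2 = (ε / 4) ^ 2 * Y ^ 2 := by ring
            have h11 : (ε / 2 * τ / 2) ^ 2 = (ε / 4) ^ 2 * τ ^ 2 := by ring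
            rw [h10, h11]
            gcongr
          linarith
        calc _ ≤ Real.exp (-(3 * (ε / 2 * Y / 2) ^ 2)) * (2 * l) := by
              apply mul_le_mul h7 (h5.trans h6) (norm_nonneg _) (by positivity)
          _ = (2 * Real.exp (-(3 * (ε / 2 * Y / 2) ^ 2))) * l := by ring
          _ ≤ η' * l := by gcongr
          _ ≤ 2 * η' * l := by nlinarith [mul_pos hη'0 hl0]
    calc _ = (Real.exp (-(ε / 2 * τ / 2) ^ 2) * ‖PS P f α (t - τ)‖ ^ 2) *
          (Real.exp (-(3 * (ε / 2 * τ / 2) ^ 2)) *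
          ‖LSeries f (1 + α + (t - τ : ℝ) * Complex.I)‖) := by rw [hg]; ring
      _ ≤ (Real.exp (-(ε / 2 * τ / 2) ^ 2) * ‖PS P f α (t - τ)‖ ^ 2) * (2 * η' * l) := by
          gcongr
      _ = _ := by ring
  have hPSbound : ∀ u : ℝ, ‖PS P f α u‖ ≤ P.card := by
    intro u
    unfold PS
    calc _ ≤ ∑ p ∈ P, (1 : ℝ) := by
          refine (norm_sum_le _ _).trans (Finset.sum_le_sum fun p hp => ?_)
          rw [norm_mul, norm_mul, Complex.norm_real]
          have h1 : ‖ni p u‖ = 1 := by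
            unfold ni
            rw [← Complex.ofReal_neg, Complex.norm_exp_ofReal_mul_I]
          have h2 : ‖((p : ℝ) ^ (-1 - α))‖ ≤ 1 := by
            rw [Real.norm_of_nonneg (by positivity)]
            apply Real.rpow_le_one_of_one_le_of_nonpos
            · exact_mod_cast (hPp p hp).1.one_lt.le
            · linarith
          rw [h1, mul_one]
          exact mul_le_one₀ (hf.norm_le p) (norm_nonneg _) h2
      _ = P.card := by simp
  have hint : Integrable (fun τ : ℝ => Real.exp (-(ε / 2 * τ / 2) ^ 2) *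
      ‖PS P f α (t - τ)‖ ^ 2) := by
    have hgauss : Integrable (fun τ : ℝ => Real.exp (-(ε / 2 * τ / 2) ^ 2) * (P.card : ℝ) ^ 2) := by
      have h := (integrable_exp_neg_mul_sq (show 0 < (ε / 4) ^ 2 by positivity)).mul_const
        ((P.card : ℝ) ^ 2)
      refine h.congr (Filter.Eventually.of_forall fun τ => ?_)
      simp only
      congr 2
      ring
    refine hgauss.mono' ?_ (Filter.Eventually.of_forall fun τ => ?_)
    · apply Continuous.aestronglyMeasurable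
      unfold PS ni
      fun_prop
    · rw [Real.norm_of_nonneg (by positivity)]
      gcongr
      exact hPSbound _
  have hI : ∫ τ : ℝ, Real.exp (-(ε * τ / 2) ^ 2) * ‖PS P f α (t - τ)‖ ^ 2 *
        ‖LSeries f (1 + α + (t - τ : ℝ) * Complex.I)‖ ≤ (2 * η' * l) * (K2 * rs P / (d1 * l)) := by
    calc _ ≤ ∫ τ : ℝ, (2 * η' * l) * (Real.exp (-(ε / 2 * τ / 2) ^ 2) *
          ‖PS P f α (t - τ)‖ ^ 2) := by
          apply integral_mono_of_nonneg
          · exact Filter.Eventually.of_forall fun τ => by positivity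
          · exact hint.const_mul _
          · exact Filter.Eventually.of_forall hpoint
      _ = (2 * η' * l) * ∫ τ : ℝ, (Real.exp (-(ε / 2 * τ / 2) ^ 2) *
          ‖PS P f α (t - τ)‖ ^ 2) := integral_const_mul _ _
      _ ≤ _ := by
          have h1 := hms f hf P a ha3 (fun p hp => ⟨(hPp p hp).1, (hPp p hp).2.1⟩) α hα0 t
          rw [hloga] at h1
          gcongr
  have hB2 : ‖(1 / (rs P : ℂ) ^ 2) * SS ε (fun n => (c2 P n : ℂ) * f n) Y t‖ ≤ η / 2 := by
    rw [norm_mul, norm_div, norm_one, norm_pow, Complex.norm_real, Real.norm_of_nonneg hrs0.le]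
    calc 1 / rs P ^ 2 * ‖SS ε (fun n => (c2 P n : ℂ) * f n) Y t‖
        ≤ 1 / rs P ^ 2 * (E * ((2 * η' * l) * (K2 * rs P / (d1 * l)))) := by
          gcongr
          exact hB.trans (by gcongr)
      _ = (η / 2) / rs P := by
          rw [hη']
          field_simp
          ring
      _ ≤ η / 2 := by
          apply div_le_self (by positivity) hrs1
  calc ‖SS ε f Y t‖ = ‖(SS ε f Y t - (1 / (rs P : ℂ) ^ 2) *
        SS ε (fun n => (c2 P n : ℂ) * f n) Y t) + (1 / (rs P : ℂ) ^ 2) *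
        SS ε (fun n => (c2 P n : ℂ) * f n) Y t‖ := by rw [sub_add_cancel]
    _ ≤ K1 / √(rs P) + η / 2 := (norm_add_le _ _).trans (add_le_add hA hB2)
    _ ≤ η := by linarith

end Pool.Agent.MR
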