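import Pool.Agent.MR.PGe

set_option autoImplicit false

open Finset MeasureTheory

namespace Pool.Agent.MR

namespace PTkAux

open PGeAux

/-- the weight -/
noncomputable def ww (ε Y : ℝ) (n : ℕ) : ℝ := (1 / (n : ℝ)) * ge ε (Real.log n - Real.log Y)

theorem ww_nonneg (ε Y : ℝ) (hε : 0 < ε) (n : ℕ) : 0 ≤ ww ε Y n :=
  mul_nonneg (by positivity) (ge_nonneg _ _ hε)

theorem summable_ww (ε Y : ℝ) (hε : 0 < ε) (hY : 0 < Y) : Summable (ww ε Y) := by
  have h := summable_ge ε hε Y hY (fun _ => 1) 1 0 (fun n _ => by simp)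
  have h2 := h.norm
  refine h2.congr fun n => ?_
  unfold ww
  rw [one_mul, norm_mul, norm_div, norm_one, Complex.norm_natCast, Complex.norm_real,
    Real.norm_of_nonneg (ge_nonneg ε _ hε)]

/-- sum over the multiples of `D` -/
noncomputable def GG (ε Y : ℝ) (D : ℕ) : ℝ := ∑' n : ℕ, if D ∣ n then ww ε Y n else 0

theorem hasSum_GG (ε Y : ℝ) (hε : 0 < ε) (hY : 0 < Y) (D : ℕ) :
    HasSum (fun n : ℕ => if D ∣ n then ww ε Y n else 0) (GG ε Y D) := by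
  have : Summable (fun n : ℕ => if D ∣ n then ww ε Y n else 0) := by
    refine Summable.of_nonneg_of_le (fun n => ?_) (fun n => ?_) (summable_ww ε Y hε hY)
    · split_ifs
      · exact ww_nonneg ε Y hε n
      · exact le_rfl
    · split_ifs
      · exact le_rfl
      · exact ww_nonneg ε Y hε n
  exact this.hasSum

theorem GG_eq (ε Y : ℝ) (hY : 0 < Y) (D : ℕ) (hD : 0 < D) :
    GG ε Y D = (1 / (D : ℝ)) * ∑' m : ℕ, (1 / (m : ℝ)) * ge ε (Real.log m - Real.log (Y / D)) := by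
  have hD0 : (0 : ℝ) < D := by exact_mod_cast hD
  unfold GG
  have hinj : Function.Injective (fun m : ℕ => D * m) := fun a b h => Nat.eq_of_mul_eq_mul_left hD h
  rw [← hinj.tsum_eq (f := fun n : ℕ => if D ∣ n then ww ε Y n else 0)]
  · rw [← tsum_mul_left]
    apply tsum_congr
    intro m
    have hdm : D ∣ D * m := Dvd.intro m rfl
    rw [if_pos hdm]
    rcases Nat.eq_zero_or_pos m with h0 | hm
    · subst h0
      unfold ww
      simp
    · have hm0 : (0 : ℝ) < m := by exact_mod_cast hm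
      unfold ww
      have e : Real.log ((D * m : ℕ) : ℝ) - Real.log Y = Real.log m - Real.log (Y / D) := by
        push_cast
        rw [Real.log_mul hD0.ne' hm0.ne', Real.log_div hY.ne' hD0.ne']
        ring
      rw [e]
      push_cast
      field_simp
  · intro n hn
    by_cases h : D ∣ n
    · obtain ⟨m, hm⟩ := h
      exact ⟨m, hm.symm⟩
    · exact absurd (if_neg h) hn

theorem GG_est (ε : ℝ) (hε : 0 < ε) (hε1 : ε ≤ 1) : ∃ K : ℝ, 0 < K ∧ ∀ Y : ℝ, 0 < Y → ∀ D : ℕ,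
    0 < D → |GG ε Y D - 1 / D| ≤ K / Y := by
  obtain ⟨K, hK, h⟩ := ge_sum ε hε hε1
  refine ⟨K, hK, fun Y hY D hD => ?_⟩
  have hD0 : (0 : ℝ) < D := by exact_mod_cast hD
  have h1 := h (Y / D) (by positivity)
  rw [GG_eq ε Y hY D hD]
  have e : (1 / (D : ℝ)) * (∑' m : ℕ, (1 / (m : ℝ)) * ge ε (Real.log m - Real.log (Y / D))) - 1 / D =
      (1 / (D : ℝ)) * ((∑' m : ℕ, (1 / (m : ℝ)) * ge ε (Real.log m - Real.log (Y / D))) - 1) := by
    ring
  rw [e, abs_mul, abs_of_pos (by positivity : 0 < 1 / (D : ℝ))]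
  calc (1 / (D : ℝ)) * |(∑' m : ℕ, (1 / (m : ℝ)) * ge ε (Real.log m - Real.log (Y / D))) - 1|
      ≤ (1 / (D : ℝ)) * (K / (Y / D)) := by gcongr
    _ = K / Y := by field_simp

theorem om_cast (P : Finset ℕ) (n : ℕ) : (om P n : ℝ) = ∑ p ∈ P, if p ∣ n then (1 : ℝ) else 0 := by
  unfold om
  rw [Finset.card_filter]
  push_cast
  rfl

theorem om_le (P : Finset ℕ) (n : ℕ) : om P n ≤ P.card := Finset.card_filter_le _ _

theorem card_le_of_le (P : Finset ℕ) (hP : ∀ p ∈ P, p.Prime) (Z : ℕ) (hZ : ∀ p ∈ P, p ≤ Z) :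
    P.card ≤ Z := by
  have : P ⊆ Icc 1 Z := fun p hp => mem_Icc.mpr ⟨(hP p hp).one_lt.le, hZ p hp⟩
  have h := Finset.card_le_card this
  rwa [Nat.card_Icc, Nat.add_sub_cancel] at h

theorem rs_nonneg (P : Finset ℕ) : 0 ≤ rs P := Finset.sum_nonneg fun p _ => by positivity

theorem rs_le_card (P : Finset ℕ) (hP : ∀ p ∈ P, p.Prime) : rs P ≤ P.card := by
  unfold rs
  have : ∑ p ∈ P, (1 : ℝ) / p ≤ ∑ _p ∈ P, (1 : ℝ) := by
    apply Finset.sum_le_sum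
    intro p hp
    have : (1 : ℝ) ≤ p := by exact_mod_cast (hP p hp).one_lt.le
    rw [div_le_one (by linarith)]
    exact this
  simpa using this

theorem tk_hasSum (ε : ℝ) (hε : 0 < ε) (P : Finset ℕ) (hP : ∀ p ∈ P, p.Prime) (Y : ℝ) (hY : 0 < Y) :
    HasSum (fun n : ℕ => ((om P n : ℝ) - rs P) ^ 2 * (1 / (n : ℝ)) * ge ε (Real.log n - Real.log Y))
      (∑ p ∈ P, ∑ q ∈ P, GG ε Y (Nat.lcm p q) - 2 * rs P * ∑ p ∈ P, GG ε Y p + rs P ^ 2 * GG ε Y 1) := by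
  have h1 : HasSum (fun n : ℕ => ∑ p ∈ P, ∑ q ∈ P, if Nat.lcm p q ∣ n then ww ε Y n else 0)
      (∑ p ∈ P, ∑ q ∈ P, GG ε Y (Nat.lcm p q)) :=
    hasSum_sum fun p _ => hasSum_sum fun q _ => hasSum_GG ε Y hε hY _
  have h2 : HasSum (fun n : ℕ => 2 * rs P * ∑ p ∈ P, if p ∣ n then ww ε Y n else 0)
      (2 * rs P * ∑ p ∈ P, GG ε Y p) :=
    (hasSum_sum fun p _ => hasSum_GG ε Y hε hY _).mul_left _
  have h3 : HasSum (fun n : ℕ => rs P ^ 2 * if 1 ∣ n then ww ε Y n else 0) (rs P ^ 2 * GG ε Y 1) :=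
    (hasSum_GG ε Y hε hY 1).mul_left _
  have h4 := (h1.sub h2).add h3
  refine h4.congr_fun ?_ |> fun h => h
  intro n
  have e1 : ∑ p ∈ P, ∑ q ∈ P, (if Nat.lcm p q ∣ n then ww ε Y n else 0) =
      (om P n : ℝ) ^ 2 * ww ε Y n := by
    rw [om_cast, sq, Finset.sum_mul_sum, Finset.sum_mul]
    apply Finset.sum_congr rfl
    intro p _
    rw [Finset.sum_mul]
    apply Finset.sum_congr rfl
    intro q _
    by_cases hp : p ∣ n <;> by_cases hq : q ∣ n <;> simp [Nat.lcm_dvd_iff, hp, hq]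
  have e2 : ∑ p ∈ P, (if p ∣ n then ww ε Y n else 0) = (om P n : ℝ) * ww ε Y n := by
    rw [om_cast, Finset.sum_mul]
    apply Finset.sum_congr rfl
    intro p _
    split_ifs <;> simp
  simp only [e1, e2, one_dvd, if_true]
  unfold ww
  ring

end PTkAux

open PTkAux PGeAux

/-- Smoothed Turan-Kubilius. -/
theorem tk_smooth (ε : ℝ) (hε : 0 < ε) (hε1 : ε ≤ 1) : ∃ K : ℝ, 0 < K ∧ ∀ (P : Finset ℕ),
    (∀ p ∈ P, p.Prime) → ∀ Z : ℕ, (∀ p ∈ P, p ≤ Z) → ∀ Y : ℝ, 1 ≤ Y →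
    ∑' n : ℕ, ((om P n : ℝ) - rs P) ^ 2 * (1 / (n : ℝ)) * ge ε (Real.log n - Real.log Y)
      ≤ rs P + K * (Z : ℝ) ^ 4 / Y := by
  obtain ⟨K, hK, hG⟩ := GG_est ε hε hε1
  refine ⟨4 * K, by positivity, fun P hP Z hZ Y hY => ?_⟩
  have hY0 : 0 < Y := by linarith
  rw [(tk_hasSum ε hε P hP Y hY0).tsum_eq]
  have hr0 := rs_nonneg P
  have hcard := card_le_of_le P hP Z hZ
  have hcard' : (P.card : ℝ) ≤ Z := by exact_mod_cast hcard
  have hrc := rs_le_card P hP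
  have hKY : 0 < K / Y := by positivity
  have b1 : ∑ p ∈ P, ∑ q ∈ P, GG ε Y (Nat.lcm p q) ≤ rs P ^ 2 + rs P + (P.card : ℝ) ^ 2 * (K / Y) := by
    have h1 : ∀ p ∈ P, ∀ q ∈ P, GG ε Y (Nat.lcm p q) ≤
        (1 / (p : ℝ)) * (1 / (q : ℝ)) + (if p = q then 1 / (p : ℝ) else 0) + K / Y := by
      intro p hp q hq
      have hpp := hP p hp
      have hqp := hP q hq
      have hl : 0 < Nat.lcm p q := Nat.lcm_pos hpp.pos hqp.pos
      have h2 := (abs_le.mp (hG Y hY0 _ hl)).2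
      have h3 : 1 / ((Nat.lcm p q : ℕ) : ℝ) ≤
          (1 / (p : ℝ)) * (1 / (q : ℝ)) + (if p = q then 1 / (p : ℝ) else 0) := by
        split_ifs with hpq
        · subst hpq
          rw [Nat.lcm_self]
          have : 0 ≤ (1 / (p : ℝ)) * (1 / (p : ℝ)) := by positivity
          linarith
        · have hc : Nat.Coprime p q := (Nat.coprime_primes hpp hqp).mpr hpq
          rw [hc.lcm_eq_mul]
          push_cast
          rw [one_div_mul_one_div]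
          linarith
      linarith
    calc ∑ p ∈ P, ∑ q ∈ P, GG ε Y (Nat.lcm p q)
        ≤ ∑ p ∈ P, ∑ q ∈ P, ((1 / (p : ℝ)) * (1 / (q : ℝ)) + (if p = q then 1 / (p : ℝ) else 0) + K / Y) :=
          Finset.sum_le_sum fun p hp => Finset.sum_le_sum fun q hq => h1 p hp q hq
      _ = rs P ^ 2 + rs P + (P.card : ℝ) ^ 2 * (K / Y) := by
          have e1 : ∀ p ∈ P, ∑ q ∈ P, ((1 / (p : ℝ)) * (1 / (q : ℝ)) + (if p = q then 1 / (p : ℝ) else 0) + K / Y)
              = (1 / (p : ℝ)) * rs P + 1 / (p : ℝ) + (P.card : ℝ) * (K / Y) := by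
            intro p hp
            rw [Finset.sum_add_distrib, Finset.sum_add_distrib, ← Finset.mul_sum, Finset.sum_const,
              nsmul_eq_mul, Finset.sum_ite_eq, if_pos hp]
            rfl
          rw [Finset.sum_congr rfl e1, Finset.sum_add_distrib, Finset.sum_add_distrib,
            ← Finset.sum_mul, Finset.sum_const, nsmul_eq_mul]
          unfold rs
          ring
  have b2 : rs P - (P.card : ℝ) * (K / Y) ≤ ∑ p ∈ P, GG ε Y p := by
    have h1 : ∀ p ∈ P, 1 / (p : ℝ) - K / Y ≤ GG ε Y p := by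
      intro p hp
      have h2 := (abs_le.mp (hG Y hY0 p (hP p hp).pos)).1
      linarith
    have h3 := Finset.sum_le_sum h1
    rw [Finset.sum_sub_distrib, Finset.sum_const, nsmul_eq_mul] at h3
    exact h3
  have b3 : GG ε Y 1 ≤ 1 + K / Y := by
    have h2 := (abs_le.mp (hG Y hY0 1 one_pos)).2
    push_cast at h2
    linarith
  have b4 : 2 * rs P * (rs P - (P.card : ℝ) * (K / Y)) ≤ 2 * rs P * ∑ p ∈ P, GG ε Y p :=
    mul_le_mul_of_nonneg_left b2 (by positivity)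
  have b5 : rs P ^ 2 * GG ε Y 1 ≤ rs P ^ 2 * (1 + K / Y) :=
    mul_le_mul_of_nonneg_left b3 (by positivity)
  have hZ0 : (0 : ℝ) ≤ Z := Nat.cast_nonneg Z
  have b6 : ((P.card : ℝ) ^ 2 + 2 * rs P * P.card + rs P ^ 2) ≤ 4 * (Z : ℝ) ^ 2 := by
    have hrZ : rs P ≤ Z := hrc.trans hcard'
    have hc0 : (0 : ℝ) ≤ P.card := Nat.cast_nonneg _
    nlinarith [mul_nonneg hr0 hc0, mul_nonneg hr0 (sub_nonneg.mpr hcard'),
      mul_nonneg hZ0 (sub_nonneg.mpr hrZ), mul_nonneg hc0 (sub_nonneg.mpr hcard')]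
  have b7 : (Z : ℝ) ^ 2 ≤ (Z : ℝ) ^ 4 := by
    have : Z ^ 2 ≤ Z ^ 4 := by
      rcases Nat.eq_zero_or_pos Z with h | h
      · subst h; norm_num
      · exact Nat.pow_le_pow_right h (by norm_num)
    exact_mod_cast this
  have b8 : ((P.card : ℝ) ^ 2 + 2 * rs P * P.card + rs P ^ 2) * (K / Y) ≤ 4 * K * (Z : ℝ) ^ 4 / Y := by
    calc ((P.card : ℝ) ^ 2 + 2 * rs P * P.card + rs P ^ 2) * (K / Y) ≤ (4 * (Z : ℝ) ^ 4) * (K / Y) := by
          apply mul_le_mul_of_nonneg_right _ hKY.le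
          linarith
      _ = 4 * K * (Z : ℝ) ^ 4 / Y := by ring
  nlinarith

/-- `c₂(n)` = number of pairs `(p,q)` with `pq ∣ n`. -/
def c2 (P : Finset ℕ) (n : ℕ) : ℕ := ((P ×ˢ P).filter (fun x => x.1 * x.2 ∣ n)).card

namespace PTkAux

theorem c2_le (P : Finset ℕ) (n : ℕ) : c2 P n ≤ om P n ^ 2 := by
  unfold c2 om
  rw [sq, ← Finset.card_product]
  apply Finset.card_le_card
  intro x hx
  rw [mem_filter, mem_product] at hx
  rw [mem_product, mem_filter, mem_filter]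
  exact ⟨⟨hx.1.1, (Dvd.intro _ rfl).trans hx.2⟩, ⟨hx.1.2, (Dvd.intro_left _ rfl).trans hx.2⟩⟩

theorem le_c2 (P : Finset ℕ) (hP : ∀ p ∈ P, p.Prime) (n : ℕ) : om P n ^ 2 ≤ c2 P n + om P n := by
  unfold c2 om
  have hsub : (P.filter (· ∣ n)).offDiag ⊆ (P ×ˢ P).filter (fun x => x.1 * x.2 ∣ n) := by
    intro x hx
    rw [mem_offDiag, mem_filter, mem_filter] at hx
    rw [mem_filter, mem_product]
    refine ⟨⟨hx.1.1, hx.2.1.1⟩, ?_⟩
    exact Nat.Coprime.mul_dvd_of_dvd_of_dvd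
      ((Nat.coprime_primes (hP _ hx.1.1) (hP _ hx.2.1.1)).mpr hx.2.2) hx.1.2 hx.2.1.2
  have h := Finset.card_le_card hsub
  rw [Finset.offDiag_card] at h
  rw [sq]
  omega

theorem c2_le_card (P : Finset ℕ) (n : ℕ) : c2 P n ≤ P.card ^ 2 :=
  (c2_le P n).trans (Nat.pow_le_pow_left (om_le P n) 2)

/-- pointwise comparison -/
theorem pt_bound (P : Finset ℕ) (hP : ∀ p ∈ P, p.Prime) (L : ℝ) (hL : 1 ≤ L) (n : ℕ) :
    |1 - (c2 P n : ℝ) / L ^ 2| ≤ (1 / √L) * (3 + 3 / L * ((om P n : ℝ) - L) ^ 2) := by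
  have h1 : (c2 P n : ℝ) ≤ (om P n : ℝ) ^ 2 := by exact_mod_cast c2_le P n
  have h2 : (om P n : ℝ) ^ 2 ≤ (c2 P n : ℝ) + om P n := by exact_mod_cast le_c2 P hP n
  obtain ⟨o, ho⟩ : ∃ o, o = (om P n : ℝ) := ⟨_, rfl⟩
  obtain ⟨c, hc⟩ : ∃ c, c = (c2 P n : ℝ) := ⟨_, rfl⟩
  have ho0 : 0 ≤ o := by rw [ho]; exact Nat.cast_nonneg _
  rw [← ho, ← hc] at h1 h2
  rw [← ho, ← hc]
  obtain ⟨s, hs⟩ : ∃ s, s = √L := ⟨_, rfl⟩
  have hs1 : 1 ≤ s := by rw [hs, Real.one_le_sqrt]; exact hL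
  have hs0 : 0 < s := by linarith
  have hsL : L = s ^ 2 := by rw [hs, Real.sq_sqrt (by linarith)]
  rw [← hs]
  have hL0 : 0 < L := by linarith
  obtain ⟨D, hD⟩ : ∃ D, D = |o - L| := ⟨_, rfl⟩
  have hD0 : 0 ≤ D := by rw [hD]; exact abs_nonneg _
  have hD2 : (o - L) ^ 2 = D ^ 2 := by rw [hD, sq_abs]
  have hoL : o ≤ L + D := by
    have := le_abs_self (o - L)
    rw [← hD] at this
    linarith
  -- main estimate
  have m1 : |L ^ 2 - c| ≤ 2 * L * D + D ^ 2 + o := by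
    have e : L ^ 2 - c = (L ^ 2 - o ^ 2) + (o ^ 2 - c) := by ring
    rw [e]
    refine (abs_add_le _ _).trans ?_
    have a1 : |o ^ 2 - c| ≤ o := by
      rw [abs_of_nonneg (by linarith)]
      linarith
    have a2 : |L ^ 2 - o ^ 2| ≤ 2 * L * D + D ^ 2 := by
      have e2 : L ^ 2 - o ^ 2 = -(o - L) * (2 * L + (o - L)) := by ring
      rw [e2, abs_mul, abs_neg, ← hD]
      have a3 : |2 * L + (o - L)| ≤ 2 * L + D := by
        refine (abs_add_le _ _).trans ?_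
        rw [abs_of_pos (by positivity : 0 < 2 * L), ← hD]
      nlinarith
    linarith
  have e3 : |1 - c / L ^ 2| = |L ^ 2 - c| / L ^ 2 := by
    rw [← abs_of_pos (by positivity : 0 < L ^ 2), ← abs_div, abs_of_pos (by positivity : 0 < L ^ 2)]
    congr 1
    field_simp
  rw [e3, div_le_iff₀ (by positivity), hD2]
  refine m1.trans ?_
  have e4 : 1 / s * (3 + 3 / L * D ^ 2) * L ^ 2 = 3 * s ^ 3 + 3 * s * D ^ 2 := by
    rw [hsL]
    field_simp
  rw [e4]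
  rw [hsL] at hoL ⊢
  -- 2 s^2 D ≤ s^3 + s D^2
  have f1 : 2 * s ^ 2 * D ≤ s ^ 3 + s * D ^ 2 := by
    have := mul_nonneg hs0.le (sq_nonneg (s - D))
    nlinarith
  have f2 : D ^ 2 ≤ s * D ^ 2 := by nlinarith [sq_nonneg D]
  have f3 : o ≤ 2 * s ^ 3 + s * D ^ 2 := by
    have g1 : s ^ 2 ≤ s ^ 3 := by nlinarith [sq_nonneg s]
    have g2 : D ≤ s ^ 3 + s * D ^ 2 := by
      have : D ≤ 1 + D ^ 2 := by nlinarith [sq_nonneg (D - 1)]
      have g3 : 1 ≤ s ^ 3 := one_le_pow₀ hs1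
      linarith
    linarith
  linarith

theorem norm_ni (n : ℕ) (t : ℝ) : ‖ni n t‖ = 1 := by
  unfold ni
  rw [← Complex.ofReal_neg]
  exact Complex.norm_exp_ofReal_mul_I _

end PTkAux

/-- Replace `f` by `c₂ f / L²`. -/
theorem SS_approx (ε : ℝ) (hε : 0 < ε) (hε1 : ε ≤ 1) : ∃ K : ℝ, 0 < K ∧ ∀ (f : ℕ → ℂ), CM f →
    ∀ (P : Finset ℕ), (∀ p ∈ P, p.Prime) → ∀ Z : ℕ, (∀ p ∈ P, p ≤ Z) → 1 ≤ rs P →
    ∀ Y : ℝ, 1 ≤ Y → (Z : ℝ) ^ 4 ≤ Y → ∀ t : ℝ,
    ‖SS ε f Y t - (1 / (rs P : ℂ) ^ 2) * SS ε (fun n => (c2 P n : ℂ) * f n) Y t‖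
      ≤ K / √(rs P) := by
  obtain ⟨K1, hK1, h1⟩ := ge_sum ε hε hε1
  obtain ⟨K2, hK2, h2⟩ := tk_smooth ε hε hε1
  refine ⟨3 * (1 + K1) + 3 * (1 + K2), by positivity, ?_⟩
  intro f hf P hP Z hZ hL Y hY hZY t
  have hY0 : 0 < Y := by linarith
  have hL0 : 0 < rs P := by linarith
  have hs0 : 0 < √(rs P) := Real.sqrt_pos.mpr hL0
  -- the two series
  have hs1 : Summable (fun n : ℕ => f n * (1 / (n : ℂ)) * ni n t *
      (ge ε (Real.log n - Real.log Y) : ℂ)) := by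
    refine (summable_ge ε hε Y hY0 (fun n => f n * ni n t) 1 0 (fun n _ => ?_)).congr fun n => ?_
    · rw [norm_mul, norm_ni, mul_one, pow_zero, mul_one]
      exact hf.norm_le n
    · ring
  have hs2 : Summable (fun n : ℕ => ((c2 P n : ℂ) * f n) * (1 / (n : ℂ)) * ni n t *
      (ge ε (Real.log n - Real.log Y) : ℂ)) := by
    refine (summable_ge ε hε Y hY0 (fun n => ((c2 P n : ℂ) * f n) * ni n t) ((P.card : ℝ) ^ 2) 0
      (fun n _ => ?_)).congr fun n => ?_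
    · rw [norm_mul, norm_mul, norm_ni, mul_one, pow_zero, mul_one, Complex.norm_natCast]
      have a1 : (c2 P n : ℝ) ≤ (P.card : ℝ) ^ 2 := by exact_mod_cast c2_le_card P n
      have a2 := hf.norm_le n
      calc (c2 P n : ℝ) * ‖f n‖ ≤ (P.card : ℝ) ^ 2 * 1 := by
            apply mul_le_mul a1 a2 (norm_nonneg _) (by positivity)
        _ = _ := mul_one _
    · ring
  have hdiff : SS ε f Y t - (1 / (rs P : ℂ) ^ 2) * SS ε (fun n => (c2 P n : ℂ) * f n) Y t =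
      ∑' n : ℕ, ((1 - (c2 P n : ℝ) / rs P ^ 2 : ℝ) : ℂ) * (f n * (1 / (n : ℂ)) * ni n t *
        (ge ε (Real.log n - Real.log Y) : ℂ)) := by
    unfold SS
    rw [← tsum_mul_left, ← (hs1.tsum_sub (hs2.mul_left (1 / (rs P : ℂ) ^ 2)))]
    apply tsum_congr
    intro n
    push_cast
    ring
  rw [hdiff]
  -- majorant
  have hm1 : Summable (fun n : ℕ => ww ε Y n) := summable_ww ε Y hε hY0
  have hm2 := (tk_hasSum ε hε P hP Y hY0).summable
  have hmaj : HasSum (fun n : ℕ => (1 / √(rs P)) * (3 * ww ε Y n + 3 / rs P *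
      (((om P n : ℝ) - rs P) ^ 2 * (1 / (n : ℝ)) * ge ε (Real.log n - Real.log Y))))
      ((1 / √(rs P)) * (3 * (∑' n : ℕ, ww ε Y n) + 3 / rs P *
        ∑' n : ℕ, ((om P n : ℝ) - rs P) ^ 2 * (1 / (n : ℝ)) * ge ε (Real.log n - Real.log Y))) :=
    ((hm1.hasSum.mul_left 3).add (hm2.hasSum.mul_left (3 / rs P))).mul_left _
  have hptw : ∀ n : ℕ, ‖((1 - (c2 P n : ℝ) / rs P ^ 2 : ℝ) : ℂ) * (f n * (1 / (n : ℂ)) * ni n t *
        (ge ε (Real.log n - Real.log Y) : ℂ))‖ ≤ (1 / √(rs P)) * (3 * ww ε Y n + 3 / rs P *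
      (((om P n : ℝ) - rs P) ^ 2 * (1 / (n : ℝ)) * ge ε (Real.log n - Real.log Y))) := by
    intro n
    rw [norm_mul, norm_mul, norm_mul, norm_mul, norm_ni, mul_one, Complex.norm_real, norm_div, norm_one,
      Complex.norm_natCast, Complex.norm_real, Real.norm_of_nonneg (ge_nonneg ε _ hε),
      Real.norm_eq_abs]
    have a1 := pt_bound P hP (rs P) hL n
    have a2 := hf.norm_le n
    have a3 := ww_nonneg ε Y hε n
    have a4 : ‖f n‖ * (1 / (n : ℝ)) * ge ε (Real.log n - Real.log Y) ≤ ww ε Y n := by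
      have : ‖f n‖ * (1 / (n : ℝ)) * ge ε (Real.log n - Real.log Y) = ‖f n‖ * ww ε Y n := by
        unfold ww; ring
      rw [this]
      exact mul_le_of_le_one_left a3 a2
    calc |1 - (c2 P n : ℝ) / rs P ^ 2| * (‖f n‖ * (1 / (n : ℝ)) * ge ε (Real.log n - Real.log Y))
        ≤ ((1 / √(rs P)) * (3 + 3 / rs P * ((om P n : ℝ) - rs P) ^ 2)) * ww ε Y n := by
          apply mul_le_mul a1 a4 _ _
          · have := ge_nonneg ε (Real.log n - Real.log Y) hε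
            positivity
          · positivity
      _ = _ := by unfold ww; ring
  refine (tsum_of_norm_bounded hmaj hptw).trans ?_
  have b1 : ∑' n : ℕ, ww ε Y n ≤ 1 + K1 := by
    have h3 := (abs_le.mp (h1 Y hY0)).2
    have h4 : K1 / Y ≤ K1 := div_le_self hK1.le hY
    have h5 : ∑' n : ℕ, ww ε Y n = ∑' n : ℕ, (1 / (n : ℝ)) * ge ε (Real.log n - Real.log Y) := rfl
    rw [h5]
    linarith
  have b2 : ∑' n : ℕ, ((om P n : ℝ) - rs P) ^ 2 * (1 / (n : ℝ)) * ge ε (Real.log n - Real.log Y) ≤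
      rs P * (1 + K2) := by
    have h3 := h2 P hP Z hZ Y hY
    have h4 : K2 * (Z : ℝ) ^ 4 / Y ≤ K2 := by
      rw [div_le_iff₀ hY0]
      exact mul_le_mul_of_nonneg_left hZY hK2.le
    nlinarith
  calc (1 / √(rs P)) * (3 * (∑' n : ℕ, ww ε Y n) + 3 / rs P *
        ∑' n : ℕ, ((om P n : ℝ) - rs P) ^ 2 * (1 / (n : ℝ)) * ge ε (Real.log n - Real.log Y))
      ≤ (1 / √(rs P)) * (3 * (1 + K1) + 3 / rs P * (rs P * (1 + K2))) := by
        gcongr
    _ = (3 * (1 + K1) + 3 * (1 + K2)) / √(rs P) := by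
        field_simp

end Pool.Agent.MR
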