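import Pool.Agent.MR.ZChar
import Pool.Agent.MR.ZZeta

set_option autoImplicit false

open Finset

namespace Pool.Agent.MR

theorem ZSmall.prime_val {q : ℕ} (χ : DirichletCharacter ℂ q) (z : ℂ) (p : Nat.Primes) :
    zch z χ p = z * χ p := by
  unfold zch
  rw [ArithmeticFunction.cardFactors_apply_prime p.2, pow_one]

theorem ZSmall.tsum_val {q : ℕ} (χ : DirichletCharacter ℂ q) (z : ℂ) (s : ℂ) :
    ∑' p : Nat.Primes, zch z χ p * ((p : ℕ) : ℂ) ^ (-s) =
      z * ∑' p : Nat.Primes, χ p * ((p : ℕ) : ℂ) ^ (-s) := by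
  rw [← tsum_mul_left]
  refine tsum_congr fun p => ?_
  rw [ZSmall.prime_val, mul_assoc]

theorem ZSmall.re_lt (z : ℂ) (hz : ‖z‖ = 1) (hz1 : z ≠ 1) : z.re < 1 := by
  have h1 : z.re ≤ 1 := by
    have := Complex.re_le_norm z
    rwa [hz] at this
  refine lt_of_le_of_ne h1 fun h => hz1 ?_
  have h2 : z.re ^ 2 + z.im ^ 2 = 1 := by
    have := Complex.sq_norm z
    rw [hz, Complex.normSq_apply] at this
    nlinarith
  have h3 : z.im = 0 := by
    rw [h] at h2
    have : z.im ^ 2 = 0 := by linarith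
    exact pow_eq_zero_iff (two_ne_zero) |>.mp this
  apply Complex.ext
  · rw [h, Complex.one_re]
  · rw [h3, Complex.one_im]

/-- the logarithm term -/
theorem ZSmall.log_le (z : ℂ) (hz : ‖z‖ = 1) (α u : ℝ) (hα : 0 < α) (hα1 : α ≤ 1) (hu : |u| ≤ 1) :
    (-(z * Complex.log (α + u * Complex.I))).re ≤
      max 0 z.re * Real.log (1 / α) + (Real.pi + 1) := by
  set w : ℂ := α + u * Complex.I with hw
  have hwre : w.re = α := by simp [hw]
  have hwim : w.im = u := by simp [hw]
  have hw1 : α ≤ ‖w‖ := by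
    have := Complex.re_le_norm w
    rwa [hwre] at this
  have hw2 : ‖w‖ ≤ 2 := by
    have := Complex.norm_le_abs_re_add_abs_im w
    rw [hwre, hwim, abs_of_pos hα] at this
    linarith
  have hwpos : 0 < ‖w‖ := lt_of_lt_of_le hα hw1
  have e : (-(z * Complex.log w)).re = -(z.re * Real.log ‖w‖) + z.im * w.arg := by
    rw [Complex.neg_re, Complex.mul_re, Complex.log_re, Complex.log_im]
    ring
  rw [e]
  have him : |z.im| ≤ 1 := by
    have := Complex.abs_im_le_norm z
    rwa [hz] at this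
  have hre : |z.re| ≤ 1 := by
    have := Complex.abs_re_le_norm z
    rwa [hz] at this
  have h1 : z.im * w.arg ≤ Real.pi := by
    calc z.im * w.arg ≤ |z.im * w.arg| := le_abs_self _
      _ = |z.im| * |w.arg| := abs_mul _ _
      _ ≤ 1 * Real.pi := by
          gcongr
          exact Complex.abs_arg_le_pi w
      _ = Real.pi := one_mul _
  have hlogα : Real.log (1 / α) = -Real.log α := by
    rw [one_div, Real.log_inv]
  have h2 : -(z.re * Real.log ‖w‖) ≤ max 0 z.re * Real.log (1 / α) + 1 := by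
    rcases le_total 0 z.re with h | h
    · rw [max_eq_right h, hlogα]
      have h3 : Real.log α ≤ Real.log ‖w‖ := Real.log_le_log hα hw1
      have h4 : z.re * Real.log α ≤ z.re * Real.log ‖w‖ := by gcongr
      linarith
    · rw [max_eq_left h]
      have h3 : Real.log ‖w‖ ≤ 1 := by
        have h5 : Real.log ‖w‖ ≤ ‖w‖ - 1 := Real.log_le_sub_one_of_pos hwpos
        linarith
      have h4 : -(z.re * Real.log ‖w‖) = (-z.re) * Real.log ‖w‖ := by ring
      have h5 : -z.re ≤ 1 := by
        have := neg_abs_le z.re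
        linarith
      rw [h4]
      have h6 : (-z.re) * Real.log ‖w‖ ≤ (-z.re) * 1 := by
        apply mul_le_mul_of_nonneg_left h3
        linarith
      linarith
  linarith

/-- the primes dividing `q` -/
theorem ZSmall.bad_primes (q : ℕ) [NeZero q] : ∃ K : ℝ, 0 ≤ K ∧ ∀ α : ℝ, 0 < α →
    ∀ u : ℝ, ‖(∑' p : Nat.Primes, ((p : ℕ) : ℂ) ^ (-(1 + α + u * Complex.I))) -
      ∑' p : Nat.Primes, (1 : DirichletCharacter ℂ q) p *
        ((p : ℕ) : ℂ) ^ (-(1 + α + u * Complex.I))‖ ≤ K := by
  classical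
  set g : Nat.Primes → ℝ := fun p => if (p : ℕ) ∣ q then 1 else 0 with hg
  have hgs : Summable g := by
    apply summable_of_hasFiniteSupport
    apply Set.Finite.subset (s := {p : Nat.Primes | (p : ℕ) ≤ q})
    · have : {p : Nat.Primes | (p : ℕ) ≤ q} = (fun p : Nat.Primes => (p : ℕ)) ⁻¹' (Set.Iic q) := rfl
      rw [this]
      exact (Set.finite_Iic q).preimage (Nat.Primes.coe_nat_injective.injOn)
    · intro p hp
      rw [Function.mem_support] at hp
      have hd : (p : ℕ) ∣ q := by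
        by_contra h
        exact hp (if_neg h)
      exact Nat.le_of_dvd (Nat.pos_of_ne_zero (NeZero.ne q)) hd
  refine ⟨∑' p, g p, tsum_nonneg (fun p => ?_), ?_⟩
  · rw [hg]; dsimp only; split_ifs <;> norm_num
  intro α hα u
  set s : ℂ := 1 + α + u * Complex.I with hs
  have hsre : s.re = 1 + α := by simp [hs]
  have hs1 : Summable (fun p : Nat.Primes => ((p : ℕ) : ℂ) ^ (-s)) := by
    have h := summable_primes (zch 1 (1 : DirichletCharacter ℂ 1)) (CM_zch 1 (by simp) _) α hα u
    refine h.congr fun p => ?_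
    rw [ZSmall.prime_val]
    have : (1 : DirichletCharacter ℂ 1) (p : ℕ) = 1 := by
      apply MulChar.one_apply
      exact isUnit_of_subsingleton _
    rw [this]; ring
  have hs2 : Summable (fun p : Nat.Primes => (1 : DirichletCharacter ℂ q) p *
      ((p : ℕ) : ℂ) ^ (-s)) := by
    have h := summable_primes (zch 1 (1 : DirichletCharacter ℂ q)) (CM_zch 1 (by simp) _) α hα u
    refine h.congr fun p => ?_
    rw [ZSmall.prime_val]
    ring
  rw [← hs1.tsum_sub hs2]
  refine tsum_of_norm_bounded hgs.hasSum fun p => ?_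
  rw [hg]
  dsimp only
  split_ifs with hd
  · have h1 : (1 : DirichletCharacter ℂ q) (p : ℕ) = 0 := by
      apply MulChar.map_nonunit
      rw [ZMod.isUnit_iff_coprime]
      intro hc
      exact p.2.one_lt.ne' (Nat.Coprime.eq_one_of_dvd hc hd)
    rw [h1, zero_mul, sub_zero, Complex.norm_natCast_cpow_of_pos p.2.pos, Complex.neg_re, hsre]
    apply Real.rpow_le_one_of_one_le_of_nonpos
    · exact_mod_cast p.2.one_lt.le
    · linarith
  · have h1 : (1 : DirichletCharacter ℂ q) (p : ℕ) = 1 := by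
      apply MulChar.one_apply
      rw [ZMod.isUnit_iff_coprime]
      exact (Nat.Prime.coprime_iff_not_dvd p.2).mpr hd
    rw [h1, one_mul, sub_self, norm_zero]

/-- Bounded `u`: from `log_euler` for `f = zch z χ`. If `χ ≠ 1`: `θ = 0` by `char_prime_sum`. If
`χ = 1`: the primes dividing `q` contribute `O(1)`, and by `zeta_prime_sum`
`Re (-z log(s-1)) = Re z log(1/|s-1|) + Im z arg(s-1) ≤ max 0 (Re z) log(1/α) + O(1)`;
`θ = max 0 z.re < 1`. -/
theorem zch_small (q : ℕ) [NeZero q] (χ : DirichletCharacter ℂ q) (z : ℂ) (hz : ‖z‖ = 1)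
    (hz1 : z ≠ 1) : ∃ K θ : ℝ, 0 < K ∧ 0 ≤ θ ∧ θ < 1 ∧ ∀ α : ℝ, 0 < α → α ≤ 1 →
      ∀ u : ℝ, |u| ≤ 1 → ‖LSeries (zch z χ) (1 + α + u * Complex.I)‖ ≤ K * (1 / α) ^ θ := by
  by_cases hχ : χ = 1
  · subst hχ
    obtain ⟨K1, hK1, h1⟩ := zeta_prime_sum
    obtain ⟨K2, hK2, h2⟩ := ZSmall.bad_primes q
    refine ⟨Real.exp (Real.pi + 1 + K1 + K2 + 1), max 0 z.re, Real.exp_pos _, le_max_left _ _,
      max_lt one_pos (ZSmall.re_lt z hz hz1), ?_⟩
    intro α hα hα1 u hu
    have h3 := (log_euler (zch z (1 : DirichletCharacter ℂ q)) (CM_zch z hz.le _) (zch_one z _)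
      α hα u).2
    refine h3.trans ?_
    rw [ZSmall.tsum_val]
    have e1 := h1 α hα hα1 u hu
    have e2 := h2 α hα u
    set s : ℂ := 1 + α + u * Complex.I with hs
    set A := ∑' p : Nat.Primes, ((p : ℕ) : ℂ) ^ (-s) with hA
    set B := ∑' p : Nat.Primes, (1 : DirichletCharacter ℂ q) p * ((p : ℕ) : ℂ) ^ (-s) with hB
    set L := Complex.log (α + u * Complex.I) with hL
    have e3 : (z * B).re = (-(z * L)).re + (z * (A + L)).re - (z * (A - B)).re := by
      rw [← Complex.add_re, ← Complex.sub_re]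
      congr 1
      ring
    have e4 : (z * (A + L)).re ≤ K1 := by
      refine (Complex.re_le_norm _).trans ?_
      rw [norm_mul, hz, one_mul]
      exact e1
    have e5 : -(z * (A - B)).re ≤ K2 := by
      rw [← Complex.neg_re]
      refine (Complex.re_le_norm _).trans ?_
      rw [norm_neg, norm_mul, hz, one_mul]
      exact e2
    have e6 := ZSmall.log_le z hz α u hα hα1 hu
    have e7 : (z * B).re + 1 ≤ max 0 z.re * Real.log (1 / α) + (Real.pi + 1 + K1 + K2 + 1) := by
      rw [e3]; linarith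
    calc Real.exp ((z * B).re + 1)
        ≤ Real.exp (max 0 z.re * Real.log (1 / α) + (Real.pi + 1 + K1 + K2 + 1)) :=
          Real.exp_le_exp.mpr e7
      _ = Real.exp (Real.pi + 1 + K1 + K2 + 1) * (1 / α) ^ (max 0 z.re) := by
          rw [Real.exp_add, mul_comm, Real.rpow_def_of_pos (by positivity),
            mul_comm (Real.log (1 / α))]
  · obtain ⟨K, hK, h⟩ := char_prime_sum q χ hχ
    refine ⟨Real.exp (K + 1), 0, Real.exp_pos _, le_rfl, one_pos, ?_⟩
    intro α hα hα1 u hu
    have h3 := (log_euler (zch z χ) (CM_zch z hz.le _) (zch_one z _) α hα u).2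
    refine h3.trans ?_
    rw [ZSmall.tsum_val, Real.rpow_zero, mul_one]
    apply Real.exp_le_exp.mpr
    have : (z * ∑' p : Nat.Primes, χ p * ((p : ℕ) : ℂ) ^ (-(1 + α + u * Complex.I))).re ≤ K := by
      refine (Complex.re_le_norm _).trans ?_
      rw [norm_mul, hz, one_mul]
      exact h α hα hα1 u hu
    linarith

end Pool.Agent.MR
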