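import Pool.Agent.MR.ZPow
import Pool.Agent.MR.ZSmall
import Pool.Agent.MR.PLbound

set_option autoImplicit false

open Finset

namespace Pool.Agent.MR

/-- `|u| ≤ 1`: `zch_small`. `|u| ≥ 1`: `zch_le` and `L_bound` for `χ^k` at `v = k u`
(`log |k u| ≤ log k + 3/α`): `‖F‖ ≤ e^6 (1/α) (3ε + α K')^{1/k²} ≤ η/α`. -/
theorem FB_zch (q : ℕ) [NeZero q] (χ : DirichletCharacter ℂ q) (k : ℕ) (hk : 2 ≤ k) (z : ℂ)
    (hz : z ^ k = 1) (hz1 : z ≠ 1) : FB (zch z χ) := by
  intro η hη
  have hk0 : (0 : ℝ) < k := by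
    have : 0 < k := by omega
    exact_mod_cast this
  have hk1 : (1 : ℝ) ≤ k := by
    have : 1 ≤ k := by omega
    exact_mod_cast this
  have hzn : ‖z‖ = 1 := Complex.norm_eq_one_of_pow_eq_one hz (by omega)
  set ε₁ : ℝ := (η / Real.exp 6) ^ (k ^ 2) / 5 with hε₁
  have hε₁0 : 0 < ε₁ := by positivity
  obtain ⟨K, hK0, hK⟩ := L_bound q (χ ^ k) ε₁ hε₁0
  obtain ⟨K', θ, hK'0, hθ0, hθ1, hK'⟩ := zch_small q χ z hzn hz1
  have h1θ : 0 < 1 - θ := by linarith
  refine ⟨min 1 (min (min (ε₁ / K) (1 / k)) ((η / K') ^ (1 / (1 - θ)))), by positivity,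
    fun α hα0 hα u hu => ?_⟩
  have hα1 : α ≤ 1 := hα.trans (min_le_left _ _)
  have hα2 : α ≤ ε₁ / K :=
    hα.trans ((min_le_right _ _).trans ((min_le_left _ _).trans (min_le_left _ _)))
  have hα3 : α ≤ 1 / k :=
    hα.trans ((min_le_right _ _).trans ((min_le_left _ _).trans (min_le_right _ _)))
  have hα4 : α ≤ (η / K') ^ (1 / (1 - θ)) :=
    hα.trans ((min_le_right _ _).trans (min_le_right _ _))
  by_cases hu1 : |u| ≤ 1
  · refine (hK' α hα0 hα1 u hu1).trans ?_
    have h1 : α ^ (1 - θ) ≤ η / K' := by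
      have h2 := Real.rpow_le_rpow hα0.le hα4 h1θ.le
      rw [← Real.rpow_mul (by positivity), one_div, inv_mul_cancel₀ h1θ.ne', Real.rpow_one] at h2
      exact h2
    have h3 : (1 / α) ^ θ = α ^ (1 - θ) / α := by
      rw [Real.rpow_sub hα0, Real.rpow_one, one_div, Real.inv_rpow hα0.le]
      have : α ^ θ ≠ 0 := (Real.rpow_pos_of_pos hα0 _).ne'
      field_simp
    rw [h3, ← mul_div_assoc]
    refine div_le_div_of_nonneg_right ?_ hα0.le
    rw [le_div_iff₀ hK'0] at h1
    linarith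
  · have hu1' : 1 < |u| := not_le.1 hu1
    have h1 := zch_le q χ k (by omega) z hz α hα0 hα1 u
    have habs : |(k : ℝ) * u| = k * |u| := by rw [abs_mul, abs_of_pos hk0]
    have hku : 1 ≤ |(k : ℝ) * u| := by
      rw [habs]
      nlinarith
    have h2 := hK α hα0 hα1 (k * u) hku
    set B := ‖LSeries (fun n => (χ ^ k) n) (1 + α + (k * u : ℝ) * Complex.I)‖ with hB
    have hB0 : 0 ≤ B := norm_nonneg _
    have h3 : Real.log |(k : ℝ) * u| ≤ Real.log k + 3 / α := by
      rw [habs, Real.log_mul hk0.ne' (by linarith)]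
      have e1 : Real.log |u| ≤ 3 / α := by
        rw [Real.log_le_iff_le_exp (by linarith)]
        exact hu
      linarith
    have h3b : Real.log k ≤ 1 / α := by
      have e1 : Real.log k ≤ k := (Real.log_le_self hk0.le)
      have e2 : (k : ℝ) ≤ 1 / α := by
        rw [le_div_iff₀ hα0]
        rw [le_div_iff₀ hk0] at hα3
        linarith
      linarith
    have h4 : B ≤ 5 * ε₁ / α := by
      have e1 : K ≤ ε₁ / α := by
        rw [le_div_iff₀ hα0]
        rw [le_div_iff₀ hK0] at hα2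
        linarith
      have e2 : ε₁ * Real.log |(k : ℝ) * u| ≤ ε₁ * (1 / α + 3 / α) :=
        mul_le_mul_of_nonneg_left (by linarith) hε₁0.le
      have e3 : ε₁ * (1 / α + 3 / α) + ε₁ / α = 5 * ε₁ / α := by ring
      linarith
    set p : ℝ := 1 / (k : ℝ) ^ 2 with hp
    have hp0 : 0 < p := by positivity
    have h5 : B ^ p ≤ (5 * ε₁ / α) ^ p := Real.rpow_le_rpow hB0 h4 hp0.le
    have h6 : (5 * ε₁ / α) ^ p = (η / Real.exp 6) * (1 / α) ^ p := by
      have e1 : 5 * ε₁ / α = (η / Real.exp 6) ^ (k ^ 2) * (1 / α) := by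
        rw [hε₁]
        ring
      rw [e1, Real.mul_rpow (by positivity) (by positivity)]
      congr 1
      rw [← Real.rpow_natCast, ← Real.rpow_mul (by positivity), hp]
      push_cast
      rw [mul_one_div_cancel (by positivity), Real.rpow_one]
    have h7 : (1 / α) ^ (1 - p) * (1 / α) ^ p = 1 / α := by
      rw [← Real.rpow_add (by positivity), sub_add_cancel, Real.rpow_one]
    calc ‖LSeries (zch z χ) (1 + α + u * Complex.I)‖
        ≤ Real.exp 6 * (1 / α) ^ (1 - p) * B ^ p := h1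
      _ ≤ Real.exp 6 * (1 / α) ^ (1 - p) * ((η / Real.exp 6) * (1 / α) ^ p) := by
          rw [← h6]
          exact mul_le_mul_of_nonneg_left h5 (by positivity)
      _ = (Real.exp 6 / Real.exp 6) * η * ((1 / α) ^ (1 - p) * (1 / α) ^ p) := by ring
      _ = η / α := by
          rw [h7, div_self (Real.exp_pos 6).ne']
          ring

end Pool.Agent.MR
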