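import Pool.Agent.MR.ACore
import Pool.Agent.MR.PSharp
import Pool.Agent.MR.ZFb

set_option autoImplicit false

open Finset MeasureTheory

namespace Pool.Agent.MR

/-- Indicator of `n ≡ 1` in terms of characters: mean square for `g = z^Ω` on the class `1`. -/
theorem mr_classz (g : ℕ → ℂ) (W : ℕ) (hW : 0 < W)
    (hcm : ∀ χ : DirichletCharacter ℂ W, CM (fun n => g n * χ n))
    (hpw : ∀ χ : DirichletCharacter ℂ W, PW (fun n => g n * χ n)) (η : ℝ) (hη : 0 < η) :
    ∃ h0 : ℝ, 1 ≤ h0 ∧ ∀ h : ℝ, h0 ≤ h → ∃ N0 : ℝ, 1 ≤ N0 ∧ ∀ N : ℝ, N0 ≤ N →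
      ∫ t, ‖dp (blk N) (fun n => if n ≡ 1 [MOD W] then g n else 0) t‖ ^ 2 * gw (N / h) t
        ≤ η * N ^ 2 := by
  classical
  have : NeZero W := ⟨hW.ne'⟩
  set gch : DirichletCharacter ℂ W → ℕ → ℂ := fun χ n => g n * χ n with hgch
  choose h0 hh0 hc using fun χ : DirichletCharacter ℂ W => mr_core (gch χ) (hcm χ) (hpw χ) η hη
  have hcard : (Fintype.card (DirichletCharacter ℂ W) : ℝ) = (W.totient : ℝ) := by
    have := DirichletCharacter.card_eq_totient_of_hasEnoughRootsOfUnity ℂ W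
    rw [← Nat.card_eq_fintype_card]
    exact_mod_cast this
  have hφ : (0 : ℝ) < W.totient := by exact_mod_cast Nat.totient_pos.mpr hW
  have hsumle : ∀ χ, h0 χ ≤ ∑ χ' : DirichletCharacter ℂ W, h0 χ' := fun χ =>
    single_le_sum (f := h0) (fun χ' _ => (zero_le_one.trans (hh0 χ'))) (mem_univ χ)
  refine ⟨∑ χ : DirichletCharacter ℂ W, h0 χ, (hh0 1).trans (hsumle 1), fun h hh => ?_⟩
  choose N0 hN0 hN using fun χ : DirichletCharacter ℂ W => hc χ h ((hsumle χ).trans hh)
  have hsumle' : ∀ χ, N0 χ ≤ ∑ χ' : DirichletCharacter ℂ W, N0 χ' := fun χ =>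
    single_le_sum (f := N0) (fun χ' _ => (zero_le_one.trans (hN0 χ'))) (mem_univ χ)
  have hh1 : 1 ≤ h := (hh0 1).trans ((hsumle 1).trans hh)
  refine ⟨∑ χ : DirichletCharacter ℂ W, N0 χ, (hN0 1).trans (hsumle' 1), fun N hNN => ?_⟩
  have hN1 : 1 ≤ N := (hN0 1).trans ((hsumle' 1).trans hNN)
  have hT : 0 < N / h := by positivity
  -- pointwise identity
  have hid : ∀ t, dp (blk N) (fun n => if n ≡ 1 [MOD W] then g n else 0) t
      = (W.totient : ℂ)⁻¹ * ∑ χ : DirichletCharacter ℂ W, dp (blk N) (gch χ) t := by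
    intro t
    unfold dp
    rw [sum_comm, mul_sum]
    apply sum_congr rfl
    intro n _
    have h1 : (∑ χ : DirichletCharacter ℂ W, χ (1 : ZMod W)⁻¹ * χ (n : ZMod W))
        = if (1 : ZMod W) = (n : ZMod W) then (W.totient : ℂ) else 0 :=
      DirichletCharacter.sum_char_inv_mul_char_eq ℂ isUnit_one _
    have h2 : (∑ χ : DirichletCharacter ℂ W, χ (n : ZMod W))
        = if n ≡ 1 [MOD W] then (W.totient : ℂ) else 0 := by
      have e1 : (∑ χ : DirichletCharacter ℂ W, χ (n : ZMod W))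
          = ∑ χ : DirichletCharacter ℂ W, χ (1 : ZMod W)⁻¹ * χ (n : ZMod W) := by
        apply sum_congr rfl
        intro χ _
        have : ((1 : ZMod W)⁻¹) = 1 := by simp
        simp
      rw [e1, h1]
      have e2 : ((1 : ZMod W) = (n : ZMod W)) ↔ n ≡ 1 [MOD W] := by
        rw [← ZMod.natCast_eq_natCast_iff, Nat.cast_one]
        exact eq_comm
      simp only [e2]
    have h3 : ∑ χ : DirichletCharacter ℂ W, gch χ n * ni n t
        = (∑ χ : DirichletCharacter ℂ W, χ (n : ZMod W)) * (g n * ni n t) := by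
      rw [sum_mul]
      apply sum_congr rfl
      intro χ _
      simp only [hgch]
      ring
    rw [h3, h2]
    have hφc : (W.totient : ℂ) ≠ 0 := by
      exact_mod_cast (Nat.totient_pos.mpr hW).ne'
    by_cases hn : n ≡ 1 [MOD W]
    · simp only [hn, if_true]
      field_simp
    · simp only [hn, if_false]
      simp
  have hsq : ∀ t, ‖dp (blk N) (fun n => if n ≡ 1 [MOD W] then g n else 0) t‖ ^ 2
      ≤ (W.totient : ℝ)⁻¹ * ∑ χ : DirichletCharacter ℂ W, ‖dp (blk N) (gch χ) t‖ ^ 2 := by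
    intro t
    rw [hid t, norm_mul, mul_pow]
    have e1 : ‖(W.totient : ℂ)⁻¹‖ = (W.totient : ℝ)⁻¹ := by simp
    rw [e1]
    have e2 : ‖∑ χ : DirichletCharacter ℂ W, dp (blk N) (gch χ) t‖ ^ 2
        ≤ (W.totient : ℝ) * ∑ χ : DirichletCharacter ℂ W, ‖dp (blk N) (gch χ) t‖ ^ 2 := by
      calc ‖∑ χ : DirichletCharacter ℂ W, dp (blk N) (gch χ) t‖ ^ 2
          ≤ (∑ χ : DirichletCharacter ℂ W, ‖dp (blk N) (gch χ) t‖) ^ 2 := by
            gcongr
            exact norm_sum_le _ _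
        _ ≤ (univ : Finset (DirichletCharacter ℂ W)).card *
              ∑ χ : DirichletCharacter ℂ W, ‖dp (blk N) (gch χ) t‖ ^ 2 :=
            sq_sum_le_card_mul_sum_sq
        _ = _ := by
            rw [card_univ, hcard]
    calc ((W.totient : ℝ)⁻¹) ^ 2 * ‖∑ χ : DirichletCharacter ℂ W, dp (blk N) (gch χ) t‖ ^ 2
        ≤ ((W.totient : ℝ)⁻¹) ^ 2 * ((W.totient : ℝ) *
            ∑ χ : DirichletCharacter ℂ W, ‖dp (blk N) (gch χ) t‖ ^ 2) := by gcongr
      _ = _ := by field_simp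
  calc ∫ t, ‖dp (blk N) (fun n => if n ≡ 1 [MOD W] then g n else 0) t‖ ^ 2 * gw (N / h) t
      ≤ ∫ t, (W.totient : ℝ)⁻¹ * ∑ χ : DirichletCharacter ℂ W,
          (‖dp (blk N) (gch χ) t‖ ^ 2 * gw (N / h) t) := by
        apply integral_mono (integrable_dp _ _ _ hT)
        · apply Integrable.const_mul
          exact integrable_finsetSum _ (fun χ _ => integrable_dp _ _ _ hT)
        · intro t
          have hg : 0 ≤ gw (N / h) t := by unfold gw; positivity
          have := mul_le_mul_of_nonneg_right (hsq t) hg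
          simp only []
          rw [← sum_mul, ← mul_assoc]
          exact this
    _ = (W.totient : ℝ)⁻¹ * ∑ χ : DirichletCharacter ℂ W,
          ∫ t, ‖dp (blk N) (gch χ) t‖ ^ 2 * gw (N / h) t := by
        rw [integral_const_mul, integral_finsetSum _ (fun χ _ => integrable_dp _ _ _ hT)]
    _ ≤ (W.totient : ℝ)⁻¹ * ∑ χ : DirichletCharacter ℂ W, η * N ^ 2 := by
        gcongr with χ _
        exact hN χ N ((hsumle' χ).trans hNN)
    _ = η * N ^ 2 := by
        rw [sum_const, card_univ, nsmul_eq_mul, hcard]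
        field_simp

end Pool.Agent.MR
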