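import Pool.Agent.MR.ADefs

set_option autoImplicit false

open Finset

namespace Pool.Agent.MR

/-- `z^{Ω(n)} χ(n)`. -/
noncomputable def zch {q : ℕ} (z : ℂ) (χ : DirichletCharacter ℂ q) (n : ℕ) : ℂ :=
  z ^ (ArithmeticFunction.cardFactors n) * χ n

theorem CM_zch {q : ℕ} (z : ℂ) (hz : ‖z‖ ≤ 1) (χ : DirichletCharacter ℂ q) : CM (zch z χ) := by
  refine ⟨fun m n hm hn => ?_, fun n => ?_⟩
  · unfold zch
    rw [ArithmeticFunction.cardFactors_mul hm.ne' hn.ne', pow_add]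
    push_cast
    rw [map_mul]
    ring
  · unfold zch
    rw [norm_mul, norm_pow]
    have h1 : ‖z‖ ^ (ArithmeticFunction.cardFactors n) ≤ 1 := pow_le_one₀ (norm_nonneg _) hz
    have h2 : ‖χ n‖ ≤ 1 := χ.norm_le_one _
    have h3 := norm_nonneg (χ (n : ZMod q))
    have h4 : 0 ≤ ‖z‖ ^ (ArithmeticFunction.cardFactors n) := by positivity
    nlinarith

theorem zch_one {q : ℕ} (z : ℂ) (χ : DirichletCharacter ℂ q) : zch z χ 1 = 1 := by
  simp [zch]

end Pool.Agent.MR
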