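import Pool.Agent.MR.ZDefs

set_option autoImplicit false

open Finset

namespace Pool.Agent.MR

theorem ZEuler.re_s (α u : ℝ) : ((1 : ℂ) + α + u * Complex.I).re = 1 + α := by simp

theorem ZEuler.lsum (f : ℕ → ℂ) (hf : CM f) (α : ℝ) (hα : 0 < α) (u : ℝ) :
    LSeriesSummable f (1 + α + u * Complex.I) :=
  LSeriesSummable_of_bounded_of_one_lt_re (m := 1) (fun n _ => hf.norm_le n)
    (by rw [ZEuler.re_s]; linarith)

theorem ZEuler.term_prime (f : ℕ → ℂ) (s : ℂ) (p : Nat.Primes) :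
    LSeries.term f s p = f p * ((p : ℕ) : ℂ) ^ (-s) := by
  rw [LSeries.term_of_ne_zero p.2.ne_zero, Complex.cpow_neg, div_eq_mul_inv]

theorem summable_primes (f : ℕ → ℂ) (hf : CM f) (α : ℝ) (hα : 0 < α) (u : ℝ) :
    Summable (fun p : Nat.Primes => f p * ((p : ℕ) : ℂ) ^ (-(1 + α + u * Complex.I))) := by
  have h1 : Summable (LSeries.term f (1 + α + u * Complex.I)) := ZEuler.lsum f hf α hα u
  have h2 := h1.comp_injective Nat.Primes.coe_nat_injective
  refine h2.congr (fun p => ?_)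
  exact ZEuler.term_prime f _ p

/-- sum of `1/p^2` -/
theorem ZEuler.sum_sq : Summable (fun p : Nat.Primes => (1 : ℝ) / ((p : ℕ) : ℝ) ^ 2) ∧
    ∑' p : Nat.Primes, (1 : ℝ) / ((p : ℕ) : ℝ) ^ 2 ≤ 1 := by
  have hz := hasSum_zeta_two
  set g : ℕ → ℝ := fun n => (1 : ℝ) / (n : ℝ) ^ 2 with hg
  set h : ℕ → ℝ := fun n => if n = 1 then 0 else (1 : ℝ) / (n : ℝ) ^ 2 with hh
  have hgs : Summable g := hz.summable
  have hh0 : ∀ n, 0 ≤ h n := by
    intro n
    simp only [hh]
    split_ifs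
    · exact le_rfl
    · positivity
  have hhg : ∀ n, h n ≤ g n := by
    intro n
    simp only [hh, hg]
    split_ifs
    · positivity
    · exact le_rfl
  have hhs : Summable h := Summable.of_nonneg_of_le hh0 hhg hgs
  have hp : ∀ p : Nat.Primes, (1 : ℝ) / ((p : ℕ) : ℝ) ^ 2 = h p := by
    intro p
    simp only [hh]
    rw [if_neg p.2.one_lt.ne']
  have hsum : Summable (fun p : Nat.Primes => h p) :=
    hhs.comp_injective Nat.Primes.coe_nat_injective
  constructor
  · simp_rw [hp]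
    exact hsum
  · simp_rw [hp]
    have h1 : ∑' p : Nat.Primes, h p ≤ ∑' n, h n :=
      hsum.tsum_le_tsum_of_inj (fun p : Nat.Primes => (p : ℕ)) Nat.Primes.coe_nat_injective
        (fun n _ => hh0 n) (fun p => le_rfl) hhs
    have h2 : ∑' n, g n = g 1 + ∑' n, h n := by
      have h3 := hgs.tsum_eq_add_tsum_ite 1
      rw [h3]
    have h4 : ∑' n, g n = Real.pi ^ 2 / 6 := hz.tsum_eq
    have h5 : g 1 = 1 := by simp [hg]
    have h6 : Real.pi ^ 2 / 6 ≤ 2 := by
      have := Real.pi_lt_d2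
      have := Real.pi_pos
      nlinarith
    linarith

/-- Logarithm of the Euler product (`EulerProduct.exp_tsum_primes_log_eq_tsum`;
`|-log(1-w) - w| ≤ |w|^2` for `|w| ≤ 1/2`). -/
theorem log_euler (f : ℕ → ℂ) (hf : CM f) (hf1 : f 1 = 1) (α : ℝ) (hα : 0 < α) (u : ℝ) :
    Real.exp ((∑' p : Nat.Primes, f p * ((p : ℕ) : ℂ) ^ (-(1 + α + u * Complex.I))).re - 1)
        ≤ ‖LSeries f (1 + α + u * Complex.I)‖ ∧
      ‖LSeries f (1 + α + u * Complex.I)‖ ≤
        Real.exp ((∑' p : Nat.Primes, f p * ((p : ℕ) : ℂ) ^ (-(1 + α + u * Complex.I))).re + 1) := by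
  set s : ℂ := 1 + α + u * Complex.I with hs
  have hre : s.re = 1 + α := ZEuler.re_s α u
  let g : ℕ →*₀ ℂ :=
    { toFun := fun n => LSeries.term f s n
      map_zero' := LSeries.term_zero f s
      map_one' := by
        rw [LSeries.term_of_ne_zero one_ne_zero, hf1]
        simp
      map_mul' := fun m n => by
        rcases Nat.eq_zero_or_pos m with hm | hm
        · subst hm
          rw [zero_mul, LSeries.term_zero, zero_mul]
        rcases Nat.eq_zero_or_pos n with hn | hn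
        · subst hn
          rw [mul_zero, LSeries.term_zero, mul_zero]
        rw [LSeries.term_of_ne_zero (Nat.mul_pos hm hn).ne', LSeries.term_of_ne_zero hm.ne',
          LSeries.term_of_ne_zero hn.ne', hf.mul m n hm hn, Nat.cast_mul,
          Complex.natCast_mul_natCast_cpow]
        rw [div_mul_div_comm] }
  have hg : ∀ n, g n = LSeries.term f s n := fun n => rfl
  have hsum : Summable (LSeries.term f s) := ZEuler.lsum f hf α hα u
  have hsum' : Summable (‖g ·‖) := hsum.norm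
  have hexp := EulerProduct.exp_tsum_primes_log_eq_tsum hsum'
  have hL : LSeries f s = ∑' n, g n := rfl
  have hgp : ∀ p : Nat.Primes, g p = f p * ((p : ℕ) : ℂ) ^ (-s) := fun p => ZEuler.term_prime f s p
  have hgS : Summable (fun p : Nat.Primes => g p) :=
    hsum.comp_injective Nat.Primes.coe_nat_injective
  have hlogS : Summable (fun p : Nat.Primes => -Complex.log (1 - g p)) :=
    (hgS.clog_one_sub).neg
  have hnorm : ∀ p : Nat.Primes, ‖g p‖ ≤ 1 / ((p : ℕ) : ℝ) := by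
    intro p
    have hp1 : (1 : ℝ) < ((p : ℕ) : ℝ) := by exact_mod_cast p.2.one_lt
    rw [hgp p, norm_mul, Complex.norm_natCast_cpow_of_pos p.2.pos, Complex.neg_re, hre]
    have h1 : ((p : ℕ) : ℝ) ^ (-(1 + α)) ≤ ((p : ℕ) : ℝ) ^ (-1 : ℝ) :=
      Real.rpow_le_rpow_of_exponent_le hp1.le (by linarith)
    rw [Real.rpow_neg_one] at h1
    calc ‖f p‖ * ((p : ℕ) : ℝ) ^ (-(1 + α)) ≤ 1 * ((p : ℕ) : ℝ) ^ (-(1 + α)) :=
          mul_le_mul_of_nonneg_right (hf.norm_le _) (by positivity)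
      _ ≤ 1 / ((p : ℕ) : ℝ) := by rw [one_mul, one_div]; exact h1
  have hdiff : ∀ p : Nat.Primes, ‖-Complex.log (1 - g p) - g p‖ ≤ 1 / ((p : ℕ) : ℝ) ^ 2 := by
    intro p
    have hp2 : (2 : ℝ) ≤ ((p : ℕ) : ℝ) := by exact_mod_cast p.2.two_le
    have h1 := hnorm p
    have h2 : 1 / ((p : ℕ) : ℝ) ≤ 1 / 2 := one_div_le_one_div_of_le (by norm_num) hp2
    have h3 : ‖-(g p)‖ < 1 := by rw [norm_neg]; linarith
    have h4 := Complex.norm_log_one_add_sub_self_le h3
    rw [norm_neg] at h4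
    have h5 : -Complex.log (1 - g p) - g p = -(Complex.log (1 + -(g p)) - -(g p)) := by
      rw [← sub_eq_add_neg]
      ring
    rw [h5, norm_neg]
    refine h4.trans ?_
    have h6 : (1 - ‖g p‖)⁻¹ ≤ 2 := by
      rw [inv_le_comm₀ (by linarith) (by norm_num)]
      linarith
    have h7 : ‖g p‖ ^ 2 ≤ 1 / ((p : ℕ) : ℝ) ^ 2 := by
      have := pow_le_pow_left₀ (norm_nonneg _) h1 2
      rwa [div_pow, one_pow] at this
    have h8 : 0 ≤ ‖g p‖ ^ 2 := by positivity
    nlinarith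
  have hD : ‖(∑' p : Nat.Primes, -Complex.log (1 - g p)) - ∑' p : Nat.Primes, g p‖ ≤ 1 := by
    rw [← hlogS.tsum_sub hgS]
    exact (tsum_of_norm_bounded ZEuler.sum_sq.1.hasSum hdiff).trans ZEuler.sum_sq.2
  have hRe := (Complex.abs_re_le_norm _).trans hD
  rw [Complex.sub_re] at hRe
  have hRe' := abs_le.mp hRe
  have hsumeq : (∑' p : Nat.Primes, f p * ((p : ℕ) : ℂ) ^ (-s)) = ∑' p : Nat.Primes, g p :=
    tsum_congr (fun p => (hgp p).symm)
  rw [hsumeq, hL, ← hexp, Complex.norm_exp]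
  constructor
  · apply Real.exp_le_exp.mpr
    linarith [hRe'.1]
  · apply Real.exp_le_exp.mpr
    linarith [hRe'.2]

end Pool.Agent.MR
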