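import Pool.Agent.MR.ZClass
import Pool.Agent.MR.AMvt

set_option autoImplicit false

open Finset MeasureTheory

namespace Pool.Agent.MR

private theorem count_class (c W : ℕ) (hW : 0 < W) (h : ℝ) (hh : 4 * (W : ℝ) ≤ h) :
    h / (4 * W) ≤ (((Ioc c (c + ⌊h⌋₊)).filter (fun n => n ≡ 1 [MOD W])).card : ℝ) := by
  have hWr : (0 : ℝ) < W := by exact_mod_cast hW
  have h1 := Nat.Ioc_filter_modEq_card c (c + ⌊h⌋₊) hW 1
  set b : ℚ := ((c + ⌊h⌋₊ : ℕ) : ℚ) with hb
  have h2 : ((⌊(b - (1 : ℕ)) / (W : ℚ)⌋ - ⌊((c : ℚ) - (1 : ℕ)) / (W : ℚ)⌋ : ℤ) : ℝ)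
      ≤ (((Ioc c (c + ⌊h⌋₊)).filter (fun n => n ≡ 1 [MOD W])).card : ℝ) := by
    have : ((((Ioc c (c + ⌊h⌋₊)).filter (fun n => n ≡ 1 [MOD W])).card : ℤ) : ℝ)
        = (((Ioc c (c + ⌊h⌋₊)).filter (fun n => n ≡ 1 [MOD W])).card : ℝ) := by push_cast; rfl
    rw [← this]
    have h3 : (⌊(b - (1 : ℕ)) / (W : ℚ)⌋ - ⌊((c : ℚ) - (1 : ℕ)) / (W : ℚ)⌋ : ℤ)
        ≤ (((Ioc c (c + ⌊h⌋₊)).filter (fun n => n ≡ 1 [MOD W])).card : ℤ) := by
      rw [h1]
      exact le_max_left _ _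
    exact_mod_cast h3
  have h4 : (b - (1 : ℕ)) / (W : ℚ) - 1 < (⌊(b - (1 : ℕ)) / (W : ℚ)⌋ : ℚ) := Int.sub_one_lt_floor _
  have h5 : (⌊((c : ℚ) - (1 : ℕ)) / (W : ℚ)⌋ : ℚ) ≤ ((c : ℚ) - (1 : ℕ)) / (W : ℚ) := Int.floor_le _
  have h6 : ((⌊h⌋₊ : ℕ) : ℚ) / W - 1 ≤
      ((⌊(b - (1 : ℕ)) / (W : ℚ)⌋ - ⌊((c : ℚ) - (1 : ℕ)) / (W : ℚ)⌋ : ℤ) : ℚ) := by
    push_cast
    have e : (b - (1 : ℕ)) / (W : ℚ) = ((c : ℚ) - (1 : ℕ)) / (W : ℚ) + ((⌊h⌋₊ : ℕ) : ℚ) / W := by
      rw [hb]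
      push_cast
      ring
    push_cast at e h4 h5
    linarith
  have h7 : ((⌊h⌋₊ : ℕ) : ℝ) / W - 1 ≤
      ((⌊(b - (1 : ℕ)) / (W : ℚ)⌋ - ⌊((c : ℚ) - (1 : ℕ)) / (W : ℚ)⌋ : ℤ) : ℝ) := by
    have h6' := (Rat.cast_le (K := ℝ)).mpr h6
    rw [Rat.cast_intCast] at h6'
    push_cast at h6'
    push_cast
    exact h6'
  refine le_trans ?_ (h7.trans h2)
  have h8 : h - 1 < (⌊h⌋₊ : ℝ) := Nat.sub_one_lt_floor _
  have hW1 : (1 : ℝ) ≤ W := by exact_mod_cast hW
  have h9 : h / (4 * W) = (h / 4) / W := by field_simp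
  have h10 : ((⌊h⌋₊ : ℕ) : ℝ) / W - 1 = ((⌊h⌋₊ : ℝ) - W) / W := by field_simp
  rw [h9, h10]
  apply div_le_div_of_nonneg_right _ hWr.le
  linarith

/-- telescoping bound. -/
private theorem tele (R m : ℕ) (hR : 2 ≤ R) :
    ∑ i ∈ range m, 1 / ((R : ℝ) + i) ^ 2 ≤ 1 / ((R : ℝ) - 1) := by
  have hR' : (2 : ℝ) ≤ R := by exact_mod_cast hR
  have h : ∀ m : ℕ, ∑ i ∈ range m, 1 / ((R : ℝ) + i) ^ 2 ≤ 1 / ((R : ℝ) - 1) - 1 / ((R : ℝ) + m - 1) := by
    intro m
    induction m with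
    | zero => simp
    | succ m ih =>
      rw [sum_range_succ]
      have hm : (0 : ℝ) ≤ m := Nat.cast_nonneg m
      have e : 1 / ((R : ℝ) + m) ^ 2 ≤ 1 / ((R : ℝ) + m - 1) - 1 / ((R : ℝ) + (m + 1 : ℕ) - 1) := by
        push_cast
        rw [show (R : ℝ) + (m + 1) - 1 = R + m by ring]
        rw [div_sub_div _ _ (by linarith) (by linarith), div_le_div_iff₀ (by positivity) (by nlinarith)]
        nlinarith
      linarith
  have h1 := h m
  have hm : (0 : ℝ) ≤ m := Nat.cast_nonneg m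
  have : 0 ≤ 1 / ((R : ℝ) + m - 1) := by
    apply div_nonneg zero_le_one; linarith
  linarith

private theorem K_upper (h N : ℝ) (hh : 0 < h) (hN : 0 < N) (x r : ℝ) (hr : 0 < r)
    (hx : r / (27 / 10 * N) ≤ |x|) :
    Real.exp (-x ^ 2 / (2 * (h / (9 / 10 * N)) ^ 2)) ≤ 18 * h ^ 2 * (1 / r ^ 2) := by
  have h1 : (r / (27 / 10 * N)) ^ 2 ≤ x ^ 2 := by
    rw [← sq_abs x]
    exact pow_le_pow_left₀ (by positivity) hx 2
  set y : ℝ := x ^ 2 / (2 * (h / (9 / 10 * N)) ^ 2) with hy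
  have hden : 0 < 2 * (h / (9 / 10 * N)) ^ 2 := by positivity
  have hy1 : r ^ 2 / (18 * h ^ 2) ≤ y := by
    rw [hy, le_div_iff₀ hden]
    refine le_trans (le_of_eq ?_) h1
    field_simp
    ring
  have hy0 : 0 < y := lt_of_lt_of_le (by positivity) hy1
  have e1 : Real.exp (-x ^ 2 / (2 * (h / (9 / 10 * N)) ^ 2)) = (Real.exp y)⁻¹ := by
    rw [← Real.exp_neg]
    congr 1
    rw [hy]
    ring
  rw [e1]
  have h2 : y ≤ Real.exp y := by
    have := Real.add_one_le_exp y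
    linarith
  calc (Real.exp y)⁻¹ ≤ (r ^ 2 / (18 * h ^ 2))⁻¹ := by
        apply inv_anti₀ (by positivity)
        linarith
    _ = 18 * h ^ 2 * (1 / r ^ 2) := by
        rw [inv_div]; ring

/-- lower bound for the Gaussian sum. -/
private theorem gauss_lower (g : ℕ → ℂ) (hg : ∀ n, ‖g n‖ = 1) (W : ℕ) (hW : 0 < W) (h : ℝ) (hh : 4 * (W : ℝ) ≤ h) (R : ℕ)
    (hR : 4000 * (W : ℝ) * h + 2 ≤ R) (N : ℝ) (hN : 1 ≤ N) (hNR : 2 * (R : ℝ) + 2 ≤ N / 2)
    (w : ℕ) (hw1 : N ≤ w) (hw2 : (w : ℝ) ≤ 2 * N) (s : ℂ) (hs : ‖s‖ = 1)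
    (hconst : ∀ u ∈ Icc w (w + 2 * R), u ≡ 1 [MOD W] → g u = s) (u : ℝ)
    (hu1 : Real.log ((w + R : ℕ) : ℝ) ≤ u) (hu2 : u ≤ Real.log ((w + R + 1 : ℕ) : ℝ)) :
    h / (20 * W) ≤ ‖∑ n ∈ blk (9 / 10 * N), (if n ≡ 1 [MOD W] then g n else 0) *
      (Real.exp (-(u - Real.log n) ^ 2 / (2 * (h / (9 / 10 * N)) ^ 2)) : ℂ)‖ := by
  classical
  have hWr : (0 : ℝ) < W := by exact_mod_cast hW
  have hW1 : (1 : ℝ) ≤ W := by exact_mod_cast hW
  have hh0 : 0 < h := by linarith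
  have hN0 : 0 < N := by linarith
  have hR2 : 2 ≤ R := by
    have : (2 : ℝ) ≤ R := by
      have : 0 ≤ 4000 * (W : ℝ) * h := by positivity
      linarith
    exact_mod_cast this
  have hRr : (2 : ℝ) ≤ R := by exact_mod_cast hR2
  set K : ℕ → ℝ := fun n => Real.exp (-(u - Real.log n) ^ 2 / (2 * (h / (9 / 10 * N)) ^ 2)) with hK
  have hK0 : ∀ n, 0 < K n := fun n => Real.exp_pos _
  set F : ℕ → ℂ := fun n => (if n ≡ 1 [MOD W] then g n else 0) * (K n : ℂ) with hF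
  have hFn : ∀ n, ‖F n‖ ≤ K n := by
    intro n
    simp only [hF]
    rw [norm_mul]
    have e1 : ‖(K n : ℂ)‖ = K n := by
      rw [Complex.norm_real, Real.norm_of_nonneg (hK0 n).le]
    rw [e1]
    have e2 : ‖(if n ≡ 1 [MOD W] then g n else 0)‖ ≤ 1 := by
      split_ifs
      · exact (hg n).le
      · simp
    have := (hK0 n).le
    nlinarith
  set I : Finset ℕ := Icc w (w + 2 * R) with hI
  set B : Finset ℕ := blk (9 / 10 * N) with hB
  have hIB : I ⊆ B := by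
    intro n hn
    rw [hI, mem_Icc] at hn
    rw [hB]
    unfold blk
    rw [mem_Ioc]
    have h1 : (w : ℝ) ≤ n := by exact_mod_cast hn.1
    have h2 : (n : ℝ) ≤ w + 2 * R := by exact_mod_cast hn.2
    constructor
    · rw [Nat.floor_lt (by positivity)]
      linarith
    · apply Nat.le_floor
      linarith
  -- main part
  have hmain : h / (8 * W) ≤ ‖∑ n ∈ I, F n‖ := by
    have e1 : ∑ n ∈ I, F n = s * ((∑ n ∈ I.filter (fun n => n ≡ 1 [MOD W]), K n : ℝ) : ℂ) := by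
      push_cast
      rw [mul_sum, sum_filter]
      apply sum_congr rfl
      intro n hn
      simp only [hF]
      by_cases hc : n ≡ 1 [MOD W]
      · rw [if_pos hc, if_pos hc, hconst n hn hc]
      · rw [if_neg hc, if_neg hc, zero_mul]
    rw [e1, norm_mul, hs, one_mul, Complex.norm_real,
      Real.norm_of_nonneg (sum_nonneg (fun n _ => (hK0 n).le))]
    have hsub : (Ioc (w + R) (w + R + ⌊h⌋₊)).filter (fun n => n ≡ 1 [MOD W])
        ⊆ I.filter (fun n => n ≡ 1 [MOD W]) := by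
      intro n hn
      rw [mem_filter, mem_Ioc] at hn
      rw [mem_filter, hI, mem_Icc]
      have hfl : ⌊h⌋₊ ≤ R := by
        apply Nat.floor_le_of_le
        nlinarith
      refine ⟨⟨by omega, by omega⟩, hn.2⟩
    refine le_trans ?_ (sum_le_sum_of_subset_of_nonneg hsub (fun n _ _ => (hK0 n).le))
    have hKl : ∀ n ∈ (Ioc (w + R) (w + R + ⌊h⌋₊)).filter (fun n => n ≡ 1 [MOD W]), (1 : ℝ) / 2 ≤ K n := by
      intro n hn
      rw [mem_filter, mem_Ioc] at hn
      obtain ⟨⟨hn1, hn2⟩, -⟩ := hn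
      have hn1' : ((w + R + 1 : ℕ) : ℝ) ≤ n := by exact_mod_cast hn1
      have hn2' : (n : ℝ) ≤ ((w + R : ℕ) : ℝ) + h := by
        have : (n : ℝ) ≤ ((w + R + ⌊h⌋₊ : ℕ) : ℝ) := by exact_mod_cast hn2
        have h3 := Nat.floor_le hh0.le
        push_cast at this ⊢
        linarith
      have hc0 : N ≤ ((w + R : ℕ) : ℝ) := by
        push_cast
        linarith
      have hcpos : 0 < ((w + R : ℕ) : ℝ) := by linarith
      have hnpos : (0 : ℝ) < n := by
        have : (0 : ℝ) < ((w + R + 1 : ℕ) : ℝ) := by positivity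
        linarith
      have h4 : Real.log n - u ≤ h / N := by
        have h5 : Real.log n - Real.log ((w + R : ℕ) : ℝ) ≤ h / N := by
          rw [← Real.log_div hnpos.ne' hcpos.ne']
          have h6 := Real.log_le_sub_one_of_pos (show 0 < (n : ℝ) / ((w + R : ℕ) : ℝ) by positivity)
          refine h6.trans ?_
          have h7 : (n : ℝ) / ((w + R : ℕ) : ℝ) - 1 = (n - ((w + R : ℕ) : ℝ)) / ((w + R : ℕ) : ℝ) := by
            field_simp
          rw [h7]
          rw [div_le_div_iff₀ hcpos hN0]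
          nlinarith
        linarith
      have h8 : 0 ≤ Real.log n - u := by
        have := Real.log_le_log (by positivity) hn1'
        linarith
      have h9 : (u - Real.log n) ^ 2 ≤ (h / N) ^ 2 := by
        have : (u - Real.log n) ^ 2 = (Real.log n - u) ^ 2 := by ring
        rw [this]
        exact pow_le_pow_left₀ h8 h4 2
      have h10 : (u - Real.log n) ^ 2 / (2 * (h / (9 / 10 * N)) ^ 2) ≤ 1 / 2 := by
        rw [div_le_iff₀ (by positivity)]
        refine h9.trans ?_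
        rw [div_pow, div_pow]
        rw [show 1 / 2 * (2 * (h ^ 2 / (9 / 10 * N) ^ 2)) = h ^ 2 / (9 / 10 * N) ^ 2 by ring]
        apply div_le_div_of_nonneg_left (by positivity) (by positivity)
        nlinarith
      have h11 : (1 : ℝ) / 2 ≤ Real.exp (-(1 / 2)) := by
        have := Real.add_one_le_exp (-(1 / 2 : ℝ))
        linarith
      refine h11.trans ?_
      simp only [hK]
      apply Real.exp_le_exp.mpr
      rw [neg_div]
      linarith
    have hcnt := count_class (w + R) W hW h hh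
    calc h / (8 * W) = h / (4 * W) * (1 / 2) := by field_simp; ring
      _ ≤ (((Ioc (w + R) (w + R + ⌊h⌋₊)).filter (fun n => n ≡ 1 [MOD W])).card : ℝ) * (1 / 2) := by
          gcongr
      _ = ∑ n ∈ (Ioc (w + R) (w + R + ⌊h⌋₊)).filter (fun n => n ≡ 1 [MOD W]), (1 : ℝ) / 2 := by
          rw [sum_const, nsmul_eq_mul]
      _ ≤ _ := sum_le_sum hKl
  -- tail
  have htail : ∑ n ∈ B \ I, K n ≤ 36 * h ^ 2 * (1 / ((R : ℝ) - 1)) := by
    have hsub : B \ I ⊆ (range w).filter (fun n => 1 ≤ n) ∪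
        Ico (w + 2 * R + 1) (⌊3 * (9 / 10 * N)⌋₊ + 1) := by
      intro n hn
      rw [mem_sdiff, hB, hI, mem_Icc] at hn
      unfold blk at hn
      rw [mem_Ioc] at hn
      rw [mem_union, mem_filter, mem_range, mem_Ico]
      by_cases hnw : n < w
      · left; exact ⟨hnw, by omega⟩
      · right
        refine ⟨?_, by omega⟩
        by_contra hcon
        exact hn.2 ⟨by omega, by omega⟩
    refine (sum_le_sum_of_subset_of_nonneg hsub (fun n _ _ => (hK0 n).le)).trans ?_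
    have hdj : Disjoint ((range w).filter (fun n => 1 ≤ n))
        (Ico (w + 2 * R + 1) (⌊3 * (9 / 10 * N)⌋₊ + 1)) := by
      rw [disjoint_left]
      intro n h1 h2
      rw [mem_filter, mem_range] at h1
      rw [mem_Ico] at h2
      omega
    rw [sum_union hdj]
    have hcpos : 0 < ((w + R : ℕ) : ℝ) := by
      have : (0 : ℝ) < w := by linarith
      push_cast
      linarith
    have hcb : ((w + R + 1 : ℕ) : ℝ) ≤ 27 / 10 * N := by
      push_cast
      linarith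
    have hleft : ∑ n ∈ (range w).filter (fun n => 1 ≤ n), K n ≤ 18 * h ^ 2 * (1 / ((R : ℝ) - 1)) := by
      have e1 : ∀ n ∈ (range w).filter (fun n => 1 ≤ n),
          K n ≤ 18 * h ^ 2 * (1 / ((R : ℝ) + ((w - 1 - n : ℕ) : ℝ)) ^ 2) := by
        intro n hn
        rw [mem_filter, mem_range] at hn
        have hnpos : (0 : ℝ) < n := by exact_mod_cast hn.2
        have hcast : ((w - 1 - n : ℕ) : ℝ) = w - 1 - n := by
          rw [Nat.cast_sub (by omega), Nat.cast_sub (by omega)]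
          simp
        apply K_upper h N hh0 hN0
        · positivity
        · rw [hcast]
          have h1 : Real.log n ≤ Real.log ((w + R : ℕ) : ℝ) := by
            apply Real.log_le_log hnpos
            exact_mod_cast (by omega : n ≤ w + R)
          rw [abs_of_nonneg (by linarith)]
          have h2 : 1 - (((w + R : ℕ) : ℝ) / n)⁻¹ ≤ Real.log (((w + R : ℕ) : ℝ) / n) :=
            Real.one_sub_inv_le_log_of_pos (by positivity)
          rw [Real.log_div hcpos.ne' hnpos.ne', inv_div] at h2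
          have h3 : (1 : ℝ) - n / ((w + R : ℕ) : ℝ) = (((w + R : ℕ) : ℝ) - n) / ((w + R : ℕ) : ℝ) := by
            field_simp
          rw [h3] at h2
          have h4 : ((R : ℝ) + (w - 1 - n)) / (27 / 10 * N) ≤ (((w + R : ℕ) : ℝ) - n) / ((w + R : ℕ) : ℝ) := by
            have hnum : (0 : ℝ) ≤ ((w + R : ℕ) : ℝ) - n := by
              have : (n : ℝ) ≤ ((w + R : ℕ) : ℝ) := by exact_mod_cast (by omega : n ≤ w + R)
              linarith
            calc ((R : ℝ) + (w - 1 - n)) / (27 / 10 * N) ≤ (((w + R : ℕ) : ℝ) - n) / (27 / 10 * N) := by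
                  apply div_le_div_of_nonneg_right _ (by positivity)
                  push_cast; linarith
              _ ≤ _ := by
                  apply div_le_div_of_nonneg_left hnum hcpos
                  push_cast at hcb ⊢
                  linarith
          linarith
      refine (sum_le_sum e1).trans ?_
      refine (sum_le_sum_of_subset_of_nonneg (filter_subset _ _) (fun _ _ _ => by positivity)).trans ?_
      rw [← mul_sum]
      rw [sum_range_reflect (fun i => 1 / ((R : ℝ) + (i : ℝ)) ^ 2) w]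
      exact mul_le_mul_of_nonneg_left (tele R w hR2) (by positivity)
    have hright : ∑ n ∈ Ico (w + 2 * R + 1) (⌊3 * (9 / 10 * N)⌋₊ + 1), K n
        ≤ 18 * h ^ 2 * (1 / ((R : ℝ) - 1)) := by
      rw [sum_Ico_eq_sum_range]
      have e1 : ∀ i ∈ range (⌊3 * (9 / 10 * N)⌋₊ + 1 - (w + 2 * R + 1)),
          K (w + 2 * R + 1 + i) ≤ 18 * h ^ 2 * (1 / ((R : ℝ) + (i : ℝ)) ^ 2) := by
        intro i hi
        rw [mem_range] at hi
        have hup : ((w + 2 * R + 1 + i : ℕ) : ℝ) ≤ 27 / 10 * N := by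
          have h1 : w + 2 * R + 1 + i ≤ ⌊3 * (9 / 10 * N)⌋₊ := by omega
          have h2 : ((w + 2 * R + 1 + i : ℕ) : ℝ) ≤ (⌊3 * (9 / 10 * N)⌋₊ : ℝ) := by exact_mod_cast h1
          have h3 := Nat.floor_le (show 0 ≤ 3 * (9 / 10 * N) by positivity)
          linarith
        have hc1pos : 0 < ((w + R + 1 : ℕ) : ℝ) := by positivity
        have hnpos : 0 < ((w + 2 * R + 1 + i : ℕ) : ℝ) := by positivity
        apply K_upper h N hh0 hN0
        · positivity
        · have h1 : Real.log ((w + R + 1 : ℕ) : ℝ) ≤ Real.log ((w + 2 * R + 1 + i : ℕ) : ℝ) := by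
            apply Real.log_le_log hc1pos
            exact_mod_cast (by omega : w + R + 1 ≤ w + 2 * R + 1 + i)
          rw [abs_of_nonpos (by linarith)]
          have h2 : 1 - (((w + 2 * R + 1 + i : ℕ) : ℝ) / ((w + R + 1 : ℕ) : ℝ))⁻¹
              ≤ Real.log (((w + 2 * R + 1 + i : ℕ) : ℝ) / ((w + R + 1 : ℕ) : ℝ)) :=
            Real.one_sub_inv_le_log_of_pos (by positivity)
          rw [Real.log_div hnpos.ne' hc1pos.ne', inv_div] at h2
          have h3 : (1 : ℝ) - ((w + R + 1 : ℕ) : ℝ) / ((w + 2 * R + 1 + i : ℕ) : ℝ)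
              = ((R : ℝ) + i) / ((w + 2 * R + 1 + i : ℕ) : ℝ) := by
            push_cast
            field_simp
            ring
          rw [h3] at h2
          have h4 : ((R : ℝ) + i) / (27 / 10 * N) ≤ ((R : ℝ) + i) / ((w + 2 * R + 1 + i : ℕ) : ℝ) := by
            apply div_le_div_of_nonneg_left (by positivity) hnpos hup
          linarith
      refine (sum_le_sum e1).trans ?_
      rw [← mul_sum]
      exact mul_le_mul_of_nonneg_left (tele R _ hR2) (by positivity)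
    have : 36 * h ^ 2 * (1 / ((R : ℝ) - 1)) = 18 * h ^ 2 * (1 / ((R : ℝ) - 1)) +
      18 * h ^ 2 * (1 / ((R : ℝ) - 1)) := by ring
    linarith
  have hsplit : ∑ n ∈ B, F n = ∑ n ∈ I, F n + ∑ n ∈ B \ I, F n := by
    rw [← sum_sdiff hIB]; ring
  have hnorm : ‖∑ n ∈ I, F n‖ - ∑ n ∈ B \ I, K n ≤ ‖∑ n ∈ B, F n‖ := by
    rw [hsplit]
    have h1 : ‖∑ n ∈ B \ I, F n‖ ≤ ∑ n ∈ B \ I, K n :=
      (norm_sum_le _ _).trans (sum_le_sum (fun n _ => hFn n))
    have h2 := norm_sub_norm_le (∑ n ∈ I, F n) (-(∑ n ∈ B \ I, F n))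
    rw [norm_neg, sub_neg_eq_add] at h2
    linarith
  have hRb : 36 * h ^ 2 * (1 / ((R : ℝ) - 1)) ≤ h / (100 * W) := by
    have : 4000 * (W : ℝ) * h ≤ (R : ℝ) - 1 := by linarith
    calc 36 * h ^ 2 * (1 / ((R : ℝ) - 1)) ≤ 36 * h ^ 2 * (1 / (4000 * (W : ℝ) * h)) := by
          gcongr
      _ ≤ h / (100 * W) := by
          rw [show 36 * h ^ 2 * (1 / (4000 * (W : ℝ) * h)) = (36 / 4000) * (h / W) by field_simp,
            show h / (100 * W) = (1 / 100) * (h / W) by field_simp]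
          have : 0 < h / W := by positivity
          linarith
  have hfin : h / (20 * W) ≤ h / (8 * W) - h / (100 * W) := by
    rw [show h / (20 * W) = (1 / 20) * (h / W) by field_simp,
      show h / (8 * W) = (1 / 8) * (h / W) by field_simp,
      show h / (100 * W) = (1 / 100) * (h / W) by field_simp]
    have : 0 < h / W := by positivity
    linarith
  change h / (20 * W) ≤ ‖∑ n ∈ B, F n‖
  linarith

/-- `g` is not locally constant on the class `1` modulo `W`. -/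
theorem not_constz (g : ℕ → ℂ) (hg : ∀ n, ‖g n‖ = 1) (W : ℕ) (hW : 0 < W)
    (hcm : ∀ χ : DirichletCharacter ℂ W, CM (fun n => g n * χ n))
    (hpw : ∀ χ : DirichletCharacter ℂ W, PW (fun n => g n * χ n)) : ∃ H : ℕ, ∃ N0 : ℝ, ∀ N : ℝ, N0 ≤ N →
    (Set.ncard {w : ℕ | N ≤ w ∧ (w : ℝ) ≤ 2 * N ∧ ∀ u ∈ Icc w (w + H), ∀ v ∈ Icc w (w + H),
      u ≡ 1 [MOD W] → v ≡ 1 [MOD W] → g u = g v} : ℝ) ≤ N / 2 := by
  have hWr : (0 : ℝ) < W := by exact_mod_cast hW
  have hW1 : (1 : ℝ) ≤ W := by exact_mod_cast hW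
  obtain ⟨h0, hh0, hmr⟩ := mr_classz g W hW hcm hpw (1 / (10000 * (W : ℝ) ^ 2)) (by positivity)
  set h : ℝ := max h0 (4 * W) with hh
  have hh4 : 4 * (W : ℝ) ≤ h := le_max_right _ _
  have hh1 : 1 ≤ h := by linarith
  obtain ⟨N1, hN1, hmr⟩ := hmr h (le_max_left _ _)
  set R : ℕ := ⌈4000 * (W : ℝ) * h + 2⌉₊ with hR
  have hRle : 4000 * (W : ℝ) * h + 2 ≤ R := Nat.le_ceil _
  refine ⟨2 * R, max (2 * N1) (4 * R + 4), fun N hN => ?_⟩
  have hNa : 2 * N1 ≤ N := (le_max_left _ _).trans hN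
  have hNb : 4 * (R : ℝ) + 4 ≤ N := (le_max_right _ _).trans hN
  have hN1' : 1 ≤ N := by linarith
  have hN0 : 0 < N := by linarith
  set S : Set ℕ := {w : ℕ | N ≤ w ∧ (w : ℝ) ≤ 2 * N ∧ ∀ u ∈ Icc w (w + 2 * R),
    ∀ v ∈ Icc w (w + 2 * R), u ≡ 1 [MOD W] → v ≡ 1 [MOD W] → g u = g v} with hS
  have hfin : S.Finite := by
    apply Set.Finite.subset (Set.finite_Icc 0 ⌊2 * N⌋₊)
    intro w hw
    exact ⟨Nat.zero_le _, Nat.le_floor hw.2.1⟩
  have hcard : (S.ncard : ℝ) = hfin.toFinset.card := by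
    rw [Set.ncard_eq_toFinset_card S hfin]
  set M : ℝ := 9 / 10 * N with hM
  have hM0 : 0 < M := by positivity
  set θ : ℝ := h / M with hθ
  have hθ0 : 0 < θ := by positivity
  set c : ℕ → ℂ := fun n => if n ≡ 1 [MOD W] then g n else 0 with hc
  have hpars := gauss_parseval (blk M) (by
    intro n hn
    unfold blk at hn
    rw [mem_Ioc] at hn
    omega) c θ hθ0
  have hint := integrable_gauss (blk M) c θ hθ0
  have hmrN := hmr M (by rw [hM]; linarith)
  have hup : ∫ u : ℝ, ‖∑ n ∈ blk M, c n * (Real.exp (-(u - Real.log n) ^ 2 / (2 * θ ^ 2)) : ℂ)‖ ^ 2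
      ≤ h ^ 2 / (10000 * (W : ℝ) ^ 2) := by
    rw [hpars]
    have e1 : 1 / θ = M / h := by rw [hθ]; field_simp
    rw [e1]
    calc θ ^ 2 * ∫ t, ‖dp (blk M) c t‖ ^ 2 * gw (M / h) t
        ≤ θ ^ 2 * (1 / (10000 * (W : ℝ) ^ 2) * M ^ 2) := by
          apply mul_le_mul_of_nonneg_left hmrN (by positivity)
      _ = h ^ 2 / (10000 * (W : ℝ) ^ 2) := by
          rw [hθ]; field_simp
  -- intervals
  set Jw : ℕ → Set ℝ := fun w => Set.Ico (Real.log ((w + R : ℕ) : ℝ)) (Real.log ((w + R + 1 : ℕ) : ℝ))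
    with hJw
  have hlow : ∀ w ∈ hfin.toFinset, (h / (20 * W)) ^ 2 * (1 / (3 * N)) ≤
      ∫ u in Jw w, ‖∑ n ∈ blk M, c n * (Real.exp (-(u - Real.log n) ^ 2 / (2 * θ ^ 2)) : ℂ)‖ ^ 2 := by
    intro w hw
    rw [Set.Finite.mem_toFinset] at hw
    obtain ⟨hw1, hw2, hw3⟩ := hw
    have hsgn : ∃ s : ℂ, ‖s‖ = 1 ∧ ∀ u ∈ Icc w (w + 2 * R), u ≡ 1 [MOD W] → g u = s := by
      by_cases hex : ∃ v ∈ Icc w (w + 2 * R), v ≡ 1 [MOD W]
      · obtain ⟨v, hv, hv1⟩ := hex
        exact ⟨g v, hg v, fun u hu hu1 => hw3 u hu v hv hu1 hv1⟩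
      · refine ⟨1, norm_one, fun u hu hu1 => ?_⟩
        exact absurd ⟨u, hu, hu1⟩ hex
    obtain ⟨s, hs, hconst⟩ := hsgn
    have hpt : ∀ u ∈ Jw w, (h / (20 * W)) ^ 2 ≤
        ‖∑ n ∈ blk M, c n * (Real.exp (-(u - Real.log n) ^ 2 / (2 * θ ^ 2)) : ℂ)‖ ^ 2 := by
      intro u hu
      have := gauss_lower g hg W hW h hh4 R hRle N hN1' (by linarith) w hw1 hw2 s hs hconst u hu.1 hu.2.le
      exact pow_le_pow_left₀ (by positivity) this 2
    have hc0 : (0 : ℝ) < ((w + R : ℕ) : ℝ) := by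
      have : (0 : ℝ) < w := by linarith
      push_cast
      have := Nat.cast_nonneg (α := ℝ) R
      linarith
    have hlen : 1 / (3 * N) ≤ Real.log ((w + R + 1 : ℕ) : ℝ) - Real.log ((w + R : ℕ) : ℝ) := by
      rw [← Real.log_div (by positivity) hc0.ne']
      have e1 : (1 : ℝ) - (((w + R + 1 : ℕ) : ℝ) / ((w + R : ℕ) : ℝ))⁻¹
          ≤ Real.log (((w + R + 1 : ℕ) : ℝ) / ((w + R : ℕ) : ℝ)) :=
        Real.one_sub_inv_le_log_of_pos (by positivity)
      refine le_trans ?_ e1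
      rw [inv_div]
      have e2 : (1 : ℝ) - ((w + R : ℕ) : ℝ) / ((w + R + 1 : ℕ) : ℝ) = 1 / ((w + R + 1 : ℕ) : ℝ) := by
        push_cast
        field_simp
        ring
      rw [e2]
      apply one_div_le_one_div_of_le (by positivity)
      push_cast
      linarith
    have hle : Real.log ((w + R : ℕ) : ℝ) ≤ Real.log ((w + R + 1 : ℕ) : ℝ) := by
      have : 0 < 1 / (3 * N) := by positivity
      linarith
    calc (h / (20 * W)) ^ 2 * (1 / (3 * N))
        ≤ (h / (20 * W)) ^ 2 * (Real.log ((w + R + 1 : ℕ) : ℝ) - Real.log ((w + R : ℕ) : ℝ)) := by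
          gcongr
      _ = ∫ u in Jw w, (h / (20 * W)) ^ 2 := by
          rw [setIntegral_const, hJw]
          simp only [measureReal_def, Real.volume_Ico]
          rw [ENNReal.toReal_ofReal (by linarith), smul_eq_mul, mul_comm]
      _ ≤ _ := by
          apply setIntegral_mono_on _ hint.integrableOn measurableSet_Ico hpt
          exact integrableOn_const (by simp [hJw]) (by simp)
  have hdisj : Set.PairwiseDisjoint (↑hfin.toFinset) Jw := by
    intro a _ b _ hab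
    have key : ∀ a b : ℕ, a < b → 0 < a + R → Disjoint (Jw a) (Jw b) := by
      intro a b hab ha
      rw [Set.disjoint_left]
      intro u hu1 hu2
      have e1 : Real.log ((a + R + 1 : ℕ) : ℝ) ≤ Real.log ((b + R : ℕ) : ℝ) := by
        apply Real.log_le_log (by positivity)
        exact_mod_cast (by omega : a + R + 1 ≤ b + R)
      have := hu1.2
      have := hu2.1
      linarith
    have hRpos : 0 < R := by
      have : (0 : ℝ) < R := by
        have : 0 < 4000 * (W : ℝ) * h + 2 := by positivity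
        linarith
      exact_mod_cast this
    rcases lt_or_gt_of_ne hab with h1 | h1
    · exact key a b h1 (by omega)
    · exact (key b a h1 (by omega)).symm
  have hsum : ∑ w ∈ hfin.toFinset, ∫ u in Jw w,
      ‖∑ n ∈ blk M, c n * (Real.exp (-(u - Real.log n) ^ 2 / (2 * θ ^ 2)) : ℂ)‖ ^ 2
      ≤ h ^ 2 / (10000 * (W : ℝ) ^ 2) := by
    rw [← integral_biUnion_finset _ (fun w _ => measurableSet_Ico) hdisj
      (fun w _ => hint.integrableOn)]
    refine le_trans ?_ hup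
    apply setIntegral_le_integral hint
    exact Filter.Eventually.of_forall (fun u => by positivity)
  have hfinal : (hfin.toFinset.card : ℝ) * ((h / (20 * W)) ^ 2 * (1 / (3 * N)))
      ≤ h ^ 2 / (10000 * (W : ℝ) ^ 2) := by
    refine le_trans ?_ hsum
    rw [← nsmul_eq_mul, ← sum_const]
    exact sum_le_sum hlow
  rw [hcard]
  have hh0 : 0 < h := by linarith
  have e1 : (hfin.toFinset.card : ℝ) * ((h / (20 * W)) ^ 2 * (1 / (3 * N)))
      = (hfin.toFinset.card : ℝ) * (h ^ 2 / (1200 * (W : ℝ) ^ 2 * N)) := by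
    field_simp
    ring
  rw [e1] at hfinal
  have e2 : (hfin.toFinset.card : ℝ) * h ^ 2 / (1200 * (W : ℝ) ^ 2 * N)
      ≤ h ^ 2 / (10000 * (W : ℝ) ^ 2) := by
    rw [mul_div_assoc]; exact hfinal
  rw [div_le_div_iff₀ (by positivity) (by positivity)] at e2
  have hh2 : 0 < h ^ 2 * (W : ℝ) ^ 2 := by positivity
  have e3 : (hfin.toFinset.card : ℝ) * 10000 * (h ^ 2 * (W : ℝ) ^ 2) ≤ 1200 * N * (h ^ 2 * (W : ℝ) ^ 2) := by
    linarith
  have e4 := le_of_mul_le_mul_right e3 hh2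
  linarith

end Pool.Agent.MR
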