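import Pool.Agent.MR.ZPrime

set_option autoImplicit false

open Finset

namespace Pool.Agent.MR

theorem norm_one_sub_pow_le (w : ℂ) (hw : ‖w‖ = 1) (k : ℕ) :
    ‖1 - w ^ k‖ ≤ (k : ℝ) * ‖1 - w‖ := by
  induction k with
  | zero => simp
  | succ k ih =>
    have h1 : 1 - w ^ (k + 1) = (1 - w ^ k) + w ^ k * (1 - w) := by ring
    calc ‖1 - w ^ (k + 1)‖ = ‖(1 - w ^ k) + w ^ k * (1 - w)‖ := by rw [h1]
      _ ≤ ‖1 - w ^ k‖ + ‖w ^ k * (1 - w)‖ := norm_add_le _ _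
      _ = ‖1 - w ^ k‖ + ‖1 - w‖ := by rw [norm_mul, norm_pow, hw, one_pow, one_mul]
      _ ≤ (k : ℝ) * ‖1 - w‖ + ‖1 - w‖ := by linarith
      _ = ((k + 1 : ℕ) : ℝ) * ‖1 - w‖ := by push_cast; ring

theorem norm_one_sub_sq (w : ℂ) (hw : ‖w‖ = 1) : ‖1 - w‖ ^ 2 = 2 * (1 - w.re) := by
  have h1 : Complex.normSq w = 1 := by
    rw [Complex.normSq_eq_norm_sq, hw]
    norm_num
  rw [← Complex.normSq_eq_norm_sq]
  rw [Complex.normSq_apply] at h1 ⊢
  simp only [Complex.sub_re, Complex.one_re, Complex.sub_im, Complex.one_im]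
  nlinarith

/-- `1 - Re w^k ≤ k² (1 - Re w)` for `|w| = 1`. -/
theorem one_sub_re_pow (w : ℂ) (hw : ‖w‖ = 1) (k : ℕ) :
    1 - (w ^ k).re ≤ (k : ℝ) ^ 2 * (1 - w.re) := by
  have hwk : ‖w ^ k‖ = 1 := by rw [norm_pow, hw, one_pow]
  have h1 := norm_one_sub_sq w hw
  have h2 := norm_one_sub_sq (w ^ k) hwk
  have h3 := norm_one_sub_pow_le w hw k
  have h4 : ‖1 - w ^ k‖ ^ 2 ≤ ((k : ℝ) * ‖1 - w‖) ^ 2 :=
    pow_le_pow_left₀ (norm_nonneg _) h3 2
  rw [mul_pow, h1, h2] at h4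
  linarith

/-- Bound for `∑ z^Ω χ` through `L(s, χ^k)` when `z^k = 1`. For `w = z χ(p) p^{-iu}` (unimodular if
`p ∤ q`, zero if `p ∣ q`): `Re w ≤ 1 - 1/k² + Re w^k / k²`. -/
theorem zch_le (q : ℕ) [NeZero q] (χ : DirichletCharacter ℂ q) (k : ℕ) (hk : 1 ≤ k) (z : ℂ)
    (hz : z ^ k = 1) (α : ℝ) (hα : 0 < α) (hα1 : α ≤ 1) (u : ℝ) :
    ‖LSeries (zch z χ) (1 + α + u * Complex.I)‖ ≤
      Real.exp 6 * (1 / α) ^ (1 - 1 / (k : ℝ) ^ 2) *
        ‖LSeries (fun n => (χ ^ k) n) (1 + α + (k * u : ℝ) * Complex.I)‖ ^ (1 / (k : ℝ) ^ 2) := by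
  have hk0 : k ≠ 0 := by omega
  have hkR : (1 : ℝ) ≤ k := by exact_mod_cast hk
  have hk2 : (1 : ℝ) ≤ (k : ℝ) ^ 2 := one_le_pow₀ hkR
  have hzn : ‖z‖ = 1 := by
    have h1 : ‖z‖ ^ k = 1 := by rw [← norm_pow, hz, norm_one]
    exact (pow_eq_one_iff_of_nonneg (norm_nonneg _) hk0).1 h1
  set g : ℕ → ℂ := fun n => (χ ^ k) n with hg
  have hCMf : CM (zch z χ) := CM_zch z hzn.le χ
  have hCMg : CM g := by
    refine ⟨fun m n _ _ => ?_, fun n => ?_⟩
    · simp only [hg]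
      push_cast
      rw [map_mul]
    · exact (χ ^ k).norm_le_one _
  have hg1 : g 1 = 1 := by simp [hg]
  have hf1 : zch z χ 1 = 1 := zch_one z χ
  have hF := summable_primes (zch z χ) hCMf α hα u
  have hG := summable_primes g hCMg α hα ((k : ℝ) * u)
  have hLf := (log_euler (zch z χ) hCMf hf1 α hα u).2
  have hLg := (log_euler g hCMg hg1 α hα ((k : ℝ) * u)).1
  have hP : Summable (fun p : Nat.Primes => ((p : ℕ) : ℝ) ^ (-(1 + α))) :=
    Nat.Primes.summable_rpow.2 (by linarith)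
  have hPs := (prime_sum α hα hα1).2
  -- pointwise inequality
  have hpt : ∀ p : Nat.Primes,
      (zch z χ p * ((p : ℕ) : ℂ) ^ (-(1 + α + u * Complex.I))).re ≤
        (1 - 1 / (k : ℝ) ^ 2) * ((p : ℕ) : ℝ) ^ (-(1 + α)) +
          1 / (k : ℝ) ^ 2 *
            (g p * ((p : ℕ) : ℂ) ^ (-(1 + α + (k * u : ℝ) * Complex.I))).re := by
    intro p
    have hp0 : 0 < (p : ℕ) := p.2.pos
    have hpC : ((p : ℕ) : ℂ) ≠ 0 := by exact_mod_cast hp0.ne'
    have hPp : 0 ≤ ((p : ℕ) : ℝ) ^ (-(1 + α)) := by positivity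
    have hom : ArithmeticFunction.cardFactors (p : ℕ) = 1 :=
      ArithmeticFunction.cardFactors_apply_prime p.2
    have hs : ∀ v : ℝ, ((p : ℕ) : ℂ) ^ (-(1 + (α : ℂ) + v * Complex.I)) =
        (((p : ℕ) : ℝ) ^ (-(1 + α)) : ℝ) * ((p : ℕ) : ℂ) ^ (-(v * Complex.I)) := by
      intro v
      have h1 : (-(1 + (α : ℂ) + v * Complex.I)) = ((-(1 + α) : ℝ) : ℂ) + (-(v * Complex.I)) := by
        push_cast
        ring
      rw [h1, Complex.cpow_add _ _ hpC]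
      congr 1
      rw [Complex.ofReal_cpow (by positivity)]
      simp
    set w : ℂ := z * χ (p : ℕ) * ((p : ℕ) : ℂ) ^ (-((u : ℂ) * Complex.I)) with hw
    have hfe : zch z χ p * ((p : ℕ) : ℂ) ^ (-(1 + α + u * Complex.I)) =
        (((p : ℕ) : ℝ) ^ (-(1 + α)) : ℝ) * w := by
      rw [hs u, hw]
      unfold zch
      rw [hom, pow_one]
      ring
    have hge : g p * ((p : ℕ) : ℂ) ^ (-(1 + α + (k * u : ℝ) * Complex.I)) =
        (((p : ℕ) : ℝ) ^ (-(1 + α)) : ℝ) * w ^ k := by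
      rw [hs (k * u), hw, hg]
      simp only
      rw [MulChar.pow_apply' χ hk0, mul_pow, mul_pow, hz, one_mul, ← Complex.cpow_nat_mul]
      have h2 : (-(((k * u : ℝ) : ℂ) * Complex.I)) = (k : ℂ) * (-((u : ℂ) * Complex.I)) := by
        push_cast
        ring
      rw [h2]
      ring
    rw [hfe, hge, Complex.re_ofReal_mul, Complex.re_ofReal_mul]
    have hre : w.re ≤ (1 - 1 / (k : ℝ) ^ 2) + 1 / (k : ℝ) ^ 2 * (w ^ k).re := by
      by_cases hu : IsUnit ((p : ℕ) : ZMod q)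
      · have hwn : ‖w‖ = 1 := by
          rw [hw, norm_mul, norm_mul, hzn]
          have h3 : ‖χ ((p : ℕ) : ZMod q)‖ = 1 := by
            obtain ⟨v, hv⟩ := hu
            rw [← hv]
            exact χ.unit_norm_eq_one v
          rw [h3, Complex.norm_natCast_cpow_of_pos hp0]
          simp
        have h4 := one_sub_re_pow w hwn k
        have h5 : (1 - (w ^ k).re) / (k : ℝ) ^ 2 ≤ 1 - w.re := by
          rw [div_le_iff₀ (by positivity)]
          linarith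
        have h6 : (1 - (w ^ k).re) / (k : ℝ) ^ 2 =
            1 / (k : ℝ) ^ 2 - 1 / (k : ℝ) ^ 2 * (w ^ k).re := by ring
        linarith
      · have hw0 : w = 0 := by
          rw [hw, MulChar.map_nonunit χ hu]
          simp
        rw [hw0, zero_pow hk0]
        simp only [Complex.zero_re, mul_zero, add_zero]
        rw [sub_nonneg, div_le_one (by positivity)]
        exact hk2
    calc ((p : ℕ) : ℝ) ^ (-(1 + α)) * w.re
        ≤ ((p : ℕ) : ℝ) ^ (-(1 + α)) *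
            ((1 - 1 / (k : ℝ) ^ 2) + 1 / (k : ℝ) ^ 2 * (w ^ k).re) :=
          mul_le_mul_of_nonneg_left hre hPp
      _ = _ := by ring
  have hsum : (∑' p : Nat.Primes, zch z χ p * ((p : ℕ) : ℂ) ^ (-(1 + α + u * Complex.I))).re ≤
      (1 - 1 / (k : ℝ) ^ 2) * ∑' p : Nat.Primes, ((p : ℕ) : ℝ) ^ (-(1 + α)) +
        1 / (k : ℝ) ^ 2 *
          (∑' p : Nat.Primes, g p * ((p : ℕ) : ℂ) ^ (-(1 + α + (k * u : ℝ) * Complex.I))).re := by
    rw [Complex.re_tsum hF, Complex.re_tsum hG, ← tsum_mul_left, ← tsum_mul_left,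
      ← Summable.tsum_add (hP.mul_left _) ((Complex.hasSum_re hG.hasSum).summable.mul_left _)]
    exact Summable.tsum_le_tsum hpt (Complex.hasSum_re hF.hasSum).summable
      ((hP.mul_left _).add ((Complex.hasSum_re hG.hasSum).summable.mul_left _))
  set SG : ℝ := (∑' p : Nat.Primes, g p * ((p : ℕ) : ℂ) ^ (-(1 + α + (k * u : ℝ) * Complex.I))).re
    with hSG
  set LG : ℝ := ‖LSeries g (1 + α + (k * u : ℝ) * Complex.I)‖ with hLG
  have hc0 : 0 ≤ 1 / (k : ℝ) ^ 2 := by positivity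
  have hc1 : 0 ≤ 1 - 1 / (k : ℝ) ^ 2 := by
    rw [sub_nonneg, div_le_one (by positivity)]
    exact hk2
  have hLGpos : 0 < LG := lt_of_lt_of_le (Real.exp_pos _) hLg
  have hSGle : SG ≤ Real.log LG + 1 := by
    have h1 := Real.log_le_log (Real.exp_pos _) hLg
    rw [Real.log_exp] at h1
    linarith
  calc ‖LSeries (zch z χ) (1 + α + u * Complex.I)‖
      ≤ Real.exp ((∑' p : Nat.Primes,
          zch z χ p * ((p : ℕ) : ℂ) ^ (-(1 + α + u * Complex.I))).re + 1) := hLf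
    _ ≤ Real.exp (6 + (1 - 1 / (k : ℝ) ^ 2) * Real.log (1 / α) +
          1 / (k : ℝ) ^ 2 * Real.log LG) := by
        apply Real.exp_le_exp.2
        have h1 : (1 - 1 / (k : ℝ) ^ 2) * ∑' p : Nat.Primes, ((p : ℕ) : ℝ) ^ (-(1 + α)) ≤
            (1 - 1 / (k : ℝ) ^ 2) * (Real.log (1 / α) + 2) :=
          mul_le_mul_of_nonneg_left hPs hc1
        have h2 : 1 / (k : ℝ) ^ 2 * SG ≤ 1 / (k : ℝ) ^ 2 * (Real.log LG + 1) :=
          mul_le_mul_of_nonneg_left hSGle hc0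
        have h3 : 1 - 1 / (k : ℝ) ^ 2 ≤ 1 := by linarith
        have h4 : 1 / (k : ℝ) ^ 2 ≤ 1 := by linarith
        nlinarith
    _ = Real.exp 6 * (1 / α) ^ (1 - 1 / (k : ℝ) ^ 2) * LG ^ (1 / (k : ℝ) ^ 2) := by
        rw [Real.exp_add, Real.exp_add, Real.rpow_def_of_pos (by positivity),
          Real.rpow_def_of_pos hLGpos]
        congr 2
        · congr 1
          ring
        · ring

end Pool.Agent.MR
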