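import Pool.Agent.MR.ZEuler

set_option autoImplicit false

open Finset

namespace Pool.Agent.MR

theorem zp_lower {α x : ℝ} (hα : 0 < α) (hx : 1 ≤ x) :
    (x ^ (-α) - (x + 1) ^ (-α)) / α ≤ x ^ (-(1 + α)) := by
  have hx0 : 0 < x := by linarith
  rw [div_le_iff₀ hα]
  have h1 : (x + 1) ^ (-α) = x ^ (-α) * (1 + 1 / x) ^ (-α) := by
    rw [← Real.mul_rpow hx0.le (by positivity)]
    congr 1
    field_simp
  have h2 : 1 - α * (1 / x) ≤ (1 + 1 / x) ^ (-α) := by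
    have hp : 0 < 1 + 1 / x := by positivity
    rw [Real.rpow_def_of_pos hp]
    have h3 := Real.add_one_le_exp (Real.log (1 + 1 / x) * -α)
    have h4 : Real.log (1 + 1 / x) ≤ 1 / x := by
      have := Real.log_le_sub_one_of_pos hp
      linarith
    nlinarith
  have h3 : x ^ (-(1 + α)) = x ^ (-α) * (1 / x) := by
    rw [neg_add, add_comm, Real.rpow_add hx0, Real.rpow_neg_one, one_div]
  have h4 : 0 < x ^ (-α) := Real.rpow_pos_of_pos hx0 _
  rw [h1, h3]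
  nlinarith

theorem zp_upper {α x : ℝ} (hα : 0 < α) (hx : 1 ≤ x) :
    (x + 1) ^ (-(1 + α)) ≤ (x ^ (-α) - (x + 1) ^ (-α)) / α := by
  have hx0 : 0 < x := by linarith
  have hy0 : 0 < x + 1 := by linarith
  rw [le_div_iff₀ hα]
  have h1 : x ^ (-α) = (x + 1) ^ (-α) * (1 - 1 / (x + 1)) ^ (-α) := by
    have e : 1 - 1 / (x + 1) = x / (x + 1) := by field_simp; ring
    rw [e, ← Real.mul_rpow hy0.le (by positivity)]
    congr 1
    field_simp
  have hp : 0 < 1 - 1 / (x + 1) := by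
    have e : 1 - 1 / (x + 1) = x / (x + 1) := by field_simp; ring
    rw [e]
    positivity
  have h2 : 1 + α * (1 / (x + 1)) ≤ (1 - 1 / (x + 1)) ^ (-α) := by
    rw [Real.rpow_def_of_pos hp]
    have h3 := Real.add_one_le_exp (Real.log (1 - 1 / (x + 1)) * -α)
    have h4 : Real.log (1 - 1 / (x + 1)) ≤ - (1 / (x + 1)) := by
      have := Real.log_le_sub_one_of_pos hp
      linarith
    nlinarith
  have h3 : (x + 1) ^ (-(1 + α)) = (x + 1) ^ (-α) * (1 / (x + 1)) := by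
    rw [neg_add, add_comm (-1 : ℝ), Real.rpow_add hy0, Real.rpow_neg_one, one_div]
  have h4 : 0 < (x + 1) ^ (-α) := Real.rpow_pos_of_pos hy0 _
  rw [h3, h1]
  nlinarith

theorem zp_summable {α : ℝ} (hα : 0 < α) :
    Summable (fun n : ℕ => ((n : ℝ) + 1) ^ (-(1 + α))) := by
  have h := (Real.summable_nat_rpow (p := -(1 + α))).2 (by linarith)
  have h2 := (summable_nat_add_iff (f := fun n : ℕ => (n : ℝ) ^ (-(1 + α))) 1).2 h
  refine h2.congr fun n => ?_
  push_cast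
  rfl

theorem zp_partial_lower {α : ℝ} (hα : 0 < α) (N : ℕ) :
    (1 - ((N : ℝ) + 1) ^ (-α)) / α ≤ ∑ n ∈ range N, ((n : ℝ) + 1) ^ (-(1 + α)) := by
  induction N with
  | zero => simp
  | succ N ih =>
    rw [sum_range_succ]
    have h := zp_lower hα (x := (N : ℝ) + 1) (by linarith [Nat.cast_nonneg (α := ℝ) N])
    push_cast
    have e : (1 - ((N : ℝ) + 1 + 1) ^ (-α)) / α
        = (1 - ((N : ℝ) + 1) ^ (-α)) / α + (((N : ℝ) + 1) ^ (-α) - ((N : ℝ) + 1 + 1) ^ (-α)) / α := by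
      ring
    rw [e]
    exact add_le_add ih h

theorem zp_partial_upper {α : ℝ} (hα : 0 < α) (N : ℕ) :
    ∑ n ∈ range (N + 1), ((n : ℝ) + 1) ^ (-(1 + α)) ≤ 1 + (1 - ((N : ℝ) + 1) ^ (-α)) / α := by
  induction N with
  | zero => simp
  | succ N ih =>
    rw [sum_range_succ]
    have h := zp_upper hα (x := (N : ℝ) + 1) (by linarith [Nat.cast_nonneg (α := ℝ) N])
    push_cast
    have e : 1 + (1 - ((N : ℝ) + 1 + 1) ^ (-α)) / α
        = (1 + (1 - ((N : ℝ) + 1) ^ (-α)) / α)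
          + (((N : ℝ) + 1) ^ (-α) - ((N : ℝ) + 1 + 1) ^ (-α)) / α := by
      ring
    rw [e]
    exact add_le_add ih h

theorem zp_tsum {α : ℝ} (hα : 0 < α) :
    1 / α ≤ ∑' n : ℕ, ((n : ℝ) + 1) ^ (-(1 + α)) ∧
      ∑' n : ℕ, ((n : ℝ) + 1) ^ (-(1 + α)) ≤ 1 + 1 / α := by
  have hs := zp_summable hα
  have ht := hs.hasSum.tendsto_sum_nat
  constructor
  · have h1 : Filter.Tendsto (fun N : ℕ => (1 - ((N : ℝ) + 1) ^ (-α)) / α) Filter.atTop
        (nhds ((1 - 0) / α)) := by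
      apply Filter.Tendsto.div_const
      apply Filter.Tendsto.const_sub
      have h2 : Filter.Tendsto (fun N : ℕ => (N : ℝ) + 1) Filter.atTop Filter.atTop :=
        Filter.tendsto_atTop_add_const_right _ _ tendsto_natCast_atTop_atTop
      exact (tendsto_rpow_neg_atTop hα).comp h2
    rw [sub_zero] at h1
    exact le_of_tendsto_of_tendsto' h1 ht (zp_partial_lower hα)
  · apply Real.tsum_le_of_sum_range_le
    · intro n
      positivity
    · intro N
      rcases Nat.eq_zero_or_pos N with h0 | h0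
      · subst h0
        simp
        positivity
      · obtain ⟨M, rfl⟩ := Nat.exists_eq_succ_of_ne_zero h0.ne'
        refine (zp_partial_upper hα M).trans ?_
        have h3 : 0 < ((M : ℝ) + 1) ^ (-α) := by positivity
        have h4 : (1 - ((M : ℝ) + 1) ^ (-α)) / α ≤ 1 / α :=
          div_le_div_of_nonneg_right (by linarith) hα.le
        linarith

theorem zp_zeta {α : ℝ} (hα : 0 < α) :
    LSeries (1 : ℕ → ℂ) (1 + α + ((0 : ℝ) : ℂ) * Complex.I)
      = ((∑' n : ℕ, ((n : ℝ) + 1) ^ (-(1 + α)) : ℝ) : ℂ) := by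
  have hs : 1 < ((1 : ℂ) + α + ((0 : ℝ) : ℂ) * Complex.I).re := by
    rw [ZEuler.re_s]
    linarith
  rw [LSeries_one_eq_riemannZeta hs, zeta_eq_tsum_one_div_nat_add_one_cpow hs, Complex.ofReal_tsum]
  refine tsum_congr fun n => ?_
  have h1 : (1 : ℂ) + α + ((0 : ℝ) : ℂ) * Complex.I = ((1 + α : ℝ) : ℂ) := by
    push_cast
    ring
  have h2 : ((n : ℂ) + 1) = (((n : ℝ) + 1 : ℝ) : ℂ) := by push_cast; rfl
  rw [h1, h2, ← Complex.ofReal_cpow (by positivity), Real.rpow_neg (by positivity)]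
  push_cast
  rw [one_div]

/-- `∑ p^{-1-α} = log(1/α) + O(1)` (from `log_euler` with `f = 1`, `u = 0` and
`1/α ≤ ζ(1+α) ≤ 1 + 1/α`). -/
theorem prime_sum (α : ℝ) (hα : 0 < α) (hα1 : α ≤ 1) :
    Real.log (1 / α) - 2 ≤ ∑' p : Nat.Primes, ((p : ℕ) : ℝ) ^ (-(1 + α)) ∧
      ∑' p : Nat.Primes, ((p : ℕ) : ℝ) ^ (-(1 + α)) ≤ Real.log (1 / α) + 2 := by
  have hf : CM (1 : ℕ → ℂ) := ⟨fun m n _ _ => by simp, fun n => by simp⟩
  obtain ⟨h1, h2⟩ := log_euler 1 hf rfl α hα 0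
  have hS : (∑' p : Nat.Primes, (1 : ℕ → ℂ) p * ((p : ℕ) : ℂ) ^ (-(1 + α + ((0 : ℝ) : ℂ) * Complex.I)))
      = ((∑' p : Nat.Primes, ((p : ℕ) : ℝ) ^ (-(1 + α)) : ℝ) : ℂ) := by
    rw [Complex.ofReal_tsum]
    refine tsum_congr fun p => ?_
    have e1 : -((1 : ℂ) + α + ((0 : ℝ) : ℂ) * Complex.I) = ((-(1 + α) : ℝ) : ℂ) := by
      push_cast
      ring
    have e2 : ((p : ℕ) : ℂ) = (((p : ℕ) : ℝ) : ℂ) := by push_cast; rfl
    rw [e1, e2, ← Complex.ofReal_cpow (by positivity)]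
    simp
  obtain ⟨h3, h4⟩ := zp_tsum hα
  rw [hS, Complex.ofReal_re, zp_zeta hα, Complex.norm_real] at h1 h2
  set Z := ∑' n : ℕ, ((n : ℝ) + 1) ^ (-(1 + α)) with hZ
  set S := ∑' p : Nat.Primes, ((p : ℕ) : ℝ) ^ (-(1 + α)) with hSdef
  have hα' : 0 < 1 / α := by positivity
  have hZ0 : 0 < Z := lt_of_lt_of_le hα' h3
  rw [Real.norm_of_nonneg hZ0.le] at h1 h2
  rw [← Real.le_log_iff_exp_le hZ0] at h1
  rw [← Real.log_le_iff_le_exp hZ0] at h2
  have h5 : Real.log (1 / α) ≤ Real.log Z := Real.log_le_log hα' h3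
  have h6 : Real.log Z ≤ Real.log (1 / α) + 1 := by
    have e1 : Z ≤ 2 * (1 / α) := by
      have : 1 ≤ 1 / α := by
        rw [le_div_iff₀ hα]
        linarith
      linarith
    have e2 := Real.log_le_log hZ0 e1
    rw [Real.log_mul (by norm_num) hα'.ne'] at e2
    have e3 := Real.log_two_lt_d9
    linarith
  constructor <;> linarith

end Pool.Agent.MR
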